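import Pool.Agent.Helper56.RZ.FinG

/-!
# Project RZ: Hölder continuity of the splitting and the modulus of continuity at a good point
-/

set_option autoImplicit false

open Set Filter Topology MeasureTheory

open scoped ContDiff

namespace Pool.Agent.Helper56.RZ

theorem rpow_comb {d B α β : ℝ} (hd : 0 ≤ d) (hB : d ≤ B) (hB1 : 1 ≤ B) (hα : 0 < α)
    (hαβ : α ≤ β) (hβ : β ≤ 1) : d ^ β ≤ B * d ^ α := by
  rcases hd.eq_or_lt with h0 | h0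
  · rw [← h0, Real.zero_rpow (by linarith), Real.zero_rpow (by linarith)]
    simp
  · have h1 : d ^ β = d ^ (β - α) * d ^ α := by
      rw [← Real.rpow_add h0]
      congr 1
      ring
    rw [h1]
    refine mul_le_mul_of_nonneg_right ?_ (by positivity)
    calc d ^ (β - α) ≤ B ^ (β - α) := Real.rpow_le_rpow hd hB (by linarith)
      _ ≤ B ^ (1 : ℝ) := Real.rpow_le_rpow_of_exponent_le hB1 (by linarith)
      _ = B := Real.rpow_one B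

theorem Spl.pair1 {X : Type} [TopologicalSpace X] {K : ℕ} {D : Coc X K} {P : Fin 3 → X → End K}
    (h : Spl D P) : Pair D (fun x => P 0 x + P 1 x) (P 2) := by
  refine ⟨(h.cont 0).add (h.cont 1), h.cont 2, fun x => ?_, fun x => ?_, fun x => ?_,
    fun x => ?_, fun x => h.sum x, fun x => ?_, fun x => h.inv x 2⟩
  · simp only [add_mul, mul_add, h.proj]; simp
  · rw [h.proj]; simp
  · simp only [add_mul, h.proj]; simp
  · simp only [mul_add, h.proj]; simp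
  · rw [mul_add, h.inv, h.inv, add_mul]

theorem Spl.pair2 {X : Type} [TopologicalSpace X] {K : ℕ} {D : Coc X K} {P : Fin 3 → X → End K}
    (h : Spl D P) : Pair D (P 0) (fun x => P 1 x + P 2 x) := by
  refine ⟨h.cont 0, (h.cont 1).add (h.cont 2), fun x => ?_, fun x => ?_, fun x => ?_,
    fun x => ?_, fun x => ?_, fun x => h.inv x 0, fun x => ?_⟩
  · rw [h.proj]; simp
  · simp only [add_mul, mul_add, h.proj]; simp
  · simp only [mul_add, h.proj]; simp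
  · simp only [add_mul, h.proj]; simp
  · rw [← add_assoc]; exact h.sum x
  · rw [mul_add, h.inv, h.inv, add_mul]

/-- two of the four Hölder estimates -/
theorem hold2 (hHA : StmtHA) {K : ℕ} {M : Set (E K)} (hM : IsCompact M) {D : Coc M K}
    {P : Fin 3 → M → End K} (hL : Lin D) (hspl : Spl D P)
    (hprod : ∀ i j : Fin 3, i < j → ∀ x, ‖D.A x * P i x‖ * ‖D.B (D.f x) * P j (D.f x)‖ ≤ 1 / 8)
    (B : ℝ) (hB1 : 1 ≤ B) (hB : ∀ x y : M, ‖(x : E K) - y‖ ≤ B) :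
    ∃ α C : ℝ, 0 < α ∧ α ≤ 1 ∧ 0 ≤ C ∧ ∀ x y : M,
      ‖P 2 y * (P 0 x + P 1 x)‖ ≤ C * ‖(x : E K) - y‖ ^ α ∧
      ‖(P 1 y + P 2 y) * P 0 x‖ ≤ C * ‖(x : E K) - y‖ ^ α := by
  obtain ⟨α1, C1, h1, h1', hC1, e1⟩ := hHA K M hM D _ _ hL hspl.pair1 (fun x => by
    have p1 := hprod 0 2 (by decide) x
    have p2 := hprod 1 2 (by decide) x
    have p3 : ‖D.A x * (P 0 x + P 1 x)‖ ≤ ‖D.A x * P 0 x‖ + ‖D.A x * P 1 x‖ := by
      rw [mul_add]; exact norm_add_le _ _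
    have p4 := mul_le_mul_of_nonneg_left p3 (norm_nonneg (D.B (D.f x) * P 2 (D.f x)))
    refine le_trans p4 ?_
    rw [mul_add]
    linarith [mul_comm ‖D.A x * P 0 x‖ ‖D.B (D.f x) * P 2 (D.f x)‖,
      mul_comm ‖D.A x * P 1 x‖ ‖D.B (D.f x) * P 2 (D.f x)‖])
  obtain ⟨α2, C2, h2, h2', hC2, e2⟩ := hHA K M hM D _ _ hL hspl.pair2 (fun x => by
    have p1 := hprod 0 1 (by decide) x
    have p2 := hprod 0 2 (by decide) x
    have p3 : ‖D.B (D.f x) * (P 1 (D.f x) + P 2 (D.f x))‖ ≤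
        ‖D.B (D.f x) * P 1 (D.f x)‖ + ‖D.B (D.f x) * P 2 (D.f x)‖ := by
      rw [mul_add]; exact norm_add_le _ _
    have p4 := mul_le_mul_of_nonneg_right p3 (norm_nonneg (D.A x * P 0 x))
    refine le_trans p4 ?_
    rw [add_mul]
    linarith [mul_comm ‖D.A x * P 0 x‖ ‖D.B (D.f x) * P 1 (D.f x)‖,
      mul_comm ‖D.A x * P 0 x‖ ‖D.B (D.f x) * P 2 (D.f x)‖])
  refine ⟨min α1 α2, B * (C1 + C2), lt_min h1 h2, (min_le_left _ _).trans h1', by positivity,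
    fun x y => ?_⟩
  have hd := norm_nonneg ((x : E K) - y)
  have q1 := rpow_comb hd (hB x y) hB1 (lt_min h1 h2) (min_le_left α1 α2) h1'
  have q2 := rpow_comb hd (hB x y) hB1 (lt_min h1 h2) (min_le_right α1 α2) h2'
  have hpos : 0 ≤ ‖(x : E K) - y‖ ^ min α1 α2 := by positivity
  refine ⟨(e1 x y).trans ?_, (e2 x y).trans ?_⟩
  · calc C1 * ‖(x : E K) - y‖ ^ α1 ≤ C1 * (B * ‖(x : E K) - y‖ ^ min α1 α2) :=
          mul_le_mul_of_nonneg_left q1 hC1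
      _ = (B * C1) * ‖(x : E K) - y‖ ^ min α1 α2 := by ring
      _ ≤ (B * (C1 + C2)) * ‖(x : E K) - y‖ ^ min α1 α2 := by
          refine mul_le_mul_of_nonneg_right ?_ hpos
          exact mul_le_mul_of_nonneg_left (by linarith) (by linarith)
  · calc C2 * ‖(x : E K) - y‖ ^ α2 ≤ C2 * (B * ‖(x : E K) - y‖ ^ min α1 α2) :=
          mul_le_mul_of_nonneg_left q2 hC2
      _ = (B * C2) * ‖(x : E K) - y‖ ^ min α1 α2 := by ring
      _ ≤ (B * (C1 + C2)) * ‖(x : E K) - y‖ ^ min α1 α2 := by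
          refine mul_le_mul_of_nonneg_right ?_ hpos
          exact mul_le_mul_of_nonneg_left (by linarith) (by linarith)

/-- the eight products give the difference of the splittings -/
theorem diff_of (hAL : StmtAL) {X : Type} [TopologicalSpace X] {K : ℕ} {D : Coc X K}
    {P : Fin 3 → X → End K} (hspl : Spl D P) {R : ℝ} (hR : ∀ x i, ‖P i x‖ ≤ R) (x y : X) (b : ℝ)
    (h1 : ‖P 2 y * (P 0 x + P 1 x)‖ ≤ b ∧ ‖(P 1 y + P 2 y) * P 0 x‖ ≤ b)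
    (h2 : ‖P 0 y * (P 2 x + P 1 x)‖ ≤ b ∧ ‖(P 1 y + P 0 y) * P 2 x‖ ≤ b)
    (h3 : ‖P 2 x * (P 0 y + P 1 y)‖ ≤ b ∧ ‖(P 1 x + P 2 x) * P 0 y‖ ≤ b)
    (h4 : ‖P 0 x * (P 2 y + P 1 y)‖ ≤ b ∧ ‖(P 1 x + P 0 x) * P 2 y‖ ≤ b) (i : Fin 3) :
    ‖P i x - P i y‖ ≤ 2 * R * ‖D.T x - D.T y‖ + 4 * R * b := by
  rw [add_comm (P 2 x), add_comm (P 1 y)] at h2
  rw [add_comm (P 2 y), add_comm (P 1 x) (P 0 x)] at h4
  exact hAL K (fun i => P i x) (fun i => P i y) (D.T x) (D.T y) R b (hspl.proj x) (hspl.sum x)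
    (hspl.proj y) (hspl.sum y) (hR x) (hR y) h1.1 h1.2 h2.1 h2.2 h3.1 h3.2 h4.1 h4.2 i

theorem diam_bd {K : ℕ} {M : Set (E K)} (hM : IsCompact M) :
    ∃ B : ℝ, 1 ≤ B ∧ ∀ x y : M, ‖(x : E K) - y‖ ≤ B := by
  obtain ⟨R, hR⟩ := hM.isBounded.exists_norm_le
  refine ⟨max 1 (R + R), le_max_left _ _, fun x y => ?_⟩
  exact (norm_sub_le _ _).trans ((add_le_add (hR x x.2) (hR y y.2)).trans (le_max_right _ _))

/-- the splitting is Hölder -/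
theorem holder_all (hDN : StmtDN) (hPW : StmtPW) (hLP : StmtLP) (hHA : StmtHA) (hAL : StmtAL)
    {K : ℕ} {M : Set (E K)} (hM : IsCompact M) {C : Coc M K} {P : Fin 3 → M → End K} {n : ℕ}
    (hL : Lin C) (hspl : Spl C P) (hdom : Dom C P n) :
    ∃ α Cα : ℝ, 0 < α ∧ α ≤ 1 ∧ ∀ (i : Fin 3) (x y : M),
      ‖P i x - P i y‖ ≤ Cα * ‖(x : E K) - y‖ ^ α := by
  have hcM : CompactSpace M := isCompact_iff_compactSpace.1 hM
  obtain ⟨q, Cq, hq0, hq1, hCq, hdn⟩ := hDN M K C P n hspl hdom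
  obtain ⟨k, hk⟩ := exists_pow_lt_of_lt_one (show 0 < 1 / (8 * Cq) by positivity) hq1
  have hk' : Cq * q ^ k ≤ 1 / 8 := by
    have h1 := mul_le_mul_of_nonneg_left hk.le (show 0 ≤ Cq by linarith)
    have h2 : Cq * (1 / (8 * Cq)) = 1 / 8 := by field_simp
    linarith
  obtain ⟨D, hD, hDs, hDn⟩ := hPW M K C (k * n)
  have hsD := hDs _ hspl
  have hLD : Lin D := hLP K M hM C D (k * n) hD hL
  have hprod : ∀ i j : Fin 3, i < j → ∀ x, ‖D.A x * P i x‖ * ‖D.B (D.f x) * P j (D.f x)‖ ≤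
      1 / 8 := fun i j hij x => by
    have h1 := (hdn k x).2.2 i j hij
    rw [← hD.A, ← hD.f, ← hD.B] at h1
    exact h1.trans hk'
  have hprod' : ∀ i j : Fin 3, i < j → ∀ x, ‖D.inv.A x * P (2 - i) x‖ *
      ‖D.inv.B (D.inv.f x) * P (2 - j) (D.inv.f x)‖ ≤ 1 / 8 := fun i j hij x => by
    have hji : (2 : Fin 3) - j < 2 - i := by
      revert hij
      fin_cases i <;> fin_cases j <;> decide
    have h1 := hprod (2 - j) (2 - i) hji (D.f.symm x)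
    rw [Homeomorph.apply_symm_apply, mul_comm] at h1
    exact h1
  obtain ⟨B, hB1, hB⟩ := diam_bd hM
  obtain ⟨α1, C1, h1, h1', hC1, e1⟩ := hold2 hHA hM hLD hsD hprod B hB1 hB
  obtain ⟨α2, C2, h2, h2', hC2, e2⟩ := hold2 hHA hM hLD.inv hsD.inv' hprod' B hB1 hB
  obtain ⟨R, hR1, hR⟩ := exists_bd3 P hspl.cont
  obtain ⟨L, hL0, hLip⟩ := hLD.lip
  refine ⟨min α1 α2, 2 * R * (L * B) + 4 * R * (B * (C1 + C2)), lt_min h1 h2,
    (min_le_left _ _).trans h1', fun i x y => ?_⟩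
  have hd := norm_nonneg ((x : E K) - y)
  have q0 := rpow_comb hd (hB x y) hB1 (lt_min h1 h2) ((min_le_left α1 α2).trans h1') le_rfl
  have q1 := rpow_comb hd (hB x y) hB1 (lt_min h1 h2) (min_le_left α1 α2) h1'
  have q2 := rpow_comb hd (hB x y) hB1 (lt_min h1 h2) (min_le_right α1 α2) h2'
  have hpos : 0 ≤ ‖(x : E K) - y‖ ^ min α1 α2 := by positivity
  rw [Real.rpow_one] at q0
  have s1 : C1 * ‖(x : E K) - y‖ ^ α1 ≤ B * (C1 + C2) * ‖(x : E K) - y‖ ^ min α1 α2 := by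
    calc C1 * ‖(x : E K) - y‖ ^ α1 ≤ C1 * (B * ‖(x : E K) - y‖ ^ min α1 α2) :=
          mul_le_mul_of_nonneg_left q1 hC1
      _ = (B * C1) * ‖(x : E K) - y‖ ^ min α1 α2 := by ring
      _ ≤ (B * (C1 + C2)) * ‖(x : E K) - y‖ ^ min α1 α2 := by
          refine mul_le_mul_of_nonneg_right ?_ hpos
          exact mul_le_mul_of_nonneg_left (by linarith) (by linarith)
  have s2 : C2 * ‖(x : E K) - y‖ ^ α2 ≤ B * (C1 + C2) * ‖(x : E K) - y‖ ^ min α1 α2 := by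
    calc C2 * ‖(x : E K) - y‖ ^ α2 ≤ C2 * (B * ‖(x : E K) - y‖ ^ min α1 α2) :=
          mul_le_mul_of_nonneg_left q2 hC2
      _ = (B * C2) * ‖(x : E K) - y‖ ^ min α1 α2 := by ring
      _ ≤ (B * (C1 + C2)) * ‖(x : E K) - y‖ ^ min α1 α2 := by
          refine mul_le_mul_of_nonneg_right ?_ hpos
          exact mul_le_mul_of_nonneg_left (by linarith) (by linarith)
  have a1 := e1 x y
  have a2 := e2 x y
  have a3 := e1 y x
  have a4 := e2 y x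
  rw [norm_sub_rev (y : E K) x] at a3 a4
  have key := diff_of hAL hsD hR x y (B * (C1 + C2) * ‖(x : E K) - y‖ ^ min α1 α2)
    ⟨a1.1.trans s1, a1.2.trans s1⟩ ⟨a2.1.trans s2, a2.2.trans s2⟩
    ⟨a3.1.trans s1, a3.2.trans s1⟩ ⟨a4.1.trans s2, a4.2.trans s2⟩ i
  have hT := (hLip x y).2.2
  calc ‖P i x - P i y‖ ≤ 2 * R * ‖D.T x - D.T y‖ +
        4 * R * (B * (C1 + C2) * ‖(x : E K) - y‖ ^ min α1 α2) := key
    _ ≤ 2 * R * (L * (B * ‖(x : E K) - y‖ ^ min α1 α2)) +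
        4 * R * (B * (C1 + C2) * ‖(x : E K) - y‖ ^ min α1 α2) := by
        have : ‖D.T x - D.T y‖ ≤ L * (B * ‖(x : E K) - y‖ ^ min α1 α2) :=
          hT.trans (mul_le_mul_of_nonneg_left q0 hL0)
        have h2R : 0 ≤ 2 * R := by linarith
        linarith [mul_le_mul_of_nonneg_left this h2R]
    _ = (2 * R * (L * B) + 4 * R * (B * (C1 + C2))) * ‖(x : E K) - y‖ ^ min α1 α2 := by ring

/-- numerical estimate -/
theorem num1 {ρ d B ε α θ : ℝ} {r : ℕ} (hρ : 0 < ρ) (hρ1 : ρ ≤ 1) (hd : 0 ≤ d) (hB : 0 ≤ B)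
    (hdB : d ≤ B * ρ ^ r) (hr : 1 ≤ r) (hα : 0 < α) (h1 : θ ≤ 1 - 4 * ε)
    (h2 : θ ≤ 1 - 4 * ε + (r - 1) * α - (r - 1)) :
    ρ ^ (-(4 * ε)) * d + ρ ^ (1 - 4 * ε) * (d / ρ) ^ α ≤
      (B + B ^ α) * (ρ ^ θ * ρ ^ (r - 1)) := by
  obtain ⟨s, hs⟩ : ∃ s : ℕ, r = s + 1 := ⟨r - 1, by omega⟩
  have hs' : r - 1 = s := by omega
  have hrs : (r : ℝ) - 1 = s := by rw [hs]; push_cast; ring
  rw [hrs] at h2
  rw [hs']
  have e1 : ρ ^ (-(4 * ε)) * d ≤ B * (ρ ^ θ * ρ ^ s) := by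
    calc ρ ^ (-(4 * ε)) * d ≤ ρ ^ (-(4 * ε)) * (B * ρ ^ r) :=
          mul_le_mul_of_nonneg_left hdB (by positivity)
      _ = B * (ρ ^ (-(4 * ε)) * ρ ^ (r : ℝ)) := by rw [Real.rpow_natCast]; ring
      _ = B * ρ ^ (-(4 * ε) + r) := by rw [← Real.rpow_add hρ]
      _ ≤ B * ρ ^ (θ + s) := by
          refine mul_le_mul_of_nonneg_left ?_ hB
          exact Real.rpow_le_rpow_of_exponent_ge hρ hρ1 (by linarith)
      _ = B * (ρ ^ θ * ρ ^ s) := by rw [Real.rpow_add hρ, Real.rpow_natCast]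
  have e2 : ρ ^ (1 - 4 * ε) * (d / ρ) ^ α ≤ B ^ α * (ρ ^ θ * ρ ^ s) := by
    have h3 : d / ρ ≤ B * ρ ^ s := by
      rw [div_le_iff₀ hρ, mul_assoc, ← pow_succ, ← hs]
      exact hdB
    have h4 : (d / ρ) ^ α ≤ B ^ α * ρ ^ (s * α) := by
      calc (d / ρ) ^ α ≤ (B * ρ ^ s) ^ α := Real.rpow_le_rpow (by positivity) h3 hα.le
        _ = B ^ α * ρ ^ (s * α) := by
            rw [Real.mul_rpow hB (by positivity), ← Real.rpow_natCast, ← Real.rpow_mul hρ.le]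
    calc ρ ^ (1 - 4 * ε) * (d / ρ) ^ α ≤ ρ ^ (1 - 4 * ε) * (B ^ α * ρ ^ (s * α)) :=
          mul_le_mul_of_nonneg_left h4 (by positivity)
      _ = B ^ α * (ρ ^ (1 - 4 * ε) * ρ ^ (s * α)) := by ring
      _ = B ^ α * ρ ^ (1 - 4 * ε + s * α) := by rw [← Real.rpow_add hρ]
      _ ≤ B ^ α * ρ ^ (θ + s) := by
          refine mul_le_mul_of_nonneg_left ?_ (by positivity)
          exact Real.rpow_le_rpow_of_exponent_ge hρ hρ1 (by linarith)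
      _ = B ^ α * (ρ ^ θ * ρ ^ s) := by rw [Real.rpow_add hρ, Real.rpow_natCast]
  linarith [add_mul B (B ^ α) (ρ ^ θ * ρ ^ s)]

/-- the modulus of continuity at a good point -/
theorem modul (hRG : StmtRG) (hAL : StmtAL) {K : ℕ} {M : Set (E K)} (hM : IsCompact M)
    {D : Coc M K} {P : Fin 3 → E K → End K} {a b c : M → ℝ} {C0 Λ ε C' α Cα : ℝ} {r : ℕ}
    (hr : 2 ≤ r) (hspl : Spl D (fun i (x : M) => P i x)) (hL : Lin D)
    (hR : Rates D (fun i (x : M) => P i x) a b c C0) (hC0 : 0 ≤ C0) (hΛ : 0 < Λ)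
    (ha : ∀ x, Λ ≤ a x) (hb : ∀ x, Λ ≤ b x) (hε : 0 < ε) (hbig : 3 * C0 + 4 ≤ ε * Λ)
    (hα0 : 0 < α) (hα1 : α ≤ 1)
    (hHol : ∀ (i : Fin 3) (x y : M), ‖P i x - P i y‖ ≤ Cα * ‖(x : E K) - y‖ ^ α)
    (h4 : 4 * ε < 1) (h5 : 4 * ε < 1 + (r - 1) * α - (r - 1)) (x0 : M)
    (hfwd : GoodF D a b c Λ ε C' x0)
    (hbwd : GoodF D.inv (fun x => b (D.f.symm x)) (fun x => a (D.f.symm x))
      (fun x => c (D.f.symm x)) Λ ε C' x0) : Modul M P r x0 := by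
  have hcM : CompactSpace M := isCompact_iff_compactSpace.1 hM
  intro B hB η hη
  obtain ⟨C1, ρ1, hC1, hρ1, hρ11, e1⟩ := hRG K M hM D (fun i (x : M) => P i x) a b c C0 Λ ε C' α
    Cα (max 1 B) hspl hL hR hC0 hΛ ha hε hbig hα0 hα1 hHol (le_max_left _ _)
  obtain ⟨C2, ρ2, hC2, hρ2, hρ21, e2⟩ := hRG K M hM D.inv (fun i (x : M) => P (2 - i) x) _ _ _ C0
    Λ ε C' α Cα (max 1 B) hspl.inv' hL.inv hR.inv hC0 hΛ (fun x => hb _) hε hbig hα0 hα1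
    (fun i x y => hHol _ x y) (le_max_left _ _)
  obtain ⟨R, hR1, hRb⟩ := exists_bd3 _ hspl.cont
  obtain ⟨L, hL0, hLip⟩ := hL.lip
  obtain ⟨θ, hθ⟩ : ∃ θ : ℝ, θ = min (1 - 4 * ε) (1 - 4 * ε + (r - 1) * α - (r - 1)) := ⟨_, rfl⟩
  have hθ0 : 0 < θ := by
    rw [hθ]
    exact lt_min (by linarith) (by linarith)
  have hθ1 : θ ≤ 1 - 4 * ε := by rw [hθ]; exact min_le_left _ _
  have hθ2 : θ ≤ 1 - 4 * ε + (r - 1) * α - (r - 1) := by rw [hθ]; exact min_le_right _ _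
  obtain ⟨G, hG⟩ : ∃ G : ℝ, G = 2 * R * (L * B) + 4 * R * ((C1 + C2) * (B + B ^ α)) := ⟨_, rfl⟩
  have hG0 : 0 ≤ G := by rw [hG]; positivity
  refine ⟨min (min ρ1 ρ2) (min (1 / (B + 1)) ((η / (G + 1)) ^ (1 / θ))),
    lt_min (lt_min hρ1 hρ2) (lt_min (by positivity) (by positivity)), ?_⟩
  intro ρ hρ hρm x hx y hy hxx hyx hxy i
  have m1 : ρ ≤ ρ1 := hρm.trans ((min_le_left _ _).trans (min_le_left _ _))
  have m2 : ρ ≤ ρ2 := hρm.trans ((min_le_left _ _).trans (min_le_right _ _))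
  have m3 : ρ ≤ 1 / (B + 1) := hρm.trans ((min_le_right _ _).trans (min_le_left _ _))
  have m4 : ρ ≤ (η / (G + 1)) ^ (1 / θ) := hρm.trans ((min_le_right _ _).trans (min_le_right _ _))
  have hρle : ρ ≤ 1 := m1.trans hρ11
  have hd := norm_nonneg (x - y)
  -- the distance is at most `ρ`
  have hdρ : ‖x - y‖ ≤ ρ := by
    refine hxy.trans ?_
    obtain ⟨s, hs⟩ : ∃ s : ℕ, r = s + 2 := ⟨r - 2, by omega⟩
    rw [hs, pow_add, sq]
    have h6 : ρ ^ s ≤ 1 := pow_le_one₀ hρ.le hρle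
    rw [le_div_iff₀ (by positivity)] at m3
    have h7 : B * ρ ≤ 1 := by linarith [mul_comm ρ (B + 1), add_mul B 1 ρ]
    calc B * (ρ ^ s * (ρ * ρ)) = ρ ^ s * ((B * ρ) * ρ) := by ring
      _ ≤ 1 * (1 * ρ) := by
          refine mul_le_mul h6 (mul_le_mul_of_nonneg_right h7 hρ.le) (by positivity) (by norm_num)
      _ = ρ := by ring
  have hBm : B ≤ max 1 B := le_max_right _ _
  have c1 : ‖x - (x0 : E K)‖ ≤ max 1 B * ρ := hxx.trans (mul_le_mul_of_nonneg_right hBm hρ.le)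
  have c2 : ‖y - (x0 : E K)‖ ≤ max 1 B * ρ := hyx.trans (mul_le_mul_of_nonneg_right hBm hρ.le)
  have hn := num1 (ρ := ρ) (d := ‖x - y‖) (B := B) (ε := ε) (α := α) (θ := θ) (r := r) hρ hρle hd
    hB.le hxy (by omega) hα0 hθ1 hθ2
  have hdρ' : ‖y - x‖ ≤ ρ := by rw [norm_sub_rev]; exact hdρ
  have a1 := e1 x0 hfwd ρ hρ m1 ⟨x, hx⟩ ⟨y, hy⟩ c1 c2 hdρ
  have a2 := e2 x0 hbwd ρ hρ m2 ⟨x, hx⟩ ⟨y, hy⟩ c1 c2 hdρ
  have a3 := e1 x0 hfwd ρ hρ m1 ⟨y, hy⟩ ⟨x, hx⟩ c2 c1 hdρ'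
  have a4 := e2 x0 hbwd ρ hρ m2 ⟨y, hy⟩ ⟨x, hx⟩ c2 c1 hdρ'
  simp only [norm_sub_rev y x] at a3 a4
  obtain ⟨Y, hY⟩ : ∃ Y : ℝ, Y = (C1 + C2) * ((B + B ^ α) * (ρ ^ θ * ρ ^ (r - 1))) := ⟨_, rfl⟩
  have hW : 0 ≤ (B + B ^ α) * (ρ ^ θ * ρ ^ (r - 1)) := by positivity
  have s1 : C1 * (ρ ^ (-(4 * ε)) * ‖x - y‖ + ρ ^ (1 - 4 * ε) * (‖x - y‖ / ρ) ^ α) ≤ Y := by
    rw [hY]
    refine (mul_le_mul_of_nonneg_left hn hC1).trans (mul_le_mul_of_nonneg_right ?_ hW)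
    linarith
  have s2 : C2 * (ρ ^ (-(4 * ε)) * ‖x - y‖ + ρ ^ (1 - 4 * ε) * (‖x - y‖ / ρ) ^ α) ≤ Y := by
    rw [hY]
    refine (mul_le_mul_of_nonneg_left hn hC2).trans (mul_le_mul_of_nonneg_right ?_ hW)
    linarith
  have key := diff_of hAL hspl hRb ⟨x, hx⟩ ⟨y, hy⟩ Y ⟨a1.1.trans s1, a1.2.trans s1⟩
    ⟨a2.1.trans s2, a2.2.trans s2⟩ ⟨a3.1.trans s1, a3.2.trans s1⟩
    ⟨a4.1.trans s2, a4.2.trans s2⟩ i
  have hT := (hLip ⟨x, hx⟩ ⟨y, hy⟩).2.2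
  have hθle : ρ ^ r ≤ ρ ^ θ * ρ ^ (r - 1) := by
    have h6 : ρ ≤ ρ ^ θ := by
      calc ρ = ρ ^ (1 : ℝ) := (Real.rpow_one ρ).symm
        _ ≤ ρ ^ θ := Real.rpow_le_rpow_of_exponent_ge hρ hρle (by linarith)
    have h7 : ρ ^ r = ρ * ρ ^ (r - 1) := by
      rw [← pow_succ']
      congr 1
      omega
    rw [h7]
    exact mul_le_mul_of_nonneg_right h6 (by positivity)
  have hfin : ‖P i x - P i y‖ ≤ G * (ρ ^ θ * ρ ^ (r - 1)) := by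
    have h6 : ‖D.T ⟨x, hx⟩ - D.T ⟨y, hy⟩‖ ≤ L * B * (ρ ^ θ * ρ ^ (r - 1)) := by
      calc ‖D.T ⟨x, hx⟩ - D.T ⟨y, hy⟩‖ ≤ L * ‖x - y‖ := hT
        _ ≤ L * (B * ρ ^ r) := mul_le_mul_of_nonneg_left hxy hL0
        _ ≤ L * (B * (ρ ^ θ * ρ ^ (r - 1))) :=
            mul_le_mul_of_nonneg_left (mul_le_mul_of_nonneg_left hθle hB.le) hL0
        _ = L * B * (ρ ^ θ * ρ ^ (r - 1)) := by ring
    have h7 : 0 ≤ 2 * R := by linarith
    calc ‖P i x - P i y‖ ≤ 2 * R * ‖D.T ⟨x, hx⟩ - D.T ⟨y, hy⟩‖ + 4 * R * Y := key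
      _ ≤ 2 * R * (L * B * (ρ ^ θ * ρ ^ (r - 1))) + 4 * R * Y := by
          linarith [mul_le_mul_of_nonneg_left h6 h7]
      _ = G * (ρ ^ θ * ρ ^ (r - 1)) := by rw [hY, hG]; ring
  refine hfin.trans ?_
  have h6 : ρ ^ θ ≤ η / (G + 1) := by
    calc ρ ^ θ ≤ ((η / (G + 1)) ^ (1 / θ)) ^ θ := Real.rpow_le_rpow hρ.le m4 hθ0.le
      _ = η / (G + 1) := by
          rw [← Real.rpow_mul (by positivity), one_div_mul_cancel hθ0.ne', Real.rpow_one]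
  rw [← mul_assoc]
  refine mul_le_mul_of_nonneg_right ?_ (by positivity)
  have h7 : 0 ≤ ρ ^ θ := by positivity
  rw [le_div_iff₀ (by positivity)] at h6
  linarith [mul_comm (ρ ^ θ) (G + 1), add_mul G 1 (ρ ^ θ)]

end Pool.Agent.Helper56.RZ
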