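import Pool.Agent.Helper56.RZ.FinH
import Pool.Agent.Helper56.RZ.FinK

/-!
# Project RZ: the second theorem
-/

set_option autoImplicit false

open Set Filter Topology MeasureTheory

open scoped ContDiff

namespace Pool.Agent.Helper56.RZ

/-- the strong bundles are one-dimensional -/
def RankOne {K : ℕ} (M : Set (E K)) (P : Fin 3 → E K → End K) : Prop :=
  ∀ x ∈ M, Module.finrank ℝ (LinearMap.range (P 0 x : E K →ₗ[ℝ] E K)) = 1 ∧
    Module.finrank ℝ (LinearMap.range (P 2 x : E K →ₗ[ℝ] E K)) = 1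

/-- the splitting is `α`-Hölder on `M` -/
def HolderAll {K : ℕ} (M : Set (E K)) (P : Fin 3 → E K → End K) (α : ℝ) : Prop :=
  ∃ C : ℝ, ∀ x ∈ M, ∀ y ∈ M, ∀ i, ‖P i x - P i y‖ ≤ C * ‖x - y‖ ^ α

/-- the second theorem for perturbations `f ∘ h` -/
def StmtB0 : Prop := ∀ (N K r : ℕ) (M : Set (E K)) (m : Measure (E K))
  (f f' : E K → E K) (P : Fin 3 → E K → End K), 2 ≤ r →
  SmoothVolume N K M m → IsDiffeo r M f f' → Preserves M m f → PH M f f' P → RankOne M P →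
  (r = 2 ∨ ∃ α : ℝ, α ≤ 1 ∧ ((r : ℝ) - 2) / (r - 1) < α ∧ HolderAll M P α) →
  ∀ ε > 0, ∃ (h h' : E K → E K) (Q : Fin 3 → E K → End K),
    IsDiffeo ∞ M h h' ∧ Preserves M m h ∧ Small r ε M h ∧ Small r ε M h' ∧
    PH M (f ∘ h) (h' ∘ f') Q ∧ (∀ x ∈ M, ∀ i, ‖Q i x - P i x‖ ≤ ε) ∧
    ¬ ∀ᵐ x ∂m, CentralZero M (f ∘ h) (h' ∘ f') Q x

/-- the second theorem -/
def StmtFinalB : Prop := ∀ (N K r : ℕ) (s : WithTop ℕ∞) (M : Set (E K))
  (m : Measure (E K)) (f f' : E K → E K) (P : Fin 3 → E K → End K), 2 ≤ r →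
  (r : WithTop ℕ∞) ≤ s → s ≤ ∞ →
  SmoothVolume N K M m → IsDiffeo s M f f' → Preserves M m f → PH M f f' P → RankOne M P →
  (r = 2 ∨ ∃ α : ℝ, α ≤ 1 ∧ ((r : ℝ) - 2) / (r - 1) < α ∧ HolderAll M P α) →
  ∀ (ι : Type) [Finite ι] (c : ι → Chart N K M) (L : ι → Set (E N)),
  (∀ i, IsCompact (L i) ∧ L i ⊆ (c i).V) → ∀ ε > 0,
  ∃ (g g' : E K → E K) (Q : Fin 3 → E K → End K),
    IsDiffeo s M g g' ∧ Preserves M m g ∧ CrClose r ε c L f g ∧
    PH M g g' Q ∧ (∀ x ∈ M, ∀ i, ‖Q i x - P i x‖ ≤ ε) ∧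
    ¬ ∀ᵐ x ∂m, CentralZero M g g' Q x

/-- vanishing exponents give a vanishing integral -/
theorem cint_zero (hE1 : StmtE1) (hMS : StmtMS) (hT4 : StmtT4) (hT5 : StmtT5) {N K : ℕ}
    {M : Set (E K)} {m : Measure (E K)} {g g' : E K → E K} {Q : Fin 3 → E K → End K}
    (hSV : SmoothVolume N K M m) (hg : IsDiffeo 1 M g g') (hgm : Preserves M m g)
    (hPH : PH M g g' Q) (h : ∀ᵐ x ∂m, CentralZero M g g' Q x) : CInt M m g Q = 0 := by
  obtain ⟨-, hfin, hMSp, -, -⟩ := hMS N K M m hSV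
  have hcM : CompactSpace M := isCompact_iff_compactSpace.1 hSV.compact
  have hfin' : IsFiniteMeasure (m.comap ((↑) : M → E K)) := hfin
  have hPi : ContinuousOn (Pi M) M :=
    (((hPH.cont 0).add (hPH.cont 1)).add (hPH.cont 2)).congr fun x hx => (hPH.sum x hx).symm
  obtain ⟨C, hC⟩ := hT4 K M g g' hPi hg
  obtain ⟨-, -, -, hto, -⟩ := hT5 K M g g' C hg hC
  obtain ⟨hspl, n, hdom⟩ := hto Q hPH
  rw [← cint_eq hMS hSV hC Q (fun x : M => Q 1 x) (fun _ => rfl)]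
  exact hE1 M K C (fun x : M => Q 1 x) (m.comap ((↑) : M → E K)) (hspl.sub 1)
    (hMSp g C.f hgm hC.rf) (cz_ae hMS hT5 hSV hg hC Q (fun i x => Q i x) (fun _ _ => rfl) h)

/-- the derivative cocycle of a `C^2` diffeomorphism is uniformly differentiable and Lipschitz -/
theorem lin_of (hLN : StmtLN) (hLZ : StmtLZ) {N K : ℕ} {M : Set (E K)} {m : Measure (E K)}
    {f f' : E K → E K} {C : Coc M K} (hSV : SmoothVolume N K M m) (hf : IsDiffeo 2 M f f')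
    (hC : Rep C f f') : Lin C := by
  have hf1 : IsDiffeo 1 M f f' := hf.of_le' (by norm_num)
  obtain ⟨L1, hL1, h1⟩ := hLZ N K M m f hSV hf.smooth
  obtain ⟨L2, hL2, h2⟩ := hLZ N K M m f' hSV hf.smooth'
  refine ⟨fun ε hε => ?_, fun ε hε => ?_, max L1 L2, hL1.trans (le_max_left _ _),
    fun x y => ?_⟩
  · obtain ⟨δ, hδ, h⟩ := hLN N K M m f hSV hf1.smooth ε hε
    refine ⟨δ, hδ, fun x y hxy => ?_⟩
    rw [hC.rf, hC.rf, hC.rA]
    exact h x x.2 y y.2 hxy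
  · obtain ⟨δ, hδ, h⟩ := hLN N K M m f' hSV hf1.smooth' ε hε
    refine ⟨δ, hδ, fun x y hxy => ?_⟩
    rw [hC.rf', hC.rf', hC.rB]
    exact h x x.2 y y.2 hxy
  · have hd := norm_nonneg ((x : E K) - y)
    rw [hC.rA, hC.rA, hC.rB, hC.rB, hC.rT, hC.rT]
    refine ⟨(h1 x x.2 y y.2).1.trans ?_, (h2 x x.2 y y.2).1.trans ?_,
      (h1 x x.2 y y.2).2.trans ?_⟩
    · exact mul_le_mul_of_nonneg_right (le_max_left _ _) hd
    · exact mul_le_mul_of_nonneg_right (le_max_right _ _) hd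
    · exact mul_le_mul_of_nonneg_right (le_max_left _ _) hd

theorem mainB0 (hCore : StmtCore) (hRT : StmtRT) (hBL : StmtBL) (hBS : StmtBS) (hMX : StmtMX)
    (hCI : StmtCI) (hNM : StmtNM) (hPW : StmtPW) (hLP : StmtLP) (hMS : StmtMS) (hT4 : StmtT4)
    (hT5 : StmtT5) (hSW : StmtSW) (hE1 : StmtE1) (hLN : StmtLN) (hLZ : StmtLZ) (hDN : StmtDN)
    (hHA : StmtHA) (hAL : StmtAL) (hRG : StmtRG) : StmtB0 := by
  intro N K r M m f f' P hr hSV hf hfm hPH hrk hreg ε hε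
  by_contra hcon
  push Not at hcon
  have hr2 : (2 : ℝ) ≤ r := by exact_mod_cast hr
  have hf1 : IsDiffeo 1 M f f' := hf.of_le' (by exact_mod_cast (by omega : 1 ≤ r))
  have hf2 : IsDiffeo 2 M f f' := hf.of_le' (by exact_mod_cast hr)
  have hPi : ContinuousOn (Pi M) M :=
    (((hPH.cont 0).add (hPH.cont 1)).add (hPH.cont 2)).congr fun x hx => (hPH.sum x hx).symm
  obtain ⟨C, hC⟩ := hT4 K M f f' hPi hf1
  obtain ⟨-, -, -, hto, -⟩ := hT5 K M f f' C hf1 hC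
  obtain ⟨hspl, n, hdom⟩ := hto P hPH
  have hLin := lin_of hLN hLZ hSV hf2 hC
  have hSid : Small r ε M (id : E K → E K) :=
    ⟨fun _ => 0, contDiff_const, fun x _ => by simp, fun k _ x => by
      simpa using hε.le⟩
  have hmid : Preserves M m (id : E K → E K) := by
    intro A hA
    rw [preimage_id]
    exact measure_inter_conull hSV.null
  -- the exponents of `f` vanish
  have hz : ∀ᵐ x ∂m, CentralZero M f f' P x :=
    hcon id id P (IsDiffeo.id' ∞ M) hmid hSid hSid hPH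
      (fun x _ i => by rw [sub_self, norm_zero]; exact hε.le)
  -- Hölder exponent
  obtain ⟨α, Cα, hα0, hα1, hαr, hHol⟩ : ∃ α Cα : ℝ, 0 < α ∧ α ≤ 1 ∧
      0 < 1 + ((r : ℝ) - 1) * α - (r - 1) ∧ ∀ (i : Fin 3) (x y : M),
      ‖P i x - P i y‖ ≤ Cα * ‖(x : E K) - y‖ ^ α := by
    rcases hreg with h2 | ⟨α, hα1, hα, Cα, hH⟩
    · obtain ⟨α, Cα, h1, h1', hH⟩ := holder_all hDN hPW hLP hHA hAL hSV.compact hLin hspl hdom
      refine ⟨α, Cα, h1, h1', ?_, hH⟩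
      have : (r : ℝ) = 2 := by exact_mod_cast h2
      rw [this]
      linarith
    · have hr1 : (0 : ℝ) < r - 1 := by linarith
      have h0 : 0 ≤ ((r : ℝ) - 2) / (r - 1) := div_nonneg (by linarith) hr1.le
      refine ⟨α, Cα, lt_of_le_of_lt h0 hα, hα1, ?_, fun i x y => hH x x.2 y y.2 i⟩
      rw [div_lt_iff₀ hr1] at hα
      linarith
  obtain ⟨ε', hε', h4, h5⟩ : ∃ ε' : ℝ, 0 < ε' ∧ 4 * ε' < 1 ∧
      4 * ε' < 1 + ((r : ℝ) - 1) * α - (r - 1) := by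
    refine ⟨min (1 / 8) ((1 + ((r : ℝ) - 1) * α - (r - 1)) / 8), lt_min (by norm_num)
      (by linarith), ?_, ?_⟩
    · have := min_le_left (1 / 8 : ℝ) ((1 + ((r : ℝ) - 1) * α - (r - 1)) / 8)
      linarith
    · have := min_le_right (1 / 8 : ℝ) ((1 + ((r : ℝ) - 1) * α - (r - 1)) / 8)
      linarith
  obtain ⟨k, D, a, b, c, C0, Λ, C', x0, g⟩ := gp hRT hBL hBS hMX hCI hNM hPW hMS hT4 hT5 hSW hSV
    hf1 hfm hPH hC hspl hdom hrk hz ε' hε'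
  have hLD : Lin D := hLP K M hSV.compact C D (k * n) g.pow hLin
  have hmod := modul hRG hAL hSV.compact hr g.spl hLD g.rates g.hC0 g.hΛ g.ha g.hb hε' g.big hα0
    hα1 hHol h4 h5 x0 g.fwd g.bwd
  obtain ⟨h, h', Q, hh, hhm, hs, hs', hQ, hQc, hne⟩ := hCore N K r α M m f f' P x0 hr hα0 hα1
    hSV hf hfm hPH x0.2 g.np ⟨univ, isOpen_univ, mem_univ _, Cα, fun x hx y hy i =>
      hHol i ⟨x, hx.1⟩ ⟨y, hy.1⟩⟩ hmod ε hε
  obtain ⟨hMSd, -⟩ := hMS N K M m hSV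
  have hh1 : IsDiffeo 1 M h h' := hh.of_le' (by exact_mod_cast le_top)
  exact hne (cint_zero hE1 hMS hT4 hT5 hSV (hf1.comp' hh1) ((hMSd f f' hf1 hfm).2 h h' hh1 hhm)
    hQ (hcon h h' Q hh hhm hs hs' hQ hQc))

theorem mainB (hB0 : StmtB0) (hT4 : StmtT4) (hT5 : StmtT5) (hSW : StmtSW) (hMS : StmtMS)
    (hCR : StmtCR) : StmtFinalB := by
  intro N K r s M m f f' P hr hrs hs hSV hfs hfm hPH hrk hreg ι _ c L hL ε hε
  have hf : IsDiffeo r M f f' := hfs.of_le' hrs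
  have hf1 : IsDiffeo 1 M f f' := hf.of_le' (by exact_mod_cast (by omega : 1 ≤ r))
  obtain ⟨hMSd, -⟩ := hMS N K M m hSV
  obtain ⟨hfm', -⟩ := hMSd f f' hf1 hfm
  obtain ⟨P0, hP0, hPH0⟩ := ph_inv hT4 hT5 hSW hf1 hPH
  obtain ⟨ε', hε', hcr⟩ := hCR N K r M f hf.smooth ι c L hL ε hε
  have hrk' : RankOne M P0 := fun x hx => by
    rw [hP0 0 x hx, hP0 2 x hx]
    exact ⟨(hrk x hx).2, (hrk x hx).1⟩
  have hreg' : r = 2 ∨ ∃ α : ℝ, α ≤ 1 ∧ ((r : ℝ) - 2) / (r - 1) < α ∧ HolderAll M P0 α := by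
    rcases hreg with h2 | ⟨α, hα1, hα, Cα, hH⟩
    · exact Or.inl h2
    · refine Or.inr ⟨α, hα1, hα, Cα, fun x hx y hy i => ?_⟩
      rw [hP0 i x hx, hP0 i y hy]
      exact hH x hx y hy _
  obtain ⟨h, h', Q, hh, hhm, -, hs', hQPH, hQc, hnot⟩ := hB0 N K r M m f' f P0 hr hSV
    hf.symm hfm' hPH0 hrk' hreg' (min ε ε') (lt_min hε hε')
  have hhs : IsDiffeo s M h h' := hh.of_le' hs
  have hh1 : IsDiffeo 1 M h h' := hh.of_le' (by exact_mod_cast le_top)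
  have hg : IsDiffeo s M (h' ∘ f) (f' ∘ h) := hhs.symm.comp' hfs
  have hg1 : IsDiffeo 1 M (h' ∘ f) (f' ∘ h) := hh1.symm.comp' hf1
  obtain ⟨Q1, hQ1, hPH1⟩ := ph_inv hT4 hT5 hSW hg1.symm hQPH
  obtain ⟨w, hw1, hw2, hw3⟩ := hs'
  refine ⟨h' ∘ f, f' ∘ h, Q1, hg, ?_, ?_, hPH1, ?_, ?_⟩
  · exact (hMSd h' h hh1.symm (hMSd h h' hh1 hhm).1).2 f f' hf1 hfm
  · exact hcr w hw1 (fun k hk x => (hw3 k hk x).trans (min_le_right _ _)) (h' ∘ f)
      fun x hx => hw2 (f x) (hf.maps hx)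
  · intro x hx i
    have h1 := (hQc x hx (2 - i)).trans (min_le_left ε ε')
    rw [hP0 _ x hx, two_sub] at h1
    rw [hQ1 i x hx]
    exact h1
  · intro hae
    apply hnot
    have hMae : ∀ᵐ x ∂m, x ∈ M := by
      rw [ae_iff]
      exact hSV.null
    filter_upwards [hae, hMae] with x hx hxM v hv hv0
    have h1 : Q1 1 x v = v := by
      rw [hQ1 1 x hxM]
      exact hv
    exact (hx v h1 hv0).symm

end Pool.Agent.Helper56.RZ
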