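import Pool.Agent.Helper56.RZ.GoalsE
import Pool.Agent.Helper56.RZ.FinM

/-!
# Project RZ5 (fifth theorem): one-dimensional strong bundles, `C^3` and `C^4`, all `f`

Order: AR5; SC5; VB5; BC5 -> LR5 (with VB5, RTB, NM); OS5;  (second half) TR5; RS5; NR5; OD5 -> EN5; DN5 -> DR5.
All statements are independent: a packet may assume the other statements it names (and all finished
statements of GoalsA - GoalsE).
-/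

set_option autoImplicit false

open Set Filter Topology MeasureTheory

open scoped ContDiff

namespace Pool.Agent.Helper56.RZ

/-- domination over `n` steps at `x` -/
noncomputable def DP {X : Type} [TopologicalSpace X] {K : ℕ} (C : Coc X K)
    (P : Fin 3 → X → End K) (n : ℕ) (x : X) : ℝ :=
  max (‖C.An n x * P 0 x‖ * ‖C.inv.An n (C.f^[n] x) * P 1 (C.f^[n] x)‖)
    (‖C.inv.An n (C.f^[n] x) * P 2 (C.f^[n] x)‖ * ‖C.An n x * P 1 x‖)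

/-- PACKET AR5 (as packet AR, copy Pool/Agent/Helper16/RZ/AR.lean; from F1).  The only change: `χ` is supported in the ball of radius `R`, and the
constants do not depend on `R`.  For `‖y - z0‖ ≤ R`, `ρ ≤ R`, `q s ≤ 1` one has `‖ψ (y + ρ s) - ψ z0‖ ≤ C R` (`ψ` is Lipschitz near `z0`, `‖s‖` is bounded), which
replaces `ψ (y + ρ s) ∈ U`. -/
def StmtAR5 : Prop := ∀ (N K : ℕ) (M : Set (E K)) (m : Measure (E K)) (c : Chart N K M)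
  (p : Fin 3 → End N), SmoothVolume N K M m → Proj3 p → ∀ (d : Tw N p) (z0 : E N), z0 ∈ c.V →
  (∀ A : Set (E N), MeasurableSet A → A ⊆ c.V → m (c.ψ '' A) = volume A) →
  ∃ C r0 : ℝ, 1 ≤ C ∧ 0 < r0 ∧ ∀ R : ℝ, 0 < R → R ≤ r0 →
  ∀ χ : E N → ℝ, Continuous χ → (∀ y, 0 ≤ χ y) → (∀ y, χ y ≤ 1) →
  (∀ y, y ∉ Metric.closedBall z0 R → χ y = 0) → ∀ ρ : ℝ, 0 < ρ → ρ ≤ R →
  Integrable (fun y => χ y * (m (Bs c d y ρ)).toReal) volume ∧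
  ∫ y, χ y * (m (Bs c d y ρ)).toReal ≤ C * ρ ^ N ∧
  ∀ g : E K → E K, ContinuousOn g M → MapsTo g M M →
    Integrable (fun y => χ y * (m {x | x ∈ Bs c d y ρ ∧ g x ∈ Bs c d y ρ}).toReal) volume ∧
    ∫ y, χ y * (m {x | x ∈ Bs c d y ρ ∧ g x ∈ Bs c d y ρ}).toReal ≤
      C * ρ ^ N * (m {x | x ∈ M ∧ ‖x - c.ψ z0‖ ≤ C * R ∧ ‖g x - x‖ ≤ C * ρ}).toReal

/-- PACKET SC5 (scaling of the averaged functional).  `Fl d (fun i z => ph i (z0 + R • z)) ρ t y s = Fl d ph (R * ρ) t (z0 + R • y) s` (unfold), then substitute `y = z0 + R • y'`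
(`MeasureTheory.Measure.integral_comp_smul`, `integral_add_left_eq_self`; `finrank = N`). -/
def StmtSC5 : Prop := ∀ (N : ℕ) (p : Fin 3 → End N) (d : Tw N p) (χ : E N → ℝ)
  (ph : Fin 3 → E N → End N) (z0 : E N) (R ρ t : ℝ), 0 < R →
  FF (fun y => χ (R⁻¹ • (y - z0))) d ph (R * ρ) t =
    R ^ N * FF χ d (fun i z => ph i (z0 + R • z)) ρ t

/-- PACKET VB5 (volume of small balls).  At every point of `M` the chart of `SmoothVolume.chart`: `φ` is Lipschitz near the point, so `{y ∈ M : ‖y - x‖ ≤ r}` is contained in `ψ (closedBall (φ x) (L r))` for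
`x ∈ M` near it and `r` small, volume `≤ (L r)^N volume (closedBall 0 1)` (`Measure.addHaar_closedBall`).  Finite subcover and a Lebesgue number give `r1` and `C1` for `r ≤ r1`; for `r > r1` use `m M ≤ m M (r/r1)^N`. -/
def StmtVB5 : Prop := ∀ (N K : ℕ) (M : Set (E K)) (m : Measure (E K)), SmoothVolume N K M m →
  ∃ C : ℝ, 0 ≤ C ∧ ∀ x ∈ M, ∀ r : ℝ, 0 < r →
    (m {y | y ∈ M ∧ ‖y - x‖ ≤ r}).toReal ≤ C * r ^ N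

/-- PACKET BC5 (local form of an integral bound; Fubini and Borel-Cantelli).  Let `S n ρ = {x ∈ M ∩ U : G n x ≤ ρ}`.  For `0 < r`, `0 < ρ` and every `N0`, by Tonelli
`∫ ∑_{n<N0} l^n m(S n ρ ∩ closedBall x0 r) dm(x0) = ∑ l^n ∫_{x ∈ S n ρ} m(closedBall x r) dm(x) ≤ CV r^N C1 ρ²`; the same for `N0 = ∞` (monotone convergence, use `ENNReal` and `∑'`).  Fix a natural number `k ≥ 1` (for
`C2 ≤ k`) and put `ρ_j = 2^(-j)`, `r_j = k ρ_j^β`.  By Markov the set of `x0` with `∑' l^n m(S n (k ρ_j) ∩ closedBall x0 r_j) > ρ_j^(2 - ε) (ρ_j^β)^N` has measure `≤ C(k) ρ_j^ε`, which is summable in `j`.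
Borel-Cantelli (`MeasureTheory.measure_limsup_atTop_eq_zero`, `ae_eventually_notMem`): for a.e. `x0` the opposite inequality holds for all large `j`.  For general `ρ ∈ (ρ_(j+1), ρ_j]` use monotonicity: `k ρ ≤ k ρ_j`, `ρ_j ≤ 2 ρ` (the constant
`C` absorbs powers of `2`; note `2 - ε` may be negative, then bound `ρ_j^(2-ε) ≤ 4 · 2^ε ρ^(2-ε)` or similar).  `x0 ∈ U` open: `closedBall x0 (k ρ^β) ⊆ U` for small `ρ`, so `{x ∈ M : ‖x - x0‖ ≤ C2 ρ^β, G n x ≤ C2 ρ} ⊆ S n (k ρ_j) ∩ closedBall x0 r_j`. -/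
def StmtBC5 : Prop := ∀ (N K : ℕ) (M : Set (E K)) (m : Measure (E K)) (G : ℕ → E K → ℝ)
  (U : Set (E K)) (l ε β C1 CV : ℝ), IsCompact M → m univ ≠ ⊤ → m Mᶜ = 0 →
  (∀ n, ContinuousOn (G n) M) → IsOpen U → 0 < l → l < 1 → 0 < ε → 0 < β → 0 ≤ CV →
  (∀ x ∈ M, ∀ r : ℝ, 0 < r → (m {y | y ∈ M ∧ ‖y - x‖ ≤ r}).toReal ≤ CV * r ^ N) →
  (∀ ρ : ℝ, 0 < ρ → ∀ N0 : ℕ, ∑ n ∈ Finset.range N0,
    l ^ n * (m {x | x ∈ M ∩ U ∧ G n x ≤ ρ}).toReal ≤ C1 * ρ ^ 2) →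
  ∀ᵐ x0 ∂m, x0 ∈ U → ∀ C2 : ℝ, ∃ C ρ0 : ℝ, 0 ≤ C ∧ 0 < ρ0 ∧ ρ0 ≤ 1 ∧
  ∀ ρ : ℝ, 0 < ρ → ρ ≤ ρ0 → ∀ N0 : ℕ, ∑ n ∈ Finset.range N0,
    l ^ n * (m {x | x ∈ M ∧ ‖x - x0‖ ≤ C2 * ρ ^ β ∧ G n x ≤ C2 * ρ}).toReal ≤
      C * ρ ^ (2 - ε) * (ρ ^ β) ^ N

/-- PACKET LR5 (local near returns; from BC5, VB5, RTB, NM).  By NM a.e. point of `M` is not periodic.  For every non-periodic `x1 ∈ M` RTB gives `U ∋ x1` and `C` with `∑_{n<N0} l^n m{x ∈ M ∩ U : ‖f^[n+1] x - x‖ ≤ ρ} ≤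
C ρ^(rk (P 0 x1) + rk (P 2 x1)) = C ρ²` (`RankOne`; `rk` is the `finrank` of the range, see Statement.lean).  Apply BC5 with `G n x = ‖f^[n+1] x - x‖` (continuous on `M`: `iter_diffeo` in FinT.lean).  The set of non-periodic points of `M` is covered by the open sets `U(x1)`,
hence by countably many (`TopologicalSpace.isOpen_iUnion_countable` or `countable_cover_nhds`); countable intersection of a.e. statements (`ae_all_iff`, `Set.Countable`). -/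
def StmtLR5 : Prop := ∀ (N K : ℕ) (M : Set (E K)) (m : Measure (E K)) (f f' : E K → E K)
  (P : Fin 3 → E K → End K), SmoothVolume N K M m → IsDiffeo 2 M f f' → Preserves M m f →
  PH M f f' P → RankOne M P → ∀ l ε β : ℝ, 0 < l → l < 1 → 0 < ε → 0 < β →
  ∀ᵐ x0 ∂m, ∀ C2 : ℝ, ∃ C ρ0 : ℝ, 0 ≤ C ∧ 0 < ρ0 ∧ ρ0 ≤ 1 ∧
  ∀ ρ : ℝ, 0 < ρ → ρ ≤ ρ0 → ∀ N0 : ℕ, ∑ n ∈ Finset.range N0,
    l ^ n * (m {x | x ∈ M ∧ ‖x - x0‖ ≤ C2 * ρ ^ β ∧ ‖f^[n + 1] x - x‖ ≤ C2 * ρ}).toReal ≤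
      C * ρ ^ (2 - ε) * (ρ ^ β) ^ N

/-- PACKET OS5 (oscillation of the splitting at a good point at the scale `ρ^β`; from RG, AL).  As theorem `modul` in Pool/Agent/Helper56/RZ/FinK.lean, with the scale `R = ρ^β` in RG (for `D` and for `D.inv`, both pairs `x, y` and `y, x`; `‖x - y‖ ≤ CB ρ^r ≤ R`
for small `ρ`), `diff_of` there.  RG gives `C (R^(-4ε) ‖x - y‖ + R^(1-4ε) (‖x - y‖/R)^α) ≤ C' (ρ^(r - 4εβ) + ρ^(β(1 - 4ε - α) + rα))`, and `‖T x - T y‖ ≤ L CB ρ^r`. -/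
def StmtOS5 : Prop := ∀ (K : ℕ) (M : Set (E K)), IsCompact M → ∀ (D : Coc M K)
  (P : Fin 3 → E K → End K) (a b c : M → ℝ) (C0 Λ ε C' α Cα β θ CB : ℝ) (r : ℕ), 2 ≤ r →
  Spl D (fun i (x : M) => P i x) → Lin D → Rates D (fun i (x : M) => P i x) a b c C0 →
  0 ≤ C0 → 0 < Λ → (∀ x, Λ ≤ a x) → (∀ x, Λ ≤ b x) → 0 < ε → 3 * C0 + 4 ≤ ε * Λ →
  0 < α → α ≤ 1 →
  (∀ (i : Fin 3) (x y : M), ‖P i x - P i y‖ ≤ Cα * ‖(x : E K) - y‖ ^ α) → 0 < β → β ≤ 1 →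
  θ ≤ r - 4 * ε → θ ≤ β * (1 - 4 * ε - α) + r * α → 1 ≤ CB → ∀ x0 : M,
  GoodF D a b c Λ ε C' x0 →
  GoodF D.inv (fun x => b (D.f.symm x)) (fun x => a (D.f.symm x)) (fun x => c (D.f.symm x))
    Λ ε C' x0 →
  ∃ C ρ1 : ℝ, 0 ≤ C ∧ 0 < ρ1 ∧ ρ1 ≤ 1 ∧ ∀ ρ : ℝ, 0 < ρ → ρ ≤ ρ1 → ∀ x ∈ M, ∀ y ∈ M,
    ‖x - x0‖ ≤ CB * ρ ^ β → ‖y - x0‖ ≤ CB * ρ ^ β → ‖x - y‖ ≤ CB * ρ ^ r →
    ∀ i, ‖P i x - P i y‖ ≤ C * ρ ^ θ

/-- PACKET TR5 (transport of the graphs; sharper form of `Out.past` and `Out.fut`).  `g = C ∘ H`, `H.f z = z` off `B`.  (i) `z = C.f.symm^[J] x = g^(-J) x`, `z' = C.f.symm^[J+1] x`, and the inverse cocycles of `g` and of `C` agree along this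
orbit piece (induction on `J`; compare Pool/Agent/Helper14/RZ/OB.lean): `(C.comp H e).inv.An J x * Γ x = C.inv.An J x * Γ x`.  `Γ x = Q 1 x * Γ x`, `Q 1` is invariant, and `Γ z * P 1 z * Q 1 z = Q 1 z` (`Lift.GQ`), so `C.inv.An J x * Γ x = Γ z * P 1 z * C.inv.An J x * Γ x = Γ z *
C.inv.An J x * P 1 x` (`P 1 x * Γ x = P 1 x`).  Hence `P 0 x * Γ x = (C.An J z * P 0 z) * (P 0 z * Γ z) * (C.inv.An J x * P 1 x)`, `‖P 0 z * Γ z‖ ≤ ck κk` (`Out.past` with `J = 0`), and `C.An J z * P 0 z = C.An (J+1) z' * P 0 z' * C.B z`, `C.inv.An J x * P 1 x = C.A z' * (C.inv.An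
(J+1) x * P 1 x)`.  (ii) `y = C.f^[J+1] (H.f x) = g^(J+1) x`, `W = C.An (J+1) (H.f x) * H.A x * Γ x = (C.comp H e).An (J+1) x * Γ x = Q 1 y * W`, so `P 2 y * W = (P 2 y * Γ y) * (P 1 y * W)`, `‖P 2 y * Γ y‖ = ‖P 2 y * (Γ y - P 1 y)‖ ≤ RP ck κk` (`Out.liftc`), `P 1 y * W = (C.An (J+1) (H.f x)
* P 1 (H.f x)) * (H.A x * Γ x)` and `P 2 (H.f x) * H.A x * Γ x = (C.inv.An (J+1) y * P 2 y) * (P 2 y * W)`. -/
def StmtTR5 : Prop := ∀ (X : Type) [MetricSpace X] [CompactSpace X] (K : ℕ) (C H : Coc X K)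
  (e : H.T = C.T) (P Q : Fin 3 → X → End K) (Γ : X → End K) (n : ℕ) (ck lk κk RP RA : ℝ)
  (B : Set X), Spl C P → Out C H e P n ck lk κk Q Γ → (∀ x i, ‖P i x‖ ≤ RP) →
  (∀ x, ‖C.A x‖ ≤ RA) → (∀ x, ‖C.B x‖ ≤ RA) → (∀ x ∉ B, H.Off x) → ∀ (J : ℕ) (x : X),
  ((∀ j, 1 ≤ j → j ≤ J → C.f.symm^[j] x ∉ B) →
    ‖P 0 x * Γ x‖ ≤ RA ^ 2 * (ck * κk) * DP C P (J + 1) (C.f.symm^[J + 1] x)) ∧
  ((∀ j, 1 ≤ j → j ≤ J → C.f^[j] (H.f x) ∉ B) →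
    ‖P 2 (H.f x) * H.A x * Γ x‖ ≤
      RP * (ck * κk) * ‖H.A x * Γ x‖ * DP C P (J + 1) (H.f x))

/-- the four orbit pieces -/
def pc {X : Type} [TopologicalSpace X] (F h : X ≃ₜ X) (x : X) (i : Fin 4) (j : ℕ) : X :=
  ![F^[j] x, F.symm^[j] x, F^[j] (h x), F.symm^[j] (h x)] i

/-- PACKET RS5 (sum over four return times; compare Pool/Agent/Helper53/RZ/RS.lean).  For `x ∈ B` let `J i ≤ N0` be maximal such that the piece `i` avoids `B` up to the time `J i`; the hypothesis applies.  So `|g x| ≤ A ∑_i (w N0 + ∑_{n<N0} w n 1{pc i (n + 1) ∈ B})` on `B`; integrate over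
`B` as in RS (`m {x ∈ B, F^(-n-1) x ∈ B} = m {x ∈ B, F^(n+1) x ∈ B}`, `h` preserves `m` and `B`). -/
def StmtRS5 : Prop := ∀ (X : Type) [MetricSpace X] [CompactSpace X] [MeasurableSpace X]
  [BorelSpace X] (m : Measure X) [IsFiniteMeasure m] (F h : X ≃ₜ X) (B : Set X) (g : X → ℝ)
  (A : ℝ) (N0 : ℕ) (w : ℕ → ℝ), MeasurePreserving F m m → MeasurePreserving h m m →
  MeasurableSet B → (∀ x, h x ∈ B ↔ x ∈ B) → Continuous g → 0 ≤ A → (∀ n, 0 ≤ w n) →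
  (∀ x ∉ B, g x = 0) →
  (∀ (J : Fin 4 → ℕ) (x : X), x ∈ B → (∀ i, (∀ j, 1 ≤ j → j ≤ J i → pc F h x i j ∉ B) ∧
    (J i = N0 ∨ (J i < N0 ∧ pc F h x i (J i + 1) ∈ B))) → |g x| ≤ A * ∑ i, w (J i)) →
  |∫ x, g x ∂m| ≤ A * (4 * ∑ n ∈ Finset.range N0,
    w n * (m {x | x ∈ B ∧ F^[n + 1] x ∈ B}).toReal + 4 * (w N0 * (m B).toReal))

/-- the orbit of `x0` does not return close to itself in logarithmic time -/
def Nrp {K : ℕ} (f f' : E K → E K) (x0 : E K) : Prop := ∀ C1 ν : ℝ, 0 < ν →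
  ∃ R0 > 0, ∀ R : ℝ, 0 < R → R ≤ R0 → ∀ n j : ℕ, 1 ≤ n → (n : ℝ) ≤ C1 * Real.log (1 / R) →
    j ≤ n → R ^ ν < ‖f^[n - j] x0 - f'^[j] x0‖

/-- PACKET NR5 (from RTA, NM, MS).  It suffices to treat natural `C1` and `ν = 1/k`.  Let `ε = ν / (4 C1 + 4)`.  RTA and compactness of `M` (finite subcover; `rk (P i x0) ≥ 1` because `P i x0 ≠ 0`, so `ρ^(rk + rk) ≤ ρ` for `ρ ≤ 1`): `m {x ∈ M : ‖f^[n] x - x‖ ≤ ρ} ≤ Cc exp (ε n) ρ` for `n ≥ n0`, `ρ ≤ ρ0`.  For `x0 ∈ M`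
put `x' = f'^[j] x0 ∈ M`; `f^[n-j] x0 = f^[n] x'`, so the set of `x0 ∈ M` with `‖f^[n-j] x0 - f'^[j] x0‖ ≤ R^ν` is the preimage under `f'^[j]` of `{x ∈ M : ‖f^[n] x - x‖ ≤ R^ν}`, the same measure (`Preserves` for `f'^[j]`: MS, see `nr_f'` in FinT.lean).  With `R_k = 2^(-k)`: the union over `n0 ≤ n ≤ 2 C1 log (1/R_k) + 1`, `j ≤ n` of these
sets (with `(R_k)^ν`) has measure `≤ C (k + 1)² exp (ε (2 C1 log (1/R_k) + 1)) R_k^ν ≤ C' (k + 1)² 2^(-kν/2)`, summable in `k`: Borel-Cantelli.  For `R ∈ (R_(k+1), R_k]`: `log (1/R) ≤ 2 log (1/R_k)` for `k ≥ 1` and `R^ν ≤ R_k^ν`.  For the finitely many pairs `n < n0`, `j ≤ n`: `f^[n-j] x0 ≠ f'^[j] x0` for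
non-periodic `x0` (NM) and `R^ν → 0`. -/
def StmtNR5 : Prop := ∀ (N K : ℕ) (M : Set (E K)) (m : Measure (E K)) (f f' : E K → E K)
  (P : Fin 3 → E K → End K), SmoothVolume N K M m → IsDiffeo 2 M f f' → Preserves M m f →
  PH M f f' P → ∀ᵐ x0 ∂m, Nrp f f' x0

/-- PACKET OD5 (variant of OD; copy Pool/Agent/Helper50/RZ/OD.lean with `CB = 1`, `y = x0`).  `N` is the largest number with `ρ exp (s N) ≤ δ`, `s n = ∑_{j<n} a (D^j x0) + n (C0 + 2)`: this is the new second claim. -/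
def StmtOD5 : Prop := ∀ (K : ℕ) (M : Set (E K)), IsCompact M → ∀ (D : Coc M K) (a : M → ℝ)
  (C0 Λ θ : ℝ), Lin D → Continuous a → 0 ≤ C0 → (∀ x, ‖D.A x‖ ≤ Real.exp (a x + C0)) → 0 < Λ →
  (∀ x, Λ ≤ a x) → 0 < θ → ∃ δ : ℝ, 0 < δ ∧ δ ≤ θ ∧ δ ≤ 1 ∧ ∀ (x0 : M) (ρ : ℝ), 0 < ρ →
  ρ ≤ δ → ∃ N : ℕ, Real.exp (N * Λ) ≤ ρ⁻¹ ∧
    ρ * Real.exp (∑ j ∈ Finset.range N, a (D.f^[j] x0) + N * (C0 + 2)) ≤ δ ∧
    δ ≤ ρ * Real.exp (∑ j ∈ Finset.range (N + 1), a (D.f^[j] x0) + (N + 1) * (C0 + 2)) ∧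
    ∀ x : M, ‖(x : E K) - x0‖ ≤ ρ → ∀ j ≤ N,
      ‖(D.f^[j] x : E K) - D.f^[j] x0‖ ≤ ‖(x : E K) - x0‖ *
        Real.exp (∑ i ∈ Finset.range j, a (D.f^[i] x0) + j * (C0 + 2))

/-- PACKET EN5 (end pieces of the orbit; from OD5).  Apply OD5 with `θ = 1` and `ρ = R^(1-ν)`; for small `R`: `ρ ≤ δ`, `CB R ≤ ρ`, and `R^ν` is so small that points at distance `≤ R^ν` have `|a|`, `|b|`, `|c|` differing by at most `1` (uniform continuity).  `exp (N Λ) ≤ ρ⁻¹ ≤ R⁻¹`.  For `j ≤ N`: `‖D^j x - D^j x0‖ ≤ CB R exp (s N) ≤ CB R δ / R^(1-ν) = CB δ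
R^ν`; this is `≤ R^ν` if one takes OD5 with `θ = 1 / CB`.  `exp (- ∑_{j<N} a (D^j x0)) ≤ δ⁻¹ ρ exp (a (D^N x0) + (N + 1) (C0 + 2)) ≤ C R^(1-ν) exp (ε N Λ) ≤ C R^(1-ν-ε)` (`a` is bounded, `C0 + 2 ≤ ε Λ`).  Products (all `P i` bounded by `RP`, `D.A x * P i x = P i (f x) * D.A x`): `‖An N x * P 0 x‖ ≤ RP ∏_{j<N} ‖A (D^j x) P 0 (D^j x)‖ ≤ RP exp (- ∑ b (D^j x) + N
C0) ≤ RP exp (- ∑ b (D^j x0) + N (C0 + 1)) ≤ RP exp (- ∑ a (D^j x0) + ε N Λ + C' + ε N Λ)` (`GoodF`); `‖inv.An N (D^N x) * P 2‖ ≤ RP ∏_{j<N} ‖B (D^(j+1) x) P 2 (D^(j+1) x)‖ ≤ RP exp (- ∑ a (D^j x) + N C0)`; `‖An N x * P 1 x‖ ≤ RP ∏ ‖A (P 0 + P 1)‖ ≤ RP exp (∑ c (D^j x) + N C0) ≤ RP exp (2 ε N Λ)`, and `‖inv.An N (D^N x) * P 1‖` in the same way with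
`B1`.  (`inv.An` along the orbit piece: compare Pool/Agent/Helper*/RZ/BS.lean, where these products are estimated.) -/
def StmtEN5 : Prop := ∀ (K : ℕ) (M : Set (E K)), IsCompact M → ∀ (D : Coc M K)
  (P : Fin 3 → M → End K) (a b c : M → ℝ) (C0 Λ ε C' ν CB : ℝ), Spl D P → Lin D →
  Rates D P a b c C0 → 0 ≤ C0 → 0 < Λ → (∀ x, Λ ≤ a x) → 0 < ε → 3 * C0 + 4 ≤ ε * Λ →
  0 < ν → ν < 1 → 1 ≤ CB → ∃ C R1 : ℝ, 1 ≤ C ∧ 0 < R1 ∧ R1 ≤ 1 ∧ ∀ x0 : M,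
  GoodF D a b c Λ ε C' x0 → ∀ R : ℝ, 0 < R → R ≤ R1 → ∃ N : ℕ, Real.exp (N * Λ) ≤ R⁻¹ ∧
  ∀ x : M, ‖(x : E K) - x0‖ ≤ CB * R →
    (∀ j ≤ N, ‖(D.f^[j] x : E K) - D.f^[j] x0‖ ≤ R ^ ν) ∧
    ‖D.An N x * P 0 x‖ ≤ C * R ^ (1 - ν - 4 * ε) ∧
    ‖D.inv.An N (D.f^[N] x) * P 2 (D.f^[N] x)‖ ≤ C * R ^ (1 - ν - 4 * ε) ∧
    ‖D.An N x * P 1 x‖ ≤ C * R ^ (-(2 * ε)) ∧
    ‖D.inv.An N (D.f^[N] x) * P 1 (D.f^[N] x)‖ ≤ C * R ^ (-(2 * ε))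

/-- PACKET DN5 (domination for all times; from DN).  DN gives `Cq q^j` for the times `j n` and all pairs `(0, 1)`, `(1, 2)`.  Write `k = j n + i`, `i < n`: `An (j n + i) x = An i (f^(jn) x) * An (j n) x` and the inverse in the same way (`Coc.An` of a sum of times: see Pool/Agent/Helper39/RZ/DN.lean), the factors for `i < n` steps are bounded.  `l = q^(1/n)`. -/
def StmtDN5 : Prop := ∀ (X : Type) [MetricSpace X] [CompactSpace X] (K : ℕ) (C : Coc X K)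
  (P : Fin 3 → X → End K) (n : ℕ), Spl C P → Dom C P n → ∃ l Cl : ℝ, 0 < l ∧ l < 1 ∧ 1 ≤ Cl ∧
  ∀ (k : ℕ) (x : X), DP C P k x ≤ Cl * l ^ k

/-- PACKET DR5 (domination at the returns to a small ball around a good point; from EN5, DN5, PW).  `m0 = k n ≥ 1`, `D` = the `m0`-th power of `C` (`D.f^[i] = C.f^[i m0]`, `D.An i = C.An (i m0)` etc.: PW, for the given `D` by induction).  EN5 for `D, P` and for `D.inv`, `P (2 - i)` (`Rates.inv`, `Spl.inv'`, `Lin.inv` in FinG.lean) gives `N⁺` and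
`N⁻` for the radius `R`.  Let `j ≥ 1`, `x`, `y = C.f^[j] x` both in the ball of radius `CB R` around `x0`.
(1) `j ≥ m0 (N⁺ + N⁻)` for small `R`: otherwise write `j = i + m0 (s + s')` with `i < m0`, `s ≤ N⁺`, `s' ≤ N⁻` (`s = min N⁺ (j / m0)`).  `C.f^[i + m0 s] x = C.f.symm^[m0 s'] y`, so `‖f^[i + m0 s] x0 - f'^[m0 s'] x0‖ ≤ L R^ν + R^ν` (`C.f^[i]`, `i < m0`, is Lipschitz with constant `L`: `ud_one` of Pool/Agent/Helper16/RZ/LP.lean or `inv_lip`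
of Pool/Agent/Helper62/RZ), which is `≤ R^(ν/2)` for small `R`; but `j ≤ m0 (N⁺ + N⁻) ≤ (2 m0/Λ) log (1/R)`, contradiction to `Nrp` with `n = j`, `j = m0 s'`, `ν/2`, `C1 = 2 m0/Λ`.
(2) `j = m0 N⁺ + k' + m0 N⁻`; `z1 = D.f^[N⁺] x`, `z2 = C.f^[k'] z1 = D.f.symm^[N⁻] y`.  `‖An j x * P 0 x‖ ≤ ‖D.An N⁻ z2 * P 0 z2‖ ‖C.An k' z1 * P 0 z1‖ ‖D.An N⁺ x * P 0 x‖` and the same for the inverse with `P 1` and the other two.  The product of the two middle factors is `≤ Cl` (DN5), so each of the two products in `DP` is `≤ Cl C⁴ R^(2 (1 - ν - 4ε) - 4ε)`. -/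
def StmtDR5 : Prop := ∀ (K : ℕ) (M : Set (E K)), IsCompact M → ∀ (C D : Coc M K)
  (P : Fin 3 → M → End K) (n k : ℕ) (f f' : E K → E K) (a b c : M → ℝ)
  (C0 Λ ε C' ν CB : ℝ) (x0 : M), Spl C P → Dom C P n → Lin C → Lin D → Rep C f f' →
  1 ≤ k → GoodPt C P n f ε k D a b c C0 Λ C' x0 → 0 < ε → Nrp f f' x0 → 0 < ν → ν < 1 →
  1 ≤ CB → ∃ Cr R1 : ℝ, 1 ≤ Cr ∧ 0 < R1 ∧ R1 ≤ 1 ∧ ∀ R : ℝ, 0 < R → R ≤ R1 →
  ∀ (j : ℕ) (x : M), 1 ≤ j → ‖(x : E K) - x0‖ ≤ CB * R → ‖(C.f^[j] x : E K) - x0‖ ≤ CB * R →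
    DP C P j x ≤ Cr * R ^ (2 - 2 * ν - 12 * ε)

end Pool.Agent.Helper56.RZ
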