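import Pool.Agent.Helper56.RZ.GoalsA

/-!
# Project RZ: the local perturbation and the manifold (part B)

Order: F1 - F4, K2 (Euclidean space);  T1, T2, T3 -> T4, T5;  G1 - G4, G5;  K1;  NP;  MS, INT;  ORB.
-/

set_option autoImplicit false

open Set Filter Topology MeasureTheory

open scoped ContDiff

namespace Pool.Agent.Helper56.RZ

/-- data for the twist in a plane spanned by `ec ∈ range (p 1)`, `eu ∈ range (p 2)` -/
structure Tw (N : ℕ) (p : Fin 3 → End N) where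
  /-- central vector -/
  ec : E N
  /-- unstable vector -/
  eu : E N
  /-- coordinate along `ec` -/
  wc : E N →L[ℝ] ℝ
  /-- coordinate along `eu` -/
  wu : E N →L[ℝ] ℝ
  pec : p 1 ec = ec
  peu : p 2 eu = eu
  wcp : ∀ v, wc (p 1 v) = wc v
  wup : ∀ v, wu (p 2 v) = wu v
  wcec : wc ec = 1
  wueu : wu eu = 1

namespace Tw
variable {N : ℕ} {p : Fin 3 → End N} (d : Tw N p)

/-- infinitesimal rotation -/
noncomputable def J : End N := d.wc.smulRight d.eu - d.wu.smulRight d.ec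
/-- projection along the plane -/
noncomputable def R : End N := 1 - d.wc.smulRight d.ec - d.wu.smulRight d.eu
/-- invariant quadratic form -/
noncomputable def q (z : E N) : ℝ := (d.wc z) ^ 2 + (d.wu z) ^ 2 + ‖d.R z‖ ^ 2
/-- bump function: `1` on `s ≤ 1/2`, `0` on `s ≥ 1` -/
noncomputable def be (s : ℝ) : ℝ := Real.smoothTransition (2 - 2 * s)
/-- the twist `exp (t β(q z) J) z` -/
noncomputable def H (t : ℝ) (z : E N) : E N :=
  z + (Real.cos (t * be (d.q z)) - 1) • (d.wc z • d.ec + d.wu z • d.eu) +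
    Real.sin (t * be (d.q z)) • d.J z
/-- its infinitesimal generator -/
noncomputable def X (z : E N) : E N := be (d.q z) • d.J z
/-- density of the second order term -/
noncomputable def g (z : E N) : ℝ :=
  - LinearMap.trace ℝ (E N) ((p 1 * fderiv ℝ d.X z * p 2 * fderiv ℝ d.X z * p 1 : End N) :
    E N →ₗ[ℝ] E N)
/-- the twist at scale `ρ` around `z0` -/
noncomputable def loc (z0 : E N) (ρ t : ℝ) (z : E N) : E N := z0 + ρ • d.H t (ρ⁻¹ • (z - z0))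

end Tw

/-- `h` is `ε`-close to the identity of `M` in the `C^r` topology -/
def Small {K : ℕ} (r : ℕ) (ε : ℝ) (M : Set (E K)) (h : E K → E K) : Prop :=
  ∃ w : E K → E K, ContDiff ℝ ∞ w ∧ (∀ x ∈ M, h x = x + w x) ∧
    ∀ k ≤ r, ∀ x, ‖iteratedFDeriv ℝ k w x‖ ≤ ε

/-- the main theorem for perturbations `f ∘ h` (then apply it to `f⁻¹`) -/
def StmtMain0 : Prop := ∀ (N K r : ℕ) (α : ℝ) (M : Set (E K)) (m : Measure (E K))
  (f f' : E K → E K) (P : Fin 3 → E K → End K), 2 ≤ r → α ≤ 1 → 1 - 1 / (r : ℝ) < α →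
  SmoothVolume N K M m → IsDiffeo r M f f' → Preserves M m f → PH M f f' P →
  HolderSomewhere M P α → ∀ ε > 0, ∃ (h h' : E K → E K) (Q : Fin 3 → E K → End K),
    IsDiffeo ∞ M h h' ∧ Preserves M m h ∧ Small r ε M h ∧ Small r ε M h' ∧
    PH M (f ∘ h) (h' ∘ f') Q ∧ (∀ x ∈ M, ∀ i, ‖Q i x - P i x‖ ≤ ε) ∧
    ¬ ∀ᵐ x ∂m, CentralZero M (f ∘ h) (h' ∘ f') Q x

/-- PACKET CR (`C^r` closeness of `g = (id + w) ∘ f`).  `g (ψ z) - f (ψ z) = w (f (ψ z))` on `V`; `f ∘ ψ` is `C^r` on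
the open set `V`, its derivatives of order `1..r` are bounded on the compact sets `L i` (finitely many) by some
`D ≥ 1`; `norm_iteratedFDerivWithin_comp_le` (within `V`, `iteratedFDerivWithin = iteratedFDeriv` on open sets) gives
the bound `r! ε' D^r`. -/
def StmtCR : Prop := ∀ (N K r : ℕ) (M : Set (E K)) (f : E K → E K), ContDiffOn ℝ r f M →
  ∀ (ι : Type) [Finite ι] (c : ι → Chart N K M) (L : ι → Set (E N)),
  (∀ i, IsCompact (L i) ∧ L i ⊆ (c i).V) → ∀ ε > 0, ∃ ε' > 0, ∀ w : E K → E K, ContDiff ℝ ∞ w →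
  (∀ k ≤ r, ∀ x, ‖iteratedFDeriv ℝ k w x‖ ≤ ε') → ∀ g : E K → E K,
  (∀ x ∈ M, g x = f x + w (f x)) → CrClose r ε c L f g

/-- PACKET SW (the inverse; stable and unstable bundle change places).  `dom` for the inverse: apply the
inequalities at `f^(-n) x` to the normalised preimages.  Same `n`. -/
def StmtSW : Prop := ∀ (X : Type) [TopologicalSpace X] (K : ℕ) (C : Coc X K)
  (P : Fin 3 → X → End K) (n : ℕ), Spl C P → Dom C P n →
  Spl C.inv (fun i => P (2 - i)) ∧ Dom C.inv (fun i => P (2 - i)) n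

/-- PACKET F1 (elementary properties of the twist).  `wc eu = wc (p 1 eu) = wc (p 1 (p 2 eu)) = 0`,
`wu ec = 0`, `wc (R z) = 0 = wu (R z)`, `R ec = 0 = R eu`, so with `φ = t β(q z)`: `wc (H z) = cos φ wc z -
sin φ wu z`, `wu (H z) = sin φ wc z + cos φ wu z`, `R (H z) = R z`; hence `q (H t z) = q z`,
`H (-t) (H t z) = z`.  `z = wc z • ec + wu z • eu + R z` gives the two sided bound of `q`.  Existence of
the data: `p 1 ≠ 0`: a vector `ec = p 1 ec ≠ 0` and a functional `w` with `w ec = 1` (Hahn-Banach or the inner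
product), `wc = w ∘ p 1`. -/
def StmtF1 : Prop := ∀ (N : ℕ) (p : Fin 3 → End N), Proj3 p →
  ((∀ i, p i ≠ 0) → Nonempty (Tw N p)) ∧ ∀ d : Tw N p,
  ContDiff ℝ ∞ (fun a : ℝ × E N => d.H a.1 a.2) ∧ ContDiff ℝ ∞ d.X ∧ ContDiff ℝ ∞ d.q ∧
  (∀ t z, d.q (d.H t z) = d.q z) ∧ (∀ t z, d.H (-t) (d.H t z) = z) ∧ (∀ z, d.H 0 z = z) ∧
  (∀ t z, 1 ≤ d.q z → d.H t z = z) ∧
  ∃ c : ℝ, 1 ≤ c ∧ ∀ z, ‖z‖ ^ 2 ≤ c * d.q z ∧ d.q z ≤ c * ‖z‖ ^ 2

/-- PACKET F2 (the twist preserves volume; from F1).  `DH v = R_φ (v + (D φ v) J z)` with the rotation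
`R_φ = 1 + (cos φ - 1) (ec wc + eu wu) + sin φ J`, `φ = t β(q z)` (as `d/dφ R_φ z = R_φ J z`); `Dφ (J z) = t β' Dq (J z) = 0`,
so `det (1 + J z ⊗ Dφ) = 1 + Dφ (J z) = 1`; `R_φ` preserves the positive definite form `q`, so `|det R_φ| = 1`.
Volume of images: `MeasureTheory.lintegral_abs_det_fderiv_eq_addHaar_image`, `H t` is injective. -/
def StmtF2 : Prop := ∀ (N : ℕ) (p : Fin 3 → End N), Proj3 p → ∀ (d : Tw N p) (t : ℝ),
  (∀ z, |(fderiv ℝ (d.H t) z).det| = 1) ∧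
  ∀ A : Set (E N), MeasurableSet A → volume (d.H t '' A) = volume A

/-- PACKET F3 (Taylor expansion in `t`; from F1).  `(t, z) ↦ H t z - z` and `(t, z) ↦ fderiv (H t) z` are `C^∞` and
constant (`0`, `1`) for `q z ≥ 1` (for `q z > 1` and by continuity), so their `t`-derivatives of order `1`, `2` are bounded for
`|t| ≤ 1` (compactness of `q ≤ 1`); `∂_t H = X`, `∂_t fderiv (H t) = fderiv X` at `t = 0` (or directly: `H t z - z - t X z =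
(cos φ - 1) (..) + (sin φ - φ) J z`). -/
def StmtF3 : Prop := ∀ (N : ℕ) (p : Fin 3 → End N), Proj3 p → ∀ d : Tw N p, ∃ c : ℝ, 1 ≤ c ∧
  ∀ (t : ℝ) (z : E N), |t| ≤ 1 → ‖d.H t z - z‖ ≤ c * |t| ∧ ‖fderiv ℝ (d.H t) z - 1‖ ≤ c * |t| ∧
  ‖fderiv ℝ (d.H t) z - 1 - t • fderiv ℝ d.X z‖ ≤ c * t ^ 2 ∧ ‖fderiv ℝ d.X z‖ ≤ c

/-- PACKET F4 (the main term is positive; from F1).  `fderiv X z v = β' (Dq v) J z + β J v`, `Dq(z) ec = 2 wc z`,
`Dq(z) eu = 2 wu z` (`R ec = R eu = 0`).  `p 0 J = 0`.  `p 1 DX p 2 DX p 1` has rank one with trace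
`-(β + 2 β' wc²) (β + 2 β' wu²)` (`β, β'` at `q z`), so `g z = (β + 2 β' wc²) (β + 2 β' wu²)`; it vanishes for
`q z > 1`.  `∫ (β² + 4 β β' wc²) = ∫ ∂_{ec} (wc β(q)²) = 0` and the same for `wu` (integral of a derivative of a compactly
supported `C^1` function), hence `∫ g = ∫ 4 β'² wc² wu² > 0` (`β'` does not vanish at some `s ∈ (1/2, 1)`, choose `z` with `q z =
s`, `wc z = wu z ≠ 0`). -/
def StmtF4 : Prop := ∀ (N : ℕ) (p : Fin 3 → End N), Proj3 p → ∀ d : Tw N p,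
  (∀ z, p 0 * fderiv ℝ d.X z = 0) ∧ Continuous d.g ∧ (∀ z, 1 < d.q z → d.g z = 0) ∧
  0 < ∫ z in {z | d.q z ≤ 1}, d.g z

/-- PACKET K2 (blocks of the derivative of the twist, Euclidean space; from F1, F3).  `‖z - z0‖ ≤ C ρ`,
`‖z' - z‖ ≤ C ρ t`; `ph i z' * ph j z = (ph i z' - ph i z) * ph j z = O((ρ t)^α)` for `i ≠ j` and
`(ρ t)^α / t = a^(α-1) ρ^(rα - (r-1)) → 0`; `Tm = 1 + t DX + O(t²)`, `Sm = fderiv (H (-t)) (H t y) = Tm⁻¹`,
`Sm = 1 - t DX + O(t²)` (with `DX` at `y`).  `t = a ρ^(r-1) → 0` because `r ≥ 2`. -/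
def StmtK2 : Prop := ∀ (N r : ℕ) (α a r0 C : ℝ) (z0 : E N) (ph : Fin 3 → E N → End N)
  (d : Tw N (fun i => ph i z0)), 2 ≤ r → α ≤ 1 → 1 - 1 / (r : ℝ) < α → 0 < a → a ≤ 1 → 0 < r0 →
  (∀ z ∈ Metric.closedBall z0 r0, Proj3 (fun i => ph i z)) →
  (∀ z ∈ Metric.closedBall z0 r0, ∀ z' ∈ Metric.closedBall z0 r0, ∀ i,
    ‖ph i z - ph i z'‖ ≤ C * ‖z - z'‖ ^ α) →
  ∀ η > 0, ∃ ρ1 > 0, ∀ ρ : ℝ, 0 < ρ → ρ ≤ ρ1 → ∀ y : E N, d.q y ≤ 1 →
    z0 + ρ • y ∈ Metric.closedBall z0 r0 ∧ z0 + ρ • d.H (a * ρ ^ (r - 1)) y ∈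
      Metric.closedBall z0 r0 ∧
    fderiv ℝ (d.H (a * ρ ^ (r - 1))) y * fderiv ℝ (d.H (-(a * ρ ^ (r - 1))))
      (d.H (a * ρ ^ (r - 1)) y) = 1 ∧
    fderiv ℝ (d.H (-(a * ρ ^ (r - 1)))) (d.H (a * ρ ^ (r - 1)) y) *
      fderiv ℝ (d.H (a * ρ ^ (r - 1))) y = 1 ∧
    ‖fderiv ℝ (d.H (a * ρ ^ (r - 1))) y - 1‖ ≤ η ∧
    ‖fderiv ℝ (d.H (-(a * ρ ^ (r - 1)))) (d.H (a * ρ ^ (r - 1)) y) - 1‖ ≤ η ∧
    (∀ i, ‖ph i (z0 + ρ • y) - ph i z0‖ ≤ η ∧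
      ‖ph i (z0 + ρ • d.H (a * ρ ^ (r - 1)) y) - ph i z0‖ ≤ η) ∧
    (∀ i j, i ≠ j →
      ‖ph i (z0 + ρ • d.H (a * ρ ^ (r - 1)) y) * fderiv ℝ (d.H (a * ρ ^ (r - 1))) y *
          ph j (z0 + ρ • y) - (a * ρ ^ (r - 1)) • (ph i z0 * fderiv ℝ d.X y * ph j z0)‖
        ≤ η * (a * ρ ^ (r - 1)) ∧
      ‖ph i (z0 + ρ • y) * fderiv ℝ (d.H (-(a * ρ ^ (r - 1)))) (d.H (a * ρ ^ (r - 1)) y) *
          ph j (z0 + ρ • d.H (a * ρ ^ (r - 1)) y)
          + (a * ρ ^ (r - 1)) • (ph i z0 * fderiv ℝ d.X y * ph j z0)‖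
        ≤ η * (a * ρ ^ (r - 1)))

/-- PACKET T1 (tangent spaces).  `φ ∘ ψ = id` on `V` gives the first statement.  `ψ` maps `V` into `M`, so the
tangent cone of `M` at `ψ z` contains `fderiv ψ z v` (`HasFDerivWithinAt.mapsTo_tangent_cone`, monotonicity).
Conversely `ψ ∘ φ = id` on `M ∩ W`: for `v` in the tangent cone `fderiv (ψ ∘ φ) v = v` (uniqueness of derivatives within
`M` on the tangent cone, `HasFDerivWithinAt.unique_on`), so it is in the range of `fderiv ψ z`. -/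
def StmtT1 : Prop := ∀ (N K : ℕ) (M : Set (E K)) (c : Chart N K M), ∀ z ∈ c.V,
  (fderiv ℝ c.φ (c.ψ z)) ∘L (fderiv ℝ c.ψ z) = 1 ∧
  (Pi M (c.ψ z)) ∘L (fderiv ℝ c.ψ z) = fderiv ℝ c.ψ z ∧
  (fderiv ℝ c.ψ z) ∘L (fderiv ℝ c.φ (c.ψ z)) ∘L (Pi M (c.ψ z)) = Pi M (c.ψ z)

/-- PACKET T2 (derivatives of maps of `M`).  `HasFDerivWithinAt.unique_on` on the tangent cone, hence on its
span; `HasFDerivWithinAt.comp`; a derivative within `M` of a map `M → M` maps the tangent cone into the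
tangent cone (`HasFDerivWithinAt.mapsTo_tangent_cone`, monotonicity of the tangent cone). -/
def StmtT2 : Prop := ∀ (K : ℕ) (M : Set (E K)) (f g : E K → E K) (x : E K), x ∈ M →
  (∀ A : End K, HasFDerivWithinAt f A M x → A * Pi M x = der M f x) ∧
  (MapsTo f M M → DifferentiableWithinAt ℝ f M x → Pi M (f x) * der M f x = der M f x) ∧
  (MapsTo g M M → DifferentiableWithinAt ℝ g M x → DifferentiableWithinAt ℝ f M (g x) →
    der M (f ∘ g) x = der M f (g x) * der M g x) ∧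
  der M id x = Pi M x ∧ ((∀ y ∈ M, f y = g y) → der M f x = der M g x)

/-- PACKET T3 (continuity of the derivative).  At `x ∈ M`: `ContDiffWithinAt ℝ 1 f M x` gives a neighbourhood
`u` of `x` within `M` and a Taylor series `p` up to order `1` on `u`, whose first order term is a derivative within
`u`, hence within `M`, and is continuous on `u`; times `Pi M` it is `der M f` (T2). -/
def StmtT3 : Prop := ∀ (K : ℕ) (M : Set (E K)) (f : E K → E K), ContinuousOn (Pi M) M →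
  ContDiffOn ℝ 1 f M → ContinuousOn (der M f) M

/-- the cocycle `C` over `M` is the derivative cocycle of the diffeomorphism `f` of `M` -/
structure Rep {K : ℕ} {M : Set (E K)} (C : Coc M K) (f f' : E K → E K) : Prop where
  rf : ∀ x : M, (C.f x : E K) = f x
  rf' : ∀ x : M, (C.f.symm x : E K) = f' x
  rA : ∀ x : M, C.A x = der M f x
  rB : ∀ x : M, C.B x = der M f' x
  rT : ∀ x : M, C.T x = Pi M x

/-- PACKET T4 (derivative cocycles; from T2, T3).  `Pi` is idempotent (`starProjection`). -/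
def StmtT4 : Prop := ∀ (K : ℕ) (M : Set (E K)) (f f' : E K → E K), ContinuousOn (Pi M) M →
  IsDiffeo 1 M f f' → ∃ C : Coc M K, Rep C f f'

/-- PACKET T5 (the dictionary; from T2).  Second part: chain rule.  Third: induction on `n`.  Fourth: read the
definitions (with the third part).  Fifth: `Q i x = Q' i ⟨x, _⟩` for `x ∈ M`, `0` otherwise. -/
def StmtT5 : Prop := ∀ (K : ℕ) (M : Set (E K)) (f f' : E K → E K) (C : Coc M K),
  IsDiffeo 1 M f f' → Rep C f f' → Rep C.inv f' f ∧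
  (∀ (H : Coc M K) (h h' : E K → E K), IsDiffeo 1 M h h' → Rep H h h' → ∃ e : H.T = C.T,
    Rep (C.comp H e) (f ∘ h) (h' ∘ f')) ∧
  (∀ (n : ℕ) (x : M), C.An n x = der M (f^[n]) x ∧ C.inv.An n x = der M (f'^[n]) x) ∧
  (∀ P : Fin 3 → E K → End K, PH M f f' P →
    Spl C (fun i (x : M) => P i x) ∧ ∃ n, Dom C (fun i (x : M) => P i x) n) ∧
  (∀ (Q' : Fin 3 → M → End K) (n : ℕ), Spl C Q' → Dom C Q' n →
    ∃ Q : Fin 3 → E K → End K, (∀ i (x : M), Q i x = Q' i x) ∧ PH M f f' Q)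

/-- the perturbation of the identity of `M`: the twist at scale `ρ` in the chart `c`, the identity outside -/
noncomputable def hM {N K : ℕ} {M : Set (E K)} (c : Chart N K M) {p : Fin 3 → End N} (d : Tw N p)
    (z0 : E N) (ρ t : ℝ) (x : E K) : E K :=
  open scoped Classical in if x ∈ c.W then c.ψ (d.loc z0 ρ t (c.φ x)) else x

/-- the support of the perturbation in the chart -/
def Fit {N K : ℕ} {M : Set (E K)} (c : Chart N K M) {p : Fin 3 → End N} (d : Tw N p)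
    (z0 : E N) (ρ : ℝ) : Prop := ∀ y : E N, d.q y ≤ 1 → z0 + ρ • y ∈ c.V

/-- PACKET G1 (from F1, T1, T2).  `S = ψ '' (z0 + ρ {q ≤ 1})` is compact, contained in `M ∩ W`.  `loc` is the identity
outside `z0 + ρ {q ≤ 1}`, maps this set and `V` onto itself, `loc (-t) ∘ loc t = id`.  `hM = id` on `M` off `S`.
Smoothness within `M`: at `x ∈ M ∩ W`: `ψ ∘ loc ∘ φ` is `C^∞` within `M` near `x` (`φ x ∈ V`); at `x ∈ M \ W`, `hM = id` on `M`
near `x`.  Derivative: `ψ ∘ loc ∘ φ` and T1, T2. -/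
def StmtG1 : Prop := ∀ (N K : ℕ) (M : Set (E K)) (c : Chart N K M) (p : Fin 3 → End N),
  Proj3 p → ∀ (d : Tw N p) (z0 : E N) (ρ : ℝ), 0 < ρ → Fit c d z0 ρ → ∀ t : ℝ,
  IsDiffeo ∞ M (hM c d z0 ρ t) (hM c d z0 ρ (-t)) ∧
  (∀ y, d.q y ≤ 1 → hM c d z0 ρ t (c.ψ (z0 + ρ • y)) = c.ψ (z0 + ρ • d.H t y)) ∧
  (∀ x ∈ M, (¬ ∃ y, d.q y ≤ 1 ∧ x = c.ψ (z0 + ρ • y)) →
    hM c d z0 ρ t x = x ∧ der M (hM c d z0 ρ t) x = Pi M x) ∧
  (∀ y, d.q y ≤ 1 → (fderiv ℝ c.φ (c.ψ (z0 + ρ • d.H t y))) ∘L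
    (der M (hM c d z0 ρ t) (c.ψ (z0 + ρ • y))) ∘L (fderiv ℝ c.ψ (z0 + ρ • y)) =
      fderiv ℝ (d.H t) y)

/-- PACKET G2 (`C^r` smallness; from F1).  `χ` a smooth bump function, `1` on a neighbourhood of the compact set
`ψ '' (closedBall z0 r1)`, with compact support in `W`; `Θ(ρ, t, y) = ∫_0^1 fderiv ψ (z0 + ρ (y + s (H t y - y))) (∫_0^1 (∂_t H) (τ t)
y dτ) ds`, so that `ψ (z0 + ρ H t y) - ψ (z0 + ρ y) = ρ t Θ(ρ, t, y)`, jointly `C^∞` for `|ρ|` small (alternatively divide the smooth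
function of `(ρ, t, y)`, which vanishes for `ρ = 0` and for `t = 0`, by `ρ t`), zero for `q y ≥ 1`: all `y`-derivatives of `Θ` of
order `≤ r` are bounded on `|ρ| ≤ ρ0, |t| ≤ 1`.  `w x = χ x • (ρ t Θ(ρ, t, (φ x - z0)/ρ))` for `x ∈ W`, `0` otherwise;
`‖D^k‖` of `z ↦ ρ t Θ(ρ, t, (z - z0)/ρ)` is `≤ C ρ |t| ρ^(-k)`; `norm_iteratedFDeriv_comp_le` for the composition with `φ`
(on a compact set; multiply by `χ`, Leibniz `norm_iteratedFDeriv_smul_le`). -/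
def StmtG2 : Prop := ∀ (N K r : ℕ) (M : Set (E K)) (c : Chart N K M) (p : Fin 3 → End N),
  Proj3 p → ∀ (d : Tw N p) (z0 : E N), z0 ∈ c.V → ∃ C ρ0 : ℝ, 1 ≤ C ∧ 0 < ρ0 ∧ ρ0 ≤ 1 ∧
  ∀ ρ t : ℝ, 0 < ρ → ρ ≤ ρ0 → |t| ≤ 1 → Fit c d z0 ρ ∧
  ∃ w : E K → E K, ContDiff ℝ ∞ w ∧ (∀ x ∈ M, hM c d z0 ρ t x = x + w x) ∧
    ∀ k ≤ r, ∀ x, ‖iteratedFDeriv ℝ k w x‖ ≤ C * |t| * ρ * (ρ⁻¹) ^ k

/-- PACKET G3 (volume; from F1, F2, G1).  `Fit`, the chart is volume preserving: `m (ψ '' A) = volume A`.  Split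
`hM⁻¹ A ∩ M` into the parts in and outside `S` (see G1). -/
def StmtG3 : Prop := ∀ (N K : ℕ) (M : Set (E K)) (m : Measure (E K)) (c : Chart N K M)
  (p : Fin 3 → End N), SmoothVolume N K M m → Proj3 p → ∀ (d : Tw N p) (z0 : E N) (ρ : ℝ), 0 < ρ →
  Fit c d z0 ρ → (∀ A : Set (E N), MeasurableSet A → A ⊆ c.V → m (c.ψ '' A) = volume A) →
  ∀ t : ℝ, Preserves M m (hM c d z0 ρ t)

/-- PACKET G5 (the perturbation as a small cocycle; from F1, G1, G2, T2, T4).  `H` from T4 for `hM`.  `Near`: `hM x - x =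
w x`, `der M hM x = Pi M x + fderiv w x * Pi M x` (T2; `id + w`), and G2 with `k = 0, 1`. -/
def StmtG5 : Prop := ∀ (N K r : ℕ) (a : ℝ) (M : Set (E K)) (c : Chart N K M) (p : Fin 3 → End N),
  ContinuousOn (Pi M) M → Proj3 p → ∀ (d : Tw N p) (z0 : E N), z0 ∈ c.V → 2 ≤ r → 0 < a → a ≤ 1 →
  ∀ δ > 0, ∃ ρ1 > 0, ∀ ρ : ℝ, 0 < ρ → ρ ≤ ρ1 → ∃ H : Coc M K,
    Rep H (hM c d z0 ρ (a * ρ ^ (r - 1))) (hM c d z0 ρ (-(a * ρ ^ (r - 1)))) ∧ Near H δ ∧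
    Near H.inv δ ∧ ∀ x : M, (¬ ∃ y, d.q y ≤ 1 ∧ (x : E K) = c.ψ (z0 + ρ • y)) → H.Off x

/-- the projections in the chart -/
noncomputable def phat {N K : ℕ} {M : Set (E K)} (c : Chart N K M) (P : Fin 3 → E K → End K)
    (i : Fin 3) (z : E N) : End N :=
  (fderiv ℝ c.φ (c.ψ z)) ∘L (P i (c.ψ z)) ∘L (fderiv ℝ c.ψ z)

/-- PACKET K1 (from T1).  `P i x` has range in the tangent space (`Pi M x * P i x = P i x`, from `proj` and `sum`), so by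
T1 `phat` is multiplicative.  Hölder: `fderiv φ (ψ z)`, `fderiv ψ z`, `ψ` are Lipschitz near `z0`, and Lipschitz implies
`α`-Hölder on bounded sets (`α ≤ 1`). -/
def StmtK1 : Prop := ∀ (N K : ℕ) (M : Set (E K)) (c : Chart N K M) (P : Fin 3 → E K → End K)
  (z0 : E N) (α C : ℝ) (U : Set (E K)), z0 ∈ c.V → IsOpen U → c.ψ z0 ∈ U → 0 < α → α ≤ 1 →
  (∀ x ∈ M, ∀ i j, P i x * P j x = if i = j then P i x else 0) →
  (∀ x ∈ M, P 0 x + P 1 x + P 2 x = Pi M x) →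
  (∀ x ∈ M ∩ U, ∀ y ∈ M ∩ U, ∀ i, ‖P i x - P i y‖ ≤ C * ‖x - y‖ ^ α) →
  (∀ z ∈ c.V, Proj3 (fun i => phat c P i z)) ∧
  (∀ z ∈ c.V, ∀ i, P i (c.ψ z) ≠ 0 → phat c P i z ≠ 0) ∧
  ∃ r0 C' : ℝ, 0 < r0 ∧ Metric.closedBall z0 r0 ⊆ c.V ∧
    (∀ z ∈ Metric.closedBall z0 r0, ∀ z' ∈ Metric.closedBall z0 r0, ∀ i,
      ‖phat c P i z - phat c P i z'‖ ≤ C' * ‖z - z'‖ ^ α) ∧
    ∀ z ∈ Metric.closedBall z0 r0, ‖fderiv ℝ c.ψ z‖ ≤ C' ∧ ‖fderiv ℝ c.φ (c.ψ z)‖ ≤ C'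

/-- PACKET NP (non-periodic points; from T1, T2).  `M` is compact, so complete: Baire.  `F j = {x ∈ M | f^[j] x = x}`, `j ≥
1`, is closed; if it had interior within `M ∩ U`, `f^[j] = id` on `M` near some `x`, so `f^[j n] = id` there, `f'^[j n] = id` there
(also near `x`), and `der M (f'^[j n]) x = Pi M x`; but `P 2 x v = v ≠ 0` and `dom` for `n` iterated `j` times (`der M (f'^[n])`
maps the range of `P 2` to the range of `P 2`) gives `‖der M (f'^[j n]) x v‖ < ‖v‖`. -/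
def StmtNP : Prop := ∀ (N K : ℕ) (M : Set (E K)) (m : Measure (E K)) (f f' : E K → E K)
  (P : Fin 3 → E K → End K) (U : Set (E K)), SmoothVolume N K M m → IsDiffeo 1 M f f' →
  PH M f f' P → IsOpen U → (M ∩ U).Nonempty → ∃ x ∈ M ∩ U, ∀ j : ℕ, 1 ≤ j → f^[j] x ≠ x

/-- PACKET MS (the measure on the subtype). -/
def StmtMS : Prop := ∀ (N K : ℕ) (M : Set (E K)) (m : Measure (E K)), SmoothVolume N K M m →
  (∀ f f' : E K → E K, IsDiffeo 1 M f f' → Preserves M m f → Preserves M m f' ∧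
    (∀ g g' : E K → E K, IsDiffeo 1 M g g' → Preserves M m g → Preserves M m (f ∘ g))) ∧
  IsFiniteMeasure (m.comap ((↑) : M → E K)) ∧
  (∀ (f : E K → E K) (F : M ≃ₜ M), Preserves M m f → (∀ x : M, (F x : E K) = f x) →
    MeasurePreserving F (m.comap ((↑) : M → E K)) (m.comap ((↑) : M → E K))) ∧
  (∀ F : E K → ℝ, ∫ x : M, F x ∂(m.comap ((↑) : M → E K)) = ∫ x, F x ∂m) ∧
  ∀ p : E K → Prop, (∀ᵐ x ∂m, p x) → ∀ᵐ x : M ∂(m.comap ((↑) : M → E K)), p x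

/-- PACKET INT (change of variables).  `F` restricted to `S = ψ '' (z0 + ρ {q ≤ 1})`; `ψ` restricted to `V` is a
measurable embedding (continuous, injective, Lusin-Souslin, or a homeomorphism onto its image) which maps `volume` to
`m`; then `z = z0 + ρ y` (`Measure.addHaar` scaling). -/
def StmtINT : Prop := ∀ (N K : ℕ) (M : Set (E K)) (m : Measure (E K)) (c : Chart N K M)
  (p : Fin 3 → End N), SmoothVolume N K M m → Proj3 p → ∀ (d : Tw N p) (z0 : E N) (ρ : ℝ), 0 < ρ →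
  Fit c d z0 ρ → (∀ A : Set (E N), MeasurableSet A → A ⊆ c.V → m (c.ψ '' A) = volume A) →
  ∀ F : E K → ℝ, ContinuousOn F M →
  (∀ x ∈ M, (¬ ∃ y, d.q y ≤ 1 ∧ x = c.ψ (z0 + ρ • y)) → F x = 0) →
  ∫ x, F x ∂m = ρ ^ N * ∫ y in {y | d.q y ≤ 1}, F (c.ψ (z0 + ρ • y))

/-- PACKET ORB (orbits).  If `x ∈ B` then `h x ∈ B`, `(f ∘ h)^[j] x = f^[j] (h x)` for `j ≤ J + 1` and `= f^[-j] x` backwards; these
points are not in `B`. -/
def StmtORB : Prop := ∀ (X : Type) [TopologicalSpace X] (K : ℕ) (C H : Coc X K) (e : H.T = C.T)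
  (B : Set X) (J : ℕ), (∀ x ∈ B, H.f x ∈ B) → (∀ x ∈ B, H.f.symm x ∈ B) → (∀ x ∉ B, H.Off x) →
  (∀ j, 1 ≤ j → j ≤ J → ∀ x ∈ B, C.f^[j] x ∉ B) → ∀ x ∈ B, ∀ j, 1 ≤ j → j ≤ J →
  H.Off ((C.comp H e).f^[j] x) ∧ H.Off ((C.comp H e).f.symm^[j] x)

/-- PACKET NB (neighbourhoods of a non-periodic point).  Continuity of `f^[j]`, `j ≤ J`, on `M` at `ψ z0`, and
`diam (ψ '' (z0 + ρ {q ≤ 1})) → 0`. -/
def StmtNB : Prop := ∀ (N K : ℕ) (M : Set (E K)) (c : Chart N K M) (p : Fin 3 → End N),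
  Proj3 p → ∀ (d : Tw N p) (z0 : E N), z0 ∈ c.V → ∀ f : E K → E K, MapsTo f M M →
  ContinuousOn f M → (∀ j : ℕ, 1 ≤ j → f^[j] (c.ψ z0) ≠ c.ψ z0) → ∀ J : ℕ, ∃ ρ1 > 0, ∀ ρ : ℝ,
  0 < ρ → ρ ≤ ρ1 → Fit c d z0 ρ ∧ ∀ j, 1 ≤ j → j ≤ J → ∀ y y' : E N, d.q y ≤ 1 → d.q y' ≤ 1 →
    f^[j] (c.ψ (z0 + ρ • y)) ≠ c.ψ (z0 + ρ • y')

end Pool.Agent.Helper56.RZ
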