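import Pool.Agent.Helper56.RZ.GoalsC

/-!
# Project RZ, third theorem: all dimensions, `C^2`; and `C^r` if a strong bundle has dimension `≥ 2r-2`

Order: DT -> LC; TF; SM;  TL, TA -> TV, TE;  GA1 -> GA3; GA2 -> GA5;  OB; RS; AR;  SF; GT; CB; SK; GM -> AV;
PCN -> RA; DI -> RB; JV, JM -> RD; RCC -> RE; DF; FB -> RET.
All statements are independent: a packet may assume the other statements it names (and all finished statements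
of GoalsA, GoalsB, GoalsC).  The full paper proof: /team-store/MP_f32c9c_an_proof3_helper56.md.
-/

set_option autoImplicit false

open Set Filter Topology MeasureTheory

open scoped ContDiff

namespace Pool.Agent.Helper56.RZ

/-- determinant of an endomorphism -/
noncomputable def dt {K : ℕ} (A : End K) : ℝ := LinearMap.det (A : E K →ₗ[ℝ] E K)

/-- logarithm of the determinant of `P Q P` on the range of the projection `P` -/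
noncomputable def Ph {K : ℕ} (P Q : End K) : ℝ := Real.log |dt (P * Q * P + 1 - P)|

/-- the local functional -/
noncomputable def Ps {K : ℕ} (P Q : Fin 3 → End K) : ℝ := Ph (P 0) (Q 0) - Ph (P 2) (Q 2)

/-- PACKET DT (determinant identity).  `V = ∑ Q i P i`, `W = V⁻¹`.  `V P_i = Q_i P_i = Q_i V`, so `W Q_i = P_i W`, `P_i W P_i = W Q_i
P_i = W V P_i = P_i`.  `D = P_1 W G`, `Th = G' V` : `Th P_1 = Th`, `P_1 W Th = W Q_1 G' V = P_1`, `P_0 W Th = 0`, `P_2 Th = 0`, `P_2 W G = 0`,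
`G' = Th W`, `P_1 G' Q_1 G = P_1 Th P_1 W G = (P_1 Th P_1) D`, so the first determinant is `det (P_1 Th P_1 + 1 - P_1) * det (D +
1 - P_1)`.
(i) `X = (1 - P_0) W (1 - P_0) + P_0`, `X (G + P_0 + P_2) = D + P_1 W P_2 + P_2 + P_0 = (1 + P_1 W P_2) (D + 1 - P_1)`, `G + P_0 + P_2 = 1 +
P_2 G` and `(P_2 G)² = 0`, `(P_1 W P_2)² = 0` : `det X = det (D + 1 - P_1)`.
(ii) `X' = (1 - P_2) W (1 - P_2) + P_2`, `X' (Th + 1 - P_1) = 1 + P_1 W P_0`, `Th + 1 - P_1 = (P_1 Th P_1 + 1 - P_1) (1 + P_0 Th)` : `det X' *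
det (P_1 Th P_1 + 1 - P_1) = 1`.
(iii) for `P = P_0, P_2` : `W (V P + 1 - P) = P + W (1 - P) = (P + (1 - P) W (1 - P)) (1 + P W (1 - P))` and `V P + 1 - P = (P V P + 1 - P)
(1 + (1 - P) V P)` : `det W * det (P V P + 1 - P) = det (P + (1 - P) W (1 - P))`; `P_i V P_i = P_i Q_i P_i`.  (`det (1 + n) = 1` if `n² = 0`:
`(1 + n) (1 - n) = 1`, and `det (1 + s n)` is a polynomial without zeros, or `det (1 + A B) = det (1 + B A)` with `n = P n (1 - P)`.) -/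
def StmtDT : Prop := ∀ (K : ℕ) (P Q : Fin 3 → End K) (G G' : End K), Proj3 P → Proj3 Q →
  IsUnit (Q 0 * P 0 + Q 1 * P 1 + Q 2 * P 2) →
  G * P 1 = G → P 1 * G = P 1 → P 0 * G = 0 → Q 2 * G = 0 →
  G' * Q 1 = G' → Q 1 * G' = Q 1 → Q 0 * G' = 0 → P 2 * G' = 0 →
  dt (P 1 * G' * Q 1 * G + 1 - P 1) * dt (P 2 * Q 2 * P 2 + 1 - P 2) =
    dt (P 0 * Q 0 * P 0 + 1 - P 0)

/-- PACKET LC (from DT, LD).  Replace `P 1, Q 1, G, G'` by the sums with `1 - T`: then `T = 1` (`G (1 - T) = 0 = (1 - T) G`, the same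
for `G'`; `P_1 G' Q_1 G - P_1` does not change).  Exact `G₀ = P_1 - P_2 Y P_2 Q_2 P_1`, `Y` the inverse of `P_2 Q_2 P_2 + 1 - P_2` (close to `1`,
commutes with `P_2`): `P_2 Q_2 G₀ = 0`, hence `Q_2 G₀ = 0` (`‖Q_2 G₀‖ = ‖(Q_2 - P_2) Q_2 G₀‖`).  In the same way `G₀' = Q_1 - Q_2 Y' Q_2 P_2
Q_1`.  `u = G - G₀` : `P_1 u = 0`, `P_0 u = P_0 G`, `Q_2 P_2 u = Q_2 G - Q_2 P_0 G`, so `‖u‖ ≤ C e`, `Q_1 u = (Q_1 - P_1) u = O(κ e)`; `u' = G' - G₀'` :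
`Q_1 u' = 0`, `‖u'‖ ≤ C e`, `P_1 u' = (P_1 - Q_1) u' = O(κ e)`.  `P_1 G' Q_1 G - P_1 G₀' Q_1 G₀ = P_1 u' Q_1 G + P_1 G₀' Q_1 u = O(κ e)`.  `log |det|` is
Lipschitz near `1` (LD: `log |det (1 + Z')| - log |det (1 + Z)| = log |det (1 + (1 + Z)⁻¹ (Z' - Z))|`).  DT for `G₀, G₀'`; the determinants
are not zero. -/
def StmtLC : Prop := ∀ (K : ℕ) (R : ℝ), ∃ c δ : ℝ, 1 ≤ c ∧ 0 < δ ∧ δ ≤ 1 ∧
  ∀ (P Q : Fin 3 → End K) (T G G' : End K) (κ e : ℝ),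
  (∀ i j, P i * P j = if i = j then P i else 0) → P 0 + P 1 + P 2 = T →
  (∀ i j, Q i * Q j = if i = j then Q i else 0) → Q 0 + Q 1 + Q 2 = T →
  (∀ i, ‖P i‖ ≤ R) → (∀ i, ‖Q i - P i‖ ≤ κ) → κ ≤ δ → 0 ≤ e → e ≤ δ →
  T * G = G → G * P 1 = G → P 1 * G = P 1 → ‖P 0 * G‖ ≤ e → ‖Q 2 * G‖ ≤ e →
  T * G' = G' → G' * Q 1 = G' → Q 1 * G' = Q 1 → ‖Q 0 * G'‖ ≤ e → ‖P 2 * G'‖ ≤ e →
  |Real.log |dt (1 + (P 1 * G' * Q 1 * G - P 1))| - Ps P Q| ≤ c * κ * e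

/-- PACKET TF (transfer to the chart).  Sylvester: `det_K (1 + A B) = det_N (1 + B A)` for `A : ℝ^N → ℝ^K`, `B : ℝ^K → ℝ^N` (matrices:
`Matrix.det_one_add_mul_comm`).  `P Q P - P = u (v (P Q P - P) u) v U` with `P = P i`, `Q = D' P' i D` (`Two`: `uvP`, `Puv`, `PU`), `A = u`, `B = (v (P
Q P - P) u) v U`, `B A = v (P Q P - P) u` (`v U u = v u = 1`), and `v (P Q P) u = (v P u) (v Q u) (v P u)`, `v Q u = (v D' u') (v' P' u') (v' D u)` by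
`Two.uvP` etc. (`D = U' D`, `u' v' U' = U'`). -/
def StmtTF : Prop := ∀ (N K : ℕ) (U U' : End K) (P P' : Fin 3 → End K) (D D' : End K)
  (u u' : E N →L[ℝ] E K) (v v' : E K →L[ℝ] E N),
  (∀ i j, P i * P j = if i = j then P i else 0) → P 0 + P 1 + P 2 = U →
  (∀ i j, P' i * P' j = if i = j then P' i else 0) → P' 0 + P' 1 + P' 2 = U' →
  v ∘L u = 1 → v' ∘L u' = 1 → U ∘L u = u → U' ∘L u' = u' → u ∘L v ∘L U = U →
  u' ∘L v' ∘L U' = U' → D * U = D → U' * D = D → D' * U' = D' → U * D' = D' →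
  ∀ i, Ph (P i) (D' * P' i * D) = Ph (v ∘L P i ∘L u)
    ((v ∘L D' ∘L u') * (v' ∘L P' i ∘L u') * (v' ∘L D ∘L u))

/-- PACKET SM (symmetry).  `Ph (P' i) (D P_i D') = Ph (D' P'_i D) (P_i)` (conjugation with `D`), so it remains `Ph Q P = Ph P Q` for two
projections with `‖Q - P‖` small: `V = Q P + (1 - Q) (1 - P)`, `V' = P Q + (1 - P) (1 - Q)` are close to `1`, `V P = Q V = Q P`, `V' Q = P V' = P Q`,
`V' V P = P Q P`, `V V' Q = Q P Q`, so `V (P Q P + 1 - P) = V (V' V P + 1 - P) = (V V' Q + 1 - Q) V = (Q P Q + 1 - Q) V`; take determinants. -/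
def StmtSM : Prop := ∀ (K : ℕ) (R : ℝ), ∃ δ : ℝ, 0 < δ ∧ ∀ (P P' : Fin 3 → End K) (D D' : End K),
  Proj3 P → Proj3 P' → (∀ i, ‖P i‖ ≤ R) → D' * D = 1 → D * D' = 1 → ‖D - 1‖ ≤ δ →
  (∀ i, ‖P' i - P i‖ ≤ δ) →
  Ps P' (fun i => D * P i * D') = Ps P (fun i => D' * P' i * D)

namespace Tw
variable {N : ℕ} {p : Fin 3 → End N} (d : Tw N p)

/-- rotation by the angle `s` in the plane of `ec`, `eu` -/
noncomputable def rot (s : ℝ) (z : E N) : E N :=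
  z + (Real.cos s - 1) • (d.wc z • d.ec + d.wu z • d.eu) + Real.sin s • d.J z

/-- twist with the angle `a (t β(q z))` -/
noncomputable def Ha (a : ℝ → ℝ) (t : ℝ) (z : E N) : E N := d.rot (a (t * be (d.q z))) z

/-- the twist at scale `ρ` around `z0` -/
noncomputable def loca (a : ℝ → ℝ) (z0 : E N) (ρ t : ℝ) (z : E N) : E N :=
  z0 + ρ • d.Ha a t (ρ⁻¹ • (z - z0))

end Tw

/-- angle functions: smooth and odd -/
structure Ang (a : ℝ → ℝ) : Prop where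
  smooth : ContDiff ℝ ∞ a
  odd : ∀ x, a (-x) = - a x

/-- a smooth odd function with `2 sin (th x) = x` for `|x| ≤ 1` -/
noncomputable def th (x : ℝ) : ℝ := Real.arcsin (x * Real.smoothTransition (2 - x ^ 2) / 2)

/-- twice the angle `th` -/
noncomputable def th2 (x : ℝ) : ℝ := 2 * th x

/-- PACKET TL (law of the twist; from F1 and its file).  `|x * smoothTransition (2 - x²) / 2| ≤ √2 / 2 < 1` (it is `0` for `x² ≥ 2`), so `arcsin` is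
smooth there (`Real.contDiffAt_arcsin`); for `|x| ≤ 1` the transition is `1`.  `rot s (rot s' z) = rot (s + s') z` (`wc (rot s z) = cos s wc z - sin s
wu z` etc., as in Pool/Agent/Helper34/RZ/F1.lean) and `q (rot s z) = q z`.  `rot (2 s) z - z = (2 sin s) • J (rot s z)` by `cos 2s - 1 = -2 sin² s`, `J ec =
eu`, `J eu = - ec`, `J (R z) = 0`; `X y = be (q y) • J y`, `|be| ≤ 1`. -/
def StmtTL : Prop := Ang th ∧ Ang th2 ∧ (∀ x : ℝ, |x| ≤ 1 → 2 * Real.sin (th x) = x) ∧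
  ∀ (N : ℕ) (p : Fin 3 → End N), Proj3 p → ∀ (d : Tw N p) (t : ℝ) (z : E N),
  d.Ha th2 t z = d.Ha th t (d.Ha th t z) ∧
  (|t| ≤ 1 → d.Ha th2 t z - z = t • d.X (d.Ha th t z))

/-- PACKET TA (as packet F1, Pool/Agent/Helper34/RZ/F1.lean, with `t * be (q z)` replaced by `a (t * be (q z))`; `a 0 = 0`; oddness: `q (-z) = q z`,
`rot s` is linear). -/
def StmtTA : Prop := ∀ (N : ℕ) (p : Fin 3 → End N), Proj3 p → ∀ (d : Tw N p) (a : ℝ → ℝ), Ang a →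
  ContDiff ℝ ∞ (fun x : ℝ × E N => d.Ha a x.1 x.2) ∧
  (∀ t z, d.q (d.Ha a t z) = d.q z) ∧ (∀ t z, d.Ha a (-t) (d.Ha a t z) = z) ∧
  (∀ z, d.Ha a 0 z = z) ∧ (∀ t z, 1 ≤ d.q z → d.Ha a t z = z) ∧
  (∀ t z, d.Ha a t (-z) = - d.Ha a t z) ∧ ∀ z, d.q (-z) = d.q z

/-- PACKET TV (as packet F2, Pool/Agent/Helper12/RZ/F2.lean; from TA).  `φ = a (t β(q z))`; `Dφ (J z) = 0` because `Dq (J z) = 0`. -/
def StmtTV : Prop := ∀ (N : ℕ) (p : Fin 3 → End N), Proj3 p → ∀ (d : Tw N p) (a : ℝ → ℝ), Ang a →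
  ∀ t : ℝ, (∀ z, |(fderiv ℝ (d.Ha a t) z).det| = 1) ∧
  ∀ A : Set (E N), MeasurableSet A → volume (d.Ha a t '' A) = volume A

/-- PACKET TE (from TA; as packet F3).  `Ha` is `C^∞` in `(t, z)`, `Ha 0 z = z`, `Ha t z = z` for `q z ≥ 1`; mean value inequality in `t`, compactness of
`|t| ≤ 1, q z ≤ 1`. -/
def StmtTE : Prop := ∀ (N : ℕ) (p : Fin 3 → End N), Proj3 p → ∀ (d : Tw N p) (a : ℝ → ℝ), Ang a →
  ∃ c : ℝ, 1 ≤ c ∧ ∀ (t : ℝ) (z : E N), |t| ≤ 1 → ‖d.Ha a t z - z‖ ≤ c * |t| ∧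
    ‖fderiv ℝ (d.Ha a t) z - 1‖ ≤ c * |t|

/-- the perturbation of the identity of `M` -/
noncomputable def hMa {N K : ℕ} {M : Set (E K)} (c : Chart N K M) {p : Fin 3 → End N}
    (d : Tw N p) (a : ℝ → ℝ) (z0 : E N) (ρ t : ℝ) (x : E K) : E K :=
  open scoped Classical in if x ∈ c.W then c.ψ (d.loca a z0 ρ t (c.φ x)) else x

/-- PACKET GA1 (as packet G1, Pool/Agent/Helper98/RZ/G1.lean; from TA, F1, T1, T2). -/
def StmtGA1 : Prop := ∀ (N K : ℕ) (M : Set (E K)) (c : Chart N K M) (p : Fin 3 → End N),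
  Proj3 p → ∀ (d : Tw N p) (a : ℝ → ℝ), Ang a → ∀ (z0 : E N) (ρ : ℝ), 0 < ρ → Fit c d z0 ρ →
  ∀ t : ℝ, IsDiffeo ∞ M (hMa c d a z0 ρ t) (hMa c d a z0 ρ (-t)) ∧
  (∀ y, d.q y ≤ 1 → hMa c d a z0 ρ t (c.ψ (z0 + ρ • y)) = c.ψ (z0 + ρ • d.Ha a t y)) ∧
  (∀ x ∈ M, (¬ ∃ y, d.q y ≤ 1 ∧ x = c.ψ (z0 + ρ • y)) →
    hMa c d a z0 ρ t x = x ∧ der M (hMa c d a z0 ρ t) x = Pi M x) ∧
  (∀ y, d.q y ≤ 1 → (fderiv ℝ c.φ (c.ψ (z0 + ρ • d.Ha a t y))) ∘L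
    (der M (hMa c d a z0 ρ t) (c.ψ (z0 + ρ • y))) ∘L (fderiv ℝ c.ψ (z0 + ρ • y)) =
      fderiv ℝ (d.Ha a t) y)

/-- PACKET GA2 (as packet G2, Pool/Agent/Helper62/RZ/G2.lean, uniformly in the centre `y0` of the perturbation; from TA, F1).  In that file replace
`G (ρ, t, y)` by `G (ρ, t, (y0, y)) = ψt (y0 + ρ Ha t y) - ψt (y0 + ρ y)`, `y0` in a small closed ball around `z0` (`ψt = ψ` near `z0`); it is `C^∞` in all variables,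
vanishes for `ρ = 0` and for `t = 0` and for `q y ≥ 1`; the bound `S` of the derivatives of order `k + 2` is uniform on the compact set `|ρ| ≤ 1, |t| ≤ 1,
‖y0 - z0‖ ≤ r0, q y ≤ 1`. -/
def StmtGA2 : Prop := ∀ (N K r : ℕ) (M : Set (E K)) (c : Chart N K M) (p : Fin 3 → End N),
  Proj3 p → ∀ (d : Tw N p) (a : ℝ → ℝ), Ang a → ∀ z0 ∈ c.V, ∃ C ρ0 r0 : ℝ, 1 ≤ C ∧ 0 < ρ0 ∧
  ρ0 ≤ 1 ∧ 0 < r0 ∧ ∀ y ∈ Metric.closedBall z0 r0, ∀ ρ t : ℝ, 0 < ρ → ρ ≤ ρ0 → |t| ≤ 1 →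
  Fit c d y ρ ∧ ∃ w : E K → E K, ContDiff ℝ ∞ w ∧ (∀ x ∈ M, hMa c d a y ρ t x = x + w x) ∧
    ∀ k ≤ r, ∀ x, ‖iteratedFDeriv ℝ k w x‖ ≤ C * |t| * ρ * (ρ⁻¹) ^ k

/-- PACKET GA3 (as packet G3, Pool/Agent/Helper59/RZ/G3.lean; from TA, TV, F1, GA1). -/
def StmtGA3 : Prop := ∀ (N K : ℕ) (M : Set (E K)) (m : Measure (E K)) (c : Chart N K M)
  (p : Fin 3 → End N), SmoothVolume N K M m → Proj3 p → ∀ (d : Tw N p) (a : ℝ → ℝ), Ang a →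
  ∀ (z0 : E N) (ρ : ℝ), 0 < ρ → Fit c d z0 ρ →
  (∀ A : Set (E N), MeasurableSet A → A ⊆ c.V → m (c.ψ '' A) = volume A) →
  ∀ t : ℝ, Preserves M m (hMa c d a z0 ρ t)

/-- PACKET GA5 (as packet G5, Pool/Agent/Helper39/RZ/G5.lean; from GA1, GA2, T2, T4).  `k = 0, 1` in GA2: `‖w‖ ≤ C |t| ρ`, `‖Dw‖ ≤ C |t|`. -/
def StmtGA5 : Prop := ∀ (N K : ℕ) (M : Set (E K)) (c : Chart N K M) (p : Fin 3 → End N),
  ContinuousOn (Pi M) M → Proj3 p → ∀ (d : Tw N p) (a : ℝ → ℝ), Ang a → ∀ z0 ∈ c.V,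
  ∃ C ρ0 r0 : ℝ, 1 ≤ C ∧ 0 < ρ0 ∧ ρ0 ≤ 1 ∧ 0 < r0 ∧ ∀ y ∈ Metric.closedBall z0 r0, ∀ ρ t : ℝ,
  0 < ρ → ρ ≤ ρ0 → |t| ≤ 1 → ∃ H : Coc M K,
    Rep H (hMa c d a y ρ t) (hMa c d a y ρ (-t)) ∧ Near H (C * |t|) ∧ Near H.inv (C * |t|) ∧
    ∀ x : M, (¬ ∃ s, d.q s ≤ 1 ∧ (x : E K) = c.ψ (y + ρ • s)) → H.Off x

/-- PACKET OB (orbits and the support, pointwise; compare Pool/Agent/Helper12/RZ/OR.lean).  `H.f z = z` for `z ∉ B`.  Induction on `j`: `(C.comp H e).f.symm^[j] x =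
C.f.symm^[j] x` for `1 ≤ j ≤ J` as `(C.comp H e).f.symm y = H.f.symm (C.f.symm y)`, and `(C.comp H e).f^[j] x = C.f^[j] (H.f x)`. -/
def StmtOB : Prop := ∀ (X : Type) [TopologicalSpace X] (K : ℕ) (C H : Coc X K) (e : H.T = C.T)
  (B : Set X) (J : ℕ), (∀ x ∉ B, H.Off x) → ∀ x : X,
  ((∀ j, 1 ≤ j → j ≤ J → C.f.symm^[j] x ∉ B) →
    ∀ j, 1 ≤ j → j ≤ J → H.Off ((C.comp H e).f.symm^[j] x)) ∧
  ((∀ j, 1 ≤ j → j ≤ J → C.f^[j] (H.f x) ∉ B) →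
    ∀ j, 1 ≤ j → j ≤ J → H.Off ((C.comp H e).f^[j] x))

/-- PACKET RS (sum over return times).  For `x ∈ B` let `J ≤ N0` be maximal such that the four conditions hold for `j ≤ J`.  If `J = N0`: `|g x| ≤ A
l^N0`.  Otherwise one of the four points with `j = J + 1` is in `B` and `|g x| ≤ A l^J`.  So `|g x| ≤ A (l^N0 + ∑_{n<N0} l^n (1{F^(n+1) x ∈ B} + 1{F^(-n-1) x ∈
B} + 1{F^(n+1) (h x) ∈ B} + 1{F^(-n-1) (h x) ∈ B}))` on `B`; integrate over `B`: `m {x ∈ B, F^(-n-1) x ∈ B} = m {x ∈ B, F^(n+1) x ∈ B}` (apply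
`F^(n+1)`), and `h` preserves `m` and `B`. -/
def StmtRS : Prop := ∀ (X : Type) [MetricSpace X] [CompactSpace X] [MeasurableSpace X]
  [BorelSpace X] (m : Measure X) [IsFiniteMeasure m] (F h : X ≃ₜ X) (B : Set X) (g : X → ℝ)
  (A l : ℝ), MeasurePreserving F m m → MeasurePreserving h m m → MeasurableSet B →
  (∀ x, h x ∈ B ↔ x ∈ B) → Continuous g → 0 ≤ A → 0 < l → l < 1 → (∀ x ∉ B, g x = 0) →
  (∀ (J : ℕ) (x : X), x ∈ B → (∀ j, 1 ≤ j → j ≤ J → F^[j] x ∉ B ∧ F.symm^[j] x ∉ B ∧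
    F^[j] (h x) ∉ B ∧ F.symm^[j] (h x) ∉ B) → |g x| ≤ A * l ^ J) → ∀ N0 : ℕ,
  |∫ x, g x ∂m| ≤ A * (4 * ∑ n ∈ Finset.range N0,
    l ^ n * (m {x | x ∈ B ∧ F^[n + 1] x ∈ B}).toReal + l ^ N0 * (m B).toReal)

/-- the support of the perturbation -/
def Bs {N K : ℕ} {M : Set (E K)} (c : Chart N K M) {p : Fin 3 → End N} (d : Tw N p) (y : E N)
    (ρ : ℝ) : Set (E K) := {x | ∃ s, d.q s ≤ 1 ∧ x = c.ψ (y + ρ • s)}

/-- PACKET AR (average of the return sets over the centre; from F1).  `r0, ρ0` so small that `y + ρ s ∈ V` and `ψ (y + ρ s) ∈ U` for `‖y - z0‖ ≤ r0`, `ρ ≤ ρ0`,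
`q s ≤ 1`, `ψ` Lipschitz there.  For `z` near `z0`: `ψ z ∈ Bs y` iff `q (ρ⁻¹ (z - y)) ≤ 1` (`ψ` is injective on `V`).  The set of `(y, z)`, `‖y - z0‖ ≤ r0`,
`ψ z ∈ Bs y`, `g (ψ z) ∈ Bs y` is compact; `m {x ∈ Bs y, g x ∈ Bs y}` = volume of its section; Tonelli: the integral is at most `∫_z 1{ψ z ∈ U, ‖g (ψ z) -
ψ z‖ ≤ C ρ} volume {y | q (ρ⁻¹ (z - y)) ≤ 1} dz` and the last volume is `ρ^N volume {q ≤ 1}`.  (Two points of `Bs y` have distance `≤ C ρ`.) -/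
def StmtAR : Prop := ∀ (N K : ℕ) (M : Set (E K)) (m : Measure (E K)) (c : Chart N K M)
  (p : Fin 3 → End N), SmoothVolume N K M m → Proj3 p → ∀ (d : Tw N p) (z0 : E N), z0 ∈ c.V →
  (∀ A : Set (E N), MeasurableSet A → A ⊆ c.V → m (c.ψ '' A) = volume A) →
  ∀ U : Set (E K), IsOpen U → c.ψ z0 ∈ U → ∃ C r0 ρ0 : ℝ, 1 ≤ C ∧ 0 < r0 ∧ 0 < ρ0 ∧
  ∀ χ : E N → ℝ, Continuous χ → (∀ y, 0 ≤ χ y) → (∀ y, χ y ≤ 1) →
  (∀ y, y ∉ Metric.closedBall z0 r0 → χ y = 0) → ∀ ρ : ℝ, 0 < ρ → ρ ≤ ρ0 →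
  Integrable (fun y => χ y * (m (Bs c d y ρ)).toReal) volume ∧
  ∫ y, χ y * (m (Bs c d y ρ)).toReal ≤ C * ρ ^ N ∧
  ∀ g : E K → E K, ContinuousOn g M → MapsTo g M M →
    Integrable (fun y => χ y * (m {x | x ∈ Bs c d y ρ ∧ g x ∈ Bs c d y ρ}).toReal) volume ∧
    ∫ y, χ y * (m {x | x ∈ Bs c d y ρ ∧ g x ∈ Bs c d y ρ}).toReal ≤
      C * ρ ^ N * (m {x | x ∈ M ∩ U ∧ ‖g x - x‖ ≤ C * ρ}).toReal

/-- derivative of the twist `W t = Ha th2 t` at the point `S (-t) s = Ha th (-t) s` -/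
noncomputable def Tw.Dd {N : ℕ} {p : Fin 3 → End N} (d : Tw N p) (t : ℝ) (s : E N) : End N :=
  fderiv ℝ (d.Ha th2 t) (d.Ha th (-t) s)

/-- the integrand; the projections `P`, `P'` are independent variables -/
noncomputable def kk {N : ℕ} {p : Fin 3 → End N} (χ : E N → ℝ) (d : Tw N p) (ρ t : ℝ)
    (z s : E N) (P P' : Fin 3 → End N) : ℝ :=
  χ (z - ρ • d.Ha th (-t) s) * Ps P (fun i => d.Dd (-t) s * P' i * d.Dd t s)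

/-- the local functional of the perturbation with centre `y` at the point `y + ρ s` -/
noncomputable def Fl {N : ℕ} {p : Fin 3 → End N} (d : Tw N p) (ph : Fin 3 → E N → End N)
    (ρ t : ℝ) (y s : E N) : ℝ :=
  Ps (fun i => ph i (y + ρ • s)) (fun i => fderiv ℝ (d.Ha th2 (-t)) (d.Ha th2 t s) *
    ph i (y + ρ • d.Ha th2 t s) * fderiv ℝ (d.Ha th2 t) s)

/-- the average of the local functional -/
noncomputable def FF {N : ℕ} {p : Fin 3 → End N} (χ : E N → ℝ) (d : Tw N p)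
    (ph : Fin 3 → E N → End N) (ρ t : ℝ) : ℝ :=
  ∫ y, χ y * ∫ s in {s | d.q s ≤ 1}, Fl d ph ρ t y s

/-- PACKET SF (the symmetric formula; from TL, TA, TV, TE, SM, F1).  `S t = Ha th t`, `W t = Ha th2 t = S t ∘ S t`, `W (-t) = (W t)⁻¹`, `S (-t) = (S t)⁻¹`.
`η ≤ 1` small: all operators `D' P' D` are close to `p`, the determinants in `Ps` are not zero, `Ps` is continuous there, so all integrands are continuous and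
compactly supported (in `y` or `z`; `s` in the compact set `{q ≤ 1}`): Fubini is allowed.
(1) For fixed `s` substitute `z = y + ρ s`: `FF = ∫_s ∫_z χ (z - ρ s) Ps (ph z) (D_s⁻¹ ph (z + w_s) D_s)`, `w_s = ρ (W t s - s) = ρ t X (S t s)` (TL), `D_s = fderiv (W t)
s`, `D_s⁻¹ = fderiv (W (-t)) (W t s)`.
(2) First `s → -s` (`W t (-s) = - W t s`, so `fderiv (W t) (-s) = fderiv (W t) s`), then `z = y - ρ W t s`, `y - ρ s = z + w_s`, and SM: `FF = ∫_s ∫_z χ (z + ρ W t s) Ps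
(ph z) (D_s ph (z + w_s) D_s⁻¹)`.
(3) In both substitute `s = S (-t) s'` (a volume preserving bijection of `{q ≤ 1}`, TV; `z` fixed, or exchange the order): `W t s = S t s'`, `S t s = s'`, `D_s = Dd t s'`,
`D_s⁻¹ = fderiv (W (-t)) (S t s') = Dd (-t) s'`.  Half the sum of both. -/
def StmtSF : Prop := ∀ (N : ℕ) (p : Fin 3 → End N), Proj3 p → ∀ d : Tw N p, ∃ η : ℝ, 0 < η ∧
  ∀ (χ : E N → ℝ) (ph : Fin 3 → E N → End N), Continuous χ → HasCompactSupport χ →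
  (∀ z, Proj3 (fun i => ph i z)) → (∀ i, Continuous (ph i)) → (∀ i z, ‖ph i z - p i‖ ≤ η) →
  ∀ ρ t : ℝ, 0 < ρ → |t| ≤ η → FF χ d ph ρ t = (1 / 2) * ∫ s in {s | d.q s ≤ 1}, ∫ z,
    (kk χ d ρ t z s (fun i => ph i z) (fun i => ph i (z + (ρ * t) • d.X s)) +
      kk χ d (-ρ) (-t) z s (fun i => ph i z) (fun i => ph i (z + (ρ * t) • d.X s)))

/-- PACKET GT (Taylor expansion, uniform in parameters).  All derivatives of `k` are continuous on `O`, hence bounded on the compact set `[-1, 1] × [-t0, t0] × Kw`.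
`k (ρ, t, w) = k (ρ, 0, w) + t ∂_t k (ρ, 0, w) + (t²/2) ∂_t² k (ρ, 0, w) + O(t³)` (Taylor on the segment, which is in `O`), then expand the first two coefficients in `ρ` up
to `ρ^(m-1)` (remainder `O(ρ^m)`) and replace `∂_t² k (ρ, 0, w)` by `∂_t² k (0, 0, w) = 2 γ w` (error `O(ρ)`).  `taylor_mean_remainder_bound` or iterated mean
value inequalities.  `α j w = ∂_ρ^j k (0, 0, w) / j!`, `β j w = ∂_ρ^j ∂_t k (0, 0, w) / j!`. -/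
def StmtGT : Prop := ∀ (W : Type) [NormedAddCommGroup W] [NormedSpace ℝ W] (k : ℝ × ℝ × W → ℝ)
  (O : Set (ℝ × ℝ × W)) (Kw : Set W) (t0 : ℝ) (m : ℕ), IsOpen O → ContDiffOn ℝ ∞ k O →
  IsCompact Kw → 0 < t0 → 1 ≤ m →
  (∀ (ρ t : ℝ) (w : W), |ρ| ≤ 1 → |t| ≤ t0 → w ∈ Kw → (ρ, t, w) ∈ O) →
  ∃ (B : ℝ) (α β : ℕ → W → ℝ) (γ : W → ℝ), 0 ≤ B ∧ ContinuousOn γ Kw ∧
  ∀ w ∈ Kw, ∀ ρ t : ℝ, |ρ| ≤ 1 → |t| ≤ t0 →
    |k (ρ, t, w) - ∑ j ∈ Finset.range m, ρ ^ j * (α j w + t * β j w) - γ w * t ^ 2| ≤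
      B * (|ρ| ^ m + |ρ| * t ^ 2 + |t| ^ 3)

/-- PACKET CB (coefficients).  First part: a square Vandermonde system `∑_i a i y^i = b` for the `m + 1` distinct nodes `y = 2^(-2), 1, 2, .., 2^(m-1)`
(`Matrix.det_vandermonde_ne_zero_iff`).  Second part: put `h (2^i ρ, t/2^i)` into the expansion; the coefficient of `ρ^j α' j` is `∑ a i 2^(ij) = 0`, of `ρ^j t β' j`
(`j ≥ 1`) is `∑ a i 2^(i(j-1)) = 0`, of `γ t²` is `1`. -/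
def StmtCB : Prop := ∀ m : ℕ, 1 ≤ m → ∃ (a : ℕ → ℝ) (C : ℝ), 0 ≤ C ∧
  ∀ (h : ℝ → ℝ → ℝ) (α β : ℕ → ℝ) (γ B t0 : ℝ), 0 ≤ B → β 0 = 0 →
  (∀ ρ t : ℝ, 0 ≤ ρ → ρ ≤ 1 → 0 ≤ t → t ≤ t0 →
    |h ρ t - ∑ j ∈ Finset.range m, ρ ^ j * (α j + t * β j) - γ * t ^ 2| ≤
      B * (ρ ^ m + ρ * t ^ 2 + t ^ 3)) →
  ∀ ρ t : ℝ, 0 ≤ ρ → 2 ^ m * ρ ≤ 1 → 0 ≤ t → t ≤ t0 →
    |∑ i ∈ Finset.range (m + 1), a i * h (2 ^ i * ρ) (t / 2 ^ i) - γ * t ^ 2| ≤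
      C * B * (ρ ^ m + ρ * t ^ 2 + t ^ 3)

/-- PACKET SK (the integrand is smooth; from TA, TE, TL, F1).  `O` = the set where the two determinants in `Ps` are not zero; they are polynomials in the matrix entries
of `P 0`, `P 2` and `Dd (-t) s P' i Dd t s`, and `Dd` is `C^∞` in `(t, s)` (`ContDiff.fderiv`).  `log |x|` is smooth for `x ≠ 0`.  `‖Dd t s - 1‖ ≤ c |t|` (TE), so for small `t0`,
`η`: `‖P_i (Q_i - P_i) P_i‖ < 1` for `Q_i = Dd (-t) s P'_i Dd t s`, and `P_i Q_i P_i + 1 - P_i = 1 + P_i (Q_i - P_i) P_i` is invertible. -/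
def StmtSK : Prop := ∀ (N : ℕ) (p : Fin 3 → End N), Proj3 p → ∀ d : Tw N p, ∃ t0 η : ℝ, 0 < t0 ∧
  t0 ≤ 1 ∧ 0 < η ∧ ∀ χ : E N → ℝ, ContDiff ℝ ∞ χ →
  ∃ O : Set (ℝ × ℝ × E N × E N × (Fin 3 → End N) × (Fin 3 → End N)), IsOpen O ∧
  ContDiffOn ℝ ∞ (fun w : ℝ × ℝ × E N × E N × (Fin 3 → End N) × (Fin 3 → End N) =>
    kk χ d w.1 w.2.1 w.2.2.1 w.2.2.2.1 w.2.2.2.2.1 w.2.2.2.2.2) O ∧
  ∀ (ρ t : ℝ) (z s : E N) (P P' : Fin 3 → End N), |t| ≤ t0 → Proj3 P → Proj3 P' →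
    (∀ i, ‖P i - p i‖ ≤ η) → (∀ i, ‖P' i - p i‖ ≤ η) → (ρ, t, z, s, P, P') ∈ O

/-- PACKET GM (the main term; from TA, TL, TE, F1, F3, F4, LD).  `Dd t s = 1 + t DX(s) + O(t²)` : `Ha th2 t z` is `C^∞` in `(t, z)`, its `t`-derivative at `t = 0` is `X z` (`th2' (0)
= 1`), `S (-t) s = s + O(t)`; `Dd (-t) s = (Dd t s)⁻¹`.  `p_i D' p_i D p_i = p_i - p_i D' (1 - p_i) D p_i = p_i + t² p_i DX (1 - p_i) DX p_i + O(t³)`, so by LD `Ph (p i) (..) / t² → tr (p_i DX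
(1 - p_i) DX p_i)`.  `i = 0`: `p 0 DX = 0` (F4).  `i = 2`: `tr (p_2 DX p_1 DX p_2) = tr (p_1 DX p_2 DX p_1) = - g s` (`p_2 DX p_0 DX = 0`). -/
def StmtGM : Prop := ∀ (N : ℕ) (p : Fin 3 → End N), Proj3 p → ∀ (d : Tw N p) (s : E N),
  Tendsto (fun t : ℝ => Ps p (fun i => d.Dd (-t) s * p i * d.Dd t s) / t ^ 2) (𝓝[≠] 0) (𝓝 (d.g s))

/-- PACKET AV (averaging over many scales; from SF, GT, CB, SK, GM, TA, F1, F4).  `a` from CB.  `γ₀ (s, P, P')` : GT for `kk 1 d` (constant `χ = 1`; SK), compact set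
`q s ≤ 1`, `Proj3 P`, `Proj3 P'`, `‖P i - p i‖ ≤ η₁`, `‖P' i - p i‖ ≤ η₁`; `γ₀` is continuous and `2 γ₀ = lim (k (0, t) + k (0, -t) - 2 k (0, 0)) / t²`, so `γ₀ (s, p, p) = g s` by GM (`Ps p p
= 0`); by compactness `|γ₀ - g s| ≤ (∫ g) / (2 volume {q ≤ 1} + 1)` for `η` small.  Now `χ` given: GT for `kk χ d` on the compact set of `(z, s, P, P')` with `z` in a large ball:
`γ = χ z γ₀` (same limit, `ρ = 0`).  `h (ρ, t) = (kk χ d ρ t .. + kk χ d (-ρ) (-t) ..) / 2` has an expansion with `β 0 = 0`.  CB pointwise for `P = ph z`, `P' = ph (z + τ X s)`, `τ = ρ t`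
(the SAME for all the scales `(2^i ρ, t / 2^i)`), integrate over `q s ≤ 1` and `z` in the large ball (outside all terms vanish): with SF `∑ a i FF (2^i ρ) (t / 2^i) = t² ∫∫ χ z
γ₀ + O(ρ^m + ρ t² + t³)`. -/
def StmtAV : Prop := ∀ (N : ℕ) (p : Fin 3 → End N), Proj3 p → ∀ (d : Tw N p) (m : ℕ), 1 ≤ m →
  ∃ (a : ℕ → ℝ) (η : ℝ), 0 < η ∧ ∀ χ : E N → ℝ, ContDiff ℝ ∞ χ → HasCompactSupport χ →
  (∀ y, 0 ≤ χ y) → ∃ C δ : ℝ, 0 < δ ∧ ∀ ph : Fin 3 → E N → End N,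
  (∀ z, Proj3 (fun i => ph i z)) → (∀ i, Continuous (ph i)) → (∀ i z, ‖ph i z - p i‖ ≤ η) →
  ∀ ρ t : ℝ, 0 < ρ → ρ ≤ δ → 0 < t → t ≤ δ →
  t ^ 2 * ((∫ y, χ y) * ∫ z in {z | d.q z ≤ 1}, d.g z) / 2 - C * (ρ ^ m + ρ * t ^ 2 + t ^ 3) ≤
    ∑ i ∈ Finset.range (m + 1), a i * FF χ d ph (2 ^ i * ρ) (t / 2 ^ i)

/-- one step of `D` expands `U` by `8` and dominates `S` by `8` -/
structure Hyp8 {K : ℕ} {M : Set (E K)} (D : Coc M K) (S U : M → End K) : Prop where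
  lin : Lin D
  pair : Pair D S U
  e1 : ∀ x, ‖D.B (D.f x) * U (D.f x)‖ ≤ 1 / 8
  e2 : ∀ x, ‖D.B (D.f x) * U (D.f x)‖ * ‖D.A x * S x‖ ≤ 1 / 8

/-- a parametrised `u`-dimensional disc, all differences of its points in the cone around `U` -/
structure Disc {K u : ℕ} {M : Set (E K)} (T S U : M → End K) (r lam : ℝ) (g : E u → M)
    (g' : E u → (E u →L[ℝ] E K)) : Prop where
  der : ∀ a, ‖a‖ < r → HasFDerivAt (fun a => (g a : E K)) (g' a) a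
  cont : ContinuousOn g' (Metric.ball 0 r)
  tan : ∀ a, ‖a‖ < r → T (g a) ∘L g' a = g' a
  low : ∀ a a', ‖a‖ < r → ‖a'‖ < r → lam * ‖a - a'‖ ≤ ‖(g a : E K) - g a'‖
  up : ∀ a a', ‖a‖ < r → ‖a'‖ < r → ‖(g a : E K) - g a'‖ ≤ lam⁻¹ * ‖a - a'‖
  cone : ∀ a a', ‖a‖ < r → ‖a'‖ < r →
    ‖S (g a) ((g a' : E K) - g a)‖ ≤ ‖U (g a) ((g a' : E K) - g a)‖
  rank : ∀ a, ‖a‖ < r → Module.finrank ℝ (LinearMap.range (U (g a) : E K →ₗ[ℝ] E K)) = u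

/-- PACKET PCN (cone of pairs).  `v = y - x`, `v' = D y - D x = A x v + ρ₁`, `‖ρ₁‖ ≤ ε ‖v‖` (`lin`).  `(1 - T x) v = (1 - T x) (v - B (D x) v')` is `≤ (1/3) ‖v‖` for `δ` small (`lin'` at `D x`, `T B = B`), so
`‖v‖ ≤ 3 ‖U x v‖`.  `w = U x v` : `A w = U (D x) A w`, `w = B (D x) U (D x) A w`, `ν = ‖B U‖ ≤ 1/8` : `‖w‖ ≤ ν ‖A w‖`.  `‖U v'‖ ≥ ‖A w‖ - 3 R ε ‖w‖ ≥ (7/8) ‖A w‖ ≥ 4 ‖w‖`, `‖S v'‖ ≤ ‖A S‖ ‖S v‖ + 3 R ε ‖w‖ ≤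
(1/8 + 1/8) ‖A w‖`, `R` a bound for `‖S‖, ‖U‖`, `3 R ε ≤ 1`. -/
def StmtPCN : Prop := ∀ (K : ℕ) (M : Set (E K)), IsCompact M → ∀ (D : Coc M K) (S U : M → End K),
  Hyp8 D S U → ∃ δ : ℝ, 0 < δ ∧ ∀ x y : M, ‖(y : E K) - x‖ ≤ δ →
  ‖S x ((y : E K) - x)‖ ≤ ‖U x ((y : E K) - x)‖ →
  ‖(y : E K) - x‖ ≤ 3 * ‖U x ((y : E K) - x)‖ ∧
  ‖S (D.f x) ((D.f y : E K) - D.f x)‖ ≤ ‖U (D.f x) ((D.f y : E K) - D.f x)‖ ∧
  4 * ‖U x ((y : E K) - x)‖ ≤ ‖U (D.f x) ((D.f y : E K) - D.f x)‖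

/-- PACKET RA (distances inside a Bowen ball; from PCN).  `v_j = D^j y - D^j x`, `‖v_j‖ ≤ 2δ`; PCN by induction: `‖v_j‖ ≤ 3 ‖U (D^j x) v_j‖ ≤ 3 (1/4)^(q-j) ‖U (D^q x) v_q‖`, and `‖U (D^q x) -
U (D^q x0)‖ ≤ 1/6` for `δ` small (uniform continuity), so `‖U (D^q x) v_q‖ ≤ 2 ‖U (D^q x0) v_q‖`. -/
def StmtRA : Prop := ∀ (K : ℕ) (M : Set (E K)), IsCompact M → ∀ (D : Coc M K) (S U : M → End K),
  Hyp8 D S U → ∃ δ : ℝ, 0 < δ ∧ ∀ (q : ℕ) (x0 x y : M),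
  (∀ j ≤ q, ‖(D.f^[j] x : E K) - D.f^[j] x0‖ ≤ δ ∧ ‖(D.f^[j] y : E K) - D.f^[j] x0‖ ≤ δ) →
  ‖S x ((y : E K) - x)‖ ≤ ‖U x ((y : E K) - x)‖ → ∀ j ≤ q,
  ‖(D.f^[j] y : E K) - D.f^[j] x‖ ≤
    6 * (1 / 4) ^ (q - j) * ‖U (D.f^[q] x0) ((D.f^[q] y : E K) - D.f^[q] x)‖

/-- PACKET DI (derivatives along a disc).  First part: induction on `q` with `lin` (chain rule: `D.f (g (a + h)) - D.f (g a) - A (g a) (g (a + h) - g a) = o`).  Second: continuity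
of `An q`, `g`, `g'`.  Third: `lam ‖v‖ ≤ ‖g' a v‖ ≤ lam⁻¹ ‖v‖` and the cone condition by differentiating `low`, `up`, `cone` (limit of difference quotients); then
the linear cone: for `T w = w`, `‖S w‖ ≤ ‖U w‖` : `‖S A w‖ = ‖A S w‖ ≤ ‖A S‖ ‖U w‖ ≤ ‖A S‖ ‖B U‖ ‖A U w‖ ≤ ‖U A w‖` and `8 ‖U w‖ ≤ ‖U A w‖` (e1, e2), by induction on `q`; the rank: `An q x` maps the range of
`U x` isomorphically onto the range of `U (D^q x)` (inverse `inv.An`). -/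
def StmtDI : Prop := ∀ (K u : ℕ) (M : Set (E K)), IsCompact M → ∀ (D : Coc M K)
  (S U : M → End K), Hyp8 D S U → ∀ (r lam : ℝ) (g : E u → M) (g' : E u → (E u →L[ℝ] E K)),
  0 < lam → Disc D.T S U r lam g g' → ∀ q : ℕ,
  (∀ a, ‖a‖ < r → HasFDerivAt (fun a => (D.f^[q] (g a) : E K)) (D.An q (g a) ∘L g' a) a) ∧
  ContinuousOn (fun a => D.An q (g a) ∘L g' a) (Metric.ball 0 r) ∧
  (∀ a, ‖a‖ < r → ∀ v, lam * ‖v‖ ≤ ‖g' a v‖ ∧ ‖g' a v‖ ≤ lam⁻¹ * ‖v‖ ∧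
    ‖S (D.f^[q] (g a)) (D.An q (g a) (g' a v))‖ ≤ ‖U (D.f^[q] (g a)) (D.An q (g a) (g' a v))‖ ∧
    ‖U (g a) (g' a v)‖ ≤ ‖U (D.f^[q] (g a)) (D.An q (g a) (g' a v))‖) ∧
  ∀ a, ‖a‖ < r → Module.finrank ℝ
    (LinearMap.range (U (D.f^[q] (g a)) : E K →ₗ[ℝ] E K)) = u

/-- PACKET RB (the image of a Bowen ball in a disc contains a ball; from RA, DI).  `x* = D^q (g a0)`, `ι : ℝ^u → ℝ^K` an isometry onto the range of `U x*` (DI: rank `u`), `θ a = ι^* U x* (D^q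
(g a) - x*)`.  `I` = the set of `s ∈ [0, 1]` for which there is `a` with `‖a‖ < r`, Bowen distance `≤ δ/2` from `a0`, `U x* (D^q (g a) - x*) = s v`.  `0 ∈ I`.  By RA (pair `g a, g a0`) such an `a` satisfies
Bowen distance `≤ 6 β ≤ δ/4`, `‖a - a0‖ ≤ lam⁻¹ 6 β ≤ r/4`.  Closed: a limit of such `a_k` (compactness of `‖a‖ ≤ 3r/4`).  Open: `θ` has a strict derivative at `a` (DI), which is injective: `‖U x* w‖ ≥
(1/2) ‖U (D^q (g a)) w‖` for `w = An q (g a) (g' a v)` if `δ` is small (`‖w‖ ≤ 2 ‖U w‖`), and `‖U (..) w‖ ≥ ‖U (g a) (g' a v)‖ ≥ (lam/2) ‖v‖`; so `θ` is open at `a` (inverse function theorem).  `[0, 1]` is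
connected, `1 ∈ I`. -/
def StmtRB : Prop := ∀ (K u : ℕ) (M : Set (E K)), IsCompact M → ∀ (D : Coc M K)
  (S U : M → End K), Hyp8 D S U → ∃ δ0 : ℝ, 0 < δ0 ∧ ∀ (r lam δ β : ℝ) (g : E u → M)
  (g' : E u → (E u →L[ℝ] E K)), 0 < r → 0 < lam → 0 < δ → δ ≤ δ0 → Disc D.T S U r lam g g' →
  24 * β ≤ δ → 24 * β ≤ lam * r → ∀ (q : ℕ) (a0 : E u), ‖a0‖ ≤ r / 2 → ∀ v : E K,
  U (D.f^[q] (g a0)) v = v → ‖v‖ ≤ β → ∃ a : E u, ‖a‖ < r ∧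
  (∀ j ≤ q, ‖(D.f^[j] (g a) : E K) - D.f^[j] (g a0)‖ ≤ δ / 2) ∧
  U (D.f^[q] (g a0)) ((D.f^[q] (g a) : E K) - D.f^[q] (g a0)) = v

/-- the `u`-dimensional volume of the image of the unit cube -/
noncomputable def gv {K u : ℕ} (T : E u →L[ℝ] E K) : ℝ :=
  Real.sqrt (LinearMap.det (((ContinuousLinearMap.adjoint T) ∘L T : End u) : E u →ₗ[ℝ] E u))

/-- PACKET JV (volume distortion).  The map `Θ (a, k) = T a + k` from `ℝ^u × ker P` to `ℝ^K` is an isomorphism (`range T = range P` by dimension).  The quadratic form `NN A P` pulled back by `Θ` is `‖A T a‖² +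
‖k‖²`; so `det (NN A P) det(Θ)² = det ((A T)^* (A T))` and the same with `A = 1` (`det(Θ)` with respect to orthonormal bases).  Divide. -/
def StmtJV : Prop := ∀ (K u : ℕ) (T : E u →L[ℝ] E K) (A P : End K), P * P = P → P ∘L T = T →
  (∀ v, T v = 0 → v = 0) → Module.finrank ℝ (LinearMap.range (P : E K →ₗ[ℝ] E K)) = u →
  gv (A ∘L T) = Jac A P * gv T

/-- PACKET JM (monotonicity).  `Y^* Y ≤ c² Z^* Z` as quadratic forms.  If `Z` is not injective neither is `Y` and both sides are `0` (or `u = 0`).  Otherwise `Z^* Z = L^* L` with `L` invertible (square root, or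
Cholesky), `L⁻ᵀ Y^* Y L⁻¹ ≤ c²` has all eigenvalues in `[0, c²]`, so its determinant is `≤ c^(2u)`.  `adjoint Z * Z` has determinant `det Z ^ 2` for square `Z`. -/
def StmtJM : Prop := ∀ (K K' u : ℕ) (Y : E u →L[ℝ] E K) (Z : E u →L[ℝ] E K') (c : ℝ), 0 ≤ c →
  ((∀ v, ‖Y v‖ ≤ c * ‖Z v‖) → gv Y ≤ c ^ u * gv Z) ∧ ∀ W : End u, gv W = |W.det|

/-- PACKET RD (distortion; from J3, JV, JM).  `J (z) = log Jac (D.A z) (U z)` is continuous on the compact `M` (J3).  `U z` commutes with `D` (`Pair`), so `An q x ∘ U x ∘ L` is the product of the `A` restricted to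
`U` : by JV and induction `log gv (U (D^q x) ∘ An q x ∘ L) = ∑_{j<q} J (D^j x) + log gv (U x ∘ L)` (`U x ∘ L` is injective, rank `u` at all `D^j x`).  `‖U x L v‖` is between `(lam/2) ‖v‖` and `R lam⁻¹ ‖v‖`
(`L v = (S + U) L v`), so `gv (U x L)` is between two positive constants (JM, compare with the identity of `ℝ^u`).  With `w = An q x (L v)`: `‖S w‖ ≤ ‖U w‖` at `D^q x` (linear cone, see DI), so `(1/2) ‖U
(D^q x) w‖ ≤ ‖U xs w‖ ≤ 2 ‖U (D^q x) w‖` for `δ` small, JM.  The sums for `x` and `y` differ by at most `ε q` if `δ` is small. -/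
def StmtRD : Prop := ∀ (K u : ℕ) (M : Set (E K)), IsCompact M → ∀ (D : Coc M K)
  (S U : M → End K), Hyp8 D S U → ∀ lam ε : ℝ, 0 < lam → 0 < ε → ∃ δ C : ℝ, 0 < δ ∧ 1 ≤ C ∧
  ∀ (q : ℕ) (x y xs : M) (L L' : E u →L[ℝ] E K),
  (∀ j ≤ q, ‖(D.f^[j] x : E K) - D.f^[j] y‖ ≤ δ) → ‖(D.f^[q] x : E K) - xs‖ ≤ δ →
  ‖(D.f^[q] y : E K) - xs‖ ≤ δ →
  Module.finrank ℝ (LinearMap.range (U x : E K →ₗ[ℝ] E K)) = u →
  Module.finrank ℝ (LinearMap.range (U y : E K →ₗ[ℝ] E K)) = u →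
  D.T x ∘L L = L → D.T y ∘L L' = L' →
  (∀ v, lam * ‖v‖ ≤ ‖L v‖ ∧ ‖L v‖ ≤ lam⁻¹ * ‖v‖ ∧ ‖S x (L v)‖ ≤ ‖U x (L v)‖) →
  (∀ v, lam * ‖v‖ ≤ ‖L' v‖ ∧ ‖L' v‖ ≤ lam⁻¹ * ‖v‖ ∧ ‖S y (L' v)‖ ≤ ‖U y (L' v)‖) →
  0 < gv (U xs ∘L D.An q y ∘L L') ∧
  gv (U xs ∘L D.An q x ∘L L) ≤ C * Real.exp (ε * q) * gv (U xs ∘L D.An q y ∘L L')

/-- PACKET RCC (one Bowen ball; from RA, DI, RB, RD, JM).  `x* = D^q (g a0)`, `ι`, `θ` as in RB.  On the Bowen ball `Wδ = {‖a‖ < r, Bowen distance ≤ δ}` the map `θ` is injective (RA: pairs of points of `Wδ`; `low`) with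
derivative `ι^* U x* An q (g a) (g' a)` (DI), `|det| = gv (U x* ∘ An q (g a) ∘ g' a)` (JM twice with `c = 1`: `‖ι^* w‖ = ‖w‖` on the range of `U x*`), and by RD any two values on `Wδ` have a ratio `≤ C exp (ε q)`.
`MeasureTheory.lintegral_abs_det_fderiv_eq_addHaar_image`: `volume A * inf ≤ volume (θ A) ≤ volume (closed ball of radius R ρ)` (`A` nonempty), and `volume (W_(δ/2)) * sup ≥ volume (θ W_(δ/2)) ≥ volume (closed ball of radius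
β)` by RB, `β = min (δ/24) (lam r/24)`. -/
def StmtRCC : Prop := ∀ (K u : ℕ) (M : Set (E K)), IsCompact M → ∀ (D : Coc M K)
  (S U : M → End K), Hyp8 D S U → ∀ r lam ε : ℝ, 0 < r → 0 < lam → 0 < ε → ∃ δ0 : ℝ, 0 < δ0 ∧
  ∀ δ : ℝ, 0 < δ → δ ≤ δ0 → ∃ C : ℝ, 0 ≤ C ∧ ∀ (g : E u → M) (g' : E u → (E u →L[ℝ] E K)),
  Disc D.T S U r lam g g' → ∀ (q : ℕ) (a0 : E u), ‖a0‖ ≤ r / 2 → ∀ (ρ : ℝ) (A : Set (E u)),
  0 < ρ → MeasurableSet A → (∀ a ∈ A, ‖a‖ < r ∧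
    ∀ j ≤ q, ‖(D.f^[j] (g a) : E K) - D.f^[j] (g a0)‖ ≤ δ) →
  (∀ a ∈ A, ∀ a' ∈ A, ‖(D.f^[q] (g a) : E K) - D.f^[q] (g a')‖ ≤ ρ) →
  volume A ≤ ENNReal.ofReal (C * Real.exp (ε * q) * ρ ^ u) * volume {a : E u | ‖a‖ < r ∧
    ∀ j ≤ q, ‖(D.f^[j] (g a) : E K) - D.f^[j] (g a0)‖ ≤ δ / 2}

/-- PACKET RE (covering; from RCC).  `δ = min δ0 (δ1/2)`.  A finite subset `F` of `A` which is maximal among the subsets whose points have pairwise Bowen distance `> δ` (some `j ≤ q`): such subsets have bounded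
cardinality, since the closed ball `‖a‖ ≤ r/2` is covered by finitely many sets of Bowen diameter `≤ δ` (continuity, compactness).  The Bowen balls of radius `δ` of the points of `F` cover `A` and those of radius
`δ/2` are disjoint subsets of `{‖a‖ < r}`.  RCC for `A ∩ (Bowen ball of radius δ)` (two of its points have Bowen distance `≤ 2 δ ≤ δ1`), sum up. -/
def StmtRE : Prop := ∀ (K u : ℕ) (M : Set (E K)), IsCompact M → ∀ (D : Coc M K)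
  (S U : M → End K), Hyp8 D S U → ∀ r lam ε δ1 : ℝ, 0 < r → 0 < lam → 0 < ε → 0 < δ1 →
  ∃ C : ℝ, 0 ≤ C ∧ ∀ (g : E u → M) (g' : E u → (E u →L[ℝ] E K)), Disc D.T S U r lam g g' →
  ∀ (q : ℕ) (ρ : ℝ) (A : Set (E u)), 0 < ρ → MeasurableSet A → (∀ a ∈ A, ‖a‖ ≤ r / 2) →
  (∀ a ∈ A, ∀ a' ∈ A, (∀ j ≤ q, ‖(D.f^[j] (g a) : E K) - D.f^[j] (g a')‖ ≤ δ1) →
    ‖(D.f^[q] (g a) : E K) - D.f^[q] (g a')‖ ≤ ρ) →
  volume A ≤ ENNReal.ofReal (C * Real.exp (ε * q) * ρ ^ u)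

/-- PACKET DF (family of discs in a chart; from T1, T2).  `p i = phat c P i z0`, complementary projections (K1 or T1), `rank (p 2) = u` (`v P u` and `P` have the same rank).  `Ξ (a, b) = L a + L' b`, `L : ℝ^u → range (p 2)`,
`L' : ℝ^w → ker (p 2)` isomorphisms.  `g a = ψ (z0 + Ξ (a, b))` (any point of `M` for `‖a‖ ≥ r`).  `ψ` is `C^∞`: for `‖a‖, ‖a'‖, ‖b‖ < r`, `r` small, `‖g a' - g a - Dψ(z0) L (a' - a)‖ ≤ ε ‖a' - a‖`; `P 2 (ψ z0) Dψ(z0) L = Dψ(z0) L`, `(P 0 +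
P 1) (ψ z0) Dψ(z0) L = 0` (T1, `p 2 L = L`), `‖Dψ(z0) L a‖ ≥ 4 lam ‖a‖` (T1: `Dφ Dψ = 1`), and `P i (g a)` is close to `P i (ψ z0)`: `low`, `up`, `cone`.  `tan`: T1.  `rank`: projections at distance `< 1` have the same rank. -/
def StmtDF : Prop := ∀ (N K u : ℕ) (M : Set (E K)) (m : Measure (E K)) (f f' : E K → E K)
  (P : Fin 3 → E K → End K), SmoothVolume N K M m → IsDiffeo 1 M f f' → PH M f f' P →
  ∀ (c : Chart N K M) (z0 : E N), z0 ∈ c.V →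
  Module.finrank ℝ (LinearMap.range (P 2 (c.ψ z0) : E K →ₗ[ℝ] E K)) = u →
  ∃ (w : ℕ) (Ξ : (E u × E w) ≃L[ℝ] E N) (r lam : ℝ), 0 < r ∧ 0 < lam ∧
  (∀ a b, ‖a‖ < r → ‖b‖ < r → z0 + Ξ (a, b) ∈ c.V) ∧
  ∀ b : E w, ‖b‖ < r → ∃ (g : E u → M) (g' : E u → (E u →L[ℝ] E K)),
    (∀ a, ‖a‖ < r → (g a : E K) = c.ψ (z0 + Ξ (a, b))) ∧
    Disc (fun x : M => Pi M x) (fun x : M => P 0 x + P 1 x) (fun x : M => P 2 x) r lam g g'

/-- PACKET FB (Fubini in linear coordinates).  The image of `volume.prod volume` under `Ξ` is an additive Haar measure, hence a constant multiple of `volume`. -/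
def StmtFB : Prop := ∀ (N u w : ℕ) (Ξ : (E u × E w) ≃L[ℝ] E N), ∃ C : ℝ, 0 ≤ C ∧
  ∀ (z0 : E N) (Z : Set (E N)), MeasurableSet Z →
  volume Z = ENNReal.ofReal C * ∫⁻ b : E w, volume {a : E u | z0 + Ξ (a, b) ∈ Z}

/-- PACKET RET (near returns; from T1, T2, T4, T5, LN, LZ, LP, PW, DN, RA, RE, DF, FB, SmoothVolume.chart).  `C` = derivative cocycle of `f`, `Lin C` (lin_of in Pool/Agent/Helper56/RZ/FinM.lean), `D` its power with exponent `k0 ≥ 1` (PW)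
so large that `Hyp8 D (P 0 + P 1) (P 2)` (DN; `LP`).  Write `n + 1 = k0 q + r'`, `r' < k0`, `τ = C.f^[r']`, `‖x - y‖ ≤ L0 ‖τ x - τ y‖` for all `r' < k0`.  Discs `g_b` of DF.  For fixed `b`: `A = {a | ‖a‖ ≤ r/2, ‖τ (D^q (g a)) - g a‖ ≤
ρ}`.  If `a, a' ∈ A` are Bowen close (`δ1` = the `δ` of RA): `‖g a - g a'‖ ≤ 6 (1/4)^q R ‖D^q (g a) - D^q (g a')‖` and `‖D^q (g a) - D^q (g a')‖ ≤ L0 (2 ρ + ‖g a - g a'‖)`, so `≤ 4 L0 ρ` if `12 L0 R (1/4)^q ≤ 1`, i.e. `q ≥ q0`.  RE with `exp ε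
< l⁻¹`: `volume A ≤ C exp (ε q) (4 L0 ρ)^u`; FB over `‖b‖ < r`, `U` open with `M ∩ U ⊆ ψ (z0 + Ξ {‖a‖ ≤ r/2, ‖b‖ < r})`.  For `n + 1 < k0 q0`: `U` also so small that `‖f^[n+1] x - x‖ ≥ c0 > 0` on `M ∩ U` : the set is empty for `ρ < c0`, and
`m M ≤ m M (ρ/c0)^u` for `ρ ≥ c0`.  Sum the geometric series `(l exp ε)^n`. -/
def StmtRET : Prop := ∀ (N K u : ℕ) (M : Set (E K)) (m : Measure (E K)) (f f' : E K → E K)
  (P : Fin 3 → E K → End K), SmoothVolume N K M m → IsDiffeo 2 M f f' → PH M f f' P →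
  ∀ x0 ∈ M, (∀ j : ℕ, 1 ≤ j → f^[j] x0 ≠ x0) →
  Module.finrank ℝ (LinearMap.range (P 2 x0 : E K →ₗ[ℝ] E K)) = u →
  ∀ l : ℝ, 0 < l → l < 1 → ∃ (U : Set (E K)) (C : ℝ), IsOpen U ∧ x0 ∈ U ∧
  ∀ ρ : ℝ, 0 < ρ → ∀ N0 : ℕ, ∑ n ∈ Finset.range N0,
    l ^ n * (m {x | x ∈ M ∩ U ∧ ‖f^[n + 1] x - x‖ ≤ ρ}).toReal ≤ C * ρ ^ u

end Pool.Agent.Helper56.RZ
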