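import Pool.Agent.Helper56.RZ.Key

/-!
# Project RZ: assembly, two points of the manifold
-/

set_option autoImplicit false

open Set Filter Topology MeasureTheory

open scoped ContDiff

namespace Pool.Agent.Helper56.RZ

/-- operators at two points of the manifold and the derivatives of the chart there -/
structure Two {N K : ℕ} (U U' : End K) (P P' : Fin 3 → End K) (D D' : End K)
    (u u' : E N →L[ℝ] E K) (v v' : E K →L[ℝ] E N) : Prop where
  proj : ∀ i j, P i * P j = if i = j then P i else 0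
  sum : P 0 + P 1 + P 2 = U
  proj' : ∀ i j, P' i * P' j = if i = j then P' i else 0
  sum' : P' 0 + P' 1 + P' 2 = U'
  vu : v ∘L u = 1
  vu' : v' ∘L u' = 1
  Uu : U ∘L u = u
  Uu' : U' ∘L u' = u'
  uvU : u ∘L v ∘L U = U
  uvU' : u' ∘L v' ∘L U' = U'
  DU : D * U = D
  UD : U' * D = D
  DU' : D' * U' = D'
  UD' : U * D' = D'

namespace Two

variable {N K : ℕ} {U U' : End K} {P P' : Fin 3 → End K} {D D' : End K}
  {u u' : E N →L[ℝ] E K} {v v' : E K →L[ℝ] E N} (h : Two U U' P P' D D' u u' v v')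

include h

theorem swap : Two U' U P' P D' D u' u v' v :=
  ⟨h.proj', h.sum', h.proj, h.sum, h.vu', h.vu, h.Uu', h.Uu, h.uvU', h.uvU, h.DU', h.UD', h.DU,
    h.UD⟩

theorem PU (i : Fin 3) : P i * U = P i := by
  rw [← h.sum, mul_add, mul_add, h.proj, h.proj, h.proj]
  fin_cases i <;> simp

theorem UP (i : Fin 3) : U * P i = P i := by
  rw [← h.sum, add_mul, add_mul, h.proj, h.proj, h.proj]
  fin_cases i <;> simp

theorem UU : U * U = U := by
  have h1 : (P 0 + P 1 + P 2) * U = P 0 + P 1 + P 2 := by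
    rw [add_mul, add_mul, h.PU, h.PU, h.PU]
  rwa [h.sum] at h1

theorem uvUw (w : E K) : u (v (U w)) = U w := DFunLike.congr_fun h.uvU w

theorem uvP (i : Fin 3) (w : E K) : u (v (P i w)) = P i w := by
  have h1 : U (P i w) = P i w := DFunLike.congr_fun (h.UP i) w
  have h2 := h.uvUw (P i w)
  rwa [h1] at h2

theorem Puv (i : Fin 3) (w : E K) : P i (u (v (U w))) = P i w := by
  rw [h.uvUw]
  exact DFunLike.congr_fun (h.PU i) w

theorem block (i j : Fin 3) : v' ∘L (P' i * D * P j) ∘L u =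
    (v' ∘L P' i ∘L u') * (v' ∘L D ∘L u) * (v ∘L P j ∘L u) := by
  ext1 w
  change v' (P' i (D (P j (u w)))) = v' (P' i (u' (v' (D (u (v (P j (u w))))))))
  rw [h.uvP j]
  have h1 : U' (D (P j (u w))) = D (P j (u w)) := DFunLike.congr_fun h.UD _
  have h2 := h.swap.uvUw (D (P j (u w)))
  rw [h1] at h2
  rw [h2]

theorem back (i j : Fin 3) : P' i * D * P j =
    u' ∘L (v' ∘L (P' i * D * P j) ∘L u) ∘L v ∘L U := by
  ext1 w
  change P' i (D (P j w)) = u' (v' (P' i (D (P j (u (v (U w)))))))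
  rw [h.Puv j, h.swap.uvP i]

theorem back_norm (i j : Fin 3) (R b : ℝ) (hR : 0 ≤ R) (hu : ‖u'‖ ≤ R) (hv : ‖v‖ ≤ R)
    (hU : ‖U‖ ≤ R) (hb : ‖v' ∘L (P' i * D * P j) ∘L u‖ ≤ b) : ‖P' i * D * P j‖ ≤ R ^ 3 * b := by
  rw [h.back i j]
  have hb0 : 0 ≤ b := (norm_nonneg _).trans hb
  calc ‖u' ∘L (v' ∘L (P' i * D * P j) ∘L u) ∘L v ∘L U‖
      ≤ ‖u'‖ * ‖(v' ∘L (P' i * D * P j) ∘L u) ∘L v ∘L U‖ :=
        ContinuousLinearMap.opNorm_comp_le _ _
    _ ≤ ‖u'‖ * (‖v' ∘L (P' i * D * P j) ∘L u‖ * ‖v ∘L U‖) :=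
        mul_le_mul_of_nonneg_left (ContinuousLinearMap.opNorm_comp_le _ _) (norm_nonneg _)
    _ ≤ R * (b * (R * R)) := by
        refine mul_le_mul hu (mul_le_mul hb ?_ (norm_nonneg _) hb0) (by positivity) hR
        exact (ContinuousLinearMap.opNorm_comp_le _ _).trans
          (mul_le_mul hv hU (norm_nonneg _) hR)
    _ = R ^ 3 * b := by ring

end Two

end Pool.Agent.Helper56.RZ
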