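import Pool.Agent.Helper56.RZ.AuxF

/-!
# Project RZ: continuity of the volume distortion
-/

set_option autoImplicit false

open Set Filter Topology MeasureTheory

open scoped ContDiff

namespace Pool.Agent.Helper56.RZ

theorem cont_NN {X : Type} [TopologicalSpace X] {K : ℕ} {T P : X → End K} (hT : Continuous T)
    (hP : Continuous P) : Continuous (fun x => NN (T x) (P x)) := by
  have ha : Continuous (fun A : End K => ContinuousLinearMap.adjoint A) :=
    (ContinuousLinearMap.adjoint (𝕜 := ℝ) (E := E K) (F := E K)).continuous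
  have h1 : Continuous (fun x => T x * P x) := hT.mul hP
  have h2 : Continuous (fun x => (1 : End K) - P x) := continuous_const.sub hP
  exact ((ha.comp h1).mul h1).add ((ha.comp h2).mul h2)

theorem j3 (h2 : StmtJ2) : StmtJ3 := by
  intro X _ K T P hT hP hPP hinj
  have hpos : ∀ x, 0 < Jac (T x) (P x) := fun x => (h2 K (T x) (P x) (hPP x)).2.1 (hinj x)
  have hden : ∀ x, LinearMap.det (NN 1 (P x) : E K →ₗ[ℝ] E K) ≠ 0 := by
    intro x h
    have h3 := hpos x
    rw [Jac, h, div_zero, Real.sqrt_zero] at h3
    exact lt_irrefl _ h3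
  have h4 : Continuous (fun x => Jac (T x) (P x)) :=
    Real.continuous_sqrt.comp
      ((cont_det (cont_NN hT hP)).div (cont_det (cont_NN continuous_const hP)) hden)
  exact h4.log fun x => (hpos x).ne'

end Pool.Agent.Helper56.RZ
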