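import Pool.Agent.Helper56.RZ.Loc

/-!
# Project RZ: assembly, auxiliary facts
-/

set_option autoImplicit false

open Set Filter Topology MeasureTheory

open scoped ContDiff

namespace Pool.Agent.Helper56.RZ

theorem IsDiffeo.of_le' {K : ℕ} {r s : WithTop ℕ∞} {M : Set (E K)} {f f' : E K → E K}
    (h : IsDiffeo r M f f') (hs : s ≤ r) : IsDiffeo s M f f' :=
  ⟨h.maps, h.maps', h.left, h.right, h.smooth.of_le hs, h.smooth'.of_le hs⟩

theorem IsDiffeo.symm {K : ℕ} {r : WithTop ℕ∞} {M : Set (E K)} {f f' : E K → E K}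
    (h : IsDiffeo r M f f') : IsDiffeo r M f' f :=
  ⟨h.maps', h.maps, h.right, h.left, h.smooth', h.smooth⟩

theorem IsDiffeo.comp' {K : ℕ} {r : WithTop ℕ∞} {M : Set (E K)} {f f' h h' : E K → E K}
    (hf : IsDiffeo r M f f') (hh : IsDiffeo r M h h') : IsDiffeo r M (f ∘ h) (h' ∘ f') :=
  ⟨hf.maps.comp hh.maps, hh.maps'.comp hf.maps',
    fun x hx => by
      change h' (f' (f (h x))) = x
      rw [hf.left _ (hh.maps hx), hh.left x hx],
    fun x hx => by
      change f (h (h' (f' x))) = x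
      rw [hh.right _ (hf.maps' hx), hf.right x hx],
    hf.smooth.comp hh.smooth hh.maps, hh.smooth'.comp hf.smooth' hf.maps'⟩

theorem IsDiffeo.id' {K : ℕ} (r : WithTop ℕ∞) (M : Set (E K)) : IsDiffeo r M id id :=
  ⟨fun _ h => h, fun _ h => h, fun _ _ => rfl, fun _ _ => rfl, contDiffOn_id, contDiffOn_id⟩

theorem Spl.PT {X : Type} [TopologicalSpace X] {K : ℕ} {C : Coc X K} {P : Fin 3 → X → End K}
    (h : Spl C P) (x : X) (i : Fin 3) : P i x * C.T x = P i x := by
  rw [← h.sum, mul_add, mul_add, h.proj, h.proj, h.proj]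
  fin_cases i <;> simp

theorem Spl.TP {X : Type} [TopologicalSpace X] {K : ℕ} {C : Coc X K} {P : Fin 3 → X → End K}
    (h : Spl C P) (x : X) (i : Fin 3) : C.T x * P i x = P i x := by
  rw [← h.sum, add_mul, add_mul, h.proj, h.proj, h.proj]
  fin_cases i <;> simp

theorem Spl.sub {X : Type} [TopologicalSpace X] {K : ℕ} {C : Coc X K} {P : Fin 3 → X → End K}
    (h : Spl C P) (i : Fin 3) : Sub C (P i) :=
  ⟨h.cont i, fun x => by rw [h.proj, if_pos rfl], fun x => h.PT x i, fun x => h.TP x i,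
    fun x => h.inv x i⟩

theorem Coc.Off.B {X : Type} [TopologicalSpace X] {K : ℕ} {H : Coc X K} {x : X} (h : H.Off x) :
    H.B x = H.T x := by
  have h1 := H.BA x
  rw [h.1, h.2, H.BT] at h1
  exact h1

theorem det_ne_zero {K : ℕ} {Z : End K} (hZ : ‖Z‖ < 1) :
    LinearMap.det ((1 + Z : End K) : E K →ₗ[ℝ] E K) ≠ 0 := by
  have h1 : IsUnit (1 + Z : End K) := by
    have h2 : IsUnit (1 - (-Z) : End K) := isUnit_one_sub_of_norm_lt_one (by rwa [norm_neg])
    rwa [sub_neg_eq_add] at h2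
  have h2 : IsUnit ((1 + Z : End K) : E K →ₗ[ℝ] E K) :=
    h1.map (ContinuousLinearMap.toLinearMapRingHom (R₁ := ℝ) (M₁ := E K))
  exact (h2.map (LinearMap.det (M := E K) (A := ℝ))).ne_zero

theorem cont_det {X : Type} [TopologicalSpace X] {K : ℕ} {Z : X → End K} (hZ : Continuous Z) :
    Continuous (fun x => LinearMap.det ((Z x : End K) : E K →ₗ[ℝ] E K)) := by
  let b := Module.finBasis ℝ (E K)
  have h1 : (fun x => LinearMap.det ((Z x : End K) : E K →ₗ[ℝ] E K)) =
      fun x => (LinearMap.toMatrix b b (Z x : E K →ₗ[ℝ] E K)).det := by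
    funext x
    rw [LinearMap.det_toMatrix]
  rw [h1]
  refine Continuous.matrix_det ?_
  have h2 : Continuous (fun A : End K => LinearMap.toMatrix b b (A : E K →ₗ[ℝ] E K)) := by
    let L : End K →ₗ[ℝ] Matrix (Fin (Module.finrank ℝ (E K))) (Fin (Module.finrank ℝ (E K))) ℝ :=
      (LinearMap.toMatrix b b).toLinearMap ∘ₗ ContinuousLinearMap.coeLM ℝ
    exact L.continuous_of_finiteDimensional
  exact h2.comp hZ

/-- vanishing exponents almost everywhere, for the cocycle -/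
theorem cz_ae {N K : ℕ} {M : Set (E K)} {m : Measure (E K)} {g g' : E K → E K} {C : Coc M K}
    (hMS : StmtMS) (hT5 : StmtT5) (hSV : SmoothVolume N K M m) (hg : IsDiffeo 1 M g g')
    (hC : Rep C g g') (Q : Fin 3 → E K → End K) (Q' : Fin 3 → M → End K)
    (hQ : ∀ i (x : M), Q i x = Q' i x) (h : ∀ᵐ x ∂m, CentralZero M g g' Q x) :
    ∀ᵐ x : M ∂(m.comap ((↑) : M → E K)), ∀ v, Q' 1 x v = v → v ≠ 0 →
      Tendsto (fun n : ℕ => Real.log ‖C.An n x v‖ / n) atTop (𝓝 0) ∧
      Tendsto (fun n : ℕ => Real.log ‖C.inv.An n x v‖ / n) atTop (𝓝 0) := by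
  obtain ⟨_, _, _, _, hae⟩ := hMS N K M m hSV
  obtain ⟨_, _, hit, _, _⟩ := hT5 K M g g' C hg hC
  refine (hae _ h).mono fun x hx v hv hv0 => ?_
  obtain ⟨h1, h2⟩ := hx v (by rw [hQ]; exact hv) hv0
  refine ⟨?_, ?_⟩
  · simpa only [(hit _ x).1] using h1
  · simpa only [(hit _ x).2] using h2

end Pool.Agent.Helper56.RZ
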