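import Pool.Agent.Helper56.RZ.Defs

/-!
# MP_f32c9c_an: definitions for the final statements

The same notions as in `Defs.lean`, divided into short definitions.
-/

set_option autoImplicit false

open Set Filter Topology MeasureTheory

open scoped ContDiff

namespace Pool.Agent.Helper56.RZ

/-- a chart in which the measure `m` is Lebesgue measure -/
def LebesgueChart {N K : ℕ} {M : Set (E K)} (c : Chart N K M) (m : Measure (E K)) : Prop :=
  ∀ A : Set (E N), MeasurableSet A → A ⊆ c.V → m (c.ψ '' A) = volume A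

/-- `M` is a (nonempty) closed `N`-dimensional `C^∞` submanifold of `ℝ^K` and `m` is a smooth volume
on `M`: a finite measure on `M` which is Lebesgue measure in suitable `C^∞` charts around every
point. -/
structure ClosedManifold (N K : ℕ) (M : Set (E K)) (m : Measure (E K)) : Prop where
  compact : IsCompact M
  nonempty : M.Nonempty
  finite : m univ ≠ ⊤
  null : m Mᶜ = 0
  chart : ∀ x ∈ M, ∃ c : Chart N K M, x ∈ c.W ∧ LebesgueChart c m

/-- `P 0 x`, `P 1 x`, `P 2 x` are projections of `ℝ^K` which depend continuously on `x ∈ M`, -/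
def ContProj {K : ℕ} (M : Set (E K)) (P : Fin 3 → E K → End K) : Prop :=
  ∀ i, ContinuousOn (P i) M ∧ ∀ x ∈ M, P i x * P i x = P i x

/-- their products are `0`, -/
def Orth {K : ℕ} (M : Set (E K)) (P : Fin 3 → E K → End K) : Prop :=
  ∀ x ∈ M, ∀ i j, i ≠ j → P i x * P j x = 0

/-- their sum is the orthogonal projection onto the tangent space, and none of them is `0` -/
def SumTan {K : ℕ} (M : Set (E K)) (P : Fin 3 → E K → End K) : Prop :=
  ∀ x ∈ M, P 0 x + P 1 x + P 2 x = Pi M x ∧ ∀ i, P i x ≠ 0

/-- their ranges are invariant under the derivative of `f` -/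
def Invariant {K : ℕ} (M : Set (E K)) (f : E K → E K) (P : Fin 3 → E K → End K) : Prop :=
  ∀ x ∈ M, ∀ i, der M f x * P i x = P i (f x) * der M f x

/-- the linear map `A` contracts the range of the projection `P` -/
def Contracts {K : ℕ} (A P : End K) : Prop := ∀ v, P v = v → v ≠ 0 → ‖A v‖ < ‖v‖

/-- for unit vectors `v` of the range of `P` and `w` of the range of `Q`, `‖A v‖ < ‖A w‖` -/
def Dominates {K : ℕ} (A P Q : End K) : Prop :=
  ∀ v w, P v = v → Q w = w → ‖v‖ = 1 → ‖w‖ = 1 → ‖A v‖ < ‖A w‖

/-- the inequalities of strong partial hyperbolicity for the `n`-th iterate at `x` -/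
def Ineq {K : ℕ} (M : Set (E K)) (f f' : E K → E K) (P : Fin 3 → E K → End K) (n : ℕ)
    (x : E K) : Prop :=
  Contracts (der M (f^[n]) x) (P 0 x) ∧ Contracts (der M (f'^[n]) x) (P 2 x) ∧
  Dominates (der M (f^[n]) x) (P 0 x) (P 1 x) ∧ Dominates (der M (f^[n]) x) (P 1 x) (P 2 x)

/-- The diffeomorphism `f` of `M` (with inverse `f'`) is strongly partially hyperbolic with the
splitting `TM = E^s ⊕ E^c ⊕ E^u`; `P 0 x`, `P 1 x`, `P 2 x` are the projections (extended by `0` to the
orthogonal complement of the tangent space) onto `E^s_x`, `E^c_x`, `E^u_x`. -/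
structure PartHyp {K : ℕ} (M : Set (E K)) (f f' : E K → E K) (P : Fin 3 → E K → End K) :
    Prop where
  proj : ContProj M P
  orth : Orth M P
  sum : SumTan M P
  inv : Invariant M f P
  ineq : ∃ n : ℕ, 1 ≤ n ∧ ∀ x ∈ M, Ineq M f f' P n x

/-- `f` is a volume preserving strongly partially hyperbolic `C^s` diffeomorphism, with inverse `f'` and
splitting `P`, of the closed manifold `M` with the smooth volume `m` -/
structure ConsPH (N K : ℕ) (s : WithTop ℕ∞) (M : Set (E K)) (m : Measure (E K))
    (f f' : E K → E K) (P : Fin 3 → E K → End K) : Prop where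
  manifold : ClosedManifold N K M m
  diffeo : IsDiffeo s M f f'
  preserves : Preserves M m f
  hyp : PartHyp M f f' P

/-- the splittings `P` and `Q` are uniformly `ε`-close on `M` -/
def SplClose {K : ℕ} (M : Set (E K)) (ε : ℝ) (P Q : Fin 3 → E K → End K) : Prop :=
  ∀ x ∈ M, ∀ i, ‖Q i x - P i x‖ ≤ ε

/-- Every `C^r`-neighbourhood of `f` contains a volume preserving strongly partially hyperbolic `C^s`
diffeomorphism `g` (with inverse `g'`), with a splitting `Q` as close as we like to the splitting `P`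
of `f`, such that `Bad g g' Q`. -/
def Approximable {N K : ℕ} (r : ℕ) (s : WithTop ℕ∞) (M : Set (E K)) (m : Measure (E K))
    (f : E K → E K) (P : Fin 3 → E K → End K)
    (Bad : (E K → E K) → (E K → E K) → (Fin 3 → E K → End K) → Prop) : Prop :=
  ∀ (ι : Type) [Finite ι] (c : ι → Chart N K M) (L : ι → Set (E N)),
    (∀ i, IsCompact (L i) ∧ L i ⊆ (c i).V) → ∀ ε > 0,
    ∃ (g g' : E K → E K) (Q : Fin 3 → E K → End K),
      ConsPH N K s M m g g' Q ∧ CrClose r ε c L f g ∧ SplClose M ε P Q ∧ Bad g g' Q

/-- the range of `A` -/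
noncomputable def rg {K : ℕ} (A : End K) : Submodule ℝ (E K) :=
  LinearMap.range (A : E K →ₗ[ℝ] E K)

/-- the rank of `A` -/
noncomputable def rk {K : ℕ} (A : End K) : ℕ := Module.finrank ℝ (rg A)

/-- stable and unstable bundle are one-dimensional -/
def OneDimStrong {K : ℕ} (M : Set (E K)) (P : Fin 3 → E K → End K) : Prop :=
  ∀ x ∈ M, rk (P 0 x) = 1 ∧ rk (P 2 x) = 1

/-- the splitting is `α`-Hölder on the set `S` -/
def HolderOn {K : ℕ} (S : Set (E K)) (P : Fin 3 → E K → End K) (α : ℝ) : Prop :=
  ∃ C : ℝ, ∀ x ∈ S, ∀ y ∈ S, ∀ i, ‖P i x - P i y‖ ≤ C * ‖x - y‖ ^ α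

/-- the matrix of `A` -/
noncomputable def mat {K : ℕ} (A : End K) : Matrix (Fin K) (Fin K) ℝ :=
  Matrix.of fun i j => A (EuclideanSpace.single j 1) i

/-- the matrix of the quadratic form `‖A v‖²` -/
noncomputable def gram {K : ℕ} (A : End K) : Matrix (Fin K) (Fin K) ℝ := (mat A).transpose * mat A

/-- the determinant of the quadratic form `‖T P v‖² + ‖v - P v‖²` -/
noncomputable def formDet {K : ℕ} (T P : End K) : ℝ := (gram (T * P) + gram (1 - P)).det

/-- the volume distortion of `T` on the range of the projection `P`, i.e. `|det (T | range P)|` -/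
noncomputable def distortion {K : ℕ} (T P : End K) : ℝ :=
  Real.sqrt (formDet T P / formDet 1 P)

/-- the integral of `log |det (Dg | E^c)|` -/
noncomputable def centralIntegral {K : ℕ} (M : Set (E K)) (m : Measure (E K)) (g : E K → E K)
    (Q : Fin 3 → E K → End K) : ℝ := ∫ x, Real.log (distortion (der M g x) (Q 1 x)) ∂m

/-- almost everywhere all central Lyapunov exponents vanish -/
def AllZero {K : ℕ} (M : Set (E K)) (m : Measure (E K)) (g g' : E K → E K)
    (Q : Fin 3 → E K → End K) : Prop := ∀ᵐ x ∂m, CentralZero M g g' Q x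

end Pool.Agent.Helper56.RZ
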