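import Pool.Agent.Helper56.RZ.Fin4
import Pool.Agent.Helper56.RZ.Statement

/-!
# Project RZ: the two theorems in terms of the definitions of `Statement.lean`
-/

set_option autoImplicit false

open Set Filter Topology MeasureTheory

open scoped ContDiff

namespace Pool.Agent.Helper56.RZ

theorem mat_eq {K : ℕ} (A : End K) : mat A =
    LinearMap.toMatrix (EuclideanSpace.basisFun (Fin K) ℝ).toBasis
      (EuclideanSpace.basisFun (Fin K) ℝ).toBasis (A : E K →ₗ[ℝ] E K) := by
  ext i j
  rw [LinearMap.toMatrix_apply]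
  simp [mat]

theorem mat_add {K : ℕ} (A B : End K) : mat (A + B) = mat A + mat B := by
  ext i j
  simp [mat]

theorem mat_mul {K : ℕ} (A B : End K) : mat (A * B) = mat A * mat B := by
  rw [mat_eq, mat_eq, mat_eq, ← LinearMap.toMatrix_mul]
  rfl

theorem mat_adjoint {K : ℕ} (A : End K) :
    mat (ContinuousLinearMap.adjoint A) = (mat A).transpose := by
  ext i j
  have h : inner ℝ (EuclideanSpace.single i (1 : ℝ))
      (ContinuousLinearMap.adjoint A (EuclideanSpace.single j (1 : ℝ))) =
      inner ℝ (A (EuclideanSpace.single i (1 : ℝ))) (EuclideanSpace.single j (1 : ℝ)) :=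
    ContinuousLinearMap.adjoint_inner_right A _ _
  rw [EuclideanSpace.inner_single_left, EuclideanSpace.inner_single_right] at h
  simpa [mat] using h

theorem formDet_eq {K : ℕ} (T P : End K) :
    formDet T P = LinearMap.det (NN T P : E K →ₗ[ℝ] E K) := by
  have hg : ∀ A : End K, gram A = mat (ContinuousLinearMap.adjoint A * A) := fun A => by
    rw [mat_mul, mat_adjoint]
    rfl
  have h : gram (T * P) + gram (1 - P) = mat (NN T P) := by
    rw [NN, mat_add, hg, hg]
  rw [formDet, h, mat_eq, LinearMap.det_toMatrix]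

theorem distortion_eq {K : ℕ} (T P : End K) : distortion T P = Jac T P := by
  rw [distortion, Jac, formDet_eq, formDet_eq]

theorem centralIntegral_eq {K : ℕ} (M : Set (E K)) (m : Measure (E K)) (g : E K → E K)
    (Q : Fin 3 → E K → End K) : centralIntegral M m g Q = CInt M m g Q := by
  simp only [centralIntegral, CInt, distortion_eq]

theorem ClosedManifold.sv {N K : ℕ} {M : Set (E K)} {m : Measure (E K)}
    (h : ClosedManifold N K M m) : SmoothVolume N K M m :=
  ⟨h.compact, h.nonempty, h.finite, h.null, h.chart⟩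

theorem PartHyp.ph {K : ℕ} {M : Set (E K)} {f f' : E K → E K} {P : Fin 3 → E K → End K}
    (h : PartHyp M f f' P) : PH M f f' P where
  cont := fun i => (h.proj i).1
  proj := fun x hx i j => by
    by_cases hij : i = j
    · subst hij
      rw [if_pos rfl]
      exact (h.proj i).2 x hx
    · rw [if_neg hij]
      exact h.orth x hx i j hij
  sum := fun x hx => (h.sum x hx).1
  ne := fun x hx => (h.sum x hx).2
  inv := h.inv
  dom := h.ineq

theorem PH.ph {K : ℕ} {M : Set (E K)} {f f' : E K → E K} {P : Fin 3 → E K → End K}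
    (h : PH M f f' P) : PartHyp M f f' P where
  proj := fun i => ⟨h.cont i, fun x hx => by rw [h.proj x hx i i, if_pos rfl]⟩
  orth := fun x hx i j hij => by rw [h.proj x hx i j, if_neg hij]
  sum := fun x hx => ⟨h.sum x hx, h.ne x hx⟩
  inv := h.inv
  ineq := h.dom

theorem finA : ∀ (N K r : ℕ) (s : WithTop ℕ∞) (α : ℝ) (M : Set (E K)) (m : Measure (E K))
    (f f' : E K → E K) (P : Fin 3 → E K → End K), 2 ≤ r → (r : WithTop ℕ∞) ≤ s → s ≤ ∞ →
    α ≤ 1 → 1 - 1 / (r : ℝ) < α → ConsPH N K s M m f f' P → HolderSomewhere M P α →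
    Approximable (N := N) r s M m f P
      (fun g g' Q => centralIntegral M m g Q ≠ 0 ∧ ¬ AllZero M m g g' Q) := by
  intro N K r s α M m f f' P hr hrs hs hα hα' h hH ι _ c L hL ε hε
  obtain ⟨g, g', Q, h1, h2, h3, h4, h5, h6, h7⟩ := finalA N K r s α M m f f' P hr hrs hs hα hα'
    h.manifold.sv h.diffeo h.preserves h.hyp.ph hH ι c L hL ε hε
  exact ⟨g, g', Q, ⟨h.manifold, h1, h2, h4.ph⟩, h3, h5,
    by rw [centralIntegral_eq]; exact h6, h7⟩

theorem finB : ∀ (N K r : ℕ) (s : WithTop ℕ∞) (M : Set (E K)) (m : Measure (E K))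
    (f f' : E K → E K) (P : Fin 3 → E K → End K), 2 ≤ r → (r : WithTop ℕ∞) ≤ s → s ≤ ∞ →
    ConsPH N K s M m f f' P → (N = 3 ∨ OneDimStrong M P) →
    (r = 2 ∨ ∃ α : ℝ, α ≤ 1 ∧ ((r : ℝ) - 2) / (r - 1) < α ∧ HolderOn M P α) →
    Approximable (N := N) r s M m f P (fun g g' Q => ¬ AllZero M m g g' Q) := by
  intro N K r s M m f f' P hr hrs hs h hrk hreg ι _ c L hL ε hε
  have h1 : RankOne M P := by
    rcases hrk with h3 | h4
    · subst h3
      exact rank_three Pool.Agent.Helper57.RZ.t1 h.manifold.sv h.hyp.ph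
    · exact h4
  obtain ⟨g, g', Q, h1, h2, h3, h4, h5, h7⟩ := finalB N K r s M m f f' P hr hrs hs
    h.manifold.sv h.diffeo h.preserves h.hyp.ph h1 hreg ι c L hL ε hε
  exact ⟨g, g', Q, ⟨h.manifold, h1, h2, h4.ph⟩, h3, h5, h7⟩

end Pool.Agent.Helper56.RZ
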