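import Pool.Agent.Helper56.RZ.GoalsB

/-!
# Project RZ: assembly, abstract part
-/

set_option autoImplicit false

open Set Filter Topology MeasureTheory

open scoped ContDiff

namespace Pool.Agent.Helper56.RZ

/-- one bound for the norms of a continuous function on a compact space -/
theorem exists_bd {X : Type} [MetricSpace X] [CompactSpace X] {K : ℕ} (P : X → End K)
    (h : Continuous P) : ∃ R : ℝ, 1 ≤ R ∧ ∀ x, ‖P x‖ ≤ R := by
  obtain ⟨R, hR⟩ := (isCompact_range h).isBounded.exists_norm_le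
  exact ⟨max 1 R, le_max_left _ _, fun x => (hR (P x) (mem_range_self x)).trans (le_max_right _ _)⟩

theorem exists_bd3 {X : Type} [MetricSpace X] [CompactSpace X] {K : ℕ} (P : Fin 3 → X → End K)
    (h : ∀ i, Continuous (P i)) : ∃ R : ℝ, 1 ≤ R ∧ ∀ x i, ‖P i x‖ ≤ R := by
  have h1 : ∀ i, ∃ R : ℝ, 1 ≤ R ∧ ∀ x, ‖P i x‖ ≤ R := fun i => exists_bd _ (h i)
  choose R hR1 hR using h1
  refine ⟨∑ i, R i, ?_, fun x i => ?_⟩
  · have := Finset.single_le_sum (f := R) (s := Finset.univ)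
      (fun i _ => zero_le_one.trans (hR1 i)) (Finset.mem_univ 0)
    linarith [hR1 0]
  · exact (hR i x).trans (Finset.single_le_sum (f := R) (s := Finset.univ)
      (fun i _ => zero_le_one.trans (hR1 i)) (Finset.mem_univ i))

/-- everything we need about the perturbed cocycle -/
structure Out {X : Type} [MetricSpace X] {K : ℕ} (C H : Coc X K) (e : H.T = C.T)
    (P : Fin 3 → X → End K) (n : ℕ) (c l κ : ℝ) (Q : Fin 3 → X → End K) (Γ : X → End K) :
    Prop where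
  spl : Spl (C.comp H e) Q
  dom : Dom (C.comp H e) Q n
  close : ∀ x i, ‖Q i x - P i x‖ ≤ c * κ
  lift : Lift (P 1) (Q 1) Γ
  liftc : ∀ x, ‖Γ x - P 1 x‖ ≤ c * κ
  past : ∀ (J : ℕ) (x : X), (∀ j, 1 ≤ j → j ≤ J → H.Off ((C.comp H e).f.symm^[j] x)) →
    ‖P 0 x * Γ x‖ ≤ c * l ^ J * κ
  fut : ∀ (J : ℕ) (x : X), (∀ j, 1 ≤ j → j ≤ J → H.Off ((C.comp H e).f^[j] x)) →
    ‖P 2 (H.f x) * H.A x * Γ x‖ ≤ c * l ^ J * κ

theorem key (hB2 : StmtB2) (hDP : StmtDP) (hCL : StmtCL) (hLI : StmtLI) (X : Type)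
    [MetricSpace X] [CompactSpace X] (K : ℕ) (C : Coc X K) (P : Fin 3 → X → End K) (n : ℕ)
    (hS : Spl C P) (hD : Dom C P n) : ∃ δ c l : ℝ, 0 < δ ∧ 1 ≤ c ∧ 0 < l ∧ l < 1 ∧
    ∀ (H : Coc X K) (e : H.T = C.T), Near H δ → ∀ κ : ℝ, 0 ≤ κ → κ ≤ δ →
    (∀ x i j, i ≠ j → ‖P i (H.f x) * H.A x * P j x‖ ≤ κ ∧
      ‖P i x * H.B (H.f x) * P j (H.f x)‖ ≤ κ) →
    ∃ (Q : Fin 3 → X → End K) (Γ : X → End K), Out C H e P n c l κ Q Γ := by
  obtain ⟨δB, cB, l, hδB, hcB, hl0, hl1, hB⟩ := hB2 X K C P n hS hD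
  obtain ⟨δD, hδD, hDP⟩ := hDP X K C P n hS hD
  obtain ⟨δC, hδC, hCL⟩ := hCL X K C δD hδD
  have hPP : ∀ x i, P i x * P i x = P i x := fun x i => by rw [hS.proj x i i, if_pos rfl]
  obtain ⟨δL, cL, hδL, hcL, hLI⟩ := hLI X K (P 1) (hS.cont 1) (fun x => hPP x 1)
  obtain ⟨R, hR1, hR⟩ := exists_bd3 P hS.cont
  set c := cB * cL * (R + 1) with hc
  have hcB0 : 0 < cB := by linarith
  have hcL0 : 0 < cL := by linarith
  have hcge : cB * cL ≤ c := by
    rw [hc]
    have : 0 < cB * cL := by positivity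
    nlinarith
  have hcB' : cB ≤ c := le_trans (by nlinarith) hcge
  have hc1 : 1 ≤ c := hcB.trans hcB'
  refine ⟨min (min δB δC) (min (min (δD / cB) (δL / cB)) (1 / (cB * cL))), c, l, ?_, hc1, hl0, hl1, ?_⟩
  · refine lt_min (lt_min hδB hδC) (lt_min (lt_min (by positivity) (by positivity)) (by positivity))
  intro H e hN κ hκ0 hκ hoff
  have hκB : κ ≤ δB := hκ.trans ((min_le_left _ _).trans (min_le_left _ _))
  have hκD : cB * κ ≤ δD := by
    have h1 : κ ≤ δD / cB := hκ.trans ((min_le_right _ _).trans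
      ((min_le_left _ _).trans (min_le_left _ _)))
    rw [le_div_iff₀ hcB0] at h1
    linarith
  have hκL : cB * κ ≤ δL := by
    have h1 : κ ≤ δL / cB := hκ.trans ((min_le_right _ _).trans
      ((min_le_left _ _).trans (min_le_right _ _)))
    rw [le_div_iff₀ hcB0] at h1
    linarith
  have hκ1 : cL * (cB * κ) ≤ 1 := by
    have h1 : κ ≤ 1 / (cB * cL) := hκ.trans ((min_le_right _ _).trans (min_le_right _ _))
    rw [le_div_iff₀ (by positivity)] at h1
    linarith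
  have hNB : Near H δB := fun x => by
    obtain ⟨a1, a2, a3⟩ := hN x
    have := (min_le_left (min δB δC) (min (min (δD / cB) (δL / cB)) (1 / (cB * cL)))).trans
      (min_le_left δB δC)
    exact ⟨a1.trans this, a2.trans this, a3.trans this⟩
  have hNC : Near H δC := fun x => by
    obtain ⟨a1, a2, a3⟩ := hN x
    have := (min_le_left (min δB δC) (min (min (δD / cB) (δL / cB)) (1 / (cB * cL)))).trans
      (min_le_right δB δC)
    exact ⟨a1.trans this, a2.trans this, a3.trans this⟩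
  obtain ⟨Q, hQS, hQc, hQp, hQf⟩ := hB H e hNB κ hκB hoff
  have hQQ : ∀ x i, Q i x * Q i x = Q i x := fun x i => by rw [hQS.proj x i i, if_pos rfl]
  have hQD : Dom (C.comp H e) Q n := hDP (C.comp H e) (hCL H e hNC).1 Q hQQ
    (fun x i => (hQc x i).trans hκD)
  obtain ⟨Γ, hΓ, hΓc⟩ := hLI (Q 1) (cB * κ) (hQS.cont 1) (fun x => hQQ x 1) hκL
    (fun x => hQc x 1)
  have hΓR : ∀ x, ‖Γ x‖ ≤ R + 1 := fun x => by
    have h1 : Γ x = (Γ x - P 1 x) + P 1 x := by abel
    rw [h1]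
    refine (norm_add_le _ _).trans ?_
    linarith [hΓc x, hR x 1]
  refine ⟨Q, Γ, hQS, hQD, fun x i => (hQc x i).trans (mul_le_mul_of_nonneg_right hcB' hκ0), hΓ,
    fun x => (hΓc x).trans ?_, ?_, ?_⟩
  · rw [← mul_assoc]
    exact mul_le_mul_of_nonneg_right (by rw [mul_comm]; exact hcge) hκ0
  · intro J x hx
    have hl : 0 ≤ l ^ J := by positivity
    refine ContinuousLinearMap.opNorm_le_bound _ (by positivity) fun v => ?_
    have h1 : Q 1 x (Γ x v) = Γ x v := by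
      have := hΓ.QG x
      exact DFunLike.congr_fun this v
    calc ‖(P 0 x * Γ x) v‖ = ‖P 0 x (Γ x v)‖ := rfl
      _ ≤ cB * l ^ J * κ * ‖Γ x v‖ := hQp J x hx _ h1
      _ ≤ cB * l ^ J * κ * ((R + 1) * ‖v‖) := by
          apply mul_le_mul_of_nonneg_left _ (by positivity)
          exact ((Γ x).le_opNorm v).trans (mul_le_mul_of_nonneg_right (hΓR x) (norm_nonneg v))
      _ = (cB * (R + 1)) * (l ^ J * κ * ‖v‖) := by ring
      _ ≤ c * (l ^ J * κ * ‖v‖) := by
          apply mul_le_mul_of_nonneg_right _ (by positivity)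
          rw [hc]
          nlinarith [mul_nonneg hcB0.le (by linarith : (0 : ℝ) ≤ R + 1)]
      _ = c * l ^ J * κ * ‖v‖ := by ring
  · intro J x hx
    have hl : 0 ≤ l ^ J := by positivity
    refine ContinuousLinearMap.opNorm_le_bound _ (by positivity) fun v => ?_
    have h1 : Q 1 x (Γ x v) = Γ x v := by
      have := hΓ.QG x
      exact DFunLike.congr_fun this v
    calc ‖(P 2 (H.f x) * H.A x * Γ x) v‖ = ‖P 2 (H.f x) (H.A x (Γ x v))‖ := rfl
      _ ≤ cB * l ^ J * κ * ‖Γ x v‖ := hQf J x hx _ h1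
      _ ≤ cB * l ^ J * κ * ((R + 1) * ‖v‖) := by
          apply mul_le_mul_of_nonneg_left _ (by positivity)
          exact ((Γ x).le_opNorm v).trans (mul_le_mul_of_nonneg_right (hΓR x) (norm_nonneg v))
      _ = (cB * (R + 1)) * (l ^ J * κ * ‖v‖) := by ring
      _ ≤ c * (l ^ J * κ * ‖v‖) := by
          apply mul_le_mul_of_nonneg_right _ (by positivity)
          rw [hc]
          nlinarith [mul_nonneg hcB0.le (by linarith : (0 : ℝ) ≤ R + 1)]
      _ = c * l ^ J * κ * ‖v‖ := by ring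

end Pool.Agent.Helper56.RZ
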