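import Pool.Agent.Helper56.RZ.FinR

/-!
# Project RZ, third theorem: the homological bound for all small perturbations
-/

set_option autoImplicit false

open Set Filter Topology MeasureTheory

open scoped ContDiff

namespace Pool.Agent.Helper56.RZ

theorem small_of (X Y : ℝ) (hX : 0 ≤ X) (hY : 0 < Y) :
    ∃ b : ℝ, 0 < b ∧ ∀ u, 0 ≤ u → u ≤ b → X * u ≤ Y := by
  refine ⟨Y / (X + 1), by positivity, fun u hu0 hu => ?_⟩
  calc X * u ≤ (X + 1) * u := mul_le_mul_of_nonneg_right (by linarith) hu0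
    _ ≤ (X + 1) * (Y / (X + 1)) := mul_le_mul_of_nonneg_left hu (by positivity)
    _ = Y := by field_simp

theorem small_fin (n : ℕ) (X Y : Fin n → ℝ) (hX : ∀ i, 0 ≤ X i) (hY : ∀ i, 0 < Y i) :
    ∃ b : ℝ, 0 < b ∧ b ≤ 1 ∧ ∀ u, 0 ≤ u → u ≤ b → ∀ i, X i * u ≤ Y i := by
  induction n with
  | zero => exact ⟨1, one_pos, le_rfl, fun _ _ _ i => i.elim0⟩
  | succ n ih =>
    obtain ⟨b, hb0, hb1, hb⟩ := ih (fun i => X i.succ) (fun i => Y i.succ) (fun i => hX _)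
      fun i => hY _
    obtain ⟨b', hb0', hb'⟩ := small_of (X 0) (Y 0) (hX 0) (hY 0)
    refine ⟨min b b', lt_min hb0 hb0', (min_le_left _ _).trans hb1, fun u hu0 hu i => ?_⟩
    refine Fin.cases ?_ (fun i => ?_) i
    · exact hb' u hu0 (hu.trans (min_le_right _ _))
    · exact hb u hu0 (hu.trans (min_le_left _ _)) i

/-- the twist does not leave the support -/
theorem bs_bij {N K : ℕ} {M : Set (E K)} {c : Chart N K M} {p : Fin 3 → End N} {d : Tw N p}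
    {y : E N} {ρ t : ℝ} {H : Coc M K}
    (hRH : Rep H (hMa c d th2 y ρ t) (hMa c d th2 y ρ (-t)))
    (hmap : ∀ s, d.q s ≤ 1 → hMa c d th2 y ρ t (c.ψ (y + ρ • s)) = c.ψ (y + ρ • d.Ha th2 t s))
    (hmap' : ∀ s, d.q s ≤ 1 →
      hMa c d th2 y ρ (-t) (c.ψ (y + ρ • s)) = c.ψ (y + ρ • d.Ha th2 (-t) s))
    (hqH : ∀ t z, d.q (d.Ha th2 t z) = d.q z) (x : M) :
    (H.f x : E K) ∈ Bs c d y ρ ↔ (x : E K) ∈ Bs c d y ρ := by
  constructor
  · rintro ⟨s, hs, hx⟩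
    have h1 : (H.f.symm (H.f x) : E K) = hMa c d th2 y ρ (-t) (H.f x) := hRH.rf' _
    rw [Homeomorph.symm_apply_apply, hx, hmap' s hs] at h1
    exact ⟨d.Ha th2 (-t) s, by rw [hqH]; exact hs, h1⟩
  · rintro ⟨s, hs, hx⟩
    refine ⟨d.Ha th2 t s, by rw [hqH]; exact hs, ?_⟩
    rw [hRH.rf, hx, hmap s hs]

/-- the bound for the integral of the local functional -/
theorem hb (hB2 : StmtB2) (hDP : StmtDP) (hCL : StmtCL) (hLI : StmtLI) (hE3 : StmtE3)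
    (hT1 : StmtT1) (hT4 : StmtT4) (hT5 : StmtT5) (hMS : StmtMS) (hINT : StmtINT)
    (hTL : StmtTL) (hTA : StmtTA) (hTE : StmtTE) (hGA1 : StmtGA1) (hGA2 : StmtGA2)
    (hGA3 : StmtGA3) (hGA5 : StmtGA5) (hLC : StmtLC) (hTF : StmtTF) (hOB : StmtOB)
    (hRS : StmtRS)
    {N K r : ℕ} {M : Set (E K)} {m : Measure (E K)} {f f' : E K → E K} {P : Fin 3 → E K → End K}
    (hSV : SmoothVolume N K M m) (hf1 : IsDiffeo 1 M f f') (hfm : Preserves M m f)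
    (hPH : PH M f f' P) {ε : ℝ} (hε : 0 < ε)
    (hcon : ∀ (h h' : E K → E K) (Q : Fin 3 → E K → End K), IsDiffeo ∞ M h h' →
      Preserves M m h → Small r ε M h → Small r ε M h' → PH M (f ∘ h) (h' ∘ f') Q →
      (∀ x ∈ M, ∀ i, ‖Q i x - P i x‖ ≤ ε) → CInt M m (f ∘ h) Q = 0)
    (c : Chart N K M) (hvol : ∀ A : Set (E N), MeasurableSet A → A ⊆ c.V → m (c.ψ '' A) = volume A)
    {p : Fin 3 → End N} (hp : Proj3 p) (d : Tw N p) (hqc : IsCompact {s : E N | d.q s ≤ 1})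
    (z0 : E N) (hz0 : z0 ∈ c.V) :
    ∃ l A t1 ρ1 r1 : ℝ, 0 < l ∧ l < 1 ∧ 0 ≤ A ∧ 0 < t1 ∧ t1 ≤ 1 ∧ 0 < ρ1 ∧ 0 < r1 ∧
    ∀ y ∈ Metric.closedBall z0 r1, ∀ ρ t κ0 : ℝ, 0 < ρ → ρ ≤ ρ1 → 0 < t → t ≤ t1 → 0 ≤ κ0 →
    κ0 ≤ t1 → Small r ε M (hMa c d th2 y ρ t) → Small r ε M (hMa c d th2 y ρ (-t)) →
    (∀ s, d.q s ≤ 1 → ∀ i, ‖phat c P i (y + ρ • d.Ha th2 t s) - phat c P i (y + ρ • s)‖ ≤ κ0) →
    ∀ N0 : ℕ, |∫ s in {s | d.q s ≤ 1}, Fl d (phat c P) ρ t y s| ≤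
      (ρ ^ N)⁻¹ * (A * (κ0 + t) ^ 2 * (4 * ∑ n ∈ Finset.range N0,
      l ^ n * (m {x | x ∈ Bs c d y ρ ∧ f^[n + 1] x ∈ Bs c d y ρ}).toReal +
        l ^ N0 * (m (Bs c d y ρ)).toReal)) := by
  classical
  have hPi : ContinuousOn (Pi M) M :=
    (((hPH.cont 0).add (hPH.cont 1)).add (hPH.cont 2)).congr fun x hx => (hPH.sum x hx).symm
  have hcM : CompactSpace M := isCompact_iff_compactSpace.1 hSV.compact
  obtain ⟨C, hC⟩ := hT4 K M f f' hPi hf1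
  obtain ⟨hCinv, hcomp, hiter, hto, hback⟩ := hT5 K M f f' C hf1 hC
  obtain ⟨hspl, n, hdom⟩ := hto P hPH
  obtain ⟨hMSd, hfin, hMSp, hMSi, hMSae⟩ := hMS N K M m hSV
  have hfin' : IsFiniteMeasure (m.comap ((↑) : M → E K)) := hfin
  obtain ⟨δk, ck, lk, hδk, hck, hlk0, hlk1, hkey⟩ := key hB2 hDP hCL hLI M K C _ n hspl hdom
  have hck0 : 0 < ck := by linarith
  -- bounds
  obtain ⟨RP, hRP1, hRP⟩ := exists_bd3 _ hspl.cont
  obtain ⟨RT, hRT1, hRT⟩ := exists_bd _ C.contT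
  -- chart bounds
  obtain ⟨r0, Cc, hr0, hball, hnorm⟩ : ∃ r0 Cc : ℝ, 0 < r0 ∧ Metric.closedBall z0 r0 ⊆ c.V ∧
      ∀ z ∈ Metric.closedBall z0 r0, ‖fderiv ℝ c.ψ z‖ ≤ Cc ∧ ‖fderiv ℝ c.φ (c.ψ z)‖ ≤ Cc := by
    obtain ⟨r0, hr0, hb⟩ := Metric.nhds_basis_closedBall.mem_iff.1 (c.openV.mem_nhds hz0)
    have c1 : ContinuousOn (fderiv ℝ c.ψ) c.V :=
      c.smoothψ.continuousOn_fderiv_of_isOpen c.openV (by exact_mod_cast le_top)
    have c2 : ContinuousOn (fderiv ℝ c.φ) c.W :=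
      c.smoothφ.continuousOn_fderiv_of_isOpen c.openW (by exact_mod_cast le_top)
    have c3 : ContinuousOn (fun z => fderiv ℝ c.φ (c.ψ z)) c.V :=
      c2.comp c.smoothψ.continuousOn fun z hz => (c.mapsψ z hz).2
    obtain ⟨C1, hC1⟩ := (isCompact_closedBall z0 r0).exists_bound_of_continuousOn (c1.mono hb)
    obtain ⟨C2, hC2⟩ := (isCompact_closedBall z0 r0).exists_bound_of_continuousOn (c3.mono hb)
    exact ⟨r0, max C1 C2, hr0, hb, fun z hz => ⟨(hC1 z hz).trans (le_max_left _ _),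
      (hC2 z hz).trans (le_max_right _ _)⟩⟩
  have hz0b : z0 ∈ Metric.closedBall z0 r0 := Metric.mem_closedBall_self hr0.le
  have hCc0 : 0 ≤ Cc := (norm_nonneg _).trans (hnorm z0 hz0b).1
  obtain ⟨R0, hR0⟩ : ∃ R0 : ℝ, R0 = Cc + RT := ⟨_, rfl⟩
  have hR00 : 0 ≤ R0 := by linarith
  obtain ⟨R2, hR2⟩ : ∃ R2 : ℝ, R2 = RT + 1 := ⟨_, rfl⟩
  have hR21 : 1 ≤ R2 := by linarith
  obtain ⟨-, hAng2, -, -⟩ := hTL
  obtain ⟨-, hqH, hHH, -, -, -, -⟩ := hTA N p hp d th2 hAng2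
  obtain ⟨cE, hcE, hTEa⟩ := hTE N p hp d th2 hAng2
  obtain ⟨CG, ρG, rG, hCG, hρG0, hρG1, hrG, hG5⟩ := hGA5 N K M c p hPi hp d th2 hAng2 z0 hz0
  obtain ⟨CF, ρF, rF, hCF, hρF0, hρF1, hrF, hG2⟩ := hGA2 N K r M c p hp d th2 hAng2 z0 hz0
  obtain ⟨cc, δL, hcc, hδL, hδL1, hLCa⟩ := hLC K RP
  obtain ⟨CC, hCC⟩ : ∃ CC : ℝ, CC = R0 ^ 3 * (4 + 3 * (R0 * RP * R0) * cE) := ⟨_, rfl⟩
  have hCC0 : 0 ≤ CC := by
    have : 0 ≤ RP := by linarith
    rw [hCC]; positivity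
  have hRP0 : 0 ≤ RP := by linarith
  have hR20 : 0 ≤ R2 := by linarith
  -- size of the support
  obtain ⟨D, hD⟩ := hqc.isBounded.exists_norm_le
  obtain ⟨DD, hDD⟩ : ∃ DD : ℝ, DD = max 1 D := ⟨_, rfl⟩
  have hDD1 : 1 ≤ DD := by rw [hDD]; exact le_max_left _ _
  have hDs : ∀ s, d.q s ≤ 1 → ‖s‖ ≤ DD := fun s hs =>
    (hD s hs).trans ((le_max_right 1 D).trans hDD.symm.le)
  obtain ⟨b, hb0, hb1, hbs⟩ := small_fin 9
    ![CG, cE, CC, ck * (R2 * CC * RP), R2 * CC * RP, R2 ^ 2 * (ck * (R2 * CC * RP)),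
      ck * (R2 * CC * RP), RP * CC * RP,
      RP * CC * (RP + 1) + RP * (R2 * (ck * (R2 * CC * RP)) * R2) * (RP + 1) * (RP + 1)]
    ![min δk 1, 1, δL, 1, δk, δL, ε, 1 / 2, 1 / 2]
    (by intro i; fin_cases i <;> simp <;> positivity)
    (by intro i; fin_cases i <;> simp <;> assumption)
  refine ⟨lk, cc * CC * (R2 ^ 2 * (ck * (R2 * CC * RP))), b / 2,
    min (min ρG ρF) (r0 / (2 * DD)), min (min rG rF) (r0 / 2), hlk0, hlk1, by positivity,
    by positivity, by linarith, lt_min (lt_min hρG0 hρF0) (by positivity),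
    lt_min (lt_min hrG hrF) (by positivity), ?_⟩
  intro y hy ρ t κ0 hρ0 hρ1 ht0 ht1 hκ00 hκ01 hsm hsm' hosc N0
  have hyG : y ∈ Metric.closedBall z0 rG :=
    Metric.closedBall_subset_closedBall ((min_le_left _ _).trans (min_le_left _ _)) hy
  have hyF : y ∈ Metric.closedBall z0 rF :=
    Metric.closedBall_subset_closedBall ((min_le_left _ _).trans (min_le_right _ _)) hy
  have hy0 : y ∈ Metric.closedBall z0 (r0 / 2) :=
    Metric.closedBall_subset_closedBall (min_le_right _ _) hy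
  have hρG' : ρ ≤ ρG := hρ1.trans ((min_le_left _ _).trans (min_le_left _ _))
  have hρF' : ρ ≤ ρF := hρ1.trans ((min_le_left _ _).trans (min_le_right _ _))
  have hρ0' : ρ ≤ r0 / (2 * DD) := hρ1.trans (min_le_right _ _)
  have htt : |t| ≤ 1 := by rw [abs_of_pos ht0]; linarith
  have htt' : |(-t)| ≤ 1 := by rw [abs_neg]; exact htt
  have hu0 : 0 ≤ κ0 + t := by linarith
  have hu1 : κ0 + t ≤ b := by linarith
  have hbt := hbs t ht0.le (by linarith)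
  have hbu := hbs (κ0 + t) hu0 hu1
  have s0 : CG * t ≤ min δk 1 := hbt 0
  have s1 : cE * t ≤ 1 := hbt 1
  have s2 : CC * (κ0 + t) ≤ δL := hbu 2
  have s3 : ck * (R2 * CC * RP) * (κ0 + t) ≤ 1 := hbu 3
  have s4 : R2 * CC * RP * (κ0 + t) ≤ δk := hbu 4
  have s5 : R2 ^ 2 * (ck * (R2 * CC * RP)) * (κ0 + t) ≤ δL := hbu 5
  have s6 : ck * (R2 * CC * RP) * (κ0 + t) ≤ ε := hbu 6
  have s7 : RP * CC * RP * (κ0 + t) ≤ 1 / 2 := hbu 7
  have s8 : (RP * CC * (RP + 1) + RP * (R2 * (ck * (R2 * CC * RP)) * R2) * (RP + 1) * (RP + 1)) *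
    (κ0 + t) ≤ 1 / 2 := hbu 8
  have hin : ∀ s, d.q s ≤ 1 → y + ρ • s ∈ Metric.closedBall z0 r0 := by
    intro s hs
    rw [Metric.mem_closedBall, dist_eq_norm]
    rw [Metric.mem_closedBall, dist_eq_norm] at hy0
    have h1 : ρ * DD ≤ r0 / 2 := by
      rw [le_div_iff₀ (by positivity)] at hρ0'
      linarith
    calc ‖y + ρ • s - z0‖ = ‖(y - z0) + ρ • s‖ := by congr 1; abel
      _ ≤ ‖y - z0‖ + ‖ρ • s‖ := norm_add_le _ _
      _ ≤ r0 / 2 + ρ * DD := by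
          rw [norm_smul, Real.norm_of_nonneg hρ0.le]
          exact add_le_add hy0 (mul_le_mul_of_nonneg_left (hDs s hs) hρ0.le)
      _ ≤ r0 := by linarith
  have hFit : Fit c d y ρ := fun s hs => hball (hin s hs)
  obtain ⟨H, hRH, hNH, hNH', hOff⟩ := hG5 y hyG ρ t hρ0 hρG' htt
  obtain ⟨hdiff, hmap, hid, hder⟩ := hGA1 N K M c p hp d th2 hAng2 y ρ hρ0 hFit t
  obtain ⟨hdiff', hmap', hid', hder'⟩ := hGA1 N K M c p hp d th2 hAng2 y ρ hρ0 hFit (-t)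
  rw [neg_neg] at hdiff'
  have hd1 : IsDiffeo 1 M (hMa c d th2 y ρ t) (hMa c d th2 y ρ (-t)) :=
    hdiff.of_le' (by exact_mod_cast le_top)
  have hd1' : IsDiffeo 1 M (hMa c d th2 y ρ (-t)) (hMa c d th2 y ρ t) :=
    hdiff'.of_le' (by exact_mod_cast le_top)
  have hvh : Preserves M m (hMa c d th2 y ρ t) :=
    hGA3 N K M m c p hSV hp d th2 hAng2 y ρ hρ0 hFit hvol t
  have hvh' : Preserves M m (hMa c d th2 y ρ (-t)) :=
    hGA3 N K M m c p hSV hp d th2 hAng2 y ρ hρ0 hFit hvol (-t)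
  obtain ⟨eH, hRg⟩ := hcomp H _ _ hd1 hRH
  obtain ⟨hRHi, -⟩ := hT5 K M _ _ H hd1 hRH
  obtain ⟨eH', hRg'⟩ := hcomp H.inv _ _ hd1' hRHi
  have ht' : |t| = t := abs_of_pos ht0
  -- bounds for `H`
  have hTe : ∀ x, ‖H.T x‖ ≤ RT := fun x => by rw [eH]; exact hRT x
  have hAR : ∀ x, ‖H.A x‖ ≤ R2 := fun x => by
    have h1 := norm_le_norm_add_norm_sub' (H.A x) (H.T x)
    have h2 := (hNH x).2.1
    rw [ht'] at h2
    have h3 := s0.trans (min_le_right _ _)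
    linarith [hTe x]
  have hBR : ∀ x, ‖H.B x‖ ≤ R2 := fun x => by
    have h1 := norm_le_norm_add_norm_sub' (H.B x) (H.T x)
    have h2 := (hNH x).2.2
    rw [ht'] at h2
    have h3 := s0.trans (min_le_right _ _)
    linarith [hTe x]
  have hCGt : CG * |t| ≤ δk := by rw [ht']; exact s0.trans (min_le_left _ _)
  have hN1 : Near H δk := fun x => ⟨(hNH x).1.trans hCGt, (hNH x).2.1.trans hCGt,
    (hNH x).2.2.trans hCGt⟩
  have hN2 : Near H.inv δk := fun x => ⟨(hNH' x).1.trans hCGt, (hNH' x).2.1.trans hCGt,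
    (hNH' x).2.2.trans hCGt⟩
  have hPT : ∀ (x : M) i, P i x * H.T x = P i x := fun x i => by rw [eH]; exact hspl.PT x i
  have hTP : ∀ (x : M) i, H.T x * P i x = P i x := fun x i => by rw [eH]; exact hspl.TP x i
  have hpu : ∀ (x : M) (s : E N), d.q s ≤ 1 → (x : E K) = c.ψ (y + ρ • s) →
      Pu c P d y ρ t H x s := fun x s hs hx =>
    pu_mk hT1 hPH.proj hPH.sum hRH hFit hmap hder hder' hqH hHH x s hs hx
  have hbij := bs_bij hRH hmap hmap' hqH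
  -- the distance of the splittings
  have hκ : ∀ (x : M) i, ‖QH P H x i - P i x‖ ≤ CC * (κ0 + t) := by
    intro x i
    by_cases hx : ∃ s, d.q s ≤ 1 ∧ (x : E K) = c.ψ (y + ρ • s)
    · obtain ⟨s, hs, hxs⟩ := hx
      have h1 := (hpu x s hs hxs).bd (R0 := R0) (RP := RP) (κ0 := κ0) (μ := cE * t) hR00
        ((hnorm _ (hin s hs)).1.trans (by linarith)) ((hnorm _ (hin s hs)).2.trans (by linarith))
        ((hTe x).trans (by linarith)) hRP (by positivity) s1 (hosc s hs)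
        (by rw [← ht'] ; exact (hTEa |t| s (by rw [abs_abs]; exact htt)).2.trans (by rw [abs_abs]))
        (by
          have := (hTEa (-t) (d.Ha th2 t s) htt').2
          rwa [abs_neg, ht'] at this) hPT hTP i
      refine h1.trans ?_
      rw [hCC]
      have h2 : 0 ≤ R0 ^ 3 := by positivity
      have h3 : 0 ≤ 3 * (R0 * RP * R0) * cE * κ0 := by positivity
      have h4 : 4 * κ0 + 3 * (R0 * RP * R0) * (cE * t) ≤
          (4 + 3 * (R0 * RP * R0) * cE) * (κ0 + t) := by nlinarith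
      calc R0 ^ 3 * (4 * κ0 + 3 * (R0 * RP * R0) * (cE * t)) ≤
          R0 ^ 3 * ((4 + 3 * (R0 * RP * R0) * cE) * (κ0 + t)) := mul_le_mul_of_nonneg_left h4 h2
        _ = _ := by ring
    · rw [QH_off hPT hTP x (hOff x hx), sub_self, norm_zero]
      positivity
  have hκ0 : 0 ≤ CC * (κ0 + t) := by positivity
  have hoffd := off_of_QH hPH.proj hPT hTP hκ hκ0 hRP hAR hBR
  have hoffd2 : ∀ (x : M) (i j : Fin 3), i ≠ j →
      ‖P i (H.f x) * H.A x * P j x‖ ≤ R2 * CC * RP * (κ0 + t) ∧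
      ‖P i x * H.B (H.f x) * P j (H.f x)‖ ≤ R2 * CC * RP * (κ0 + t) := fun x i j hij => by
    obtain ⟨h1, h2⟩ := hoffd x i j hij
    exact ⟨h1.trans (le_of_eq (by ring)), h2.trans (le_of_eq (by ring))⟩
  have hoffd' := offd_inv hoffd2
  have hκk0 : 0 ≤ R2 * CC * RP * (κ0 + t) := by positivity
  obtain ⟨Q, Γ, o⟩ := hkey H eH hN1 _ hκk0 s4 hoffd2
  obtain ⟨Q', Γ', o'⟩ := hkey H.inv eH' hN2 _ hκk0 s4 hoffd'
  -- vanishing of `Lam`
  have hckε : ck * (R2 * CC * RP * (κ0 + t)) ≤ ε := by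
    rw [← mul_assoc]
    exact s6
  have hSid : Small r ε M (id : E K → E K) :=
    ⟨fun _ => 0, contDiff_const, fun x _ => by simp, fun k _ x => by
      simpa using hε.le⟩
  have hmid : Preserves M m (id : E K → E K) := by
    intro A hA
    rw [preimage_id]
    exact measure_inter_conull hSV.null
  have z1 := lam_zeroJ hMS hT5 hSV hf1 hcon (IsDiffeo.id' ∞ M) hmid hSid hSid
    (C := C) hC hspl hdom (fun x i => by rw [sub_self, norm_zero]; exact hε.le)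
  have z2 := lam_zeroJ hMS hT5 hSV hf1 hcon hdiff hvh hsm hsm' hRg o.spl o.dom
    (fun x i => (o.close x i).trans hckε)
  have z3 := lam_zeroJ hMS hT5 hSV hf1 hcon hdiff' hvh' hsm' hsm hRg' o'.spl o'.dom
    (fun x i => (o'.close x i).trans hckε)
  have hE := hE3 M K C H eH eH' (fun x => P 1 x) (Q 1) (Q' 1) Γ Γ' (m.comap ((↑) : M → E K))
    (hspl.sub 1) (o.spl.sub 1) (o'.spl.sub 1) o.lift o'.lift (hMSp f C.f hfm hC.rf)
    (hMSp _ H.f hvh hRH.rf)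
  have hE' : (0 : ℝ) = ∫ x : M, Real.log |LinearMap.det ((1 + ZZ P H Γ Γ' x : End K) :
      E K →ₗ[ℝ] E K)| ∂(m.comap ((↑) : M → E K)) := by
    have h1 : Lam (C.comp H eH) (Q 1) (m.comap ((↑) : M → E K)) +
        Lam (C.comp H.inv eH') (Q' 1) (m.comap ((↑) : M → E K))
        - 2 * Lam C (fun x => P 1 x) (m.comap ((↑) : M → E K)) = 0 := by
      rw [show Lam C (fun x : M => P 1 x) (m.comap ((↑) : M → E K)) = 0 from z1,
        show Lam (C.comp H eH) (Q 1) (m.comap ((↑) : M → E K)) = 0 from z2,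
        show Lam (C.comp H.inv eH') (Q' 1) (m.comap ((↑) : M → E K)) = 0 from z3]
      ring
    rw [← h1]
    exact hE
  have hfinal := hb_core hOB hRS hINT hMS hTF hSV hfm hPH hC eH eH' hvol hp hqc hρ0 hFit hRH hvh
    hOff hbij hpu hPT hTP hspl.cont o o' hck hlk0 hlk1 hκk0 (R2 := R2) (R := RP) (cc := cc)
    (δ := δL) (κ := CC * (κ0 + t)) hR21 hAR hBR hRP hκ s2 hκ0 (by linarith)
    (by
      rw [← mul_assoc, ← mul_assoc]
      rw [← mul_assoc] at s5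
      exact s5)
    (by
      have : RP * (CC * (κ0 + t)) * RP = RP * CC * RP * (κ0 + t) := by ring
      linarith)
    (s2.trans hδL1)
    (by
      rw [← mul_assoc]
      exact s3)
    (by
      have : RP * (CC * (κ0 + t)) * (RP + 1) + RP * (R2 * (ck * (R2 * CC * RP * (κ0 + t))) * R2) *
        (RP + 1) * (RP + 1) = (RP * CC * (RP + 1) + RP * (R2 * (ck * (R2 * CC * RP)) * R2) *
        (RP + 1) * (RP + 1)) * (κ0 + t) := by ring
      linarith)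
    hLCa hE' N0
  refine hfinal.trans (le_of_eq ?_)
  ring

end Pool.Agent.Helper56.RZ
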