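import Pool.Agent.Helper56.RZ.GoalsF
import Pool.Agent.Helper56.RZ.FinS

/-!
# Project RZ5: the homological bound with weights
-/

set_option autoImplicit false

open Set Filter Topology MeasureTheory

open scoped ContDiff

namespace Pool.Agent.Helper56.RZ

section
variable {K : ℕ} {M : Set (E K)} {P : Fin 3 → E K → End K} {H : Coc M K}

/-- the exact integrand and the local functional -/
theorem lcx5 {C : Coc M K} {e : H.T = C.T} {e' : H.inv.T = C.T} {n : ℕ} {ck lk κk : ℝ}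
    {Q Q' : Fin 3 → M → End K} {Γ Γ' : M → End K}
    (hproj : ∀ x ∈ M, ∀ i j, P i x * P j x = if i = j then P i x else 0)
    (hsum : ∀ x : M, P 0 x + P 1 x + P 2 x = H.T x)
    (hPT : ∀ (x : M) i, P i x * H.T x = P i x)
    (o : Out C H e (fun i (x : M) => P i x) n ck lk κk Q Γ)
    (o' : Out C H.inv e' (fun i (x : M) => P i x) n ck lk κk Q' Γ')
    {R2 R c δ κ b : ℝ} (hR2 : 1 ≤ R2) (hA : ∀ x, ‖H.A x‖ ≤ R2) (hB : ∀ x, ‖H.B x‖ ≤ R2)
    (hR : ∀ (x : M) i, ‖P i x‖ ≤ R) (hκ : ∀ x i, ‖QH P H x i - P i x‖ ≤ κ) (hκδ : κ ≤ δ)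
    (hb0 : 0 ≤ b) (hbδ : R2 ^ 2 * b ≤ δ)
    (hLC : ∀ (P Q : Fin 3 → End K) (T G G' : End K) (κ e : ℝ),
      (∀ i j, P i * P j = if i = j then P i else 0) → P 0 + P 1 + P 2 = T →
      (∀ i j, Q i * Q j = if i = j then Q i else 0) → Q 0 + Q 1 + Q 2 = T →
      (∀ i, ‖P i‖ ≤ R) → (∀ i, ‖Q i - P i‖ ≤ κ) → κ ≤ δ → 0 ≤ e → e ≤ δ →
      T * G = G → G * P 1 = G → P 1 * G = P 1 → ‖P 0 * G‖ ≤ e → ‖Q 2 * G‖ ≤ e →
      T * G' = G' → G' * Q 1 = G' → Q 1 * G' = Q 1 → ‖Q 0 * G'‖ ≤ e → ‖P 2 * G'‖ ≤ e →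
      |Real.log |dt (1 + (P 1 * G' * Q 1 * G - P 1))| - Ps P Q| ≤ c * κ * e)
    (x : M) (g1 : ‖P 0 x * Γ x‖ ≤ b) (g2 : ‖P 2 (H.f x) * H.A x * Γ x‖ ≤ b)
    (g3 : ‖P 0 (H.f x) * Γ' (H.f x)‖ ≤ b) (g5 : ‖P 2 x * H.B (H.f x) * Γ' (H.f x)‖ ≤ b) :
    |Real.log |dt (1 + ZZ P H Γ Γ' x)| - PsM P H x| ≤ c * κ * (R2 ^ 2 * b) := by
  have hR20 : 0 ≤ R2 := by linarith
  have hble : b ≤ R2 ^ 2 * b := by
    have : (1 : ℝ) ≤ R2 ^ 2 := one_le_pow₀ hR2
    nlinarith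
  have hble2 : R2 * b ≤ R2 ^ 2 * b := by
    have : R2 ≤ R2 ^ 2 := by nlinarith
    exact mul_le_mul_of_nonneg_right this hb0
  have hTG : H.T x * Γ x = Γ x := o.TG x
  have hTG' : H.T (H.f x) * Γ' (H.f x) = Γ' (H.f x) := o'.TG _
  have hGT' : Γ' (H.f x) * H.T (H.f x) = Γ' (H.f x) := by
    have := o'.lift.GP (H.f x)
    rw [← this, mul_assoc, hPT]
  set G' : End K := H.B (H.f x) * Γ' (H.f x) * H.A x with hG'
  have hz : P 1 x * G' * QH P H x 1 * Γ x - P 1 x = ZZ P H Γ Γ' x := by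
    have e1 : P 1 x * G' * QH P H x 1 * Γ x = P 1 x * H.B (H.f x) *
        (Γ' (H.f x) * (H.A x * H.B (H.f x))) * P 1 (H.f x) * H.A x * Γ x := by
      simp only [hG', QH, mul_assoc]
    rw [e1, H.AB, hGT', ZZ]
  have key := hLC (fun i => P i x) (QH P H x) (H.T x) (Γ x) G' κ (R2 ^ 2 * b)
    (hproj x x.2) (hsum x) (QH_proj hproj hPT x) (QH_sum hsum x) (fun i => hR x i) (hκ x) hκδ
    (by positivity) hbδ hTG (o.lift.GP x) (o.lift.PG x) (g1.trans hble) ?_ ?_ ?_ ?_ ?_ ?_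
  · change |Real.log |dt (1 + (P 1 x * G' * QH P H x 1 * Γ x - P 1 x))| - PsM P H x| ≤ _ at key
    rw [hz] at key
    exact key
  · have e1 : QH P H x 2 * Γ x = H.B (H.f x) * (P 2 (H.f x) * H.A x * Γ x) := by
      simp only [QH, mul_assoc]
    rw [e1]
    refine ((norm_mul_le _ _).trans (mul_le_mul (hB _) g2 (norm_nonneg _) hR20)).trans hble2
  · rw [hG', ← mul_assoc, ← mul_assoc, TB']
  · have e1 : G' * QH P H x 1 = H.B (H.f x) *
        ((Γ' (H.f x) * (H.A x * H.B (H.f x))) * P 1 (H.f x)) * H.A x := by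
      simp only [hG', QH, mul_assoc]
    rw [e1, H.AB, hGT', o'.lift.GP]
  · have e1 : QH P H x 1 * G' = H.B (H.f x) *
        ((P 1 (H.f x) * (H.A x * H.B (H.f x))) * Γ' (H.f x)) * H.A x := by
      simp only [hG', QH, mul_assoc]
    rw [e1, H.AB, hPT, o'.lift.PG, QH]
  · have e1 : QH P H x 0 * G' = H.B (H.f x) *
        ((P 0 (H.f x) * (H.A x * H.B (H.f x))) * Γ' (H.f x)) * H.A x := by
      simp only [hG', QH, mul_assoc]
    rw [e1, H.AB, hPT]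
    refine (norm_mul_le _ _).trans ?_
    have e2 : R2 ^ 2 * b = R2 * b * R2 := by ring
    rw [e2]
    refine mul_le_mul ((norm_mul_le _ _).trans ?_) (hA x) (norm_nonneg _) (by positivity)
    exact mul_le_mul (hB _) g3 (norm_nonneg _) hR20
  · have e1 : P 2 x * G' = (P 2 x * H.B (H.f x) * Γ' (H.f x)) * H.A x := by
      simp only [hG', mul_assoc]
    change ‖P 2 x * G'‖ ≤ _
    rw [e1]
    refine ((norm_mul_le _ _).trans (mul_le_mul g5 (hA x) (norm_nonneg _) hb0)).trans ?_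
    rw [mul_comm]
    exact hble2

end

/-- the estimate for one perturbation -/
theorem hb_core5 (hOB : StmtOB) (hTR : StmtTR5) (hRS : StmtRS5) (hINT : StmtINT) (hMS : StmtMS) (hTF : StmtTF)
    {N K : ℕ} {M : Set (E K)} {m : Measure (E K)} {f f' : E K → E K} {P : Fin 3 → E K → End K}
    (hSV : SmoothVolume N K M m) (hfm : Preserves M m f) (hPH : PH M f f' P)
    {C H : Coc M K} (hC : Rep C f f') (e : H.T = C.T) (e' : H.inv.T = C.T)
    {c : Chart N K M} (hvol : ∀ A : Set (E N), MeasurableSet A → A ⊆ c.V → m (c.ψ '' A) = volume A)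
    {p : Fin 3 → End N} (hp : Proj3 p) {d : Tw N p} (hqc : IsCompact {s : E N | d.q s ≤ 1})
    {y : E N} {ρ t : ℝ} (hρ : 0 < ρ) (hFit : Fit c d y ρ)
    (hRH : Rep H (hMa c d th2 y ρ t) (hMa c d th2 y ρ (-t)))
    (hvh : Preserves M m (hMa c d th2 y ρ t))
    (hOff : ∀ x : M, (¬ ∃ s, d.q s ≤ 1 ∧ (x : E K) = c.ψ (y + ρ • s)) → H.Off x)
    (hbij : ∀ x : M, (H.f x : E K) ∈ Bs c d y ρ ↔ (x : E K) ∈ Bs c d y ρ)
    (hpu : ∀ (x : M) (s : E N), d.q s ≤ 1 → (x : E K) = c.ψ (y + ρ • s) →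
      Pu c P d y ρ t H x s)
    (hPT : ∀ (x : M) i, P i x * H.T x = P i x) (hTP : ∀ (x : M) i, H.T x * P i x = P i x)
    (hcont : ∀ i, Continuous fun x : M => P i x) {n : ℕ} {ck lk κk : ℝ}
    {Q Q' : Fin 3 → M → End K} {Γ Γ' : M → End K}
    (o : Out C H e (fun i (x : M) => P i x) n ck lk κk Q Γ)
    (o' : Out C H.inv e' (fun i (x : M) => P i x) n ck lk κk Q' Γ')
    (hck : 1 ≤ ck) (hlk : 0 < lk) (hlk1 : lk < 1) (hκk : 0 ≤ κk)
    {R2 R cc δ κ : ℝ} (hR2 : 1 ≤ R2) (hA : ∀ x, ‖H.A x‖ ≤ R2) (hB : ∀ x, ‖H.B x‖ ≤ R2)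
    (hR : ∀ (x : M) i, ‖P i x‖ ≤ R) (hκ : ∀ x i, ‖QH P H x i - P i x‖ ≤ κ) (hκδ : κ ≤ δ)
    (hκ0 : 0 ≤ κ) (hcc : 0 ≤ cc)
    (heδ : R2 ^ 2 * (ck * κk) ≤ δ) (hs : R * κ * R < 1) (hκ1 : κ ≤ 1) (hk1 : ck * κk ≤ 1)
    {RA : ℝ} (hRA1 : 1 ≤ RA) (hCA : ∀ x, ‖C.A x‖ ≤ RA) (hCB : ∀ x, ‖C.B x‖ ≤ RA)
    (hspl : Spl C (fun i (x : M) => P i x))
    (hs2 : R * κ * (R + 1) + R * (R2 * (ck * κk) * R2) * (R + 1) * (R + 1) < 1)
    (hLC : ∀ (P Q : Fin 3 → End K) (T G G' : End K) (κ e : ℝ),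
      (∀ i j, P i * P j = if i = j then P i else 0) → P 0 + P 1 + P 2 = T →
      (∀ i j, Q i * Q j = if i = j then Q i else 0) → Q 0 + Q 1 + Q 2 = T →
      (∀ i, ‖P i‖ ≤ R) → (∀ i, ‖Q i - P i‖ ≤ κ) → κ ≤ δ → 0 ≤ e → e ≤ δ →
      T * G = G → G * P 1 = G → P 1 * G = P 1 → ‖P 0 * G‖ ≤ e → ‖Q 2 * G‖ ≤ e →
      T * G' = G' → G' * Q 1 = G' → Q 1 * G' = Q 1 → ‖Q 0 * G'‖ ≤ e → ‖P 2 * G'‖ ≤ e →
      |Real.log |dt (1 + (P 1 * G' * Q 1 * G - P 1))| - Ps P Q| ≤ cc * κ * e)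
    (hE : (0 : ℝ) = ∫ x : M, Real.log |LinearMap.det ((1 + ZZ P H Γ Γ' x : End K) :
      E K →ₗ[ℝ] E K)| ∂(m.comap ((↑) : M → E K))) (N0 : ℕ) (w : ℕ → ℝ) (hw0 : ∀ n, 0 ≤ w n)
    (hw : ∀ n < N0, ∀ x : M, (x : E K) ∈ Bs c d y ρ → f^[n + 1] (x : E K) ∈ Bs c d y ρ →
      DP C (fun i (x : M) => P i x) (n + 1) x ≤ w n) :
    |∫ s in {s | d.q s ≤ 1}, Fl d (phat c P) ρ t y s| ≤
      (ρ ^ N)⁻¹ * (cc * κ * (R2 ^ 2 * ((RA ^ 2 + R * (R2 * (R + 1)) + 1) * (ck * κk))) *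
      (4 * ∑ n ∈ Finset.range N0,
      w n * (m {x | x ∈ Bs c d y ρ ∧ f^[n + 1] x ∈ Bs c d y ρ}).toReal +
        4 * (lk ^ N0 * (m (Bs c d y ρ)).toReal))) := by
  classical
  have hcM : CompactSpace M := isCompact_iff_compactSpace.1 hSV.compact
  obtain ⟨-, hfin, hMSp, hMSi, -⟩ := hMS N K M m hSV
  have hfin' : IsFiniteMeasure (m.comap ((↑) : M → E K)) := hfin
  obtain ⟨hBc, hBM⟩ := bs_compact hFit hqc
  set B : Set M := {x : M | (x : E K) ∈ Bs c d y ρ} with hBd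
  have hBm : MeasurableSet B := hBc.isClosed.measurableSet.preimage measurable_subtype_coe
  have hOffB : ∀ x ∉ B, H.Off x := fun x hx => hOff x hx
  -- the difference
  have hZc : Continuous (ZZ P H Γ Γ') := by
    have c1 : Continuous (fun x : M => P 1 x) := hcont 1
    have c2 := H.f.continuous
    exact ((((((c1.mul (H.contB.comp c2)).mul (o'.lift.cont.comp c2)).mul (c1.comp c2)).mul
      H.contA).mul o.lift.cont).sub c1)
  have hlogc : Continuous (fun x : M => Real.log |LinearMap.det ((1 + ZZ P H Γ Γ' x : End K) :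
      E K →ₗ[ℝ] E K)|) := by
    refine Continuous.log (cont_det (continuous_const.add hZc)).abs fun x => ?_
    exact abs_ne_zero.2 (det_ne_zero (lt_of_le_of_lt
      (zz_bd hPH.proj hPT o o' hA hB hR hκ hκ1 hk1 x) hs2))
  have hPsc : Continuous (PsM P H) := cont_PsM hcont hPH.proj hR hκ hs
  set g : M → ℝ := fun x => Real.log |LinearMap.det ((1 + ZZ P H Γ Γ' x : End K) :
      E K →ₗ[ℝ] E K)| - PsM P H x with hg
  have hgc : Continuous g := hlogc.sub hPsc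
  have hg0 : ∀ x ∉ B, g x = 0 := by
    intro x hx
    have h1 := hOffB x hx
    simp only [hg]
    rw [zz_off hPH.proj hPT o o' x h1, PsM_off hPH.proj hPT hTP x h1]
    simp
  -- the weights
  obtain ⟨W, hW⟩ : ∃ W : ℕ → ℝ, W = fun n => if n < N0 then w n else lk ^ N0 := ⟨_, rfl⟩
  have hW0 : ∀ n, 0 ≤ W n := fun n => by
    rw [hW]
    dsimp only
    split_ifs
    · exact hw0 n
    · positivity
  have hWw : ∀ n < N0, W n = w n := fun n hn => by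
    rw [hW]
    dsimp only
    rw [if_pos hn]
  have hWN : W N0 = lk ^ N0 := by
    rw [hW]
    dsimp only
    rw [if_neg (lt_irrefl _)]
  have hR0 : 0 ≤ R := (norm_nonneg _).trans (hR ⟨_, hSV.nonempty.choose_spec⟩ 0)
  have hR20 : 0 ≤ R2 := by linarith
  have hckκ : 0 ≤ ck * κk := by
    have : 0 ≤ ck := by linarith
    positivity
  obtain ⟨C1, hC1⟩ : ∃ C1 : ℝ, C1 = RA ^ 2 + R * (R2 * (R + 1)) + 1 := ⟨_, rfl⟩
  have hC1a : RA ^ 2 ≤ C1 := by
    rw [hC1]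
    have : 0 ≤ R * (R2 * (R + 1)) := by positivity
    linarith
  have hC1b : R * (R2 * (R + 1)) ≤ C1 := by
    rw [hC1]
    nlinarith [sq_nonneg RA]
  have hC1c : 1 ≤ C1 := by
    rw [hC1]
    have : 0 ≤ R * (R2 * (R + 1)) := by positivity
    nlinarith [sq_nonneg RA]
  have hGb : ∀ x, ‖Γ x‖ ≤ R + 1 := fun x => by
    have h1 := norm_le_norm_add_norm_sub' (Γ x) (P 1 x)
    have h2 : ‖Γ x - P 1 x‖ ≤ ck * κk := o.liftc x
    linarith [hR x 1]
  have hGb' : ∀ x, ‖Γ' x‖ ≤ R + 1 := fun x => by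
    have h1 := norm_le_norm_add_norm_sub' (Γ' x) (P 1 x)
    have h2 : ‖Γ' x - P 1 x‖ ≤ ck * κk := o'.liftc x
    linarith [hR x 1]
  have hDP0 : ∀ n x, 0 ≤ DP C (fun i (x : M) => P i x) n x := fun n x =>
    (mul_nonneg (norm_nonneg _) (norm_nonneg _)).trans (le_max_left _ _)
  have hret : ∀ (n : ℕ) (x : M), n < N0 → x ∈ B → C.f^[n + 1] x ∈ B →
      DP C (fun i (x : M) => P i x) (n + 1) x ≤ W n := by
    intro n x hn hx hx'
    rw [hWw n hn]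
    refine hw n hn x hx ?_
    have h1 : (C.f^[n + 1] x : E K) ∈ Bs c d y ρ := hx'
    rwa [hC.iter] at h1
  have hRA0 : 0 ≤ RA := by linarith
  -- the four bounds
  have k1 : ∀ (J : ℕ) (x : M), x ∈ B → (∀ j, 1 ≤ j → j ≤ J → C.f.symm^[j] x ∉ B) →
      (J = N0 ∨ (J < N0 ∧ C.f.symm^[J + 1] x ∈ B)) →
      ‖P 0 x * Γ x‖ ≤ C1 * (ck * κk) * W J := by
    intro J x hx hj hJ
    rcases hJ with hJ | ⟨hJ, hJ'⟩
    · obtain ⟨a1, -⟩ := hOB M K C H e B J hOffB x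
      have h1 := o.past J x (a1 hj)
      rw [hJ, hWN]
      rw [hJ] at h1
      refine h1.trans ?_
      have h2 : 0 ≤ lk ^ N0 := by positivity
      calc ck * lk ^ N0 * κk = 1 * ((ck * κk) * lk ^ N0) := by ring
        _ ≤ C1 * ((ck * κk) * lk ^ N0) := mul_le_mul_of_nonneg_right hC1c (by positivity)
        _ = _ := by ring
    · have h1 := (hTR M K C H e (fun i (x : M) => P i x) Q Γ n ck lk κk R RA B hspl o hR hCA hCB
        hOffB J x).1 hj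
      have h2 : C.f^[J + 1] (C.f.symm^[J + 1] x) = x :=
        (Function.LeftInverse.iterate C.f.apply_symm_apply (J + 1)) x
      have h3 := hret J _ hJ hJ' (by rw [h2]; exact hx)
      refine h1.trans ?_
      calc RA ^ 2 * (ck * κk) * DP C (fun i (x : M) => P i x) (J + 1) (C.f.symm^[J + 1] x)
          ≤ RA ^ 2 * (ck * κk) * W J := mul_le_mul_of_nonneg_left h3 (by positivity)
        _ ≤ C1 * (ck * κk) * W J := mul_le_mul_of_nonneg_right
            (mul_le_mul_of_nonneg_right hC1a hckκ) (hW0 J)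
  have k2 : ∀ (J : ℕ) (x : M), x ∈ B → (∀ j, 1 ≤ j → j ≤ J → C.f^[j] (H.f x) ∉ B) →
      (J = N0 ∨ (J < N0 ∧ C.f^[J + 1] (H.f x) ∈ B)) →
      ‖P 2 (H.f x) * H.A x * Γ x‖ ≤ C1 * (ck * κk) * W J := by
    intro J x hx hj hJ
    rcases hJ with hJ | ⟨hJ, hJ'⟩
    · obtain ⟨-, a2⟩ := hOB M K C H e B J hOffB x
      have h1 := o.fut J x (a2 hj)
      rw [hJ, hWN]
      rw [hJ] at h1
      refine h1.trans ?_
      have h2 : 0 ≤ lk ^ N0 := by positivity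
      calc ck * lk ^ N0 * κk = 1 * ((ck * κk) * lk ^ N0) := by ring
        _ ≤ C1 * ((ck * κk) * lk ^ N0) := mul_le_mul_of_nonneg_right hC1c (by positivity)
        _ = _ := by ring
    · have h1 := (hTR M K C H e (fun i (x : M) => P i x) Q Γ n ck lk κk R RA B hspl o hR hCA hCB
        hOffB J x).2 hj
      have h3 := hret J _ hJ ((hbij x).2 hx) hJ'
      have h4 : ‖H.A x * Γ x‖ ≤ R2 * (R + 1) :=
        (norm_mul_le _ _).trans (mul_le_mul (hA x) (hGb x) (norm_nonneg _) hR20)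
      refine h1.trans ?_
      calc R * (ck * κk) * ‖H.A x * Γ x‖ * DP C (fun i (x : M) => P i x) (J + 1) (H.f x)
          ≤ R * (ck * κk) * (R2 * (R + 1)) * W J := by
            refine mul_le_mul (mul_le_mul_of_nonneg_left h4 (by positivity)) h3 (hDP0 _ _)
              (by positivity)
        _ = (R * (R2 * (R + 1))) * (ck * κk) * W J := by ring
        _ ≤ C1 * (ck * κk) * W J := mul_le_mul_of_nonneg_right
            (mul_le_mul_of_nonneg_right hC1b hckκ) (hW0 J)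
  have hOffB' : ∀ x ∉ B, H.inv.Off x := fun x hx => (hOffB x hx).inv
  have k3 : ∀ (J : ℕ) (x : M), x ∈ B → (∀ j, 1 ≤ j → j ≤ J → C.f.symm^[j] (H.f x) ∉ B) →
      (J = N0 ∨ (J < N0 ∧ C.f.symm^[J + 1] (H.f x) ∈ B)) →
      ‖P 0 (H.f x) * Γ' (H.f x)‖ ≤ C1 * (ck * κk) * W J := by
    intro J x hx hj hJ
    rcases hJ with hJ | ⟨hJ, hJ'⟩
    · obtain ⟨a1, -⟩ := hOB M K C H.inv e' B J hOffB' (H.f x)
      have h1 := o'.past J (H.f x) (a1 hj)
      rw [hJ, hWN]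
      rw [hJ] at h1
      refine h1.trans ?_
      have h2 : 0 ≤ lk ^ N0 := by positivity
      calc ck * lk ^ N0 * κk = 1 * ((ck * κk) * lk ^ N0) := by ring
        _ ≤ C1 * ((ck * κk) * lk ^ N0) := mul_le_mul_of_nonneg_right hC1c (by positivity)
        _ = _ := by ring
    · have h1 := (hTR M K C H.inv e' (fun i (x : M) => P i x) Q' Γ' n ck lk κk R RA B hspl o' hR
        hCA hCB hOffB' J (H.f x)).1 hj
      have h2 : C.f^[J + 1] (C.f.symm^[J + 1] (H.f x)) = H.f x :=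
        (Function.LeftInverse.iterate C.f.apply_symm_apply (J + 1)) _
      have h3 := hret J _ hJ hJ' (by rw [h2]; exact (hbij x).2 hx)
      refine h1.trans ?_
      calc RA ^ 2 * (ck * κk) * DP C (fun i (x : M) => P i x) (J + 1) (C.f.symm^[J + 1] (H.f x))
          ≤ RA ^ 2 * (ck * κk) * W J := mul_le_mul_of_nonneg_left h3 (by positivity)
        _ ≤ C1 * (ck * κk) * W J := mul_le_mul_of_nonneg_right
            (mul_le_mul_of_nonneg_right hC1a hckκ) (hW0 J)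
  have k4 : ∀ (J : ℕ) (x : M), x ∈ B → (∀ j, 1 ≤ j → j ≤ J → C.f^[j] x ∉ B) →
      (J = N0 ∨ (J < N0 ∧ C.f^[J + 1] x ∈ B)) →
      ‖P 2 x * H.B (H.f x) * Γ' (H.f x)‖ ≤ C1 * (ck * κk) * W J := by
    intro J x hx hj hJ
    have e1 : H.inv.f (H.f x) = x := H.f.symm_apply_apply x
    rcases hJ with hJ | ⟨hJ, hJ'⟩
    · obtain ⟨-, a2⟩ := hOB M K C H.inv e' B J hOffB' (H.f x)
      rw [e1] at a2
      have h1 := o'.fut J (H.f x) (a2 hj)
      rw [e1] at h1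
      rw [hJ, hWN]
      rw [hJ] at h1
      refine le_trans h1 ?_
      have h2 : 0 ≤ lk ^ N0 := by positivity
      calc ck * lk ^ N0 * κk = 1 * ((ck * κk) * lk ^ N0) := by ring
        _ ≤ C1 * ((ck * κk) * lk ^ N0) := mul_le_mul_of_nonneg_right hC1c (by positivity)
        _ = _ := by ring
    · have h1 := (hTR M K C H.inv e' (fun i (x : M) => P i x) Q' Γ' n ck lk κk R RA B hspl o' hR
        hCA hCB hOffB' J (H.f x)).2
      rw [e1] at h1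
      have h1' := h1 hj
      have h3 := hret J x hJ hx hJ'
      have h4 : ‖H.B (H.f x) * Γ' (H.f x)‖ ≤ R2 * (R + 1) :=
        (norm_mul_le _ _).trans (mul_le_mul (hB _) (hGb' _) (norm_nonneg _) hR20)
      refine le_trans h1' ?_
      calc R * (ck * κk) * ‖H.B (H.f x) * Γ' (H.f x)‖ * DP C (fun i (x : M) => P i x) (J + 1) x
          ≤ R * (ck * κk) * (R2 * (R + 1)) * W J := by
            refine mul_le_mul (mul_le_mul_of_nonneg_left h4 (by positivity)) h3 (hDP0 _ _)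
              (by positivity)
        _ = (R * (R2 * (R + 1))) * (ck * κk) * W J := by ring
        _ ≤ C1 * (ck * κk) * W J := mul_le_mul_of_nonneg_right
            (mul_le_mul_of_nonneg_right hC1b hckκ) (hW0 J)
  have hgJ : ∀ (J : Fin 4 → ℕ) (x : M), x ∈ B →
      (∀ i, (∀ j, 1 ≤ j → j ≤ J i → pc C.f H.f x i j ∉ B) ∧
        (J i = N0 ∨ (J i < N0 ∧ pc C.f H.f x i (J i + 1) ∈ B))) →
      |g x| ≤ cc * κ * (R2 ^ 2 * (C1 * (ck * κk))) * ∑ i, W (J i) := by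
    intro J x hx hJ
    have q0 := k4 (J 0) x hx (hJ 0).1 (hJ 0).2
    have q1 := k1 (J 1) x hx (hJ 1).1 (hJ 1).2
    have q2 := k2 (J 2) x hx (hJ 2).1 (hJ 2).2
    have q3 := k3 (J 3) x hx (hJ 3).1 (hJ 3).2
    -- trivial bounds
    have hz : ∀ z : M, ∀ j, 1 ≤ j → j ≤ 0 → H.Off z := fun z j h1 h2 => by omega
    have p1 : ‖P 0 x * Γ x‖ ≤ ck * κk := by
      have := o.past 0 x (fun j h1 h2 => by omega)
      rwa [pow_zero, mul_one] at this
    have p2 : ‖P 2 (H.f x) * H.A x * Γ x‖ ≤ ck * κk := by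
      have := o.fut 0 x (fun j h1 h2 => by omega)
      rwa [pow_zero, mul_one] at this
    have p3 : ‖P 0 (H.f x) * Γ' (H.f x)‖ ≤ ck * κk := by
      have := o'.past 0 (H.f x) (fun j h1 h2 => by omega)
      rwa [pow_zero, mul_one] at this
    have p4 : ‖P 2 x * H.B (H.f x) * Γ' (H.f x)‖ ≤ ck * κk := by
      have h1 := o'.fut 0 (H.f x) (fun j h1 h2 => by omega)
      have e1 : H.inv.f (H.f x) = x := H.f.symm_apply_apply x
      rw [e1, pow_zero, mul_one] at h1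
      exact h1
    obtain ⟨b, hb⟩ : ∃ b : ℝ, b = max (max ‖P 0 x * Γ x‖ ‖P 2 (H.f x) * H.A x * Γ x‖)
      (max ‖P 0 (H.f x) * Γ' (H.f x)‖ ‖P 2 x * H.B (H.f x) * Γ' (H.f x)‖) := ⟨_, rfl⟩
    have hb1 : b ≤ ck * κk := by
      rw [hb]
      exact max_le (max_le p1 p2) (max_le p3 p4)
    have hsum : ∑ i, W (J i) = W (J 0) + W (J 1) + W (J 2) + W (J 3) := Fin.sum_univ_four _
    have hWi : ∀ i, C1 * (ck * κk) * W (J i) ≤ C1 * (ck * κk) * ∑ i, W (J i) := fun i => by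
      refine mul_le_mul_of_nonneg_left ?_ (by positivity)
      exact Finset.single_le_sum (f := fun i => W (J i)) (s := Finset.univ)
        (fun i _ => hW0 _) (Finset.mem_univ i)
    have hb2 : b ≤ C1 * (ck * κk) * ∑ i, W (J i) := by
      rw [hb]
      exact max_le (max_le (q1.trans (hWi 1)) (q2.trans (hWi 2)))
        (max_le (q3.trans (hWi 3)) (q0.trans (hWi 0)))
    have hb0 : 0 ≤ b := by
      rw [hb]
      exact (norm_nonneg _).trans ((le_max_left _ _).trans (le_max_left _ _))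
    have key := lcx5 (C := C) hPH.proj (fun x => by rw [hRH.rT]; exact hPH.sum x x.2) hPT o o'
      hR2 hA hB hR hκ hκδ hb0 ((mul_le_mul_of_nonneg_left hb1 (by positivity)).trans heδ) hLC x
      (by rw [hb]; exact (le_max_left _ _).trans (le_max_left _ _))
      (by rw [hb]; exact (le_max_right _ _).trans (le_max_left _ _))
      (by rw [hb]; exact (le_max_left _ _).trans (le_max_right _ _))
      (by rw [hb]; exact (le_max_right _ _).trans (le_max_right _ _))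
    refine le_trans key ?_
    calc cc * κ * (R2 ^ 2 * b) ≤ cc * κ * (R2 ^ 2 * (C1 * (ck * κk) * ∑ i, W (J i))) :=
          mul_le_mul_of_nonneg_left (mul_le_mul_of_nonneg_left hb2 (by positivity)) (by positivity)
      _ = cc * κ * (R2 ^ 2 * (C1 * (ck * κk))) * ∑ i, W (J i) := by ring
  have hAA : 0 ≤ cc * κ * (R2 ^ 2 * (C1 * (ck * κk))) := by positivity
  have hrs := hRS M (m.comap ((↑) : M → E K)) C.f H.f B g _ N0 W (hMSp f C.f hfm hC.rf)
    (hMSp _ H.f hvh hRH.rf) hBm (fun x => hbij x) hgc hAA hW0 hg0 hgJ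
  rw [hWN] at hrs
  have hWs : ∑ n ∈ Finset.range N0, W n *
      ((m.comap ((↑) : M → E K)) {x : M | x ∈ B ∧ C.f^[n + 1] x ∈ B}).toReal =
      ∑ n ∈ Finset.range N0, w n *
      ((m.comap ((↑) : M → E K)) {x : M | x ∈ B ∧ C.f^[n + 1] x ∈ B}).toReal :=
    Finset.sum_congr rfl fun n hn => by rw [hWw n (Finset.mem_range.1 hn)]
  rw [hWs, hC1] at hrs
  -- measures
  have hm1 : ∀ n : ℕ, (m.comap ((↑) : M → E K)) {x : M | x ∈ B ∧ C.f^[n + 1] x ∈ B} =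
      m {x | x ∈ Bs c d y ρ ∧ f^[n + 1] x ∈ Bs c d y ρ} := by
    intro n
    rw [← meas_sub hSV.compact m _ (fun x hx => hBM hx.1)]
    congr 1
    ext x
    simp only [hBd, mem_ofPred_eq]
    rw [hC.iter]
  have hm2 : (m.comap ((↑) : M → E K)) B = m (Bs c d y ρ) := meas_sub hSV.compact m _ hBM
  simp only [hm1, hm2] at hrs
  -- integrals
  have i1 : Integrable (fun x : M => Real.log |LinearMap.det ((1 + ZZ P H Γ Γ' x : End K) :
      E K →ₗ[ℝ] E K)|) (m.comap ((↑) : M → E K)) :=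
    hlogc.integrable_of_hasCompactSupport (HasCompactSupport.of_compactSpace _)
  have i2 : Integrable (PsM P H) (m.comap ((↑) : M → E K)) :=
    hPsc.integrable_of_hasCompactSupport (HasCompactSupport.of_compactSpace _)
  have e1 : ∫ x, g x ∂(m.comap ((↑) : M → E K)) = - ∫ x, PsM P H x ∂(m.comap ((↑) : M → E K)) := by
    rw [hg, integral_sub i1 i2, ← hE, zero_sub]
  set F : E K → ℝ := fun x => if hx : x ∈ M then PsM P H ⟨x, hx⟩ else 0 with hF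
  have hFx : ∀ x : M, F x = PsM P H x := by
    intro x
    simp only [hF, dif_pos x.2]
  have hFM : ContinuousOn F M := by
    rw [continuousOn_iff_continuous_domRestrict]
    refine hPsc.congr fun x => ?_
    rw [domRestrict_apply, hFx]
  have hF0 : ∀ x ∈ M, (¬ ∃ s, d.q s ≤ 1 ∧ x = c.ψ (y + ρ • s)) → F x = 0 := by
    intro x hx hn
    rw [show F x = F ((⟨x, hx⟩ : M) : E K) from rfl, hFx,
      PsM_off hPH.proj hPT hTP _ (hOff ⟨x, hx⟩ hn)]
  have e2 : ∫ x, PsM P H x ∂(m.comap ((↑) : M → E K)) = ∫ x, F x ∂m := by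
    rw [← hMSi F]
    exact integral_congr_ae (Eventually.of_forall fun x => (hFx x).symm)
  have e3 : ∫ s in {s | d.q s ≤ 1}, F (c.ψ (y + ρ • s)) =
      ∫ s in {s | d.q s ≤ 1}, Fl d (phat c P) ρ t y s := by
    refine setIntegral_congr_fun hqc.isClosed.measurableSet fun s hs => ?_
    have hM : c.ψ (y + ρ • s) ∈ M := (c.mapsψ _ (hFit s hs)).1
    have h1 := hFx ⟨_, hM⟩
    change F (c.ψ (y + ρ • s)) = _
    rw [show F (c.ψ (y + ρ • s)) = _ from h1]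
    exact (hpu ⟨_, hM⟩ s hs rfl).psm hTF
  rw [e1, e2, hINT N K M m c p hSV hp d y ρ hρ hFit hvol F hFM hF0, e3, abs_neg, abs_mul,
    abs_of_pos (pow_pos hρ N)] at hrs
  rw [inv_mul_eq_div, le_div_iff₀' (pow_pos hρ N)]
  exact hrs

/-- the bound for the integral of the local functional -/
theorem hb5 (hB2 : StmtB2) (hDP : StmtDP) (hCL : StmtCL) (hLI : StmtLI) (hE3 : StmtE3)
    (hT1 : StmtT1) (hT4 : StmtT4) (hT5 : StmtT5) (hMS : StmtMS) (hINT : StmtINT)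
    (hTL : StmtTL) (hTA : StmtTA) (hTE : StmtTE) (hGA1 : StmtGA1) (hGA2 : StmtGA2)
    (hGA3 : StmtGA3) (hGA5 : StmtGA5) (hLC : StmtLC) (hTF : StmtTF) (hOB : StmtOB)
    (hTR : StmtTR5) (hRS : StmtRS5)
    {N K r : ℕ} {M : Set (E K)} {m : Measure (E K)} {f f' : E K → E K} {P : Fin 3 → E K → End K}
    (hSV : SmoothVolume N K M m) (hf1 : IsDiffeo 1 M f f') (hfm : Preserves M m f)
    (hPH : PH M f f' P) {C : Coc M K} (hC : Rep C f f') {ε : ℝ} (hε : 0 < ε)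
    (hcon : ∀ (h h' : E K → E K) (Q : Fin 3 → E K → End K), IsDiffeo ∞ M h h' →
      Preserves M m h → Small r ε M h → Small r ε M h' → PH M (f ∘ h) (h' ∘ f') Q →
      (∀ x ∈ M, ∀ i, ‖Q i x - P i x‖ ≤ ε) → CInt M m (f ∘ h) Q = 0)
    (c : Chart N K M) (hvol : ∀ A : Set (E N), MeasurableSet A → A ⊆ c.V → m (c.ψ '' A) = volume A)
    {p : Fin 3 → End N} (hp : Proj3 p) (d : Tw N p) (hqc : IsCompact {s : E N | d.q s ≤ 1})
    (z0 : E N) (hz0 : z0 ∈ c.V) :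
    ∃ l A t1 ρ1 r1 : ℝ, 0 < l ∧ l < 1 ∧ 0 ≤ A ∧ 0 < t1 ∧ t1 ≤ 1 ∧ 0 < ρ1 ∧ 0 < r1 ∧
    ∀ y ∈ Metric.closedBall z0 r1, ∀ ρ t κ0 : ℝ, 0 < ρ → ρ ≤ ρ1 → 0 < t → t ≤ t1 → 0 ≤ κ0 →
    κ0 ≤ t1 → Small r ε M (hMa c d th2 y ρ t) → Small r ε M (hMa c d th2 y ρ (-t)) →
    (∀ s, d.q s ≤ 1 → ∀ i, ‖phat c P i (y + ρ • d.Ha th2 t s) - phat c P i (y + ρ • s)‖ ≤ κ0) →
    ∀ (N0 : ℕ) (w : ℕ → ℝ), (∀ n, 0 ≤ w n) →
    (∀ n < N0, ∀ x : M, (x : E K) ∈ Bs c d y ρ → f^[n + 1] (x : E K) ∈ Bs c d y ρ →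
      DP C (fun i (x : M) => P i x) (n + 1) x ≤ w n) →
    |∫ s in {s | d.q s ≤ 1}, Fl d (phat c P) ρ t y s| ≤
      (ρ ^ N)⁻¹ * (A * (κ0 + t) ^ 2 * (4 * ∑ n ∈ Finset.range N0,
      w n * (m {x | x ∈ Bs c d y ρ ∧ f^[n + 1] x ∈ Bs c d y ρ}).toReal +
        4 * (l ^ N0 * (m (Bs c d y ρ)).toReal))) := by
  classical
  have hPi : ContinuousOn (Pi M) M :=
    (((hPH.cont 0).add (hPH.cont 1)).add (hPH.cont 2)).congr fun x hx => (hPH.sum x hx).symm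
  have hcM : CompactSpace M := isCompact_iff_compactSpace.1 hSV.compact
  obtain ⟨hCinv, hcomp, hiter, hto, hback⟩ := hT5 K M f f' C hf1 hC
  obtain ⟨hspl, n, hdom⟩ := hto P hPH
  obtain ⟨hMSd, hfin, hMSp, hMSi, hMSae⟩ := hMS N K M m hSV
  have hfin' : IsFiniteMeasure (m.comap ((↑) : M → E K)) := hfin
  obtain ⟨δk, ck, lk, hδk, hck, hlk0, hlk1, hkey⟩ := key hB2 hDP hCL hLI M K C _ n hspl hdom
  have hck0 : 0 < ck := by linarith
  -- bounds
  obtain ⟨RP, hRP1, hRP⟩ := exists_bd3 _ hspl.cont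
  obtain ⟨RT, hRT1, hRT⟩ := exists_bd _ C.contT
  obtain ⟨RA, hRA1, hCA, hCB⟩ : ∃ RA : ℝ, 1 ≤ RA ∧ (∀ x, ‖C.A x‖ ≤ RA) ∧ ∀ x, ‖C.B x‖ ≤ RA := by
    obtain ⟨R1, h1, h1'⟩ := exists_bd _ C.contA
    obtain ⟨R2, h2, h2'⟩ := exists_bd _ C.contB
    exact ⟨max R1 R2, h1.trans (le_max_left _ _), fun x => (h1' x).trans (le_max_left _ _),
      fun x => (h2' x).trans (le_max_right _ _)⟩
  -- chart bounds
  obtain ⟨r0, Cc, hr0, hball, hnorm⟩ : ∃ r0 Cc : ℝ, 0 < r0 ∧ Metric.closedBall z0 r0 ⊆ c.V ∧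
      ∀ z ∈ Metric.closedBall z0 r0, ‖fderiv ℝ c.ψ z‖ ≤ Cc ∧ ‖fderiv ℝ c.φ (c.ψ z)‖ ≤ Cc := by
    obtain ⟨r0, hr0, hb⟩ := Metric.nhds_basis_closedBall.mem_iff.1 (c.openV.mem_nhds hz0)
    have c1 : ContinuousOn (fderiv ℝ c.ψ) c.V :=
      c.smoothψ.continuousOn_fderiv_of_isOpen c.openV (by exact_mod_cast le_top)
    have c2 : ContinuousOn (fderiv ℝ c.φ) c.W :=
      c.smoothφ.continuousOn_fderiv_of_isOpen c.openW (by exact_mod_cast le_top)
    have c3 : ContinuousOn (fun z => fderiv ℝ c.φ (c.ψ z)) c.V :=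
      c2.comp c.smoothψ.continuousOn fun z hz => (c.mapsψ z hz).2
    obtain ⟨C1, hC1⟩ := (isCompact_closedBall z0 r0).exists_bound_of_continuousOn (c1.mono hb)
    obtain ⟨C2, hC2⟩ := (isCompact_closedBall z0 r0).exists_bound_of_continuousOn (c3.mono hb)
    exact ⟨r0, max C1 C2, hr0, hb, fun z hz => ⟨(hC1 z hz).trans (le_max_left _ _),
      (hC2 z hz).trans (le_max_right _ _)⟩⟩
  have hz0b : z0 ∈ Metric.closedBall z0 r0 := Metric.mem_closedBall_self hr0.le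
  have hCc0 : 0 ≤ Cc := (norm_nonneg _).trans (hnorm z0 hz0b).1
  obtain ⟨R0, hR0⟩ : ∃ R0 : ℝ, R0 = Cc + RT := ⟨_, rfl⟩
  have hR00 : 0 ≤ R0 := by linarith
  obtain ⟨R2, hR2⟩ : ∃ R2 : ℝ, R2 = RT + 1 := ⟨_, rfl⟩
  have hR21 : 1 ≤ R2 := by linarith
  obtain ⟨-, hAng2, -, -⟩ := hTL
  obtain ⟨-, hqH, hHH, -, -, -, -⟩ := hTA N p hp d th2 hAng2
  obtain ⟨cE, hcE, hTEa⟩ := hTE N p hp d th2 hAng2
  obtain ⟨CG, ρG, rG, hCG, hρG0, hρG1, hrG, hG5⟩ := hGA5 N K M c p hPi hp d th2 hAng2 z0 hz0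
  obtain ⟨CF, ρF, rF, hCF, hρF0, hρF1, hrF, hG2⟩ := hGA2 N K r M c p hp d th2 hAng2 z0 hz0
  obtain ⟨cc, δL, hcc, hδL, hδL1, hLCa⟩ := hLC K RP
  obtain ⟨CC, hCC⟩ : ∃ CC : ℝ, CC = R0 ^ 3 * (4 + 3 * (R0 * RP * R0) * cE) := ⟨_, rfl⟩
  have hCC0 : 0 ≤ CC := by
    have : 0 ≤ RP := by linarith
    rw [hCC]; positivity
  have hRP0 : 0 ≤ RP := by linarith
  have hR20 : 0 ≤ R2 := by linarith
  -- size of the support
  obtain ⟨D, hD⟩ := hqc.isBounded.exists_norm_le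
  obtain ⟨DD, hDD⟩ : ∃ DD : ℝ, DD = max 1 D := ⟨_, rfl⟩
  have hDD1 : 1 ≤ DD := by rw [hDD]; exact le_max_left _ _
  have hDs : ∀ s, d.q s ≤ 1 → ‖s‖ ≤ DD := fun s hs =>
    (hD s hs).trans ((le_max_right 1 D).trans hDD.symm.le)
  obtain ⟨b, hb0, hb1, hbs⟩ := small_fin 9
    ![CG, cE, CC, ck * (R2 * CC * RP), R2 * CC * RP, R2 ^ 2 * (ck * (R2 * CC * RP)),
      ck * (R2 * CC * RP), RP * CC * RP,
      RP * CC * (RP + 1) + RP * (R2 * (ck * (R2 * CC * RP)) * R2) * (RP + 1) * (RP + 1)]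
    ![min δk 1, 1, δL, 1, δk, δL, ε, 1 / 2, 1 / 2]
    (by intro i; fin_cases i <;> simp <;> positivity)
    (by intro i; fin_cases i <;> simp <;> assumption)
  refine ⟨lk, cc * CC * (R2 ^ 2 * ((RA ^ 2 + RP * (R2 * (RP + 1)) + 1) * (ck * (R2 * CC * RP)))),
    b / 2,
    min (min ρG ρF) (r0 / (2 * DD)), min (min rG rF) (r0 / 2), hlk0, hlk1, by positivity,
    by positivity, by linarith, lt_min (lt_min hρG0 hρF0) (by positivity),
    lt_min (lt_min hrG hrF) (by positivity), ?_⟩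
  intro y hy ρ t κ0 hρ0 hρ1 ht0 ht1 hκ00 hκ01 hsm hsm' hosc N0 w hw0 hw
  have hyG : y ∈ Metric.closedBall z0 rG :=
    Metric.closedBall_subset_closedBall ((min_le_left _ _).trans (min_le_left _ _)) hy
  have hyF : y ∈ Metric.closedBall z0 rF :=
    Metric.closedBall_subset_closedBall ((min_le_left _ _).trans (min_le_right _ _)) hy
  have hy0 : y ∈ Metric.closedBall z0 (r0 / 2) :=
    Metric.closedBall_subset_closedBall (min_le_right _ _) hy
  have hρG' : ρ ≤ ρG := hρ1.trans ((min_le_left _ _).trans (min_le_left _ _))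
  have hρF' : ρ ≤ ρF := hρ1.trans ((min_le_left _ _).trans (min_le_right _ _))
  have hρ0' : ρ ≤ r0 / (2 * DD) := hρ1.trans (min_le_right _ _)
  have htt : |t| ≤ 1 := by rw [abs_of_pos ht0]; linarith
  have htt' : |(-t)| ≤ 1 := by rw [abs_neg]; exact htt
  have hu0 : 0 ≤ κ0 + t := by linarith
  have hu1 : κ0 + t ≤ b := by linarith
  have hbt := hbs t ht0.le (by linarith)
  have hbu := hbs (κ0 + t) hu0 hu1
  have s0 : CG * t ≤ min δk 1 := hbt 0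
  have s1 : cE * t ≤ 1 := hbt 1
  have s2 : CC * (κ0 + t) ≤ δL := hbu 2
  have s3 : ck * (R2 * CC * RP) * (κ0 + t) ≤ 1 := hbu 3
  have s4 : R2 * CC * RP * (κ0 + t) ≤ δk := hbu 4
  have s5 : R2 ^ 2 * (ck * (R2 * CC * RP)) * (κ0 + t) ≤ δL := hbu 5
  have s6 : ck * (R2 * CC * RP) * (κ0 + t) ≤ ε := hbu 6
  have s7 : RP * CC * RP * (κ0 + t) ≤ 1 / 2 := hbu 7
  have s8 : (RP * CC * (RP + 1) + RP * (R2 * (ck * (R2 * CC * RP)) * R2) * (RP + 1) * (RP + 1)) *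
    (κ0 + t) ≤ 1 / 2 := hbu 8
  have hin : ∀ s, d.q s ≤ 1 → y + ρ • s ∈ Metric.closedBall z0 r0 := by
    intro s hs
    rw [Metric.mem_closedBall, dist_eq_norm]
    rw [Metric.mem_closedBall, dist_eq_norm] at hy0
    have h1 : ρ * DD ≤ r0 / 2 := by
      rw [le_div_iff₀ (by positivity)] at hρ0'
      linarith
    calc ‖y + ρ • s - z0‖ = ‖(y - z0) + ρ • s‖ := by congr 1; abel
      _ ≤ ‖y - z0‖ + ‖ρ • s‖ := norm_add_le _ _
      _ ≤ r0 / 2 + ρ * DD := by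
          rw [norm_smul, Real.norm_of_nonneg hρ0.le]
          exact add_le_add hy0 (mul_le_mul_of_nonneg_left (hDs s hs) hρ0.le)
      _ ≤ r0 := by linarith
  have hFit : Fit c d y ρ := fun s hs => hball (hin s hs)
  obtain ⟨H, hRH, hNH, hNH', hOff⟩ := hG5 y hyG ρ t hρ0 hρG' htt
  obtain ⟨hdiff, hmap, hid, hder⟩ := hGA1 N K M c p hp d th2 hAng2 y ρ hρ0 hFit t
  obtain ⟨hdiff', hmap', hid', hder'⟩ := hGA1 N K M c p hp d th2 hAng2 y ρ hρ0 hFit (-t)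
  rw [neg_neg] at hdiff'
  have hd1 : IsDiffeo 1 M (hMa c d th2 y ρ t) (hMa c d th2 y ρ (-t)) :=
    hdiff.of_le' (by exact_mod_cast le_top)
  have hd1' : IsDiffeo 1 M (hMa c d th2 y ρ (-t)) (hMa c d th2 y ρ t) :=
    hdiff'.of_le' (by exact_mod_cast le_top)
  have hvh : Preserves M m (hMa c d th2 y ρ t) :=
    hGA3 N K M m c p hSV hp d th2 hAng2 y ρ hρ0 hFit hvol t
  have hvh' : Preserves M m (hMa c d th2 y ρ (-t)) :=
    hGA3 N K M m c p hSV hp d th2 hAng2 y ρ hρ0 hFit hvol (-t)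
  obtain ⟨eH, hRg⟩ := hcomp H _ _ hd1 hRH
  obtain ⟨hRHi, -⟩ := hT5 K M _ _ H hd1 hRH
  obtain ⟨eH', hRg'⟩ := hcomp H.inv _ _ hd1' hRHi
  have ht' : |t| = t := abs_of_pos ht0
  -- bounds for `H`
  have hTe : ∀ x, ‖H.T x‖ ≤ RT := fun x => by rw [eH]; exact hRT x
  have hAR : ∀ x, ‖H.A x‖ ≤ R2 := fun x => by
    have h1 := norm_le_norm_add_norm_sub' (H.A x) (H.T x)
    have h2 := (hNH x).2.1
    rw [ht'] at h2
    have h3 := s0.trans (min_le_right _ _)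
    linarith [hTe x]
  have hBR : ∀ x, ‖H.B x‖ ≤ R2 := fun x => by
    have h1 := norm_le_norm_add_norm_sub' (H.B x) (H.T x)
    have h2 := (hNH x).2.2
    rw [ht'] at h2
    have h3 := s0.trans (min_le_right _ _)
    linarith [hTe x]
  have hCGt : CG * |t| ≤ δk := by rw [ht']; exact s0.trans (min_le_left _ _)
  have hN1 : Near H δk := fun x => ⟨(hNH x).1.trans hCGt, (hNH x).2.1.trans hCGt,
    (hNH x).2.2.trans hCGt⟩
  have hN2 : Near H.inv δk := fun x => ⟨(hNH' x).1.trans hCGt, (hNH' x).2.1.trans hCGt,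
    (hNH' x).2.2.trans hCGt⟩
  have hPT : ∀ (x : M) i, P i x * H.T x = P i x := fun x i => by rw [eH]; exact hspl.PT x i
  have hTP : ∀ (x : M) i, H.T x * P i x = P i x := fun x i => by rw [eH]; exact hspl.TP x i
  have hpu : ∀ (x : M) (s : E N), d.q s ≤ 1 → (x : E K) = c.ψ (y + ρ • s) →
      Pu c P d y ρ t H x s := fun x s hs hx =>
    pu_mk hT1 hPH.proj hPH.sum hRH hFit hmap hder hder' hqH hHH x s hs hx
  have hbij := bs_bij hRH hmap hmap' hqH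
  -- the distance of the splittings
  have hκ : ∀ (x : M) i, ‖QH P H x i - P i x‖ ≤ CC * (κ0 + t) := by
    intro x i
    by_cases hx : ∃ s, d.q s ≤ 1 ∧ (x : E K) = c.ψ (y + ρ • s)
    · obtain ⟨s, hs, hxs⟩ := hx
      have h1 := (hpu x s hs hxs).bd (R0 := R0) (RP := RP) (κ0 := κ0) (μ := cE * t) hR00
        ((hnorm _ (hin s hs)).1.trans (by linarith)) ((hnorm _ (hin s hs)).2.trans (by linarith))
        ((hTe x).trans (by linarith)) hRP (by positivity) s1 (hosc s hs)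
        (by rw [← ht'] ; exact (hTEa |t| s (by rw [abs_abs]; exact htt)).2.trans (by rw [abs_abs]))
        (by
          have := (hTEa (-t) (d.Ha th2 t s) htt').2
          rwa [abs_neg, ht'] at this) hPT hTP i
      refine h1.trans ?_
      rw [hCC]
      have h2 : 0 ≤ R0 ^ 3 := by positivity
      have h3 : 0 ≤ 3 * (R0 * RP * R0) * cE * κ0 := by positivity
      have h4 : 4 * κ0 + 3 * (R0 * RP * R0) * (cE * t) ≤
          (4 + 3 * (R0 * RP * R0) * cE) * (κ0 + t) := by nlinarith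
      calc R0 ^ 3 * (4 * κ0 + 3 * (R0 * RP * R0) * (cE * t)) ≤
          R0 ^ 3 * ((4 + 3 * (R0 * RP * R0) * cE) * (κ0 + t)) := mul_le_mul_of_nonneg_left h4 h2
        _ = _ := by ring
    · rw [QH_off hPT hTP x (hOff x hx), sub_self, norm_zero]
      positivity
  have hκ0 : 0 ≤ CC * (κ0 + t) := by positivity
  have hoffd := off_of_QH hPH.proj hPT hTP hκ hκ0 hRP hAR hBR
  have hoffd2 : ∀ (x : M) (i j : Fin 3), i ≠ j →
      ‖P i (H.f x) * H.A x * P j x‖ ≤ R2 * CC * RP * (κ0 + t) ∧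
      ‖P i x * H.B (H.f x) * P j (H.f x)‖ ≤ R2 * CC * RP * (κ0 + t) := fun x i j hij => by
    obtain ⟨h1, h2⟩ := hoffd x i j hij
    exact ⟨h1.trans (le_of_eq (by ring)), h2.trans (le_of_eq (by ring))⟩
  have hoffd' := offd_inv hoffd2
  have hκk0 : 0 ≤ R2 * CC * RP * (κ0 + t) := by positivity
  obtain ⟨Q, Γ, o⟩ := hkey H eH hN1 _ hκk0 s4 hoffd2
  obtain ⟨Q', Γ', o'⟩ := hkey H.inv eH' hN2 _ hκk0 s4 hoffd'
  -- vanishing of `Lam`
  have hckε : ck * (R2 * CC * RP * (κ0 + t)) ≤ ε := by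
    rw [← mul_assoc]
    exact s6
  have hSid : Small r ε M (id : E K → E K) :=
    ⟨fun _ => 0, contDiff_const, fun x _ => by simp, fun k _ x => by
      simpa using hε.le⟩
  have hmid : Preserves M m (id : E K → E K) := by
    intro A hA
    rw [preimage_id]
    exact measure_inter_conull hSV.null
  have z1 := lam_zeroJ hMS hT5 hSV hf1 hcon (IsDiffeo.id' ∞ M) hmid hSid hSid
    (C := C) hC hspl hdom (fun x i => by rw [sub_self, norm_zero]; exact hε.le)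
  have z2 := lam_zeroJ hMS hT5 hSV hf1 hcon hdiff hvh hsm hsm' hRg o.spl o.dom
    (fun x i => (o.close x i).trans hckε)
  have z3 := lam_zeroJ hMS hT5 hSV hf1 hcon hdiff' hvh' hsm' hsm hRg' o'.spl o'.dom
    (fun x i => (o'.close x i).trans hckε)
  have hE := hE3 M K C H eH eH' (fun x => P 1 x) (Q 1) (Q' 1) Γ Γ' (m.comap ((↑) : M → E K))
    (hspl.sub 1) (o.spl.sub 1) (o'.spl.sub 1) o.lift o'.lift (hMSp f C.f hfm hC.rf)
    (hMSp _ H.f hvh hRH.rf)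
  have hE' : (0 : ℝ) = ∫ x : M, Real.log |LinearMap.det ((1 + ZZ P H Γ Γ' x : End K) :
      E K →ₗ[ℝ] E K)| ∂(m.comap ((↑) : M → E K)) := by
    have h1 : Lam (C.comp H eH) (Q 1) (m.comap ((↑) : M → E K)) +
        Lam (C.comp H.inv eH') (Q' 1) (m.comap ((↑) : M → E K))
        - 2 * Lam C (fun x => P 1 x) (m.comap ((↑) : M → E K)) = 0 := by
      rw [show Lam C (fun x : M => P 1 x) (m.comap ((↑) : M → E K)) = 0 from z1,
        show Lam (C.comp H eH) (Q 1) (m.comap ((↑) : M → E K)) = 0 from z2,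
        show Lam (C.comp H.inv eH') (Q' 1) (m.comap ((↑) : M → E K)) = 0 from z3]
      ring
    rw [← h1]
    exact hE
  have hfinal := hb_core5 hOB hTR hRS hINT hMS hTF hSV hfm hPH hC eH eH' hvol hp hqc hρ0 hFit hRH hvh
    hOff hbij hpu hPT hTP hspl.cont o o' hck hlk0 hlk1 hκk0 (R2 := R2) (R := RP) (cc := cc)
    (δ := δL) (κ := CC * (κ0 + t)) hR21 hAR hBR hRP hκ s2 hκ0 (by linarith)
    (by
      rw [← mul_assoc, ← mul_assoc]
      rw [← mul_assoc] at s5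
      exact s5)
    (by
      have : RP * (CC * (κ0 + t)) * RP = RP * CC * RP * (κ0 + t) := by ring
      linarith)
    (s2.trans hδL1)
    (by
      rw [← mul_assoc]
      exact s3)
    hRA1 hCA hCB hspl
    (by
      have : RP * (CC * (κ0 + t)) * (RP + 1) + RP * (R2 * (ck * (R2 * CC * RP * (κ0 + t))) * R2) *
        (RP + 1) * (RP + 1) = (RP * CC * (RP + 1) + RP * (R2 * (ck * (R2 * CC * RP)) * R2) *
        (RP + 1) * (RP + 1)) * (κ0 + t) := by ring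
      linarith)
    hLCa hE' N0 w hw0 hw
  refine hfinal.trans (le_of_eq ?_)
  ring

end Pool.Agent.Helper56.RZ
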