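import Pool.Agent.Helper56.RZ.FinZ2
import Pool.Agent.Helper25.RZ.DT
import Pool.Agent.Helper15.RZ.RA
import Pool.Agent.Helper22.RZ.RCC
import Pool.Agent.Helper24.RZ.JM
import Pool.Agent.Helper27.RZ.RD
import Pool.Agent.Helper28.RZ.PCN
import Pool.Agent.Helper77.RZ.DI
import Pool.Agent.Helper81.RZ.FB
import Pool.Agent.Helper83.RZ.JV
import Pool.Agent.Helper88.RZ.RB
import Pool.Agent.Helper14.RZ.DF2
import Pool.Agent.Helper31.RZ.GF2
import Pool.Agent.Helper54.RZ.RE2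
import Pool.Agent.Helper77.RZ.PR
import Pool.Agent.Helper79.RZ.CC
import Pool.Agent.Helper81.RZ.TC
import Pool.Agent.Helper85.RZ.PG

/-!
# Project RZ, fourth theorem: the final statement
-/

set_option autoImplicit false

open Set Filter Topology MeasureTheory

open scoped ContDiff

namespace Pool.Agent.Helper56.RZ

theorem gf2F : StmtGF2 := by
  have hRA := Pool.Agent.Helper15.RZ.ra Pool.Agent.Helper28.RZ.pcn
  have hDI := Pool.Agent.Helper77.RZ.di
  have hRB := Pool.Agent.Helper88.RZ.rb hRA hDI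
  have hRD := Pool.Agent.Helper27.RZ.rd Pool.Agent.Helper83.RZ.jv Pool.Agent.Helper24.RZ.jm
  have hRCC := Pool.Agent.Helper22.RZ.rcc hRA hDI hRB hRD Pool.Agent.Helper24.RZ.jm
  exact Pool.Agent.Helper31.RZ.gf2 (Pool.Agent.Helper54.RZ.re2 hRCC)
    (Pool.Agent.Helper14.RZ.df2 Pool.Agent.Helper57.RZ.t1) Pool.Agent.Helper81.RZ.fb

theorem prF : StmtPR := Pool.Agent.Helper77.RZ.pr Pool.Agent.Helper85.RZ.pg
  Pool.Agent.Helper79.RZ.cc Pool.Agent.Helper81.RZ.tc Pool.Agent.Helper57.RZ.t1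

theorem finalS4 : ∀ (N K r : ℕ) (s : WithTop ℕ∞) (M : Set (E K)) (m : Measure (E K))
    (f f' : E K → E K) (P : Fin 3 → E K → End K) (x : E K), 2 ≤ r → (r : WithTop ℕ∞) ≤ s → s ≤ ∞ →
    ConsPH N K s M m f f' P → x ∈ M → (r = 2 ∨ 2 * r - 2 ≤ strongSum P x ∨ ∃ α : ℝ, α ≤ 1 ∧
      (2 * (r : ℝ) - 2 - strongSum P x) / (2 * r) < α ∧ HolderNear M P x α) →
    Approximable (N := N) r s M m f P
      (fun g g' Q => centralIntegral M m g Q ≠ 0 ∧ ¬ AllZero M m g g' Q) := by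
  intro N K r s M m f f' P x hr hrs hs h hx hc
  refine finS Pool.Agent.Helper25.RZ.dt Pool.Agent.Helper85.RZ.pg gf2F prF N K r s M m f f' P x
    hr hrs hs h hx ?_
  rcases hc with h1 | h1 | h1
  · have h2 := sum_pos h.hyp.ph hx
    exact Or.inl (by omega)
  · exact Or.inl (by omega)
  · exact Or.inr h1

end Pool.Agent.Helper56.RZ
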