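import Mathlib

/-!
# Project RZ: constants
-/

set_option autoImplicit false

namespace Pool.Agent.Helper56.RZ

theorem pow_small {ρ : ℝ} {r k : ℕ} (h0 : 0 < ρ) (h1 : ρ ≤ 1) (hr : 1 ≤ r) (hk : k ≤ r) :
    ρ ^ (r - 1) * ρ * (ρ⁻¹) ^ k ≤ 1 := by
  have e : ρ ^ (r - 1) * ρ = ρ ^ (r - k) * ρ ^ k := by
    rw [← pow_succ, ← pow_add]
    congr 1
    omega
  rw [e, mul_assoc, ← mul_pow, mul_inv_cancel₀ h0.ne', one_pow, mul_one]
  exact pow_le_one₀ h0.le h1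

theorem amp {ρ a : ℝ} {r : ℕ} (h0 : 0 < ρ) (h1 : ρ ≤ 1) (hr : 2 ≤ r) (ha : 0 < a) (ha1 : a ≤ 1) :
    0 < a * ρ ^ (r - 1) ∧ a * ρ ^ (r - 1) ≤ ρ := by
  have hp : 0 < ρ ^ (r - 1) := by positivity
  refine ⟨by positivity, ?_⟩
  have h2 : ρ ^ (r - 1) ≤ ρ := by
    have h3 := pow_le_pow_of_le_one h0.le h1 (show 1 ≤ r - 1 by omega)
    rwa [pow_one] at h3
  calc a * ρ ^ (r - 1) ≤ 1 * ρ ^ (r - 1) := mul_le_mul_of_nonneg_right ha1 hp.le
    _ = ρ ^ (r - 1) := one_mul _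
    _ ≤ ρ := h2

theorem consts {ck lk C1 cL cD δk ε I0 v0 δD : ℝ} (hck : 1 ≤ ck) (hlk0 : 0 < lk) (hlk1 : lk < 1)
    (hC1 : 0 ≤ C1) (hcL : 1 ≤ cL) (hδk : 0 < δk) (hε : 0 < ε) (hI : 0 < I0) (hv0 : 0 ≤ v0)
    (hδD : 0 < δD) : ∃ (η b : ℝ) (J : ℕ), 0 < η ∧ η ≤ 1 ∧ 0 < b ∧ b ≤ 1 ∧
    ck * lk ^ J * C1 ≤ η ∧ ∀ t, 0 < t → t ≤ b → C1 * t ≤ δk ∧ ck * (C1 * t) ≤ ε ∧
      cL * t ^ 2 ≤ 1 / 2 ∧ cL * t ^ 2 ≤ δD ∧
      (cL * (η + t) + |cD| * cL ^ 2 * t) * v0 ≤ I0 / 2 := by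
  have hcL0 : 0 < cL := by linarith
  have hck0 : 0 < ck := by linarith
  set c3 : ℝ := (cL + |cD| * cL ^ 2) * v0 + 1 with hc3
  have h1 : 0 ≤ (cL + |cD| * cL ^ 2) * v0 := by positivity
  have hc30 : 0 < c3 := by linarith
  have hLv : cL * v0 ≤ c3 := by
    have h2 : 0 ≤ |cD| * cL ^ 2 * v0 := by positivity
    rw [hc3, add_mul]
    linarith
  set η : ℝ := min 1 (I0 / (4 * c3)) with hη
  have hη0 : 0 < η := lt_min one_pos (by positivity)
  have hηI : c3 * η ≤ I0 / 4 := by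
    have h2 : η ≤ I0 / (4 * c3) := min_le_right _ _
    rw [le_div_iff₀ (by positivity)] at h2
    linarith
  obtain ⟨J, hJ⟩ := exists_pow_lt_of_lt_one (show 0 < η / (ck * C1 + 1) by positivity) hlk1
  have hJ' : ck * lk ^ J * C1 ≤ η := by
    rw [lt_div_iff₀ (by positivity)] at hJ
    have hl : 0 ≤ lk ^ J := by positivity
    have h2 : ck * lk ^ J * C1 = lk ^ J * (ck * C1) := by ring
    rw [h2]
    have h3 : lk ^ J * (ck * C1 + 1) = lk ^ J * (ck * C1) + lk ^ J := by ring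
    linarith
  have hq1 : 0 < δk / (C1 + 1) := by positivity
  have hq2 : 0 < ε / (ck * C1 + 1) := by positivity
  have hq3 : 0 < 1 / (2 * cL) := by positivity
  have hq4 : 0 < δD / cL := by positivity
  have hq5 : 0 < I0 / (4 * c3) := by positivity
  refine ⟨η, min (min (min 1 (δk / (C1 + 1))) (min (ε / (ck * C1 + 1)) (1 / (2 * cL))))
    (min (δD / cL) (I0 / (4 * c3))), J, hη0, min_le_left _ _, ?_, ?_, hJ', ?_⟩
  · exact lt_min (lt_min (lt_min one_pos hq1) (lt_min hq2 hq3)) (lt_min hq4 hq5)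
  · exact (min_le_left _ _).trans ((min_le_left _ _).trans (min_le_left _ _))
  intro t ht0 htb
  have a0 : t ≤ 1 := htb.trans ((min_le_left _ _).trans ((min_le_left _ _).trans (min_le_left _ _)))
  have a1 : t ≤ δk / (C1 + 1) :=
    htb.trans ((min_le_left _ _).trans ((min_le_left _ _).trans (min_le_right _ _)))
  have a2 : t ≤ ε / (ck * C1 + 1) :=
    htb.trans ((min_le_left _ _).trans ((min_le_right _ _).trans (min_le_left _ _)))
  have a3 : t ≤ 1 / (2 * cL) :=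
    htb.trans ((min_le_left _ _).trans ((min_le_right _ _).trans (min_le_right _ _)))
  have a4 : t ≤ δD / cL := htb.trans ((min_le_right _ _).trans (min_le_left _ _))
  have a5 : t ≤ I0 / (4 * c3) := htb.trans ((min_le_right _ _).trans (min_le_right _ _))
  rw [le_div_iff₀ (by positivity)] at a1 a2 a3 a4 a5
  have ht2 : cL * t ^ 2 ≤ t * cL := by
    rw [sq, ← mul_assoc, mul_comm cL t]
    exact mul_le_of_le_one_right (by positivity) a0
  refine ⟨?_, ?_, ?_, ?_, ?_⟩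
  · have : t * (C1 + 1) = C1 * t + t := by ring
    linarith
  · have : t * (ck * C1 + 1) = ck * (C1 * t) + t := by ring
    linarith
  · linarith
  · linarith
  · have h2 : (cL * (η + t) + |cD| * cL ^ 2 * t) * v0
        = cL * v0 * η + (cL + |cD| * cL ^ 2) * v0 * t := by ring
    have h3 : cL * v0 * η ≤ c3 * η := mul_le_mul_of_nonneg_right hLv hη0.le
    have h4 : (cL + |cD| * cL ^ 2) * v0 * t ≤ c3 * t :=
      mul_le_mul_of_nonneg_right (by linarith) ht0.le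
    have h5 : c3 * t ≤ I0 / 4 := by linarith
    rw [h2]
    linarith

end Pool.Agent.Helper56.RZ
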