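import Pool.Agent.Helper56.RZ.FinE

/-!
# Project RZ: good points
-/

set_option autoImplicit false

open Set Filter Topology MeasureTheory

open scoped ContDiff

namespace Pool.Agent.Helper56.RZ

theorem Rates.inv {X : Type} [TopologicalSpace X] {K : ℕ} {D : Coc X K}
    {P : Fin 3 → X → End K} {a b c : X → ℝ} {C0 : ℝ} (h : Rates D P a b c C0) :
    Rates D.inv (fun i => P (2 - i)) (fun x => b (D.f.symm x)) (fun x => a (D.f.symm x))
      (fun x => c (D.f.symm x)) C0 := by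
  have e : ∀ x, D.f (D.f.symm x) = x := fun x => D.f.apply_symm_apply x
  refine ⟨h.contb.comp D.f.symm.continuous, h.conta.comp D.f.symm.continuous,
    h.contc.comp D.f.symm.continuous, fun x => h.cpos _, fun x => ?_, fun x => ?_, fun x => ?_,
    fun x => ?_, fun x => ?_, fun x => ?_⟩
  · have := h.nB (D.f.symm x)
    rwa [e] at this
  · exact h.nA (D.f.symm x)
  · have := h.B2 (D.f.symm x)
    rwa [e] at this
  · exact h.A0 (D.f.symm x)
  · have := h.B1 (D.f.symm x)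
    rw [e, add_comm (P 1 x)] at this
    exact this
  · have := h.A1 (D.f.symm x)
    rw [add_comm (P 0 _)] at this
    exact this

theorem Lin.inv {K : ℕ} {M : Set (E K)} {D : Coc M K} (h : Lin D) : Lin D.inv := by
  obtain ⟨L, hL, h3⟩ := h.lip
  exact ⟨h.lin', h.lin, L, hL, fun x y => ⟨(h3 x y).2.1, (h3 x y).1, (h3 x y).2.2⟩⟩

/-- reversed splitting -/
theorem Spl.inv' {X : Type} [TopologicalSpace X] {K : ℕ} {C : Coc X K} {P : Fin 3 → X → End K}
    (h : Spl C P) : Spl C.inv (fun i => P (2 - i)) := by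
  refine ⟨fun i => h.cont _, fun x i j => ?_, fun x => ?_, fun x i => h.ne x _, fun x i => ?_⟩
  · rw [h.proj]
    have : ((2 : Fin 3) - i = 2 - j) = (i = j) := by
      fin_cases i <;> fin_cases j <;> decide
    simp only [this]
  · have := h.sum x
    rw [add_comm (P 0 x), add_assoc, add_comm (P 0 x), ← add_assoc, add_comm (P 1 x)] at this
    exact this
  · have h1 : ∀ (Q : X → End K), Sub C Q → C.B x * Q x = Q (C.f.symm x) * C.B x := by
      intro Q hQ
      exact (Pool.Agent.Helper50.RZ.sub_inv C Q hQ).inv x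
    exact h1 (P (2 - i)) (h.sub (2 - i))

/-- positive part of the logarithm of the norm, continuous if the argument does not vanish -/
theorem cont_poslog {X : Type} [TopologicalSpace X] {K : ℕ} {Z : X → End K} (hZ : Continuous Z)
    (h0 : ∀ x, Z x ≠ 0) : Continuous (fun x => max 0 (Real.log ‖Z x‖)) :=
  continuous_const.max (hZ.norm.log fun x => norm_ne_zero_iff.2 (h0 x))

/-- a point is not in two small sets and satisfies an a.e. property -/
theorem exists_pt {X : Type} [MeasurableSpace X] (μ : Measure X) [IsFiniteMeasure μ]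
    (S T : Set X) (t : ℝ) (hS : μ S ≤ ENNReal.ofReal t)
    (hT : μ T ≤ ENNReal.ofReal t) (ht : 0 ≤ t) (ht2 : 2 * t < (μ univ).toReal) (p : X → Prop)
    (hp : ∀ᵐ x ∂μ, p x) : ∃ x, x ∉ S ∧ x ∉ T ∧ p x := by
  by_contra hcon
  push Not at hcon
  have h1 : univ ⊆ S ∪ T ∪ {x | ¬ p x} := by
    intro x _
    by_cases hxS : x ∈ S
    · exact Or.inl (Or.inl hxS)
    · by_cases hxT : x ∈ T
      · exact Or.inl (Or.inr hxT)
      · exact Or.inr (hcon x hxS hxT)
  have h2 : μ univ ≤ ENNReal.ofReal t + ENNReal.ofReal t + 0 := by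
    refine (measure_mono h1).trans ((measure_union_le _ _).trans (add_le_add ?_ ?_))
    · exact (measure_union_le _ _).trans (add_le_add hS hT)
    · exact (ae_iff.1 hp).le
  rw [add_zero, ← ENNReal.ofReal_add ht ht] at h2
  have h3 := ENNReal.toReal_mono ENNReal.ofReal_ne_top h2
  rw [ENNReal.toReal_ofReal (by linarith)] at h3
  linarith

/-- good points from small sums of `c` -/
theorem good_of (hBS : StmtBS) {X : Type} [MetricSpace X] [CompactSpace X] {K N : ℕ}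
    {D : Coc X K} {P : Fin 3 → X → End K} {a b c : X → ℝ} {C0 R κ : ℝ} (hspl : Spl D P)
    (hr : Rates D P a b c C0) (hC0 : 0 ≤ C0) (hR : 1 ≤ R) (hPR : ∀ i x, ‖P i x‖ ≤ R) (hκ : 0 < κ)
    (h1 : ∀ (n : ℕ) (x : X), κ ≤ ‖D.An n x * P 0 x‖ * ‖D.An n x * P 2 x‖ *
      ‖D.An n x * P 1 x‖ ^ (N - 2))
    (h2 : ∀ (n : ℕ) (x : X), κ ≤ ‖D.inv.An n x * P 0 x‖ * ‖D.inv.An n x * P 2 x‖ *
      ‖D.inv.An n x * P 1 x‖ ^ (N - 2)) :
    ∃ C' : ℝ, 0 ≤ C' ∧ ∀ Λ ε ε1 : ℝ, 0 ≤ Λ → 0 < ε → 0 < ε1 → N * ε1 ≤ ε / 2 → ε1 ≤ ε →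
      (N + 2) * (C0 + Real.log R) ≤ ε / 2 * Λ → ∀ x0 : X,
      (∀ n : ℕ, 1 ≤ n → ∑ j ∈ Finset.range n, c (D.f^[j] x0) ≤ ε1 * Λ * n) →
      GoodF D a b c Λ ε C' x0 := by
  obtain ⟨C', hC', h⟩ := hBS X K N D P a b c C0 R κ hspl hr hC0 hR hPR hκ h1 h2
  refine ⟨C', hC', fun Λ ε ε1 hΛ hε hε1 hN hee hlog x0 hsum n => ?_⟩
  have hs : ∑ j ∈ Finset.range n, c (D.f^[j] x0) ≤ ε1 * Λ * n := by
    rcases Nat.eq_zero_or_pos n with h0 | h0
    · rw [h0]; simp
    · exact hsum n h0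
  have hn : (0 : ℝ) ≤ n := Nat.cast_nonneg n
  have hnΛ : 0 ≤ n * Λ := by positivity
  have e1 : ε1 * Λ * n ≤ ε * (n * Λ) := by
    have : ε1 * (n * Λ) ≤ ε * (n * Λ) := mul_le_mul_of_nonneg_right hee hnΛ
    linarith [show ε1 * Λ * n = ε1 * (n * Λ) by ring]
  refine ⟨hs.trans e1, (h n x0).trans ?_⟩
  have e2 : N * ∑ j ∈ Finset.range n, c (D.f^[j] x0) ≤ ε / 2 * (n * Λ) := by
    calc N * ∑ j ∈ Finset.range n, c (D.f^[j] x0) ≤ N * (ε1 * Λ * n) :=
          mul_le_mul_of_nonneg_left hs (Nat.cast_nonneg N)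
      _ = (N * ε1) * (n * Λ) := by ring
      _ ≤ ε / 2 * (n * Λ) := mul_le_mul_of_nonneg_right hN hnΛ
  have e3 : n * (N + 2) * (C0 + Real.log R) ≤ ε / 2 * (n * Λ) := by
    calc n * (N + 2) * (C0 + Real.log R) = n * ((N + 2) * (C0 + Real.log R)) := by ring
      _ ≤ n * (ε / 2 * Λ) := mul_le_mul_of_nonneg_left hlog hn
      _ = ε / 2 * (n * Λ) := by ring
  linarith

theorem mass_pos (hMS : StmtMS) {N K : ℕ} {M : Set (E K)} {m : Measure (E K)}
    (hSV : SmoothVolume N K M m) :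
    0 < ((m.comap ((↑) : M → E K)) univ).toReal := by
  obtain ⟨-, hfin, -, hint, -⟩ := hMS N K M m hSV
  have hfin' : IsFiniteMeasure (m.comap ((↑) : M → E K)) := hfin
  have h1 := hint (fun _ => 1)
  rw [integral_const, integral_const, smul_eq_mul, smul_eq_mul, mul_one, mul_one,
    measureReal_def, measureReal_def] at h1
  rw [h1]
  obtain ⟨x, hx⟩ := hSV.nonempty
  obtain ⟨c, hxW, hvol⟩ := hSV.chart x hx
  have hV := c.mapsφ x ⟨hx, hxW⟩
  have h2 := hvol c.V c.openV.measurableSet le_rfl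
  have h3 : 0 < volume c.V := c.openV.measure_pos volume ⟨_, hV⟩
  rw [← h2] at h3
  exact ENNReal.toReal_pos (lt_of_lt_of_le h3 (measure_mono (subset_univ _))).ne' hSV.finite

end Pool.Agent.Helper56.RZ
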