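import Pool.Agent.Helper56.RZ.FinD

/-!
# Project RZ: the main theorem from the theorem for perturbations `f ∘ h`
-/

set_option autoImplicit false

open Set Filter Topology MeasureTheory

open scoped ContDiff

namespace Pool.Agent.Helper56.RZ

/-- partial hyperbolicity of the inverse -/
theorem ph_inv (hT4 : StmtT4) (hT5 : StmtT5) (hSW : StmtSW) {K : ℕ} {M : Set (E K)}
    {f f' : E K → E K} {P : Fin 3 → E K → End K} (hf : IsDiffeo 1 M f f')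
    (hPH : PH M f f' P) :
    ∃ Q : Fin 3 → E K → End K, (∀ i, ∀ x ∈ M, Q i x = P (2 - i) x) ∧ PH M f' f Q := by
  have hPi : ContinuousOn (Pi M) M :=
    (((hPH.cont 0).add (hPH.cont 1)).add (hPH.cont 2)).congr fun x hx => (hPH.sum x hx).symm
  obtain ⟨C, hC⟩ := hT4 K M f f' hPi hf
  obtain ⟨hCinv, -, -, hto, -⟩ := hT5 K M f f' C hf hC
  obtain ⟨hspl, n, hdom⟩ := hto P hPH
  obtain ⟨hs, hd⟩ := hSW M K C _ n hspl hdom
  obtain ⟨-, -, -, -, hb⟩ := hT5 K M f' f C.inv hf.symm hCinv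
  obtain ⟨Q, hQ, hQPH⟩ := hb _ n hs hd
  exact ⟨Q, fun i x hx => hQ i ⟨x, hx⟩, hQPH⟩

theorem two_sub (i : Fin 3) : (2 : Fin 3) - (2 - i) = i := by
  fin_cases i <;> rfl

theorem mainF (hM0 : StmtMainJ) (hJ1 : StmtJ1) (hJ2 : StmtJ2) (hJ3 : StmtJ3) (hE1 : StmtE1)
    (hT4 : StmtT4) (hT5 : StmtT5) (hSW : StmtSW) (hMS : StmtMS) (hCR : StmtCR) : StmtFinal := by
  intro N K r s α M m f f' P hr hrs hs hα1 hα hSV hfs hfm hPH hHol ι _ c L hL ε hε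
  have hf : IsDiffeo r M f f' := hfs.of_le' hrs
  have hf1 : IsDiffeo 1 M f f' := hf.of_le' (by exact_mod_cast (by omega : 1 ≤ r))
  obtain ⟨hMSd, hfin, hMSp, -, -⟩ := hMS N K M m hSV
  obtain ⟨hfm', -⟩ := hMSd f f' hf1 hfm
  obtain ⟨P0, hP0, hPH0⟩ := ph_inv hT4 hT5 hSW hf1 hPH
  obtain ⟨ε', hε', hcr⟩ := hCR N K r M f hf.smooth ι c L hL ε hε
  have hHol' : HolderSomewhere M P0 α := by
    obtain ⟨U, hU, hne, Cα, hH⟩ := hHol
    refine ⟨U, hU, hne, Cα, fun x hx y hy i => ?_⟩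
    rw [hP0 i x hx.1, hP0 i y hy.1]
    exact hH x hx y hy _
  obtain ⟨h, h', Q, hh, hhm, -, hs', hQPH, hQc, hnot⟩ := hM0 N K r α M m f' f P0 hr hα1 hα hSV
    hf.symm hfm' hPH0 hHol' (min ε ε') (lt_min hε hε')
  have hhs : IsDiffeo s M h h' := hh.of_le' hs
  have hh1 : IsDiffeo 1 M h h' := hh.of_le' (by exact_mod_cast le_top)
  have hg : IsDiffeo s M (h' ∘ f) (f' ∘ h) := hhs.symm.comp' hfs
  have hg1 : IsDiffeo 1 M (h' ∘ f) (f' ∘ h) := hh1.symm.comp' hf1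
  obtain ⟨Q1, hQ1, hPH1⟩ := ph_inv hT4 hT5 hSW hg1.symm hQPH
  obtain ⟨w, hw1, hw2, hw3⟩ := hs'
  have hgm : Preserves M m (h' ∘ f) :=
    (hMSd h' h hh1.symm (hMSd h h' hh1 hhm).1).2 f f' hf1 hfm
  have hgm' : Preserves M m (f' ∘ h) := (hMSd f' f hf1.symm hfm').2 h h' hh1 hhm
  have hcM : CompactSpace M := isCompact_iff_compactSpace.1 hSV.compact
  have hfin' : IsFiniteMeasure (m.comap ((↑) : M → E K)) := hfin
  -- the cocycle of the inverse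
  have hPi : ContinuousOn (Pi M) M :=
    (((hPH.cont 0).add (hPH.cont 1)).add (hPH.cont 2)).congr fun x hx => (hPH.sum x hx).symm
  obtain ⟨C, hC⟩ := hT4 K M (f' ∘ h) (h' ∘ f) hPi hg1.symm
  obtain ⟨hCinv, -, -, hto, -⟩ := hT5 K M (f' ∘ h) (h' ∘ f) C hg1.symm hC
  obtain ⟨hspl, n, hdom⟩ := hto Q hQPH
  have e1 : Lam C (fun x : M => Q 1 x) (m.comap ((↑) : M → E K)) = CInt M m (f' ∘ h) Q :=
    cint_eq hMS hSV hC Q (fun x : M => Q 1 x) (fun _ => rfl)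
  have e2 : Lam C.inv (fun x : M => Q 1 x) (m.comap ((↑) : M → E K)) = CInt M m (h' ∘ f) Q1 :=
    cint_eq hMS hSV hCinv Q1 (fun x : M => Q 1 x) (fun x => by
      rw [hQ1 1 x x.2]
      rfl)
  have hmp : MeasurePreserving C.f (m.comap ((↑) : M → E K)) (m.comap ((↑) : M → E K)) :=
    hMSp (f' ∘ h) C.f hgm' hC.rf
  have e3 := lam_inv hJ1 hJ2 hJ3 C (fun x : M => Q 1 x) (m.comap ((↑) : M → E K))
    (hspl.sub 1) hmp
  have hne : CInt M m (h' ∘ f) Q1 ≠ 0 := by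
    rw [← e2, e3, e1]
    exact neg_ne_zero.2 hnot
  refine ⟨h' ∘ f, f' ∘ h, Q1, hg, hgm, ?_, hPH1, ?_, hne, ?_⟩
  · exact hcr w hw1 (fun k hk x => (hw3 k hk x).trans (min_le_right _ _)) (h' ∘ f)
      fun x hx => hw2 (f x) (hf.maps hx)
  · intro x hx i
    have h1 := (hQc x hx (2 - i)).trans (min_le_left ε ε')
    rw [hP0 _ x hx, two_sub] at h1
    rw [hQ1 i x hx]
    exact h1
  · intro hae
    apply hne
    obtain ⟨-, -, -, hto1, -⟩ := hT5 K M (h' ∘ f) (f' ∘ h) C.inv hg1 hCinv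
    obtain ⟨hspl1, n1, hdom1⟩ := hto1 Q1 hPH1
    have hmp1 : MeasurePreserving C.inv.f (m.comap ((↑) : M → E K))
        (m.comap ((↑) : M → E K)) := hMSp (h' ∘ f) C.inv.f hgm hCinv.rf
    have e4 := hE1 M K C.inv (fun x : M => Q1 1 x) (m.comap ((↑) : M → E K)) (hspl1.sub 1)
      hmp1 (cz_ae hMS hT5 hSV hg1 hCinv Q1 (fun i x => Q1 i x) (fun _ _ => rfl) hae)
    rw [← e4]
    exact (cint_eq hMS hSV hCinv Q1 (fun x : M => Q1 1 x) (fun _ => rfl)).symm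

end Pool.Agent.Helper56.RZ
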