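import Pool.Agent.Helper56.RZ.FinS
import Pool.Agent.Helper56.RZ.Fin1

/-!
# Project RZ, third theorem: the average, near returns, the oscillation
-/

set_option autoImplicit false

open Set Filter Topology MeasureTheory

open scoped ContDiff

namespace Pool.Agent.Helper56.RZ

theorem ff_abs {N : ℕ} {χ I V : E N → ℝ} {W : ℕ → E N → ℝ} {w : ℕ → ℝ} {ρ l A k C D : ℝ}
    (hχ : ∀ y, 0 ≤ χ y) (hρ : 0 < ρ) (hl0 : 0 < l) (hl1 : l < 1) (hA : 0 ≤ A) (hC : 0 ≤ C)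
    (h1 : ∀ y, χ y ≠ 0 → ∀ N0 : ℕ, |I y| ≤ (ρ ^ N)⁻¹ * (A * k ^ 2 *
      (4 * ∑ n ∈ Finset.range N0, l ^ n * W n y + l ^ N0 * V y)))
    (hW : ∀ n, Integrable (fun y => χ y * W n y) volume ∧ ∫ y, χ y * W n y ≤ C * ρ ^ N * w n)
    (hV : Integrable (fun y => χ y * V y) volume ∧ ∫ y, χ y * V y ≤ C * ρ ^ N)
    (hD : ∀ N0, ∑ n ∈ Finset.range N0, l ^ n * w n ≤ D) :
    |∫ y, χ y * I y| ≤ A * k ^ 2 * C * (4 * D) := by
  have hpos : 0 < ρ ^ N := pow_pos hρ N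
  have key : ∀ N0 : ℕ, |∫ y, χ y * I y| ≤ A * k ^ 2 * C * (4 * D + l ^ N0) := by
    intro N0
    have hi1 : Integrable (fun y => ∑ n ∈ Finset.range N0, l ^ n * (χ y * W n y)) volume :=
      integrable_finsetSum _ fun n _ => (hW n).1.const_mul (l ^ n)
    have hi2 : Integrable (fun y => l ^ N0 * (χ y * V y)) volume := hV.1.const_mul _
    have hi3 : Integrable (fun y => 4 * ∑ n ∈ Finset.range N0, l ^ n * (χ y * W n y)) volume :=
      hi1.const_mul 4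
    have hint : Integrable (fun y => (ρ ^ N)⁻¹ * (A * k ^ 2 *
        (4 * ∑ n ∈ Finset.range N0, l ^ n * (χ y * W n y) + l ^ N0 * (χ y * V y)))) volume :=
      ((hi3.add hi2).const_mul _).const_mul _
    have hle : ∀ y, ‖χ y * I y‖ ≤ (ρ ^ N)⁻¹ * (A * k ^ 2 *
        (4 * ∑ n ∈ Finset.range N0, l ^ n * (χ y * W n y) + l ^ N0 * (χ y * V y))) := by
      intro y
      have e1 : ∑ n ∈ Finset.range N0, l ^ n * (χ y * W n y) =
          χ y * ∑ n ∈ Finset.range N0, l ^ n * W n y := by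
        rw [Finset.mul_sum]
        exact Finset.sum_congr rfl fun n _ => by ring
      rw [e1]
      by_cases hy : χ y = 0
      · simp [hy]
      · rw [norm_mul, Real.norm_of_nonneg (hχ y), Real.norm_eq_abs]
        refine (mul_le_mul_of_nonneg_left (h1 y hy N0) (hχ y)).trans (le_of_eq ?_)
        ring
    have h2 := norm_integral_le_of_norm_le hint (ae_of_all _ hle)
    rw [Real.norm_eq_abs] at h2
    refine h2.trans ?_
    rw [integral_const_mul, integral_const_mul, integral_add hi3 hi2, integral_const_mul,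
      integral_finsetSum _ (fun n _ => (hW n).1.const_mul (l ^ n)), integral_const_mul]
    simp only [integral_const_mul]
    have h3 : ∑ n ∈ Finset.range N0, l ^ n * (∫ y, χ y * W n y) ≤
        C * ρ ^ N * ∑ n ∈ Finset.range N0, l ^ n * w n := by
      rw [Finset.mul_sum]
      refine Finset.sum_le_sum fun n _ => ?_
      calc l ^ n * (∫ y, χ y * W n y) ≤ l ^ n * (C * ρ ^ N * w n) :=
            mul_le_mul_of_nonneg_left (hW n).2 (by positivity)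
        _ = C * ρ ^ N * (l ^ n * w n) := by ring
    have h4 : C * ρ ^ N * ∑ n ∈ Finset.range N0, l ^ n * w n ≤ C * ρ ^ N * D :=
      mul_le_mul_of_nonneg_left (hD N0) (by positivity)
    have h5 : l ^ N0 * (∫ y, χ y * V y) ≤ l ^ N0 * (C * ρ ^ N) :=
      mul_le_mul_of_nonneg_left hV.2 (by positivity)
    calc (ρ ^ N)⁻¹ * (A * k ^ 2 * (4 * ∑ n ∈ Finset.range N0, l ^ n * (∫ y, χ y * W n y) +
          l ^ N0 * (∫ y, χ y * V y)))
        ≤ (ρ ^ N)⁻¹ * (A * k ^ 2 * (4 * (C * ρ ^ N * D) + l ^ N0 * (C * ρ ^ N))) := by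
          refine mul_le_mul_of_nonneg_left (mul_le_mul_of_nonneg_left ?_ (by positivity))
            (by positivity)
          linarith
      _ = (ρ ^ N)⁻¹ * ρ ^ N * (A * k ^ 2 * C * (4 * D + l ^ N0)) := by ring
      _ = A * k ^ 2 * C * (4 * D + l ^ N0) := by rw [inv_mul_cancel₀ hpos.ne', one_mul]
  have hlim : Tendsto (fun N0 : ℕ => A * k ^ 2 * C * (4 * D + l ^ N0)) atTop
      (𝓝 (A * k ^ 2 * C * (4 * D + 0))) :=
    ((tendsto_pow_atTop_nhds_zero_of_lt_one hl0.le hl1).const_add _).const_mul _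
  rw [add_zero] at hlim
  exact ge_of_tendsto' hlim key

/-- near returns, for `f` or for its inverse -/
def Nr {K : ℕ} (M : Set (E K)) (m : Measure (E K)) (f : E K → E K) (x0 : E K) (u : ℕ) : Prop :=
  ∃ g : ℕ → E K → E K, (∀ n, ContinuousOn (g n) M ∧ MapsTo (g n) M M ∧
    ∀ B : Set (E K), IsCompact B → B ⊆ M →
      m {x | x ∈ B ∧ f^[n + 1] x ∈ B} = m {x | x ∈ B ∧ g n x ∈ B}) ∧
  ∀ l : ℝ, 0 < l → l < 1 → ∃ (U : Set (E K)) (C : ℝ), IsOpen U ∧ x0 ∈ U ∧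
    ∀ ρ : ℝ, 0 < ρ → ∀ N0 : ℕ, ∑ n ∈ Finset.range N0,
      l ^ n * (m {x | x ∈ M ∩ U ∧ ‖g n x - x‖ ≤ ρ}).toReal ≤ C * ρ ^ u

theorem iter_diffeo {K : ℕ} {M : Set (E K)} {f f' : E K → E K} (hf : IsDiffeo 1 M f f') (k : ℕ) :
    IsDiffeo 1 M (f^[k]) (f'^[k]) := by
  induction k with
  | zero => exact IsDiffeo.id' 1 M
  | succ k ih =>
    have h := ih.comp' hf
    rw [Function.iterate_succ, Function.iterate_succ']
    exact h

theorem nr_f (hRET : StmtRET) {N K u : ℕ} {M : Set (E K)} {m : Measure (E K)}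
    {f f' : E K → E K} {P : Fin 3 → E K → End K} (hSV : SmoothVolume N K M m)
    (hf : IsDiffeo 2 M f f') (hPH : PH M f f' P) {x0 : E K} (hx0 : x0 ∈ M)
    (hnp : ∀ j : ℕ, 1 ≤ j → f^[j] x0 ≠ x0)
    (hu : Module.finrank ℝ (LinearMap.range (P 2 x0 : E K →ₗ[ℝ] E K)) = u) :
    Nr M m f x0 u := by
  have hf1 : IsDiffeo 1 M f f' := hf.of_le' (by exact_mod_cast (by norm_num : (1 : ℕ) ≤ 2))
  refine ⟨fun n => f^[n + 1], fun n => ⟨?_, ?_, fun B _ _ => rfl⟩,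
    hRET N K u M m f f' P hSV hf hPH x0 hx0 hnp hu⟩
  · exact (iter_diffeo hf1 (n + 1)).smooth.continuousOn
  · exact (iter_diffeo hf1 (n + 1)).maps

theorem nr_f' (hT4 : StmtT4) (hT5 : StmtT5) (hSW : StmtSW) (hMS : StmtMS) (hRET : StmtRET)
    {N K u : ℕ} {M : Set (E K)} {m : Measure (E K)}
    {f f' : E K → E K} {P : Fin 3 → E K → End K} (hSV : SmoothVolume N K M m)
    (hf : IsDiffeo 2 M f f') (hfm : Preserves M m f) (hPH : PH M f f' P) {x0 : E K}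
    (hx0 : x0 ∈ M) (hnp : ∀ j : ℕ, 1 ≤ j → f^[j] x0 ≠ x0)
    (hu : Module.finrank ℝ (LinearMap.range (P 0 x0 : E K →ₗ[ℝ] E K)) = u) :
    Nr M m f x0 u := by
  have hf1 : IsDiffeo 1 M f f' := hf.of_le' (by exact_mod_cast (by norm_num : (1 : ℕ) ≤ 2))
  obtain ⟨hMSd, -⟩ := hMS N K M m hSV
  obtain ⟨P0, hP0, hPH0⟩ := ph_inv hT4 hT5 hSW hf1 hPH
  have hpres : ∀ k : ℕ, Preserves M m (f^[k]) := by
    intro k
    induction k with
    | zero =>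
      intro A hA
      rw [Function.iterate_zero, preimage_id]
      exact measure_inter_conull hSV.null
    | succ k ih =>
      rw [Function.iterate_succ]
      exact (hMSd _ _ (iter_diffeo hf1 k) ih).2 f f' hf1 hfm
  have hnp' : ∀ j : ℕ, 1 ≤ j → f'^[j] x0 ≠ x0 := by
    intro j hj h
    apply hnp j hj
    have h2 := (iter_diffeo hf1 j).right x0 hx0
    rwa [h] at h2
  have hu' : Module.finrank ℝ (LinearMap.range (P0 2 x0 : E K →ₗ[ℝ] E K)) = u := by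
    rw [hP0 2 x0 hx0]
    exact hu
  refine ⟨fun n => f'^[n + 1], fun n => ⟨?_, ?_, fun B hB hBM => ?_⟩,
    hRET N K u M m f' f P0 hSV hf.symm hPH0 x0 hx0 hnp' hu'⟩
  · exact (iter_diffeo hf1 (n + 1)).smooth'.continuousOn
  · exact (iter_diffeo hf1 (n + 1)).maps'
  · have hd := iter_diffeo hf1 (n + 1)
    have hcl : IsClosed (M ∩ (f'^[n + 1]) ⁻¹' B) :=
      hd.smooth'.continuousOn.preimage_isClosed_of_isClosed hSV.compact.isClosed hB.isClosed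
    have hm : MeasurableSet {x | x ∈ B ∧ f'^[n + 1] x ∈ B} := by
      have : {x | x ∈ B ∧ f'^[n + 1] x ∈ B} = B ∩ (M ∩ (f'^[n + 1]) ⁻¹' B) := by
        ext x
        constructor
        · rintro ⟨h1, h2⟩
          exact ⟨h1, hBM h1, h2⟩
        · rintro ⟨h1, -, h2⟩
          exact ⟨h1, h2⟩
      rw [this]
      exact (hB.isClosed.inter hcl).measurableSet
    rw [← hpres (n + 1) _ hm]
    congr 1
    ext x
    constructor
    · rintro ⟨h1, h2⟩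
      refine ⟨⟨h2, ?_⟩, hBM h1⟩
      rw [hd.left x (hBM h1)]
      exact h1
    · rintro ⟨⟨h1, h2⟩, h3⟩
      change f'^[n + 1] (f^[n + 1] x) ∈ B at h2
      rw [hd.left x h3] at h2
      exact ⟨h2, h1⟩

/-- the oscillation of the splitting in the chart -/
def Osc {N : ℕ} (ph : Fin 3 → E N → End N) (z0 : E N) (r u : ℕ) : Prop :=
  ∀ a cE : ℝ, 0 < a → a ≤ 1 → 1 ≤ cE → ∃ rad > 0, ∀ η > 0, ∃ ρ1 > 0, ∀ ρ : ℝ, 0 < ρ → ρ ≤ ρ1 →
    ∃ κ0 : ℝ, 0 ≤ κ0 ∧ κ0 ≤ η ∧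
    (κ0 + a * ρ ^ (r - 1)) ^ 2 * ρ ^ u ≤ η * (a * ρ ^ (r - 1)) ^ 2 ∧
    ∀ z ∈ Metric.closedBall z0 rad, ∀ z' ∈ Metric.closedBall z0 rad,
      ‖z' - z‖ ≤ cE * (ρ * (a * ρ ^ (r - 1))) → ∀ i, ‖ph i z' - ph i z‖ ≤ κ0

theorem osc_a {N r u : ℕ} {ph : Fin 3 → E N → End N} {z0 : E N} {V : Set (E N)} (hV : IsOpen V)
    (hz0 : z0 ∈ V) (hph : ∀ i, ContinuousOn (ph i) V) (hr : 2 ≤ r) (hu : 2 * r - 2 ≤ u) :
    Osc ph z0 r u := by
  intro a cE ha0 ha1 hcE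
  obtain ⟨rad, hrad, hb⟩ := Metric.nhds_basis_closedBall.mem_iff.1 (hV.mem_nhds hz0)
  refine ⟨rad, hrad, fun η hη => ?_⟩
  -- the small number
  obtain ⟨η', hη'0, hη'1, hη'2⟩ : ∃ η' : ℝ, 0 < η' ∧ η' ≤ η ∧ (2 * η') ^ 2 ≤ η * a ^ 2 := by
    have hs : 0 < Real.sqrt η := Real.sqrt_pos.2 hη
    refine ⟨min η (Real.sqrt η * a / 2), lt_min hη (by positivity), min_le_left _ _, ?_⟩
    have h1 : min η (Real.sqrt η * a / 2) ≤ Real.sqrt η * a / 2 := min_le_right _ _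
    have h0 : 0 ≤ min η (Real.sqrt η * a / 2) := (lt_min hη (by positivity)).le
    calc (2 * min η (Real.sqrt η * a / 2)) ^ 2 ≤ (Real.sqrt η * a) ^ 2 :=
          pow_le_pow_left₀ (by positivity) (by linarith) 2
      _ = η * a ^ 2 := by rw [mul_pow, Real.sq_sqrt hη.le]
  -- uniform continuity
  have huc : ∀ i, ∃ τ > 0, ∀ z ∈ Metric.closedBall z0 rad, ∀ z' ∈ Metric.closedBall z0 rad,
      ‖z' - z‖ ≤ τ → ‖ph i z' - ph i z‖ ≤ η' := by
    intro i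
    have h1 := (isCompact_closedBall z0 rad).uniformContinuousOn_of_continuous
      ((hph i).mono hb)
    rw [Metric.uniformContinuousOn_iff] at h1
    obtain ⟨τ, hτ, h2⟩ := h1 η' hη'0
    refine ⟨τ / 2, by positivity, fun z hz z' hz' hzz => ?_⟩
    have h3 := h2 z' hz' z hz (by rw [dist_eq_norm]; linarith)
    rw [dist_eq_norm] at h3
    exact h3.le
  choose τ hτ0 hτ using huc
  obtain ⟨τm, hτm0, hτm⟩ : ∃ τm > 0, ∀ i, τm ≤ τ i :=
    ⟨min (τ 0) (min (τ 1) (τ 2)), lt_min (hτ0 0) (lt_min (hτ0 1) (hτ0 2)), fun i => by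
      fin_cases i
      · exact min_le_left _ _
      · exact (min_le_right _ _).trans (min_le_left _ _)
      · exact (min_le_right _ _).trans (min_le_right _ _)⟩
  refine ⟨min 1 (min η' (τm / cE)), lt_min one_pos (lt_min hη'0 (by positivity)),
    fun ρ hρ0 hρ => ?_⟩
  have hρ1 : ρ ≤ 1 := hρ.trans (min_le_left _ _)
  have hρη : ρ ≤ η' := hρ.trans ((min_le_right _ _).trans (min_le_left _ _))
  have hρτ : ρ ≤ τm / cE := hρ.trans ((min_le_right _ _).trans (min_le_right _ _))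
  obtain ⟨ht0, htρ⟩ := amp (a := a) (r := r) hρ0 hρ1 hr ha0 ha1
  refine ⟨η', hη'0.le, hη'1, ?_, fun z hz z' hz' hzz i => hτ i z hz z' hz' ?_⟩
  · have h1 : ρ ^ u ≤ ρ ^ (2 * r - 2) := pow_le_pow_of_le_one hρ0.le hρ1 hu
    have h2 : (η' + a * ρ ^ (r - 1)) ^ 2 ≤ (2 * η') ^ 2 :=
      pow_le_pow_left₀ (by positivity) (by linarith) 2
    calc (η' + a * ρ ^ (r - 1)) ^ 2 * ρ ^ u ≤ (η * a ^ 2) * ρ ^ (2 * r - 2) :=
          mul_le_mul (h2.trans hη'2) h1 (by positivity) (by positivity)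
      _ = η * (a * ρ ^ (r - 1)) ^ 2 := by
          rw [mul_pow, ← pow_mul, show (r - 1) * 2 = 2 * r - 2 by omega]
          ring
  · refine hzz.trans (le_trans ?_ (hτm i))
    rw [le_div_iff₀ (by linarith)] at hρτ
    have h1 : ρ * (a * ρ ^ (r - 1)) ≤ ρ * 1 :=
      mul_le_mul_of_nonneg_left (htρ.trans hρ1) hρ0.le
    calc cE * (ρ * (a * ρ ^ (r - 1))) ≤ cE * (ρ * 1) :=
          mul_le_mul_of_nonneg_left h1 (by linarith)
      _ ≤ τm := by linarith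

theorem osc_b {N r u : ℕ} {ph : Fin 3 → E N → End N} {z0 : E N} {rad α C : ℝ} (hrad : 0 < rad)
    (hph : ∀ z ∈ Metric.closedBall z0 rad, ∀ z' ∈ Metric.closedBall z0 rad, ∀ i,
      ‖ph i z - ph i z'‖ ≤ C * ‖z - z'‖ ^ α) (hr : 2 ≤ r) (hu : 1 ≤ u) (hα0 : 0 < α)
    (hα : (2 * (r : ℝ) - 2 - u) / (2 * r) < α) : Osc ph z0 r u := by
  intro a cE ha0 ha1 hcE
  refine ⟨rad, hrad, fun η hη => ?_⟩
  have hr0 : (0 : ℝ) < r := by exact_mod_cast (by omega : 0 < r)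
  -- constants
  obtain ⟨C', hC'⟩ : ∃ C' : ℝ, C' = max 0 C := ⟨_, rfl⟩
  have hC'0 : 0 ≤ C' := by rw [hC']; exact le_max_left _ _
  have hCC' : C ≤ C' := by rw [hC']; exact le_max_right _ _
  obtain ⟨D, hD⟩ : ∃ D : ℝ, D = C' * (cE * a) ^ α := ⟨_, rfl⟩
  have hD0 : 0 ≤ D := by
    rw [hD]
    exact mul_nonneg hC'0 (Real.rpow_nonneg (by positivity) _)
  obtain ⟨g, hg⟩ : ∃ g : ℝ, g = 2 * (r * α) + u - (2 * r - 2) := ⟨_, rfl⟩
  have hg0 : 0 < g := by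
    rw [div_lt_iff₀ (by positivity)] at hα
    rw [hg]
    linarith
  have hrα : 0 < r * α := by positivity
  -- limits
  have hl1 : Tendsto (fun ρ : ℝ => D * ρ ^ (r * α)) (𝓝[>] 0) (𝓝 0) := by
    have h1 : Tendsto (fun ρ : ℝ => ρ ^ (r * α)) (𝓝 0) (𝓝 (0 ^ (r * α))) :=
      (Real.continuousAt_rpow_const _ _ (Or.inr hrα.le)).tendsto
    rw [Real.zero_rpow hrα.ne'] at h1
    have h2 : Tendsto (fun ρ : ℝ => D * ρ ^ (r * α)) (𝓝 0) (𝓝 (D * 0)) := h1.const_mul D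
    rw [mul_zero] at h2
    exact h2.mono_left nhdsWithin_le_nhds
  have hl2 : Tendsto (fun ρ : ℝ => 2 * D ^ 2 / a ^ 2 * ρ ^ g + 2 * ρ) (𝓝[>] 0) (𝓝 0) := by
    have h1 : Tendsto (fun ρ : ℝ => ρ ^ g) (𝓝 0) (𝓝 (0 ^ g)) :=
      (Real.continuousAt_rpow_const _ _ (Or.inr hg0.le)).tendsto
    rw [Real.zero_rpow hg0.ne'] at h1
    have h2 : Tendsto (fun ρ : ℝ => 2 * D ^ 2 / a ^ 2 * ρ ^ g + 2 * ρ) (𝓝 0)
        (𝓝 (2 * D ^ 2 / a ^ 2 * 0 + 2 * 0)) := (h1.const_mul _).add (tendsto_id.const_mul 2)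
    rw [mul_zero, mul_zero, add_zero] at h2
    exact h2.mono_left nhdsWithin_le_nhds
  have hev := (hl1.eventually (ge_mem_nhds hη)).and ((hl2.eventually (ge_mem_nhds hη)).and
    (Ioc_mem_nhdsGT (zero_lt_one (α := ℝ))))
  obtain ⟨ρ2, hρ20, hρ2⟩ := mem_nhdsGT_iff_exists_Ioc_subset.1 hev
  refine ⟨ρ2, hρ20, fun ρ hρ0 hρ => ?_⟩
  obtain ⟨b1, b2, -, hρ1⟩ := hρ2 ⟨hρ0, hρ⟩
  have b1' : D * ρ ^ (r * α) ≤ η := b1
  have b2' : 2 * D ^ 2 / a ^ 2 * ρ ^ g + 2 * ρ ≤ η := b2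
  obtain ⟨ht0, htρ⟩ := amp (a := a) (r := r) hρ0 hρ1 hr ha0 ha1
  have hk0 : 0 ≤ D * ρ ^ (r * α) := mul_nonneg hD0 (Real.rpow_nonneg hρ0.le _)
  refine ⟨D * ρ ^ (r * α), hk0, b1', ?_, fun z hz z' hz' hzz i => ?_⟩
  · have e00 : ρ ^ ((r - 1) * 2) = ρ ^ ((2 * r - 2 : ℝ)) := by
      rw [← Real.rpow_natCast]
      congr 1
      have : 1 ≤ r := by omega
      push_cast [Nat.cast_sub this]
      ring
    have e0 : (a * ρ ^ (r - 1)) ^ 2 = a ^ 2 * ρ ^ ((2 * r - 2 : ℝ)) := by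
      rw [mul_pow, ← pow_mul, e00]
    have e1 : (D * ρ ^ (r * α)) ^ 2 * ρ ^ u = D ^ 2 / a ^ 2 * ρ ^ g * (a * ρ ^ (r - 1)) ^ 2 := by
      have h1 : (ρ ^ (r * α)) ^ 2 * ρ ^ u = ρ ^ g * ρ ^ ((2 * r - 2 : ℝ)) := by
        rw [← Real.rpow_natCast (ρ ^ (r * α)) 2, ← Real.rpow_mul hρ0.le,
          ← Real.rpow_natCast ρ u, ← Real.rpow_add hρ0, ← Real.rpow_add hρ0]
        congr 1
        rw [hg]
        push_cast
        ring
      rw [e0, mul_pow, mul_assoc, h1]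
      field_simp
    have e2 : (a * ρ ^ (r - 1)) ^ 2 * ρ ^ u ≤ ρ * (a * ρ ^ (r - 1)) ^ 2 := by
      have h1 : ρ ^ u ≤ ρ := by
        have := pow_le_pow_of_le_one hρ0.le hρ1 hu
        rwa [pow_one] at this
      rw [mul_comm]
      exact mul_le_mul_of_nonneg_right h1 (by positivity)
    have e3 : (D * ρ ^ (r * α) + a * ρ ^ (r - 1)) ^ 2 ≤
        2 * (D * ρ ^ (r * α)) ^ 2 + 2 * (a * ρ ^ (r - 1)) ^ 2 := by
      nlinarith [sq_nonneg (D * ρ ^ (r * α) - a * ρ ^ (r - 1))]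
    calc (D * ρ ^ (r * α) + a * ρ ^ (r - 1)) ^ 2 * ρ ^ u
        ≤ (2 * (D * ρ ^ (r * α)) ^ 2 + 2 * (a * ρ ^ (r - 1)) ^ 2) * ρ ^ u :=
          mul_le_mul_of_nonneg_right e3 (by positivity)
      _ = 2 * ((D * ρ ^ (r * α)) ^ 2 * ρ ^ u) + 2 * ((a * ρ ^ (r - 1)) ^ 2 * ρ ^ u) := by ring
      _ ≤ 2 * (D ^ 2 / a ^ 2 * ρ ^ g * (a * ρ ^ (r - 1)) ^ 2) +
          2 * (ρ * (a * ρ ^ (r - 1)) ^ 2) := by rw [e1]; linarith
      _ = (2 * D ^ 2 / a ^ 2 * ρ ^ g + 2 * ρ) * (a * ρ ^ (r - 1)) ^ 2 := by ring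
      _ ≤ η * (a * ρ ^ (r - 1)) ^ 2 := mul_le_mul_of_nonneg_right b2' (by positivity)
  · have e1 : cE * (ρ * (a * ρ ^ (r - 1))) = (cE * a) * ρ ^ (r : ℝ) := by
      rw [Real.rpow_natCast]
      have : ρ * ρ ^ (r - 1) = ρ ^ r := by
        rw [← pow_succ']
        congr 1
        omega
      rw [← this]
      ring
    have h1 : ‖z' - z‖ ^ α ≤ ((cE * a) * ρ ^ (r : ℝ)) ^ α := by
      refine Real.rpow_le_rpow (norm_nonneg _) ?_ hα0.le
      rw [← e1]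
      exact hzz
    have h2 : ((cE * a) * ρ ^ (r : ℝ)) ^ α = (cE * a) ^ α * ρ ^ (r * α) := by
      rw [Real.mul_rpow (by positivity) (by positivity), ← Real.rpow_mul hρ0.le]
    calc ‖ph i z' - ph i z‖ ≤ C * ‖z' - z‖ ^ α := hph z' hz' z hz i
      _ ≤ C' * ((cE * a) ^ α * ρ ^ (r * α)) := by
          rw [← h2]
          exact mul_le_mul hCC' h1 (Real.rpow_nonneg (norm_nonneg _) _) hC'0
      _ = D * ρ ^ (r * α) := by rw [hD]; ring

end Pool.Agent.Helper56.RZ
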