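import Pool.Agent.Helper56.RZ.GoalsB

/-!
# Project RZ, second theorem: one-dimensional strong bundles, `C^2`, no regularity hypothesis

Order: LN, LZ -> Lin;  PW, LP;  AL, RC -> HA;  OD, RC -> RG;  MX, CI;  UC, DV, BA -> BL -> BS;  NM;
DN -> RT;  then a good point exists (GP, captain);  K3, K4.
All statements are independent: a packet may assume the other statements it names.
The full paper proof: /team-store/MP_f32c9c_an_proof2_helper56.md.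
-/

set_option autoImplicit false

open Set Filter Topology MeasureTheory

open scoped ContDiff

namespace Pool.Agent.Helper56.RZ

/-- the base map of the cocycle is uniformly differentiable with derivative the cocycle, and the cocycle
is Lipschitz -/
structure Lin {K : ℕ} {M : Set (E K)} (D : Coc M K) : Prop where
  lin : ∀ ε > 0, ∃ δ > 0, ∀ x y : M, ‖(y : E K) - x‖ ≤ δ →
    ‖(D.f y : E K) - D.f x - D.A x ((y : E K) - x)‖ ≤ ε * ‖(y : E K) - x‖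
  lin' : ∀ ε > 0, ∃ δ > 0, ∀ x y : M, ‖(y : E K) - x‖ ≤ δ →
    ‖(D.f.symm y : E K) - D.f.symm x - D.B x ((y : E K) - x)‖ ≤ ε * ‖(y : E K) - x‖
  lip : ∃ L : ℝ, 0 ≤ L ∧ ∀ x y : M, ‖D.A x - D.A y‖ ≤ L * ‖(x : E K) - y‖ ∧
    ‖D.B x - D.B y‖ ≤ L * ‖(x : E K) - y‖ ∧ ‖D.T x - D.T y‖ ≤ L * ‖(x : E K) - y‖

/-- `D` is the `m`-th power of the cocycle `C` -/
structure IsPow {X : Type} [TopologicalSpace X] {K : ℕ} (C D : Coc X K) (m : ℕ) : Prop where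
  T : ∀ x, D.T x = C.T x
  f : ∀ x, D.f x = C.f^[m] x
  f' : ∀ x, D.f.symm x = C.f.symm^[m] x
  A : ∀ x, D.A x = C.An m x
  B : ∀ x, D.B x = C.inv.An m x

/-- growth rates: `a` = expansion of the unstable bundle, `b` = contraction of the stable bundle, `c` =
growth and contraction of the central bundle, up to the constant `C0` -/
structure Rates {X : Type} [TopologicalSpace X] {K : ℕ} (D : Coc X K) (P : Fin 3 → X → End K)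
    (a b c : X → ℝ) (C0 : ℝ) : Prop where
  conta : Continuous a
  contb : Continuous b
  contc : Continuous c
  cpos : ∀ x, 0 ≤ c x
  nA : ∀ x, ‖D.A x‖ ≤ Real.exp (a x + C0)
  nB : ∀ x, ‖D.B (D.f x)‖ ≤ Real.exp (b x + C0)
  A0 : ∀ x, ‖D.A x * P 0 x‖ ≤ Real.exp (- b x + C0)
  B2 : ∀ x, ‖D.B (D.f x) * P 2 (D.f x)‖ ≤ Real.exp (- a x + C0)
  A1 : ∀ x, ‖D.A x * (P 0 x + P 1 x)‖ ≤ Real.exp (c x + C0)
  B1 : ∀ x, ‖D.B (D.f x) * (P 1 (D.f x) + P 2 (D.f x))‖ ≤ Real.exp (c x + C0)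

/-- a point whose forward orbit has small central growth and balanced expansion and contraction -/
def GoodF {X : Type} [TopologicalSpace X] {K : ℕ} (D : Coc X K) (a b c : X → ℝ) (Λ ε C' : ℝ)
    (x0 : X) : Prop := ∀ n : ℕ,
  ∑ j ∈ Finset.range n, c (D.f^[j] x0) ≤ ε * (n * Λ) ∧
  |∑ j ∈ Finset.range n, (a (D.f^[j] x0) - b (D.f^[j] x0))| ≤ ε * (n * Λ) + C'

/-- PACKET LN (uniform differentiability; from T1, T2).  At `x0 ∈ M` take a chart `c`, `z0 = φ x0`.  `F = f ∘ ψ` is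
`C^1` on the open set `V`.  On a closed ball `Q ⊆ V` around `z0`, small enough, `‖F w - F z - DF(z) (w - z)‖ ≤
ε1 ‖w - z‖` and `‖ψ w - ψ z - Dψ(z) (w - z)‖ ≤ ε1 ‖w - z‖` (mean value inequality, continuity of the derivatives),
`‖w - z‖ ≤ C ‖ψ w - ψ z‖` if also `ψ w, ψ z` are in a ball contained in `W` (`φ` is Lipschitz there), and
`DF(z) = der M f (ψ z) ∘ Dψ(z)` (chain rule within `M`, T1 second part, T2 first part).  So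
`f y - f x - der M f x (y - x) = [F w - F z - DF(z)(w - z)] - der M f x [ψ w - ψ z - Dψ(z) (w - z)]` for `x = ψ z`, `y = ψ w`.
`der M f` is bounded near `x0` (it is `DF(z) ∘ Dφ(ψ z) ∘ Pi`, `‖Pi‖ ≤ 1`).  Every `x ∈ M` near `x0` is `ψ (φ x)`.  Then
compactness of `M` (finite subcover, Lebesgue number). -/
def StmtLN : Prop := ∀ (N K : ℕ) (M : Set (E K)) (m : Measure (E K)) (f : E K → E K),
  SmoothVolume N K M m → ContDiffOn ℝ 1 f M → ∀ ε > 0, ∃ δ > 0, ∀ x ∈ M, ∀ y ∈ M, ‖y - x‖ ≤ δ →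
  ‖f y - f x - der M f x (y - x)‖ ≤ ε * ‖y - x‖

/-- PACKET LZ (Lipschitz derivative; from T1, T2).  `Q(z) = Dψ(z) ∘ Dφ(ψ z)` is a projection onto the tangent space
at `ψ z` (T1), `C^1` in `z`; for the orthogonal projections `Pi, Pi'` at two points `Pi - Pi' = Pi (1 - Pi') - (1 - Pi) Pi'`,
`(1 - Pi') Pi = (1 - Pi') (Q - Q') Pi` (`Q Pi = Pi`, `(1 - Pi') Q' = 0`) and `‖Pi (1 - Pi')‖ = ‖(1 - Pi') Pi‖` (adjoint), so `‖Pi - Pi'‖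
≤ 2 ‖Q - Q'‖`.  `der M f (ψ z) = D(f ∘ ψ)(z) ∘ Dφ(ψ z) ∘ Pi`, `f ∘ ψ` is `C^2` on `V`; `C^1` functions are Lipschitz on small
closed balls, `z = φ x` is Lipschitz in `x`.  Local Lipschitz and compactness of `M`: Lipschitz for `‖x - y‖ ≤ δ`; for
`‖x - y‖ > δ` use that `der M f`, `Pi` are bounded. -/
def StmtLZ : Prop := ∀ (N K : ℕ) (M : Set (E K)) (m : Measure (E K)) (f : E K → E K),
  SmoothVolume N K M m → ContDiffOn ℝ 2 f M → ∃ L : ℝ, 0 ≤ L ∧ ∀ x ∈ M, ∀ y ∈ M,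
  ‖der M f x - der M f y‖ ≤ L * ‖x - y‖ ∧ ‖Pi M x - Pi M y‖ ≤ L * ‖x - y‖

/-- PACKET PW (powers exist).  `D.f` = the iterate as a homeomorphism; `BA`, `AB` by induction on `m` (or define
the power recursively with `Coc.comp`, compare with `An` at the other end). -/
def StmtPW : Prop := ∀ (X : Type) [TopologicalSpace X] (K : ℕ) (C : Coc X K) (m : ℕ),
  ∃ D : Coc X K, IsPow C D m ∧ (∀ P : Fin 3 → X → End K, Spl C P → Spl D P) ∧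
  ∀ (n : ℕ) (x : X), D.f^[n] x = C.f^[n * m] x ∧ D.f.symm^[n] x = C.f.symm^[n * m] x ∧
    D.An n x = C.An (n * m) x ∧ D.inv.An n x = C.inv.An (n * m) x

/-- PACKET LP (`Lin` for powers).  Induction on `m` for the iterates `C.f^[m]`, `C.An m` (composition of uniformly
differentiable maps; `C.A`, `C.An m` are bounded because `M` is compact; product of bounded Lipschitz
functions; `C.f^[m]` is Lipschitz: for `‖y - x‖ ≤ δ` by `lin` with `ε = 1`, otherwise because `M` is bounded).  Case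
`m = 0`: `(y - x) - T x (y - x)` is small because `y - x - B (f x) (f y - f x)` and `f y - f x - A x (y - x)` are small
(`lin'` at `f x`, `lin` at `x`) and `B (f x) A x = T x`. -/
def StmtLP : Prop := ∀ (K : ℕ) (M : Set (E K)), IsCompact M → ∀ (C D : Coc M K) (m : ℕ),
  IsPow C D m → Lin C → Lin D

/-- PACKET AL (algebra of two splittings).  For `i ≠ j` : `P' i * P j` is one of `P' 2 (P 0 + P 1) P j`,
`P' i (P' 1 + P' 2) P 0`, `P' 0 (P 1 + P 2) P j`, `P' i (P' 0 + P' 1) P 2`, so its norm is `≤ R b`, the same for `P i * P' j`.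
`P i - P' i = P i (T - T') + (P i T' - T P' i) + (T - T') P' i`, `P i T' - T P' i = ∑_{j ≠ i} (P i P' j - P j P' i)`. -/
def StmtAL : Prop := ∀ (K : ℕ) (P P' : Fin 3 → End K) (T T' : End K) (R b : ℝ),
  (∀ i j, P i * P j = if i = j then P i else 0) → P 0 + P 1 + P 2 = T →
  (∀ i j, P' i * P' j = if i = j then P' i else 0) → P' 0 + P' 1 + P' 2 = T' →
  (∀ i, ‖P i‖ ≤ R) → (∀ i, ‖P' i‖ ≤ R) →
  ‖P' 2 * (P 0 + P 1)‖ ≤ b → ‖(P' 1 + P' 2) * P 0‖ ≤ b →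
  ‖P' 0 * (P 1 + P 2)‖ ≤ b → ‖(P' 0 + P' 1) * P 2‖ ≤ b →
  ‖P 2 * (P' 0 + P' 1)‖ ≤ b → ‖(P 1 + P 2) * P' 0‖ ≤ b →
  ‖P 0 * (P' 1 + P' 2)‖ ≤ b → ‖(P 0 + P 1) * P' 2‖ ≤ b →
  ∀ i, ‖P i - P' i‖ ≤ 2 * R * ‖T - T'‖ + 4 * R * b

/-- PACKET RC (the recursion).  `U y = B (f y) U (f y) A y` (from `B A = T`, `A U = U A`), so `U y S x = B (f y) U (f y)
(A x + (A y - A x)) S x` and `A x S x = S (f x) A x S x`, `U (f y) = U (f y) U (f y)`. -/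
def StmtRC : Prop := ∀ (X : Type) [TopologicalSpace X] (K : ℕ) (D : Coc X K) (S U : X → End K),
  Pair D S U → ∀ x y : X, ‖U y * S x‖ ≤
    ‖D.B (D.f y) * U (D.f y)‖ * ‖U (D.f y) * S (D.f x)‖ * ‖D.A x * S x‖ +
    ‖D.B (D.f y) * U (D.f y)‖ * ‖D.A y - D.A x‖ * ‖S x‖

/-- PACKET HA (the splitting is Hölder; from RC).  Uniform continuity: there is `δ ≤ 1` such that for `d = ‖x - y‖ ≤
δ` one has `‖B (f y) U (f y)‖ ‖A x S x‖ ≤ 1/2` and `‖f x - f y‖ ≤ Λ d` with some `Λ ≥ 2` (`lin` with `ε = 1`).  Let `C1` bound all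
`‖U y S x‖` and `c2` bound `‖B (f y) U (f y)‖ L ‖S x‖`.  Let `0 < α ≤ 1` with `Λ^α ≤ 3/2` and `κ = max (4 c2 + 1) (C1 (Λ/δ)^α)`.  Claim
`‖U y S x‖ ≤ κ d^α`: true if `d > δ/Λ`; if `d ≤ δ/Λ` it follows from the claim for `f x, f y` by RC (induction on `n`
where `δ Λ^(-n-1) < d`; note that the distance may also shrink: then use monotonicity, i.e. prove the bound
`‖U y S x‖ ≤ κ d'^α` for all `d' ≥ d`, `d' > δ Λ^(-n-1)`, or put `ω(d) = sup` over all pairs with `‖x - y‖ ≤ d`):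
`1/2 κ (Λ d)^α + c2 d ≤ κ d^α (3/4 + 1/4)`. -/
def StmtHA : Prop := ∀ (K : ℕ) (M : Set (E K)), IsCompact M → ∀ (D : Coc M K) (S U : M → End K),
  Lin D → Pair D S U → (∀ x, ‖D.B (D.f x) * U (D.f x)‖ * ‖D.A x * S x‖ ≤ 1 / 4) →
  ∃ α C : ℝ, 0 < α ∧ α ≤ 1 ∧ 0 ≤ C ∧ ∀ x y : M, ‖U y * S x‖ ≤ C * ‖(x : E K) - y‖ ^ α

/-- PACKET OD (distances along orbits).  `δ ≤ θ`, `δ ≤ 1` such that `‖x - y‖ ≤ δ` implies `|a x - a y| ≤ 1` and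
`‖f x - f y‖ ≤ (‖A x‖ + 1) ‖x - y‖ ≤ exp (a x + C0 + 1) ‖x - y‖` (`lin` with `ε = 1`; `a x + C0 ≥ 0`).  Let `s n = ∑_{j < n} a (f^j x0)
+ n (C0 + 2)`, strictly increasing to infinity; `N` = the largest `n` with `CB ρ exp (s n) ≤ δ` (`Nat.find` for the first `n`
where this fails; `n ≥ 1`).  Induction on `j ≤ N`: `‖f^j x - f^j x0‖ ≤ CB ρ exp (s j) ≤ δ` (step at the base point `f^j x0`) and
`‖f^j x - f^j y‖ ≤ ‖x - y‖ exp (s j)` (step at the base point `f^j x`, `a (f^j x) ≤ a (f^j x0) + 1`; the distance is `≤ ρ exp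
(s j) ≤ δ`).  `exp (N Λ) ≤ exp (s N) ≤ δ / (CB ρ) ≤ ρ⁻¹`. -/
def StmtOD : Prop := ∀ (K : ℕ) (M : Set (E K)), IsCompact M → ∀ (D : Coc M K) (a : M → ℝ)
  (C0 Λ θ : ℝ), Lin D → Continuous a → 0 ≤ C0 → (∀ x, ‖D.A x‖ ≤ Real.exp (a x + C0)) → 0 < Λ →
  (∀ x, Λ ≤ a x) → 0 < θ → ∃ δ : ℝ, 0 < δ ∧ δ ≤ θ ∧ δ ≤ 1 ∧ ∀ (x0 : M) (CB ρ : ℝ), 1 ≤ CB → 0 < ρ →
  CB * ρ ≤ δ → ∃ N : ℕ, Real.exp (N * Λ) ≤ ρ⁻¹ ∧
    δ ≤ CB * ρ * Real.exp (∑ j ∈ Finset.range (N + 1), a (D.f^[j] x0) + (N + 1) * (C0 + 2)) ∧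
    ∀ x y : M, ‖(x : E K) - x0‖ ≤ CB * ρ → ‖(y : E K) - x0‖ ≤ CB * ρ → ‖(x : E K) - y‖ ≤ ρ →
      (∀ j ≤ N, ‖(D.f^[j] x : E K) - D.f^[j] x0‖ ≤ δ ∧ ‖(D.f^[j] y : E K) - D.f^[j] x0‖ ≤ δ ∧
        ‖(D.f^[j] x : E K) - D.f^[j] y‖ ≤ δ ∧
        ‖(D.f^[j] x : E K) - D.f^[j] y‖ ≤ ‖(x : E K) - y‖ *
          Real.exp (∑ i ∈ Finset.range j, a (D.f^[i] x0) + j * (C0 + 2))) ∧
      ‖(D.f^[N] x : E K) - D.f^[N] y‖ ≤ ‖(x : E K) - y‖ / ρ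

/-- PACKET RG (regularity of the splitting near a good point; from RC, OD).  Let `d = ‖x - y‖`, `x_j = f^j x`, `y_j`, `z_j = f^j x0`,
`N` from OD with `θ` such that `‖p - q‖ ≤ θ` implies `|a p - a q|, |b p - b q|, |c p - c q| ≤ 1`.  Two cases: (i) `S = P 0 + P 1`, `U = P 2`;
(ii) `S = P 0`, `U = P 1 + P 2` (`Pair D S U` from `Spl`).  `σ_j = ‖U y_j S x_j‖`.  By RC and `Rates`: `σ_j ≤ e^(κ_j) σ_(j+1) + e^(β_j) L
R ‖x_j - y_j‖` (`R` a bound for `‖S‖`) with (i) `κ_j = -a(z_j) + c(z_j) + 2 C0 + 2`, `β_j = C0`; (ii) `κ_j = c(z_j) - b(z_j) + 2 C0 + 2`,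
`β_j = c(z_j) + C0 + 1`.  Iterate for `j < N` : `σ_0 ≤ exp(∑_{j<N} κ_j) σ_N + ∑_{k<N} exp(∑_{j<k} κ_j + β_k) L R ‖x_k - y_k‖`.
With `‖x_k - y_k‖ ≤ d exp(∑_{j<k} a(z_j) + k (C0 + 2))` (OD) the exponents in the sum are at most `∑_{j≤k} c(z_j) + |∑_{j<k}
(a - b)(z_j)| + k (3 C0 + 4) + C0 + 1 ≤ 3 ε N Λ + C' + C0 + 1` (`GoodF`, `3 C0 + 4 ≤ ε Λ`, `k + 1 ≤ N`), and `N ≤ exp N ≤ exp (ε N Λ)`.
Last term: `σ_N = ‖(U y_N - U x_N) S x_N‖ ≤ 2 Cα R (d/ρ)^α`, and `exp(-∑_{j<N} a(z_j)) ≤ (CB ρ/δ) exp(a(z_N) + (N + 1) (C0 + 2))`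
(OD), so `exp(∑_{j<N} κ_j) ≤ const ρ exp(3 ε N Λ)` in both cases.  Finally `exp(4 ε N Λ) = exp(N Λ)^(4 ε) ≤ ρ^(-4 ε)`. -/
def StmtRG : Prop := ∀ (K : ℕ) (M : Set (E K)), IsCompact M → ∀ (D : Coc M K)
  (P : Fin 3 → M → End K) (a b c : M → ℝ) (C0 Λ ε C' α Cα CB : ℝ), Spl D P → Lin D →
  Rates D P a b c C0 → 0 ≤ C0 → 0 < Λ → (∀ x, Λ ≤ a x) → 0 < ε → 3 * C0 + 4 ≤ ε * Λ → 0 < α → α ≤ 1 →
  (∀ (i : Fin 3) (x y : M), ‖P i x - P i y‖ ≤ Cα * ‖(x : E K) - y‖ ^ α) → 1 ≤ CB →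
  ∃ C ρ1 : ℝ, 0 ≤ C ∧ 0 < ρ1 ∧ ρ1 ≤ 1 ∧ ∀ x0 : M, GoodF D a b c Λ ε C' x0 → ∀ ρ : ℝ, 0 < ρ → ρ ≤ ρ1 →
  ∀ x y : M, ‖(x : E K) - x0‖ ≤ CB * ρ → ‖(y : E K) - x0‖ ≤ CB * ρ → ‖(x : E K) - y‖ ≤ ρ →
    ‖P 2 y * (P 0 x + P 1 x)‖ ≤ C * (ρ ^ (-(4 * ε)) * ‖(x : E K) - y‖ +
      ρ ^ (1 - 4 * ε) * (‖(x : E K) - y‖ / ρ) ^ α) ∧
    ‖(P 1 y + P 2 y) * P 0 x‖ ≤ C * (ρ ^ (-(4 * ε)) * ‖(x : E K) - y‖ +
      ρ ^ (1 - 4 * ε) * (‖(x : E K) - y‖ / ρ) ^ α)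

/-- PACKET MX (maximal ergodic inequality).  Garsia: `G_n = max_{0 ≤ k ≤ n} S_k (g - l)`; on `{G_n > 0}`: `G_n ≤ (g - l) + G_n ∘ F`, so
`∫_{G_n > 0} (g - l) ≥ ∫ G_n - ∫ G_n ∘ F = 0`, `l μ(G_n > 0) ≤ ∫ g`; `n → ∞`.  (Pool/Agent/Helper49/RS/Birkhoff.lean has this
for probability measures: gmax, maximal_fin.) -/
def StmtMX : Prop := ∀ (X : Type) [MeasurableSpace X] (μ : Measure X) [IsFiniteMeasure μ]
  (F : X → X) (g : X → ℝ) (B : ℝ), MeasurePreserving F μ μ → Measurable g → (∀ x, 0 ≤ g x) →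
  (∀ x, g x ≤ B) → ∀ l > 0,
  μ {x | ∃ n : ℕ, 1 ≤ n ∧ l * n < ∑ j ∈ Finset.range n, g (F^[j] x)} ≤
    ENNReal.ofReal ((∫ x, g x ∂μ) / l)

/-- PACKET CI (central growth is small in the mean).  For a.e. `x` and all `ε > 0`, `‖An n x * Q x‖ ≤ (K + 1) exp (ε n)` for
large `n` (lemma norm_bound in Pool/Agent/Helper50/RZ/E1.lean), so `max 0 (log ‖An n x * Q x‖) / n → 0` a.e.; these functions are
bounded by `log (max ..)`: `‖An n x‖ ≤ G^n max 1 ‖T‖` (`G ≥ 1` a bound of `‖A‖`); dominated convergence.  Measurability: continuity. -/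
def StmtCI : Prop := ∀ (X : Type) [MetricSpace X] [CompactSpace X] [MeasurableSpace X]
  [BorelSpace X] (K : ℕ) (C : Coc X K) (Q : X → End K) (m : Measure X) [IsFiniteMeasure m],
  Sub C Q → (∀ᵐ x ∂m, ∀ v, Q x v = v → v ≠ 0 →
    Tendsto (fun n : ℕ => Real.log ‖C.An n x v‖ / n) atTop (𝓝 0)) →
  Tendsto (fun n : ℕ => (∫ x, max 0 (Real.log ‖C.An n x * Q x‖) ∂m) / n) atTop (𝓝 0)

/-- PACKET UC (charts with uniform bounds).  At each `x ∈ M` the chart of `SmoothVolume.chart`; the derivatives are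
bounded near `x`; finite subcover. -/
def StmtUC : Prop := ∀ (N K : ℕ) (M : Set (E K)) (m : Measure (E K)), SmoothVolume N K M m →
  ∃ R : ℝ, 1 ≤ R ∧ ∀ x ∈ M, ∃ (c : Chart N K M) (z : E N), z ∈ c.V ∧ c.ψ z = x ∧
    ‖fderiv ℝ c.ψ z‖ ≤ R ∧ ‖fderiv ℝ c.φ (c.ψ z)‖ ≤ R ∧
    ∀ A : Set (E N), MeasurableSet A → A ⊆ c.V → m (c.ψ '' A) = volume A

/-- PACKET DV (volume preserving maps have Jacobian 1 in the charts; from T1, T2).  `ĝ = c'.φ ∘ g ∘ c.ψ` is `C^1` on the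
open neighbourhood `V0 = {z ∈ c.V | g (c.ψ z) ∈ c'.W}` of `z` (`g ∘ ψ` is continuous on `V`), its derivative at `z` is the composition in the statement (T1, T2:
`fderiv (g ∘ ψ) z = der M g (ψ z) ∘ fderiv ψ z`).  For measurable `A ⊆ V0`: `volume (ĝ '' A) = m (c'.ψ '' (ĝ '' A)) = m (g '' (c.ψ '' A)) =
m (c.ψ '' A) = volume A` (`Preserves` for the set `g '' (c.ψ '' A)`, `g` is injective on `M`; images of measurable sets under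
continuous injective maps are measurable, or apply `Preserves` to `g'`, see MS in GoalsB).  `∫⁻_A |det ĝ'| = volume (ĝ '' A)`
(`MeasureTheory.lintegral_abs_det_fderiv_eq_addHaar_image`, `ĝ` is injective on `V0`), so `|det ĝ'| = 1` a.e. on `V0`, hence
everywhere on `V0` by continuity. -/
def StmtDV : Prop := ∀ (N K : ℕ) (M : Set (E K)) (m : Measure (E K)) (g g' : E K → E K)
  (c c' : Chart N K M), SmoothVolume N K M m → IsDiffeo 1 M g g' → Preserves M m g →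
  (∀ A : Set (E N), MeasurableSet A → A ⊆ c.V → m (c.ψ '' A) = volume A) →
  (∀ A : Set (E N), MeasurableSet A → A ⊆ c'.V → m (c'.ψ '' A) = volume A) →
  ∀ z ∈ c.V, ∀ z' ∈ c'.V, g (c.ψ z) = c'.ψ z' →
  |((fderiv ℝ c'.φ (c'.ψ z')) ∘L (der M g (c.ψ z)) ∘L (fderiv ℝ c.ψ z)).det| = 1

/-- PACKET BA (determinants, linear algebra).  `α = ‖L p 0‖`, `γ = ‖L p 1‖`, `β = ‖L p 2‖` are positive (`L` is injective).
`L' = L (α⁻¹ p 0 + γ⁻¹ p 1 + β⁻¹ p 2)` has norm `≤ 3`, so `|det L'| ≤ 3^N` (the image of the unit ball has volume `|det L'|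
vol(ball)`, `addHaar_image_continuousLinearMap`).  `det (x p 0 + y p 1 + z p 2) = x z y^(N-2)`: it is `y (1 + (x/y - 1) p 0)
(1 + (z/y - 1) p 2)` and `det (1 + s p) = 1 + s` for a projection `p` of rank one. -/
def StmtBA : Prop := ∀ (N : ℕ) (L : End N) (p : Fin 3 → End N), Proj3 p → (∀ i, p i ≠ 0) →
  Module.finrank ℝ (LinearMap.range (p 0 : E N →ₗ[ℝ] E N)) = 1 →
  Module.finrank ℝ (LinearMap.range (p 2 : E N →ₗ[ℝ] E N)) = 1 → |L.det| = 1 →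
  1 ≤ 3 ^ N * (‖L * p 0‖ * ‖L * p 2‖ * ‖L * p 1‖ ^ (N - 2))

/-- PACKET BL (volume preservation, product of the norms; from T1, T2, T5, UC, DV, BA).  `x ∈ M`, `g = f^[n]` (a `C^1`
diffeomorphism with inverse `f'^[n]`, preserves `m`: MS in GoalsB, first part, may be assumed), charts of UC at `x` and at
`g x`, `u, v, u', v'` the derivatives, `L = v' ∘ An n x ∘ u`, `p i = v ∘ P i x ∘ u` : complementary projections (T1: `v u = 1`,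
`u v Pi = Pi`), nonzero, of the same rank as `P i x`; `L p i = v' ∘ (An n x * P i x) ∘ u`, `‖L p i‖ ≤ R² ‖An n x * P i x‖`.  DV:
`|det L| = 1`. -/
def StmtBL : Prop := ∀ (N K : ℕ) (M : Set (E K)) (m : Measure (E K)) (f f' : E K → E K)
  (P : Fin 3 → E K → End K) (C : Coc M K), SmoothVolume N K M m → IsDiffeo 1 M f f' →
  Preserves M m f → PH M f f' P → Rep C f f' →
  (∀ x ∈ M, Module.finrank ℝ (LinearMap.range (P 0 x : E K →ₗ[ℝ] E K)) = 1 ∧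
    Module.finrank ℝ (LinearMap.range (P 2 x : E K →ₗ[ℝ] E K)) = 1) →
  ∃ κ : ℝ, 0 < κ ∧ ∀ (n : ℕ) (x : M),
    κ ≤ ‖C.An n x * P 0 x‖ * ‖C.An n x * P 2 x‖ * ‖C.An n x * P 1 x‖ ^ (N - 2)

/-- PACKET BS (balance).  `‖D.An n x * P 0 x‖ ≤ ∏_{j<n} ‖A (f^j x) P 0 (f^j x)‖ ≤ exp (-∑ b + n C0)` (up to the factor `R` for
`n = 0`), `‖An n x * P 2 x‖ ≤ exp (∑ a + n (C0 + log R)) R`, `‖An n x * P 1 x‖ ≤ exp (∑ c + n (C0 + log R)) R`; take the logarithm of the first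
assumption: `∑ b - ∑ a ≤ (N - 2) ∑ c + ..`.  For the inverse at the point `f^n x`: `‖D.inv.An n (f^n x) * P i (f^n x)‖ ≤ ∏_{j<n}
‖B (f^(j+1) x) P i (f^(j+1) x)‖`, with `‖B P 0‖ ≤ R exp (b + C0)`, `‖B P 2‖ ≤ exp (-a + C0)`, `‖B P 1‖ ≤ R exp (c + C0)`. -/
def StmtBS : Prop := ∀ (X : Type) [MetricSpace X] [CompactSpace X] (K N : ℕ) (D : Coc X K)
  (P : Fin 3 → X → End K) (a b c : X → ℝ) (C0 R κ : ℝ), Spl D P → Rates D P a b c C0 → 0 ≤ C0 →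
  1 ≤ R → (∀ i x, ‖P i x‖ ≤ R) → 0 < κ →
  (∀ (n : ℕ) (x : X), κ ≤ ‖D.An n x * P 0 x‖ * ‖D.An n x * P 2 x‖ *
    ‖D.An n x * P 1 x‖ ^ (N - 2)) →
  (∀ (n : ℕ) (x : X), κ ≤ ‖D.inv.An n x * P 0 x‖ * ‖D.inv.An n x * P 2 x‖ *
    ‖D.inv.An n x * P 1 x‖ ^ (N - 2)) →
  ∃ C' : ℝ, 0 ≤ C' ∧ ∀ (n : ℕ) (x : X),
    |∑ j ∈ Finset.range n, (a (D.f^[j] x) - b (D.f^[j] x))| ≤
      N * ∑ j ∈ Finset.range n, c (D.f^[j] x) + n * (N + 2) * (C0 + Real.log R) + C'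

/-- PACKET NM (almost every point is not periodic; from T1, T2).  Fix `j ≥ 1` and a chart `c` of `SmoothVolume.chart`.
`G = φ ∘ f^[j] ∘ ψ` is `C^1` on the open set `V0 = {z ∈ V | f^[j] (ψ z) ∈ W}`, and `G = id` on `S = {z ∈ V0 | f^[j] (ψ z) = ψ z}` (measurable).  By
`ApproximatesLinearOn.norm_fderiv_sub_le` (with `A = id`, `δ = 0`, `s = S`) `fderiv G z = id` for a.e. `z ∈ S`.  But at a point `z ∈ S`
`fderiv G z = id` means `der M (f^[j]) x = Pi M x`, `x = ψ z`, contradiction to partial hyperbolicity (as in packet NP: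
Pool/Agent/Helper85/RZ/NP.lean, lemma contr): so `volume S = 0`, `m (ψ '' S) = 0`.  `M` is covered by finitely many chart domains. -/
def StmtNM : Prop := ∀ (N K : ℕ) (M : Set (E K)) (m : Measure (E K)) (f f' : E K → E K)
  (P : Fin 3 → E K → End K), SmoothVolume N K M m → IsDiffeo 1 M f f' → PH M f f' P →
  ∀ᵐ x ∂m, ∀ j : ℕ, 1 ≤ j → f^[j] x ≠ x

/-- PACKET DN (domination of the iterates).  Compactness of the sets of unit vectors of the subbundles gives `q < 1` with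
`‖An n x v‖ ≤ q ‖v‖` for `v = P 0 x v`, `‖inv.An n x v‖ ≤ q ‖v‖` for `v = P 2 x v`, and `‖An n x w‖ ‖v‖ ≤ q ‖An n x v‖ ‖w‖` for `w = P i x w`,
`v = P j x v`, `i < j` (for `(0, 2)` use a unit vector of the range of `P 1 x`); iterate `k` times (`An ((k+1) n) x = An n (f^(kn) x) An (k n) x`).
Third claim: for all `u, u'` with `w = P i x u`, `v = inv.An (k n) (f^(kn) x) (P j (f^(kn) x) u')`: `An (k n) x v = P j (..) u'`, so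
`‖An (k n) x w‖ ‖v‖ ≤ q^k ‖P j u'‖ ‖P i u‖ ≤ q^k R² ‖u‖ ‖u'‖`.  (See packet A1, Pool/Agent/Helper64/RZ/A1.lean.) -/
def StmtDN : Prop := ∀ (X : Type) [MetricSpace X] [CompactSpace X] (K : ℕ) (C : Coc X K)
  (P : Fin 3 → X → End K) (n : ℕ), Spl C P → Dom C P n → ∃ q Cq : ℝ, 0 < q ∧ q < 1 ∧ 1 ≤ Cq ∧
  ∀ (k : ℕ) (x : X), ‖C.An (k * n) x * P 0 x‖ ≤ Cq * q ^ k ∧
    ‖C.inv.An (k * n) x * P 2 x‖ ≤ Cq * q ^ k ∧
    ∀ i j : Fin 3, i < j → ‖C.An (k * n) x * P i x‖ *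
      ‖C.inv.An (k * n) (C.f^[k * n] x) * P j (C.f^[k * n] x)‖ ≤ Cq * q ^ k

/-- PACKET RT (rates of the powers; from DN).  `k` so large that `Cq q^k ≤ 1`.  Rank one: if `P` is an invariant
subbundle of rank one then `‖A x P x‖ ‖B (f x) P (f x)‖ ≤ R²` (with `ν = ‖A u‖` for a unit vector `u` of the range of `P x`:
`‖A P‖ = ν ‖P x‖`, `‖B P‖ = ν⁻¹ ‖P (f x)‖`).  `‖P 2‖ ≥ 1`, `‖P 2 x‖ ≤ ‖B (f x) P 2 (f x)‖ ‖A x P 2 x‖` (`B A P 2 = P 2`), so with DN `‖A P 2‖ ≥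
1/(Cq q^k)`, `‖A P 0‖ ≤ Cq q^k`, `‖A P i‖ ≤ Cq q^k / ‖B P 2‖ ≤ Cq q^k ‖A P 2‖` for `i < 2`, so `‖A‖ ≤ 3 exp a` (`A = A T = ∑ A P i`); `‖B P j‖ ≤ Cq q^k /
‖A P 0‖ = Cq q^k exp b` for `j > 0`, `‖B P 0‖ ≤ R² exp b`; the others are similar.  Continuity: norms of continuous
functions which do not vanish (`A P i ≠ 0`). -/
def StmtRT : Prop := ∀ (X : Type) [MetricSpace X] [CompactSpace X] (K : ℕ) (C : Coc X K)
  (P : Fin 3 → X → End K) (n : ℕ), Spl C P → Dom C P n →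
  (∀ x, Module.finrank ℝ (LinearMap.range (P 0 x : E K →ₗ[ℝ] E K)) = 1 ∧
    Module.finrank ℝ (LinearMap.range (P 2 x : E K →ₗ[ℝ] E K)) = 1) →
  ∃ (C0 l : ℝ) (k0 : ℕ), 0 ≤ C0 ∧ 0 < l ∧ 1 ≤ k0 ∧ ∀ k ≥ k0, ∀ D : Coc X K, IsPow C D (k * n) →
    Spl D P → Rates D P (fun x => Real.log ‖D.A x * P 2 x‖) (fun x => - Real.log ‖D.A x * P 0 x‖)
      (fun x => max 0 (max (Real.log ‖D.A x * P 1 x‖)
        (Real.log ‖D.B (D.f x) * P 1 (D.f x)‖))) C0 ∧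
    ∀ x, l * k ≤ Real.log ‖D.A x * P 2 x‖ ∧ l * k ≤ - Real.log ‖D.A x * P 0 x‖

/-- modulus of continuity at `x0` at the scale of the perturbation -/
def Modul {K : ℕ} (M : Set (E K)) (P : Fin 3 → E K → End K) (r : ℕ) (x0 : E K) : Prop :=
  ∀ C' > 0, ∀ η > 0, ∃ ρ1 > 0, ∀ ρ : ℝ, 0 < ρ → ρ ≤ ρ1 → ∀ x ∈ M, ∀ y ∈ M, ‖x - x0‖ ≤ C' * ρ →
    ‖y - x0‖ ≤ C' * ρ → ‖x - y‖ ≤ C' * ρ ^ r → ∀ i, ‖P i x - P i y‖ ≤ η * ρ ^ (r - 1)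

/-- PACKET K3 (packet K2 under a weaker hypothesis; from F1, F3).  As K2 (Pool/Agent/Helper74/RZ/K2.lean): `‖z - z0‖ ≤ C' ρ`,
`‖z' - z0‖ ≤ C' ρ`, `‖z' - z‖ ≤ C' ρ t ≤ C' ρ^r`, so `‖ph i z' - ph i z‖ ≤ η' ρ^(r-1) = (η'/a) t`; `ph i z`, `ph i z'` are close to `ph i z0` by
continuity at `z0`. -/
def StmtK3 : Prop := ∀ (N r : ℕ) (a r0 : ℝ) (z0 : E N) (ph : Fin 3 → E N → End N)
  (d : Tw N (fun i => ph i z0)), 2 ≤ r → 0 < a → a ≤ 1 → 0 < r0 →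
  (∀ z ∈ Metric.closedBall z0 r0, Proj3 (fun i => ph i z)) → (∀ i, ContinuousAt (ph i) z0) →
  (∀ C' > 0, ∀ η > 0, ∃ ρ1 > 0, ∀ ρ : ℝ, 0 < ρ → ρ ≤ ρ1 → ∀ z z' : E N, ‖z - z0‖ ≤ C' * ρ →
    ‖z' - z0‖ ≤ C' * ρ → ‖z - z'‖ ≤ C' * ρ ^ r → ∀ i, ‖ph i z - ph i z'‖ ≤ η * ρ ^ (r - 1)) →
  ∀ η > 0, ∃ ρ1 > 0, ∀ ρ : ℝ, 0 < ρ → ρ ≤ ρ1 → ∀ y : E N, d.q y ≤ 1 →
    z0 + ρ • y ∈ Metric.closedBall z0 r0 ∧ z0 + ρ • d.H (a * ρ ^ (r - 1)) y ∈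
      Metric.closedBall z0 r0 ∧
    fderiv ℝ (d.H (a * ρ ^ (r - 1))) y * fderiv ℝ (d.H (-(a * ρ ^ (r - 1))))
      (d.H (a * ρ ^ (r - 1)) y) = 1 ∧
    fderiv ℝ (d.H (-(a * ρ ^ (r - 1)))) (d.H (a * ρ ^ (r - 1)) y) *
      fderiv ℝ (d.H (a * ρ ^ (r - 1))) y = 1 ∧
    ‖fderiv ℝ (d.H (a * ρ ^ (r - 1))) y - 1‖ ≤ η ∧
    ‖fderiv ℝ (d.H (-(a * ρ ^ (r - 1)))) (d.H (a * ρ ^ (r - 1)) y) - 1‖ ≤ η ∧
    (∀ i, ‖ph i (z0 + ρ • y) - ph i z0‖ ≤ η ∧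
      ‖ph i (z0 + ρ • d.H (a * ρ ^ (r - 1)) y) - ph i z0‖ ≤ η) ∧
    (∀ i j, i ≠ j →
      ‖ph i (z0 + ρ • d.H (a * ρ ^ (r - 1)) y) * fderiv ℝ (d.H (a * ρ ^ (r - 1))) y *
          ph j (z0 + ρ • y) - (a * ρ ^ (r - 1)) • (ph i z0 * fderiv ℝ d.X y * ph j z0)‖
        ≤ η * (a * ρ ^ (r - 1)) ∧
      ‖ph i (z0 + ρ • y) * fderiv ℝ (d.H (-(a * ρ ^ (r - 1)))) (d.H (a * ρ ^ (r - 1)) y) *
          ph j (z0 + ρ • d.H (a * ρ ^ (r - 1)) y)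
          + (a * ρ ^ (r - 1)) • (ph i z0 * fderiv ℝ d.X y * ph j z0)‖
        ≤ η * (a * ρ ^ (r - 1)))

/-- PACKET K4 (the modulus of continuity in the chart).  `phat c P i z = v(z) P i (ψ z) u(z)` with `u = fderiv ψ`, `v = fderiv φ ∘ ψ`,
Lipschitz and bounded near `z0`, as `ψ` is; `P i` is bounded near `ψ z0` (continuous within `M`).  `‖phat z - phat z'‖ ≤ C ‖P i (ψ z) - P i (ψ z')‖ +
C ‖z - z'‖`, and `C'' ρ^r ≤ η ρ^(r-1)` for small `ρ`. -/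
def StmtK4 : Prop := ∀ (N K r : ℕ) (M : Set (E K)) (c : Chart N K M) (P : Fin 3 → E K → End K)
  (z0 : E N), z0 ∈ c.V → 1 ≤ r → (∀ i, ContinuousOn (P i) M) → Modul M P r (c.ψ z0) →
  (∀ i, ContinuousAt (phat c P i) z0) ∧
  ∀ C' > 0, ∀ η > 0, ∃ ρ1 > 0, ∀ ρ : ℝ, 0 < ρ → ρ ≤ ρ1 → ∀ z z' : E N, ‖z - z0‖ ≤ C' * ρ →
    ‖z' - z0‖ ≤ C' * ρ → ‖z - z'‖ ≤ C' * ρ ^ r → ∀ i,
    ‖phat c P i z - phat c P i z'‖ ≤ η * ρ ^ (r - 1)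

end Pool.Agent.Helper56.RZ
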