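import Pool.Agent.Helper56.RZ.Defs

/-!
# Project RZ: abstract linear cocycles over homeomorphisms of compact metric spaces
-/

set_option autoImplicit false

open Set Filter Topology MeasureTheory

open scoped ContDiff

namespace Pool.Agent.Helper56.RZ

/-- A continuous invertible linear cocycle over a homeomorphism `f` of `X`: the fibre at `x` is the range
of the projection `T x`; `A x : fibre x → fibre (f x)`, `B x : fibre x → fibre (f⁻¹ x)`, extended by `0` to
the kernels of the projections. -/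
structure Coc (X : Type) [TopologicalSpace X] (K : ℕ) where
  /-- base map -/
  f : X ≃ₜ X
  /-- cocycle -/
  A : X → End K
  /-- inverse cocycle -/
  B : X → End K
  /-- projection onto the fibre -/
  T : X → End K
  contA : Continuous A
  contB : Continuous B
  contT : Continuous T
  TT : ∀ x, T x * T x = T x
  AT : ∀ x, A x * T x = A x
  TA : ∀ x, T (f x) * A x = A x
  BT : ∀ x, B x * T x = B x
  TB : ∀ x, T (f.symm x) * B x = B x
  BA : ∀ x, B (f x) * A x = T x
  AB : ∀ x, A x * B (f x) = T (f x)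

namespace Coc

variable {X : Type} [TopologicalSpace X] {K : ℕ}

/-- inverse cocycle, over `f⁻¹` -/
def inv (C : Coc X K) : Coc X K where
  f := C.f.symm
  A := C.B
  B := C.A
  T := C.T
  contA := C.contB
  contB := C.contA
  contT := C.contT
  TT := C.TT
  AT := C.BT
  TA := C.TB
  BT := C.AT
  TB := by intro x; simpa using C.TA x
  BA := by intro x; simpa using C.AB (C.f.symm x)
  AB := by intro x; simpa using C.BA (C.f.symm x)

/-- composition: the cocycle over `C.f ∘ H.f` -/
def comp (C H : Coc X K) (e : H.T = C.T) : Coc X K where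
  f := H.f.trans C.f
  A := fun x => C.A (H.f x) * H.A x
  B := fun x => H.B (C.f.symm x) * C.B x
  T := C.T
  contA := (C.contA.comp H.f.continuous).mul H.contA
  contB := (H.contB.comp C.f.symm.continuous).mul C.contB
  contT := C.contT
  TT := C.TT
  AT := by intro x; rw [mul_assoc, ← e, H.AT]
  TA := by
    intro x
    rw [Homeomorph.trans_apply, ← mul_assoc, C.TA]
  BT := by intro x; rw [mul_assoc, C.BT]
  TB := by
    intro x
    rw [← mul_assoc, ← e]
    change H.T (H.f.symm (C.f.symm x)) * _ * _ = _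
    rw [H.TB]
  BA := by
    intro x
    rw [Homeomorph.trans_apply, Homeomorph.symm_apply_apply,
      show H.B (H.f x) * C.B (C.f (H.f x)) * (C.A (H.f x) * H.A x)
        = H.B (H.f x) * ((C.B (C.f (H.f x)) * C.A (H.f x)) * H.A x) by simp only [mul_assoc],
      C.BA, ← e, H.TA, H.BA]
  AB := by
    intro x
    rw [Homeomorph.trans_apply, Homeomorph.symm_apply_apply,
      show C.A (H.f x) * H.A x * (H.B (H.f x) * C.B (C.f (H.f x)))
        = C.A (H.f x) * ((H.A x * H.B (H.f x)) * C.B (C.f (H.f x))) by simp only [mul_assoc],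
      H.AB, e, ← mul_assoc, C.AT, C.AB]

/-- iterates: `An n x : fibre x → fibre (f^n x)` -/
def An (C : Coc X K) : ℕ → X → End K
  | 0, x => C.T x
  | n + 1, x => C.A (C.f^[n] x) * C.An n x

/-- the point `x` is off the support of the perturbation -/
def Off (H : Coc X K) (x : X) : Prop := H.f x = x ∧ H.A x = H.T x

end Coc

/-- an invariant splitting of the fibres into `F ⊕ G` -/
structure Pair {X : Type} [TopologicalSpace X] {K : ℕ} (C : Coc X K) (F G : X → End K) : Prop where
  contF : Continuous F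
  contG : Continuous G
  FF : ∀ x, F x * F x = F x
  GG : ∀ x, G x * G x = G x
  FG : ∀ x, F x * G x = 0
  GF : ∀ x, G x * F x = 0
  sum : ∀ x, F x + G x = C.T x
  AF : ∀ x, C.A x * F x = F (C.f x) * C.A x
  AG : ∀ x, C.A x * G x = G (C.f x) * C.A x

/-- some power of the cocycle contracts `Hom (F, G)` -/
def Contr {X : Type} [TopologicalSpace X] {K : ℕ} (C : Coc X K) (F G : X → End K) : Prop :=
  ∃ (n : ℕ) (l : ℝ), 0 < l ∧ l < 1 ∧ ∀ (x : X) (s : End K), G x * s * F x = s →
    ‖C.An n x * s * C.inv.An n (C.f^[n] x)‖ ≤ l * ‖s‖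

/-- `H` is `δ`-close to the identity -/
def Near {X : Type} [MetricSpace X] {K : ℕ} (H : Coc X K) (δ : ℝ) : Prop :=
  ∀ x, dist (H.f x) x ≤ δ ∧ ‖H.A x - H.T x‖ ≤ δ ∧ ‖H.B x - H.T x‖ ≤ δ

/-- two cocycles over the same fibres are `δ`-close -/
def Close {X : Type} [MetricSpace X] {K : ℕ} (C C' : Coc X K) (δ : ℝ) : Prop :=
  C'.T = C.T ∧ ∀ x, dist (C'.f x) (C.f x) ≤ δ ∧ dist (C'.f.symm x) (C.f.symm x) ≤ δ ∧
    ‖C'.A x - C.A x‖ ≤ δ ∧ ‖C'.B x - C.B x‖ ≤ δ

/-- an invariant splitting into three subbundles -/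
structure Spl {X : Type} [TopologicalSpace X] {K : ℕ} (C : Coc X K) (P : Fin 3 → X → End K) :
    Prop where
  cont : ∀ i, Continuous (P i)
  proj : ∀ x, ∀ i j, P i x * P j x = if i = j then P i x else 0
  sum : ∀ x, P 0 x + P 1 x + P 2 x = C.T x
  ne : ∀ x i, P i x ≠ 0
  inv : ∀ x i, C.A x * P i x = P i (C.f x) * C.A x

/-- the inequalities of strong partial hyperbolicity for the `n`-th iterate -/
def Dom {X : Type} [TopologicalSpace X] {K : ℕ} (C : Coc X K) (P : Fin 3 → X → End K) (n : ℕ) :
    Prop := 1 ≤ n ∧ ∀ x,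
  (∀ v, P 0 x v = v → v ≠ 0 → ‖C.An n x v‖ < ‖v‖) ∧
  (∀ v, P 2 x v = v → v ≠ 0 → ‖C.inv.An n x v‖ < ‖v‖) ∧
  (∀ v w, P 0 x v = v → P 1 x w = w → ‖v‖ = 1 → ‖w‖ = 1 → ‖C.An n x v‖ < ‖C.An n x w‖) ∧
  (∀ v w, P 1 x v = v → P 2 x w = w → ‖v‖ = 1 → ‖w‖ = 1 → ‖C.An n x v‖ < ‖C.An n x w‖)

/-- adapted norms on `Hom (F, G)`, contracted by one step of the cocycle -/
structure Adapt {X : Type} [TopologicalSpace X] {K : ℕ} (C : Coc X K) (F G : X → End K)
    (nu : X → End K → ℝ) (c l : ℝ) : Prop where
  cont : Continuous (fun p : X × End K => nu p.1 p.2)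
  add : ∀ x s t, nu x (s + t) ≤ nu x s + nu x t
  smul : ∀ x (a : ℝ) s, nu x (a • s) = |a| * nu x s
  lower : ∀ x s, G x * s * F x = s → ‖s‖ ≤ nu x s
  upper : ∀ x s, nu x s ≤ c * ‖s‖
  lpos : 0 < l
  l1 : l < 1
  step : ∀ x s, G x * s * F x = s → nu (C.f x) (C.A x * s * C.B (C.f x)) ≤ l * nu x s

section graph
variable {X : Type} [TopologicalSpace X] {K : ℕ} (C H : Coc X K) (F G : X → End K)

/-- the error term of the graph transform -/
noncomputable def gtE (x : X) (s : End K) : End K :=
  F x * H.B (H.f x) * G (H.f x) * H.A x * F x - F x * H.B (H.f x) * F (H.f x) * H.A x * s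

/-- a left inverse of the `F`-part of the derivative of `H` on the graph of `s` -/
noncomputable def gtR (x : X) (s : End K) : End K :=
  Ring.inverse (1 - gtE H F G x s) * (F x * H.B (H.f x) * F (H.f x))

/-- graph transform: the graph of `s` over `F x` is mapped by the cocycle of `C ∘ H` to the graph of
`gt C H F G x s` over `F (C.f (H.f x))` -/
noncomputable def gt (x : X) (s : End K) : End K :=
  C.A (H.f x) * (G (H.f x) * H.A x * (F x + s)) * gtR H F G x s * C.B (C.f (H.f x))

end graph

/-- the projection onto the range of `Φ` along the range of `Ψ`, where `Φ`, `Ψ` are projections close to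
the complementary projections `F`, `G` of `T` -/
noncomputable def qproj {K : ℕ} (T F G Φ Ψ : End K) : End K :=
  (Φ * F + Ψ * G) * F * Ring.inverse (Φ * F + Ψ * G + 1 - T)

/-- the positive definite form `|T P v|^2 + |(1 - P) v|^2` -/
noncomputable def NN {K : ℕ} (T P : End K) : End K :=
  (ContinuousLinearMap.adjoint (T * P)) * (T * P) +
    (ContinuousLinearMap.adjoint (1 - P)) * (1 - P)

/-- volume distortion of `T` on the range of the projection `P` -/
noncomputable def Jac {K : ℕ} (T P : End K) : ℝ :=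
  Real.sqrt (LinearMap.det (NN T P : E K →ₗ[ℝ] E K) / LinearMap.det (NN 1 P : E K →ₗ[ℝ] E K))

/-- integral of the logarithm of the volume distortion on the subbundle `P` -/
noncomputable def Lam {X : Type} [TopologicalSpace X] [MeasurableSpace X] {K : ℕ} (C : Coc X K)
    (P : X → End K) (m : Measure X) : ℝ := ∫ x, Real.log (Jac (C.A x) (P x)) ∂m

/-- an invariant subbundle -/
structure Sub {X : Type} [TopologicalSpace X] {K : ℕ} (C : Coc X K) (P : X → End K) : Prop where
  cont : Continuous P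
  PP : ∀ x, P x * P x = P x
  PT : ∀ x, P x * C.T x = P x
  TP : ∀ x, C.T x * P x = P x
  inv : ∀ x, C.A x * P x = P (C.f x) * C.A x

/-- `Γ x` is the inverse of the isomorphism `P x : range (Q x) → range (P x)` -/
structure Lift {X : Type} [TopologicalSpace X] {K : ℕ} (P Q Γ : X → End K) : Prop where
  cont : Continuous Γ
  GP : ∀ x, Γ x * P x = Γ x
  PG : ∀ x, P x * Γ x = P x
  QG : ∀ x, Q x * Γ x = Γ x
  GQ : ∀ x, Γ x * P x * Q x = Q x

end Pool.Agent.Helper56.RZ
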