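import Mathlib

/-!
# Project RZ (MP_f32c9c_an): definitions

Closed `C^∞` submanifolds `M` of `ℝ^K` with a smooth volume, `C^r` diffeomorphisms of `M`, strongly
partially hyperbolic diffeomorphisms and their central Lyapunov exponents.
-/

set_option autoImplicit false

open Set Filter Topology MeasureTheory

open scoped ContDiff

namespace Pool.Agent.Helper56.RZ

/-- Euclidean space `ℝ^n` -/
abbrev E (n : ℕ) := EuclideanSpace ℝ (Fin n)

/-- linear endomorphisms of `ℝ^n`, with the operator norm; `*` is the composition -/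
abbrev End (n : ℕ) := E n →L[ℝ] E n

/-- A `C^∞` chart of the set `M ⊆ ℝ^K` with values in `ℝ^N`: `W ⊆ ℝ^K` and `V ⊆ ℝ^N` are open, the
`C^∞` maps `φ : W → ℝ^N`, `ψ : V → ℝ^K` are inverse bijections between `M ∩ W` and `V`. -/
structure Chart (N K : ℕ) (M : Set (E K)) where
  /-- domain in `ℝ^K` -/
  W : Set (E K)
  /-- image in `ℝ^N` -/
  V : Set (E N)
  /-- the chart -/
  φ : E K → E N
  /-- the inverse of the chart (local parametrisation) -/
  ψ : E N → E K
  openW : IsOpen W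
  openV : IsOpen V
  smoothφ : ContDiffOn ℝ ∞ φ W
  smoothψ : ContDiffOn ℝ ∞ ψ V
  mapsψ : ∀ z ∈ V, ψ z ∈ M ∩ W
  mapsφ : ∀ x ∈ M ∩ W, φ x ∈ V
  left : ∀ z ∈ V, φ (ψ z) = z
  right : ∀ x ∈ M ∩ W, ψ (φ x) = x

/-- `M` is a (nonempty) closed `N`-dimensional `C^∞` submanifold of `ℝ^K` and `m` is a smooth volume
on `M`: a finite measure on `M` which is Lebesgue measure in suitable `C^∞` charts around every
point. -/
structure SmoothVolume (N K : ℕ) (M : Set (E K)) (m : Measure (E K)) : Prop where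
  compact : IsCompact M
  nonempty : M.Nonempty
  finite : m univ ≠ ⊤
  null : m Mᶜ = 0
  chart : ∀ x ∈ M, ∃ c : Chart N K M, x ∈ c.W ∧
    ∀ A : Set (E N), MeasurableSet A → A ⊆ c.V → m (c.ψ '' A) = volume A

/-- the tangent space of `M` at `x` -/
noncomputable def tan {K : ℕ} (M : Set (E K)) (x : E K) : Submodule ℝ (E K) :=
  Submodule.span ℝ (tangentConeAt ℝ M x)

/-- the orthogonal projection onto the tangent space -/
noncomputable def Pi {K : ℕ} (M : Set (E K)) (x : E K) : End K := (tan M x).starProjection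

/-- the derivative at `x` of the map `f` of `M`, as an endomorphism of `ℝ^K` which vanishes on the
orthogonal complement of the tangent space -/
noncomputable def der {K : ℕ} (M : Set (E K)) (f : E K → E K) (x : E K) : End K :=
  (fderivWithin ℝ f M x) * Pi M x

/-- `f` is a `C^r` diffeomorphism of `M` with the inverse `f'` (only the restrictions to `M`
matter) -/
structure IsDiffeo {K : ℕ} (r : WithTop ℕ∞) (M : Set (E K)) (f f' : E K → E K) : Prop where
  maps : MapsTo f M M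
  maps' : MapsTo f' M M
  left : ∀ x ∈ M, f' (f x) = x
  right : ∀ x ∈ M, f (f' x) = x
  smooth : ContDiffOn ℝ r f M
  smooth' : ContDiffOn ℝ r f' M

/-- `f` preserves the measure `m` on `M` -/
def Preserves {K : ℕ} (M : Set (E K)) (m : Measure (E K)) (f : E K → E K) : Prop :=
  ∀ A : Set (E K), MeasurableSet A → m (f ⁻¹' A ∩ M) = m A

/-- The diffeomorphism `f` of `M` (with inverse `f'`) is strongly partially hyperbolic with the
splitting `TM = E^s ⊕ E^c ⊕ E^u`; `P 0 x`, `P 1 x`, `P 2 x` are the projections (extended by `0` to the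
orthogonal complement of the tangent space) onto `E^s_x`, `E^c_x`, `E^u_x`. -/
structure PH {K : ℕ} (M : Set (E K)) (f f' : E K → E K) (P : Fin 3 → E K → End K) : Prop where
  cont : ∀ i, ContinuousOn (P i) M
  proj : ∀ x ∈ M, ∀ i j, P i x * P j x = if i = j then P i x else 0
  sum : ∀ x ∈ M, P 0 x + P 1 x + P 2 x = Pi M x
  ne : ∀ x ∈ M, ∀ i, P i x ≠ 0
  inv : ∀ x ∈ M, ∀ i, der M f x * P i x = P i (f x) * der M f x
  dom : ∃ n : ℕ, 1 ≤ n ∧ ∀ x ∈ M,
    (∀ v, P 0 x v = v → v ≠ 0 → ‖der M (f^[n]) x v‖ < ‖v‖) ∧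
    (∀ v, P 2 x v = v → v ≠ 0 → ‖der M (f'^[n]) x v‖ < ‖v‖) ∧
    (∀ v w, P 0 x v = v → P 1 x w = w → ‖v‖ = 1 → ‖w‖ = 1 →
      ‖der M (f^[n]) x v‖ < ‖der M (f^[n]) x w‖) ∧
    (∀ v w, P 1 x v = v → P 2 x w = w → ‖v‖ = 1 → ‖w‖ = 1 →
      ‖der M (f^[n]) x v‖ < ‖der M (f^[n]) x w‖)

/-- all central Lyapunov exponents at `x` exist and are equal to `0` -/
def CentralZero {K : ℕ} (M : Set (E K)) (f f' : E K → E K) (P : Fin 3 → E K → End K)
    (x : E K) : Prop :=
  ∀ v, P 1 x v = v → v ≠ 0 →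
    Tendsto (fun n : ℕ => Real.log ‖der M (f^[n]) x v‖ / n) atTop (𝓝 0) ∧
    Tendsto (fun n : ℕ => Real.log ‖der M (f'^[n]) x v‖ / n) atTop (𝓝 0)

/-- the splitting is `α`-Hölder on some nonempty open subset of `M` -/
def HolderSomewhere {K : ℕ} (M : Set (E K)) (P : Fin 3 → E K → End K) (α : ℝ) : Prop :=
  ∃ U : Set (E K), IsOpen U ∧ (M ∩ U).Nonempty ∧ ∃ C : ℝ, ∀ x ∈ M ∩ U, ∀ y ∈ M ∩ U, ∀ i,
    ‖P i x - P i y‖ ≤ C * ‖x - y‖ ^ α

/-- `g` and `f` are `ε`-close in the `C^r` topology, measured on the subsets `L i` of the charts `c i` of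
`M` (finite families of charts and compact sets `L i` give a basis of neighbourhoods of `f` in the `C^r`
topology) -/
def CrClose {N K : ℕ} {M : Set (E K)} (r : ℕ) (ε : ℝ) {ι : Type} (c : ι → Chart N K M)
    (L : ι → Set (E N)) (f g : E K → E K) : Prop :=
  ∀ i, ∀ k ≤ r, ∀ z ∈ L i,
    ‖iteratedFDeriv ℝ k (fun z => g ((c i).ψ z) - f ((c i).ψ z)) z‖ ≤ ε

/-- MAIN THEOREM.  Let `r ≥ 2`, and let `f` be a volume preserving strongly partially hyperbolic `C^r`
diffeomorphism with a splitting that is `α`-Hölder somewhere, `α > 1 - 1/r`.  Then every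
`C^r`-neighbourhood of `f` contains a volume preserving strongly partially hyperbolic diffeomorphism `g`
(with a splitting close to that of `f`), such that it is not true that almost everywhere all central
Lyapunov exponents of `g` are zero. -/
def StmtMain : Prop := ∀ (N K r : ℕ) (α : ℝ) (M : Set (E K)) (m : Measure (E K))
  (f f' : E K → E K) (P : Fin 3 → E K → End K), 2 ≤ r → α ≤ 1 → 1 - 1 / (r : ℝ) < α →
  SmoothVolume N K M m → IsDiffeo r M f f' → Preserves M m f → PH M f f' P →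
  HolderSomewhere M P α →
  ∀ (ι : Type) [Finite ι] (c : ι → Chart N K M) (L : ι → Set (E N)),
  (∀ i, IsCompact (L i) ∧ L i ⊆ (c i).V) → ∀ ε > 0,
  ∃ (g g' : E K → E K) (Q : Fin 3 → E K → End K),
    IsDiffeo r M g g' ∧ Preserves M m g ∧ CrClose r ε c L f g ∧
    PH M g g' Q ∧ (∀ x ∈ M, ∀ i, ‖Q i x - P i x‖ ≤ ε) ∧
    ¬ ∀ᵐ x ∂m, CentralZero M g g' Q x

end Pool.Agent.Helper56.RZ
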