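import Pool.Agent.Helper56.RZ.Fin0
import Pool.Agent.Helper56.RZ.Fin1
import Pool.Agent.Helper1.RZ.CR
import Pool.Agent.Helper12.RZ.F2
import Pool.Agent.Helper12.RZ.OR
import Pool.Agent.Helper3.RZ.E3
import Pool.Agent.Helper33.RZ.B2
import Pool.Agent.Helper34.RZ.F1
import Pool.Agent.Helper34.RZ.F4
import Pool.Agent.Helper35.RZ.MS
import Pool.Agent.Helper36.RZ.LD
import Pool.Agent.Helper39.RZ.CS
import Pool.Agent.Helper39.RZ.G5
import Pool.Agent.Helper41.RZ.QP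
import Pool.Agent.Helper49.RZ.GTB
import Pool.Agent.Helper50.RZ.E1
import Pool.Agent.Helper53.RZ.LI
import Pool.Agent.Helper53.RZ.SW
import Pool.Agent.Helper55.RZ.T5
import Pool.Agent.Helper57.RZ.T1
import Pool.Agent.Helper57.RZ.T3
import Pool.Agent.Helper58.RZ.L2
import Pool.Agent.Helper59.RZ.G3
import Pool.Agent.Helper62.RZ.G2
import Pool.Agent.Helper64.RZ.A1
import Pool.Agent.Helper64.RZ.INT
import Pool.Agent.Helper69.RZ.F3
import Pool.Agent.Helper70.RZ.DP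
import Pool.Agent.Helper73.RZ.E2
import Pool.Agent.Helper74.RZ.K2
import Pool.Agent.Helper77.RZ.PP
import Pool.Agent.Helper82.RZ.GTA
import Pool.Agent.Helper85.RZ.NP
import Pool.Agent.Helper93.RZ.B1
import Pool.Agent.Helper95.RZ.AN
import Pool.Agent.Helper95.RZ.K1
import Pool.Agent.Helper98.RZ.G1

/-!
# Project RZ: everything except the determinant packets and L1
-/

set_option autoImplicit false

namespace Pool.Agent.Helper56.RZ

theorem all_but (hJ1 : StmtJ1) (hJ2 : StmtJ2) (hJ3 : StmtJ3) (hL1 : StmtL1) : StmtFinal := by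
  have hAN := Pool.Agent.Helper95.RZ.an
  have hGTA := Pool.Agent.Helper82.RZ.gta
  have hGTB := Pool.Agent.Helper49.RZ.gtb
  have hPP := Pool.Agent.Helper77.RZ.pp hAN hGTA hGTB
  have hB1 := Pool.Agent.Helper93.RZ.b1 hPP Pool.Agent.Helper41.RZ.qp
  have hA1 := Pool.Agent.Helper64.RZ.a1
  have hCL := Pool.Agent.Helper39.RZ.cl
  have hCS := Pool.Agent.Helper39.RZ.cs
  have hB2 := Pool.Agent.Helper33.RZ.b2 hA1 hB1 hCL hCS
  have hDP := Pool.Agent.Helper70.RZ.dp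
  have hLI := Pool.Agent.Helper53.RZ.li
  have hE1 := Pool.Agent.Helper50.RZ.e1 hJ1 hJ2 hJ3
  have hE2 := Pool.Agent.Helper73.RZ.e2 hJ1 hJ2 hJ3
  have hE3 := Pool.Agent.Helper3.RZ.e3 hE2 hJ1 hJ2 hJ3
  have hL2 := Pool.Agent.Helper58.RZ.l2 hL1
  have hLD := Pool.Agent.Helper36.RZ.ld
  have hF1 := Pool.Agent.Helper34.RZ.f1
  have hF2 := Pool.Agent.Helper12.RZ.f2 hF1
  have hF3 := Pool.Agent.Helper69.RZ.f3 hF1
  have hF4 := Pool.Agent.Helper34.RZ.f4 hF1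
  have hK2 := Pool.Agent.Helper74.RZ.k2 hF1 hF3
  have hT2 := Pool.Agent.Helper57.RZ.t2
  have hT1 := Pool.Agent.Helper57.RZ.t1
  have hT3 := Pool.Agent.Helper57.RZ.t3 hT2
  have hT4 := Pool.Agent.Helper57.RZ.t4 hT2 hT3
  have hT5 := Pool.Agent.Helper55.RZ.t5 hT2
  have hSW := Pool.Agent.Helper53.RZ.sw
  have hG1 := Pool.Agent.Helper98.RZ.g1 hF1 hT1 hT2
  have hG2 := Pool.Agent.Helper62.RZ.g2 hF1
  have hG3 := Pool.Agent.Helper59.RZ.g3 hF1 hF2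
  have hG5 := Pool.Agent.Helper39.RZ.g5 hG1 hG2 hT2 hT4
  have hK1 := Pool.Agent.Helper95.RZ.k1 hT1
  have hNP := Pool.Agent.Helper85.RZ.np hT2
  have hMS := Pool.Agent.Helper35.RZ.ms
  have hINT := Pool.Agent.Helper64.RZ.int
  have hORB := Pool.Agent.Helper12.RZ.orb
  have hNB := Pool.Agent.Helper12.RZ.nb hF1
  have hCR := Pool.Agent.Helper1.RZ.cr
  have h0 : StmtMainJ := mainJ hB2 hDP hCL hLI hE3 hL2 hLD hF1 hF3 hF4 hK2 hT1 hT4 hT5 hG1
    hG2 hG3 hG5 hK1 hNP hMS hINT hORB hNB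
  exact mainF h0 hJ1 hJ2 hJ3 hE1 hT4 hT5 hSW hMS hCR

end Pool.Agent.Helper56.RZ
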