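import Pool.Agent.Helper56.RZ.Fin2
import Pool.Agent.Helper56.RZ.FinM
import Pool.Agent.Helper12.RZ.BS
import Pool.Agent.Helper16.RZ.LP
import Pool.Agent.Helper18.RZ.RC
import Pool.Agent.Helper23.RZ.K4
import Pool.Agent.Helper3.RZ.UC
import Pool.Agent.Helper36.RZ.MX
import Pool.Agent.Helper39.RZ.DN
import Pool.Agent.Helper41.RZ.NM
import Pool.Agent.Helper47.RZ.RT
import Pool.Agent.Helper49.RZ.LZ
import Pool.Agent.Helper50.RZ.OD
import Pool.Agent.Helper54.RZ.RG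
import Pool.Agent.Helper65.RZ.LN
import Pool.Agent.Helper69.RZ.AL
import Pool.Agent.Helper70.RZ.BL
import Pool.Agent.Helper74.RZ.BA
import Pool.Agent.Helper79.RZ.DV
import Pool.Agent.Helper86.RZ.CI
import Pool.Agent.Helper89.RZ.PW
import Pool.Agent.Helper96.RZ.HA

/-!
# Project RZ: the second theorem, everything except J1, J2, J3, L1, K3
-/

set_option autoImplicit false

namespace Pool.Agent.Helper56.RZ

theorem all_butB (hJ1 : StmtJ1) (hJ2 : StmtJ2) (hJ3 : StmtJ3) (hL1 : StmtL1) (hK3 : StmtK3) :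
    StmtFinalB := by
  have hAN := Pool.Agent.Helper95.RZ.an
  have hGTA := Pool.Agent.Helper82.RZ.gta
  have hGTB := Pool.Agent.Helper49.RZ.gtb
  have hPP := Pool.Agent.Helper77.RZ.pp hAN hGTA hGTB
  have hB1 := Pool.Agent.Helper93.RZ.b1 hPP Pool.Agent.Helper41.RZ.qp
  have hA1 := Pool.Agent.Helper64.RZ.a1
  have hCL := Pool.Agent.Helper39.RZ.cl
  have hCS := Pool.Agent.Helper39.RZ.cs
  have hB2 := Pool.Agent.Helper33.RZ.b2 hA1 hB1 hCL hCS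
  have hDP := Pool.Agent.Helper70.RZ.dp
  have hLI := Pool.Agent.Helper53.RZ.li
  have hE1 := Pool.Agent.Helper50.RZ.e1 hJ1 hJ2 hJ3
  have hE2 := Pool.Agent.Helper73.RZ.e2 hJ1 hJ2 hJ3
  have hE3 := Pool.Agent.Helper3.RZ.e3 hE2 hJ1 hJ2 hJ3
  have hL2 := Pool.Agent.Helper58.RZ.l2 hL1
  have hLD := Pool.Agent.Helper36.RZ.ld
  have hF1 := Pool.Agent.Helper34.RZ.f1
  have hF2 := Pool.Agent.Helper12.RZ.f2 hF1
  have hF3 := Pool.Agent.Helper69.RZ.f3 hF1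
  have hF4 := Pool.Agent.Helper34.RZ.f4 hF1
  have hT2 := Pool.Agent.Helper57.RZ.t2
  have hT1 := Pool.Agent.Helper57.RZ.t1
  have hT3 := Pool.Agent.Helper57.RZ.t3 hT2
  have hT4 := Pool.Agent.Helper57.RZ.t4 hT2 hT3
  have hT5 := Pool.Agent.Helper55.RZ.t5 hT2
  have hSW := Pool.Agent.Helper53.RZ.sw
  have hG1 := Pool.Agent.Helper98.RZ.g1 hF1 hT1 hT2
  have hG2 := Pool.Agent.Helper62.RZ.g2 hF1
  have hG3 := Pool.Agent.Helper59.RZ.g3 hF1 hF2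
  have hG5 := Pool.Agent.Helper39.RZ.g5 hG1 hG2 hT2 hT4
  have hK1 := Pool.Agent.Helper95.RZ.k1 hT1
  have hMS := Pool.Agent.Helper35.RZ.ms
  have hINT := Pool.Agent.Helper64.RZ.int
  have hORB := Pool.Agent.Helper12.RZ.orb
  have hNB := Pool.Agent.Helper12.RZ.nb hF1
  have hCR := Pool.Agent.Helper1.RZ.cr
  have hK4 := Pool.Agent.Helper23.RZ.k4
  have hCore : StmtCore := coreJ hB2 hDP hCL hLI hE3 hL2 hLD hF1 hF3 hF4 hK3 hK4 hT1 hT4 hT5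
    hG1 hG2 hG3 hG5 hK1 hMS hINT hORB hNB
  have hDN := Pool.Agent.Helper39.RZ.dn
  have hRC := Pool.Agent.Helper18.RZ.rc
  have hBA := Pool.Agent.Helper74.RZ.ba
  have hDV := Pool.Agent.Helper79.RZ.dv hT1
  have hUC := Pool.Agent.Helper3.RZ.uc
  have hB0 : StmtB0 := mainB0 hCore (Pool.Agent.Helper47.RZ.rt hDN)
    (Pool.Agent.Helper70.RZ.bl hT1 hT5 hMS hUC hDV hBA) Pool.Agent.Helper12.RZ.bs
    Pool.Agent.Helper36.RZ.mx Pool.Agent.Helper86.RZ.ci (Pool.Agent.Helper41.RZ.nm hT1 hT2)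
    Pool.Agent.Helper89.RZ.pw Pool.Agent.Helper16.RZ.lp hMS hT4 hT5 hSW hE1
    (Pool.Agent.Helper65.RZ.ln hT1) Pool.Agent.Helper49.RZ.lz hDN
    (Pool.Agent.Helper96.RZ.ha hRC) Pool.Agent.Helper69.RZ.al
    (Pool.Agent.Helper54.RZ.rg hRC Pool.Agent.Helper50.RZ.od)
  exact mainB hB0 hT4 hT5 hSW hMS hCR

end Pool.Agent.Helper56.RZ
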