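import Pool.Agent.Helper56.RZ.FinM

/-!
# Project RZ: on 3-manifolds all bundles are one-dimensional
-/

set_option autoImplicit false

open Set Filter Topology MeasureTheory

open scoped ContDiff

namespace Pool.Agent.Helper56.RZ

theorem trace_proj {K : ℕ} (P : End K) (h : P * P = P) :
    LinearMap.trace ℝ (E K) (P : E K →ₗ[ℝ] E K) =
      (Module.finrank ℝ (LinearMap.range (P : E K →ₗ[ℝ] E K)) : ℝ) := by
  have h1 : IsIdempotentElem (P : E K →ₗ[ℝ] E K) := by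
    have := congrArg (fun L : End K => (L : E K →ₗ[ℝ] E K)) h
    exact this
  exact (LinearMap.IsIdempotentElem.isProj_range _ h1).trace

theorem rank_pos {K : ℕ} (P : End K) (h : P ≠ 0) :
    1 ≤ Module.finrank ℝ (LinearMap.range (P : E K →ₗ[ℝ] E K)) := by
  rw [Nat.one_le_iff_ne_zero]
  intro h0
  rw [Submodule.finrank_eq_zero, LinearMap.range_eq_bot] at h0
  apply h
  ext1 v
  exact DFunLike.congr_fun h0 v

theorem rank_three (hT1 : StmtT1) {K : ℕ} {M : Set (E K)} {m : Measure (E K)}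
    {f f' : E K → E K} {P : Fin 3 → E K → End K} (hSV : SmoothVolume 3 K M m)
    (hPH : PH M f f' P) : RankOne M P := by
  intro x hx
  obtain ⟨c, hxW, -⟩ := hSV.chart x hx
  have hz : c.φ x ∈ c.V := c.mapsφ x ⟨hx, hxW⟩
  have hψ : c.ψ (c.φ x) = x := c.right x ⟨hx, hxW⟩
  obtain ⟨h1, h2, h3⟩ := hT1 3 K M c (c.φ x) hz
  rw [hψ] at h1 h2 h3
  obtain ⟨u, hu⟩ : ∃ u, u = fderiv ℝ c.ψ (c.φ x) := ⟨_, rfl⟩
  obtain ⟨v, hv⟩ : ∃ v, v = fderiv ℝ c.φ x := ⟨_, rfl⟩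
  rw [← hu, ← hv] at h1
  rw [← hu] at h2
  rw [← hu, ← hv] at h3
  have ht : LinearMap.trace ℝ (E K) (Pi M x : E K →ₗ[ℝ] E K) = 3 := by
    have e1 : (Pi M x : E K →ₗ[ℝ] E K) = (u : E 3 →ₗ[ℝ] E K) ∘ₗ
        ((v : E K →ₗ[ℝ] E 3) ∘ₗ (Pi M x : E K →ₗ[ℝ] E K)) := by
      ext1 w
      exact (DFunLike.congr_fun h3 w).symm
    have e2 : ((v : E K →ₗ[ℝ] E 3) ∘ₗ (Pi M x : E K →ₗ[ℝ] E K)) ∘ₗ (u : E 3 →ₗ[ℝ] E K) =
        LinearMap.id := by
      ext1 w
      have a := DFunLike.congr_fun h2 w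
      have b := DFunLike.congr_fun h1 w
      change v (Pi M x (u w)) = w
      have a' : Pi M x (u w) = u w := a
      rw [a']
      exact b
    rw [e1, LinearMap.trace_comp_comm', e2, LinearMap.trace_id]
    simp
  have hs := hPH.sum x hx
  have hp : ∀ i, P i x * P i x = P i x := fun i => by rw [hPH.proj x hx, if_pos rfl]
  have e3 : LinearMap.trace ℝ (E K) (P 0 x : E K →ₗ[ℝ] E K) +
      LinearMap.trace ℝ (E K) (P 1 x : E K →ₗ[ℝ] E K) +
      LinearMap.trace ℝ (E K) (P 2 x : E K →ₗ[ℝ] E K) = 3 := by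
    rw [← ht, ← hs, ← map_add, ← map_add]
    rfl
  rw [trace_proj _ (hp 0), trace_proj _ (hp 1), trace_proj _ (hp 2)] at e3
  have r0 := rank_pos _ (hPH.ne x hx 0)
  have r1 := rank_pos _ (hPH.ne x hx 1)
  have r2 := rank_pos _ (hPH.ne x hx 2)
  have e4 : Module.finrank ℝ (LinearMap.range (P 0 x : E K →ₗ[ℝ] E K)) +
      Module.finrank ℝ (LinearMap.range (P 1 x : E K →ₗ[ℝ] E K)) +
      Module.finrank ℝ (LinearMap.range (P 2 x : E K →ₗ[ℝ] E K)) = 3 := by exact_mod_cast e3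
  omega

end Pool.Agent.Helper56.RZ
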