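import Pool.Agent.Helper56.RZ.Fin3
import Pool.Agent.Helper56.RZ.J3
import Pool.Agent.Helper56.RZ.Rank
import Pool.Agent.Helper55.RZ.J1
import Pool.Agent.Helper55.RZ.J2
import Pool.Agent.Helper55.RZ.L1
import Pool.Agent.Helper8.RZ.K3

/-!
# Project RZ: the two theorems
-/

set_option autoImplicit false

namespace Pool.Agent.Helper56.RZ

theorem finalA : StmtFinal :=
  all_but Pool.Agent.Helper55.RZ.j1 Pool.Agent.Helper55.RZ.j2
    (j3 Pool.Agent.Helper55.RZ.j2) Pool.Agent.Helper55.RZ.l1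

theorem finalB : StmtFinalB :=
  all_butB Pool.Agent.Helper55.RZ.j1 Pool.Agent.Helper55.RZ.j2
    (j3 Pool.Agent.Helper55.RZ.j2) Pool.Agent.Helper55.RZ.l1
    (Pool.Agent.Helper8.RZ.k3 Pool.Agent.Helper34.RZ.f1
      (Pool.Agent.Helper69.RZ.f3 Pool.Agent.Helper34.RZ.f1))

end Pool.Agent.Helper56.RZ
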