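import Pool.Agent.Helper56.RZ.AuxF

/-!
# Project RZ: the estimates at a point of the support
-/

set_option autoImplicit false

open Set Filter Topology MeasureTheory

open scoped ContDiff

namespace Pool.Agent.Helper56.RZ

section
variable {N K : ℕ} {M : Set (E K)} {c : Chart N K M} {P : Fin 3 → E K → End K}
  {p : Fin 3 → End N} {d : Tw N p} {z0 : E N}

/-- the two points data -/
theorem two (hT1 : StmtT1) (hproj : ∀ x ∈ M, ∀ i j, P i x * P j x = if i = j then P i x else 0)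
    (hsum : ∀ x ∈ M, P 0 x + P 1 x + P 2 x = Pi M x) {H : Coc M K} {h h' : E K → E K}
    (hR : Rep H h h') (x : M) (z z' : E N) (hz : z ∈ c.V) (hz' : z' ∈ c.V)
    (hx : (x : E K) = c.ψ z) (hx' : (H.f x : E K) = c.ψ z') :
    Two (H.T x) (H.T (H.f x)) (fun i => P i x) (fun i => P i (H.f x)) (H.A x) (H.B (H.f x))
      (fderiv ℝ c.ψ z) (fderiv ℝ c.ψ z') (fderiv ℝ c.φ (c.ψ z)) (fderiv ℝ c.φ (c.ψ z')) := by
  obtain ⟨a1, a2, a3⟩ := hT1 N K M c z hz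
  obtain ⟨b1, b2, b3⟩ := hT1 N K M c z' hz'
  have e1 : H.T x = Pi M (c.ψ z) := by rw [hR.rT, hx]
  have e2 : H.T (H.f x) = Pi M (c.ψ z') := by rw [hR.rT, hx']
  refine ⟨hproj _ x.2, ?_, hproj _ (H.f x).2, ?_, a1, b1, ?_, ?_, ?_, ?_, H.AT x, H.TA x,
    H.BT _, ?_⟩
  · rw [hR.rT]; exact hsum _ x.2
  · rw [hR.rT]; exact hsum _ (H.f x).2
  · rw [e1]; exact a2
  · rw [e2]; exact b2
  · rw [e1]; exact a3
  · rw [e2]; exact b3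
  · have := H.TB (H.f x)
    rwa [Homeomorph.symm_apply_apply] at this

end

/-- all facts at a point `x = ψ (z0 + ρ y)` of the support -/
structure Pt {N K : ℕ} {M : Set (E K)} (c : Chart N K M) (P : Fin 3 → E K → End K) (z0 : E N)
    (d : Tw N (fun i => phat c P i z0)) (ρ t η R0 cF : ℝ) (H : Coc M K) (x : M) (y : E N) :
    Prop where
  two : Two (H.T x) (H.T (H.f x)) (fun i => P i x) (fun i => P i (H.f x)) (H.A x) (H.B (H.f x))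
      (fderiv ℝ c.ψ (z0 + ρ • y)) (fderiv ℝ c.ψ (z0 + ρ • d.H t y))
      (fderiv ℝ c.φ (c.ψ (z0 + ρ • y))) (fderiv ℝ c.φ (c.ψ (z0 + ρ • d.H t y)))
  hx : (x : E K) = c.ψ (z0 + ρ • y)
  hx' : (H.f x : E K) = c.ψ (z0 + ρ • d.H t y)
  nu : ‖fderiv ℝ c.ψ (z0 + ρ • y)‖ ≤ R0
  nu' : ‖fderiv ℝ c.ψ (z0 + ρ • d.H t y)‖ ≤ R0
  nv : ‖fderiv ℝ c.φ (c.ψ (z0 + ρ • y))‖ ≤ R0
  nv' : ‖fderiv ℝ c.φ (c.ψ (z0 + ρ • d.H t y))‖ ≤ R0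
  nT : ‖H.T x‖ ≤ R0
  nT' : ‖H.T (H.f x)‖ ≤ R0
  e1 : ∀ i, ‖phat c P i (z0 + ρ • y) - phat c P i z0‖ ≤ η
  e2 : ∀ i, ‖phat c P i (z0 + ρ • d.H t y) - phat c P i z0‖ ≤ η
  e3 : ‖(fderiv ℝ c.φ (c.ψ (z0 + ρ • d.H t y))) ∘L H.A x ∘L (fderiv ℝ c.ψ (z0 + ρ • y)) - 1‖ ≤ η
  e4 : ‖(fderiv ℝ c.φ (c.ψ (z0 + ρ • y))) ∘L H.B (H.f x) ∘L (fderiv ℝ c.ψ (z0 + ρ • d.H t y)) - 1‖
    ≤ η
  b1 : ∀ i j, i ≠ j → ‖(fderiv ℝ c.φ (c.ψ (z0 + ρ • d.H t y))) ∘L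
    (P i (H.f x) * H.A x * P j x) ∘L (fderiv ℝ c.ψ (z0 + ρ • y)) -
      t • (phat c P i z0 * fderiv ℝ d.X y * phat c P j z0)‖ ≤ η * t
  b2 : ∀ i j, i ≠ j → ‖(fderiv ℝ c.φ (c.ψ (z0 + ρ • y))) ∘L
    (P i x * H.B (H.f x) * P j (H.f x)) ∘L (fderiv ℝ c.ψ (z0 + ρ • d.H t y)) +
      t • (phat c P i z0 * fderiv ℝ d.X y * phat c P j z0)‖ ≤ η * t
  nX : ‖fderiv ℝ d.X y‖ ≤ cF

/-- the facts hold -/
theorem pt_mk (hT1 : StmtT1) {N K : ℕ} {M : Set (E K)} {c : Chart N K M}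
    {P : Fin 3 → E K → End K} {z0 : E N} {d : Tw N (fun i => phat c P i z0)} {ρ t η R0 cF : ℝ}
    {H : Coc M K} (hproj : ∀ x ∈ M, ∀ i j, P i x * P j x = if i = j then P i x else 0)
    (hsum : ∀ x ∈ M, P 0 x + P 1 x + P 2 x = Pi M x)
    (hR : Rep H (hM c d z0 ρ t) (hM c d z0 ρ (-t))) (r0 : ℝ)
    (hball : Metric.closedBall z0 r0 ⊆ c.V)
    (hmap : ∀ y, d.q y ≤ 1 → hM c d z0 ρ t (c.ψ (z0 + ρ • y)) = c.ψ (z0 + ρ • d.H t y))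
    (hder : ∀ y, d.q y ≤ 1 → (fderiv ℝ c.φ (c.ψ (z0 + ρ • d.H t y))) ∘L
      (der M (hM c d z0 ρ t) (c.ψ (z0 + ρ • y))) ∘L (fderiv ℝ c.ψ (z0 + ρ • y)) =
      fderiv ℝ (d.H t) y)
    (hder' : ∀ y, d.q y ≤ 1 → (fderiv ℝ c.φ (c.ψ (z0 + ρ • d.H (-t) y))) ∘L
      (der M (hM c d z0 ρ (-t)) (c.ψ (z0 + ρ • y))) ∘L (fderiv ℝ c.ψ (z0 + ρ • y)) =
      fderiv ℝ (d.H (-t)) y)
    (hqH : ∀ t z, d.q (d.H t z) = d.q z) (hHH : ∀ t z, d.H (-t) (d.H t z) = z)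
    (hnorm : ∀ z ∈ Metric.closedBall z0 r0, ‖fderiv ℝ c.ψ z‖ ≤ R0 ∧ ‖fderiv ℝ c.φ (c.ψ z)‖ ≤ R0)
    (hT : ∀ x, ‖H.T x‖ ≤ R0) (x : M) (y : E N) (hy : d.q y ≤ 1)
    (hx : (x : E K) = c.ψ (z0 + ρ • y)) (hX : ‖fderiv ℝ d.X y‖ ≤ cF)
    (hK : z0 + ρ • y ∈ Metric.closedBall z0 r0 ∧ z0 + ρ • d.H t y ∈ Metric.closedBall z0 r0 ∧
    fderiv ℝ (d.H t) y * fderiv ℝ (d.H (-t)) (d.H t y) = 1 ∧
    fderiv ℝ (d.H (-t)) (d.H t y) * fderiv ℝ (d.H t) y = 1 ∧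
    ‖fderiv ℝ (d.H t) y - 1‖ ≤ η ∧ ‖fderiv ℝ (d.H (-t)) (d.H t y) - 1‖ ≤ η ∧
    (∀ i, ‖phat c P i (z0 + ρ • y) - phat c P i z0‖ ≤ η ∧
      ‖phat c P i (z0 + ρ • d.H t y) - phat c P i z0‖ ≤ η) ∧
    (∀ i j, i ≠ j →
      ‖phat c P i (z0 + ρ • d.H t y) * fderiv ℝ (d.H t) y * phat c P j (z0 + ρ • y)
        - t • (phat c P i z0 * fderiv ℝ d.X y * phat c P j z0)‖ ≤ η * t ∧
      ‖phat c P i (z0 + ρ • y) * fderiv ℝ (d.H (-t)) (d.H t y) *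
          phat c P j (z0 + ρ • d.H t y)
          + t • (phat c P i z0 * fderiv ℝ d.X y * phat c P j z0)‖ ≤ η * t)) :
    Pt c P z0 d ρ t η R0 cF H x y := by
  obtain ⟨k1, k2, -, -, k5, k6, k7, k8⟩ := hK
  have hx' : (H.f x : E K) = c.ψ (z0 + ρ • d.H t y) := by rw [hR.rf, hx, hmap y hy]
  have h2 := two hT1 hproj hsum hR x _ _ (hball k1) (hball k2) hx hx'
  have eA : (fderiv ℝ c.φ (c.ψ (z0 + ρ • d.H t y))) ∘L H.A x ∘L (fderiv ℝ c.ψ (z0 + ρ • y)) =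
      fderiv ℝ (d.H t) y := by
    rw [hR.rA, hx]
    exact hder y hy
  have eB : (fderiv ℝ c.φ (c.ψ (z0 + ρ • y))) ∘L H.B (H.f x) ∘L
      (fderiv ℝ c.ψ (z0 + ρ • d.H t y)) = fderiv ℝ (d.H (-t)) (d.H t y) := by
    rw [hR.rB, hx']
    have := hder' (d.H t y) (by rw [hqH]; exact hy)
    rwa [hHH] at this
  have p1 : ∀ i, phat c P i (z0 + ρ • y) = (fderiv ℝ c.φ (c.ψ (z0 + ρ • y))) ∘L (P i x) ∘L
      (fderiv ℝ c.ψ (z0 + ρ • y)) := fun i => by rw [hx]; rfl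
  have p2 : ∀ i, phat c P i (z0 + ρ • d.H t y) = (fderiv ℝ c.φ (c.ψ (z0 + ρ • d.H t y))) ∘L
      (P i (H.f x)) ∘L (fderiv ℝ c.ψ (z0 + ρ • d.H t y)) := fun i => by rw [hx']; rfl
  refine ⟨h2, hx, hx', (hnorm _ k1).1, (hnorm _ k2).1, (hnorm _ k1).2, (hnorm _ k2).2, hT _, hT _,
    fun i => (k7 i).1, fun i => (k7 i).2, ?_, ?_, fun i j hij => ?_, fun i j hij => ?_, hX⟩
  · rw [eA]; exact k5
  · rw [eB]; exact k6
  · have h3 := h2.block i j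
    have h4 := (k8 i j hij).1
    rw [p1, p2] at h4
    rw [h3, eA]
    exact h4
  · have h3 := h2.swap.block i j
    have h4 := (k8 i j hij).2
    rw [p1, p2] at h4
    rw [h3, eB]
    exact h4

/-- the off diagonal blocks -/
theorem Pt.off {N K : ℕ} {M : Set (E K)} {c : Chart N K M} {P : Fin 3 → E K → End K} {z0 : E N}
    {d : Tw N (fun i => phat c P i z0)} {ρ t η R0 cF : ℝ} {H : Coc M K} {x : M} {y : E N}
    (h : Pt c P z0 d ρ t η R0 cF H x y) (Rp : ℝ) (hRp : ∀ i, ‖phat c P i z0‖ ≤ Rp)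
    (ht : 0 ≤ t) (hη : η ≤ 1) (i j : Fin 3) (hij : i ≠ j) :
    ‖P i (H.f x) * H.A x * P j x‖ ≤ R0 ^ 3 * (Rp * cF * Rp + 1) * t ∧
      ‖P i x * H.B (H.f x) * P j (H.f x)‖ ≤ R0 ^ 3 * (Rp * cF * Rp + 1) * t := by
  have hR0 : 0 ≤ R0 := (norm_nonneg _).trans h.nT
  have hRp0 : 0 ≤ Rp := (norm_nonneg _).trans (hRp 0)
  have hcF0 : 0 ≤ cF := (norm_nonneg _).trans h.nX
  have hm : ‖t • (phat c P i z0 * fderiv ℝ d.X y * phat c P j z0)‖ ≤ (Rp * cF * Rp) * t := by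
    rw [norm_smul, Real.norm_of_nonneg ht, mul_comm]
    refine mul_le_mul_of_nonneg_right ?_ ht
    refine (norm_mul_le _ _).trans (mul_le_mul ?_ (hRp j) (norm_nonneg _) (by positivity))
    exact (norm_mul_le _ _).trans (mul_le_mul (hRp i) h.nX (norm_nonneg _) hRp0)
  have hηt : η * t ≤ t := by nlinarith
  refine ⟨?_, ?_⟩
  · have h1 : ‖(fderiv ℝ c.φ (c.ψ (z0 + ρ • d.H t y))) ∘L
        (P i (H.f x) * H.A x * P j x) ∘L (fderiv ℝ c.ψ (z0 + ρ • y))‖ ≤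
        (Rp * cF * Rp + 1) * t := by
      have h2 := norm_le_norm_add_norm_sub' ((fderiv ℝ c.φ (c.ψ (z0 + ρ • d.H t y))) ∘L
        (P i (H.f x) * H.A x * P j x) ∘L (fderiv ℝ c.ψ (z0 + ρ • y)))
        (t • (phat c P i z0 * fderiv ℝ d.X y * phat c P j z0))
      have h3 := h.b1 i j hij
      linarith
    have h2 := h.two.back_norm i j R0 _ hR0 h.nu' h.nv h.nT h1
    rwa [← mul_assoc] at h2
  · have h1 : ‖(fderiv ℝ c.φ (c.ψ (z0 + ρ • y))) ∘L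
        (P i x * H.B (H.f x) * P j (H.f x)) ∘L (fderiv ℝ c.ψ (z0 + ρ • d.H t y))‖ ≤
        (Rp * cF * Rp + 1) * t := by
      have h2 := norm_sub_norm_le ((fderiv ℝ c.φ (c.ψ (z0 + ρ • y))) ∘L
        (P i x * H.B (H.f x) * P j (H.f x)) ∘L (fderiv ℝ c.ψ (z0 + ρ • d.H t y)))
        (- (t • (phat c P i z0 * fderiv ℝ d.X y * phat c P j z0)))
      rw [sub_neg_eq_add, norm_neg] at h2
      have h3 := h.b2 i j hij
      linarith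
    have h2 := h.two.swap.back_norm i j R0 _ hR0 h.nu h.nv' h.nT' h1
    rwa [← mul_assoc] at h2

/-- off diagonal blocks for `H` at all points -/
theorem offd {N K : ℕ} {M : Set (E K)} {c : Chart N K M} {P : Fin 3 → E K → End K} {z0 : E N}
    {d : Tw N (fun i => phat c P i z0)} {ρ t η R0 cF : ℝ} {H : Coc M K} {B : Set M}
    (hproj : ∀ x ∈ M, ∀ i j, P i x * P j x = if i = j then P i x else 0)
    (hPT : ∀ (x : M) i, P i x * H.T x = P i x)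
    (hB : ∀ x ∈ B, ∃ y, Pt c P z0 d ρ t η R0 cF H x y) (hoff : ∀ x ∉ B, H.Off x)
    (Rp : ℝ) (hRp : ∀ i, ‖phat c P i z0‖ ≤ Rp) (hC : 0 ≤ R0 ^ 3 * (Rp * cF * Rp + 1))
    (ht : 0 ≤ t) (hη : η ≤ 1) (x : M) (i j : Fin 3) (hij : i ≠ j) :
    ‖P i (H.f x) * H.A x * P j x‖ ≤ R0 ^ 3 * (Rp * cF * Rp + 1) * t ∧
      ‖P i x * H.B (H.f x) * P j (H.f x)‖ ≤ R0 ^ 3 * (Rp * cF * Rp + 1) * t := by
  by_cases hx : x ∈ B
  · obtain ⟨y, hy⟩ := hB x hx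
    exact hy.off Rp hRp ht hη i j hij
  · have h1 := hoff x hx
    have h2 := h1.B
    have h3 : P i x * P j x = 0 := by rw [hproj x x.2, if_neg hij]
    rw [h1.1, h1.2, h2, hPT, h3, norm_zero]
    exact ⟨by positivity, by positivity⟩

/-- off diagonal blocks for the inverse -/
theorem offd_inv {K : ℕ} {M : Set (E K)} {P : Fin 3 → E K → End K} {H : Coc M K} {κ : ℝ}
    (h : ∀ (x : M) (i j : Fin 3), i ≠ j → ‖P i (H.f x) * H.A x * P j x‖ ≤ κ ∧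
      ‖P i x * H.B (H.f x) * P j (H.f x)‖ ≤ κ) (x : M) (i j : Fin 3) (hij : i ≠ j) :
    ‖P i (H.inv.f x) * H.inv.A x * P j x‖ ≤ κ ∧
      ‖P i x * H.inv.B (H.inv.f x) * P j (H.inv.f x)‖ ≤ κ := by
  have h1 := h (H.f.symm x) i j hij
  rw [Homeomorph.apply_symm_apply] at h1
  exact ⟨h1.2, h1.1⟩

end Pool.Agent.Helper56.RZ
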