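import Pool.Agent.Helper56.RZ.FinA

/-!
# Project RZ: the second order estimate at a point of the support
-/

set_option autoImplicit false

open Set Filter Topology MeasureTheory

open scoped ContDiff

namespace Pool.Agent.Helper56.RZ

/-- the matrix whose determinant enters the exact identity -/
noncomputable def ZZ {K : ℕ} {M : Set (E K)} (P : Fin 3 → E K → End K) (H : Coc M K)
    (Γ Γ' : M → End K) (x : M) : End K :=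
  P 1 x * H.B (H.f x) * Γ' (H.f x) * P 1 (H.f x) * H.A x * Γ x - P 1 x

theorem Out.TG {X : Type} [MetricSpace X] {K : ℕ} {C H : Coc X K} {e : H.T = C.T}
    {P : Fin 3 → X → End K} {n : ℕ} {c l κ : ℝ} {Q : Fin 3 → X → End K} {Γ : X → End K}
    (h : Out C H e P n c l κ Q Γ) (x : X) : H.T x * Γ x = Γ x := by
  have h1 : C.T x * Q 1 x = Q 1 x := h.spl.TP x 1
  rw [e, ← h.lift.QG x, ← mul_assoc, h1]

/-- no contribution outside the support -/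
theorem zz_off {K : ℕ} {M : Set (E K)} {P : Fin 3 → E K → End K} {C H : Coc M K} {e : H.T = C.T}
    {e' : H.inv.T = C.T} {n : ℕ} {c l κ : ℝ} {Q Q' : Fin 3 → M → End K} {Γ Γ' : M → End K}
    (hproj : ∀ x ∈ M, ∀ i j, P i x * P j x = if i = j then P i x else 0)
    (hPT : ∀ (x : M) i, P i x * H.T x = P i x)
    (o : Out C H e (fun i (x : M) => P i x) n c l κ Q Γ)
    (o' : Out C H.inv e' (fun i (x : M) => P i x) n c l κ Q' Γ') (x : M) (hx : H.Off x) :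
    ZZ P H Γ Γ' x = 0 := by
  have h2 := hx.B
  have h3 : P 1 x * Γ x = P 1 x := o.lift.PG x
  have h4 : P 1 x * Γ' x = P 1 x := o'.lift.PG x
  have h5 : P 1 x * P 1 x = P 1 x := by rw [hproj x x.2, if_pos rfl]
  rw [ZZ, hx.1, hx.2, h2, hPT, h4, h5, hPT, h3, sub_self]

/-- the second order estimate -/
theorem Pt.est {N K : ℕ} {M : Set (E K)} {c : Chart N K M} {P : Fin 3 → E K → End K} {z0 : E N}
    {d : Tw N (fun i => phat c P i z0)} {ρ t η R0 cF : ℝ} {C H : Coc M K} {x : M} {y : E N}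
    (h : Pt c P z0 d ρ t η R0 cF H x y) {e : H.T = C.T}
    {e' : H.inv.T = C.T} {n : ℕ} {ck lk C1 : ℝ} {Q Q' : Fin 3 → M → End K} {Γ Γ' : M → End K}
    (o : Out C H e (fun i (x : M) => P i x) n ck lk (C1 * t) Q Γ)
    (o' : Out C H.inv e' (fun i (x : M) => P i x) n ck lk (C1 * t) Q' Γ')
    (ht0 : 0 < t) (ht1 : t ≤ 1) (hη0 : 0 ≤ η) (hη1 : η ≤ 1) (J : ℕ)
    (hJ : ck * lk ^ J * C1 ≤ η) (hp : Proj3 (fun i => phat c P i z0))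
    (hp0 : phat c P 0 z0 * fderiv ℝ d.X y = 0)
    (R : ℝ) (hR0 : R0 ≤ R) (hRp : ∀ i, ‖phat c P i z0‖ ≤ R) (hRP : ∀ (x : M) i, ‖P i x‖ ≤ R)
    (hRA : ∀ x, ‖H.A x‖ ≤ R) (hRB : ∀ x, ‖H.B x‖ ≤ R) (hRF : cF ≤ R) (hRC : ck * C1 ≤ R)
    (hoff1 : ∀ j, 1 ≤ j → j ≤ J → H.Off ((C.comp H e).f^[j] x) ∧
      H.Off ((C.comp H e).f.symm^[j] x))
    (hoff2 : ∀ j, 1 ≤ j → j ≤ J → H.inv.Off ((C.comp H.inv e').f^[j] (H.f x)) ∧
      H.inv.Off ((C.comp H.inv e').f.symm^[j] (H.f x))) (cL : ℝ)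
    (hL2 : ∀ (U U' : End K) (P P' : Fin 3 → End K) (D D' Γ Γ' : End K)
  (u u' : E N →L[ℝ] E K) (v v' : E K →L[ℝ] E N) (p : Fin 3 → End N) (M : End N) (t η : ℝ),
  0 < t → t ≤ 1 → 0 ≤ η → η ≤ 1 →
  (∀ i j, P i * P j = if i = j then P i else 0) → P 0 + P 1 + P 2 = U → U * U = U →
  (∀ i j, P' i * P' j = if i = j then P' i else 0) → P' 0 + P' 1 + P' 2 = U' → U' * U' = U' →
  Proj3 p → ‖U‖ ≤ R → ‖U'‖ ≤ R → (∀ i, ‖P i‖ ≤ R) → (∀ i, ‖P' i‖ ≤ R) → (∀ i, ‖p i‖ ≤ R) →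
  ‖u‖ ≤ R → ‖u'‖ ≤ R → ‖v‖ ≤ R → ‖v'‖ ≤ R → ‖M‖ ≤ R → ‖D‖ ≤ R → ‖D'‖ ≤ R →
  v ∘L u = 1 → v' ∘L u' = 1 → U ∘L u = u → U' ∘L u' = u' → u ∘L v ∘L U = U →
  u' ∘L v' ∘L U' = U' → D * U = D → U' * D = D → D' * U' = D' → U * D' = D' → D' * D = U →
  D * D' = U' →
  (∀ i, ‖v ∘L P i ∘L u - p i‖ ≤ η) → (∀ i, ‖v' ∘L P' i ∘L u' - p i‖ ≤ η) →
  ‖v' ∘L D ∘L u - 1‖ ≤ η → ‖v ∘L D' ∘L u' - 1‖ ≤ η →
  (∀ i j, i ≠ j → ‖v' ∘L (P' i * D * P j) ∘L u - t • (p i * M * p j)‖ ≤ η * t) →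
  (∀ i j, i ≠ j → ‖v ∘L (P i * D' * P' j) ∘L u' + t • (p i * M * p j)‖ ≤ η * t) →
  Γ * P 1 = Γ → P 1 * Γ = P 1 → U * Γ = Γ → Γ' * P' 1 = Γ' → P' 1 * Γ' = P' 1 → U' * Γ' = Γ' →
  ‖P 0 * Γ‖ ≤ η * t → ‖P' 2 * D * Γ‖ ≤ η * t → ‖Γ - P 1‖ ≤ R * t →
  ‖P' 0 * Γ'‖ ≤ η * t → ‖P 2 * D' * Γ'‖ ≤ η * t → ‖Γ' - P' 1‖ ≤ R * t →
  ‖P 1 * D' * Γ' * P' 1 * D * Γ - P 1‖ ≤ cL * t ^ 2 ∧
  |LinearMap.trace ℝ (E K) ((P 1 * D' * Γ' * P' 1 * D * Γ - P 1 : End K) : E K →ₗ[ℝ] E K)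
    - t ^ 2 * (LinearMap.trace ℝ (E N) ((p 1 * M * p 0 * M * p 1 : End N) : E N →ₗ[ℝ] E N)
      - LinearMap.trace ℝ (E N) ((p 1 * M * p 2 * M * p 1 : End N) : E N →ₗ[ℝ] E N))|
    ≤ cL * (η + t) * t ^ 2) :
    ‖ZZ P H Γ Γ' x‖ ≤ cL * t ^ 2 ∧
    |LinearMap.trace ℝ (E K) ((ZZ P H Γ Γ' x : End K) : E K →ₗ[ℝ] E K) - t ^ 2 * d.g y| ≤
      cL * (η + t) * t ^ 2 := by
  have hJt : ck * lk ^ J * (C1 * t) ≤ η * t := by
    rw [← mul_assoc]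
    exact mul_le_mul_of_nonneg_right hJ ht0.le
  have hCt : ck * (C1 * t) ≤ R * t := by
    rw [← mul_assoc]
    exact mul_le_mul_of_nonneg_right hRC ht0.le
  have f1 : ∀ i, ‖(fderiv ℝ c.φ (c.ψ (z0 + ρ • y))) ∘L (P i x) ∘L (fderiv ℝ c.ψ (z0 + ρ • y))
      - phat c P i z0‖ ≤ η := fun i => by
    have := h.e1 i
    rw [phat, ← h.hx] at this
    rw [← h.hx]
    exact this
  have f2 : ∀ i, ‖(fderiv ℝ c.φ (c.ψ (z0 + ρ • d.H t y))) ∘L (P i (H.f x)) ∘L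
      (fderiv ℝ c.ψ (z0 + ρ • d.H t y)) - phat c P i z0‖ ≤ η := fun i => by
    have := h.e2 i
    rw [phat, ← h.hx'] at this
    rw [← h.hx']
    exact this
  have g1 := o.past J x (fun j h1 h2 => (hoff1 j h1 h2).2)
  have g2 := o.fut J x (fun j h1 h2 => (hoff1 j h1 h2).1)
  have g3 := o'.past J (H.f x) (fun j h1 h2 => (hoff2 j h1 h2).2)
  have g4 := o'.fut J (H.f x) (fun j h1 h2 => (hoff2 j h1 h2).1)
  have g5 : ‖P 2 x * H.B (H.f x) * Γ' (H.f x)‖ ≤ ck * lk ^ J * (C1 * t) := by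
    have e1 : H.inv.f (H.f x) = x := H.f.symm_apply_apply x
    rw [e1] at g4
    exact g4
  have key := hL2 (H.T x) (H.T (H.f x)) (fun i => P i x) (fun i => P i (H.f x)) (H.A x)
    (H.B (H.f x)) (Γ x) (Γ' (H.f x)) _ _ _ _ (fun i => phat c P i z0) (fderiv ℝ d.X y) t η
    ht0 ht1 hη0 hη1 h.two.proj h.two.sum h.two.UU h.two.proj' h.two.sum' h.two.swap.UU hp
    (h.nT.trans hR0) (h.nT'.trans hR0) (hRP x) (hRP _) hRp (h.nu.trans hR0) (h.nu'.trans hR0)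
    (h.nv.trans hR0) (h.nv'.trans hR0) (h.nX.trans hRF) (hRA x) (hRB _)
    h.two.vu h.two.vu' h.two.Uu h.two.Uu' h.two.uvU h.two.uvU' h.two.DU h.two.UD h.two.DU'
    h.two.UD' (H.BA x) (H.AB x) f1 f2 h.e3 h.e4 h.b1 h.b2 (o.lift.GP x) (o.lift.PG x) (o.TG x)
    (o'.lift.GP _) (o'.lift.PG _) (o'.TG _) (g1.trans hJt) (g2.trans hJt)
    ((o.liftc x).trans hCt) (g3.trans hJt) (g5.trans hJt) ((o'.liftc _).trans hCt)
  refine ⟨key.1, ?_⟩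
  have k2 := key.2
  have hz : (phat c P 1 z0 * fderiv ℝ d.X y * phat c P 0 z0 * fderiv ℝ d.X y * phat c P 1 z0 :
      End N) = 0 := by
    rw [mul_assoc (phat c P 1 z0 * fderiv ℝ d.X y), hp0]
    simp
  have hg : t ^ 2 * d.g y = t ^ 2 * (LinearMap.trace ℝ (E N)
      ((phat c P 1 z0 * fderiv ℝ d.X y * phat c P 0 z0 * fderiv ℝ d.X y * phat c P 1 z0 :
        End N) : E N →ₗ[ℝ] E N) - LinearMap.trace ℝ (E N)
      ((phat c P 1 z0 * fderiv ℝ d.X y * phat c P 2 z0 * fderiv ℝ d.X y * phat c P 1 z0 :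
        End N) : E N →ₗ[ℝ] E N)) := by
    rw [hz, Tw.g]
    simp
  rw [hg]
  exact k2

end Pool.Agent.Helper56.RZ
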