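import Pool.Agent.Helper56.RZ.FinT
import Pool.Agent.Helper95.RZ.K1

/-!
# Project RZ, third theorem: the core
-/

set_option autoImplicit false

open Set Filter Topology MeasureTheory

open scoped ContDiff

namespace Pool.Agent.Helper56.RZ

/-- retraction onto a closed ball -/
noncomputable def rt {N : ℕ} (z0 : E N) (R : ℝ) (z : E N) : E N :=
  z0 + (max 1 (‖z - z0‖ / R))⁻¹ • (z - z0)

theorem rt_cont {N : ℕ} (z0 : E N) (R : ℝ) : Continuous (rt z0 R) := by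
  unfold rt
  have h1 : Continuous (fun z : E N => max 1 (‖z - z0‖ / R)) := by fun_prop
  have h2 : ∀ z : E N, max 1 (‖z - z0‖ / R) ≠ 0 := fun z =>
    (lt_of_lt_of_le one_pos (le_max_left _ _)).ne'
  exact continuous_const.add ((h1.inv₀ h2).smul (continuous_id.sub continuous_const))

theorem rt_mem {N : ℕ} (z0 : E N) {R : ℝ} (hR : 0 < R) (z : E N) :
    rt z0 R z ∈ Metric.closedBall z0 R := by
  rw [Metric.mem_closedBall, dist_eq_norm, rt, add_sub_cancel_left, norm_smul, norm_inv,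
    Real.norm_of_nonneg (zero_le_one.trans (le_max_left _ _))]
  have h0 : 0 < max 1 (‖z - z0‖ / R) := lt_of_lt_of_le one_pos (le_max_left _ _)
  rw [inv_mul_le_iff₀ h0]
  have h1 : ‖z - z0‖ / R ≤ max 1 (‖z - z0‖ / R) := le_max_right _ _
  rwa [div_le_iff₀ hR] at h1

theorem rt_id {N : ℕ} {z0 : E N} {R : ℝ} (hR : 0 < R) {z : E N}
    (hz : z ∈ Metric.closedBall z0 R) : rt z0 R z = z := by
  rw [Metric.mem_closedBall, dist_eq_norm] at hz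
  have h1 : max 1 (‖z - z0‖ / R) = 1 := max_eq_left ((div_le_one hR).2 hz)
  rw [rt, h1, inv_one, one_smul, add_sub_cancel]

theorem phat_cont {N K : ℕ} {M : Set (E K)} (c : Chart N K M) {P : Fin 3 → E K → End K}
    (hP : ∀ i, ContinuousOn (P i) M) (i : Fin 3) : ContinuousOn (phat c P i) c.V := by
  have c1 : ContinuousOn (fderiv ℝ c.ψ) c.V :=
    c.smoothψ.continuousOn_fderiv_of_isOpen c.openV (by exact_mod_cast le_top)
  have c2 : ContinuousOn (fderiv ℝ c.φ) c.W :=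
    c.smoothφ.continuousOn_fderiv_of_isOpen c.openW (by exact_mod_cast le_top)
  have c3 : ContinuousOn (fun z => fderiv ℝ c.φ (c.ψ z)) c.V :=
    c2.comp c.smoothψ.continuousOn fun z hz => (c.mapsψ z hz).2
  have c4 : ContinuousOn (fun z => P i (c.ψ z)) c.V :=
    (hP i).comp c.smoothψ.continuousOn fun z hz => (c.mapsψ z hz).1
  exact c3.clm_comp (c4.clm_comp c1)

theorem phat_proj (hT1 : StmtT1) {N K : ℕ} {M : Set (E K)} (c : Chart N K M)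
    {f f' : E K → E K} {P : Fin 3 → E K → End K} (hPH : PH M f f' P) {z : E N} (hz : z ∈ c.V) :
    Proj3 (fun i => phat c P i z) ∧ ∀ i, phat c P i z ≠ 0 := by
  obtain ⟨h1, h2, h3⟩ := hT1 N K M c z hz
  have hM := (c.mapsψ z hz).1
  obtain ⟨a1, a2⟩ := Pool.Agent.Helper95.RZ.k1_alg _ _ _ (fun i => P i (c.ψ z)) h1 h2 h3
    (hPH.proj _ hM) (hPH.sum _ hM)
  exact ⟨a1, fun i => a2 i (hPH.ne _ hM i)⟩

/-- one scale -/
theorem scale {N K r u : ℕ} {M : Set (E K)} {m : Measure (E K)} {f : E K → E K}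
    {P : Fin 3 → E K → End K} {c : Chart N K M} {p : Fin 3 → End N} {d : Tw N p} {z0 : E N}
    (hqc : IsCompact {s : E N | d.q s ≤ 1})
    {l A t1 ρ1 r1 ε : ℝ} (hl0 : 0 < l) (hl1 : l < 1) (hA : 0 ≤ A)
    (hb : ∀ y ∈ Metric.closedBall z0 r1, ∀ ρ t κ0 : ℝ, 0 < ρ → ρ ≤ ρ1 → 0 < t → t ≤ t1 →
      0 ≤ κ0 → κ0 ≤ t1 → Small r ε M (hMa c d th2 y ρ t) → Small r ε M (hMa c d th2 y ρ (-t)) →
      (∀ s, d.q s ≤ 1 → ∀ i,
        ‖phat c P i (y + ρ • d.Ha th2 t s) - phat c P i (y + ρ • s)‖ ≤ κ0) →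
      ∀ N0 : ℕ, |∫ s in {s | d.q s ≤ 1}, Fl d (phat c P) ρ t y s| ≤
        (ρ ^ N)⁻¹ * (A * (κ0 + t) ^ 2 * (4 * ∑ n ∈ Finset.range N0,
        l ^ n * (m {x | x ∈ Bs c d y ρ ∧ f^[n + 1] x ∈ Bs c d y ρ}).toReal +
          l ^ N0 * (m (Bs c d y ρ)).toReal)))
    {g : ℕ → E K → E K} (hg : ∀ n, ContinuousOn (g n) M ∧ MapsTo (g n) M M ∧
      ∀ B : Set (E K), IsCompact B → B ⊆ M →
        m {x | x ∈ B ∧ f^[n + 1] x ∈ B} = m {x | x ∈ B ∧ g n x ∈ B})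
    {U : Set (E K)} {CR : ℝ}
    (hret : ∀ ρ : ℝ, 0 < ρ → ∀ N0 : ℕ, ∑ n ∈ Finset.range N0,
      l ^ n * (m {x | x ∈ M ∩ U ∧ ‖g n x - x‖ ≤ ρ}).toReal ≤ CR * ρ ^ u)
    {CA ρA : ℝ} (hCA : 1 ≤ CA) {χ : E N → ℝ} (hχ0 : ∀ y, 0 ≤ χ y) {rχ Rb rad : ℝ}
    (hχs : ∀ y, χ y ≠ 0 → y ∈ Metric.closedBall z0 rχ)
    (har : ∀ ρ : ℝ, 0 < ρ → ρ ≤ ρA →
      Integrable (fun y => χ y * (m (Bs c d y ρ)).toReal) volume ∧
      ∫ y, χ y * (m (Bs c d y ρ)).toReal ≤ CA * ρ ^ N ∧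
      ∀ g : E K → E K, ContinuousOn g M → MapsTo g M M →
        Integrable (fun y => χ y * (m {x | x ∈ Bs c d y ρ ∧ g x ∈ Bs c d y ρ}).toReal) volume ∧
        ∫ y, χ y * (m {x | x ∈ Bs c d y ρ ∧ g x ∈ Bs c d y ρ}).toReal ≤
          CA * ρ ^ N * (m {x | x ∈ M ∩ U ∧ ‖g x - x‖ ≤ CA * ρ}).toReal)
    {CF ρF rF a cE DD : ℝ} (hρF1 : ρF ≤ 1) (hCF : 1 ≤ CF) (ha0 : 0 < a) (ha1 : a ≤ 1)
    (hr : 2 ≤ r) (hCFa : CF * a ≤ ε)
    (hG2 : ∀ y ∈ Metric.closedBall z0 rF, ∀ ρ t : ℝ, 0 < ρ → ρ ≤ ρF → |t| ≤ 1 →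
      Fit c d y ρ ∧ ∃ w : E K → E K, ContDiff ℝ ∞ w ∧ (∀ x ∈ M, hMa c d th2 y ρ t x = x + w x) ∧
      ∀ k ≤ r, ∀ x, ‖iteratedFDeriv ℝ k w x‖ ≤ CF * |t| * ρ * (ρ⁻¹) ^ k)
    (hTE : ∀ (t : ℝ) (z : E N), |t| ≤ 1 → ‖d.Ha th2 t z - z‖ ≤ cE * |t|)
    (hqH : ∀ t z, d.q (d.Ha th2 t z) = d.q z)
    (hDs : ∀ s, d.q s ≤ 1 → ‖s‖ ≤ DD) (hRb0 : 0 < Rb) (hRb : Rb ≤ rad)
    (hrχ1 : rχ ≤ r1) (hrχF : rχ ≤ rF) (hrχR : rχ ≤ Rb / 2) {ρ t κ0 : ℝ} (hρ0 : 0 < ρ)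
    (hρ1 : ρ ≤ ρ1) (hρA : ρ ≤ ρA) (hρF : ρ ≤ ρF) (hρD : ρ * DD ≤ Rb / 2) (hρt : ρ ≤ t1)
    (ht0 : 0 < t) (ht : t ≤ a * ρ ^ (r - 1)) (hκ0 : 0 ≤ κ0) (hκ1 : κ0 ≤ t1)
    (hosc : ∀ z ∈ Metric.closedBall z0 rad, ∀ z' ∈ Metric.closedBall z0 rad,
      ‖z' - z‖ ≤ cE * (ρ * t) → ∀ i, ‖phat c P i z' - phat c P i z‖ ≤ κ0) :
    |FF χ d (fun i z => phat c P i (rt z0 Rb z)) ρ t| ≤
      A * (κ0 + t) ^ 2 * CA * (4 * (CR * (CA * ρ) ^ u)) := by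
  have hρ11 : ρ ≤ 1 := hρF.trans hρF1
  obtain ⟨-, htρ⟩ := amp (a := a) (r := r) hρ0 hρ11 hr ha0 ha1
  have ht1 : t ≤ t1 := (ht.trans htρ).trans hρt
  have htt : |t| ≤ 1 := by rw [abs_of_pos ht0]; exact (ht.trans htρ).trans hρ11
  have htt' : |(-t)| ≤ 1 := by rw [abs_neg]; exact htt
  have hFit : ∀ y, χ y ≠ 0 → Fit c d y ρ := fun y hy =>
    (hG2 y (Metric.closedBall_subset_closedBall hrχF (hχs y hy)) ρ t hρ0 hρF htt).1
  have hin : ∀ y, χ y ≠ 0 → ∀ s, d.q s ≤ 1 → y + ρ • s ∈ Metric.closedBall z0 Rb := by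
    intro y hy s hs
    have hy0 := hχs y hy
    rw [Metric.mem_closedBall, dist_eq_norm]
    rw [Metric.mem_closedBall, dist_eq_norm] at hy0
    calc ‖y + ρ • s - z0‖ = ‖(y - z0) + ρ • s‖ := by congr 1; abel
      _ ≤ ‖y - z0‖ + ‖ρ • s‖ := norm_add_le _ _
      _ ≤ Rb / 2 + ρ * DD := by
          rw [norm_smul, Real.norm_of_nonneg hρ0.le]
          exact add_le_add (hy0.trans hrχR) (mul_le_mul_of_nonneg_left (hDs s hs) hρ0.le)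
      _ ≤ Rb := by linarith
  have hsm : ∀ y, χ y ≠ 0 → ∀ t' : ℝ, |t'| = t → Small r ε M (hMa c d th2 y ρ t') := by
    intro y hy t' ht'
    obtain ⟨-, w, hw1, hw2, hw3⟩ := hG2 y (Metric.closedBall_subset_closedBall hrχF (hχs y hy)) ρ
      t' hρ0 hρF (by rw [ht', ← abs_of_pos ht0]; exact htt)
    refine ⟨w, hw1, hw2, fun k hk x => (hw3 k hk x).trans ?_⟩
    rw [ht']
    have h1 := pow_small hρ0 hρ11 (by omega : 1 ≤ r) hk
    calc CF * t * ρ * (ρ⁻¹) ^ k ≤ CF * (a * ρ ^ (r - 1)) * ρ * (ρ⁻¹) ^ k := by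
          have : 0 ≤ ρ⁻¹ := by positivity
          refine mul_le_mul_of_nonneg_right (mul_le_mul_of_nonneg_right
            (mul_le_mul_of_nonneg_left ht (by linarith)) hρ0.le) (by positivity)
      _ = (CF * a) * (ρ ^ (r - 1) * ρ * (ρ⁻¹) ^ k) := by ring
      _ ≤ (CF * a) * 1 := mul_le_mul_of_nonneg_left h1 (by positivity)
      _ ≤ ε := by rw [mul_one]; exact hCFa
  obtain ⟨ar1, ar2, ar3⟩ := har ρ hρ0 hρA
  have hW : ∀ n, (fun y => χ y * (m {x | x ∈ Bs c d y ρ ∧ f^[n + 1] x ∈ Bs c d y ρ}).toReal) =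
      fun y => χ y * (m {x | x ∈ Bs c d y ρ ∧ g n x ∈ Bs c d y ρ}).toReal := by
    intro n
    funext y
    by_cases hy : χ y = 0
    · simp [hy]
    · obtain ⟨b1, b2⟩ := bs_compact (hFit y hy) hqc
      rw [(hg n).2.2 _ b1 b2]
  unfold FF
  refine ff_abs (W := fun n y => (m {x | x ∈ Bs c d y ρ ∧ f^[n + 1] x ∈ Bs c d y ρ}).toReal)
    (V := fun y => (m (Bs c d y ρ)).toReal)
    (w := fun n => (m {x | x ∈ M ∩ U ∧ ‖g n x - x‖ ≤ CA * ρ}).toReal)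
    hχ0 hρ0 hl0 hl1 hA (by linarith) ?_ (fun n => ?_) ⟨ar1, ar2⟩
    (fun N0 => hret (CA * ρ) (by positivity) N0)
  · intro y hy N0
    have e1 : ∫ s in {s | d.q s ≤ 1}, Fl d (fun i z => phat c P i (rt z0 Rb z)) ρ t y s =
        ∫ s in {s | d.q s ≤ 1}, Fl d (phat c P) ρ t y s := by
      refine setIntegral_congr_fun hqc.isClosed.measurableSet fun s hs => ?_
      simp only [Fl]
      rw [rt_id hRb0 (hin y hy s hs), rt_id hRb0 (hin y hy _ (by rw [hqH]; exact hs))]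
    rw [e1]
    refine hb y (Metric.closedBall_subset_closedBall hrχ1 (hχs y hy)) ρ t κ0 hρ0 hρ1 ht0 ht1 hκ0
      hκ1 (hsm y hy t (abs_of_pos ht0)) (hsm y hy (-t) (by rw [abs_neg, abs_of_pos ht0]))
      (fun s hs i => hosc _ (Metric.closedBall_subset_closedBall hRb (hin y hy s hs)) _
        (Metric.closedBall_subset_closedBall hRb (hin y hy _ (by rw [hqH]; exact hs))) ?_ i) N0
    have h1 : y + ρ • d.Ha th2 t s - (y + ρ • s) = ρ • (d.Ha th2 t s - s) := by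
      rw [smul_sub]
      abel
    rw [h1, norm_smul, Real.norm_of_nonneg hρ0.le]
    have h2 := hTE t s htt
    rw [abs_of_pos ht0] at h2
    calc ρ * ‖d.Ha th2 t s - s‖ ≤ ρ * (cE * t) := mul_le_mul_of_nonneg_left h2 hρ0.le
      _ = cE * (ρ * t) := by ring
  · obtain ⟨g1, g2, -⟩ := hg n
    obtain ⟨i1, i2⟩ := ar3 (g n) g1 g2
    rw [hW n]
    exact ⟨i1, i2⟩

theorem bump {N : ℕ} (z0 : E N) (R : ℝ) (hR : 0 < R) : ∃ χ : E N → ℝ, ContDiff ℝ ∞ χ ∧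
    HasCompactSupport χ ∧ (∀ y, 0 ≤ χ y) ∧ (∀ y, χ y ≤ 1) ∧
    (∀ y, y ∉ Metric.closedBall z0 R → χ y = 0) ∧ 0 < ∫ y, χ y := by
  let b : ContDiffBump z0 := ⟨R / 2, R, by positivity, by linarith⟩
  refine ⟨b, b.contDiff, b.hasCompactSupport, fun y => b.nonneg, fun y => b.le_one, fun y hy => ?_,
    b.integral_pos⟩
  have h1 : y ∉ Function.support (b : E N → ℝ) := by
    rw [b.support_eq]
    exact fun h => hy (Metric.ball_subset_closedBall h)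
  simpa using h1

/-- the core of the third theorem -/
theorem core (hB2 : StmtB2) (hDP : StmtDP) (hCL : StmtCL) (hLI : StmtLI) (hE3 : StmtE3)
    (hT1 : StmtT1) (hT4 : StmtT4) (hT5 : StmtT5) (hMS : StmtMS) (hINT : StmtINT)
    (hTL : StmtTL) (hTA : StmtTA) (hTE : StmtTE) (hGA1 : StmtGA1) (hGA2 : StmtGA2)
    (hGA3 : StmtGA3) (hGA5 : StmtGA5) (hLC : StmtLC) (hTF : StmtTF) (hOB : StmtOB)
    (hRS : StmtRS) (hAR : StmtAR) (hAV : StmtAV) (hF1 : StmtF1) (hF4 : StmtF4)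
    {N K r u : ℕ} {M : Set (E K)} {m : Measure (E K)} {f f' : E K → E K}
    {P : Fin 3 → E K → End K} (hr : 2 ≤ r)
    (hSV : SmoothVolume N K M m) (hf1 : IsDiffeo 1 M f f') (hfm : Preserves M m f)
    (hPH : PH M f f' P) (c : Chart N K M)
    (hvol : ∀ A : Set (E N), MeasurableSet A → A ⊆ c.V → m (c.ψ '' A) = volume A)
    (z0 : E N) (hz0 : z0 ∈ c.V) (hNr : Nr M m f (c.ψ z0) u) (hOsc : Osc (phat c P) z0 r u)
    {ε : ℝ} (hε : 0 < ε) : ∃ (h h' : E K → E K) (Q : Fin 3 → E K → End K),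
    IsDiffeo ∞ M h h' ∧ Preserves M m h ∧ Small r ε M h ∧ Small r ε M h' ∧
    PH M (f ∘ h) (h' ∘ f') Q ∧ (∀ x ∈ M, ∀ i, ‖Q i x - P i x‖ ≤ ε) ∧
    CInt M m (f ∘ h) Q ≠ 0 := by
  classical
  by_contra hcon
  push Not at hcon
  obtain ⟨p, hpd⟩ : ∃ p : Fin 3 → End N, p = fun i => phat c P i z0 := ⟨_, rfl⟩
  obtain ⟨hp, hpne⟩ := phat_proj hT1 c hPH hz0
  rw [← hpd] at hp
  have hpne' : ∀ i, p i ≠ 0 := fun i => by rw [hpd]; exact hpne i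
  obtain ⟨hTw, hF1a⟩ := hF1 N p hp
  obtain ⟨d⟩ := hTw hpne'
  obtain ⟨-, -, hqsm, -, -, -, -, cq, hcq1, hcq⟩ := hF1a d
  obtain ⟨-, -, -, hI⟩ := hF4 N p hp d
  have hqc : IsCompact {y : E N | d.q y ≤ 1} := by
    refine (isCompact_closedBall (0 : E N) (Real.sqrt cq)).of_isClosed_subset
      (isClosed_le hqsm.continuous continuous_const) fun y hy => ?_
    rw [mem_closedBall_zero_iff]
    refine Real.le_sqrt_of_sq_le ?_
    have h1 := (hcq y).1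
    have hy' : d.q y ≤ 1 := hy
    have h2 : cq * d.q y ≤ cq * 1 := mul_le_mul_of_nonneg_left hy' (by linarith)
    linarith
  have hDs : ∀ s, d.q s ≤ 1 → ‖s‖ ≤ Real.sqrt cq := by
    intro y hy
    refine Real.le_sqrt_of_sq_le ?_
    have h1 := (hcq y).1
    have h2 : cq * d.q y ≤ cq * 1 := mul_le_mul_of_nonneg_left hy (by linarith)
    linarith
  have hDD0 : 0 < Real.sqrt cq := Real.sqrt_pos.2 (by linarith)
  obtain ⟨l, A, t1, ρ1, r1, hl0, hl1, hA, ht10, ht11, hρ10, hr10, hb⟩ := hb hB2 hDP hCL hLI hE3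
    hT1 hT4 hT5 hMS hINT hTL hTA hTE hGA1 hGA2 hGA3 hGA5 hLC hTF hOB hRS hSV hf1 hfm hPH hε hcon
    c hvol hp d hqc z0 hz0 (r := r)
  obtain ⟨g, hg, hNr2⟩ := hNr
  obtain ⟨U, CR, hU, hx0U, hret⟩ := hNr2 l hl0 hl1
  have hCR0 : 0 ≤ CR := by
    have := hret 1 one_pos 0
    simpa using this
  obtain ⟨CA, rA, ρA, hCA, hrA, hρA, har⟩ := hAR N K M m c p hSV hp d z0 hz0 hvol U hU hx0U
  obtain ⟨-, hAng2, -, -⟩ := hTL
  obtain ⟨-, hqH, -, -, -, -, -⟩ := hTA N p hp d th2 hAng2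
  obtain ⟨cE, hcE, hTEa⟩ := hTE N p hp d th2 hAng2
  obtain ⟨CF, ρF, rF, hCF, hρF0, hρF1, hrF, hG2⟩ := hGA2 N K r M c p hp d th2 hAng2 z0 hz0
  obtain ⟨a, ha0, ha1, haε⟩ : ∃ a : ℝ, 0 < a ∧ a ≤ 1 ∧ CF * a ≤ ε := by
    refine ⟨min 1 (ε / CF), lt_min one_pos (by positivity), min_le_left _ _, ?_⟩
    have h1 : min 1 (ε / CF) ≤ ε / CF := min_le_right _ _
    rw [le_div_iff₀ (by linarith)] at h1
    linarith
  obtain ⟨av, η, hη, hav⟩ := hAV N p hp d (2 * r - 1) (by omega)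
  obtain ⟨rad, hrad, hosc⟩ := hOsc a cE ha0 ha1 hcE
  -- the ball
  obtain ⟨Rb, hRb0, hRbV, hRbη, hRbrad⟩ : ∃ Rb : ℝ, 0 < Rb ∧ Metric.closedBall z0 Rb ⊆ c.V ∧
      (∀ z ∈ Metric.closedBall z0 Rb, ∀ i, ‖phat c P i z - p i‖ ≤ η) ∧ Rb ≤ rad := by
    have h1 : ∀ i, ∀ᶠ z in 𝓝 z0, ‖phat c P i z - p i‖ ≤ η := by
      intro i
      have h2 : ContinuousAt (phat c P i) z0 :=
        (phat_cont c hPH.cont i).continuousAt (c.openV.mem_nhds hz0)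
      have h3 : Tendsto (fun z => ‖phat c P i z - p i‖) (𝓝 z0) (𝓝 0) := by
        have h4 := (h2.tendsto.sub_const (phat c P i z0)).norm
        rw [sub_self, norm_zero] at h4
        rw [hpd]
        exact h4
      exact (h3.eventually (gt_mem_nhds hη)).mono fun z hz => hz.le
    have h2 : ∀ᶠ z in 𝓝 z0, z ∈ c.V ∧ ∀ i, ‖phat c P i z - p i‖ ≤ η :=
      (show ∀ᶠ z in 𝓝 z0, z ∈ c.V from c.openV.mem_nhds hz0).and (eventually_all.2 h1)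
    obtain ⟨R, hR, hRs⟩ := Metric.nhds_basis_closedBall.mem_iff.1 h2
    refine ⟨min R rad, lt_min hR hrad, fun z hz => (hRs ?_).1, fun z hz => (hRs ?_).2,
      min_le_right _ _⟩ <;>
    exact Metric.closedBall_subset_closedBall (min_le_left _ _) hz
  -- the bump function
  obtain ⟨rχ, hrχ0, hrχ1, hrχA, hrχF, hrχR⟩ : ∃ rχ : ℝ, 0 < rχ ∧ rχ ≤ r1 ∧ rχ ≤ rA ∧ rχ ≤ rF ∧
      rχ ≤ Rb / 2 :=
    ⟨min (min r1 rA) (min rF (Rb / 2)), lt_min (lt_min hr10 hrA) (lt_min hrF (by positivity)),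
      (min_le_left _ _).trans (min_le_left _ _), (min_le_left _ _).trans (min_le_right _ _),
      (min_le_right _ _).trans (min_le_left _ _), (min_le_right _ _).trans (min_le_right _ _)⟩
  obtain ⟨χ, hχsm, hχc, hχ0, hχ1, hχs, hχI⟩ := bump z0 rχ hrχ0
  have hχs' : ∀ y, χ y ≠ 0 → y ∈ Metric.closedBall z0 rχ := fun y hy => by
    by_contra h
    exact hy (hχs y h)
  have hχA : ∀ y, y ∉ Metric.closedBall z0 rA → χ y = 0 := fun y hy =>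
    hχs y fun h => hy (Metric.closedBall_subset_closedBall hrχA h)
  obtain ⟨CV, δV, hδV, hav2⟩ := hav χ hχsm hχc hχ0
  have hph1 : ∀ z, Proj3 (fun i => phat c P i (rt z0 Rb z)) := fun z =>
    (phat_proj hT1 c hPH (hRbV (rt_mem z0 hRb0 z))).1
  have hph2 : ∀ i, Continuous (fun z => phat c P i (rt z0 Rb z)) := fun i =>
    (phat_cont c hPH.cont i).comp_continuous (rt_cont z0 Rb) fun z => hRbV (rt_mem z0 hRb0 z)
  have hph3 : ∀ i z, ‖phat c P i (rt z0 Rb z) - p i‖ ≤ η := fun i z =>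
    hRbη _ (rt_mem z0 hRb0 z) i
  -- constants
  obtain ⟨I0, hI0⟩ : ∃ I0 : ℝ, I0 = ∫ z in {z | d.q z ≤ 1}, d.g z := ⟨_, rfl⟩
  obtain ⟨X0, hX0⟩ : ∃ X0 : ℝ, X0 = ∫ y, χ y := ⟨_, rfl⟩
  rw [← hI0] at hI
  rw [← hX0] at hχI
  obtain ⟨D1, hD1⟩ : ∃ D1 : ℝ, D1 = A * CA * (4 * (CR * CA ^ u)) := ⟨_, rfl⟩
  have hD10 : 0 ≤ D1 := by rw [hD1]; positivity
  obtain ⟨SS, hSS⟩ : ∃ SS : ℝ, SS = ∑ i ∈ Finset.range (2 * r - 1 + 1), |av i| * (2 ^ i) ^ u :=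
    ⟨_, rfl⟩
  have hSS0 : 0 ≤ SS := by
    rw [hSS]
    exact Finset.sum_nonneg fun i _ => by positivity
  obtain ⟨Y, hY⟩ : ∃ Y : ℝ, Y = X0 * I0 := ⟨_, rfl⟩
  have hY0 : 0 < Y := by rw [hY]; positivity
  obtain ⟨η1, hη10, hη1t, hη1Y⟩ : ∃ η1 : ℝ, 0 < η1 ∧ η1 ≤ t1 ∧ SS * D1 * η1 ≤ Y / 8 := by
    obtain ⟨b, hb0, hb⟩ := small_of (SS * D1) (Y / 8) (by positivity) (by positivity)
    exact ⟨min t1 b, lt_min ht10 hb0, min_le_left _ _, hb _ (lt_min ht10 hb0).le (min_le_right _ _)⟩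
  obtain ⟨ρ2, hρ20, hosc2⟩ := hosc η1 hη10
  obtain ⟨ρ3, hρ30, hρ3⟩ := small_of (|CV| * (1 / a ^ 2 + 2)) (Y / 8) (by positivity)
    (by positivity)
  -- the scale
  have h2m : (0 : ℝ) < 2 ^ (2 * r - 1) := by positivity
  obtain ⟨ρs, hρs⟩ : ∃ ρs : ℝ, ρs = min (min (min ρ1 ρA) (min ρF t1)) (Rb / (2 * Real.sqrt cq)) :=
    ⟨_, rfl⟩
  have hρs0 : 0 < ρs := by
    rw [hρs]
    exact lt_min (lt_min (lt_min hρ10 hρA) (lt_min hρF0 ht10)) (by positivity)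
  obtain ⟨ρ, hρ0, hρa, hρb, hρc, hρd⟩ : ∃ ρ : ℝ, 0 < ρ ∧ ρ ≤ ρ2 ∧ ρ ≤ ρ3 ∧ ρ ≤ δV ∧
      2 ^ (2 * r - 1) * ρ ≤ ρs := by
    refine ⟨min (min ρ2 ρ3) (min δV (ρs / 2 ^ (2 * r - 1))), lt_min (lt_min hρ20 hρ30)
      (lt_min hδV (by positivity)), (min_le_left _ _).trans (min_le_left _ _),
      (min_le_left _ _).trans (min_le_right _ _), (min_le_right _ _).trans (min_le_left _ _), ?_⟩
    have h1 : min (min ρ2 ρ3) (min δV (ρs / 2 ^ (2 * r - 1))) ≤ ρs / 2 ^ (2 * r - 1) :=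
      (min_le_right _ _).trans (min_le_right _ _)
    rw [le_div_iff₀ h2m] at h1
    linarith
  have hscale : ∀ i ≤ 2 * r - 1, 0 < 2 ^ i * ρ ∧ 2 ^ i * ρ ≤ ρs ∧ ρ ≤ 2 ^ i * ρ := by
    intro i hi
    have h1 : (2 : ℝ) ^ i ≤ 2 ^ (2 * r - 1) := pow_le_pow_right₀ (by norm_num) hi
    have h2 : (1 : ℝ) ≤ 2 ^ i := one_le_pow₀ (by norm_num)
    exact ⟨by positivity, (mul_le_mul_of_nonneg_right h1 hρ0.le).trans hρd,
      le_mul_of_one_le_left hρ0.le h2⟩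
  have hρs1 : ρs ≤ ρ1 := by
    rw [hρs]
    exact (min_le_left _ _).trans ((min_le_left _ _).trans (min_le_left _ _))
  have hρsA : ρs ≤ ρA := by
    rw [hρs]
    exact (min_le_left _ _).trans ((min_le_left _ _).trans (min_le_right _ _))
  have hρsF : ρs ≤ ρF := by
    rw [hρs]
    exact (min_le_left _ _).trans ((min_le_right _ _).trans (min_le_left _ _))
  have hρst : ρs ≤ t1 := by
    rw [hρs]
    exact (min_le_left _ _).trans ((min_le_right _ _).trans (min_le_right _ _))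
  have hρsD : ρs * Real.sqrt cq ≤ Rb / 2 := by
    have h1 : ρs ≤ Rb / (2 * Real.sqrt cq) := by rw [hρs]; exact min_le_right _ _
    rw [le_div_iff₀ (by positivity)] at h1
    linarith
  obtain ⟨-, hρρs, -⟩ := hscale 0 (Nat.zero_le _)
  rw [pow_zero, one_mul] at hρρs
  have hρ11 : ρ ≤ 1 := (hρρs.trans hρst).trans ht11
  obtain ⟨ht0, htρ⟩ := amp (a := a) (r := r) hρ0 hρ11 hr ha0 ha1
  obtain ⟨κ0, hκ0, hκη, hκ2, hκosc⟩ := hosc2 ρ hρ0 hρa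
  obtain ⟨t, ht⟩ : ∃ t : ℝ, t = a * ρ ^ (r - 1) := ⟨_, rfl⟩
  rw [← ht] at ht0 htρ hκ2 hκosc
  -- the inequality for the average
  have key := hav2 (fun i z => phat c P i (rt z0 Rb z)) hph1 hph2 hph3 ρ t hρ0 hρc ht0
    (htρ.trans hρc)
  have hsc : ∀ i ∈ Finset.range (2 * r - 1 + 1),
      av i * FF χ d (fun i z => phat c P i (rt z0 Rb z)) (2 ^ i * ρ) (t / 2 ^ i) ≤
        (|av i| * (2 ^ i) ^ u) * (D1 * (η1 * t ^ 2)) := by
    intro i hi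
    obtain ⟨s1, s2, s3⟩ := hscale i (by rw [Finset.mem_range] at hi; omega)
    have h2i : (1 : ℝ) ≤ 2 ^ i := one_le_pow₀ (by norm_num)
    have hti0 : 0 < t / 2 ^ i := by positivity
    have hti : t / 2 ^ i ≤ t := div_le_self ht0.le h2i
    have hti2 : t / 2 ^ i ≤ a * (2 ^ i * ρ) ^ (r - 1) := by
      refine hti.trans ?_
      rw [ht]
      exact mul_le_mul_of_nonneg_left (pow_le_pow_left₀ hρ0.le s3 _) ha0.le
    have hmul : 2 ^ i * ρ * (t / 2 ^ i) = ρ * t := by field_simp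
    have h1 := scale (u := u) (rad := rad) hqc hl0 hl1 hA hb hg hret hCA hχ0 hχs'
      (har χ hχsm.continuous hχ0 hχ1 hχA) hρF1 hCF ha0 ha1 hr haε hG2
      (fun t z ht => (hTEa t z ht).1) hqH hDs hRb0 hRbrad hrχ1 hrχF hrχR s1 (s2.trans hρs1)
      (s2.trans hρsA) (s2.trans hρsF)
      ((mul_le_mul_of_nonneg_right s2 hDD0.le).trans hρsD) (s2.trans hρst) hti0 hti2 hκ0
      (hκη.trans hη1t) (by rw [hmul]; exact hκosc)
    have h2 : (κ0 + t / 2 ^ i) ^ 2 ≤ (κ0 + t) ^ 2 := pow_le_pow_left₀ (by positivity)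
      (by linarith) 2
    calc av i * FF χ d (fun i z => phat c P i (rt z0 Rb z)) (2 ^ i * ρ) (t / 2 ^ i)
        ≤ |av i| * |FF χ d (fun i z => phat c P i (rt z0 Rb z)) (2 ^ i * ρ) (t / 2 ^ i)| := by
          rw [← abs_mul]
          exact le_abs_self _
      _ ≤ |av i| * (A * (κ0 + t / 2 ^ i) ^ 2 * CA * (4 * (CR * (CA * (2 ^ i * ρ)) ^ u))) :=
          mul_le_mul_of_nonneg_left h1 (abs_nonneg _)
      _ = (|av i| * (2 ^ i) ^ u) * (D1 * ((κ0 + t / 2 ^ i) ^ 2 * ρ ^ u)) := by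
          rw [hD1, mul_pow, mul_pow]
          ring
      _ ≤ (|av i| * (2 ^ i) ^ u) * (D1 * ((κ0 + t) ^ 2 * ρ ^ u)) := by
          refine mul_le_mul_of_nonneg_left (mul_le_mul_of_nonneg_left ?_ hD10) (by positivity)
          exact mul_le_mul_of_nonneg_right h2 (by positivity)
      _ ≤ (|av i| * (2 ^ i) ^ u) * (D1 * (η1 * t ^ 2)) :=
          mul_le_mul_of_nonneg_left (mul_le_mul_of_nonneg_left hκ2 hD10) (by positivity)
  have hsum := Finset.sum_le_sum hsc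
  rw [← Finset.sum_mul, ← hSS] at hsum
  rw [← hX0, ← hI0, ← hY] at key
  -- the error terms
  have e1 : ρ ^ (2 * r - 1) = ρ * (1 / a ^ 2) * t ^ 2 := by
    have h1 : ρ ^ (2 * r - 1) = ρ * (ρ ^ (r - 1)) ^ 2 := by
      rw [← pow_mul, ← pow_succ']
      congr 1
      omega
    rw [h1, ht, mul_pow]
    field_simp
  have e2 : t ^ 3 ≤ ρ * t ^ 2 := by
    rw [pow_succ' t 2]
    exact mul_le_mul_of_nonneg_right htρ (by positivity)
  have e3 : CV * (ρ ^ (2 * r - 1) + ρ * t ^ 2 + t ^ 3) ≤ (Y / 8) * t ^ 2 := by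
    have h0 : 0 ≤ ρ ^ (2 * r - 1) + ρ * t ^ 2 + t ^ 3 := by positivity
    calc CV * (ρ ^ (2 * r - 1) + ρ * t ^ 2 + t ^ 3)
        ≤ |CV| * (ρ ^ (2 * r - 1) + ρ * t ^ 2 + t ^ 3) :=
          mul_le_mul_of_nonneg_right (le_abs_self _) h0
      _ ≤ |CV| * (ρ * (1 / a ^ 2) * t ^ 2 + ρ * t ^ 2 + ρ * t ^ 2) := by
          rw [e1]
          refine mul_le_mul_of_nonneg_left ?_ (abs_nonneg _)
          linarith
      _ = (|CV| * (1 / a ^ 2 + 2) * ρ) * t ^ 2 := by ring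
      _ ≤ (Y / 8) * t ^ 2 := mul_le_mul_of_nonneg_right (hρ3 ρ hρ0.le hρb) (by positivity)
  have e4 : SS * (D1 * (η1 * t ^ 2)) ≤ (Y / 8) * t ^ 2 := by
    calc SS * (D1 * (η1 * t ^ 2)) = (SS * D1 * η1) * t ^ 2 := by ring
      _ ≤ (Y / 8) * t ^ 2 := mul_le_mul_of_nonneg_right hη1Y (by positivity)
  have e5 : 0 < Y * t ^ 2 := by positivity
  have e6 : t ^ 2 * Y / 2 - CV * (ρ ^ (2 * r - 1) + ρ * t ^ 2 + t ^ 3) ≤
      SS * (D1 * (η1 * t ^ 2)) := key.trans hsum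
  nlinarith

end Pool.Agent.Helper56.RZ
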