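import Pool.Agent.Helper56.RZ.GoalsF
import Pool.Agent.Helper56.RZ.FinU

/-!
# Project RZ5: one scale
-/

set_option autoImplicit false

open Set Filter Topology MeasureTheory

open scoped ContDiff

namespace Pool.Agent.Helper56.RZ

open Pool.Agent.Helper95.RZ (k1_norm)

theorem phat_lip {N K : ℕ} {M : Set (E K)} (c : Chart N K M) {P : Fin 3 → E K → End K}
    (hP : ∀ i, ContinuousOn (P i) M) {z0 : E N} (hz0 : z0 ∈ c.V) :
    ∃ C q : ℝ, 1 ≤ C ∧ 0 < q ∧ ∀ z ∈ Metric.closedBall z0 q, ∀ z' ∈ Metric.closedBall z0 q,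
      ‖c.ψ z - c.ψ z'‖ ≤ C * ‖z - z'‖ ∧ ∀ i, ‖phat c P i z - phat c P i z'‖ ≤
        C * (‖P i (c.ψ z) - P i (c.ψ z')‖ + ‖z - z'‖) := by
  have hmem : ∀ z ∈ c.V, c.ψ z ∈ M := fun z hz => (c.mapsψ z hz).1
  have hψ : ContDiffAt ℝ ∞ c.ψ z0 := c.smoothψ.contDiffAt (c.openV.mem_nhds hz0)
  have hφ : ContDiffAt ℝ ∞ c.φ (c.ψ z0) :=
    c.smoothφ.contDiffAt (c.openW.mem_nhds (c.mapsψ z0 hz0).2)
  have le2 : (1 : WithTop ℕ∞) + 1 ≤ ∞ := by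
    have h : (((2 : ℕ∞)) : WithTop ℕ∞) ≤ ((⊤ : ℕ∞) : WithTop ℕ∞) := WithTop.coe_le_coe.mpr le_top
    exact (show (1 : WithTop ℕ∞) + 1 = ((2 : ℕ∞) : WithTop ℕ∞) by norm_num) ▸ h
  have le1 : (1 : WithTop ℕ∞) ≤ ∞ := by simp
  have hu : ContDiffAt ℝ 1 (fderiv ℝ c.ψ) z0 := hψ.fderiv_right le2
  have hv : ContDiffAt ℝ 1 (fun z => fderiv ℝ c.φ (c.ψ z)) z0 :=
    (hφ.fderiv_right le2).comp z0 (hψ.of_le le1)
  -- continuity of the projections along the chart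
  have hPc : ∀ i, ContinuousAt (fun z => P i (c.ψ z)) z0 := by
    intro i
    have h1 : ContinuousWithinAt (fun z => P i (c.ψ z)) c.V z0 :=
      ((hP i) (c.ψ z0) (hmem z0 hz0)).comp hψ.continuousAt.continuousWithinAt
        (fun z hz => hmem z hz)
    exact h1.continuousAt (c.openV.mem_nhds hz0)
  · obtain ⟨Lψ, t1, ht1, hL1⟩ := (hψ.of_le le1).exists_lipschitzOnWith
    obtain ⟨Lu, t2, ht2, hL2⟩ := hu.exists_lipschitzOnWith
    obtain ⟨Lv, t3, ht3, hL3⟩ := hv.exists_lipschitzOnWith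
    obtain ⟨B, hBdef⟩ : ∃ B : ℝ, B = ∑ i, ‖P i (c.ψ z0)‖ + 1 := ⟨_, rfl⟩
    have B0 : 0 ≤ B := by rw [hBdef]; positivity
    have ht4 : {z | ∀ i, ‖P i (c.ψ z)‖ ≤ B} ∈ 𝓝 z0 := by
      have h1 : ∀ i, ∀ᶠ z in 𝓝 z0, ‖P i (c.ψ z)‖ < B := by
        intro i
        refine (hPc i).norm.eventually_lt continuousAt_const ?_
        have h2 : ‖P i (c.ψ z0)‖ ≤ ∑ i, ‖P i (c.ψ z0)‖ :=
          Finset.single_le_sum (f := fun i => ‖P i (c.ψ z0)‖) (fun _ _ => norm_nonneg _)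
            (Finset.mem_univ i)
        rw [hBdef]
        linarith
      have h3 := eventually_all.mpr h1
      exact h3.mono fun z hz i => (hz i).le
    have hall : c.V ∩ t1 ∩ t2 ∩ t3 ∩ {z | ∀ i, ‖P i (c.ψ z)‖ ≤ B} ∈ 𝓝 z0 :=
      inter_mem (inter_mem (inter_mem (inter_mem (c.openV.mem_nhds hz0) ht1) ht2) ht3) ht4
    obtain ⟨q, q0, hq⟩ := Metric.nhds_basis_closedBall.mem_iff.mp hall
    obtain ⟨b, hbdef⟩ : ∃ b : ℝ,
      b = ‖fderiv ℝ c.ψ z0‖ + Lu * q + (‖fderiv ℝ c.φ (c.ψ z0)‖ + Lv * q) := ⟨_, rfl⟩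
    have b0 : 0 ≤ b := by rw [hbdef]; positivity
    have hz0b : z0 ∈ Metric.closedBall z0 q := Metric.mem_closedBall_self q0.le
    have hψL : ∀ z ∈ Metric.closedBall z0 q, ∀ z' ∈ Metric.closedBall z0 q,
        ‖c.ψ z - c.ψ z'‖ ≤ Lψ * ‖z - z'‖ := by
      intro z hz z' hz'
      have := hL1.dist_le_mul z (hq hz).1.1.1.2 z' (hq hz').1.1.1.2
      rwa [dist_eq_norm, dist_eq_norm] at this
    have hUL : ∀ z ∈ Metric.closedBall z0 q, ∀ z' ∈ Metric.closedBall z0 q,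
        ‖fderiv ℝ c.ψ z - fderiv ℝ c.ψ z'‖ ≤ Lu * ‖z - z'‖ := by
      intro z hz z' hz'
      have := hL2.dist_le_mul z (hq hz).1.1.2 z' (hq hz').1.1.2
      rwa [dist_eq_norm, dist_eq_norm] at this
    have hVL : ∀ z ∈ Metric.closedBall z0 q, ∀ z' ∈ Metric.closedBall z0 q,
        ‖fderiv ℝ c.φ (c.ψ z) - fderiv ℝ c.φ (c.ψ z')‖ ≤ Lv * ‖z - z'‖ := by
      intro z hz z' hz'
      have := hL3.dist_le_mul z (hq hz).1.2 z' (hq hz').1.2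
      rwa [dist_eq_norm, dist_eq_norm] at this
    have hdq : ∀ z ∈ Metric.closedBall z0 q, ‖z - z0‖ ≤ q := by
      intro z hz
      rw [← dist_eq_norm]
      exact Metric.mem_closedBall.mp hz
    have hUB : ∀ z ∈ Metric.closedBall z0 q, ‖fderiv ℝ c.ψ z‖ ≤ b := by
      intro z hz
      have h1 := hUL z hz z0 hz0b
      have h2 : (Lu : ℝ) * ‖z - z0‖ ≤ Lu * q :=
        mul_le_mul_of_nonneg_left (hdq z hz) Lu.coe_nonneg
      have h4 := norm_sub_norm_le (fderiv ℝ c.ψ z) (fderiv ℝ c.ψ z0)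
      have h5 := norm_nonneg (fderiv ℝ c.φ (c.ψ z0))
      have h6 : 0 ≤ (Lv : ℝ) * q := mul_nonneg Lv.coe_nonneg q0.le
      rw [hbdef]
      linarith
    have hVB : ∀ z ∈ Metric.closedBall z0 q, ‖fderiv ℝ c.φ (c.ψ z)‖ ≤ b := by
      intro z hz
      have h1 := hVL z hz z0 hz0b
      have h2 : (Lv : ℝ) * ‖z - z0‖ ≤ Lv * q :=
        mul_le_mul_of_nonneg_left (hdq z hz) Lv.coe_nonneg
      have h4 := norm_sub_norm_le (fderiv ℝ c.φ (c.ψ z)) (fderiv ℝ c.φ (c.ψ z0))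
      have h5 := norm_nonneg (fderiv ℝ c.ψ z0)
      have h6 : 0 ≤ (Lu : ℝ) * q := mul_nonneg Lu.coe_nonneg q0.le
      rw [hbdef]
      linarith
    obtain ⟨D, hD⟩ : ∃ D : ℝ, D = Lv * (B * b) + b * (B * Lu) := ⟨_, rfl⟩
    have D0 : 0 ≤ D := by rw [hD]; positivity
    have hLψ := Lψ.coe_nonneg
    refine ⟨1 + Lψ + D + b ^ 2, q, by nlinarith [sq_nonneg b], q0, fun z hzb z' hzb' =>
      ⟨?_, fun i => ?_⟩⟩
    · refine (hψL z hzb z' hzb').trans ?_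
      exact mul_le_mul_of_nonneg_right (by nlinarith [sq_nonneg b]) (norm_nonneg _)
    · have h1 := k1_norm (fderiv ℝ c.ψ z) (fderiv ℝ c.ψ z') (fderiv ℝ c.φ (c.ψ z))
        (fderiv ℝ c.φ (c.ψ z')) (P i (c.ψ z)) (P i (c.ψ z')) b0 B0 (hUB z hzb) (hVB z' hzb')
        ((hq hzb).2 i) ((hq hzb').2 i) (hVL z hzb z' hzb') le_rfl (hUL z hzb z' hzb')
        (mul_nonneg Lv.coe_nonneg (norm_nonneg _)) (norm_nonneg _)
      have h6 : (Lv : ℝ) * ‖z - z'‖ * (B * b) + b * (‖P i (c.ψ z) - P i (c.ψ z')‖ * b) +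
          b * (B * (Lu * ‖z - z'‖)) = D * ‖z - z'‖ + b ^ 2 * ‖P i (c.ψ z) - P i (c.ψ z')‖ := by
        rw [hD]
        ring
      change ‖(fderiv ℝ c.φ (c.ψ z)) ∘L (P i (c.ψ z)) ∘L (fderiv ℝ c.ψ z) -
        (fderiv ℝ c.φ (c.ψ z')) ∘L (P i (c.ψ z')) ∘L (fderiv ℝ c.ψ z')‖ ≤ _
      rw [h6] at h1
      refine h1.trans ?_
      have n1 := norm_nonneg (z - z')
      have n2 := norm_nonneg (P i (c.ψ z) - P i (c.ψ z'))
      have n3 : 0 ≤ (1 + Lψ + b ^ 2) * ‖z - z'‖ := by positivity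
      have n4 : 0 ≤ (1 + Lψ + D) * ‖P i (c.ψ z) - P i (c.ψ z')‖ := by positivity
      nlinarith

theorem ff_abs5 {N : ℕ} {χ I V : E N → ℝ} {W : ℕ → E N → ℝ} {w : ℕ → ℝ}
    {ρ l l' A1 A2 C D : ℝ}
    (hχ : ∀ y, 0 ≤ χ y) (hρ : 0 < ρ) (hl0 : 0 < l) (hl0' : 0 < l') (hl1' : l' < 1)
    (hA1 : 0 ≤ A1) (hA2 : 0 ≤ A2) (hC : 0 ≤ C)
    (h1 : ∀ y, χ y ≠ 0 → ∀ N0 : ℕ, |I y| ≤ (ρ ^ N)⁻¹ * (A1 *
      (4 * ∑ n ∈ Finset.range N0, l ^ n * W n y) + A2 * (l' ^ N0 * V y)))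
    (hW : ∀ n, Integrable (fun y => χ y * W n y) volume ∧ ∫ y, χ y * W n y ≤ C * ρ ^ N * w n)
    (hV : Integrable (fun y => χ y * V y) volume ∧ ∫ y, χ y * V y ≤ C * ρ ^ N)
    (hD : ∀ N0, ∑ n ∈ Finset.range N0, l ^ n * w n ≤ D) :
    |∫ y, χ y * I y| ≤ A1 * C * (4 * D) := by
  have hpos : 0 < ρ ^ N := pow_pos hρ N
  have key : ∀ N0 : ℕ, |∫ y, χ y * I y| ≤ A1 * C * (4 * D) + A2 * C * l' ^ N0 := by
    intro N0
    have hi1 : Integrable (fun y => ∑ n ∈ Finset.range N0, l ^ n * (χ y * W n y)) volume :=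
      integrable_finsetSum _ fun n _ => (hW n).1.const_mul (l ^ n)
    have hi2 : Integrable (fun y => l' ^ N0 * (χ y * V y)) volume := hV.1.const_mul _
    have hi3 : Integrable (fun y => 4 * ∑ n ∈ Finset.range N0, l ^ n * (χ y * W n y)) volume :=
      hi1.const_mul 4
    have hint : Integrable (fun y => (ρ ^ N)⁻¹ * (A1 *
        (4 * ∑ n ∈ Finset.range N0, l ^ n * (χ y * W n y)) + A2 * (l' ^ N0 * (χ y * V y))))
        volume :=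
      ((hi3.const_mul _).add (hi2.const_mul _)).const_mul _
    have hle : ∀ y, ‖χ y * I y‖ ≤ (ρ ^ N)⁻¹ * (A1 *
        (4 * ∑ n ∈ Finset.range N0, l ^ n * (χ y * W n y)) + A2 * (l' ^ N0 * (χ y * V y))) := by
      intro y
      have e1 : ∑ n ∈ Finset.range N0, l ^ n * (χ y * W n y) =
          χ y * ∑ n ∈ Finset.range N0, l ^ n * W n y := by
        rw [Finset.mul_sum]
        exact Finset.sum_congr rfl fun n _ => by ring
      rw [e1]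
      by_cases hy : χ y = 0
      · simp [hy]
      · rw [norm_mul, Real.norm_of_nonneg (hχ y), Real.norm_eq_abs]
        refine (mul_le_mul_of_nonneg_left (h1 y hy N0) (hχ y)).trans (le_of_eq ?_)
        ring
    have h2 := norm_integral_le_of_norm_le hint (ae_of_all _ hle)
    rw [Real.norm_eq_abs] at h2
    refine h2.trans ?_
    rw [integral_const_mul, integral_add (hi3.const_mul _) (hi2.const_mul _), integral_const_mul,
      integral_const_mul,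
      integral_const_mul, integral_finsetSum _ (fun n _ => (hW n).1.const_mul (l ^ n)),
      integral_const_mul]
    simp only [integral_const_mul]
    have h3 : ∑ n ∈ Finset.range N0, l ^ n * (∫ y, χ y * W n y) ≤
        C * ρ ^ N * ∑ n ∈ Finset.range N0, l ^ n * w n := by
      rw [Finset.mul_sum]
      refine Finset.sum_le_sum fun n _ => ?_
      calc l ^ n * (∫ y, χ y * W n y) ≤ l ^ n * (C * ρ ^ N * w n) :=
            mul_le_mul_of_nonneg_left (hW n).2 (by positivity)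
        _ = C * ρ ^ N * (l ^ n * w n) := by ring
    have h4 : C * ρ ^ N * ∑ n ∈ Finset.range N0, l ^ n * w n ≤ C * ρ ^ N * D :=
      mul_le_mul_of_nonneg_left (hD N0) (by positivity)
    have h5 : l' ^ N0 * (∫ y, χ y * V y) ≤ l' ^ N0 * (C * ρ ^ N) :=
      mul_le_mul_of_nonneg_left hV.2 (by positivity)
    have h6 : A1 * (4 * ∑ n ∈ Finset.range N0, l ^ n * (∫ y, χ y * W n y)) ≤
        A1 * (4 * (C * ρ ^ N * D)) := mul_le_mul_of_nonneg_left (by linarith) hA1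
    have h7 : A2 * (l' ^ N0 * (∫ y, χ y * V y)) ≤ A2 * (l' ^ N0 * (C * ρ ^ N)) :=
      mul_le_mul_of_nonneg_left h5 hA2
    calc (ρ ^ N)⁻¹ * (A1 * (4 * ∑ n ∈ Finset.range N0, l ^ n * (∫ y, χ y * W n y)) +
          A2 * (l' ^ N0 * (∫ y, χ y * V y)))
        ≤ (ρ ^ N)⁻¹ * (A1 * (4 * (C * ρ ^ N * D)) + A2 * (l' ^ N0 * (C * ρ ^ N))) :=
          mul_le_mul_of_nonneg_left (add_le_add h6 h7) (by positivity)
      _ = (ρ ^ N)⁻¹ * ρ ^ N * (A1 * C * (4 * D) + A2 * C * l' ^ N0) := by ring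
      _ = A1 * C * (4 * D) + A2 * C * l' ^ N0 := by rw [inv_mul_cancel₀ hpos.ne', one_mul]
  have hlim : Tendsto (fun N0 : ℕ => A1 * C * (4 * D) + A2 * C * l' ^ N0) atTop
      (𝓝 (A1 * C * (4 * D) + A2 * C * 0)) :=
    ((tendsto_pow_atTop_nhds_zero_of_lt_one hl0'.le hl1').const_mul _).const_add _
  rw [mul_zero, add_zero] at hlim
  exact ge_of_tendsto' hlim key

/-- one scale -/
theorem scale5 {N K r : ℕ} {M : Set (E K)} {m : Measure (E K)} {f f' : E K → E K}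
    {P : Fin 3 → E K → End K} {c : Chart N K M} {p : Fin 3 → End N} {d : Tw N p} {z0 : E N}
    (hf1 : IsDiffeo 1 M f f')
    {l l' A1 A2 ε R ρ t κ0 : ℝ} (hl0 : 0 < l) (hl0' : 0 < l') (hl1' : l' < 1)
    (hA1 : 0 ≤ A1) (hA2 : 0 ≤ A2)
    (hb : ∀ y ∈ Metric.closedBall z0 R, Small r ε M (hMa c d th2 y ρ t) →
      Small r ε M (hMa c d th2 y ρ (-t)) →
      (∀ s, d.q s ≤ 1 → ∀ i,
        ‖phat c P i (y + ρ • d.Ha th2 t s) - phat c P i (y + ρ • s)‖ ≤ κ0) →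
      ∀ N0 : ℕ, |∫ s in {s | d.q s ≤ 1}, Fl d (phat c P) ρ t y s| ≤
        (ρ ^ N)⁻¹ * (A1 * (4 * ∑ n ∈ Finset.range N0,
        l ^ n * (m {x | x ∈ Bs c d y ρ ∧ f^[n + 1] x ∈ Bs c d y ρ}).toReal) +
          A2 * (l' ^ N0 * (m (Bs c d y ρ)).toReal)))
    {CA D1 : ℝ} (hCA : 1 ≤ CA) {χ : E N → ℝ} (hχ0 : ∀ y, 0 ≤ χ y)
    (hχs : ∀ y, χ y ≠ 0 → y ∈ Metric.closedBall z0 R)
    (har : Integrable (fun y => χ y * (m (Bs c d y ρ)).toReal) volume ∧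
      ∫ y, χ y * (m (Bs c d y ρ)).toReal ≤ CA * ρ ^ N ∧
      ∀ g : E K → E K, ContinuousOn g M → MapsTo g M M →
        Integrable (fun y => χ y * (m {x | x ∈ Bs c d y ρ ∧ g x ∈ Bs c d y ρ}).toReal) volume ∧
        ∫ y, χ y * (m {x | x ∈ Bs c d y ρ ∧ g x ∈ Bs c d y ρ}).toReal ≤
          CA * ρ ^ N * (m {x | x ∈ M ∧ ‖x - c.ψ z0‖ ≤ CA * R ∧ ‖g x - x‖ ≤ CA * ρ}).toReal)
    (hret : ∀ N0 : ℕ, ∑ n ∈ Finset.range N0, l ^ n *
      (m {x | x ∈ M ∧ ‖x - c.ψ z0‖ ≤ CA * R ∧ ‖f^[n + 1] x - x‖ ≤ CA * ρ}).toReal ≤ D1)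
    {CF rF a cE DD Rb : ℝ} (hCF : 1 ≤ CF) (ha0 : 0 < a) (ha1 : a ≤ 1)
    (hr : 2 ≤ r) (hCFa : CF * a ≤ ε)
    (hG2 : ∀ y ∈ Metric.closedBall z0 rF, ∀ t : ℝ, |t| ≤ 1 →
      Fit c d y ρ ∧ ∃ w : E K → E K, ContDiff ℝ ∞ w ∧ (∀ x ∈ M, hMa c d th2 y ρ t x = x + w x) ∧
      ∀ k ≤ r, ∀ x, ‖iteratedFDeriv ℝ k w x‖ ≤ CF * |t| * ρ * (ρ⁻¹) ^ k)
    (hTE : ∀ (t : ℝ) (z : E N), |t| ≤ 1 → ‖d.Ha th2 t z - z‖ ≤ cE * |t|)
    (hqH : ∀ t z, d.q (d.Ha th2 t z) = d.q z) (hqm : MeasurableSet {s : E N | d.q s ≤ 1})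
    (hDs : ∀ s, d.q s ≤ 1 → ‖s‖ ≤ DD) (hDD1 : 1 ≤ DD) (hRb0 : 0 < Rb)
    (hRF : R ≤ rF) (hRR : R ≤ Rb / 2) (hρ0 : 0 < ρ) (hρ11 : ρ ≤ 1) (hρR : ρ ≤ R)
    (hρD : ρ * DD ≤ Rb / 2)
    (ht0 : 0 < t) (ht : t ≤ a * ρ ^ (r - 1))
    (hosc : ∀ z ∈ Metric.closedBall z0 (2 * DD * R), ∀ z' ∈ Metric.closedBall z0 (2 * DD * R),
      ‖z' - z‖ ≤ cE * (ρ * t) → ∀ i, ‖phat c P i z' - phat c P i z‖ ≤ κ0) :
    |FF χ d (fun i z => phat c P i (rt z0 Rb z)) ρ t| ≤ A1 * CA * (4 * D1) := by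
  obtain ⟨-, htρ⟩ := amp (a := a) (r := r) hρ0 hρ11 hr ha0 ha1
  have htt : |t| ≤ 1 := by rw [abs_of_pos ht0]; exact (ht.trans htρ).trans hρ11
  have hin0 : ∀ y, χ y ≠ 0 → ∀ s, d.q s ≤ 1 → ‖y + ρ • s - z0‖ ≤ R + ρ * DD := by
    intro y hy s hs
    have hy0 := hχs y hy
    rw [Metric.mem_closedBall, dist_eq_norm] at hy0
    calc ‖y + ρ • s - z0‖ = ‖(y - z0) + ρ • s‖ := by congr 1; abel
      _ ≤ ‖y - z0‖ + ‖ρ • s‖ := norm_add_le _ _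
      _ ≤ R + ρ * DD := by
          rw [norm_smul, Real.norm_of_nonneg hρ0.le]
          exact add_le_add hy0 (mul_le_mul_of_nonneg_left (hDs s hs) hρ0.le)
  have hin : ∀ y, χ y ≠ 0 → ∀ s, d.q s ≤ 1 → y + ρ • s ∈ Metric.closedBall z0 Rb := by
    intro y hy s hs
    rw [Metric.mem_closedBall, dist_eq_norm]
    exact (hin0 y hy s hs).trans (by linarith)
  have hin2 : ∀ y, χ y ≠ 0 → ∀ s, d.q s ≤ 1 →
      y + ρ • s ∈ Metric.closedBall z0 (2 * DD * R) := by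
    intro y hy s hs
    rw [Metric.mem_closedBall, dist_eq_norm]
    refine (hin0 y hy s hs).trans ?_
    have h0 : 0 ≤ R := hρ0.le.trans hρR
    have h1 : ρ * DD ≤ R * DD := mul_le_mul_of_nonneg_right hρR (by linarith)
    have h2 : R * 1 ≤ R * DD := mul_le_mul_of_nonneg_left hDD1 h0
    linarith
  have hsm : ∀ y, χ y ≠ 0 → ∀ t' : ℝ, |t'| = t → Small r ε M (hMa c d th2 y ρ t') := by
    intro y hy t' ht'
    obtain ⟨-, w, hw1, hw2, hw3⟩ := hG2 y (Metric.closedBall_subset_closedBall hRF (hχs y hy))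
      t' (by rw [ht', ← abs_of_pos ht0]; exact htt)
    refine ⟨w, hw1, hw2, fun k hk x => (hw3 k hk x).trans ?_⟩
    rw [ht']
    have h1 := pow_small hρ0 hρ11 (by omega : 1 ≤ r) hk
    calc CF * t * ρ * (ρ⁻¹) ^ k ≤ CF * (a * ρ ^ (r - 1)) * ρ * (ρ⁻¹) ^ k := by
          have : 0 ≤ ρ⁻¹ := by positivity
          refine mul_le_mul_of_nonneg_right (mul_le_mul_of_nonneg_right
            (mul_le_mul_of_nonneg_left ht (by linarith)) hρ0.le) (by positivity)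
      _ = (CF * a) * (ρ ^ (r - 1) * ρ * (ρ⁻¹) ^ k) := by ring
      _ ≤ (CF * a) * 1 := mul_le_mul_of_nonneg_left h1 (by positivity)
      _ ≤ ε := by rw [mul_one]; exact hCFa
  obtain ⟨ar1, ar2, ar3⟩ := har
  unfold FF
  refine ff_abs5 (W := fun n y => (m {x | x ∈ Bs c d y ρ ∧ f^[n + 1] x ∈ Bs c d y ρ}).toReal)
    (V := fun y => (m (Bs c d y ρ)).toReal)
    (w := fun n => (m {x | x ∈ M ∧ ‖x - c.ψ z0‖ ≤ CA * R ∧ ‖f^[n + 1] x - x‖ ≤ CA * ρ}).toReal)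
    hχ0 hρ0 hl0 hl0' hl1' hA1 hA2 (by linarith) ?_ (fun n => ?_) ⟨ar1, ar2⟩ hret
  · intro y hy N0
    have e1 : ∫ s in {s | d.q s ≤ 1}, Fl d (fun i z => phat c P i (rt z0 Rb z)) ρ t y s =
        ∫ s in {s | d.q s ≤ 1}, Fl d (phat c P) ρ t y s := by
      refine setIntegral_congr_fun hqm fun s hs => ?_
      simp only [Fl]
      rw [rt_id hRb0 (hin y hy s hs), rt_id hRb0 (hin y hy _ (by rw [hqH]; exact hs))]
    rw [e1]
    refine hb y (hχs y hy) (hsm y hy t (abs_of_pos ht0))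
      (hsm y hy (-t) (by rw [abs_neg, abs_of_pos ht0]))
      (fun s hs i => hosc _ (hin2 y hy s hs) _ (hin2 y hy _ (by rw [hqH]; exact hs)) ?_ i) N0
    have h1 : y + ρ • d.Ha th2 t s - (y + ρ • s) = ρ • (d.Ha th2 t s - s) := by
      rw [smul_sub]
      abel
    rw [h1, norm_smul, Real.norm_of_nonneg hρ0.le]
    have h2 := hTE t s htt
    rw [abs_of_pos ht0] at h2
    calc ρ * ‖d.Ha th2 t s - s‖ ≤ ρ * (cE * t) := mul_le_mul_of_nonneg_left h2 hρ0.le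
      _ = cE * (ρ * t) := by ring
  · exact ar3 (f^[n + 1]) (iter_diffeo hf1 (n + 1)).smooth.continuousOn
      (iter_diffeo hf1 (n + 1)).maps

end Pool.Agent.Helper56.RZ
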