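import Pool.Agent.Helper56.RZ.FinB

/-!
# Project RZ: positivity of the integral; vanishing of `Lam`
-/

set_option autoImplicit false

open Set Filter Topology MeasureTheory

open scoped ContDiff

namespace Pool.Agent.Helper56.RZ

/-- the integral in the exact identity is positive -/
theorem int_pos (hINT : StmtINT) (hMS : StmtMS) {N K : ℕ} {M : Set (E K)} {m : Measure (E K)}
    {c : Chart N K M} {p : Fin 3 → End N} (hSV : SmoothVolume N K M m) (hp : Proj3 p)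
    {d : Tw N p} {z0 : E N} {ρ : ℝ} (hρ : 0 < ρ) (hFit : Fit c d z0 ρ)
    (hvol : ∀ A : Set (E N), MeasurableSet A → A ⊆ c.V → m (c.ψ '' A) = volume A)
    (hgc : Continuous d.g) (hqc : IsCompact {y : E N | d.q y ≤ 1})
    {Z : M → End K} (hZ : Continuous Z)
    (hoff : ∀ x : M, (¬ ∃ y, d.q y ≤ 1 ∧ (x : E K) = c.ψ (z0 + ρ • y)) → Z x = 0)
    {t η cL cD δD : ℝ} (ht0 : 0 < t) (ht1 : t ≤ 1) (_hcL : 0 ≤ cL)
    (hest : ∀ (x : M) (y : E N), d.q y ≤ 1 → (x : E K) = c.ψ (z0 + ρ • y) →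
      ‖Z x‖ ≤ cL * t ^ 2 ∧ |LinearMap.trace ℝ (E K) (Z x : E K →ₗ[ℝ] E K) - t ^ 2 * d.g y|
        ≤ cL * (η + t) * t ^ 2)
    (hLD : ∀ Z : End K, ‖Z‖ ≤ δD →
      |Real.log |LinearMap.det ((1 + Z : End K) : E K →ₗ[ℝ] E K)|
        - LinearMap.trace ℝ (E K) (Z : E K →ₗ[ℝ] E K)| ≤ cD * ‖Z‖ ^ 2)
    (htL : cL * t ^ 2 ≤ 1 / 2) (htD : cL * t ^ 2 ≤ δD) {v0 I0 : ℝ}
    (hv0 : v0 = (volume {y : E N | d.q y ≤ 1}).toReal)
    (hI0 : I0 = ∫ z in {z | d.q z ≤ 1}, d.g z) (hI : 0 < I0)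
    (hsum : (cL * (η + t) + |cD| * cL ^ 2 * t) * v0 ≤ I0 / 2) :
    0 < ∫ x : M, Real.log |LinearMap.det ((1 + Z x : End K) : E K →ₗ[ℝ] E K)|
      ∂(m.comap ((↑) : M → E K)) := by
  classical
  obtain ⟨-, -, -, hMSi, -⟩ := hMS N K M m hSV
  set F : E K → ℝ := fun x => if hx : x ∈ M then
    Real.log |LinearMap.det ((1 + Z ⟨x, hx⟩ : End K) : E K →ₗ[ℝ] E K)| else 0 with hF
  have hFx : ∀ x : M, F x = Real.log |LinearMap.det ((1 + Z x : End K) : E K →ₗ[ℝ] E K)| := by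
    intro x
    simp only [hF, dif_pos x.2]
  have hZ12 : ∀ x, ‖Z x‖ ≤ 1 / 2 := by
    intro x
    by_cases hx : ∃ y, d.q y ≤ 1 ∧ (x : E K) = c.ψ (z0 + ρ • y)
    · obtain ⟨y, hy, hxy⟩ := hx
      exact (hest x y hy hxy).1.trans htL
    · rw [hoff x hx, norm_zero]
      norm_num
  have hcont : Continuous
      (fun x : M => Real.log |LinearMap.det ((1 + Z x : End K) : E K →ₗ[ℝ] E K)|) := by
    refine Continuous.log (cont_det (continuous_const.add hZ)).abs fun x => ?_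
    exact abs_ne_zero.2 (det_ne_zero (lt_of_le_of_lt (hZ12 x) (by norm_num)))
  have hFM : ContinuousOn F M := by
    rw [continuousOn_iff_continuous_domRestrict]
    refine hcont.congr fun x => ?_
    rw [domRestrict_apply, hFx]
  have hF0 : ∀ x ∈ M, (¬ ∃ y, d.q y ≤ 1 ∧ x = c.ψ (z0 + ρ • y)) → F x = 0 := by
    intro x hx hn
    rw [show F x = F ((⟨x, hx⟩ : M) : E K) from rfl, hFx, hoff ⟨x, hx⟩ hn]
    simp
  have e1 : ∫ x : M, Real.log |LinearMap.det ((1 + Z x : End K) : E K →ₗ[ℝ] E K)|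
      ∂(m.comap ((↑) : M → E K)) = ∫ x, F x ∂m := by
    rw [← hMSi F]
    exact integral_congr_ae (Eventually.of_forall fun x => (hFx x).symm)
  rw [e1, hINT N K M m c p hSV hp d z0 ρ hρ hFit hvol F hFM hF0]
  refine mul_pos (pow_pos hρ N) ?_
  set S : Set (E N) := {y : E N | d.q y ≤ 1} with hS
  have hmap : MapsTo (fun y : E N => z0 + ρ • y) S c.V := fun y hy => hFit y hy
  have hFS : ContinuousOn (fun y => F (c.ψ (z0 + ρ • y))) S := by
    have hl : ContinuousOn (fun y : E N => z0 + ρ • y) S := by fun_prop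
    exact hFM.comp (c.smoothψ.continuousOn.comp hl hmap) fun y hy => (c.mapsψ _ (hFit y hy)).1
  have i1 : IntegrableOn (fun y => F (c.ψ (z0 + ρ • y))) S volume :=
    hFS.integrableOn_compact hqc
  set b : ℝ := t ^ 2 * (cL * (η + t) + |cD| * cL ^ 2 * t) with hb
  have i2 : IntegrableOn (fun y => t ^ 2 * d.g y - b) S volume :=
    ((continuous_const.mul hgc).sub continuous_const).continuousOn.integrableOn_compact hqc
  have hle : ∀ y ∈ S, t ^ 2 * d.g y - b ≤ F (c.ψ (z0 + ρ • y)) := by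
    intro y hy
    have hM : c.ψ (z0 + ρ • y) ∈ M := (c.mapsψ _ (hFit y hy)).1
    obtain ⟨h1, h2⟩ := hest ⟨_, hM⟩ y hy rfl
    have h3 := hLD (Z ⟨_, hM⟩) (h1.trans htD)
    have h4 := hFx ⟨_, hM⟩
    rw [show F (c.ψ (z0 + ρ • y)) = _ from h4]
    have h5 : cD * ‖Z ⟨c.ψ (z0 + ρ • y), hM⟩‖ ^ 2 ≤ |cD| * cL ^ 2 * t * t ^ 2 := by
      have h6 : ‖Z ⟨c.ψ (z0 + ρ • y), hM⟩‖ ^ 2 ≤ (cL * t ^ 2) ^ 2 :=
        pow_le_pow_left₀ (norm_nonneg _) h1 2
      calc cD * ‖Z ⟨c.ψ (z0 + ρ • y), hM⟩‖ ^ 2 ≤ |cD| * ‖Z ⟨c.ψ (z0 + ρ • y), hM⟩‖ ^ 2 :=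
            mul_le_mul_of_nonneg_right (le_abs_self _) (by positivity)
        _ ≤ |cD| * (cL * t ^ 2) ^ 2 := mul_le_mul_of_nonneg_left h6 (abs_nonneg _)
        _ = (|cD| * cL ^ 2 * t ^ 2) * t ^ 2 := by ring
        _ ≤ (|cD| * cL ^ 2 * t) * t ^ 2 := by
            refine mul_le_mul_of_nonneg_right ?_ (by positivity)
            refine mul_le_mul_of_nonneg_left ?_ (by positivity)
            rw [sq]
            exact mul_le_of_le_one_left ht0.le ht1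
    have h7 := abs_le.1 h2
    have h8 := abs_le.1 h3
    have h9 : b = cL * (η + t) * t ^ 2 + |cD| * cL ^ 2 * t * t ^ 2 := by rw [hb]; ring
    rw [h9]
    linarith [h7.1, h8.1]
  have hmono := setIntegral_mono_on i2 i1 hqc.isClosed.measurableSet hle
  have hvS : volume S ≠ ⊤ := hqc.measure_lt_top.ne
  have e2 : ∫ y in S, (t ^ 2 * d.g y - b) = t ^ 2 * I0 - b * v0 := by
    rw [integral_sub]
    · rw [integral_const_mul, ← hI0, setIntegral_const, smul_eq_mul, measureReal_def, ← hv0]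
      ring
    · exact (continuous_const.mul hgc).continuousOn.integrableOn_compact hqc
    · exact continuousOn_const.integrableOn_compact hqc
  rw [e2] at hmono
  refine lt_of_lt_of_le ?_ hmono
  have h1 : b * v0 ≤ t ^ 2 * (I0 / 2) := by
    rw [hb, mul_assoc]
    exact mul_le_mul_of_nonneg_left hsum (by positivity)
  have h2 : 0 < t ^ 2 * (I0 / 2) := by positivity
  have h3 : t ^ 2 * I0 = t ^ 2 * (I0 / 2) + t ^ 2 * (I0 / 2) := by ring
  linarith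

/-- if all small perturbations have vanishing central exponents then `Lam = 0` -/
theorem lam_zero (hE1 : StmtE1) (hMS : StmtMS) (hT5 : StmtT5) {N K r : ℕ} {M : Set (E K)}
    {m : Measure (E K)} {f f' : E K → E K} {P : Fin 3 → E K → End K} (hSV : SmoothVolume N K M m)
    {ε : ℝ} (hf1 : IsDiffeo 1 M f f') (hfm : Preserves M m f)
    (hcon : ∀ (h h' : E K → E K) (Q : Fin 3 → E K → End K), IsDiffeo ∞ M h h' →
      Preserves M m h → Small r ε M h → Small r ε M h' → PH M (f ∘ h) (h' ∘ f') Q →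
      (∀ x ∈ M, ∀ i, ‖Q i x - P i x‖ ≤ ε) → ∀ᵐ x ∂m, CentralZero M (f ∘ h) (h' ∘ f') Q x)
    {h h' : E K → E K} (hh : IsDiffeo ∞ M h h') (hhm : Preserves M m h) (hs : Small r ε M h)
    (hs' : Small r ε M h') {C : Coc M K} (hC : Rep C (f ∘ h) (h' ∘ f'))
    {Q' : Fin 3 → M → End K} {n : ℕ} (hSpl : Spl C Q') (hDom : Dom C Q' n)
    (hQ : ∀ (x : M) i, ‖Q' i x - P i x‖ ≤ ε) :
    Lam C (Q' 1) (m.comap ((↑) : M → E K)) = 0 := by
  have hg : IsDiffeo 1 M (f ∘ h) (h' ∘ f') := hf1.comp' (hh.of_le' (by exact_mod_cast le_top))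
  obtain ⟨-, -, -, -, hb⟩ := hT5 K M _ _ C hg hC
  obtain ⟨Q, hQQ, hPH⟩ := hb Q' n hSpl hDom
  have hae := hcon h h' Q hh hhm hs hs' hPH fun x hx i => by
    rw [show Q i x = Q i ((⟨x, hx⟩ : M) : E K) from rfl, hQQ]
    exact hQ ⟨x, hx⟩ i
  obtain ⟨hMSd, hfin, hMSp, -, -⟩ := hMS N K M m hSV
  have hfin' : IsFiniteMeasure (m.comap ((↑) : M → E K)) := hfin
  have hpre : Preserves M m (f ∘ h) :=
    (hMSd f f' hf1 hfm).2 h h' (hh.of_le' (by exact_mod_cast le_top)) hhm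
  have hcM : CompactSpace M := isCompact_iff_compactSpace.1 hSV.compact
  exact hE1 M K C (Q' 1) (m.comap ((↑) : M → E K)) (hSpl.sub 1)
    (hMSp (f ∘ h) C.f hpre hC.rf) (cz_ae hMS hT5 hSV hg hC Q Q' hQQ hae)

end Pool.Agent.Helper56.RZ
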