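import Pool.Agent.Helper56.RZ.FinB5

/-!
# Project RZ5: the core
-/

set_option autoImplicit false

open Set Filter Topology MeasureTheory

open scoped ContDiff

namespace Pool.Agent.Helper56.RZ

/-- the homological bound at the scales between `ρ` and `CB ρ` around a point -/
def HBp {N K : ℕ} (M : Set (E K)) (m : Measure (E K)) (f : E K → E K)
    (P : Fin 3 → E K → End K) (c : Chart N K M) (z0 : E N) (r : ℕ) (ε β θ1 : ℝ) : Prop :=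
  ∀ (p : Fin 3 → End N), Proj3 p → ∀ d : Tw N p, IsCompact {s : E N | d.q s ≤ 1} →
  ∀ CB : ℝ, 1 ≤ CB → ∃ l l' A A' t1 ρ1 : ℝ, 0 < l ∧ l < 1 ∧ 0 < l' ∧ l' < 1 ∧ 0 ≤ A ∧ 0 ≤ A' ∧
  0 < t1 ∧ t1 ≤ 1 ∧ 0 < ρ1 ∧ ∀ ρ : ℝ, 0 < ρ → ρ ≤ ρ1 →
  ∀ y ∈ Metric.closedBall z0 (ρ ^ β), ∀ ρ' t κ0 : ℝ, ρ ≤ ρ' → ρ' ≤ CB * ρ →
  0 < t → t ≤ t1 → 0 ≤ κ0 → κ0 ≤ t1 → Small r ε M (hMa c d th2 y ρ' t) →
  Small r ε M (hMa c d th2 y ρ' (-t)) →
  (∀ s, d.q s ≤ 1 → ∀ i,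
    ‖phat c P i (y + ρ' • d.Ha th2 t s) - phat c P i (y + ρ' • s)‖ ≤ κ0) →
  ∀ N0 : ℕ, |∫ s in {s | d.q s ≤ 1}, Fl d (phat c P) ρ' t y s| ≤
    (ρ' ^ N)⁻¹ * (A * ρ ^ θ1 * (κ0 + t) ^ 2 * (4 * ∑ n ∈ Finset.range N0,
      l ^ n * (m {x | x ∈ Bs c d y ρ' ∧ f^[n + 1] x ∈ Bs c d y ρ'}).toReal) +
        A' * (l' ^ N0 * (m (Bs c d y ρ')).toReal))

/-- local near returns at a point -/
def LRp {K : ℕ} (M : Set (E K)) (m : Measure (E K)) (f : E K → E K) (x0 : E K) (N : ℕ)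
    (l β θ2 : ℝ) : Prop := ∀ C2 : ℝ, ∃ C ρ0 : ℝ, 0 ≤ C ∧ 0 < ρ0 ∧ ρ0 ≤ 1 ∧
  ∀ ρ : ℝ, 0 < ρ → ρ ≤ ρ0 → ∀ N0 : ℕ, ∑ n ∈ Finset.range N0,
    l ^ n * (m {x | x ∈ M ∧ ‖x - x0‖ ≤ C2 * ρ ^ β ∧ ‖f^[n + 1] x - x‖ ≤ C2 * ρ}).toReal ≤
      C * ρ ^ θ2 * (ρ ^ β) ^ N

/-- oscillation of the splitting at a point -/
def OSp {K : ℕ} (M : Set (E K)) (P : Fin 3 → E K → End K) (r : ℕ) (x0 : E K) (β θ3 : ℝ) :
    Prop := ∀ CB : ℝ, 1 ≤ CB → ∃ C ρ1 : ℝ, 0 ≤ C ∧ 0 < ρ1 ∧ ρ1 ≤ 1 ∧ ∀ ρ : ℝ, 0 < ρ → ρ ≤ ρ1 →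
  ∀ x ∈ M, ∀ y ∈ M, ‖x - x0‖ ≤ CB * ρ ^ β → ‖y - x0‖ ≤ CB * ρ ^ β → ‖x - y‖ ≤ CB * ρ ^ r →
    ∀ i, ‖P i x - P i y‖ ≤ C * ρ ^ θ3

theorem ev_pow {γ b : ℝ} (hγ : 0 < γ) (hb : 0 < b) : ∀ᶠ ρ : ℝ in 𝓝[>] 0, ρ ^ γ ≤ b := by
  have h1 : Tendsto (fun ρ : ℝ => ρ ^ γ) (𝓝 0) (𝓝 (0 ^ γ)) :=
    (Real.continuousAt_rpow_const _ _ (Or.inr hγ.le)).tendsto
  rw [Real.zero_rpow hγ.ne'] at h1
  exact (h1.mono_left nhdsWithin_le_nhds).eventually (ge_mem_nhds hb)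

theorem ev_le {b : ℝ} (hb : 0 < b) : ∀ᶠ ρ : ℝ in 𝓝[>] 0, 0 < ρ ∧ ρ ≤ b :=
  (Ioc_mem_nhdsGT hb)

theorem pow_ge {ρ x y : ℝ} (h0 : 0 < ρ) (h1 : ρ ≤ 1) (h : x ≤ y) : ρ ^ y ≤ ρ ^ x :=
  Real.rpow_le_rpow_of_exponent_ge h0 h1 h

/-- the core of the fifth theorem -/
theorem core5 (hT1 : StmtT1) (hTL : StmtTL) (hTA : StmtTA) (hTE : StmtTE) (hGA2 : StmtGA2)
    (hAR : StmtAR5) (hSC : StmtSC5) (hAV : StmtAV) (hF1 : StmtF1) (hF4 : StmtF4)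
    {N K r : ℕ} {M : Set (E K)} {m : Measure (E K)} {f f' : E K → E K}
    {P : Fin 3 → E K → End K} (hr : 2 ≤ r)
    (hSV : SmoothVolume N K M m) (hf1 : IsDiffeo 1 M f f')
    (hPH : PH M f f' P) (c : Chart N K M)
    (hvol : ∀ A : Set (E N), MeasurableSet A → A ⊆ c.V → m (c.ψ '' A) = volume A)
    (z0 : E N) (hz0 : z0 ∈ c.V) {ε β θ1 θ2 θ3 : ℝ} (hε : 0 < ε) (hβ0 : 0 < β) (hβ1 : β < 1)
    (hθ12 : 0 < θ1 + θ2) (hθ3 : 0 < θ3) (hθ3r : θ3 ≤ r)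
    (hθ : 2 * (r : ℝ) - 2 < θ1 + θ2 + 2 * θ3)
    (hHB : HBp M m f P c z0 r ε β θ1)
    (hLR : ∀ l, 0 < l → l < 1 → LRp M m f (c.ψ z0) N l β θ2)
    (hOS : OSp M P r (c.ψ z0) β θ3) : False := by
  classical
  obtain ⟨p, hpd⟩ : ∃ p : Fin 3 → End N, p = fun i => phat c P i z0 := ⟨_, rfl⟩
  obtain ⟨hp, hpne⟩ := phat_proj hT1 c hPH hz0
  rw [← hpd] at hp
  have hpne' : ∀ i, p i ≠ 0 := fun i => by rw [hpd]; exact hpne i
  obtain ⟨hTw, hF1a⟩ := hF1 N p hp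
  obtain ⟨d⟩ := hTw hpne'
  obtain ⟨-, -, hqsm, -, -, -, -, cq, hcq1, hcq⟩ := hF1a d
  obtain ⟨-, -, -, hI⟩ := hF4 N p hp d
  have hqc : IsCompact {y : E N | d.q y ≤ 1} := by
    refine (isCompact_closedBall (0 : E N) (Real.sqrt cq)).of_isClosed_subset
      (isClosed_le hqsm.continuous continuous_const) fun y hy => ?_
    rw [mem_closedBall_zero_iff]
    refine Real.le_sqrt_of_sq_le ?_
    have h1 := (hcq y).1
    have hy' : d.q y ≤ 1 := hy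
    have h2 : cq * d.q y ≤ cq * 1 := mul_le_mul_of_nonneg_left hy' (by linarith)
    linarith
  obtain ⟨DD, hDD1, hDs⟩ : ∃ DD : ℝ, 1 ≤ DD ∧ ∀ s, d.q s ≤ 1 → ‖s‖ ≤ DD := by
    refine ⟨max 1 (Real.sqrt cq), le_max_left _ _, fun y hy => le_trans ?_ (le_max_right _ _)⟩
    refine Real.le_sqrt_of_sq_le ?_
    have h1 := (hcq y).1
    have h2 : cq * d.q y ≤ cq * 1 := mul_le_mul_of_nonneg_left hy (by linarith)
    linarith
  have hqm : MeasurableSet {s : E N | d.q s ≤ 1} := hqc.isClosed.measurableSet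
  -- the number of scales
  obtain ⟨mm, hmm1, hmm⟩ : ∃ mm : ℕ, 1 ≤ mm ∧ 2 * (r : ℝ) - 1 ≤ (1 - β) * mm := by
    refine ⟨⌈(2 * (r : ℝ) - 1) / (1 - β)⌉₊ + 1, by omega, ?_⟩
    have h1 := Nat.le_ceil ((2 * (r : ℝ) - 1) / (1 - β))
    rw [div_le_iff₀ (by linarith)] at h1
    push_cast
    nlinarith
  have h2m : (0 : ℝ) < 2 ^ mm := by positivity
  have h2m1 : (1 : ℝ) ≤ 2 ^ mm := one_le_pow₀ (by norm_num)
  obtain ⟨l, l', A, A', t1, ρ1, hl0, hl1, hl0', hl1', hA, hA', ht10, ht11, hρ10, hb⟩ :=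
    hHB p hp d hqc (2 ^ mm) h2m1
  obtain ⟨CA, rA, hCA, hrA, har⟩ := hAR N K M m c p hSV hp d z0 hz0 hvol
  obtain ⟨-, hAng2, -, -⟩ := hTL
  obtain ⟨-, hqH, -, -, -, -, -⟩ := hTA N p hp d th2 hAng2
  obtain ⟨cE, hcE, hTEa⟩ := hTE N p hp d th2 hAng2
  obtain ⟨CF, ρF, rF, hCF, hρF0, hρF1, hrF, hG2⟩ := hGA2 N K r M c p hp d th2 hAng2 z0 hz0
  obtain ⟨a, ha0, ha1, haε⟩ : ∃ a : ℝ, 0 < a ∧ a ≤ 1 ∧ CF * a ≤ ε := by
    refine ⟨min 1 (ε / CF), lt_min one_pos (by positivity), min_le_left _ _, ?_⟩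
    have h1 : min 1 (ε / CF) ≤ ε / CF := min_le_right _ _
    rw [le_div_iff₀ (by linarith)] at h1
    linarith
  obtain ⟨av, η, hη, hav⟩ := hAV N p hp d mm hmm1
  obtain ⟨CL, qL, hCL1, hqL, hlip⟩ := phat_lip c hPH.cont hz0
  -- the ball
  obtain ⟨Rb, hRb0, hRbV, hRbη, hRbq⟩ : ∃ Rb : ℝ, 0 < Rb ∧ Metric.closedBall z0 Rb ⊆ c.V ∧
      (∀ z ∈ Metric.closedBall z0 Rb, ∀ i, ‖phat c P i z - p i‖ ≤ η) ∧ Rb ≤ qL := by
    have h1 : ∀ i, ∀ᶠ z in 𝓝 z0, ‖phat c P i z - p i‖ ≤ η := by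
      intro i
      have h2 : ContinuousAt (phat c P i) z0 :=
        (phat_cont c hPH.cont i).continuousAt (c.openV.mem_nhds hz0)
      have h3 : Tendsto (fun z => ‖phat c P i z - p i‖) (𝓝 z0) (𝓝 0) := by
        have h4 := (h2.tendsto.sub_const (phat c P i z0)).norm
        rw [sub_self, norm_zero] at h4
        rw [hpd]
        exact h4
      exact (h3.eventually (gt_mem_nhds hη)).mono fun z hz => hz.le
    have h2 : ∀ᶠ z in 𝓝 z0, z ∈ c.V ∧ ∀ i, ‖phat c P i z - p i‖ ≤ η :=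
      (show ∀ᶠ z in 𝓝 z0, z ∈ c.V from c.openV.mem_nhds hz0).and (eventually_all.2 h1)
    obtain ⟨R, hR, hRs⟩ := Metric.nhds_basis_closedBall.mem_iff.1 h2
    refine ⟨min R qL, lt_min hR hqL, fun z hz => (hRs ?_).1, fun z hz => (hRs ?_).2,
      min_le_right _ _⟩ <;>
    exact Metric.closedBall_subset_closedBall (min_le_left _ _) hz
  -- the bump function
  obtain ⟨χ, hχsm, hχc, hχ0, hχ1, hχs, hχI⟩ := bump (0 : E N) 1 one_pos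
  obtain ⟨CV, δV, hδV, hav2⟩ := hav χ hχsm hχc hχ0
  -- returns and oscillation
  obtain ⟨CR, ρR, hCR, hρR0, hρR1, hret⟩ := hLR l hl0 hl1 (CA * 2 ^ mm)
  obtain ⟨CO, hCO⟩ : ∃ CO : ℝ, CO = CL * (2 * DD) + CL * cE := ⟨_, rfl⟩
  have hCL0 : 0 ≤ CL := by linarith
  have hCO1 : 1 ≤ CO := by
    rw [hCO]
    nlinarith
  have hCOa : CL * (2 * DD) ≤ CO := by
    rw [hCO]
    nlinarith
  have hCOb : CL * cE ≤ CO := by
    rw [hCO]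
    nlinarith
  obtain ⟨C3, ρO, hC3, hρO0, hρO1, hosc⟩ := hOS CO hCO1
  obtain ⟨Cκ, hCκ⟩ : ∃ Cκ : ℝ, Cκ = CL * (C3 + cE) := ⟨_, rfl⟩
  have hCκ0 : 0 ≤ Cκ := by rw [hCκ]; positivity
  -- constants
  obtain ⟨I0, hI0⟩ : ∃ I0 : ℝ, I0 = ∫ z in {z | d.q z ≤ 1}, d.g z := ⟨_, rfl⟩
  obtain ⟨X0, hX0⟩ : ∃ X0 : ℝ, X0 = ∫ y, χ y := ⟨_, rfl⟩
  rw [← hI0] at hI
  rw [← hX0] at hχI
  obtain ⟨SS, hSS⟩ : ∃ SS : ℝ, SS = ∑ i ∈ Finset.range (mm + 1), |av i| := ⟨_, rfl⟩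
  have hSS0 : 0 ≤ SS := by
    rw [hSS]
    exact Finset.sum_nonneg fun i _ => abs_nonneg _
  obtain ⟨Y, hY⟩ : ∃ Y : ℝ, Y = X0 * I0 := ⟨_, rfl⟩
  have hY0 : 0 < Y := by rw [hY]; positivity
  obtain ⟨γ, hγ⟩ : ∃ γ : ℝ, γ = min (min (θ1 + θ2) (θ1 + θ2 + 2 * θ3 - (2 * r - 2)))
    (min (1 - β) 1) := ⟨_, rfl⟩
  have hγ0 : 0 < γ := by
    rw [hγ]
    exact lt_min (lt_min hθ12 (by linarith)) (lt_min (by linarith) one_pos)
  have hγ1 : γ ≤ θ1 + θ2 := by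
    rw [hγ]; exact (min_le_left _ _).trans (min_le_left _ _)
  have hγ2 : γ ≤ θ1 + θ2 + 2 * θ3 - (2 * r - 2) := by
    rw [hγ]; exact (min_le_left _ _).trans (min_le_right _ _)
  have hγ3 : γ ≤ 1 - β := by
    rw [hγ]; exact (min_le_right _ _).trans (min_le_left _ _)
  have hγ4 : γ ≤ 1 := by
    rw [hγ]; exact (min_le_right _ _).trans (min_le_right _ _)
  obtain ⟨B1, hB1⟩ : ∃ B1 : ℝ, B1 = A * CA * (4 * CR) * (2 * Cκ ^ 2 / a ^ 2 + 2) := ⟨_, rfl⟩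
  have hB10 : 0 ≤ B1 := by rw [hB1]; positivity
  obtain ⟨G, hG⟩ : ∃ G : ℝ, G = |CV| * (1 / a ^ 2 + 2) + SS * B1 := ⟨_, rfl⟩
  have hG0 : 0 ≤ G := by rw [hG]; positivity
  -- choice of the scale
  have ev := (ev_le (show 0 < min (min (min ρ1 ρR) (min ρO t1)) (min δV
      (min (ρF / 2 ^ mm) (Rb / (2 * DD * 2 ^ mm)))) from
      lt_min (lt_min (lt_min hρ10 hρR0) (lt_min hρO0 ht10)) (lt_min hδV
        (lt_min (by positivity) (by positivity))))).and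
    ((ev_pow (γ := 1 - β) (by linarith) (show 0 < min (1 / 2 ^ mm) δV from
      lt_min (by positivity) hδV)).and
    ((ev_pow hβ0 (show 0 < min (min rA rF) (Rb / (2 * DD)) from
      lt_min (lt_min hrA hrF) (by positivity))).and
    ((ev_pow hθ3 (show 0 < t1 / (Cκ + 1) by positivity)).and
    (ev_pow hγ0 (show 0 < Y / (4 * (G + 1)) by positivity)))))
  obtain ⟨ρ, ⟨hρ0, hρm⟩, hρn, hρβ, hρθ, hργ⟩ := ev.exists
  have c1 : ρ ≤ ρ1 := hρm.trans ((min_le_left _ _).trans ((min_le_left _ _).trans (min_le_left _ _)))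
  have c2 : ρ ≤ ρR := hρm.trans ((min_le_left _ _).trans ((min_le_left _ _).trans (min_le_right _ _)))
  have c3 : ρ ≤ ρO := hρm.trans ((min_le_left _ _).trans ((min_le_right _ _).trans (min_le_left _ _)))
  have c4 : ρ ≤ t1 := hρm.trans ((min_le_left _ _).trans ((min_le_right _ _).trans (min_le_right _ _)))
  have c5 : ρ ≤ δV := hρm.trans ((min_le_right _ _).trans (min_le_left _ _))
  have c6 : ρ ≤ ρF / 2 ^ mm :=
    hρm.trans ((min_le_right _ _).trans ((min_le_right _ _).trans (min_le_left _ _)))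
  have c7 : ρ ≤ Rb / (2 * DD * 2 ^ mm) :=
    hρm.trans ((min_le_right _ _).trans ((min_le_right _ _).trans (min_le_right _ _)))
  rw [le_div_iff₀ h2m] at c6
  rw [le_div_iff₀ (by positivity)] at c7
  have hρ11 : ρ ≤ 1 := c4.trans ht11
  obtain ⟨R, hR⟩ : ∃ R : ℝ, R = ρ ^ β := ⟨_, rfl⟩
  have hR0 : 0 < R := by rw [hR]; positivity
  rw [← hR] at hρβ
  have d1 : R ≤ rA := hρβ.trans ((min_le_left _ _).trans (min_le_left _ _))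
  have d2 : R ≤ rF := hρβ.trans ((min_le_left _ _).trans (min_le_right _ _))
  have d3 : R * (2 * DD) ≤ Rb := by
    have h1 := hρβ.trans (min_le_right _ _)
    rwa [le_div_iff₀ (by positivity)] at h1
  have d4 : R ≤ Rb / 2 := by nlinarith
  obtain ⟨ρ', hρ'⟩ : ∃ ρ' : ℝ, ρ' = ρ ^ (1 - β) := ⟨_, rfl⟩
  rw [← hρ'] at hρn
  have hρ'0 : 0 < ρ' := by rw [hρ']; positivity
  have hRρ' : R * ρ' = ρ := by
    rw [hR, hρ', ← Real.rpow_add hρ0]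
    have : β + (1 - β) = 1 := by ring
    rw [this, Real.rpow_one]
  have hρ'm : 2 ^ mm * ρ' ≤ 1 := by
    have h1 := hρn.trans (min_le_left _ _)
    rw [le_div_iff₀ h2m] at h1
    linarith
  have hρ'δ : ρ' ≤ δV := hρn.trans (min_le_right _ _)
  have hρR' : 2 ^ mm * ρ ≤ R := by
    calc 2 ^ mm * ρ = R * (2 ^ mm * ρ') := by rw [← hRρ']; ring
      _ ≤ R * 1 := mul_le_mul_of_nonneg_left hρ'm hR0.le
      _ = R := mul_one R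
  obtain ⟨t, ht⟩ : ∃ t : ℝ, t = a * ρ ^ (r - 1) := ⟨_, rfl⟩
  obtain ⟨ht0, htρ⟩ := amp (a := a) (r := r) hρ0 hρ11 hr ha0 ha1
  rw [← ht] at ht0 htρ
  obtain ⟨κ0, hκ0⟩ : ∃ κ0 : ℝ, κ0 = Cκ * ρ ^ θ3 := ⟨_, rfl⟩
  have hκ00 : 0 ≤ κ0 := by rw [hκ0]; positivity
  have hκ01 : κ0 ≤ t1 := by
    rw [le_div_iff₀ (by positivity)] at hρθ
    rw [hκ0]
    have : 0 ≤ ρ ^ θ3 := by positivity
    nlinarith
  -- the scales
  have hscale : ∀ i ≤ mm, 0 < 2 ^ i * ρ ∧ 2 ^ i * ρ ≤ 2 ^ mm * ρ ∧ ρ ≤ 2 ^ i * ρ := by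
    intro i hi
    have h1 : (2 : ℝ) ^ i ≤ 2 ^ mm := pow_le_pow_right₀ (by norm_num) hi
    have h2 : (1 : ℝ) ≤ 2 ^ i := one_le_pow₀ (by norm_num)
    exact ⟨by positivity, mul_le_mul_of_nonneg_right h1 hρ0.le,
      le_mul_of_one_le_left hρ0.le h2⟩
  -- the rescaled bump function
  obtain ⟨χR, hχR⟩ : ∃ χR : E N → ℝ, χR = fun y => χ (R⁻¹ • (y - z0)) := ⟨_, rfl⟩
  have hχRc : Continuous χR := by
    rw [hχR]
    exact hχsm.continuous.comp (by fun_prop)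
  have hχRs : ∀ y, y ∉ Metric.closedBall z0 R → χR y = 0 := by
    intro y hy
    rw [hχR]
    refine hχs _ fun h => hy ?_
    rw [mem_closedBall_zero_iff, norm_smul, norm_inv, Real.norm_of_nonneg hR0.le,
      inv_mul_le_iff₀ hR0, mul_one] at h
    rw [Metric.mem_closedBall, dist_eq_norm]
    exact h
  have hχRs' : ∀ y, χR y ≠ 0 → y ∈ Metric.closedBall z0 R := fun y hy => by
    by_contra h
    exact hy (hχRs y h)
  have hχR0 : ∀ y, 0 ≤ χR y := fun y => by rw [hχR]; exact hχ0 _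
  have hχR1 : ∀ y, χR y ≤ 1 := fun y => by rw [hχR]; exact hχ1 _
  -- the oscillation in the chart
  have hz0b : z0 ∈ Metric.closedBall z0 qL := Metric.mem_closedBall_self hqL.le
  have hosc2 : ∀ z ∈ Metric.closedBall z0 (2 * DD * R), ∀ z' ∈ Metric.closedBall z0 (2 * DD * R),
      ‖z' - z‖ ≤ cE * (ρ * t) → ∀ i, ‖phat c P i z' - phat c P i z‖ ≤ κ0 := by
    intro z hz z' hz' hzz i
    have hsub : Metric.closedBall z0 (2 * DD * R) ⊆ Metric.closedBall z0 qL :=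
      Metric.closedBall_subset_closedBall (by linarith)
    have hsubV : Metric.closedBall z0 (2 * DD * R) ⊆ c.V :=
      (Metric.closedBall_subset_closedBall (by linarith)).trans hRbV
    have hρt : ρ * t ≤ ρ ^ r := by
      obtain ⟨s, hs⟩ : ∃ s : ℕ, r = s + 1 := ⟨r - 1, by omega⟩
      have hs' : r - 1 = s := by omega
      rw [ht, hs', hs, pow_succ']
      have h1 : a * ρ ^ s ≤ 1 * ρ ^ s := mul_le_mul_of_nonneg_right ha1 (by positivity)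
      rw [one_mul] at h1
      exact mul_le_mul_of_nonneg_left h1 hρ0.le
    have hzz2 : ‖z' - z‖ ≤ cE * ρ ^ r := hzz.trans (mul_le_mul_of_nonneg_left hρt (by linarith))
    have hM : ∀ w ∈ Metric.closedBall z0 (2 * DD * R), c.ψ w ∈ M := fun w hw =>
      (c.mapsψ w (hsubV hw)).1
    have hdist : ∀ w ∈ Metric.closedBall z0 (2 * DD * R), ‖c.ψ w - c.ψ z0‖ ≤ CO * ρ ^ β := by
      intro w hw
      refine ((hlip w (hsub hw) z0 hz0b).1).trans ?_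
      rw [Metric.mem_closedBall, dist_eq_norm] at hw
      rw [← hR]
      calc CL * ‖w - z0‖ ≤ CL * (2 * DD * R) := mul_le_mul_of_nonneg_left hw hCL0
        _ = (CL * (2 * DD)) * R := by ring
        _ ≤ CO * R := mul_le_mul_of_nonneg_right hCOa hR0.le
    obtain ⟨l1, l2⟩ := hlip z' (hsub hz') z (hsub hz)
    have hdist2 : ‖c.ψ z' - c.ψ z‖ ≤ CO * ρ ^ r := by
      refine l1.trans ?_
      calc CL * ‖z' - z‖ ≤ CL * (cE * ρ ^ r) := mul_le_mul_of_nonneg_left hzz2 hCL0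
        _ = (CL * cE) * ρ ^ r := by ring
        _ ≤ CO * ρ ^ r := mul_le_mul_of_nonneg_right hCOb (by positivity)
    have h1 := hosc ρ hρ0 c3 _ (hM z' hz') _ (hM z hz) (hdist z' hz') (hdist z hz) hdist2 i
    refine (l2 i).trans ?_
    have h2 : ρ ^ r ≤ ρ ^ θ3 := by
      rw [← Real.rpow_natCast]
      exact pow_ge hρ0 hρ11 hθ3r
    rw [hκ0, hCκ]
    calc CL * (‖P i (c.ψ z') - P i (c.ψ z)‖ + ‖z' - z‖)
        ≤ CL * (C3 * ρ ^ θ3 + cE * ρ ^ θ3) := by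
          refine mul_le_mul_of_nonneg_left (add_le_add h1 (hzz2.trans ?_)) hCL0
          exact mul_le_mul_of_nonneg_left h2 (by linarith)
      _ = CL * (C3 + cE) * ρ ^ θ3 := by ring
  -- the inequality for the average
  have hph1 : ∀ z, Proj3 (fun i => phat c P i (rt z0 Rb (z0 + R • z))) := fun z =>
    (phat_proj hT1 c hPH (hRbV (rt_mem z0 hRb0 _))).1
  have hph2 : ∀ i, Continuous (fun z => phat c P i (rt z0 Rb (z0 + R • z))) := fun i =>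
    (phat_cont c hPH.cont i).comp_continuous ((rt_cont z0 Rb).comp (by fun_prop))
      fun z => hRbV (rt_mem z0 hRb0 _)
  have hph3 : ∀ i z, ‖phat c P i (rt z0 Rb (z0 + R • z)) - p i‖ ≤ η := fun i z =>
    hRbη _ (rt_mem z0 hRb0 _) i
  have key := hav2 (fun i z => phat c P i (rt z0 Rb (z0 + R • z))) hph1 hph2 hph3 ρ' t hρ'0
    hρ'δ ht0 (htρ.trans c5)
  have hsq : (κ0 + t) ^ 2 ≤ 2 * κ0 ^ 2 + 2 * t ^ 2 := by nlinarith [sq_nonneg (κ0 - t)]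
  have ht2 : ρ ^ (2 * (r : ℝ) - 2) = t ^ 2 / a ^ 2 := by
    have h1 : ρ ^ (2 * (r : ℝ) - 2) = (ρ ^ (r - 1)) ^ 2 := by
      rw [← pow_mul, ← Real.rpow_natCast]
      congr 1
      have : 1 ≤ r := by omega
      push_cast [Nat.cast_sub this]
      ring
    rw [h1, ht, mul_pow]
    field_simp
  have hmain : ρ ^ (θ1 + θ2) * (κ0 + t) ^ 2 ≤ (2 * Cκ ^ 2 / a ^ 2 + 2) * ρ ^ γ * t ^ 2 := by
    have h1 : ρ ^ (θ1 + θ2) * κ0 ^ 2 ≤ Cκ ^ 2 / a ^ 2 * ρ ^ γ * t ^ 2 := by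
      have e1 : ρ ^ (θ1 + θ2) * κ0 ^ 2 = Cκ ^ 2 * ρ ^ (θ1 + θ2 + 2 * θ3) := by
        have e2 : (ρ ^ θ3) ^ 2 = ρ ^ (2 * θ3) := by
          rw [← Real.rpow_natCast, ← Real.rpow_mul hρ0.le]
          congr 1
          push_cast
          ring
        rw [hκ0, mul_pow, e2, Real.rpow_add hρ0 (θ1 + θ2)]
        ring
      have e3 : ρ ^ (θ1 + θ2 + 2 * θ3) ≤ ρ ^ γ * (t ^ 2 / a ^ 2) := by
        rw [← ht2, ← Real.rpow_add hρ0]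
        exact pow_ge hρ0 hρ11 (by linarith)
      rw [e1]
      calc Cκ ^ 2 * ρ ^ (θ1 + θ2 + 2 * θ3) ≤ Cκ ^ 2 * (ρ ^ γ * (t ^ 2 / a ^ 2)) :=
            mul_le_mul_of_nonneg_left e3 (by positivity)
        _ = Cκ ^ 2 / a ^ 2 * ρ ^ γ * t ^ 2 := by ring
    have h2 : ρ ^ (θ1 + θ2) * t ^ 2 ≤ ρ ^ γ * t ^ 2 :=
      mul_le_mul_of_nonneg_right (pow_ge hρ0 hρ11 hγ1) (by positivity)
    have h3 : 0 ≤ ρ ^ (θ1 + θ2) := by positivity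
    calc ρ ^ (θ1 + θ2) * (κ0 + t) ^ 2 ≤ ρ ^ (θ1 + θ2) * (2 * κ0 ^ 2 + 2 * t ^ 2) :=
          mul_le_mul_of_nonneg_left hsq h3
      _ = 2 * (ρ ^ (θ1 + θ2) * κ0 ^ 2) + 2 * (ρ ^ (θ1 + θ2) * t ^ 2) := by ring
      _ ≤ 2 * (Cκ ^ 2 / a ^ 2 * ρ ^ γ * t ^ 2) + 2 * (ρ ^ γ * t ^ 2) := by linarith
      _ = (2 * Cκ ^ 2 / a ^ 2 + 2) * ρ ^ γ * t ^ 2 := by ring
  have hsc : ∀ i ∈ Finset.range (mm + 1),
      av i * FF χ d (fun i z => phat c P i (rt z0 Rb (z0 + R • z))) (2 ^ i * ρ') (t / 2 ^ i) ≤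
        |av i| * (B1 * ρ ^ γ * t ^ 2) := by
    intro i hi
    obtain ⟨s1, s2, s3⟩ := hscale i (by rw [Finset.mem_range] at hi; omega)
    have h2i : (1 : ℝ) ≤ 2 ^ i := one_le_pow₀ (by norm_num)
    have hti0 : 0 < t / 2 ^ i := by positivity
    have hti : t / 2 ^ i ≤ t := div_le_self ht0.le h2i
    have hti2 : t / 2 ^ i ≤ a * (2 ^ i * ρ) ^ (r - 1) := by
      refine hti.trans ?_
      rw [ht]
      exact mul_le_mul_of_nonneg_left (pow_le_pow_left₀ hρ0.le s3 _) ha0.le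
    have hmul : 2 ^ i * ρ * (t / 2 ^ i) = ρ * t := by field_simp
    have hiR : 2 ^ i * ρ ≤ R := s2.trans hρR'
    have hret' : ∀ N0 : ℕ, ∑ n ∈ Finset.range N0, l ^ n *
        (m {x | x ∈ M ∧ ‖x - c.ψ z0‖ ≤ CA * R ∧ ‖f^[n + 1] x - x‖ ≤ CA * (2 ^ i * ρ)}).toReal ≤
        CR * ρ ^ θ2 * R ^ N := by
      intro N0
      rw [hR]
      refine le_trans (Finset.sum_le_sum fun n _ => ?_) (hret ρ hρ0 c2 N0)
      refine mul_le_mul_of_nonneg_left (ENNReal.toReal_mono ?_ (measure_mono ?_)) (by positivity)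
      · exact ne_top_of_le_ne_top hSV.finite (measure_mono (subset_univ _))
      · rintro x ⟨x1, x2, x3⟩
        refine ⟨x1, x2.trans ?_, x3.trans ?_⟩
        · refine mul_le_mul_of_nonneg_right ?_ (by positivity)
          exact le_mul_of_one_le_right (by linarith) h2m1
        · rw [mul_assoc]
          exact mul_le_mul_of_nonneg_left s2 (by linarith)
    have h1 := scale5 (f' := f') (P := P) (κ0 := κ0) (t := t / 2 ^ i) (ε := ε) (a := a) (cE := cE)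
      (DD := DD) (Rb := Rb) (rF := rF) (r := r) (A1 := A * ρ ^ θ1 * (κ0 + t / 2 ^ i) ^ 2)
      (A2 := A') hf1 hl0 hl0' hl1' (by positivity) hA'
      (fun y hy q1 q2 q3 N0 => hb ρ hρ0 c1 y (by rw [← hR]; exact hy) (2 ^ i * ρ) (t / 2 ^ i) κ0
        s3 s2 hti0 ((hti.trans htρ).trans c4) hκ00 hκ01 q1 q2 q3 N0) hCA hχR0 hχRs'
      (har R hR0 d1 χR hχRc hχR0 hχR1 hχRs (2 ^ i * ρ) s1 hiR) hret' hCF ha0 ha1 hr haε
      (fun y hy t ht => hG2 y hy (2 ^ i * ρ) t s1 (s2.trans (by linarith)) ht)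
      (fun t z ht => (hTEa t z ht).1) hqH hqm hDs hDD1 hRb0 d2 d4 s1
      (s2.trans (by linarith)) hiR
      (by
        have h3 : 2 ^ i * ρ * DD ≤ 2 ^ mm * ρ * DD := mul_le_mul_of_nonneg_right s2 (by linarith)
        linarith) hti0 hti2
      (fun z hz z' hz' hzz => hosc2 z hz z' hz' (by rw [← hmul]; exact hzz))
    have h2 := hSC N p d χ (fun i z => phat c P i (rt z0 Rb z)) z0 R (2 ^ i * ρ') (t / 2 ^ i) hR0
    have h3 : R * (2 ^ i * ρ') = 2 ^ i * ρ := by rw [← hRρ']; ring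
    rw [h3, ← hχR] at h2
    rw [h2, abs_mul, abs_of_pos (pow_pos hR0 N)] at h1
    have h4 : R ^ N * |FF χ d (fun i z => phat c P i (rt z0 Rb (z0 + R • z))) (2 ^ i * ρ')
        (t / 2 ^ i)| ≤ R ^ N * (A * CA * (4 * CR) * (ρ ^ (θ1 + θ2) * (κ0 + t / 2 ^ i) ^ 2)) := by
      refine h1.trans (le_of_eq ?_)
      rw [Real.rpow_add hρ0]
      ring
    have h5 := le_of_mul_le_mul_left h4 (pow_pos hR0 N)
    have h6 : (κ0 + t / 2 ^ i) ^ 2 ≤ (κ0 + t) ^ 2 := pow_le_pow_left₀ (by positivity)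
      (by linarith) 2
    have hpos : 0 ≤ A * CA * (4 * CR) := by positivity
    have h7 : |FF χ d (fun i z => phat c P i (rt z0 Rb (z0 + R • z))) (2 ^ i * ρ')
        (t / 2 ^ i)| ≤ B1 * ρ ^ γ * t ^ 2 := by
      refine h5.trans ?_
      calc A * CA * (4 * CR) * (ρ ^ (θ1 + θ2) * (κ0 + t / 2 ^ i) ^ 2)
          ≤ A * CA * (4 * CR) * (ρ ^ (θ1 + θ2) * (κ0 + t) ^ 2) :=
            mul_le_mul_of_nonneg_left (mul_le_mul_of_nonneg_left h6 (by positivity)) hpos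
        _ ≤ A * CA * (4 * CR) * ((2 * Cκ ^ 2 / a ^ 2 + 2) * ρ ^ γ * t ^ 2) :=
            mul_le_mul_of_nonneg_left hmain hpos
        _ = B1 * ρ ^ γ * t ^ 2 := by rw [hB1]; ring
    calc av i * FF χ d (fun i z => phat c P i (rt z0 Rb (z0 + R • z))) (2 ^ i * ρ') (t / 2 ^ i)
        ≤ |av i| * |FF χ d (fun i z => phat c P i (rt z0 Rb (z0 + R • z))) (2 ^ i * ρ')
          (t / 2 ^ i)| := by
          rw [← abs_mul]
          exact le_abs_self _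
      _ ≤ |av i| * (B1 * ρ ^ γ * t ^ 2) := mul_le_mul_of_nonneg_left h7 (abs_nonneg _)
  have hsum := Finset.sum_le_sum hsc
  rw [← Finset.sum_mul, ← hSS] at hsum
  rw [← hX0, ← hI0, ← hY] at key
  -- the error terms
  have e1 : ρ' ^ mm ≤ 1 / a ^ 2 * ρ ^ γ * t ^ 2 := by
    have h1 : ρ' ^ mm = ρ ^ ((1 - β) * mm) := by
      rw [hρ', ← Real.rpow_natCast, ← Real.rpow_mul hρ0.le]
    have h2 : ρ ^ ((1 - β) * mm) ≤ ρ ^ (γ + (2 * r - 2)) :=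
      pow_ge hρ0 hρ11 (by linarith)
    rw [h1]
    refine h2.trans (le_of_eq ?_)
    rw [Real.rpow_add hρ0, ht2]
    ring
  have e2 : ρ' * t ^ 2 ≤ ρ ^ γ * t ^ 2 := by
    rw [hρ']
    exact mul_le_mul_of_nonneg_right (pow_ge hρ0 hρ11 hγ3) (by positivity)
  have e3 : t ^ 3 ≤ ρ ^ γ * t ^ 2 := by
    have h1 : t ≤ ρ ^ γ := by
      refine htρ.trans ?_
      have := pow_ge hρ0 hρ11 hγ4
      rwa [Real.rpow_one] at this
    rw [pow_succ' t 2]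
    exact mul_le_mul_of_nonneg_right h1 (by positivity)
  have e4 : CV * (ρ' ^ mm + ρ' * t ^ 2 + t ^ 3) ≤ |CV| * (1 / a ^ 2 + 2) * ρ ^ γ * t ^ 2 := by
    have h0 : 0 ≤ ρ' ^ mm + ρ' * t ^ 2 + t ^ 3 := by positivity
    calc CV * (ρ' ^ mm + ρ' * t ^ 2 + t ^ 3) ≤ |CV| * (ρ' ^ mm + ρ' * t ^ 2 + t ^ 3) :=
          mul_le_mul_of_nonneg_right (le_abs_self _) h0
      _ ≤ |CV| * (1 / a ^ 2 * ρ ^ γ * t ^ 2 + ρ ^ γ * t ^ 2 + ρ ^ γ * t ^ 2) :=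
          mul_le_mul_of_nonneg_left (by linarith) (abs_nonneg _)
      _ = |CV| * (1 / a ^ 2 + 2) * ρ ^ γ * t ^ 2 := by ring
  have e5 : t ^ 2 * Y / 2 ≤ G * ρ ^ γ * t ^ 2 := by
    have h1 := key.trans hsum
    have h2 : G * ρ ^ γ * t ^ 2 = |CV| * (1 / a ^ 2 + 2) * ρ ^ γ * t ^ 2 +
        SS * (B1 * ρ ^ γ * t ^ 2) := by rw [hG]; ring
    rw [h2]
    linarith
  have e6 : G * ρ ^ γ ≤ Y / 4 := by
    rw [le_div_iff₀ (by positivity)] at hργ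
    have h1 : 0 ≤ ρ ^ γ := by positivity
    nlinarith
  have e7 : G * ρ ^ γ * t ^ 2 ≤ Y / 4 * t ^ 2 := mul_le_mul_of_nonneg_right e6 (by positivity)
  have e8 : 0 < Y * t ^ 2 := by positivity
  linarith

end Pool.Agent.Helper56.RZ
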