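import Pool.Agent.Helper56.RZ.FinC
import Pool.Agent.Helper50.RZ.E1

/-!
# Project RZ: the integral of the logarithm of the central Jacobian
-/

set_option autoImplicit false

open Set Filter Topology MeasureTheory

open scoped ContDiff

namespace Pool.Agent.Helper56.RZ

/-- the integral of the logarithm of the volume distortion of `Dg` on the central bundle -/
noncomputable def CInt {K : ℕ} (M : Set (E K)) (m : Measure (E K)) (g : E K → E K)
    (Q : Fin 3 → E K → End K) : ℝ := ∫ x, Real.log (Jac (der M g x) (Q 1 x)) ∂m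

/-- the main theorem for perturbations `f ∘ h`, in terms of the central Jacobian -/
def StmtMainJ : Prop := ∀ (N K r : ℕ) (α : ℝ) (M : Set (E K)) (m : Measure (E K))
  (f f' : E K → E K) (P : Fin 3 → E K → End K), 2 ≤ r → α ≤ 1 → 1 - 1 / (r : ℝ) < α →
  SmoothVolume N K M m → IsDiffeo r M f f' → Preserves M m f → PH M f f' P →
  HolderSomewhere M P α → ∀ ε > 0, ∃ (h h' : E K → E K) (Q : Fin 3 → E K → End K),
    IsDiffeo ∞ M h h' ∧ Preserves M m h ∧ Small r ε M h ∧ Small r ε M h' ∧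
    PH M (f ∘ h) (h' ∘ f') Q ∧ (∀ x ∈ M, ∀ i, ‖Q i x - P i x‖ ≤ ε) ∧
    CInt M m (f ∘ h) Q ≠ 0

/-- the final statement -/
def StmtFinal : Prop := ∀ (N K r : ℕ) (s : WithTop ℕ∞) (α : ℝ) (M : Set (E K))
  (m : Measure (E K)) (f f' : E K → E K) (P : Fin 3 → E K → End K), 2 ≤ r →
  (r : WithTop ℕ∞) ≤ s → s ≤ ∞ → α ≤ 1 → 1 - 1 / (r : ℝ) < α →
  SmoothVolume N K M m → IsDiffeo s M f f' → Preserves M m f → PH M f f' P →
  HolderSomewhere M P α →
  ∀ (ι : Type) [Finite ι] (c : ι → Chart N K M) (L : ι → Set (E N)),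
  (∀ i, IsCompact (L i) ∧ L i ⊆ (c i).V) → ∀ ε > 0,
  ∃ (g g' : E K → E K) (Q : Fin 3 → E K → End K),
    IsDiffeo s M g g' ∧ Preserves M m g ∧ CrClose r ε c L f g ∧
    PH M g g' Q ∧ (∀ x ∈ M, ∀ i, ‖Q i x - P i x‖ ≤ ε) ∧
    CInt M m g Q ≠ 0 ∧ ¬ ∀ᵐ x ∂m, CentralZero M g g' Q x

theorem cint_eq (hMS : StmtMS) {N K : ℕ} {M : Set (E K)} {m : Measure (E K)} {g g' : E K → E K}
    {C : Coc M K} (hSV : SmoothVolume N K M m) (hC : Rep C g g') (Q : Fin 3 → E K → End K)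
    (Q' : M → End K) (hQ : ∀ x : M, Q 1 x = Q' x) :
    Lam C Q' (m.comap ((↑) : M → E K)) = CInt M m g Q := by
  obtain ⟨-, -, -, hMSi, -⟩ := hMS N K M m hSV
  rw [CInt, ← hMSi (fun x => Real.log (Jac (der M g x) (Q 1 x))), Lam]
  refine integral_congr_ae (Eventually.of_forall fun x => ?_)
  simp only [hC.rA, hQ]

theorem lam_inv (h1 : StmtJ1) (h2 : StmtJ2) (h3 : StmtJ3) {X : Type} [MetricSpace X]
    [CompactSpace X] [MeasurableSpace X] [BorelSpace X] {K : ℕ} (C : Coc X K) (P : X → End K)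
    (m : Measure X) (hP : Sub C P) (hm : MeasurePreserving C.f m m) :
    Lam C.inv P m = - Lam C P m := by
  have hc : Continuous (fun x => Real.log (Jac (C.B x) (P x))) :=
    h3 X K C.B P C.contB hP.cont hP.PP
      (fun x v hv => Pool.Agent.Helper50.RZ.inj1 C.inv P
        (Pool.Agent.Helper50.RZ.sub_inv C P hP) x v hv)
  have h7 : ∫ x, Real.log (Jac (C.B (C.f x)) (P (C.f x))) ∂m =
      ∫ x, Real.log (Jac (C.B x) (P x)) ∂m := by
    conv_rhs => rw [← hm.map_eq]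
    exact (integral_map hm.measurable.aemeasurable hc.aestronglyMeasurable).symm
  change ∫ x, Real.log (Jac (C.B x) (P x)) ∂m = - ∫ x, Real.log (Jac (C.A x) (P x)) ∂m
  rw [← h7, ← integral_neg]
  exact integral_congr_ae (ae_of_all _ fun x => Pool.Agent.Helper50.RZ.Jac_inv h1 h2 C P hP x)

/-- if all small perturbations have vanishing central integral then `Lam = 0` -/
theorem lam_zeroJ (hMS : StmtMS) (hT5 : StmtT5) {N K r : ℕ} {M : Set (E K)}
    {m : Measure (E K)} {f f' : E K → E K} {P : Fin 3 → E K → End K} (hSV : SmoothVolume N K M m)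
    {ε : ℝ} (hf1 : IsDiffeo 1 M f f')
    (hcon : ∀ (h h' : E K → E K) (Q : Fin 3 → E K → End K), IsDiffeo ∞ M h h' →
      Preserves M m h → Small r ε M h → Small r ε M h' → PH M (f ∘ h) (h' ∘ f') Q →
      (∀ x ∈ M, ∀ i, ‖Q i x - P i x‖ ≤ ε) → CInt M m (f ∘ h) Q = 0)
    {h h' : E K → E K} (hh : IsDiffeo ∞ M h h') (hhm : Preserves M m h) (hs : Small r ε M h)
    (hs' : Small r ε M h') {C : Coc M K} (hC : Rep C (f ∘ h) (h' ∘ f'))
    {Q' : Fin 3 → M → End K} {n : ℕ} (hSpl : Spl C Q') (hDom : Dom C Q' n)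
    (hQ : ∀ (x : M) i, ‖Q' i x - P i x‖ ≤ ε) :
    Lam C (Q' 1) (m.comap ((↑) : M → E K)) = 0 := by
  have hg : IsDiffeo 1 M (f ∘ h) (h' ∘ f') := hf1.comp' (hh.of_le' (by exact_mod_cast le_top))
  obtain ⟨-, -, -, -, hb⟩ := hT5 K M _ _ C hg hC
  obtain ⟨Q, hQQ, hPH⟩ := hb Q' n hSpl hDom
  have h0 := hcon h h' Q hh hhm hs hs' hPH fun x hx i => by
    rw [show Q i x = Q i ((⟨x, hx⟩ : M) : E K) from rfl, hQQ]
    exact hQ ⟨x, hx⟩ i
  rw [cint_eq hMS hSV hC Q (Q' 1) (hQQ 1), h0]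

end Pool.Agent.Helper56.RZ
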