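import Pool.Agent.Helper56.RZ.Fin0
import Pool.Agent.Helper56.RZ.GoalsC

/-!
# Project RZ: the perturbation at a point with a good modulus of continuity
-/

set_option autoImplicit false

open Set Filter Topology MeasureTheory

open scoped ContDiff

namespace Pool.Agent.Helper56.RZ

/-- the perturbation theorem at a point with the modulus of continuity `Modul` -/
def StmtCore : Prop := ∀ (N K r : ℕ) (α : ℝ) (M : Set (E K)) (m : Measure (E K))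
  (f f' : E K → E K) (P : Fin 3 → E K → End K) (x0 : E K), 2 ≤ r → 0 < α → α ≤ 1 →
  SmoothVolume N K M m → IsDiffeo r M f f' → Preserves M m f → PH M f f' P →
  x0 ∈ M → (∀ j : ℕ, 1 ≤ j → f^[j] x0 ≠ x0) →
  (∃ U : Set (E K), IsOpen U ∧ x0 ∈ U ∧ ∃ C : ℝ, ∀ x ∈ M ∩ U, ∀ y ∈ M ∩ U, ∀ i,
    ‖P i x - P i y‖ ≤ C * ‖x - y‖ ^ α) → Modul M P r x0 →
  ∀ ε > 0, ∃ (h h' : E K → E K) (Q : Fin 3 → E K → End K),
    IsDiffeo ∞ M h h' ∧ Preserves M m h ∧ Small r ε M h ∧ Small r ε M h' ∧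
    PH M (f ∘ h) (h' ∘ f') Q ∧ (∀ x ∈ M, ∀ i, ‖Q i x - P i x‖ ≤ ε) ∧
    CInt M m (f ∘ h) Q ≠ 0

theorem coreJ (hB2 : StmtB2) (hDP : StmtDP) (hCL : StmtCL) (hLI : StmtLI)
    (hE3 : StmtE3) (hL2 : StmtL2) (hLD : StmtLD) (hF1 : StmtF1) (hF3 : StmtF3) (hF4 : StmtF4)
    (hK3 : StmtK3) (hK4 : StmtK4) (hT1 : StmtT1) (hT4 : StmtT4) (hT5 : StmtT5) (hG1 : StmtG1)
    (hG2 : StmtG2) (hG3 : StmtG3) (hG5 : StmtG5) (hK1 : StmtK1) (hMS : StmtMS)
    (hINT : StmtINT) (hORB : StmtORB) (hNB : StmtNB) : StmtCore := by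
  intro N K r α M m f f' P x0 hr hα0 hα1 hSV hf hfm hPH hx0M hnp hHol hmod ε hε
  classical
  by_contra hcon
  push Not at hcon
  -- basic facts
  have hr1 : (1 : ℝ) ≤ r := by exact_mod_cast (by omega : 1 ≤ r)
  have hf1 : IsDiffeo 1 M f f' := hf.of_le' (by exact_mod_cast (by omega : 1 ≤ r))
  have hPi : ContinuousOn (Pi M) M :=
    (((hPH.cont 0).add (hPH.cont 1)).add (hPH.cont 2)).congr fun x hx => (hPH.sum x hx).symm
  have hcM : CompactSpace M := isCompact_iff_compactSpace.1 hSV.compact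
  obtain ⟨C, hC⟩ := hT4 K M f f' hPi hf1
  obtain ⟨hCinv, hcomp, hiter, hto, hback⟩ := hT5 K M f f' C hf1 hC
  obtain ⟨hspl, n, hdom⟩ := hto P hPH
  obtain ⟨hMSd, hfin, hMSp, hMSi, hMSae⟩ := hMS N K M m hSV
  set mX : Measure M := m.comap ((↑) : M → E K) with hmX
  have hfin' : IsFiniteMeasure mX := hfin
  obtain ⟨δk, ck, lk, hδk, hck, hlk0, hlk1, hkey⟩ := key hB2 hDP hCL hLI M K C _ n hspl hdom
  obtain ⟨U, hU, hx0U, Cα, hH⟩ := hHol
  have hx0 : x0 ∈ M ∩ U := ⟨hx0M, hx0U⟩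
  obtain ⟨c, hx0W, hvol⟩ := hSV.chart x0 hx0.1
  set z0 : E N := c.φ x0 with hz0d
  have hz0 : z0 ∈ c.V := c.mapsφ x0 ⟨hx0.1, hx0W⟩
  have hψz0 : c.ψ z0 = x0 := c.right x0 ⟨hx0.1, hx0W⟩
  obtain ⟨hP3, hPne, r0, Cc, hr0, hball, hHp, hnorm⟩ := hK1 N K M c P z0 α Cα U hz0 hU
    (by rw [hψz0]; exact hx0.2) hα0 hα1 hPH.proj hPH.sum hH
  have hp : Proj3 (fun i => phat c P i z0) := hP3 z0 hz0
  obtain ⟨hTw, hF1a⟩ := hF1 N _ hp
  obtain ⟨d⟩ := hTw (fun i => hPne z0 hz0 i (hPH.ne _ (by rw [hψz0]; exact hx0.1) i))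
  obtain ⟨hHsm, hXsm, hqsm, hqH, hHH, hHz, hHid, cq, hcq1, hcq⟩ := hF1a d
  obtain ⟨cF, hcF, hF3a⟩ := hF3 N _ hp d
  obtain ⟨hp0, hgc, hg0, hI⟩ := hF4 N _ hp d
  obtain ⟨CG, ρG, hCG, hρG0, hρG1, hG2a⟩ := hG2 N K r M c _ hp d z0 hz0
  -- amplitude
  obtain ⟨a, ha0, ha1, haε⟩ : ∃ a : ℝ, 0 < a ∧ a ≤ 1 ∧ CG * a ≤ ε := by
    refine ⟨min 1 (ε / CG), lt_min one_pos (by positivity), min_le_left _ _, ?_⟩
    have h1 : min 1 (ε / CG) ≤ ε / CG := min_le_right _ _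
    rw [le_div_iff₀ (by linarith)] at h1
    linarith
  -- bounds
  obtain ⟨RP, hRP1, hRP⟩ := exists_bd3 _ hspl.cont
  obtain ⟨RT, hRT1, hRT⟩ := exists_bd _ C.contT
  obtain ⟨Rp, hRp0, hRpi⟩ : ∃ Rp : ℝ, 0 ≤ Rp ∧ ∀ i, ‖phat c P i z0‖ ≤ Rp :=
    ⟨∑ i, ‖phat c P i z0‖, Finset.sum_nonneg fun i _ => norm_nonneg _, fun i =>
      Finset.single_le_sum (f := fun i => ‖phat c P i z0‖) (fun i _ => norm_nonneg _)
        (Finset.mem_univ i)⟩
  have hz0b : z0 ∈ Metric.closedBall z0 r0 := Metric.mem_closedBall_self hr0.le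
  have hCc0 : 0 ≤ Cc := (norm_nonneg _).trans (hnorm z0 hz0b).1
  obtain ⟨R0, hR0⟩ : ∃ R0 : ℝ, R0 = Cc + RT := ⟨_, rfl⟩
  have hR00 : 0 ≤ R0 := by linarith
  obtain ⟨C1, hC1⟩ : ∃ C1 : ℝ, C1 = R0 ^ 3 * (Rp * cF * Rp + 1) := ⟨_, rfl⟩
  have hC10 : 0 ≤ C1 := by rw [hC1]; positivity
  obtain ⟨R, hR⟩ : ∃ R : ℝ, R = R0 + RP + cF + Rp + ck * C1 + RT + 1 := ⟨_, rfl⟩
  have hckC : 0 ≤ ck * C1 := by positivity
  obtain ⟨cL, hcL, hL2a⟩ := hL2 N K R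
  obtain ⟨cD, δD, hδD, hLDa⟩ := hLD K
  -- compactness of the support
  have hqc : IsCompact {y : E N | d.q y ≤ 1} := by
    refine (isCompact_closedBall (0 : E N) (Real.sqrt cq)).of_isClosed_subset
      (isClosed_le hqsm.continuous continuous_const) fun y hy => ?_
    rw [mem_closedBall_zero_iff]
    refine Real.le_sqrt_of_sq_le ?_
    have h1 := (hcq y).1
    have hy' : d.q y ≤ 1 := hy
    have h2 : cq * d.q y ≤ cq * 1 := mul_le_mul_of_nonneg_left hy' (by linarith)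
    linarith
  -- the small constants
  obtain ⟨η, b, J, hη0, hη1, hb0, hb1, hJ, hsmalls⟩ := consts (cD := cD)
    (v0 := (volume {y : E N | d.q y ≤ 1}).toReal) hck hlk0 hlk1 hC10 hcL hδk hε hI
    ENNReal.toReal_nonneg hδD
  obtain ⟨hK4c, hK4m⟩ := hK4 N K r M c P z0 hz0 (by omega) hPH.cont
    (by rw [hψz0]; exact hmod)
  obtain ⟨ρK, hρK0, hK2a⟩ := hK3 N r a r0 z0 (phat c P) d hr ha0 ha1 hr0
    (fun z hz => hP3 z (hball hz)) hK4c hK4m η hη0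
  obtain ⟨ρ5, hρ50, hG5a⟩ := hG5 N K r a M c _ hPi hp d z0 hz0 hr ha0 ha1 (min δk 1)
    (lt_min hδk one_pos)
  obtain ⟨ρN, hρN0, hNBa⟩ := hNB N K M c _ hp d z0 hz0 f hf.maps hf.smooth.continuousOn
    (by rw [hψz0]; exact hnp) J
  obtain ⟨ρ, hρ0, hρb, hρG', hρK', hρ5', hρN'⟩ : ∃ ρ : ℝ, 0 < ρ ∧ ρ ≤ b ∧ ρ ≤ ρG ∧ ρ ≤ ρK ∧
      ρ ≤ ρ5 ∧ ρ ≤ ρN :=
    ⟨min (min b ρG) (min ρK (min ρ5 ρN)),
      lt_min (lt_min hb0 hρG0) (lt_min hρK0 (lt_min hρ50 hρN0)),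
      (min_le_left _ _).trans (min_le_left _ _), (min_le_left _ _).trans (min_le_right _ _),
      (min_le_right _ _).trans (min_le_left _ _),
      (min_le_right _ _).trans ((min_le_right _ _).trans (min_le_left _ _)),
      (min_le_right _ _).trans ((min_le_right _ _).trans (min_le_right _ _))⟩
  have hρ1 : ρ ≤ 1 := hρb.trans hb1
  obtain ⟨ht0, htρ⟩ := amp (a := a) (r := r) hρ0 hρ1 hr ha0 ha1
  obtain ⟨hFit, hNBb⟩ := hNBa ρ hρ0 hρN'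
  obtain ⟨H, hRH, hNH, hNH', hOff⟩ := hG5a ρ hρ0 hρ5'
  have hK2b := hK2a ρ hρ0 hρK'
  have hpow : ∀ k ≤ r, CG * (a * ρ ^ (r - 1)) * ρ * (ρ⁻¹) ^ k ≤ ε := by
    intro k hk
    have h1 := pow_small hρ0 hρ1 (by omega : 1 ≤ r) hk
    have h2 : CG * (a * ρ ^ (r - 1)) * ρ * (ρ⁻¹) ^ k
        = (CG * a) * (ρ ^ (r - 1) * ρ * (ρ⁻¹) ^ k) := by ring
    rw [h2]
    have h3 : 0 ≤ CG * a := by positivity
    calc (CG * a) * (ρ ^ (r - 1) * ρ * (ρ⁻¹) ^ k) ≤ (CG * a) * 1 :=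
          mul_le_mul_of_nonneg_left h1 h3
      _ ≤ ε := by rw [mul_one]; exact haε
  generalize a * ρ ^ (r - 1) = t at *
  have htb : t ≤ b := htρ.trans hρb
  have ht1 : t ≤ 1 := htb.trans hb1
  obtain ⟨htδ, htε, htL, htD, hsum⟩ := hsmalls t ht0 htb
  -- the perturbation
  obtain ⟨hdiff, hmap, hid, hder⟩ := hG1 N K M c _ hp d z0 ρ hρ0 hFit t
  obtain ⟨hdiff', hmap', hid', hder'⟩ := hG1 N K M c _ hp d z0 ρ hρ0 hFit (-t)
  rw [neg_neg] at hdiff'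
  have hd1 : IsDiffeo 1 M (hM c d z0 ρ t) (hM c d z0 ρ (-t)) :=
    hdiff.of_le' (by exact_mod_cast le_top)
  have hd1' : IsDiffeo 1 M (hM c d z0 ρ (-t)) (hM c d z0 ρ t) :=
    hdiff'.of_le' (by exact_mod_cast le_top)
  have hvh : Preserves M m (hM c d z0 ρ t) := hG3 N K M m c _ hSV hp d z0 ρ hρ0 hFit hvol t
  have hvh' : Preserves M m (hM c d z0 ρ (-t)) :=
    hG3 N K M m c _ hSV hp d z0 ρ hρ0 hFit hvol (-t)
  have hsmall : ∀ s : ℝ, |s| = t → Small r ε M (hM c d z0 ρ s) := by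
    intro s hs
    obtain ⟨-, w, hw1, hw2, hw3⟩ := hG2a ρ s hρ0 hρG' (by rw [hs]; exact ht1)
    refine ⟨w, hw1, hw2, fun k hk x => (hw3 k hk x).trans ?_⟩
    rw [hs]
    exact hpow k hk
  have hsm : Small r ε M (hM c d z0 ρ t) := hsmall t (abs_of_pos ht0)
  have hsm' : Small r ε M (hM c d z0 ρ (-t)) := hsmall (-t) (by rw [abs_neg, abs_of_pos ht0])
  obtain ⟨eH, hRg⟩ := hcomp H _ _ hd1 hRH
  obtain ⟨hRHi, -⟩ := hT5 K M _ _ H hd1 hRH
  obtain ⟨eH', hRg'⟩ := hcomp H.inv _ _ hd1' hRHi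
  -- bounds for `H`
  have hTe : ∀ x, ‖H.T x‖ ≤ RT := fun x => by rw [eH]; exact hRT x
  have hAR : ∀ x, ‖H.A x‖ ≤ R := fun x => by
    have h1 := norm_le_norm_add_norm_sub' (H.A x) (H.T x)
    have h2 := (hNH x).2.1.trans (min_le_right _ _)
    linarith [hTe x]
  have hBR : ∀ x, ‖H.B x‖ ≤ R := fun x => by
    have h1 := norm_le_norm_add_norm_sub' (H.B x) (H.T x)
    have h2 := (hNH x).2.2.trans (min_le_right _ _)
    linarith [hTe x]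
  have hN1 : Near H δk := fun x => ⟨(hNH x).1.trans (min_le_left _ _),
    (hNH x).2.1.trans (min_le_left _ _), (hNH x).2.2.trans (min_le_left _ _)⟩
  have hN2 : Near H.inv δk := fun x => ⟨(hNH' x).1.trans (min_le_left _ _),
    (hNH' x).2.1.trans (min_le_left _ _), (hNH' x).2.2.trans (min_le_left _ _)⟩
  have hPT : ∀ (x : M) i, P i x * H.T x = P i x := fun x i => by rw [eH]; exact hspl.PT x i
  -- points of the support
  have hpt : ∀ (x : M) (y : E N), d.q y ≤ 1 → (x : E K) = c.ψ (z0 + ρ • y) →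
      Pt c P z0 d ρ t η R0 cF H x y := fun x y hy hxy =>
    pt_mk hT1 hPH.proj hPH.sum hRH r0 hball hmap hder hder' hqH hHH
      (fun z hz => ⟨(hnorm z hz).1.trans (by linarith), (hnorm z hz).2.trans (by linarith)⟩)
      (fun x => (hTe x).trans (by linarith)) x y hy hxy (hF3a t y (by rw [abs_of_pos ht0]; exact
        ht1)).2.2.2 (hK2b y hy)
  have hoffd : ∀ (x : M) (i j : Fin 3), i ≠ j → ‖P i (H.f x) * H.A x * P j x‖ ≤ C1 * t ∧
      ‖P i x * H.B (H.f x) * P j (H.f x)‖ ≤ C1 * t := by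
    intro x i j hij
    rw [hC1]
    exact offd (B := {x : M | ∃ y, d.q y ≤ 1 ∧ (x : E K) = c.ψ (z0 + ρ • y)}) (ρ := ρ) (d := d)
      hPH.proj hPT (fun x hx => hx.elim fun y hy => ⟨y, hpt x y hy.1 hy.2⟩)
      (fun x hx => hOff x hx) Rp hRpi (by rw [← hC1]; exact hC10) ht0.le hη1 x i j hij
  have hoffd' := offd_inv hoffd
  have hκ0 : 0 ≤ C1 * t := by positivity
  obtain ⟨Q, Γ, o⟩ := hkey H eH hN1 (C1 * t) hκ0 htδ hoffd
  obtain ⟨Q', Γ', o'⟩ := hkey H.inv eH' hN2 (C1 * t) hκ0 htδ hoffd'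
  -- vanishing of `Lam`
  have hcon' : ∀ (h h' : E K → E K) (Q : Fin 3 → E K → End K), IsDiffeo ∞ M h h' →
      Preserves M m h → Small r ε M h → Small r ε M h' → PH M (f ∘ h) (h' ∘ f') Q →
      (∀ x ∈ M, ∀ i, ‖Q i x - P i x‖ ≤ ε) → CInt M m (f ∘ h) Q = 0 :=
    hcon
  have hSid : Small r ε M (id : E K → E K) :=
    ⟨fun _ => 0, contDiff_const, fun x _ => by simp, fun k _ x => by
      simpa using hε.le⟩
  have hmid : Preserves M m (id : E K → E K) := by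
    intro A hA
    rw [preimage_id]
    exact measure_inter_conull hSV.null
  have z1 := lam_zeroJ hMS hT5 hSV hf1 hcon' (IsDiffeo.id' ∞ M) hmid hSid hSid
    (C := C) hC hspl hdom (fun x i => by rw [sub_self, norm_zero]; exact hε.le)
  have z2 := lam_zeroJ hMS hT5 hSV hf1 hcon' hdiff hvh hsm hsm' hRg o.spl o.dom
    (fun x i => (o.close x i).trans htε)
  have z3 := lam_zeroJ hMS hT5 hSV hf1 hcon' hdiff' hvh' hsm' hsm hRg' o'.spl o'.dom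
    (fun x i => (o'.close x i).trans htε)
  have hE := hE3 M K C H eH eH' (fun x => P 1 x) (Q 1) (Q' 1) Γ Γ' mX (hspl.sub 1)
    (o.spl.sub 1) (o'.spl.sub 1) o.lift o'.lift (hMSp f C.f hfm hC.rf) (hMSp _ H.f hvh hRH.rf)
  -- positivity
  have hZc : Continuous (ZZ P H Γ Γ') := by
    have c1 : Continuous (fun x : M => P 1 x) := hspl.cont 1
    have c2 := H.f.continuous
    exact ((((((c1.mul (H.contB.comp c2)).mul (o'.lift.cont.comp c2)).mul (c1.comp c2)).mul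
      H.contA).mul o.lift.cont).sub c1)
  have hpos := int_pos hINT hMS hSV hp hρ0 hFit hvol hgc hqc hZc
    (fun x hx => zz_off hPH.proj hPT o o' x (hOff x hx)) ht0 ht1 (by linarith : (0 : ℝ) ≤ cL)
    (η := η) (cD := cD) (δD := δD)
    (fun x y hy hxy => by
      obtain ⟨q1, q2⟩ := orbits hORB eH eH' hC hRH hmap hmap' hqH hOff J hNBb x ⟨y, hy, hxy⟩
      exact (hpt x y hy hxy).est o o' ht0 ht1 hη0.le hη1 J hJ hp (hp0 y) R (by linarith)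
        (fun i => (hRpi i).trans (by linarith)) (fun x i => (hRP x i).trans (by linarith))
        hAR hBR (by linarith) (by linarith) q1 q2 cL hL2a)
    hLDa htL htD rfl rfl hI hsum
  have hE' : (0 : ℝ) = ∫ x : M, Real.log |LinearMap.det ((1 + ZZ P H Γ Γ' x : End K) :
      E K →ₗ[ℝ] E K)| ∂(m.comap ((↑) : M → E K)) := by
    have h1 : Lam (C.comp H eH) (Q 1) mX + Lam (C.comp H.inv eH') (Q' 1) mX
        - 2 * Lam C (fun x => P 1 x) mX = 0 := by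
      rw [show Lam C (fun x : M => P 1 x) mX = 0 from z1,
        show Lam (C.comp H eH) (Q 1) mX = 0 from z2,
        show Lam (C.comp H.inv eH') (Q' 1) mX = 0 from z3]
      ring
    rw [← h1]
    exact hE
  exact absurd hE' hpos.ne

end Pool.Agent.Helper56.RZ
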