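import Pool.Agent.Helper56.RZ.FinC5
import Pool.Agent.Helper56.RZ.FinD5

/-!
# Project RZ5: the homological bound at a good point
-/

set_option autoImplicit false

open Set Filter Topology MeasureTheory

open scoped ContDiff

namespace Pool.Agent.Helper56.RZ

/-- domination at the returns to small balls around `x0` -/
def DRp {K : ℕ} {M : Set (E K)} (C : Coc M K) (P : Fin 3 → E K → End K) (x0 : M) (θ0 : ℝ) :
    Prop := ∀ CB : ℝ, 1 ≤ CB → ∃ Cr R1 : ℝ, 1 ≤ Cr ∧ 0 < R1 ∧ R1 ≤ 1 ∧ ∀ R : ℝ, 0 < R → R ≤ R1 →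
  ∀ (j : ℕ) (x : M), 1 ≤ j → ‖(x : E K) - x0‖ ≤ CB * R → ‖(C.f^[j] x : E K) - x0‖ ≤ CB * R →
    DP C (fun i (x : M) => P i x) j x ≤ Cr * R ^ θ0

theorem interp {D X Y δ : ℝ} (hD : 0 ≤ D) (hX : D ≤ X) (hY : D ≤ Y) (hδ0 : 0 < δ) (hδ1 : δ < 1) :
    D ≤ X ^ (1 - δ) * Y ^ δ := by
  rcases hD.eq_or_lt with h0 | h0
  · rw [← h0]
    exact mul_nonneg (Real.rpow_nonneg (hD.trans hX) _) (Real.rpow_nonneg (hD.trans hY) _)
  · calc D = D ^ (1 - δ) * D ^ δ := by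
          rw [← Real.rpow_add h0]
          have : 1 - δ + δ = 1 := by ring
          rw [this, Real.rpow_one]
      _ ≤ X ^ (1 - δ) * Y ^ δ := by
          refine mul_le_mul (Real.rpow_le_rpow hD hX (by linarith))
            (Real.rpow_le_rpow hD hY hδ0.le) (Real.rpow_nonneg hD _)
            (Real.rpow_nonneg (hD.trans hX) _)

theorem hbp5 (hB2 : StmtB2) (hDP : StmtDP) (hCL : StmtCL) (hLI : StmtLI) (hE3 : StmtE3)
    (hT1 : StmtT1) (hT4 : StmtT4) (hT5 : StmtT5) (hMS : StmtMS) (hINT : StmtINT)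
    (hTL : StmtTL) (hTA : StmtTA) (hTE : StmtTE) (hGA1 : StmtGA1) (hGA2 : StmtGA2)
    (hGA3 : StmtGA3) (hGA5 : StmtGA5) (hLC : StmtLC) (hTF : StmtTF) (hOB : StmtOB)
    (hTR : StmtTR5) (hRS : StmtRS5)
    {N K r : ℕ} {M : Set (E K)} {m : Measure (E K)} {f f' : E K → E K} {P : Fin 3 → E K → End K}
    (hSV : SmoothVolume N K M m) (hf1 : IsDiffeo 1 M f f') (hfm : Preserves M m f)
    (hPH : PH M f f' P) {C : Coc M K} (hC : Rep C f f') {ε : ℝ} (hε : 0 < ε)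
    (hcon : ∀ (h h' : E K → E K) (Q : Fin 3 → E K → End K), IsDiffeo ∞ M h h' →
      Preserves M m h → Small r ε M h → Small r ε M h' → PH M (f ∘ h) (h' ∘ f') Q →
      (∀ x ∈ M, ∀ i, ‖Q i x - P i x‖ ≤ ε) → CInt M m (f ∘ h) Q = 0)
    (c : Chart N K M) (hvol : ∀ A : Set (E N), MeasurableSet A → A ⊆ c.V → m (c.ψ '' A) = volume A)
    (z0 : E N) (hz0 : z0 ∈ c.V) (x0 : M) (hx0 : (x0 : E K) = c.ψ z0) {β δ θ0 : ℝ}
    (hβ0 : 0 < β) (hβ1 : β < 1) (hδ0 : 0 < δ) (hδ1 : δ < 1)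
    (hDN : ∃ l0 Cl : ℝ, 0 < l0 ∧ l0 < 1 ∧ 1 ≤ Cl ∧ ∀ (k : ℕ) (x : M),
      DP C (fun i (x : M) => P i x) k x ≤ Cl * l0 ^ k)
    (hDR : DRp C P x0 θ0) : HBp M m f P c z0 r ε β (θ0 * β * (1 - δ)) := by
  intro p hp d hqc CB hCB
  obtain ⟨l', A, t1, ρ1, r1, hl0', hl1', hA, ht10, ht11, hρ10, hr10, hb⟩ := hb5 hB2 hDP hCL hLI
    hE3 hT1 hT4 hT5 hMS hINT hTL hTA hTE hGA1 hGA2 hGA3 hGA5 hLC hTF hOB hTR hRS hSV hf1 hfm hPH
    hC hε hcon c hvol hp d hqc z0 hz0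
  obtain ⟨l0, Cl, hl00, hl01, hCl, hdn⟩ := hDN
  obtain ⟨CL, qL, hCL1, hqL, hlip⟩ := phat_lip c hPH.cont hz0
  obtain ⟨DD, hDD1, hDs⟩ : ∃ DD : ℝ, 1 ≤ DD ∧ ∀ s, d.q s ≤ 1 → ‖s‖ ≤ DD := by
    obtain ⟨D, hD⟩ := hqc.isBounded.exists_norm_le
    exact ⟨max 1 D, le_max_left _ _, fun s hs => (hD s hs).trans (le_max_right _ _)⟩
  obtain ⟨q, hq⟩ : ∃ q : ℝ, q = 1 + CB * DD := ⟨_, rfl⟩
  have hq1 : 1 ≤ q := by
    rw [hq]
    have : 0 ≤ CB * DD := by positivity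
    linarith
  have hq0 : 0 < q := by linarith
  obtain ⟨Cr, R1, hCr, hR10, hR11, hdr⟩ := hDR (CL * q) (by nlinarith)
  -- the choice of `ρ`
  have ev := (ev_le (show 0 < min (ρ1 / CB) 1 from lt_min (by positivity) one_pos)).and
    (ev_pow hβ0 (show 0 < min (min r1 R1) (qL / q) from
      lt_min (lt_min hr10 hR10) (by positivity)))
  obtain ⟨ρ2, hρ20, hρ2⟩ := mem_nhdsGT_iff_exists_Ioc_subset.1 ev
  obtain ⟨l, hl⟩ : ∃ l : ℝ, l = l0 ^ δ := ⟨_, rfl⟩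
  have hl0 : 0 < l := by rw [hl]; positivity
  have hl1 : l < 1 := by rw [hl]; exact Real.rpow_lt_one hl00.le hl01 hδ0
  obtain ⟨B, hB⟩ : ∃ B : ℝ, B = Cr ^ (1 - δ) * Cl ^ δ := ⟨_, rfl⟩
  have hB0 : 0 ≤ B := by rw [hB]; positivity
  refine ⟨l, l', A * B, A * 4 * 4, t1, ρ2, hl0, hl1, hl0', hl1', by positivity, by positivity,
    ht10, ht11, hρ20, ?_⟩
  intro ρ hρ0 hρ y hy ρ' t κ0 hρρ' hρ'C ht0 ht hκ0 hκ1 hs hs' hosc N0
  obtain ⟨⟨-, c1⟩, c2⟩ := hρ2 ⟨hρ0, hρ⟩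
  have c1' : ρ ≤ min (ρ1 / CB) 1 := c1
  have c2' : ρ ^ β ≤ min (min r1 R1) (qL / q) := c2
  have c3 : ρ ≤ ρ1 / CB := c1'.trans (min_le_left _ _)
  have c4 : ρ ≤ 1 := c1'.trans (min_le_right _ _)
  have c5 : ρ ^ β ≤ r1 := c2'.trans ((min_le_left _ _).trans (min_le_left _ _))
  have c6 : ρ ^ β ≤ R1 := c2'.trans ((min_le_left _ _).trans (min_le_right _ _))
  have c7 : ρ ^ β ≤ qL / q := c2'.trans (min_le_right _ _)
  rw [le_div_iff₀ (by linarith)] at c3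
  rw [le_div_iff₀ hq0] at c7
  have hρ'1 : ρ' ≤ ρ1 := hρ'C.trans (by linarith)
  have hρ'0 : 0 < ρ' := hρ0.trans_le hρρ'
  obtain ⟨R, hR⟩ : ∃ R : ℝ, R = ρ ^ β := ⟨_, rfl⟩
  rw [← hR] at c5 c6 c7 hy
  have hR0 : 0 < R := by rw [hR]; positivity
  have hρR : ρ ≤ R := by
    rw [hR]
    have := pow_ge hρ0 c4 hβ1.le
    rwa [Real.rpow_one] at this
  -- the support is close to the point
  have hz0b : z0 ∈ Metric.closedBall z0 qL := Metric.mem_closedBall_self hqL.le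
  have hin : ∀ x : E K, x ∈ Bs c d y ρ' → ‖x - (x0 : E K)‖ ≤ CL * q * R := by
    rintro x ⟨s, hs1, rfl⟩
    rw [Metric.mem_closedBall, dist_eq_norm] at hy
    have h1 : ‖y + ρ' • s - z0‖ ≤ q * R := by
      calc ‖y + ρ' • s - z0‖ = ‖(y - z0) + ρ' • s‖ := by congr 1; abel
        _ ≤ ‖y - z0‖ + ‖ρ' • s‖ := norm_add_le _ _
        _ ≤ R + (CB * R) * DD := by
            rw [norm_smul, Real.norm_of_nonneg hρ'0.le]
            refine add_le_add hy (mul_le_mul ?_ (hDs s hs1) (norm_nonneg _) (by positivity))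
            exact hρ'C.trans (mul_le_mul_of_nonneg_left hρR (by linarith))
        _ = q * R := by rw [hq]; ring
    have h2 : y + ρ' • s ∈ Metric.closedBall z0 qL := by
      rw [Metric.mem_closedBall, dist_eq_norm]
      exact h1.trans (by linarith)
    rw [hx0]
    refine ((hlip _ h2 z0 hz0b).1).trans ?_
    calc CL * ‖y + ρ' • s - z0‖ ≤ CL * (q * R) := mul_le_mul_of_nonneg_left h1 (by linarith)
      _ = CL * q * R := by ring
  have hyr : y ∈ Metric.closedBall z0 r1 := Metric.closedBall_subset_closedBall c5 hy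
  have hRθ : (R ^ θ0) ^ (1 - δ) = ρ ^ (θ0 * β * (1 - δ)) := by
    rw [hR, ← Real.rpow_mul hρ0.le, ← Real.rpow_mul hρ0.le]
    congr 1
    ring
  have key := hb y hyr ρ' t κ0 hρ'0 hρ'1 ht0 ht hκ0 hκ1 hs hs' hosc N0
    (fun n => B * ρ ^ (θ0 * β * (1 - δ)) * l ^ n) (fun n => by positivity)
    (fun n _ x hx hx' => by
      have h1 := hdr R hR0 c6 (n + 1) x (by omega) (hin _ hx) (by
        rw [hC.iter]
        exact hin _ hx')
      have h2 := hdn (n + 1) x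
      have h3 : Cl * l0 ^ (n + 1) ≤ Cl * l0 ^ n := by
        refine mul_le_mul_of_nonneg_left ?_ (by linarith)
        exact pow_le_pow_of_le_one hl00.le hl01.le (Nat.le_succ n)
      have h0 : 0 ≤ DP C (fun i (x : M) => P i x) (n + 1) x :=
        (mul_nonneg (norm_nonneg _) (norm_nonneg _)).trans (le_max_left _ _)
      refine (interp h0 h1 (h2.trans h3) hδ0 hδ1).trans (le_of_eq ?_)
      have e1 : (l0 ^ n) ^ δ = l ^ n := by
        rw [hl, ← Real.rpow_natCast, ← Real.rpow_natCast, ← Real.rpow_mul hl00.le,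
          ← Real.rpow_mul hl00.le, mul_comm]
      rw [Real.mul_rpow (by linarith) (by positivity), Real.mul_rpow (by linarith) (by positivity),
        hRθ, e1, hB]
      ring)
  refine key.trans ?_
  refine mul_le_mul_of_nonneg_left ?_ (by positivity)
  have e2 : ∑ n ∈ Finset.range N0, B * ρ ^ (θ0 * β * (1 - δ)) * l ^ n *
      (m {x | x ∈ Bs c d y ρ' ∧ f^[n + 1] x ∈ Bs c d y ρ'}).toReal =
      B * ρ ^ (θ0 * β * (1 - δ)) * ∑ n ∈ Finset.range N0, l ^ n *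
      (m {x | x ∈ Bs c d y ρ' ∧ f^[n + 1] x ∈ Bs c d y ρ'}).toReal := by
    rw [Finset.mul_sum]
    exact Finset.sum_congr rfl fun n _ => by ring
  rw [e2]
  have e3 : (κ0 + t) ^ 2 ≤ 4 := by
    have h1 : κ0 + t ≤ 2 := by linarith
    have h2 : 0 ≤ κ0 + t := by linarith
    nlinarith
  have e4 : 0 ≤ l' ^ N0 * (m (Bs c d y ρ')).toReal :=
    mul_nonneg (by positivity) ENNReal.toReal_nonneg
  have e5 : A * (κ0 + t) ^ 2 * (4 * (l' ^ N0 * (m (Bs c d y ρ')).toReal)) ≤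
      A * 4 * (4 * (l' ^ N0 * (m (Bs c d y ρ')).toReal)) :=
    mul_le_mul_of_nonneg_right (mul_le_mul_of_nonneg_left e3 hA) (by positivity)
  rw [mul_add]
  refine add_le_add (le_of_eq ?_) (e5.trans (le_of_eq ?_)) <;> ring

end Pool.Agent.Helper56.RZ
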