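import Pool.Agent.Helper56.RZ.FinG
import Pool.Agent.Helper56.RZ.Fin1

/-!
# Project RZ: existence of a good point
-/

set_option autoImplicit false

open Set Filter Topology MeasureTheory

open scoped ContDiff

namespace Pool.Agent.Helper56.RZ

theorem exists_good_sum (hMX : StmtMX) {X : Type} [MetricSpace X] [CompactSpace X]
    [MeasurableSpace X] [BorelSpace X] (μ : Measure X) [IsFiniteMeasure μ] (F : X ≃ₜ X)
    (hF : MeasurePreserving F μ μ) (c : X → ℝ) (hc : Continuous c) (hc0 : ∀ x, 0 ≤ c x) (l : ℝ)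
    (hl : 0 < l) (h : 2 * ((∫ x, c x ∂μ) / l) < (μ univ).toReal) (p : X → Prop)
    (hp : ∀ᵐ x ∂μ, p x) : ∃ x,
    (∀ n : ℕ, 1 ≤ n → ∑ j ∈ Finset.range n, c (F^[j] x) ≤ l * n) ∧
    (∀ n : ℕ, 1 ≤ n → ∑ j ∈ Finset.range n, c (F.symm (F.symm^[j] x)) ≤ l * n) ∧ p x := by
  obtain ⟨B, hB⟩ : ∃ B : ℝ, ∀ x, c x ≤ B := by
    obtain ⟨B, hB⟩ := isCompact_univ.exists_bound_of_continuousOn (f := c) hc.continuousOn
    exact ⟨B, fun x => (le_abs_self _).trans (hB x (mem_univ x))⟩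
  have hF' : MeasurePreserving F.symm μ μ := by
    have := hF.symm F.toMeasurableEquiv
    exact this
  have hcs : Continuous (fun x => c (F.symm x)) := hc.comp F.symm.continuous
  have e1 : ∫ x, c (F.symm x) ∂μ = ∫ x, c x ∂μ := by
    conv_rhs => rw [← hF'.map_eq]
    exact (integral_map hF'.measurable.aemeasurable hc.aestronglyMeasurable).symm
  have m1 := hMX X μ F c B hF hc.measurable hc0 hB l hl
  have m2 := hMX X μ F.symm (fun x => c (F.symm x)) B hF' hcs.measurable (fun x => hc0 _)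
    (fun x => hB _) l hl
  rw [e1] at m2
  have hI : 0 ≤ ∫ x, c x ∂μ := integral_nonneg hc0
  obtain ⟨x, hx1, hx2, hx3⟩ := exists_pt μ _ _ _ m1 m2 (by positivity) h p hp
  refine ⟨x, fun n hn => ?_, fun n hn => ?_, hx3⟩
  · by_contra hcon
    push Not at hcon
    exact hx1 ⟨n, hn, hcon⟩
  · by_contra hcon
    push Not at hcon
    exact hx2 ⟨n, hn, hcon⟩

/-- the data at a good point -/
structure GoodPt {K : ℕ} {M : Set (E K)} (C : Coc M K) (P : Fin 3 → M → End K) (n : ℕ)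
    (f : E K → E K) (ε : ℝ) (k : ℕ) (D : Coc M K) (a b c : M → ℝ) (C0 Λ C' : ℝ) (x0 : M) :
    Prop where
  pow : IsPow C D (k * n)
  spl : Spl D P
  rates : Rates D P a b c C0
  hC0 : 0 ≤ C0
  hΛ : 0 < Λ
  ha : ∀ x, Λ ≤ a x
  hb : ∀ x, Λ ≤ b x
  big : 3 * C0 + 4 ≤ ε * Λ
  np : ∀ j : ℕ, 1 ≤ j → f^[j] (x0 : E K) ≠ x0
  fwd : GoodF D a b c Λ ε C' x0
  bwd : GoodF D.inv (fun x => b (D.f.symm x)) (fun x => a (D.f.symm x))
    (fun x => c (D.f.symm x)) Λ ε C' x0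

theorem gp (hRT : StmtRT) (hBL : StmtBL) (hBS : StmtBS) (hMX : StmtMX) (hCI : StmtCI)
    (hNM : StmtNM) (hPW : StmtPW) (hMS : StmtMS) (hT4 : StmtT4) (hT5 : StmtT5) (hSW : StmtSW)
    {N K : ℕ} {M : Set (E K)} {m : Measure (E K)} {f f' : E K → E K}
    {P : Fin 3 → E K → End K} {C : Coc M K} {n : ℕ} (hSV : SmoothVolume N K M m)
    (hf : IsDiffeo 1 M f f') (hfm : Preserves M m f) (hPH : PH M f f' P) (hC : Rep C f f')
    (hspl : Spl C (fun i (x : M) => P i x)) (hdom : Dom C (fun i (x : M) => P i x) n)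
    (hrk : ∀ x ∈ M, Module.finrank ℝ (LinearMap.range (P 0 x : E K →ₗ[ℝ] E K)) = 1 ∧
      Module.finrank ℝ (LinearMap.range (P 2 x : E K →ₗ[ℝ] E K)) = 1)
    (hz : ∀ᵐ x ∂m, CentralZero M f f' P x) (ε : ℝ) (hε : 0 < ε) :
    ∃ (k : ℕ) (D : Coc M K) (a b c : M → ℝ) (C0 Λ C' : ℝ) (x0 : M),
      GoodPt C (fun i (x : M) => P i x) n f ε k D a b c C0 Λ C' x0 := by
  obtain ⟨hMSd, hfin, hMSp, -, hMSae⟩ := hMS N K M m hSV
  set mX : Measure M := m.comap ((↑) : M → E K) with hmX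
  have hfin' : IsFiniteMeasure mX := hfin
  have hcM : CompactSpace M := isCompact_iff_compactSpace.1 hSV.compact
  have hn1 : 1 ≤ n := hdom.1
  have hmass : 0 < (mX univ).toReal := mass_pos hMS hSV
  obtain ⟨μu, hμu⟩ : ∃ μu : ℝ, μu = (mX univ).toReal := ⟨_, rfl⟩
  rw [← hμu] at hmass
  -- constants
  obtain ⟨C0, l, k0, hC0, hl, hk0, hrt⟩ := hRT M K C _ n hspl hdom (fun x => hrk x x.2)
  obtain ⟨R, hR1, hR⟩ := exists_bd3 _ hspl.cont
  obtain ⟨κ1, hκ1, hb1⟩ := hBL N K M m f f' P C hSV hf hfm hPH hC hrk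
  obtain ⟨P0, hP0, hPH0⟩ := ph_inv hT4 hT5 hSW hf hPH
  obtain ⟨hCinv, -⟩ := hT5 K M f f' C hf hC
  have e0 : ∀ x : M, P0 0 x = P 2 x := fun x => hP0 0 x x.2
  have e1 : ∀ x : M, P0 1 x = P 1 x := fun x => hP0 1 x x.2
  have e2 : ∀ x : M, P0 2 x = P 0 x := fun x => hP0 2 x x.2
  obtain ⟨κ2, hκ2, hb2⟩ := hBL N K M m f' f P0 C.inv hSV hf.symm (hMSd f f' hf hfm).1 hPH0
    hCinv (fun x hx => by
      have h0 := e0 ⟨x, hx⟩
      have h2 := e2 ⟨x, hx⟩
      rw [show P0 0 x = P 2 x from h0, show P0 2 x = P 0 x from h2]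
      exact ⟨(hrk x hx).2, (hrk x hx).1⟩)
  -- exponents
  have hae := cz_ae hMS hT5 hSV hf hC P (fun i (x : M) => P i x) (fun _ _ => rfl) hz
  have hI := hCI M K C (fun x => P 1 x) mX (hspl.sub 1)
    (hae.mono fun x hx v hv hv0 => (hx v hv hv0).1)
  have hI' := hCI M K C.inv (fun x => P 1 x) mX
    (Pool.Agent.Helper50.RZ.sub_inv C _ (hspl.sub 1))
    (hae.mono fun x hx v hv hv0 => (hx v hv hv0).2)
  obtain ⟨ε1, hε1, hNε1, hεε1⟩ : ∃ ε1 : ℝ, 0 < ε1 ∧ N * ε1 ≤ ε / 2 ∧ ε1 ≤ ε := by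
    have hN0 : (0 : ℝ) ≤ N := Nat.cast_nonneg N
    refine ⟨ε / (2 * (N + 1)), by positivity, ?_, ?_⟩
    · rw [mul_div_assoc', div_le_div_iff₀ (by positivity) (by positivity)]
      have : 0 ≤ ε := hε.le
      nlinarith
    · rw [div_le_iff₀ (by positivity)]
      nlinarith
  obtain ⟨τ, hτ, hτ'⟩ : ∃ τ : ℝ, 0 < τ ∧ 8 * (τ * n) = ε1 * l * μu := by
    have hn0 : (0 : ℝ) < n := by exact_mod_cast hn1
    refine ⟨ε1 * l * μu / (8 * n), by positivity, ?_⟩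
    field_simp
  -- the choice of `k`
  have hmul : Tendsto (fun k : ℕ => k * n) atTop atTop :=
    tendsto_id.atTop_mul_const' (by omega)
  have ev1 := (hI.comp hmul).eventually_lt_const hτ
  have ev2 := (hI'.comp hmul).eventually_lt_const hτ
  have hlk : Tendsto (fun k : ℕ => l * (k : ℝ)) atTop atTop :=
    tendsto_natCast_atTop_atTop.const_mul_atTop hl
  have ev3 := hlk.eventually_ge_atTop ((3 * C0 + 4) / ε)
  have ev4 := hlk.eventually_ge_atTop ((N + 2) * (C0 + Real.log R) / (ε / 2))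
  obtain ⟨k, hk1, hk2, hk3, hk4, hkk0, hk00⟩ := (ev1.and (ev2.and (ev3.and (ev4.and
    ((eventually_ge_atTop k0).and (eventually_ge_atTop 1)))))).exists
  obtain ⟨D, hD, hDs, hDn⟩ := hPW M K C (k * n)
  have hsD := hDs _ hspl
  obtain ⟨hrates, hlow⟩ := hrt k hkk0 D hD hsD
  have hk0' : (0 : ℝ) < k := by exact_mod_cast hk00
  have hkn0 : (0 : ℝ) < ((k * n : ℕ) : ℝ) := by
    have : 0 < k * n := Nat.mul_pos hk00 hn1
    exact_mod_cast this
  -- measure preservation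
  have hDf : (⇑D.f : M → M) = C.f^[k * n] := funext hD.f
  have hmp : MeasurePreserving D.f mX mX := by
    rw [hDf]
    exact (hMSp f C.f hfm hC.rf).iterate (k * n)
  -- the integral of `c`
  have n1 : ∀ x : M, D.A x * P 1 x ≠ 0 := by
    intro x h0
    have h1 : D.B (D.f x) * (D.A x * P 1 x) = P 1 x := by
      rw [← mul_assoc, D.BA]
      exact hsD.TP x 1
    rw [h0, mul_zero] at h1
    exact hsD.ne x 1 h1.symm
  have n2 : ∀ x : M, D.B x * P 1 x ≠ 0 := by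
    intro x h0
    have h1 : D.A (D.f.symm x) * (D.B x * P 1 x) = P 1 x := by
      have h2 := D.AB (D.f.symm x)
      rw [Homeomorph.apply_symm_apply] at h2
      rw [← mul_assoc, h2]
      exact hsD.TP x 1
    rw [h0, mul_zero] at h1
    exact hsD.ne x 1 h1.symm
  have c1 : Continuous (fun x : M => max 0 (Real.log ‖D.A x * P 1 x‖)) :=
    cont_poslog (D.contA.mul (hsD.cont 1)) n1
  have c2 : Continuous (fun x : M => max 0 (Real.log ‖D.B x * P 1 x‖)) :=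
    cont_poslog (D.contB.mul (hsD.cont 1)) n2
  have c3 : Continuous (fun x : M => max 0 (Real.log ‖D.B (D.f x) * P 1 (D.f x)‖)) :=
    c2.comp D.f.continuous
  have hint : ∀ φ : M → ℝ, Continuous φ → Integrable φ mX := by
    intro φ hφ
    obtain ⟨B, hB⟩ := isCompact_univ.exists_bound_of_continuousOn (f := φ) hφ.continuousOn
    exact Integrable.of_bound hφ.aestronglyMeasurable B (ae_of_all _ fun x => hB x (mem_univ x))
  have hc2 : ∫ x, max 0 (Real.log ‖D.B (D.f x) * P 1 (D.f x)‖) ∂mX =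
      ∫ x, max 0 (Real.log ‖D.B x * P 1 x‖) ∂mX := by
    conv_rhs => rw [← hmp.map_eq]
    exact (integral_map hmp.measurable.aemeasurable c2.aestronglyMeasurable).symm
  have hcint : ∫ x, max 0 (max (Real.log ‖D.A x * P 1 x‖)
      (Real.log ‖D.B (D.f x) * P 1 (D.f x)‖)) ∂mX ≤ 2 * (τ * (k * n)) := by
    have h1 : ∫ x, max 0 (max (Real.log ‖D.A x * P 1 x‖)
        (Real.log ‖D.B (D.f x) * P 1 (D.f x)‖)) ∂mX ≤
        ∫ x, (max 0 (Real.log ‖D.A x * P 1 x‖) +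
          max 0 (Real.log ‖D.B (D.f x) * P 1 (D.f x)‖)) ∂mX := by
      refine integral_mono (hint _ hrates.contc)
        ((hint _ c1).add (hint _ c3)) fun x => ?_
      have p1 := le_max_left 0 (Real.log ‖D.A x * P 1 x‖)
      have p2 := le_max_right 0 (Real.log ‖D.A x * P 1 x‖)
      have p3 := le_max_left 0 (Real.log ‖D.B (D.f x) * P 1 (D.f x)‖)
      have p4 := le_max_right 0 (Real.log ‖D.B (D.f x) * P 1 (D.f x)‖)
      exact max_le (by linarith) (max_le (by linarith) (by linarith))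
    rw [integral_add (hint _ c1) (hint _ c3), hc2] at h1
    have h2 : ∫ x, max 0 (Real.log ‖D.A x * P 1 x‖) ∂mX ≤ τ * (k * n) := by
      have h3 : (∫ x, max 0 (Real.log ‖C.An (k * n) x * P 1 x‖) ∂mX) / ((k * n : ℕ) : ℝ) < τ :=
        hk1
      rw [div_lt_iff₀ hkn0] at h3
      simp only [hD.A]
      push_cast at h3
      exact h3.le
    have h4 : ∫ x, max 0 (Real.log ‖D.B x * P 1 x‖) ∂mX ≤ τ * (k * n) := by
      have h3 : (∫ x, max 0 (Real.log ‖C.inv.An (k * n) x * P 1 x‖) ∂mX) / ((k * n : ℕ) : ℝ)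
        < τ := hk2
      rw [div_lt_iff₀ hkn0] at h3
      simp only [hD.B]
      push_cast at h3
      exact h3.le
    linarith
  have hΛ : 0 < l * k := by positivity
  obtain ⟨x0, hx1, hx2, hx3⟩ := exists_good_sum hMX mX D.f hmp _ hrates.contc hrates.cpos
    (ε1 * (l * k)) (by positivity) (by
      rw [← hμu, ← mul_div_assoc, div_lt_iff₀ (by positivity)]
      have h1 : μu * (ε1 * (l * k)) = 8 * (τ * n) * k := by rw [hτ']; ring
      rw [h1]
      have h2 : 0 < τ * (k * n) := by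
        have : (0 : ℝ) < n := by exact_mod_cast hn1
        positivity
      linarith [show 8 * (τ * n) * k = 8 * (τ * (k * n)) by ring])
    (fun x : M => ∀ j : ℕ, 1 ≤ j → f^[j] (x : E K) ≠ x)
    (hMSae _ (hNM N K M m f f' P hSV hf hPH))
  -- balance
  have hκ : 0 < min κ1 κ2 := lt_min hκ1 hκ2
  have q1 : ∀ (j : ℕ) (x : M), min κ1 κ2 ≤ ‖D.An j x * P 0 x‖ * ‖D.An j x * P 2 x‖ *
      ‖D.An j x * P 1 x‖ ^ (N - 2) := fun j x => by
    rw [(hDn j x).2.2.1]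
    exact (min_le_left _ _).trans (hb1 _ x)
  have q2 : ∀ (j : ℕ) (x : M), min κ1 κ2 ≤ ‖D.inv.An j x * P 0 x‖ * ‖D.inv.An j x * P 2 x‖ *
      ‖D.inv.An j x * P 1 x‖ ^ (N - 2) := fun j x => by
    rw [(hDn j x).2.2.2]
    have h1 := hb2 (j * (k * n)) x
    rw [e0, e1, e2, mul_comm ‖C.inv.An (j * (k * n)) x * P 2 x‖] at h1
    exact (min_le_right _ _).trans h1
  obtain ⟨C1, hC1, g1⟩ := good_of (N := N) hBS hsD hrates hC0 hR1 (fun i x => hR x i) hκ q1 q2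
  have q1' : ∀ (j : ℕ) (x : M), min κ1 κ2 ≤ ‖D.inv.An j x * P (2 - 0) x‖ *
      ‖D.inv.An j x * P (2 - 2) x‖ * ‖D.inv.An j x * P (2 - 1) x‖ ^ (N - 2) := fun j x => by
    have h1 := q2 j x
    rw [mul_comm ‖D.inv.An j x * P 0 x‖] at h1
    exact h1
  have q2' : ∀ (j : ℕ) (x : M), min κ1 κ2 ≤ ‖D.inv.inv.An j x * P (2 - 0) x‖ *
      ‖D.inv.inv.An j x * P (2 - 2) x‖ * ‖D.inv.inv.An j x * P (2 - 1) x‖ ^ (N - 2) :=
    fun j x => by
    have h1 := q1 j x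
    rw [mul_comm ‖D.An j x * P 0 x‖] at h1
    exact h1
  obtain ⟨C2, hC2, g2⟩ := good_of (N := N) (P := fun i (x : M) => P (2 - i) x) hBS hsD.inv'
    hrates.inv hC0 hR1 (fun i x => hR x _) hκ q1' q2'
  have hbig : 3 * C0 + 4 ≤ ε * (l * k) := by
    have h1 : (3 * C0 + 4) / ε ≤ l * k := hk3
    rw [div_le_iff₀ hε] at h1
    linarith
  have hlog : (N + 2) * (C0 + Real.log R) ≤ ε / 2 * (l * k) := by
    have h1 : (N + 2) * (C0 + Real.log R) / (ε / 2) ≤ l * k := hk4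
    rw [div_le_iff₀ (by positivity)] at h1
    linarith
  have w1 := g1 (l * k) ε ε1 hΛ.le hε hε1 hNε1 hεε1 hlog x0 hx1
  have w2 := g2 (l * k) ε ε1 hΛ.le hε hε1 hNε1 hεε1 hlog x0 hx2
  refine ⟨k, D, _, _, _, C0, l * k, max C1 C2, x0, ⟨hD, hsD, hrates, hC0, hΛ,
    fun x => (hlow x).1, fun x => (hlow x).2, hbig, hx3, fun j => ⟨(w1 j).1, (w1 j).2.trans ?_⟩,
    fun j => ⟨(w2 j).1, (w2 j).2.trans ?_⟩⟩⟩
  · linarith [le_max_left C1 C2]
  · linarith [le_max_right C1 C2]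

end Pool.Agent.Helper56.RZ
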