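import Pool.Agent.Helper56.RZ.Fin0
import Pool.Agent.Helper56.RZ.GoalsD

/-!
# Project RZ, third theorem: the local functional on the manifold
-/

set_option autoImplicit false

open Set Filter Topology MeasureTheory

open scoped ContDiff

namespace Pool.Agent.Helper56.RZ

/-- the splitting at `H x`, pulled back to `x` -/
noncomputable def QH {K : ℕ} {M : Set (E K)} (P : Fin 3 → E K → End K) (H : Coc M K) (x : M)
    (i : Fin 3) : End K := H.B (H.f x) * P i (H.f x) * H.A x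

/-- the local functional on the manifold -/
noncomputable def PsM {K : ℕ} {M : Set (E K)} (P : Fin 3 → E K → End K) (H : Coc M K) (x : M) : ℝ :=
  Ps (fun i => P i x) (QH P H x)

section
variable {K : ℕ} {M : Set (E K)} {P : Fin 3 → E K → End K} {H : Coc M K}

theorem TB' (x : M) : H.T x * H.B (H.f x) = H.B (H.f x) := by
  have := H.TB (H.f x)
  rwa [Homeomorph.symm_apply_apply] at this

theorem QH_proj (hproj : ∀ x ∈ M, ∀ i j, P i x * P j x = if i = j then P i x else 0)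
    (hPT : ∀ (x : M) i, P i x * H.T x = P i x) (x : M) (i j : Fin 3) :
    QH P H x i * QH P H x j = if i = j then QH P H x i else 0 := by
  have h1 : QH P H x i * QH P H x j =
      H.B (H.f x) * (P i (H.f x) * (H.A x * H.B (H.f x)) * P j (H.f x)) * H.A x := by
    simp only [QH, mul_assoc]
  rw [h1, H.AB, hPT, hproj _ (H.f x).2]
  by_cases hij : i = j
  · rw [if_pos hij, if_pos hij, QH]
  · rw [if_neg hij, if_neg hij, mul_zero, zero_mul]

theorem QH_sum (hsum : ∀ x : M, P 0 x + P 1 x + P 2 x = H.T x) (x : M) :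
    QH P H x 0 + QH P H x 1 + QH P H x 2 = H.T x := by
  have h1 : QH P H x 0 + QH P H x 1 + QH P H x 2 =
      H.B (H.f x) * (P 0 (H.f x) + P 1 (H.f x) + P 2 (H.f x)) * H.A x := by
    simp only [QH]
    noncomm_ring
  rw [h1, hsum, H.BT, H.BA]

theorem QH_off (hPT : ∀ (x : M) i, P i x * H.T x = P i x)
    (hTP : ∀ (x : M) i, H.T x * P i x = P i x) (x : M) (hx : H.Off x) (i : Fin 3) :
    QH P H x i = P i x := by
  have h2 := hx.B
  rw [QH, hx.1, hx.2, h2, hTP, hPT]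

theorem Ph_self {K : ℕ} (P : End K) (h : P * P = P) : Ph P P = 0 := by
  have h1 : P * P * P + 1 - P = 1 := by
    rw [h, h]
    abel
  rw [Ph, h1, dt]
  simp

theorem PsM_off (hproj : ∀ x ∈ M, ∀ i j, P i x * P j x = if i = j then P i x else 0)
    (hPT : ∀ (x : M) i, P i x * H.T x = P i x)
    (hTP : ∀ (x : M) i, H.T x * P i x = P i x) (x : M) (hx : H.Off x) : PsM P H x = 0 := by
  have h1 : ∀ i : Fin 3, P i x * P i x = P i x := fun i => by rw [hproj x x.2, if_pos rfl]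
  rw [PsM, Ps, QH_off hPT hTP x hx, QH_off hPT hTP x hx, Ph_self _ (h1 0), Ph_self _ (h1 2), sub_zero]

/-- the off diagonal blocks in terms of the distance of the splittings -/
theorem off_of_QH (hproj : ∀ x ∈ M, ∀ i j, P i x * P j x = if i = j then P i x else 0)
    (hPT : ∀ (x : M) i, P i x * H.T x = P i x)
    (hTP : ∀ (x : M) i, H.T x * P i x = P i x) {κ R1 R2 : ℝ} (hκ : ∀ x i, ‖QH P H x i - P i x‖ ≤ κ)
    (hκ0 : 0 ≤ κ) (hR1 : ∀ (x : M) i, ‖P i x‖ ≤ R1) (hA : ∀ x, ‖H.A x‖ ≤ R2)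
    (hB : ∀ x, ‖H.B x‖ ≤ R2) (x : M) (i j : Fin 3) (hij : i ≠ j) :
    ‖P i (H.f x) * H.A x * P j x‖ ≤ R2 * κ * R1 ∧
      ‖P i x * H.B (H.f x) * P j (H.f x)‖ ≤ R1 * κ * R2 := by
  have hR10 : 0 ≤ R1 := (norm_nonneg _).trans (hR1 x 0)
  have hR20 : 0 ≤ R2 := (norm_nonneg _).trans (hA x)
  refine ⟨?_, ?_⟩
  · have h1 : P i (H.f x) * H.A x * P j x = H.A x * (QH P H x i - P i x) * P j x := by
      have e1 : H.A x * QH P H x i = P i (H.f x) * H.A x := by
        rw [QH, ← mul_assoc, ← mul_assoc, H.AB, hTP]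
      have e2 : H.A x * P i x * P j x = 0 := by
        rw [mul_assoc, hproj x x.2, if_neg hij, mul_zero]
      rw [mul_sub, sub_mul, e1, e2, sub_zero]
    rw [h1]
    refine (norm_mul_le _ _).trans ?_
    refine mul_le_mul ((norm_mul_le _ _).trans ?_) (hR1 x j) (norm_nonneg _) (by positivity)
    exact mul_le_mul (hA x) (hκ x i) (norm_nonneg _) hR20
  · have h1 : P i x * H.B (H.f x) * P j (H.f x) = P i x * (QH P H x j - P j x) * H.B (H.f x) := by
      have e1 : QH P H x j * H.B (H.f x) = H.B (H.f x) * P j (H.f x) := by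
        rw [QH, mul_assoc, H.AB, mul_assoc, hPT]
      have e2 : P i x * P j x * H.B (H.f x) = 0 := by
        rw [hproj x x.2, if_neg hij, zero_mul]
      rw [mul_sub, sub_mul, e2, sub_zero, mul_assoc, mul_assoc, e1]
    rw [h1]
    refine (norm_mul_le _ _).trans ?_
    refine mul_le_mul ((norm_mul_le _ _).trans ?_) (hB _) (norm_nonneg _) (by positivity)
    exact mul_le_mul (hR1 x i) (hκ x j) (norm_nonneg _) hR10

/-- the exact integrand and the local functional -/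
theorem lcx {C : Coc M K} {e : H.T = C.T} {e' : H.inv.T = C.T} {n : ℕ} {ck lk κk : ℝ}
    {Q Q' : Fin 3 → M → End K} {Γ Γ' : M → End K}
    (hproj : ∀ x ∈ M, ∀ i j, P i x * P j x = if i = j then P i x else 0)
    (hsum : ∀ x : M, P 0 x + P 1 x + P 2 x = H.T x)
    (hPT : ∀ (x : M) i, P i x * H.T x = P i x)
    (o : Out C H e (fun i (x : M) => P i x) n ck lk κk Q Γ)
    (o' : Out C H.inv e' (fun i (x : M) => P i x) n ck lk κk Q' Γ')
    (hck : 1 ≤ ck) (hlk : 0 < lk) (hlk1 : lk < 1) (hκk : 0 ≤ κk)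
    {R2 R c δ κ : ℝ} (hR2 : 1 ≤ R2) (hA : ∀ x, ‖H.A x‖ ≤ R2) (hB : ∀ x, ‖H.B x‖ ≤ R2)
    (hR : ∀ (x : M) i, ‖P i x‖ ≤ R) (hκ : ∀ x i, ‖QH P H x i - P i x‖ ≤ κ) (hκδ : κ ≤ δ)
    (heδ : R2 ^ 2 * (ck * κk) ≤ δ)
    (hLC : ∀ (P Q : Fin 3 → End K) (T G G' : End K) (κ e : ℝ),
      (∀ i j, P i * P j = if i = j then P i else 0) → P 0 + P 1 + P 2 = T →
      (∀ i j, Q i * Q j = if i = j then Q i else 0) → Q 0 + Q 1 + Q 2 = T →
      (∀ i, ‖P i‖ ≤ R) → (∀ i, ‖Q i - P i‖ ≤ κ) → κ ≤ δ → 0 ≤ e → e ≤ δ →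
      T * G = G → G * P 1 = G → P 1 * G = P 1 → ‖P 0 * G‖ ≤ e → ‖Q 2 * G‖ ≤ e →
      T * G' = G' → G' * Q 1 = G' → Q 1 * G' = Q 1 → ‖Q 0 * G'‖ ≤ e → ‖P 2 * G'‖ ≤ e →
      |Real.log |dt (1 + (P 1 * G' * Q 1 * G - P 1))| - Ps P Q| ≤ c * κ * e)
    (J : ℕ) (x : M)
    (h1 : ∀ j, 1 ≤ j → j ≤ J → H.Off ((C.comp H e).f.symm^[j] x))
    (h2 : ∀ j, 1 ≤ j → j ≤ J → H.Off ((C.comp H e).f^[j] x))
    (h3 : ∀ j, 1 ≤ j → j ≤ J → H.inv.Off ((C.comp H.inv e').f.symm^[j] (H.f x)))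
    (h4 : ∀ j, 1 ≤ j → j ≤ J → H.inv.Off ((C.comp H.inv e').f^[j] (H.f x))) :
    |Real.log |dt (1 + ZZ P H Γ Γ' x)| - PsM P H x| ≤
      c * κ * (R2 ^ 2 * (ck * κk)) * lk ^ J := by
  have hR20 : 0 ≤ R2 := by linarith
  have hl0 : 0 ≤ lk ^ J := by positivity
  have hl1 : lk ^ J ≤ 1 := pow_le_one₀ hlk.le hlk1.le
  have hck0 : 0 ≤ ck * κk := by positivity
  have g1 := o.past J x h1
  have g2 := o.fut J x h2
  have g3 := o'.past J (H.f x) h3
  have g4 := o'.fut J (H.f x) h4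
  have g5 : ‖P 2 x * H.B (H.f x) * Γ' (H.f x)‖ ≤ ck * lk ^ J * κk := by
    have e1 : H.inv.f (H.f x) = x := H.f.symm_apply_apply x
    rw [e1] at g4
    exact g4
  set b : ℝ := ck * lk ^ J * κk with hb
  have hb0 : 0 ≤ b := by positivity
  have hbe : R2 ^ 2 * b = R2 ^ 2 * (ck * κk) * lk ^ J := by rw [hb]; ring
  have hble : b ≤ R2 ^ 2 * b := by
    have : (1 : ℝ) ≤ R2 ^ 2 := one_le_pow₀ hR2
    nlinarith
  have hble2 : R2 * b ≤ R2 ^ 2 * b := by
    have : R2 ≤ R2 ^ 2 := by nlinarith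
    exact mul_le_mul_of_nonneg_right this hb0
  have hbδ : R2 ^ 2 * b ≤ δ := by
    rw [hbe]
    exact (mul_le_of_le_one_right (by positivity) hl1).trans heδ
  have hTG : H.T x * Γ x = Γ x := o.TG x
  have hTG' : H.T (H.f x) * Γ' (H.f x) = Γ' (H.f x) := o'.TG _
  have hGT' : Γ' (H.f x) * H.T (H.f x) = Γ' (H.f x) := by
    have := o'.lift.GP (H.f x)
    rw [← this, mul_assoc, hPT]
  set G' : End K := H.B (H.f x) * Γ' (H.f x) * H.A x with hG'
  have hz : P 1 x * G' * QH P H x 1 * Γ x - P 1 x = ZZ P H Γ Γ' x := by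
    have e1 : P 1 x * G' * QH P H x 1 * Γ x = P 1 x * H.B (H.f x) *
        (Γ' (H.f x) * (H.A x * H.B (H.f x))) * P 1 (H.f x) * H.A x * Γ x := by
      simp only [hG', QH, mul_assoc]
    rw [e1, H.AB, hGT', ZZ]
  have key := hLC (fun i => P i x) (QH P H x) (H.T x) (Γ x) G' κ (R2 ^ 2 * b)
    (hproj x x.2) (hsum x) (QH_proj hproj hPT x) (QH_sum hsum x) (fun i => hR x i) (hκ x) hκδ
    (by positivity) hbδ hTG (o.lift.GP x) (o.lift.PG x) (g1.trans hble) ?_ ?_ ?_ ?_ ?_ ?_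
  · change |Real.log |dt (1 + (P 1 x * G' * QH P H x 1 * Γ x - P 1 x))| - PsM P H x| ≤ _ at key
    rw [hz] at key
    refine key.trans (le_of_eq ?_)
    rw [hbe]
    ring
  · have e1 : QH P H x 2 * Γ x = H.B (H.f x) * (P 2 (H.f x) * H.A x * Γ x) := by
      simp only [QH, mul_assoc]
    rw [e1]
    refine ((norm_mul_le _ _).trans (mul_le_mul (hB _) g2 (norm_nonneg _) hR20)).trans hble2
  · rw [hG', ← mul_assoc, ← mul_assoc, TB']
  · have e1 : G' * QH P H x 1 = H.B (H.f x) *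
        ((Γ' (H.f x) * (H.A x * H.B (H.f x))) * P 1 (H.f x)) * H.A x := by
      simp only [hG', QH, mul_assoc]
    rw [e1, H.AB, hGT', o'.lift.GP]
  · have e1 : QH P H x 1 * G' = H.B (H.f x) *
        ((P 1 (H.f x) * (H.A x * H.B (H.f x))) * Γ' (H.f x)) * H.A x := by
      simp only [hG', QH, mul_assoc]
    rw [e1, H.AB, hPT, o'.lift.PG, QH]
  · have e1 : QH P H x 0 * G' = H.B (H.f x) *
        ((P 0 (H.f x) * (H.A x * H.B (H.f x))) * Γ' (H.f x)) * H.A x := by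
      simp only [hG', QH, mul_assoc]
    rw [e1, H.AB, hPT]
    refine (norm_mul_le _ _).trans ?_
    have e2 : R2 ^ 2 * b = R2 * b * R2 := by ring
    rw [e2]
    refine mul_le_mul ((norm_mul_le _ _).trans ?_) (hA x) (norm_nonneg _) (by positivity)
    exact mul_le_mul (hB _) g3 (norm_nonneg _) hR20
  · have e1 : P 2 x * G' = (P 2 x * H.B (H.f x) * Γ' (H.f x)) * H.A x := by
      simp only [hG', mul_assoc]
    change ‖P 2 x * G'‖ ≤ _
    rw [e1]
    refine ((norm_mul_le _ _).trans (mul_le_mul g5 (hA x) (norm_nonneg _) hb0)).trans ?_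
    rw [mul_comm]
    exact hble2

end

end Pool.Agent.Helper56.RZ
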