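import Pool.Agent.Helper56.RZ.FinP

/-!
# Project RZ, third theorem: points of the support
-/

set_option autoImplicit false

open Set Filter Topology MeasureTheory

open scoped ContDiff

namespace Pool.Agent.Helper56.RZ

namespace Two

variable {N K : ℕ} {U U' : End K} {P P' : Fin 3 → End K} {D D' : End K}
  {u u' : E N →L[ℝ] E K} {v v' : E K →L[ℝ] E N} (h : Two U U' P P' D D' u u' v v')

include h

theorem conj_chart (i : Fin 3) : v ∘L (D' * P' i * D) ∘L u =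
    (v ∘L D' ∘L u') * (v' ∘L P' i ∘L u') * (v' ∘L D ∘L u) := by
  ext1 w
  change v (D' (P' i (D (u w)))) = v (D' (u' (v' (P' i (u' (v' (D (u w))))))))
  have h1 : U' (D (u w)) = D (u w) := DFunLike.congr_fun h.UD _
  have h2 := h.swap.uvUw (D (u w))
  rw [h1] at h2
  rw [h2, h.swap.uvP]

theorem back2 (A : End K) (h1 : U * A = A) (h2 : A * U = A) :
    A = u ∘L (v ∘L A ∘L u) ∘L v ∘L U := by
  ext1 w
  change A w = u (v (A (u (v (U w)))))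
  rw [h.uvUw]
  have e1 : A (U w) = A w := DFunLike.congr_fun h2 w
  have e2 : U (A w) = A w := DFunLike.congr_fun h1 w
  have e3 := h.uvUw (A w)
  rw [e2] at e3
  rw [e1, e3]

theorem back2_norm (A : End K) (h1 : U * A = A) (h2 : A * U = A) {R b : ℝ} (hR : 0 ≤ R)
    (hu : ‖u‖ ≤ R) (hv : ‖v‖ ≤ R) (hU : ‖U‖ ≤ R) (hb : ‖v ∘L A ∘L u‖ ≤ b) : ‖A‖ ≤ R ^ 3 * b := by
  rw [h.back2 A h1 h2]
  have hb0 : 0 ≤ b := (norm_nonneg _).trans hb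
  calc ‖u ∘L (v ∘L A ∘L u) ∘L v ∘L U‖
      ≤ ‖u‖ * ‖(v ∘L A ∘L u) ∘L v ∘L U‖ := ContinuousLinearMap.opNorm_comp_le _ _
    _ ≤ ‖u‖ * (‖v ∘L A ∘L u‖ * ‖v ∘L U‖) :=
        mul_le_mul_of_nonneg_left (ContinuousLinearMap.opNorm_comp_le _ _) (norm_nonneg _)
    _ ≤ R * (b * (R * R)) := by
        refine mul_le_mul hu (mul_le_mul hb ?_ (norm_nonneg _) hb0) (by positivity) hR
        exact (ContinuousLinearMap.opNorm_comp_le _ _).trans (mul_le_mul hv hU (norm_nonneg _) hR)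
    _ = R ^ 3 * b := by ring

end Two

/-- elementary estimate for the conjugated projection -/
theorem conj_bd {N : ℕ} (p p' D D' : End N) {κ0 μ R : ℝ} (hp : ‖p‖ ≤ R) (hμ0 : 0 ≤ μ)
    (hμ : μ ≤ 1) (hκ : ‖p' - p‖ ≤ κ0) (hD : ‖D - 1‖ ≤ μ) (hD' : ‖D' - 1‖ ≤ μ) :
    ‖D' * p' * D - p‖ ≤ 4 * κ0 + 3 * R * μ := by
  have h1 : ‖(1 : End N)‖ ≤ 1 := ContinuousLinearMap.norm_id_le
  have hκ0 : 0 ≤ κ0 := (norm_nonneg _).trans hκ
  have hR0 : 0 ≤ R := (norm_nonneg _).trans hp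
  have hD2 : ‖D‖ ≤ 2 := by
    have := norm_le_norm_add_norm_sub' D 1
    linarith
  have hD2' : ‖D'‖ ≤ 2 := by
    have := norm_le_norm_add_norm_sub' D' 1
    linarith
  have e : D' * p' * D - p = D' * (p' - p) * D + (D' - 1) * p * D + p * (D - 1) := by
    simp only [mul_sub, sub_mul, one_mul, mul_one]
    abel
  rw [e]
  refine (norm_add₃_le).trans ?_
  have a1 : ‖D' * (p' - p) * D‖ ≤ 2 * κ0 * 2 := by
    refine (norm_mul_le _ _).trans (mul_le_mul ((norm_mul_le _ _).trans ?_) hD2 (norm_nonneg _)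
      (by positivity))
    exact mul_le_mul hD2' hκ (norm_nonneg _) (by norm_num)
  have a2 : ‖(D' - 1) * p * D‖ ≤ μ * R * 2 := by
    refine (norm_mul_le _ _).trans (mul_le_mul ((norm_mul_le _ _).trans ?_) hD2 (norm_nonneg _)
      (by positivity))
    exact mul_le_mul hD' hp (norm_nonneg _) hμ0
  have a3 : ‖p * (D - 1)‖ ≤ R * μ :=
    (norm_mul_le _ _).trans (mul_le_mul hp hD (norm_nonneg _) hR0)
  linarith

/-- all facts at a point `x = ψ (y + ρ s)` of the support -/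
structure Pu {N K : ℕ} {M : Set (E K)} (c : Chart N K M) (P : Fin 3 → E K → End K)
    {p : Fin 3 → End N} (d : Tw N p) (y : E N) (ρ t : ℝ) (H : Coc M K) (x : M) (s : E N) :
    Prop where
  two : Two (H.T x) (H.T (H.f x)) (fun i => P i x) (fun i => P i (H.f x)) (H.A x) (H.B (H.f x))
      (fderiv ℝ c.ψ (y + ρ • s)) (fderiv ℝ c.ψ (y + ρ • d.Ha th2 t s))
      (fderiv ℝ c.φ (c.ψ (y + ρ • s))) (fderiv ℝ c.φ (c.ψ (y + ρ • d.Ha th2 t s)))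
  hx : (x : E K) = c.ψ (y + ρ • s)
  hx' : (H.f x : E K) = c.ψ (y + ρ • d.Ha th2 t s)
  eA : (fderiv ℝ c.φ (c.ψ (y + ρ • d.Ha th2 t s))) ∘L H.A x ∘L (fderiv ℝ c.ψ (y + ρ • s)) =
      fderiv ℝ (d.Ha th2 t) s
  eB : (fderiv ℝ c.φ (c.ψ (y + ρ • s))) ∘L H.B (H.f x) ∘L
      (fderiv ℝ c.ψ (y + ρ • d.Ha th2 t s)) = fderiv ℝ (d.Ha th2 (-t)) (d.Ha th2 t s)

theorem pu_mk (hT1 : StmtT1) {N K : ℕ} {M : Set (E K)} {c : Chart N K M}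
    {P : Fin 3 → E K → End K} {p : Fin 3 → End N} {d : Tw N p} {y : E N} {ρ t : ℝ}
    {H : Coc M K} (hproj : ∀ x ∈ M, ∀ i j, P i x * P j x = if i = j then P i x else 0)
    (hsum : ∀ x ∈ M, P 0 x + P 1 x + P 2 x = Pi M x)
    (hR : Rep H (hMa c d th2 y ρ t) (hMa c d th2 y ρ (-t)))
    (hFit : Fit c d y ρ)
    (hmap : ∀ s, d.q s ≤ 1 → hMa c d th2 y ρ t (c.ψ (y + ρ • s)) = c.ψ (y + ρ • d.Ha th2 t s))
    (hder : ∀ s, d.q s ≤ 1 → (fderiv ℝ c.φ (c.ψ (y + ρ • d.Ha th2 t s))) ∘L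
      (der M (hMa c d th2 y ρ t) (c.ψ (y + ρ • s))) ∘L (fderiv ℝ c.ψ (y + ρ • s)) =
      fderiv ℝ (d.Ha th2 t) s)
    (hder' : ∀ s, d.q s ≤ 1 → (fderiv ℝ c.φ (c.ψ (y + ρ • d.Ha th2 (-t) s))) ∘L
      (der M (hMa c d th2 y ρ (-t)) (c.ψ (y + ρ • s))) ∘L (fderiv ℝ c.ψ (y + ρ • s)) =
      fderiv ℝ (d.Ha th2 (-t)) s)
    (hqH : ∀ t z, d.q (d.Ha th2 t z) = d.q z) (hHH : ∀ t z, d.Ha th2 (-t) (d.Ha th2 t z) = z)
    (x : M) (s : E N) (hs : d.q s ≤ 1) (hx : (x : E K) = c.ψ (y + ρ • s)) :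
    Pu c P d y ρ t H x s := by
  have hx' : (H.f x : E K) = c.ψ (y + ρ • d.Ha th2 t s) := by rw [hR.rf, hx, hmap s hs]
  have h2 := two hT1 hproj hsum hR x _ _ (hFit s hs) (hFit _ (by rw [hqH]; exact hs)) hx hx'
  refine ⟨h2, hx, hx', ?_, ?_⟩
  · rw [hR.rA, hx]
    exact hder s hs
  · rw [hR.rB, hx']
    have := hder' (d.Ha th2 t s) (by rw [hqH]; exact hs)
    rwa [hHH] at this

namespace Pu

variable {N K : ℕ} {M : Set (E K)} {c : Chart N K M} {P : Fin 3 → E K → End K}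
  {p : Fin 3 → End N} {d : Tw N p} {y : E N} {ρ t : ℝ} {H : Coc M K} {x : M} {s : E N}

theorem psm (h : Pu c P d y ρ t H x s) (hTF : StmtTF) : PsM P H x = Fl d (phat c P) ρ t y s := by
  have hTF' := hTF N K (H.T x) (H.T (H.f x)) (fun i => P i x) (fun i => P i (H.f x)) (H.A x)
    (H.B (H.f x)) _ _ _ _ h.two.proj h.two.sum h.two.proj' h.two.sum' h.two.vu h.two.vu' h.two.Uu
    h.two.Uu' h.two.uvU h.two.uvU' h.two.DU h.two.UD h.two.DU' h.two.UD'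
  have p1 : ∀ i, phat c P i (y + ρ • s) = (fderiv ℝ c.φ (c.ψ (y + ρ • s))) ∘L (P i x) ∘L
      (fderiv ℝ c.ψ (y + ρ • s)) := fun i => by rw [h.hx]; rfl
  have p2 : ∀ i, phat c P i (y + ρ • d.Ha th2 t s) =
      (fderiv ℝ c.φ (c.ψ (y + ρ • d.Ha th2 t s))) ∘L (P i (H.f x)) ∘L
      (fderiv ℝ c.ψ (y + ρ • d.Ha th2 t s)) := fun i => by rw [h.hx']; rfl
  have e1 : ∀ i, Ph (P i x) (QH P H x i) = Ph (phat c P i (y + ρ • s))
      (fderiv ℝ (d.Ha th2 (-t)) (d.Ha th2 t s) * phat c P i (y + ρ • d.Ha th2 t s) *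
        fderiv ℝ (d.Ha th2 t) s) := fun i => by
    rw [p1, p2, ← h.eA, ← h.eB]
    exact hTF' i
  rw [PsM, Ps, e1, e1]
  rfl

theorem bd (h : Pu c P d y ρ t H x s) {R0 RP κ0 μ : ℝ} (hR0 : 0 ≤ R0)
    (nu : ‖fderiv ℝ c.ψ (y + ρ • s)‖ ≤ R0) (nv : ‖fderiv ℝ c.φ (c.ψ (y + ρ • s))‖ ≤ R0)
    (nT : ‖H.T x‖ ≤ R0) (hRP : ∀ (x : M) i, ‖P i x‖ ≤ RP) (hμ0 : 0 ≤ μ) (hμ : μ ≤ 1)
    (hκ : ∀ i, ‖phat c P i (y + ρ • d.Ha th2 t s) - phat c P i (y + ρ • s)‖ ≤ κ0)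
    (hD : ‖fderiv ℝ (d.Ha th2 t) s - 1‖ ≤ μ)
    (hD' : ‖fderiv ℝ (d.Ha th2 (-t)) (d.Ha th2 t s) - 1‖ ≤ μ)
    (hPT : ∀ (x : M) i, P i x * H.T x = P i x)
    (hTP : ∀ (x : M) i, H.T x * P i x = P i x) (i : Fin 3) :
    ‖QH P H x i - P i x‖ ≤ R0 ^ 3 * (4 * κ0 + 3 * (R0 * RP * R0) * μ) := by
  have p1 : phat c P i (y + ρ • s) = (fderiv ℝ c.φ (c.ψ (y + ρ • s))) ∘L (P i x) ∘L
      (fderiv ℝ c.ψ (y + ρ • s)) := by rw [h.hx]; rfl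
  have p2 : phat c P i (y + ρ • d.Ha th2 t s) =
      (fderiv ℝ c.φ (c.ψ (y + ρ • d.Ha th2 t s))) ∘L (P i (H.f x)) ∘L
      (fderiv ℝ c.ψ (y + ρ • d.Ha th2 t s)) := by rw [h.hx']; rfl
  have hRP0 : 0 ≤ RP := (norm_nonneg _).trans (hRP x 0)
  have n1 : ‖phat c P i (y + ρ • s)‖ ≤ R0 * RP * R0 := by
    rw [p1]
    refine (ContinuousLinearMap.opNorm_comp_le _ _).trans ?_
    calc ‖fderiv ℝ c.φ (c.ψ (y + ρ • s))‖ * ‖(P i x) ∘L (fderiv ℝ c.ψ (y + ρ • s))‖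
        ≤ R0 * (RP * R0) := by
          refine mul_le_mul nv ?_ (norm_nonneg _) hR0
          exact (ContinuousLinearMap.opNorm_comp_le _ _).trans
            (mul_le_mul (hRP x i) nu (norm_nonneg _) hRP0)
      _ = R0 * RP * R0 := by ring
  have h1 := conj_bd (phat c P i (y + ρ • s)) (phat c P i (y + ρ • d.Ha th2 t s))
    (fderiv ℝ (d.Ha th2 t) s) (fderiv ℝ (d.Ha th2 (-t)) (d.Ha th2 t s)) n1 hμ0 hμ (hκ i) hD hD'
  have h2 := h.two.conj_chart i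
  rw [h.eA, h.eB, ← p2] at h2
  have h3 : (fderiv ℝ c.φ (c.ψ (y + ρ • s))) ∘L (QH P H x i - P i x) ∘L
      (fderiv ℝ c.ψ (y + ρ • s)) = fderiv ℝ (d.Ha th2 (-t)) (d.Ha th2 t s) *
      phat c P i (y + ρ • d.Ha th2 t s) * fderiv ℝ (d.Ha th2 t) s - phat c P i (y + ρ • s) := by
    rw [← h2, p1]
    ext1 w
    simp [QH]
  rw [← h3] at h1
  refine h.two.back2_norm _ ?_ ?_ hR0 nu nv nT h1
  · rw [mul_sub, hTP, QH, ← mul_assoc, ← mul_assoc, TB']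
  · rw [sub_mul, hPT, QH, mul_assoc, H.AT]

end Pu

end Pool.Agent.Helper56.RZ
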