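import Pool.Agent.Helper56.RZ.FinQ

/-!
# Project RZ, third theorem: the exact identity and the local functional
-/

set_option autoImplicit false

open Set Filter Topology MeasureTheory

open scoped ContDiff

namespace Pool.Agent.Helper56.RZ

theorem meas_sub {K : ℕ} {M : Set (E K)} (hM : IsCompact M) (m : Measure (E K)) (S : Set (E K))
    (hS : S ⊆ M) : (m.comap ((↑) : M → E K)) {x : M | (x : E K) ∈ S} = m S := by
  rw [comap_subtype_coe_apply hM.isClosed.measurableSet]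
  congr 1
  ext x
  constructor
  · rintro ⟨z, hz, rfl⟩
    exact hz
  · intro hx
    exact ⟨⟨x, hS hx⟩, hx, rfl⟩

section
variable {K : ℕ} {M : Set (E K)} {P : Fin 3 → E K → End K} {H : Coc M K}

theorem cont_QH (hcont : ∀ i, Continuous fun x : M => P i x) (i : Fin 3) :
    Continuous (fun x => QH P H x i) :=
  ((H.contB.comp H.f.continuous).mul ((hcont i).comp H.f.continuous)).mul H.contA

theorem cont_Ph {X : Type} [TopologicalSpace X] {P Q : X → End K} (hP : Continuous P)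
    (hQ : Continuous Q) (hPP : ∀ x, P x * P x = P x)
    (hs : ∀ x, ‖P x * (Q x - P x) * P x‖ < 1) : Continuous (fun x => Ph (P x) (Q x)) := by
  have h1 : ∀ x, P x * Q x * P x + 1 - P x = 1 + P x * (Q x - P x) * P x := fun x => by
    have : P x * (Q x - P x) * P x = P x * Q x * P x - P x := by
      rw [mul_sub, sub_mul, hPP, hPP]
    rw [this]
    abel
  unfold Ph dt
  refine Continuous.log (cont_det (((hP.mul hQ).mul hP).add continuous_const |>.sub hP)).abs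
    fun x => ?_
  rw [h1]
  exact abs_ne_zero.2 (det_ne_zero (hs x))

theorem cont_PsM (hcont : ∀ i, Continuous fun x : M => P i x)
    (hproj : ∀ x ∈ M, ∀ i j, P i x * P j x = if i = j then P i x else 0) {RP κ : ℝ}
    (hRP : ∀ (x : M) i, ‖P i x‖ ≤ RP) (hκ : ∀ x i, ‖QH P H x i - P i x‖ ≤ κ)
    (hs : RP * κ * RP < 1) : Continuous (PsM P H) := by
  have h1 : ∀ i, Continuous (fun x : M => Ph (P i x) (QH P H x i)) := fun i => by
    refine cont_Ph (hcont i) (cont_QH hcont i) (fun x => by rw [hproj x x.2, if_pos rfl])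
      fun x => lt_of_le_of_lt ?_ hs
    have hκ0 : 0 ≤ κ := (norm_nonneg _).trans (hκ x i)
    have hRP0 : 0 ≤ RP := (norm_nonneg _).trans (hRP x i)
    refine (norm_mul_le _ _).trans (mul_le_mul ((norm_mul_le _ _).trans ?_) (hRP x i)
      (norm_nonneg _) (by positivity))
    exact mul_le_mul (hRP x i) (hκ x i) (norm_nonneg _) hRP0
  exact (h1 0).sub (h1 2)

theorem zz_bd {C : Coc M K} {e : H.T = C.T} {e' : H.inv.T = C.T} {n : ℕ} {ck lk κk : ℝ}
    {Q Q' : Fin 3 → M → End K} {Γ Γ' : M → End K}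
    (hproj : ∀ x ∈ M, ∀ i j, P i x * P j x = if i = j then P i x else 0)
    (hPT : ∀ (x : M) i, P i x * H.T x = P i x)
    (o : Out C H e (fun i (x : M) => P i x) n ck lk κk Q Γ)
    (o' : Out C H.inv e' (fun i (x : M) => P i x) n ck lk κk Q' Γ')
    {R2 RP κ : ℝ} (hA : ∀ x, ‖H.A x‖ ≤ R2) (hB : ∀ x, ‖H.B x‖ ≤ R2)
    (hRP : ∀ (x : M) i, ‖P i x‖ ≤ RP) (hκ : ∀ x i, ‖QH P H x i - P i x‖ ≤ κ) (hκ1 : κ ≤ 1)
    (hk1 : ck * κk ≤ 1) (x : M) :
    ‖ZZ P H Γ Γ' x‖ ≤ RP * κ * (RP + 1) + RP * (R2 * (ck * κk) * R2) * (RP + 1) * (RP + 1) := by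
  have hκ0 : 0 ≤ κ := (norm_nonneg _).trans (hκ x 0)
  have hRP0 : 0 ≤ RP := (norm_nonneg _).trans (hRP x 0)
  have hR20 : 0 ≤ R2 := (norm_nonneg _).trans (hA x)
  have hk0 : 0 ≤ ck * κk := (norm_nonneg _).trans (o.liftc x)
  have hPP : ∀ x : M, P 1 x * P 1 x = P 1 x := fun x => by rw [hproj x x.2, if_pos rfl]
  have hG : ‖Γ x‖ ≤ RP + 1 := by
    have h1 := norm_le_norm_add_norm_sub' (Γ x) (P 1 x)
    have h2 : ‖Γ x - P 1 x‖ ≤ ck * κk := o.liftc x
    linarith [hRP x 1]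
  have hQ1 : ‖QH P H x 1‖ ≤ RP + 1 := by
    have h1 := norm_le_norm_add_norm_sub' (QH P H x 1) (P 1 x)
    linarith [hκ x 1, hRP x 1]
  have hGT' : Γ' (H.f x) * H.T (H.f x) = Γ' (H.f x) := by
    have := o'.lift.GP (H.f x)
    rw [← this, mul_assoc, hPT]
  have hPG : P 1 x * Γ x = P 1 x := o.lift.PG x
  have hQQ : QH P H x 1 * QH P H x 1 = QH P H x 1 := by
    rw [QH_proj hproj hPT, if_pos rfl]
  have e1 : ZZ P H Γ Γ' x = P 1 x * (QH P H x 1 - P 1 x) * Γ x +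
      P 1 x * (H.B (H.f x) * (Γ' (H.f x) - P 1 (H.f x)) * H.A x) * QH P H x 1 * Γ x := by
    have e2 : P 1 x * (H.B (H.f x) * Γ' (H.f x) * H.A x) * QH P H x 1 * Γ x =
        P 1 x * H.B (H.f x) * (Γ' (H.f x) * (H.A x * H.B (H.f x))) * P 1 (H.f x) * H.A x *
          Γ x := by
      simp only [QH, mul_assoc]
    rw [H.AB, hGT'] at e2
    have e3 : P 1 x * (H.B (H.f x) * P 1 (H.f x) * H.A x) * QH P H x 1 * Γ x =
        P 1 x * QH P H x 1 * Γ x := by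
      change P 1 x * QH P H x 1 * QH P H x 1 * Γ x = _
      rw [mul_assoc (P 1 x), hQQ]
    have e4 : P 1 x * P 1 x * Γ x = P 1 x := by rw [hPP, hPG]
    have e5 : P 1 x * (QH P H x 1 - P 1 x) * Γ x = P 1 x * QH P H x 1 * Γ x - P 1 x := by
      rw [mul_sub, sub_mul, e4]
    have e6 : P 1 x * (H.B (H.f x) * (Γ' (H.f x) - P 1 (H.f x)) * H.A x) * QH P H x 1 * Γ x =
        P 1 x * (H.B (H.f x) * Γ' (H.f x) * H.A x) * QH P H x 1 * Γ x -
        P 1 x * (H.B (H.f x) * P 1 (H.f x) * H.A x) * QH P H x 1 * Γ x := by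
      simp only [mul_sub, sub_mul]
    rw [e5, e6, e2, e3, ZZ]
    abel
  rw [e1]
  refine (norm_add_le _ _).trans (add_le_add ?_ ?_)
  · refine (norm_mul_le _ _).trans (mul_le_mul ((norm_mul_le _ _).trans ?_) hG (norm_nonneg _)
      (by positivity))
    exact mul_le_mul (hRP x 1) (hκ x 1) (norm_nonneg _) hRP0
  · refine (norm_mul_le _ _).trans (mul_le_mul ((norm_mul_le _ _).trans ?_) hG (norm_nonneg _)
      (by positivity))
    refine mul_le_mul ((norm_mul_le _ _).trans ?_) hQ1 (norm_nonneg _) (by positivity)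
    refine mul_le_mul (hRP x 1) ?_ (norm_nonneg _) hRP0
    refine (norm_mul_le _ _).trans (mul_le_mul ((norm_mul_le _ _).trans ?_) (hA x)
      (norm_nonneg _) (by positivity))
    exact mul_le_mul (hB _) (o'.liftc (H.f x)) (norm_nonneg _) hR20

end

/-- the support is compact -/
theorem bs_compact {N K : ℕ} {M : Set (E K)} {c : Chart N K M} {p : Fin 3 → End N} {d : Tw N p}
    {y : E N} {ρ : ℝ} (hFit : Fit c d y ρ) (hqc : IsCompact {s : E N | d.q s ≤ 1}) :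
    IsCompact (Bs c d y ρ) ∧ Bs c d y ρ ⊆ M := by
  have h1 : Bs c d y ρ = (fun s => c.ψ (y + ρ • s)) '' {s : E N | d.q s ≤ 1} := by
    ext x
    constructor
    · rintro ⟨s, hs, hx⟩
      exact ⟨s, hs, hx.symm⟩
    · rintro ⟨s, hs, hx⟩
      exact ⟨s, hs, hx.symm⟩
  refine ⟨?_, ?_⟩
  · rw [h1]
    refine hqc.image_of_continuousOn ?_
    have hl : ContinuousOn (fun s : E N => y + ρ • s) {s : E N | d.q s ≤ 1} := by fun_prop
    exact c.smoothψ.continuousOn.comp hl fun s hs => hFit s hs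
  · rintro x ⟨s, hs, rfl⟩
    exact (c.mapsψ _ (hFit s hs)).1

/-- the estimate for one perturbation -/
theorem hb_core (hOB : StmtOB) (hRS : StmtRS) (hINT : StmtINT) (hMS : StmtMS) (hTF : StmtTF)
    {N K : ℕ} {M : Set (E K)} {m : Measure (E K)} {f f' : E K → E K} {P : Fin 3 → E K → End K}
    (hSV : SmoothVolume N K M m) (hfm : Preserves M m f) (hPH : PH M f f' P)
    {C H : Coc M K} (hC : Rep C f f') (e : H.T = C.T) (e' : H.inv.T = C.T)
    {c : Chart N K M} (hvol : ∀ A : Set (E N), MeasurableSet A → A ⊆ c.V → m (c.ψ '' A) = volume A)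
    {p : Fin 3 → End N} (hp : Proj3 p) {d : Tw N p} (hqc : IsCompact {s : E N | d.q s ≤ 1})
    {y : E N} {ρ t : ℝ} (hρ : 0 < ρ) (hFit : Fit c d y ρ)
    (hRH : Rep H (hMa c d th2 y ρ t) (hMa c d th2 y ρ (-t)))
    (hvh : Preserves M m (hMa c d th2 y ρ t))
    (hOff : ∀ x : M, (¬ ∃ s, d.q s ≤ 1 ∧ (x : E K) = c.ψ (y + ρ • s)) → H.Off x)
    (hbij : ∀ x : M, (H.f x : E K) ∈ Bs c d y ρ ↔ (x : E K) ∈ Bs c d y ρ)
    (hpu : ∀ (x : M) (s : E N), d.q s ≤ 1 → (x : E K) = c.ψ (y + ρ • s) →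
      Pu c P d y ρ t H x s)
    (hPT : ∀ (x : M) i, P i x * H.T x = P i x) (hTP : ∀ (x : M) i, H.T x * P i x = P i x)
    (hcont : ∀ i, Continuous fun x : M => P i x) {n : ℕ} {ck lk κk : ℝ}
    {Q Q' : Fin 3 → M → End K} {Γ Γ' : M → End K}
    (o : Out C H e (fun i (x : M) => P i x) n ck lk κk Q Γ)
    (o' : Out C H.inv e' (fun i (x : M) => P i x) n ck lk κk Q' Γ')
    (hck : 1 ≤ ck) (hlk : 0 < lk) (hlk1 : lk < 1) (hκk : 0 ≤ κk)
    {R2 R cc δ κ : ℝ} (hR2 : 1 ≤ R2) (hA : ∀ x, ‖H.A x‖ ≤ R2) (hB : ∀ x, ‖H.B x‖ ≤ R2)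
    (hR : ∀ (x : M) i, ‖P i x‖ ≤ R) (hκ : ∀ x i, ‖QH P H x i - P i x‖ ≤ κ) (hκδ : κ ≤ δ)
    (hκ0 : 0 ≤ κ) (hcc : 0 ≤ cc)
    (heδ : R2 ^ 2 * (ck * κk) ≤ δ) (hs : R * κ * R < 1) (hκ1 : κ ≤ 1) (hk1 : ck * κk ≤ 1)
    (hs2 : R * κ * (R + 1) + R * (R2 * (ck * κk) * R2) * (R + 1) * (R + 1) < 1)
    (hLC : ∀ (P Q : Fin 3 → End K) (T G G' : End K) (κ e : ℝ),
      (∀ i j, P i * P j = if i = j then P i else 0) → P 0 + P 1 + P 2 = T →
      (∀ i j, Q i * Q j = if i = j then Q i else 0) → Q 0 + Q 1 + Q 2 = T →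
      (∀ i, ‖P i‖ ≤ R) → (∀ i, ‖Q i - P i‖ ≤ κ) → κ ≤ δ → 0 ≤ e → e ≤ δ →
      T * G = G → G * P 1 = G → P 1 * G = P 1 → ‖P 0 * G‖ ≤ e → ‖Q 2 * G‖ ≤ e →
      T * G' = G' → G' * Q 1 = G' → Q 1 * G' = Q 1 → ‖Q 0 * G'‖ ≤ e → ‖P 2 * G'‖ ≤ e →
      |Real.log |dt (1 + (P 1 * G' * Q 1 * G - P 1))| - Ps P Q| ≤ cc * κ * e)
    (hE : (0 : ℝ) = ∫ x : M, Real.log |LinearMap.det ((1 + ZZ P H Γ Γ' x : End K) :
      E K →ₗ[ℝ] E K)| ∂(m.comap ((↑) : M → E K))) (N0 : ℕ) :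
    |∫ s in {s | d.q s ≤ 1}, Fl d (phat c P) ρ t y s| ≤
      (ρ ^ N)⁻¹ * (cc * κ * (R2 ^ 2 * (ck * κk)) * (4 * ∑ n ∈ Finset.range N0,
      lk ^ n * (m {x | x ∈ Bs c d y ρ ∧ f^[n + 1] x ∈ Bs c d y ρ}).toReal +
        lk ^ N0 * (m (Bs c d y ρ)).toReal)) := by
  classical
  have hcM : CompactSpace M := isCompact_iff_compactSpace.1 hSV.compact
  obtain ⟨-, hfin, hMSp, hMSi, -⟩ := hMS N K M m hSV
  have hfin' : IsFiniteMeasure (m.comap ((↑) : M → E K)) := hfin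
  obtain ⟨hBc, hBM⟩ := bs_compact hFit hqc
  set B : Set M := {x : M | (x : E K) ∈ Bs c d y ρ} with hBd
  have hBm : MeasurableSet B := hBc.isClosed.measurableSet.preimage measurable_subtype_coe
  have hOffB : ∀ x ∉ B, H.Off x := fun x hx => hOff x hx
  -- the difference
  have hZc : Continuous (ZZ P H Γ Γ') := by
    have c1 : Continuous (fun x : M => P 1 x) := hcont 1
    have c2 := H.f.continuous
    exact ((((((c1.mul (H.contB.comp c2)).mul (o'.lift.cont.comp c2)).mul (c1.comp c2)).mul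
      H.contA).mul o.lift.cont).sub c1)
  have hlogc : Continuous (fun x : M => Real.log |LinearMap.det ((1 + ZZ P H Γ Γ' x : End K) :
      E K →ₗ[ℝ] E K)|) := by
    refine Continuous.log (cont_det (continuous_const.add hZc)).abs fun x => ?_
    exact abs_ne_zero.2 (det_ne_zero (lt_of_le_of_lt
      (zz_bd hPH.proj hPT o o' hA hB hR hκ hκ1 hk1 x) hs2))
  have hPsc : Continuous (PsM P H) := cont_PsM hcont hPH.proj hR hκ hs
  set g : M → ℝ := fun x => Real.log |LinearMap.det ((1 + ZZ P H Γ Γ' x : End K) :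
      E K →ₗ[ℝ] E K)| - PsM P H x with hg
  have hgc : Continuous g := hlogc.sub hPsc
  have hg0 : ∀ x ∉ B, g x = 0 := by
    intro x hx
    have h1 := hOffB x hx
    simp only [hg]
    rw [zz_off hPH.proj hPT o o' x h1, PsM_off hPH.proj hPT hTP x h1]
    simp
  have hgJ : ∀ (J : ℕ) (x : M), x ∈ B → (∀ j, 1 ≤ j → j ≤ J → C.f^[j] x ∉ B ∧
      C.f.symm^[j] x ∉ B ∧ C.f^[j] (H.f x) ∉ B ∧ C.f.symm^[j] (H.f x) ∉ B) →
      |g x| ≤ cc * κ * (R2 ^ 2 * (ck * κk)) * lk ^ J := by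
    intro J x _ hj
    obtain ⟨a1, a2⟩ := hOB M K C H e B J hOffB x
    obtain ⟨b1, b2⟩ := hOB M K C H.inv e' B J (fun x hx => (hOffB x hx).inv) (H.f x)
    have e1 : H.inv.f (H.f x) = x := H.f.symm_apply_apply x
    rw [e1] at b2
    exact lcx hPH.proj (fun x => by rw [hRH.rT]; exact hPH.sum x x.2) hPT o o' hck hlk hlk1 hκk
      hR2 hA hB hR hκ hκδ heδ hLC J x
      (a1 fun j h1 h2 => (hj j h1 h2).2.1) (a2 fun j h1 h2 => (hj j h1 h2).2.2.1)
      (b1 fun j h1 h2 => (hj j h1 h2).2.2.2) (b2 fun j h1 h2 => (hj j h1 h2).1)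
  have hAA : 0 ≤ cc * κ * (R2 ^ 2 * (ck * κk)) := by
    have : 0 ≤ ck := by linarith
    positivity
  have hrs := hRS M (m.comap ((↑) : M → E K)) C.f H.f B g _ lk (hMSp f C.f hfm hC.rf)
    (hMSp _ H.f hvh hRH.rf) hBm (fun x => hbij x) hgc hAA hlk hlk1 hg0 hgJ N0
  -- measures
  have hm1 : ∀ n : ℕ, (m.comap ((↑) : M → E K)) {x : M | x ∈ B ∧ C.f^[n + 1] x ∈ B} =
      m {x | x ∈ Bs c d y ρ ∧ f^[n + 1] x ∈ Bs c d y ρ} := by
    intro n
    rw [← meas_sub hSV.compact m _ (fun x hx => hBM hx.1)]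
    congr 1
    ext x
    simp only [hBd, mem_ofPred_eq]
    rw [hC.iter]
  have hm2 : (m.comap ((↑) : M → E K)) B = m (Bs c d y ρ) := meas_sub hSV.compact m _ hBM
  simp only [hm1, hm2] at hrs
  -- integrals
  have i1 : Integrable (fun x : M => Real.log |LinearMap.det ((1 + ZZ P H Γ Γ' x : End K) :
      E K →ₗ[ℝ] E K)|) (m.comap ((↑) : M → E K)) :=
    hlogc.integrable_of_hasCompactSupport (HasCompactSupport.of_compactSpace _)
  have i2 : Integrable (PsM P H) (m.comap ((↑) : M → E K)) :=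
    hPsc.integrable_of_hasCompactSupport (HasCompactSupport.of_compactSpace _)
  have e1 : ∫ x, g x ∂(m.comap ((↑) : M → E K)) = - ∫ x, PsM P H x ∂(m.comap ((↑) : M → E K)) := by
    rw [hg, integral_sub i1 i2, ← hE, zero_sub]
  set F : E K → ℝ := fun x => if hx : x ∈ M then PsM P H ⟨x, hx⟩ else 0 with hF
  have hFx : ∀ x : M, F x = PsM P H x := by
    intro x
    simp only [hF, dif_pos x.2]
  have hFM : ContinuousOn F M := by
    rw [continuousOn_iff_continuous_domRestrict]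
    refine hPsc.congr fun x => ?_
    rw [domRestrict_apply, hFx]
  have hF0 : ∀ x ∈ M, (¬ ∃ s, d.q s ≤ 1 ∧ x = c.ψ (y + ρ • s)) → F x = 0 := by
    intro x hx hn
    rw [show F x = F ((⟨x, hx⟩ : M) : E K) from rfl, hFx,
      PsM_off hPH.proj hPT hTP _ (hOff ⟨x, hx⟩ hn)]
  have e2 : ∫ x, PsM P H x ∂(m.comap ((↑) : M → E K)) = ∫ x, F x ∂m := by
    rw [← hMSi F]
    exact integral_congr_ae (Eventually.of_forall fun x => (hFx x).symm)
  have e3 : ∫ s in {s | d.q s ≤ 1}, F (c.ψ (y + ρ • s)) =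
      ∫ s in {s | d.q s ≤ 1}, Fl d (phat c P) ρ t y s := by
    refine setIntegral_congr_fun hqc.isClosed.measurableSet fun s hs => ?_
    have hM : c.ψ (y + ρ • s) ∈ M := (c.mapsψ _ (hFit s hs)).1
    have h1 := hFx ⟨_, hM⟩
    change F (c.ψ (y + ρ • s)) = _
    rw [show F (c.ψ (y + ρ • s)) = _ from h1]
    exact (hpu ⟨_, hM⟩ s hs rfl).psm hTF
  rw [e1, e2, hINT N K M m c p hSV hp d y ρ hρ hFit hvol F hFM hF0, e3, abs_neg, abs_mul,
    abs_of_pos (pow_pos hρ N)] at hrs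
  rw [inv_mul_eq_div, le_div_iff₀' (pow_pos hρ N)]
  exact hrs

end Pool.Agent.Helper56.RZ
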