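import Pool.Agent.Helper56.RZ.Statement

/-!
# MP_f32c9c_an: definitions for the final statements, continued
-/

set_option autoImplicit false

open Set Filter Topology MeasureTheory

open scoped ContDiff

namespace Pool.Agent.Helper56.RZ

/-- the larger one of the dimensions of the stable and the unstable bundle at `x` -/
noncomputable def strongDim {K : ℕ} (P : Fin 3 → E K → End K) (x : E K) : ℕ :=
  max (rk (P 0 x)) (rk (P 2 x))

/-- the splitting is `α`-Hölder near `x` -/
def HolderNear {K : ℕ} (M : Set (E K)) (P : Fin 3 → E K → End K) (x : E K) (α : ℝ) : Prop :=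
  ∃ U : Set (E K), IsOpen U ∧ x ∈ U ∧ HolderOn (M ∩ U) P α

end Pool.Agent.Helper56.RZ
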