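import Pool.Agent.Helper56.RZ.FinU
import Pool.Agent.Helper56.RZ.Rank
import Pool.Agent.Helper56.RZ.Statement2

/-!
# Project RZ, third theorem: from the core to the statement
-/

set_option autoImplicit false

open Set Filter Topology MeasureTheory

open scoped ContDiff

namespace Pool.Agent.Helper56.RZ

/-- the core of the third theorem, packaged -/
def StmtCoreD : Prop := ∀ (N K r u : ℕ) (M : Set (E K)) (m : Measure (E K)) (f f' : E K → E K)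
  (P : Fin 3 → E K → End K), 2 ≤ r → SmoothVolume N K M m → IsDiffeo 1 M f f' →
  Preserves M m f → PH M f f' P → ∀ c : Chart N K M,
  (∀ A : Set (E N), MeasurableSet A → A ⊆ c.V → m (c.ψ '' A) = volume A) →
  ∀ z0 ∈ c.V, Nr M m f (c.ψ z0) u → Osc (phat c P) z0 r u →
  ∀ ε > 0, ∃ (h h' : E K → E K) (Q : Fin 3 → E K → End K),
    IsDiffeo ∞ M h h' ∧ Preserves M m h ∧ Small r ε M h ∧ Small r ε M h' ∧
    PH M (f ∘ h) (h' ∘ f') Q ∧ (∀ x ∈ M, ∀ i, ‖Q i x - P i x‖ ≤ ε) ∧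
    CInt M m (f ∘ h) Q ≠ 0

/-- a strong bundle is large at `x`, or the splitting is sufficiently regular near `x` -/
def Cnd {K : ℕ} (M : Set (E K)) (P : Fin 3 → E K → End K) (r : ℕ) (x : E K) : Prop :=
  2 * r ≤ strongDim P x + 2 ∨ ∃ α : ℝ, α ≤ 1 ∧
    (2 * (r : ℝ) - 2 - strongDim P x) / (2 * r) < α ∧ HolderNear M P x α

theorem rank_loc {K : ℕ} {M : Set (E K)} {f f' : E K → E K} {P : Fin 3 → E K → End K}
    (hPH : PH M f f' P) {x : E K} (hx : x ∈ M) :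
    ∃ W : Set (E K), IsOpen W ∧ x ∈ W ∧ ∀ y ∈ M ∩ W, ∀ i, rk (P i y) = rk (P i x) := by
  have htr : Continuous (fun A : End K => LinearMap.trace ℝ (E K) (A : E K →ₗ[ℝ] E K)) := by
    let L : End K →ₗ[ℝ] ℝ := (LinearMap.trace ℝ (E K)) ∘ₗ ContinuousLinearMap.coeLM ℝ
    exact L.continuous_of_finiteDimensional
  have h1 : ∀ i, ∀ᶠ y in 𝓝[M] x, |LinearMap.trace ℝ (E K) (P i y : E K →ₗ[ℝ] E K) -
      LinearMap.trace ℝ (E K) (P i x : E K →ₗ[ℝ] E K)| < 1 := by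
    intro i
    have h2 : Tendsto (fun y => |LinearMap.trace ℝ (E K) (P i y : E K →ₗ[ℝ] E K) -
      LinearMap.trace ℝ (E K) (P i x : E K →ₗ[ℝ] E K)|) (𝓝[M] x) (𝓝 0) := by
      have h3 := (((htr.continuousAt.tendsto).comp (hPH.cont i x hx)).sub_const
        (LinearMap.trace ℝ (E K) (P i x : E K →ₗ[ℝ] E K))).abs
      rw [sub_self, abs_zero] at h3
      exact h3
    exact h2.eventually (gt_mem_nhds one_pos)
  obtain ⟨W, hW, hxW, hWs⟩ := mem_nhdsWithin.1 (eventually_all.2 h1)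
  refine ⟨W, hW, hxW, fun y hy i => ?_⟩
  have h2 := hWs ⟨hy.2, hy.1⟩ i
  have hp : ∀ z ∈ M, P i z * P i z = P i z := fun z hz => by rw [hPH.proj z hz, if_pos rfl]
  rw [trace_proj _ (hp y hy.1), trace_proj _ (hp x hx)] at h2
  have h3 : |((rk (P i y) : ℤ) : ℝ) - ((rk (P i x) : ℤ) : ℝ)| < 1 := by
    push_cast
    exact h2
  rw [← Int.cast_sub, ← Int.cast_abs] at h3
  have h4 : |(rk (P i y) : ℤ) - (rk (P i x) : ℤ)| < 1 := by exact_mod_cast h3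
  have h5 := Int.abs_lt_one_iff.1 h4
  omega

theorem strong_pos {K : ℕ} {M : Set (E K)} {f f' : E K → E K} {P : Fin 3 → E K → End K}
    (hPH : PH M f f' P) {x : E K} (hx : x ∈ M) : 1 ≤ strongDim P x :=
  (rank_pos _ (hPH.ne x hx 0)).trans (le_max_left _ _)

/-- perturbations `f ∘ h` -/
theorem mainD (hCore : StmtCoreD) (hT4 : StmtT4) (hT5 : StmtT5) (hSW : StmtSW)
    (hMS : StmtMS) (hNP : StmtNP) (hK1 : StmtK1) (hRET : StmtRET)
    {N K r : ℕ} {M : Set (E K)} {m : Measure (E K)} {f f' : E K → E K}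
    {P : Fin 3 → E K → End K} (hr : 2 ≤ r) (hSV : SmoothVolume N K M m) (hf : IsDiffeo 2 M f f')
    (hfm : Preserves M m f) (hPH : PH M f f' P) {x : E K} (hx : x ∈ M) (hc : Cnd M P r x)
    {ε : ℝ} (hε : 0 < ε) : ∃ (h h' : E K → E K) (Q : Fin 3 → E K → End K),
    IsDiffeo ∞ M h h' ∧ Preserves M m h ∧ Small r ε M h ∧ Small r ε M h' ∧
    PH M (f ∘ h) (h' ∘ f') Q ∧ (∀ x ∈ M, ∀ i, ‖Q i x - P i x‖ ≤ ε) ∧
    CInt M m (f ∘ h) Q ≠ 0 := by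
  have hf1 : IsDiffeo 1 M f f' := hf.of_le' (by exact_mod_cast (by norm_num : (1 : ℕ) ≤ 2))
  obtain ⟨W, hW, hxW, hrk⟩ := rank_loc hPH hx
  -- the non-periodic point
  obtain ⟨x0, hx0M, hx0W, hnp, hc0⟩ : ∃ x0 ∈ M, x0 ∈ W ∧ (∀ j : ℕ, 1 ≤ j → f^[j] x0 ≠ x0) ∧
      (2 * r ≤ strongDim P x + 2 ∨ ∃ (α : ℝ) (U : Set (E K)), α ≤ 1 ∧
        (2 * (r : ℝ) - 2 - strongDim P x) / (2 * r) < α ∧ IsOpen U ∧ x0 ∈ U ∧
        HolderOn (M ∩ U) P α) := by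
    rcases hc with h1 | ⟨α, hα1, hα, U, hU, hxU, hH⟩
    · obtain ⟨x0, hx0, hnp⟩ := hNP N K M m f f' P W hSV hf1 hPH hW ⟨x, hx, hxW⟩
      exact ⟨x0, hx0.1, hx0.2, hnp, Or.inl h1⟩
    · obtain ⟨x0, hx0, hnp⟩ := hNP N K M m f f' P (W ∩ U) hSV hf1 hPH (hW.inter hU)
        ⟨x, hx, hxW, hxU⟩
      exact ⟨x0, hx0.1, hx0.2.1, hnp, Or.inr ⟨α, U, hα1, hα, hU, hx0.2.2, hH⟩⟩
  obtain ⟨c, hx0c, hvol⟩ := hSV.chart x0 hx0M
  have hz0 : c.φ x0 ∈ c.V := c.mapsφ x0 ⟨hx0M, hx0c⟩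
  have hψ : c.ψ (c.φ x0) = x0 := c.right x0 ⟨hx0M, hx0c⟩
  have hNr : Nr M m f (c.ψ (c.φ x0)) (strongDim P x) := by
    rw [hψ]
    rcases le_total (rk (P 0 x)) (rk (P 2 x)) with h1 | h1
    · have e1 : strongDim P x = rk (P 2 x) := max_eq_right h1
      rw [e1, ← hrk x0 ⟨hx0M, hx0W⟩ 2]
      exact nr_f hRET hSV hf hPH hx0M hnp rfl
    · have e1 : strongDim P x = rk (P 0 x) := max_eq_left h1
      rw [e1, ← hrk x0 ⟨hx0M, hx0W⟩ 0]
      exact nr_f' hT4 hT5 hSW hMS hRET hSV hf hfm hPH hx0M hnp rfl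
  have hOsc : Osc (phat c P) (c.φ x0) r (strongDim P x) := by
    by_cases h1 : 2 * r ≤ strongDim P x + 2
    · exact osc_a c.openV hz0 (phat_cont c hPH.cont) hr (by omega)
    · rcases hc0 with h2 | ⟨α, U, hα1, hα, hU, hxU, Cα, hH⟩
      · exact absurd h2 h1
      · have hα0 : 0 < α := by
          refine lt_of_le_of_lt ?_ hα
          have h3 : (strongDim P x : ℝ) + 2 ≤ 2 * r := by
            have : strongDim P x + 2 ≤ 2 * r := by omega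
            exact_mod_cast this
          have h4 : (0 : ℝ) ≤ r := Nat.cast_nonneg r
          exact div_nonneg (by linarith) (by linarith)
        obtain ⟨-, -, r0, Cc, hr0, -, hHp, -⟩ := hK1 N K M c P (c.φ x0) α Cα U hz0 hU
          (by rw [hψ]; exact hxU) hα0 hα1 hPH.proj hPH.sum hH
        exact osc_b hr0 hHp hr (strong_pos hPH hx) hα0 hα
  exact hCore N K r _ M m f f' P hr hSV hf1 hfm hPH c hvol (c.φ x0) hz0 hNr hOsc ε hε

/-- the statement of the third theorem -/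
def StmtFinalD : Prop := ∀ (N K r : ℕ) (s : WithTop ℕ∞) (M : Set (E K))
  (m : Measure (E K)) (f f' : E K → E K) (P : Fin 3 → E K → End K), 2 ≤ r →
  (r : WithTop ℕ∞) ≤ s → s ≤ ∞ →
  SmoothVolume N K M m → IsDiffeo s M f f' → Preserves M m f → PH M f f' P →
  ∀ x ∈ M, Cnd M P r x →
  ∀ (ι : Type) [Finite ι] (c : ι → Chart N K M) (L : ι → Set (E N)),
  (∀ i, IsCompact (L i) ∧ L i ⊆ (c i).V) → ∀ ε > 0,
  ∃ (g g' : E K → E K) (Q : Fin 3 → E K → End K),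
    IsDiffeo s M g g' ∧ Preserves M m g ∧ CrClose r ε c L f g ∧
    PH M g g' Q ∧ (∀ x ∈ M, ∀ i, ‖Q i x - P i x‖ ≤ ε) ∧
    CInt M m g Q ≠ 0 ∧ ¬ ∀ᵐ x ∂m, CentralZero M g g' Q x

theorem finalD (hCore : StmtCoreD) (hT4 : StmtT4) (hT5 : StmtT5) (hSW : StmtSW)
    (hMS : StmtMS) (hNP : StmtNP) (hK1 : StmtK1) (hRET : StmtRET) (hCR : StmtCR)
    (hJ1 : StmtJ1) (hJ2 : StmtJ2) (hJ3 : StmtJ3) (hE1 : StmtE1) : StmtFinalD := by
  intro N K r s M m f f' P hr hrs hs hSV hfs hfm hPH x hx hc ι _ c L hL ε hε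
  have hf : IsDiffeo r M f f' := hfs.of_le' hrs
  have hf2 : IsDiffeo 2 M f f' := hf.of_le' (by exact_mod_cast hr)
  have hf1 : IsDiffeo 1 M f f' := hf.of_le' (by exact_mod_cast (by omega : 1 ≤ r))
  obtain ⟨hMSd, hfin, hMSp, -, -⟩ := hMS N K M m hSV
  obtain ⟨hfm', -⟩ := hMSd f f' hf1 hfm
  obtain ⟨P0, hP0, hPH0⟩ := ph_inv hT4 hT5 hSW hf1 hPH
  obtain ⟨ε', hε', hcr⟩ := hCR N K r M f hf.smooth ι c L hL ε hε
  have hsd : strongDim P0 x = strongDim P x := by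
    rw [strongDim, strongDim, hP0 0 x hx, hP0 2 x hx]
    exact max_comm _ _
  have hc' : Cnd M P0 r x := by
    unfold Cnd
    rw [hsd]
    rcases hc with h1 | ⟨α, hα1, hα, U, hU, hxU, Cα, hH⟩
    · exact Or.inl h1
    · refine Or.inr ⟨α, hα1, hα, U, hU, hxU, Cα, fun y hy z hz i => ?_⟩
      rw [hP0 i y hy.1, hP0 i z hz.1]
      exact hH y hy z hz _
  obtain ⟨h, h', Q, hh, hhm, -, hs', hQPH, hQc, hnot⟩ := mainD hCore hT4 hT5 hSW hMS hNP hK1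
    hRET hr hSV hf2.symm hfm' hPH0 hx hc' (lt_min hε hε')
  have hhs : IsDiffeo s M h h' := hh.of_le' hs
  have hh1 : IsDiffeo 1 M h h' := hh.of_le' (by exact_mod_cast le_top)
  have hg : IsDiffeo s M (h' ∘ f) (f' ∘ h) := hhs.symm.comp' hfs
  have hg1 : IsDiffeo 1 M (h' ∘ f) (f' ∘ h) := hh1.symm.comp' hf1
  obtain ⟨Q1, hQ1, hPH1⟩ := ph_inv hT4 hT5 hSW hg1.symm hQPH
  obtain ⟨w, hw1, hw2, hw3⟩ := hs'
  have hgm : Preserves M m (h' ∘ f) :=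
    (hMSd h' h hh1.symm (hMSd h h' hh1 hhm).1).2 f f' hf1 hfm
  have hgm' : Preserves M m (f' ∘ h) := (hMSd f' f hf1.symm hfm').2 h h' hh1 hhm
  have hcM : CompactSpace M := isCompact_iff_compactSpace.1 hSV.compact
  have hfin' : IsFiniteMeasure (m.comap ((↑) : M → E K)) := hfin
  -- the cocycle of the inverse
  have hPi : ContinuousOn (Pi M) M :=
    (((hPH.cont 0).add (hPH.cont 1)).add (hPH.cont 2)).congr fun x hx => (hPH.sum x hx).symm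
  obtain ⟨C, hC⟩ := hT4 K M (f' ∘ h) (h' ∘ f) hPi hg1.symm
  obtain ⟨hCinv, -, -, hto, -⟩ := hT5 K M (f' ∘ h) (h' ∘ f) C hg1.symm hC
  obtain ⟨hspl, n, hdom⟩ := hto Q hQPH
  have e1 : Lam C (fun x : M => Q 1 x) (m.comap ((↑) : M → E K)) = CInt M m (f' ∘ h) Q :=
    cint_eq hMS hSV hC Q (fun x : M => Q 1 x) (fun _ => rfl)
  have e2 : Lam C.inv (fun x : M => Q 1 x) (m.comap ((↑) : M → E K)) = CInt M m (h' ∘ f) Q1 :=
    cint_eq hMS hSV hCinv Q1 (fun x : M => Q 1 x) (fun x => by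
      rw [hQ1 1 x x.2]
      rfl)
  have hmp : MeasurePreserving C.f (m.comap ((↑) : M → E K)) (m.comap ((↑) : M → E K)) :=
    hMSp (f' ∘ h) C.f hgm' hC.rf
  have e3 := lam_inv hJ1 hJ2 hJ3 C (fun x : M => Q 1 x) (m.comap ((↑) : M → E K))
    (hspl.sub 1) hmp
  have hne : CInt M m (h' ∘ f) Q1 ≠ 0 := by
    rw [← e2, e3, e1]
    exact neg_ne_zero.2 hnot
  refine ⟨h' ∘ f, f' ∘ h, Q1, hg, hgm, ?_, hPH1, ?_, hne, ?_⟩
  · exact hcr w hw1 (fun k hk x => (hw3 k hk x).trans (min_le_right _ _)) (h' ∘ f)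
      fun x hx => hw2 (f x) (hf.maps hx)
  · intro x hx i
    have h1 := (hQc x hx (2 - i)).trans (min_le_left ε ε')
    rw [hP0 _ x hx, two_sub] at h1
    rw [hQ1 i x hx]
    exact h1
  · intro hae
    apply hne
    obtain ⟨-, -, -, hto1, -⟩ := hT5 K M (h' ∘ f) (f' ∘ h) C.inv hg1 hCinv
    obtain ⟨hspl1, n1, hdom1⟩ := hto1 Q1 hPH1
    have hmp1 : MeasurePreserving C.inv.f (m.comap ((↑) : M → E K))
        (m.comap ((↑) : M → E K)) := hMSp (h' ∘ f) C.inv.f hgm hCinv.rf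
    have e4 := hE1 M K C.inv (fun x : M => Q1 1 x) (m.comap ((↑) : M → E K)) (hspl1.sub 1)
      hmp1 (cz_ae hMS hT5 hSV hg1 hCinv Q1 (fun i x => Q1 i x) (fun _ _ => rfl) hae)
    rw [← e4]
    exact (cint_eq hMS hSV hCinv Q1 (fun x : M => Q1 1 x) (fun _ => rfl)).symm

end Pool.Agent.Helper56.RZ
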