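import Pool.Agent.Helper56.RZ.FinW
import Pool.Agent.Helper25.RZ.DT
import Pool.Agent.Helper55.RZ.DF

/-!
# Project RZ, third theorem: the two final statements
-/

set_option autoImplicit false

open Set Filter Topology MeasureTheory

open scoped ContDiff

namespace Pool.Agent.Helper56.RZ

theorem dFI : StmtDF := Pool.Agent.Helper55.RZ.df Pool.Agent.Helper57.RZ.t1

theorem finalI : ∀ (N K r : ℕ) (s : WithTop ℕ∞) (M : Set (E K)) (m : Measure (E K))
    (f f' : E K → E K) (P : Fin 3 → E K → End K) (x : E K), 2 ≤ r → (r : WithTop ℕ∞) ≤ s → s ≤ ∞ →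
    ConsPH N K s M m f f' P → x ∈ M → (2 * r - 2 ≤ strongDim P x ∨ ∃ α : ℝ, α ≤ 1 ∧
      (2 * (r : ℝ) - 2 - strongDim P x) / (2 * r) < α ∧ HolderNear M P x α) →
    Approximable (N := N) r s M m f P
      (fun g g' Q => centralIntegral M m g Q ≠ 0 ∧ ¬ AllZero M m g g' Q) := by
  intro N K r s M m f f' P x hr hrs hs h hx hc
  refine finI Pool.Agent.Helper25.RZ.dt dFI N K r s M m f f' P x hr hrs hs h hx ?_
  rcases hc with h1 | h1
  · exact Or.inl (by omega)
  · exact Or.inr h1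

theorem finalII : ∀ (N K : ℕ) (s : WithTop ℕ∞) (M : Set (E K)) (m : Measure (E K))
    (f f' : E K → E K) (P : Fin 3 → E K → End K), 2 ≤ s → s ≤ ∞ → ConsPH N K s M m f f' P →
    Approximable (N := N) 2 s M m f P (fun g g' Q => ¬ AllZero M m g g' Q) :=
  finII Pool.Agent.Helper25.RZ.dt dFI

end Pool.Agent.Helper56.RZ
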