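import Pool.Agent.Helper56.RZ.FinY0

/-!
# Project RZ, fourth theorem: near returns with the exponent `dim E^s + dim E^u`
-/

set_option autoImplicit false

open Set Filter Topology MeasureTheory

open scoped ContDiff

namespace Pool.Agent.Helper56.RZ

/-- two near returns, close in the direction of the unstable bundle -/
theorem step_u {K : ℕ} {M : Set (E K)} {C D : Coc M K} {S U : M → End K} {L0 δa ca ρ : ℝ}
    {q j : ℕ} (hL0 : 1 ≤ L0)
    (hlip : ∀ x y : M, ‖(x : E K) - y‖ ≤ L0 * ‖(C.f^[j] x : E K) - C.f^[j] y‖)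
    (hPG : ∀ (q : ℕ) (x y : M), (∀ j ≤ q, ‖(D.f^[j] y : E K) - D.f^[j] x‖ ≤ δa) →
      ‖S x ((y : E K) - x)‖ ≤ 1 * ‖U x ((y : E K) - x)‖ →
      ca * 4 ^ q * ‖(y : E K) - x‖ ≤ ‖(D.f^[q] y : E K) - D.f^[q] x‖ ∧
      ‖S (D.f^[q] x) ((D.f^[q] y : E K) - D.f^[q] x)‖ ≤
        1 * ‖U (D.f^[q] x) ((D.f^[q] y : E K) - D.f^[q] x)‖)
    (hq : 2 * L0 ≤ ca * 4 ^ q) {x y : M} (hx : ‖(C.f^[j] (D.f^[q] x) : E K) - x‖ ≤ ρ)
    (hy : ‖(C.f^[j] (D.f^[q] y) : E K) - y‖ ≤ ρ)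
    (hc : ‖S x ((y : E K) - x)‖ ≤ ‖U x ((y : E K) - x)‖)
    (hB : ∀ j ≤ q, ‖(D.f^[j] x : E K) - D.f^[j] y‖ ≤ δa) :
    ‖(D.f^[q] x : E K) - D.f^[q] y‖ ≤ 4 * L0 * ρ := by
  have h1 := (hPG q x y (fun j hj => by rw [norm_sub_rev]; exact hB j hj)
    (by rw [one_mul]; exact hc)).1
  set X := ‖(D.f^[q] x : E K) - D.f^[q] y‖ with hX
  rw [norm_sub_rev (D.f^[q] y : E K)] at h1
  rw [← hX] at h1
  have h2 := hlip (D.f^[q] x) (D.f^[q] y)
  rw [← hX] at h2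
  have h3 : ‖(C.f^[j] (D.f^[q] x) : E K) - C.f^[j] (D.f^[q] y)‖ ≤ ρ + ‖(y : E K) - x‖ + ρ := by
    have : (C.f^[j] (D.f^[q] x) : E K) - C.f^[j] (D.f^[q] y) =
        ((C.f^[j] (D.f^[q] x) : E K) - x) - ((y : E K) - x) -
          ((C.f^[j] (D.f^[q] y) : E K) - y) := by abel
    rw [this]
    exact (norm_sub_le _ _).trans (add_le_add ((norm_sub_le _ _).trans
      (add_le_add hx le_rfl)) hy)
  have h4 : 2 * L0 * ‖(y : E K) - x‖ ≤ X :=
    (mul_le_mul_of_nonneg_right hq (norm_nonneg _)).trans h1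
  have h5 := mul_le_mul_of_nonneg_left h3 (show 0 ≤ L0 by linarith)
  have h6 := h2.trans h5
  have h7 : L0 * (ρ + ‖(y : E K) - x‖ + ρ) = 2 * L0 * ρ + (2 * L0 * ‖(y : E K) - x‖) / 2 := by ring
  rw [h7] at h6
  linarith

theorem pres_iter (hMS : StmtMS) {N K : ℕ} {M : Set (E K)} {m : Measure (E K)}
    {f f' : E K → E K} (hSV : SmoothVolume N K M m) (hf1 : IsDiffeo 1 M f f')
    (hfm : Preserves M m f) (k : ℕ) : Preserves M m (f^[k]) := by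
  obtain ⟨hMSd, -⟩ := hMS N K M m hSV
  induction k with
  | zero =>
    intro A hA
    rw [Function.iterate_zero, preimage_id]
    exact measure_inter_conull hSV.null
  | succ k ih =>
    rw [Function.iterate_succ]
    exact (hMSd _ _ (iter_diffeo hf1 k) ih).2 f f' hf1 hfm

/-- the measure of the image of a compact set -/
theorem pres_image {K : ℕ} {M : Set (E K)} {m : Measure (E K)} {f f' : E K → E K}
    (hf : IsDiffeo 1 M f f') (hfm : Preserves M m f) {g : M → M} (hg : ∀ x : M, (g x : E K) = f x)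
    {S : Set M} (hS : IsCompact (g '' S)) :
    m (((↑) : M → E K) '' S) = m (((↑) : M → E K) '' (g '' S)) := by
  have h1 : IsCompact (((↑) : M → E K) '' (g '' S)) := hS.image continuous_subtype_val
  rw [← hfm _ h1.isClosed.measurableSet]
  congr 1
  ext x
  constructor
  · rintro ⟨y, hy, rfl⟩
    exact ⟨⟨g y, ⟨y, hy, rfl⟩, hg y⟩, y.2⟩
  · rintro ⟨⟨z, ⟨y, hy, rfl⟩, h2⟩, h3⟩
    refine ⟨y, hy, ?_⟩
    rw [hg] at h2
    rw [← hf.left y y.2, h2, hf.left x h3]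

/-- the estimate for the inverse near a point of the backward orbit -/
theorem rev_est (hT4 : StmtT4) (hT5 : StmtT5) (hSW : StmtSW) (hGF2 : StmtGF2) {N K : ℕ}
    {M : Set (E K)} {m : Measure (E K)} {f f' : E K → E K} {P : Fin 3 → E K → End K}
    (hSV : SmoothVolume N K M m) (hf1 : IsDiffeo 1 M f f') (hPH : PH M f f' P) {C D : Coc M K}
    (hC : Rep C f f') (hspl : Spl C (fun i (x : M) => P i x)) (hDT : ∀ x, D.T x = C.T x)
    (h8' : Hyp8 D.inv (fun x : M => P 2 x + P 1 x) (fun x : M => P 0 x)) {x0 : E K}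
    (hx0 : x0 ∈ M) (j : ℕ) : ∃ O : Set (E K), IsOpen O ∧ f'^[j] x0 ∈ O ∧
    ∀ ε δ1 : ℝ, 0 < ε → 0 < δ1 → ∃ Cc : ℝ, 0 ≤ Cc ∧
    ∀ (q : ℕ) (ρ : ℝ) (A : Set M), 0 < ρ → IsCompact A → (∀ x ∈ A, (x : E K) ∈ O) →
    (∀ x ∈ A, ∀ y ∈ A,
      ‖(P 2 (x : E K) + P 1 (x : E K)) ((y : E K) - x)‖ ≤ ‖P 0 (x : E K) ((y : E K) - x)‖ →
      (∀ j ≤ q, ‖(D.f.symm^[j] x : E K) - D.f.symm^[j] y‖ ≤ δ1) →
      ‖(D.f.symm^[q] x : E K) - D.f.symm^[q] y‖ ≤ ρ) →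
    m (((↑) : M → E K) '' A) ≤
      ENNReal.ofReal (Cc * Real.exp (ε * q) * ρ ^ rk (P 0 x0)) * m univ := by
  obtain ⟨P0, hP0, hPH0⟩ := ph_inv hT4 hT5 hSW hf1 hPH
  have hx1 : f'^[j] x0 ∈ M := (iter_diffeo hf1 j).maps' hx0
  obtain ⟨hCinv, -, -, -, -⟩ := hT5 K M f f' C hf1 hC
  obtain ⟨c, hxW, hcm⟩ := hSV.chart (f'^[j] x0) hx1
  have hz0 : c.φ (f'^[j] x0) ∈ c.V := c.mapsφ _ ⟨hx1, hxW⟩
  have hψ : c.ψ (c.φ (f'^[j] x0)) = f'^[j] x0 := c.right _ ⟨hx1, hxW⟩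
  have hrk : Module.finrank ℝ (LinearMap.range
      (P0 2 (c.ψ (c.φ (f'^[j] x0))) : E K →ₗ[ℝ] E K)) = rk (P 0 x0) := by
    rw [hψ, hP0 2 _ hx1]
    have h1 := rk_iter hspl 0 j ⟨x0, hx0⟩
    have h2 : ((C.f.symm^[j] ⟨x0, hx0⟩ : M) : E K) = f'^[j] x0 := hCinv.iter j ⟨x0, hx0⟩
    rw [h2] at h1
    exact h1
  have e0 : (fun x : M => P0 0 x + P0 1 x) = fun x : M => P 2 x + P 1 x := by
    funext x
    rw [hP0 0 x x.2, hP0 1 x x.2]
    rfl
  have e2 : (fun x : M => P0 2 x) = fun x : M => P 0 x := by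
    funext x
    rw [hP0 2 x x.2]
    rfl
  obtain ⟨O, hOo, hxO, hO⟩ := hGF2 N K (rk (P 0 x0)) M m f' f P0 hSV hf1.symm hPH0 c
    (c.φ (f'^[j] x0)) hz0 hcm hrk D.inv
    (fun x => by
      change D.T x = _
      rw [hDT, hC.rT])
    (by rw [e0, e2]; exact h8')
  rw [hψ] at hxO
  refine ⟨O, hOo, hxO, fun ε δ1 hε hδ1 => ?_⟩
  obtain ⟨Cc, hCc, h1⟩ := hO ε δ1 hε hδ1
  refine ⟨Cc, hCc, fun q ρ A hρ hA hAO hyp => ?_⟩
  obtain ⟨S, -, -, h2⟩ := h1 q ρ A hρ hA hAO (fun x hx y hy hc hB => by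
    refine hyp x hx y hy ?_ hB
    have e3 : P0 0 (x : E K) + P0 1 (x : E K) = P 2 x + P 1 x := congrFun e0 x
    have e4 : P0 2 (x : E K) = P 0 x := congrFun e2 x
    rw [← e3, ← e4]
    exact hc)
  refine h2.trans ?_
  gcongr
  exact subset_univ _

/-- long near returns -/
theorem rta (hT4 : StmtT4) (hT5 : StmtT5) (hSW : StmtSW) (hMS : StmtMS) (hLN : StmtLN)
    (hLZ : StmtLZ) (hLP : StmtLP) (hPW : StmtPW) (hDN : StmtDN) (hPGs : StmtPG)
    (hGF2 : StmtGF2) (hPR : StmtPR) : StmtRTA := by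
  intro N K M m f f' P hSV hf hfm hPH x0 hx0 ε hε
  have hM := hSV.compact
  have hcM : CompactSpace M := isCompact_iff_compactSpace.1 hM
  have hf1 : IsDiffeo 1 M f f' := hf.of_le' (by norm_num)
  have hPi : ContinuousOn (Pi M) M :=
    (((hPH.cont 0).add (hPH.cont 1)).add (hPH.cont 2)).congr fun x hx => (hPH.sum x hx).symm
  obtain ⟨C, hC⟩ := hT4 K M f f' hPi hf1
  obtain ⟨hCinv, -, -, hto, -⟩ := hT5 K M f f' C hf1 hC
  obtain ⟨hspl, n0, hdom⟩ := hto P hPH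
  have hL : Lin C := lin_of hLN hLZ hSV hf hC
  obtain ⟨k0, D, hk0, h8, h8', hDT, hDC⟩ := hyp8_both hDN hPW hLP hM hL hspl hdom
  obtain ⟨L0, hL0, hlip⟩ := Pool.Agent.Helper62.RZ.inv_lip hM hL k0
  obtain ⟨c, hxW, hcm⟩ := hSV.chart x0 hx0
  have hz0 : c.φ x0 ∈ c.V := c.mapsφ x0 ⟨hx0, hxW⟩
  have hψ : c.ψ (c.φ x0) = x0 := c.right x0 ⟨hx0, hxW⟩
  obtain ⟨W, δb, ρb, C3, q1, hWo, hxWb, hWc, hδb, hρb, hC3, hPRq⟩ :=
    hPR N K M P c (c.φ x0) hz0 hM hPH.cont hPH.proj hPH.sum C D k0 hL hspl h8 h8'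
  obtain ⟨δa, ca, hδa, hca, hPG⟩ := hPGs K M hM D _ _ h8 1 le_rfl
  obtain ⟨O, hOo, hxO, hGF⟩ := hGF2 N K (rk (P 2 x0)) M m f f' P hSV hf1 hPH c (c.φ x0) hz0
    hcm (by rw [hψ]; rfl) D (fun x => by rw [hDT, hC.rT]) h8
  rw [hψ] at hxO hxWb
  -- the estimates for the inverse
  choose Oj hOj hxOj hrev using fun j => rev_est hT4 hT5 hSW hGF2 hSV hf1 hPH hC hspl hDT h8'
    hx0 j
  -- the radii
  obtain ⟨rad, hrad, hradO⟩ : ∃ rad > 0, ∀ x : E K, ‖x - x0‖ < rad → x ∈ W ∩ O := by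
    obtain ⟨rad, hrad, h⟩ := Metric.isOpen_iff.1 (hWo.inter hOo) x0 ⟨hxWb, hxO⟩
    exact ⟨rad, hrad, fun x hx => h (by rw [Metric.mem_ball, dist_eq_norm]; exact hx)⟩
  have hr1 : ∀ j, ∃ r > 0, ∀ x : E K, ‖x - f'^[j] x0‖ < r → x ∈ Oj j := by
    intro j
    obtain ⟨r, hr, h⟩ := Metric.isOpen_iff.1 (hOj j) _ (hxOj j)
    exact ⟨r, hr, fun x hx => h (by rw [Metric.mem_ball, dist_eq_norm]; exact hx)⟩
  choose r hr0 hr using hr1
  have hs1 : ∀ j, ∃ s > 0, ∀ x ∈ M, ‖x - x0‖ < s → ‖f'^[j] x - f'^[j] x0‖ < r j / 2 := by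
    intro j
    have h1 := (iter_diffeo hf1 j).smooth'.continuousOn x0 hx0
    rw [Metric.continuousWithinAt_iff] at h1
    obtain ⟨s, hs, h⟩ := h1 (r j / 2) (half_pos (hr0 j))
    refine ⟨s, hs, fun x hx hxs => ?_⟩
    have := h hx (by rw [dist_eq_norm]; exact hxs)
    rwa [dist_eq_norm] at this
  choose s hs0 hs using hs1
  obtain ⟨r', hr'0, hr'⟩ := Pool.Agent.Helper62.RZ.exists_pos_le (s := Finset.range k0)
    (F := r) fun j _ => hr0 j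
  obtain ⟨s', hs'0, hs'⟩ := Pool.Agent.Helper62.RZ.exists_pos_le (s := Finset.range k0)
    (F := s) fun j _ => hs0 j
  -- the parameters
  obtain ⟨δ1, hδ1, hδ1a, hδ1b, hδ1r, hδ1r'⟩ : ∃ δ1 : ℝ, 0 < δ1 ∧ δ1 ≤ δa ∧ δ1 ≤ δb ∧
      δ1 ≤ rad / 2 ∧ δ1 ≤ r' / 2 :=
    ⟨min (min δa δb) (min (rad / 2) (r' / 2)), by positivity,
      (min_le_left _ _).trans (min_le_left _ _), (min_le_left _ _).trans (min_le_right _ _),
      (min_le_right _ _).trans (min_le_left _ _), (min_le_right _ _).trans (min_le_right _ _)⟩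
  obtain ⟨σ, hσ, hσr, hσs⟩ : ∃ σ : ℝ, 0 < σ ∧ σ ≤ rad / 3 ∧ σ ≤ s' / 3 :=
    ⟨min (rad / 3) (s' / 3), by positivity, min_le_left _ _, min_le_right _ _⟩
  obtain ⟨C1, hC1, hGF1⟩ := hGF (ε / 2) δ1 (half_pos hε) hδ1
  have hrev1 := fun j => hrev j (ε / 2) δ1 (half_pos hε) hδ1
  choose C2 hC2 hrev2 using hrev1
  obtain ⟨q2, hq2⟩ : ∃ q2 : ℕ, ∀ q, q2 ≤ q → 2 * L0 ≤ ca * 4 ^ q := by
    have h1 : Tendsto (fun q : ℕ => ca * (4 : ℝ) ^ q) atTop atTop :=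
      (tendsto_pow_atTop_atTop_of_one_lt (by norm_num : (1 : ℝ) < 4)).const_mul_atTop hca
    obtain ⟨q2, h2⟩ := (h1.eventually_ge_atTop (2 * L0)).exists_forall_of_atTop
    exact ⟨q2, h2⟩
  obtain ⟨C2', hC2', hC2j⟩ : ∃ C2' : ℝ, 0 ≤ C2' ∧ ∀ j < k0, C2 j ≤ C2' :=
    ⟨∑ j ∈ Finset.range k0, C2 j, Finset.sum_nonneg fun j _ => hC2 j, fun j hj =>
      Finset.single_le_sum (f := C2) (fun j _ => hC2 j) (Finset.mem_range.2 hj)⟩
  have hfin : m univ ≠ ⊤ := hSV.finite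
  refine ⟨Metric.ball x0 σ, C1 * (4 * L0) ^ rk (P 2 x0) * (C2' * C3 ^ rk (P 0 x0)) *
    (m univ).toReal, min ρb (s' / 3), k0 * max q1 q2, Metric.isOpen_ball,
    Metric.mem_ball_self hσ, by positivity, by positivity, fun n hn ρ hρ hρ0 => ?_⟩
  have hρb' : ρ ≤ ρb := hρ0.trans (min_le_left _ _)
  have hρs : ρ ≤ s' / 3 := hρ0.trans (min_le_right _ _)
  set q := n / k0 with hq
  set j := n % k0 with hj
  have hqq : max q1 q2 ≤ q := (Nat.le_div_iff_mul_le (by omega)).2 (by rw [mul_comm]; exact hn)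
  have hjk : j < k0 := Nat.mod_lt _ (by omega)
  have hit : ∀ x : M, (C.f^[j] (D.f^[q] x) : E K) = f^[n] x := by
    intro x
    rw [hDC, ← Function.iterate_add_apply, mul_comm q k0, Nat.mod_add_div, hC.iter]
  have hDf : ∀ x : M, (D.f^[q] x : E K) = f^[q * k0] x := fun x => by rw [hDC, hC.iter]
  have hqn : (q : ℝ) ≤ n := by exact_mod_cast Nat.div_le_self n k0
  -- the set of near returns
  set A : Set M := {x : M | ‖(x : E K) - x0‖ ≤ σ ∧ ‖(C.f^[j] (D.f^[q] x) : E K) - x‖ ≤ ρ} with hA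
  have hcD : Continuous fun x : M => D.f^[q] x := D.f.continuous.iterate q
  have hcCD : Continuous fun x : M => C.f^[j] (D.f^[q] x) := (C.f.continuous.iterate j).comp hcD
  have hAc : IsCompact A := by
    apply IsClosed.isCompact
    exact (isClosed_le (continuous_subtype_val.sub continuous_const).norm continuous_const).inter
      (isClosed_le ((continuous_subtype_val.comp hcCD).sub continuous_subtype_val).norm
        continuous_const)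
  have hAO : ∀ x ∈ A, (x : E K) ∈ W ∩ O := fun x hx => hradO x (by
    have := hx.1
    linarith)
  obtain ⟨S, hSc, hS, hmA⟩ := hGF1 q (4 * L0 * ρ) A (by positivity) hAc
    (fun x hx => (hAO x hx).2) (fun x hx y hy hc hB =>
      step_u hL0 (hlip j hjk) hPG (hq2 q ((le_max_right _ _).trans hqq)) hx.2 hy.2 hc
        fun i hi => (hB i hi).trans hδ1a)
  -- the second step
  have hBc : IsCompact ((fun x : M => D.f^[q] x) '' S) := hSc.image hcD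
  have hSW1 : ∀ y ∈ S, (y : E K) ∈ W := by
    intro y hy
    obtain ⟨x, hx, -, -, -, hxy⟩ := hS y hy
    refine (hradO y ?_).1
    have h1 := hxy 0 (Nat.zero_le _)
    rw [Function.iterate_zero, id, id] at h1
    have h2 : (y : E K) - x0 = ((y : E K) - x) + ((x : E K) - x0) := by abel
    rw [h2]
    refine (norm_add_le _ _).trans_lt ?_
    have := hx.1
    linarith
  have hBO : ∀ x ∈ (fun x : M => D.f^[q] x) '' S, (x : E K) ∈ Oj j := by
    rintro _ ⟨y, hy, rfl⟩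
    obtain ⟨x, hx, -, -, -, hxy⟩ := hS y hy
    apply hr j
    have h1 := hxy q le_rfl
    -- the point `D^q x`
    have h2 : ((D.f^[q] x : M) : E K) = f'^[j] (C.f^[j] (D.f^[q] x) : M) := by
      rw [← hCinv.iter]
      change _ = ((C.f.symm^[j] (C.f^[j] (D.f^[q] x)) : M) : E K)
      congr 1
      exact ((Function.LeftInverse.iterate C.f.symm_apply_apply j) (D.f^[q] x)).symm
    have h3 : ‖((C.f^[j] (D.f^[q] x) : M) : E K) - x0‖ < s j := by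
      have h4 : ((C.f^[j] (D.f^[q] x) : M) : E K) - x0 =
          (((C.f^[j] (D.f^[q] x) : M) : E K) - x) + ((x : E K) - x0) := by abel
      rw [h4]
      refine (norm_add_le _ _).trans_lt ?_
      have h5 := hx.1
      have h6 := hx.2
      have h7 := hs' j (Finset.mem_range.2 hjk)
      linarith
    have h4 := hs j _ (C.f^[j] (D.f^[q] x)).2 h3
    rw [← h2] at h4
    have h5 : ((D.f^[q] y : M) : E K) - f'^[j] x0 =
        (((D.f^[q] y : M) : E K) - D.f^[q] x) + (((D.f^[q] x : M) : E K) - f'^[j] x0) := by abel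
    change ‖((D.f^[q] y : M) : E K) - f'^[j] x0‖ < r j
    rw [h5]
    refine (norm_add_le _ _).trans_lt ?_
    have h6 := hr' j (Finset.mem_range.2 hjk)
    linarith
  have hback : ∀ (i : ℕ), i ≤ q → ∀ y : M, D.f.symm^[q - i] (D.f^[q] y) = D.f^[i] y := by
    intro i hi y
    have h1 : D.f^[q] y = D.f^[q - i] (D.f^[i] y) := by
      rw [← Function.iterate_add_apply, Nat.sub_add_cancel hi]
    rw [h1]
    exact (Function.LeftInverse.iterate D.f.symm_apply_apply (q - i)) (D.f^[i] y)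
  have hmB := hrev2 j q (C3 * ρ) _ (by positivity) hBc hBO (by
    rintro _ ⟨y, hy, rfl⟩ _ ⟨y', hy', rfl⟩ hc hB
    obtain ⟨x, hx, hxW', hyW', hxyp, hxy⟩ := hS y hy
    obtain ⟨x', hx', hxW'', hyW'', hxyp', hxy'⟩ := hS y' hy'
    have e0 := hback 0 (Nat.zero_le _)
    rw [Nat.sub_zero] at e0
    change ‖((D.f.symm^[q] (D.f^[q] y) : M) : E K) - (D.f.symm^[q] (D.f^[q] y') : M)‖ ≤ C3 * ρ
    rw [e0, e0, Function.iterate_zero, id, id, norm_sub_rev]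
    refine hPRq q j ρ x x' y y' ((le_max_left _ _).trans hqq) hjk hρ hρb' (hAO x hx).1
      (hAO x' hx').1 (hSW1 y hy) (hSW1 y' hy') hx.2 hx'.2 hxyp hxyp' (fun i hi => ?_) hc
    refine ⟨(hxy i hi).trans hδ1b, (hxy' i hi).trans hδ1b, ?_⟩
    have h1 := hB (q - i) (Nat.sub_le _ _)
    change ‖((D.f.symm^[q - i] (D.f^[q] y) : M) : E K) -
      (D.f.symm^[q - i] (D.f^[q] y') : M)‖ ≤ δ1 at h1
    rw [hback i hi, hback i hi, norm_sub_rev] at h1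
    exact h1.trans hδ1b)
  have hmS := pres_image (iter_diffeo hf1 (q * k0)) (pres_iter hMS hSV hf1 hfm (q * k0))
    (g := fun x : M => D.f^[q] x) hDf hBc
  -- conclusion
  have hmA' : m {x | x ∈ M ∩ Metric.ball x0 σ ∧ ‖f^[n] x - x‖ ≤ ρ} ≤
      m (((↑) : M → E K) '' A) := by
    apply measure_mono
    rintro x ⟨⟨hxM, hxb⟩, hxn⟩
    rw [Metric.mem_ball, dist_eq_norm] at hxb
    refine ⟨⟨x, hxM⟩, ⟨hxb.le, ?_⟩, rfl⟩
    rw [hit]
    exact hxn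
  have hall := hmA'.trans (hmA.trans (mul_le_mul_right (hmS.le.trans hmB) _))
  have htop : ENNReal.ofReal (C1 * Real.exp (ε / 2 * q) * (4 * L0 * ρ) ^ rk (P 2 x0)) *
      (ENNReal.ofReal (C2 j * Real.exp (ε / 2 * q) * (C3 * ρ) ^ rk (P 0 x0)) * m univ) ≠ ⊤ :=
    ENNReal.mul_ne_top ENNReal.ofReal_ne_top (ENNReal.mul_ne_top ENNReal.ofReal_ne_top hfin)
  have h1 := ENNReal.toReal_mono htop hall
  have hC2p := hC2 j
  rw [ENNReal.toReal_mul, ENNReal.toReal_mul, ENNReal.toReal_ofReal (by positivity),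
    ENNReal.toReal_ofReal (by positivity)] at h1
  refine h1.trans ?_
  have hm0 : 0 ≤ (m univ).toReal := ENNReal.toReal_nonneg
  have h2 : Real.exp (ε / 2 * q) * Real.exp (ε / 2 * q) ≤ Real.exp (ε * n) := by
    rw [← Real.exp_add]
    apply Real.exp_le_exp.2
    have := mul_le_mul_of_nonneg_left hqn hε.le
    linarith
  calc C1 * Real.exp (ε / 2 * q) * (4 * L0 * ρ) ^ rk (P 2 x0) *
        (C2 j * Real.exp (ε / 2 * q) * (C3 * ρ) ^ rk (P 0 x0) * (m univ).toReal)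
      = (C1 * (4 * L0) ^ rk (P 2 x0) * C3 ^ rk (P 0 x0) * (m univ).toReal *
        ρ ^ (rk (P 0 x0) + rk (P 2 x0))) * (C2 j *
          (Real.exp (ε / 2 * q) * Real.exp (ε / 2 * q))) := by
        rw [mul_pow, mul_pow, pow_add]
        ring
    _ ≤ (C1 * (4 * L0) ^ rk (P 2 x0) * C3 ^ rk (P 0 x0) * (m univ).toReal *
        ρ ^ (rk (P 0 x0) + rk (P 2 x0))) * (C2' * Real.exp (ε * n)) := by
        refine mul_le_mul_of_nonneg_left ?_ (by positivity)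
        exact mul_le_mul (hC2j j hjk) h2 (by positivity) hC2'
    _ = C1 * (4 * L0) ^ rk (P 2 x0) * (C2' * C3 ^ rk (P 0 x0)) * (m univ).toReal *
        Real.exp (ε * n) * ρ ^ (rk (P 0 x0) + rk (P 2 x0)) := by ring

end Pool.Agent.Helper56.RZ
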