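import Pool.Agent.Helper56.RZ.GoalsE
import Pool.Agent.Helper56.RZ.FinV
import Pool.Agent.Helper62.RZ.RET

/-!
# Project RZ, fourth theorem: both strong bundles, invariance of the ranks
-/

set_option autoImplicit false

open Set Filter Topology MeasureTheory

open scoped ContDiff

namespace Pool.Agent.Helper56.RZ

/-- a high power of the cocycle and its inverse satisfy `Hyp8` -/
theorem hyp8_both (hDN : StmtDN) (hPW : StmtPW) (hLP : StmtLP) {K : ℕ} {M : Set (E K)}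
    (hM : IsCompact M) {C : Coc M K} {P : Fin 3 → M → End K} {n : ℕ} (hL : Lin C)
    (hspl : Spl C P) (hdom : Dom C P n) :
    ∃ (k0 : ℕ) (D : Coc M K), 1 ≤ k0 ∧ Hyp8 D (fun x => P 0 x + P 1 x) (P 2) ∧
      Hyp8 D.inv (fun x => P 2 x + P 1 x) (P 0) ∧
      (∀ x, D.T x = C.T x) ∧ ∀ (j : ℕ) (x : M), D.f^[j] x = C.f^[j * k0] x := by
  have hcM : CompactSpace M := isCompact_iff_compactSpace.1 hM
  obtain ⟨q, Cq, hq0, hq1, hCq, hdn⟩ := hDN M K C P n hspl hdom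
  obtain ⟨k1, hk1⟩ := exists_pow_lt_of_lt_one (show 0 < 1 / (16 * Cq) by positivity) hq1
  obtain ⟨k, hkpos, hk⟩ : ∃ k : ℕ, 1 ≤ k ∧ q ^ k ≤ 1 / (16 * Cq) :=
    ⟨k1 + 1, by omega, (pow_le_pow_of_le_one hq0.le hq1.le (Nat.le_succ k1)).trans hk1.le⟩
  have hk' : Cq * q ^ k ≤ 1 / 16 := by
    have h1 := mul_le_mul_of_nonneg_left hk (show 0 ≤ Cq by linarith)
    have h2 : Cq * (1 / (16 * Cq)) = 1 / 16 := by field_simp
    linarith
  obtain ⟨D, hD, hDs, hDn⟩ := hPW M K C (k * n)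
  have hsD := hDs _ hspl
  have hLD : Lin D := hLP K M hM C D (k * n) hD hL
  refine ⟨k * n, D, Nat.mul_pos hkpos hdom.1, ⟨hLD, hsD.pair1, fun x => ?_, fun x => ?_⟩,
    ⟨hLD.inv, hsD.inv'.pair1, fun x => ?_, fun x => ?_⟩, hD.T, fun j x => (hDn j x).1⟩
  · have h1 := (hdn k (D.f x)).2.1
    rw [← hD.B] at h1
    linarith
  · have h0 := (hdn k x).2.2 0 2 (by decide)
    have h1 := (hdn k x).2.2 1 2 (by decide)
    rw [← hD.A, ← hD.f, ← hD.B] at h0 h1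
    have p3 : ‖D.A x * (P 0 x + P 1 x)‖ ≤ ‖D.A x * P 0 x‖ + ‖D.A x * P 1 x‖ := by
      rw [mul_add]; exact norm_add_le _ _
    have p4 := mul_le_mul_of_nonneg_left p3 (norm_nonneg (D.B (D.f x) * P 2 (D.f x)))
    refine le_trans p4 ?_
    rw [mul_add]
    linarith [mul_comm ‖D.A x * P 0 x‖ ‖D.B (D.f x) * P 2 (D.f x)‖,
      mul_comm ‖D.A x * P 1 x‖ ‖D.B (D.f x) * P 2 (D.f x)‖]
  · change ‖D.A (D.f.symm x) * P 0 (D.f.symm x)‖ ≤ 1 / 8
    have h1 := (hdn k (D.f.symm x)).1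
    rw [← hD.A] at h1
    linarith
  · change ‖D.A (D.f.symm x) * P 0 (D.f.symm x)‖ * ‖D.B x * (P 2 x + P 1 x)‖ ≤ 1 / 8
    have h1 := (hdn k (D.f.symm x)).2.2 0 1 (by decide)
    have h2 := (hdn k (D.f.symm x)).2.2 0 2 (by decide)
    rw [← hD.A, ← hD.f, ← hD.B, D.f.apply_symm_apply] at h1 h2
    have p3 : ‖D.B x * (P 2 x + P 1 x)‖ ≤ ‖D.B x * P 2 x‖ + ‖D.B x * P 1 x‖ := by
      rw [mul_add]; exact norm_add_le _ _
    have p4 := mul_le_mul_of_nonneg_left p3 (norm_nonneg (D.A (D.f.symm x) * P 0 (D.f.symm x)))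
    refine le_trans p4 ?_
    rw [mul_add]
    linarith

theorem rk_mul_le {K : ℕ} (A P B : End K) : rk (A * P * B) ≤ rk P := by
  unfold rk rg
  have h1 : LinearMap.range ((A * P * B : End K) : E K →ₗ[ℝ] E K) ≤
      Submodule.map (A : E K →ₗ[ℝ] E K) (LinearMap.range (P : E K →ₗ[ℝ] E K)) := by
    rintro _ ⟨v, rfl⟩
    exact ⟨P (B v), ⟨B v, rfl⟩, rfl⟩
  exact (Submodule.finrank_mono h1).trans (Submodule.finrank_map_le _ _)

theorem rk_step {K : ℕ} {M : Set (E K)} {C : Coc M K} {P : Fin 3 → M → End K} (h : Spl C P)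
    (i : Fin 3) (x : M) : rk (P i (C.f x)) = rk (P i x) := by
  apply le_antisymm
  · have e : P i (C.f x) = C.A x * P i x * C.B (C.f x) := by
      rw [h.inv, mul_assoc, C.AB, h.PT]
    rw [e]
    exact rk_mul_le _ _ _
  · have e : P i x = C.B (C.f x) * P i (C.f x) * C.A x := by
      rw [mul_assoc, ← h.inv, ← mul_assoc, C.BA, h.TP]
    rw [e]
    exact rk_mul_le _ _ _

theorem rk_iter {K : ℕ} {M : Set (E K)} {C : Coc M K} {P : Fin 3 → M → End K} (h : Spl C P)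
    (i : Fin 3) (j : ℕ) (x : M) : rk (P i (C.f.symm^[j] x)) = rk (P i x) := by
  induction j with
  | zero => rfl
  | succ j ih =>
    rw [Function.iterate_succ_apply', ← ih, ← rk_step h i (C.f.symm (C.f.symm^[j] x)),
      C.f.apply_symm_apply]

end Pool.Agent.Helper56.RZ
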