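import Pool.Agent.Helper56.RZ.FinY

/-!
# Project RZ, fourth theorem: near returns summed up
-/

set_option autoImplicit false

open Set Filter Topology MeasureTheory

open scoped ContDiff

namespace Pool.Agent.Helper56.RZ

theorem rtb (hRTA : StmtRTA) : StmtRTB := by
  intro N K M m f f' P hSV hf hfm hPH x0 hx0 hper l hl0 hl1
  have hf1 : IsDiffeo 1 M f f' := hf.of_le' (by norm_num)
  -- the exponent
  obtain ⟨ε, hε, hlε⟩ : ∃ ε : ℝ, 0 < ε ∧ l * Real.exp ε < 1 := by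
    refine ⟨-Real.log l / 2, by have := Real.log_neg hl0 hl1; linarith, ?_⟩
    have h1 : l = Real.exp (Real.log l) := (Real.exp_log hl0).symm
    calc l * Real.exp (-Real.log l / 2) = Real.exp (Real.log l) * Real.exp (-Real.log l / 2) := by
          rw [← h1]
      _ = Real.exp (Real.log l / 2) := by rw [← Real.exp_add]; congr 1; ring
      _ < 1 := by
          rw [Real.exp_lt_one_iff]
          have := Real.log_neg hl0 hl1
          linarith
  obtain ⟨U1, Cc, ρ0, n0, hU1, hxU1, hCc, hρ0, hest1⟩ :=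
    hRTA N K M m f f' P hSV hf hfm hPH x0 hx0 ε hε
  obtain ⟨U2, c0, hU2, hxU2, hc0, hsh⟩ :=
    Pool.Agent.Helper62.RZ.short hf.maps hf.smooth.continuousOn hx0 hper n0
  set u := rk (P 0 x0) + rk (P 2 x0) with hu
  have hfin : ∀ A : Set (E K), m A ≠ ⊤ := fun A =>
    ne_top_of_le_ne_top hSV.finite (measure_mono (subset_univ A))
  set mM := (m univ).toReal with hmM
  have hmM0 : 0 ≤ mM := ENNReal.toReal_nonneg
  obtain ⟨c1, hc1, hc10, hc1ρ⟩ : ∃ c1 : ℝ, 0 < c1 ∧ c1 ≤ c0 ∧ c1 ≤ ρ0 :=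
    ⟨min c0 ρ0, lt_min hc0 hρ0, min_le_left _ _, min_le_right _ _⟩
  have hest : ∀ (n : ℕ) (ρ : ℝ), 0 < ρ →
      (m {x | x ∈ M ∩ (U1 ∩ U2) ∧ ‖f^[n + 1] x - x‖ ≤ ρ}).toReal ≤
        (Cc + mM / c1 ^ u) * Real.exp (ε * (n + 1 : ℕ)) * ρ ^ u := by
    intro n ρ hρ
    have hexp : 1 ≤ Real.exp (ε * (n + 1 : ℕ)) := Real.one_le_exp (by positivity)
    rcases lt_or_ge ρ c1 with hρc | hρc
    · rcases Nat.lt_or_ge (n + 1) n0 with hn | hn
      · have hemp : {x | x ∈ M ∩ (U1 ∩ U2) ∧ ‖f^[n + 1] x - x‖ ≤ ρ} = ∅ := by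
          ext x
          simp only [mem_empty_iff_false, iff_false]
          rintro ⟨⟨hxM, -, hxU⟩, hx⟩
          have := hsh x ⟨hxM, hxU⟩ (n + 1) (by omega) hn
          linarith
        rw [hemp, measure_empty, ENNReal.toReal_zero]
        positivity
      · have h1 : (m {x | x ∈ M ∩ (U1 ∩ U2) ∧ ‖f^[n + 1] x - x‖ ≤ ρ}).toReal ≤
            (m {x | x ∈ M ∩ U1 ∧ ‖f^[n + 1] x - x‖ ≤ ρ}).toReal := by
          refine ENNReal.toReal_mono (hfin _) (measure_mono ?_)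
          rintro x ⟨⟨h1, h2, -⟩, h3⟩
          exact ⟨⟨h1, h2⟩, h3⟩
        refine h1.trans ((hest1 (n + 1) hn ρ hρ (by linarith)).trans ?_)
        have h2 : 0 ≤ mM / c1 ^ u := by positivity
        refine mul_le_mul_of_nonneg_right (mul_le_mul_of_nonneg_right ?_ (by positivity))
          (by positivity)
        linarith
    · have h1 : (m {x | x ∈ M ∩ (U1 ∩ U2) ∧ ‖f^[n + 1] x - x‖ ≤ ρ}).toReal ≤ mM :=
        ENNReal.toReal_mono (hfin univ) (measure_mono (subset_univ _))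
      have h2 : 1 ≤ (ρ / c1) ^ u := one_le_pow₀ ((one_le_div hc1).2 hρc)
      have h3 : mM ≤ mM / c1 ^ u * ρ ^ u := by
        have : mM / c1 ^ u * ρ ^ u = mM * (ρ / c1) ^ u := by rw [div_pow]; ring
        rw [this]
        exact le_mul_of_one_le_right hmM0 h2
      have h5 : 0 ≤ Cc * ρ ^ u := by positivity
      calc _ ≤ mM := h1
        _ ≤ mM / c1 ^ u * ρ ^ u := h3
        _ ≤ (Cc + mM / c1 ^ u) * ρ ^ u := by rw [add_mul]; linarith
        _ ≤ (Cc + mM / c1 ^ u) * ρ ^ u * Real.exp (ε * (n + 1 : ℕ)) :=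
            le_mul_of_one_le_right (by positivity) hexp
        _ = _ := by ring
  -- sum up
  set C1 := Cc + mM / c1 ^ u with hC1
  have hC1n : 0 ≤ C1 := by positivity
  refine ⟨U1 ∩ U2, C1 * Real.exp ε * (1 - l * Real.exp ε)⁻¹, hU1.inter hU2,
    ⟨hxU1, hxU2⟩, fun ρ hρ N0 => ?_⟩
  have hg : ∑ n ∈ Finset.range N0, (l * Real.exp ε) ^ n ≤ (1 - l * Real.exp ε)⁻¹ := by
    have h0 : 0 ≤ l * Real.exp ε := by positivity
    rw [← tsum_geometric_of_lt_one h0 hlε]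
    exact (summable_geometric_of_lt_one h0 hlε).sum_le_tsum _ fun _ _ => by positivity
  calc ∑ n ∈ Finset.range N0, l ^ n *
        (m {x | x ∈ M ∩ (U1 ∩ U2) ∧ ‖f^[n + 1] x - x‖ ≤ ρ}).toReal
      ≤ ∑ n ∈ Finset.range N0, l ^ n * (C1 * Real.exp (ε * (n + 1 : ℕ)) * ρ ^ u) :=
        Finset.sum_le_sum fun n _ => mul_le_mul_of_nonneg_left (hest n ρ hρ) (by positivity)
    _ = C1 * Real.exp ε * ρ ^ u * ∑ n ∈ Finset.range N0, (l * Real.exp ε) ^ n := by
        rw [Finset.mul_sum]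
        refine Finset.sum_congr rfl fun n _ => ?_
        have : Real.exp (ε * (n + 1 : ℕ)) = Real.exp ε * Real.exp ε ^ n := by
          rw [← Real.exp_nat_mul, ← Real.exp_add]
          congr 1
          push_cast
          ring
        rw [this, mul_pow]
        ring
    _ ≤ C1 * Real.exp ε * ρ ^ u * (1 - l * Real.exp ε)⁻¹ :=
        mul_le_mul_of_nonneg_left hg (by positivity)
    _ = C1 * Real.exp ε * (1 - l * Real.exp ε)⁻¹ * ρ ^ u := by ring

/-- near returns with the exponent `dim E^s + dim E^u` -/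
theorem nr_sum (hRTB : StmtRTB) {N K : ℕ} {M : Set (E K)} {m : Measure (E K)}
    {f f' : E K → E K} {P : Fin 3 → E K → End K} (hSV : SmoothVolume N K M m)
    (hf : IsDiffeo 2 M f f') (hfm : Preserves M m f) (hPH : PH M f f' P) {x0 : E K}
    (hx0 : x0 ∈ M) (hnp : ∀ j : ℕ, 1 ≤ j → f^[j] x0 ≠ x0) :
    Nr M m f x0 (rk (P 0 x0) + rk (P 2 x0)) := by
  have hf1 : IsDiffeo 1 M f f' := hf.of_le' (by exact_mod_cast (by norm_num : (1 : ℕ) ≤ 2))
  refine ⟨fun n => f^[n + 1], fun n => ⟨?_, ?_, fun B _ _ => rfl⟩,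
    hRTB N K M m f f' P hSV hf hfm hPH x0 hx0 hnp⟩
  · exact (iter_diffeo hf1 (n + 1)).smooth.continuousOn
  · exact (iter_diffeo hf1 (n + 1)).maps

end Pool.Agent.Helper56.RZ
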