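import Pool.Agent.Helper56.RZ.Statement2

/-!
# MP_f32c9c_an: definitions for the final statements, continued
-/

set_option autoImplicit false

open Set Filter Topology MeasureTheory

open scoped ContDiff

namespace Pool.Agent.Helper56.RZ

/-- the sum of the dimensions of the stable and the unstable bundle at `x` -/
noncomputable def strongSum {K : ℕ} (P : Fin 3 → E K → End K) (x : E K) : ℕ :=
  rk (P 0 x) + rk (P 2 x)

end Pool.Agent.Helper56.RZ
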