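import Pool.Agent.Helper56.RZ.FinZ
import Pool.Agent.Helper56.RZ.Statement3

/-!
# Project RZ, fourth theorem: from the core to the statement
-/

set_option autoImplicit false

open Set Filter Topology MeasureTheory

open scoped ContDiff

namespace Pool.Agent.Helper56.RZ

/-- the strong bundles are large at `x`, or the splitting is sufficiently regular near `x` -/
def CndS {K : ℕ} (M : Set (E K)) (P : Fin 3 → E K → End K) (r : ℕ) (x : E K) : Prop :=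
  2 * r ≤ strongSum P x + 2 ∨ ∃ α : ℝ, α ≤ 1 ∧
    (2 * (r : ℝ) - 2 - strongSum P x) / (2 * r) < α ∧ HolderNear M P x α

theorem sum_pos {K : ℕ} {M : Set (E K)} {f f' : E K → E K} {P : Fin 3 → E K → End K}
    (hPH : PH M f f' P) {x : E K} (hx : x ∈ M) : 2 ≤ strongSum P x := by
  have h0 : 1 ≤ rk (P 0 x) := rank_pos _ (hPH.ne x hx 0)
  have h2 : 1 ≤ rk (P 2 x) := rank_pos _ (hPH.ne x hx 2)
  unfold strongSum
  omega

/-- perturbations `f ∘ h` -/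
theorem mainS (hCore : StmtCoreD) (hNP : StmtNP) (hK1 : StmtK1) (hRTB : StmtRTB)
    {N K r : ℕ} {M : Set (E K)} {m : Measure (E K)} {f f' : E K → E K}
    {P : Fin 3 → E K → End K} (hr : 2 ≤ r) (hSV : SmoothVolume N K M m) (hf : IsDiffeo 2 M f f')
    (hfm : Preserves M m f) (hPH : PH M f f' P) {x : E K} (hx : x ∈ M) (hc : CndS M P r x)
    {ε : ℝ} (hε : 0 < ε) : ∃ (h h' : E K → E K) (Q : Fin 3 → E K → End K),
    IsDiffeo ∞ M h h' ∧ Preserves M m h ∧ Small r ε M h ∧ Small r ε M h' ∧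
    PH M (f ∘ h) (h' ∘ f') Q ∧ (∀ x ∈ M, ∀ i, ‖Q i x - P i x‖ ≤ ε) ∧
    CInt M m (f ∘ h) Q ≠ 0 := by
  have hf1 : IsDiffeo 1 M f f' := hf.of_le' (by exact_mod_cast (by norm_num : (1 : ℕ) ≤ 2))
  obtain ⟨W, hW, hxW, hrk⟩ := rank_loc hPH hx
  -- the non-periodic point
  obtain ⟨x0, hx0M, hx0W, hnp, hc0⟩ : ∃ x0 ∈ M, x0 ∈ W ∧ (∀ j : ℕ, 1 ≤ j → f^[j] x0 ≠ x0) ∧
      (2 * r ≤ strongSum P x + 2 ∨ ∃ (α : ℝ) (U : Set (E K)), α ≤ 1 ∧
        (2 * (r : ℝ) - 2 - strongSum P x) / (2 * r) < α ∧ IsOpen U ∧ x0 ∈ U ∧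
        HolderOn (M ∩ U) P α) := by
    rcases hc with h1 | ⟨α, hα1, hα, U, hU, hxU, hH⟩
    · obtain ⟨x0, hx0, hnp⟩ := hNP N K M m f f' P W hSV hf1 hPH hW ⟨x, hx, hxW⟩
      exact ⟨x0, hx0.1, hx0.2, hnp, Or.inl h1⟩
    · obtain ⟨x0, hx0, hnp⟩ := hNP N K M m f f' P (W ∩ U) hSV hf1 hPH (hW.inter hU)
        ⟨x, hx, hxW, hxU⟩
      exact ⟨x0, hx0.1, hx0.2.1, hnp, Or.inr ⟨α, U, hα1, hα, hU, hx0.2.2, hH⟩⟩
  obtain ⟨c, hx0c, hvol⟩ := hSV.chart x0 hx0M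
  have hz0 : c.φ x0 ∈ c.V := c.mapsφ x0 ⟨hx0M, hx0c⟩
  have hψ : c.ψ (c.φ x0) = x0 := c.right x0 ⟨hx0M, hx0c⟩
  have hNr : Nr M m f (c.ψ (c.φ x0)) (strongSum P x) := by
    have e1 : strongSum P x = rk (P 0 x0) + rk (P 2 x0) := by
      rw [strongSum, hrk x0 ⟨hx0M, hx0W⟩ 0, hrk x0 ⟨hx0M, hx0W⟩ 2]
    rw [hψ, e1]
    exact nr_sum hRTB hSV hf hfm hPH hx0M hnp
  have hOsc : Osc (phat c P) (c.φ x0) r (strongSum P x) := by
    by_cases h1 : 2 * r ≤ strongSum P x + 2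
    · exact osc_a c.openV hz0 (phat_cont c hPH.cont) hr (by omega)
    · rcases hc0 with h2 | ⟨α, U, hα1, hα, hU, hxU, Cα, hH⟩
      · exact absurd h2 h1
      · have hα0 : 0 < α := by
          refine lt_of_le_of_lt ?_ hα
          have h3 : (strongSum P x : ℝ) + 2 ≤ 2 * r := by
            have : strongSum P x + 2 ≤ 2 * r := by omega
            exact_mod_cast this
          have h4 : (0 : ℝ) ≤ r := Nat.cast_nonneg r
          exact div_nonneg (by linarith) (by linarith)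
        obtain ⟨-, -, r0, Cc, hr0, -, hHp, -⟩ := hK1 N K M c P (c.φ x0) α Cα U hz0 hU
          (by rw [hψ]; exact hxU) hα0 hα1 hPH.proj hPH.sum hH
        exact osc_b hr0 hHp hr ((one_le_two.trans (sum_pos hPH hx))) hα0 hα
  exact hCore N K r _ M m f f' P hr hSV hf1 hfm hPH c hvol (c.φ x0) hz0 hNr hOsc ε hε

/-- the statement of the fourth theorem -/
def StmtFinalS : Prop := ∀ (N K r : ℕ) (s : WithTop ℕ∞) (M : Set (E K))
  (m : Measure (E K)) (f f' : E K → E K) (P : Fin 3 → E K → End K), 2 ≤ r →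
  (r : WithTop ℕ∞) ≤ s → s ≤ ∞ →
  SmoothVolume N K M m → IsDiffeo s M f f' → Preserves M m f → PH M f f' P →
  ∀ x ∈ M, CndS M P r x →
  ∀ (ι : Type) [Finite ι] (c : ι → Chart N K M) (L : ι → Set (E N)),
  (∀ i, IsCompact (L i) ∧ L i ⊆ (c i).V) → ∀ ε > 0,
  ∃ (g g' : E K → E K) (Q : Fin 3 → E K → End K),
    IsDiffeo s M g g' ∧ Preserves M m g ∧ CrClose r ε c L f g ∧
    PH M g g' Q ∧ (∀ x ∈ M, ∀ i, ‖Q i x - P i x‖ ≤ ε) ∧
    CInt M m g Q ≠ 0 ∧ ¬ ∀ᵐ x ∂m, CentralZero M g g' Q x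

theorem finalS (hCore : StmtCoreD) (hT4 : StmtT4) (hT5 : StmtT5) (hSW : StmtSW)
    (hMS : StmtMS) (hNP : StmtNP) (hK1 : StmtK1) (hRTB : StmtRTB) (hCR : StmtCR)
    (hJ1 : StmtJ1) (hJ2 : StmtJ2) (hJ3 : StmtJ3) (hE1 : StmtE1) : StmtFinalS := by
  intro N K r s M m f f' P hr hrs hs hSV hfs hfm hPH x hx hc ι _ c L hL ε hε
  have hf : IsDiffeo r M f f' := hfs.of_le' hrs
  have hf2 : IsDiffeo 2 M f f' := hf.of_le' (by exact_mod_cast hr)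
  have hf1 : IsDiffeo 1 M f f' := hf.of_le' (by exact_mod_cast (by omega : 1 ≤ r))
  obtain ⟨hMSd, hfin, hMSp, -, -⟩ := hMS N K M m hSV
  obtain ⟨hfm', -⟩ := hMSd f f' hf1 hfm
  obtain ⟨P0, hP0, hPH0⟩ := ph_inv hT4 hT5 hSW hf1 hPH
  obtain ⟨ε', hε', hcr⟩ := hCR N K r M f hf.smooth ι c L hL ε hε
  have hsd : strongSum P0 x = strongSum P x := by
    rw [strongSum, strongSum, hP0 0 x hx, hP0 2 x hx]
    exact Nat.add_comm _ _
  have hc' : CndS M P0 r x := by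
    unfold CndS
    rw [hsd]
    rcases hc with h1 | ⟨α, hα1, hα, U, hU, hxU, Cα, hH⟩
    · exact Or.inl h1
    · refine Or.inr ⟨α, hα1, hα, U, hU, hxU, Cα, fun y hy z hz i => ?_⟩
      rw [hP0 i y hy.1, hP0 i z hz.1]
      exact hH y hy z hz _
  obtain ⟨h, h', Q, hh, hhm, -, hs', hQPH, hQc, hnot⟩ := mainS hCore hNP hK1
    hRTB hr hSV hf2.symm hfm' hPH0 hx hc' (lt_min hε hε')
  have hhs : IsDiffeo s M h h' := hh.of_le' hs
  have hh1 : IsDiffeo 1 M h h' := hh.of_le' (by exact_mod_cast le_top)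
  have hg : IsDiffeo s M (h' ∘ f) (f' ∘ h) := hhs.symm.comp' hfs
  have hg1 : IsDiffeo 1 M (h' ∘ f) (f' ∘ h) := hh1.symm.comp' hf1
  obtain ⟨Q1, hQ1, hPH1⟩ := ph_inv hT4 hT5 hSW hg1.symm hQPH
  obtain ⟨w, hw1, hw2, hw3⟩ := hs'
  have hgm : Preserves M m (h' ∘ f) :=
    (hMSd h' h hh1.symm (hMSd h h' hh1 hhm).1).2 f f' hf1 hfm
  have hgm' : Preserves M m (f' ∘ h) := (hMSd f' f hf1.symm hfm').2 h h' hh1 hhm
  have hcM : CompactSpace M := isCompact_iff_compactSpace.1 hSV.compact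
  have hfin' : IsFiniteMeasure (m.comap ((↑) : M → E K)) := hfin
  -- the cocycle of the inverse
  have hPi : ContinuousOn (Pi M) M :=
    (((hPH.cont 0).add (hPH.cont 1)).add (hPH.cont 2)).congr fun x hx => (hPH.sum x hx).symm
  obtain ⟨C, hC⟩ := hT4 K M (f' ∘ h) (h' ∘ f) hPi hg1.symm
  obtain ⟨hCinv, -, -, hto, -⟩ := hT5 K M (f' ∘ h) (h' ∘ f) C hg1.symm hC
  obtain ⟨hspl, n, hdom⟩ := hto Q hQPH
  have e1 : Lam C (fun x : M => Q 1 x) (m.comap ((↑) : M → E K)) = CInt M m (f' ∘ h) Q :=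
    cint_eq hMS hSV hC Q (fun x : M => Q 1 x) (fun _ => rfl)
  have e2 : Lam C.inv (fun x : M => Q 1 x) (m.comap ((↑) : M → E K)) = CInt M m (h' ∘ f) Q1 :=
    cint_eq hMS hSV hCinv Q1 (fun x : M => Q 1 x) (fun x => by
      rw [hQ1 1 x x.2]
      rfl)
  have hmp : MeasurePreserving C.f (m.comap ((↑) : M → E K)) (m.comap ((↑) : M → E K)) :=
    hMSp (f' ∘ h) C.f hgm' hC.rf
  have e3 := lam_inv hJ1 hJ2 hJ3 C (fun x : M => Q 1 x) (m.comap ((↑) : M → E K))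
    (hspl.sub 1) hmp
  have hne : CInt M m (h' ∘ f) Q1 ≠ 0 := by
    rw [← e2, e3, e1]
    exact neg_ne_zero.2 hnot
  refine ⟨h' ∘ f, f' ∘ h, Q1, hg, hgm, ?_, hPH1, ?_, hne, ?_⟩
  · exact hcr w hw1 (fun k hk x => (hw3 k hk x).trans (min_le_right _ _)) (h' ∘ f)
      fun x hx => hw2 (f x) (hf.maps hx)
  · intro x hx i
    have h1 := (hQc x hx (2 - i)).trans (min_le_left ε ε')
    rw [hP0 _ x hx, two_sub] at h1
    rw [hQ1 i x hx]
    exact h1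
  · intro hae
    apply hne
    obtain ⟨-, -, -, hto1, -⟩ := hT5 K M (h' ∘ f) (f' ∘ h) C.inv hg1 hCinv
    obtain ⟨hspl1, n1, hdom1⟩ := hto1 Q1 hPH1
    have hmp1 : MeasurePreserving C.inv.f (m.comap ((↑) : M → E K))
        (m.comap ((↑) : M → E K)) := hMSp (h' ∘ f) C.inv.f hgm hCinv.rf
    have e4 := hE1 M K C.inv (fun x : M => Q1 1 x) (m.comap ((↑) : M → E K)) (hspl1.sub 1)
      hmp1 (cz_ae hMS hT5 hSV hg1 hCinv Q1 (fun i x => Q1 i x) (fun _ _ => rfl) hae)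
    rw [← e4]
    exact (cint_eq hMS hSV hCinv Q1 (fun x : M => Q1 1 x) (fun _ => rfl)).symm

end Pool.Agent.Helper56.RZ
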