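import Pool.Agent.Helper56.RZ.FinZ1
import Pool.Agent.Helper56.RZ.Fin5
import Pool.Agent.Helper13.RZ.TA
import Pool.Agent.Helper14.RZ.OB
import Pool.Agent.Helper15.RZ.TF
import Pool.Agent.Helper16.RZ.AR
import Pool.Agent.Helper23.RZ.AV
import Pool.Agent.Helper28.RZ.GA2
import Pool.Agent.Helper29.RZ.TV
import Pool.Agent.Helper36.RZ.GT
import Pool.Agent.Helper37.RZ.TE
import Pool.Agent.Helper49.RZ.CB
import Pool.Agent.Helper49.RZ.SM
import Pool.Agent.Helper53.RZ.RS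
import Pool.Agent.Helper54.RZ.GA1
import Pool.Agent.Helper57.RZ.SK
import Pool.Agent.Helper70.RZ.GM
import Pool.Agent.Helper79.RZ.GA5
import Pool.Agent.Helper85.RZ.GA3
import Pool.Agent.Helper86.RZ.TL
import Pool.Agent.Helper87.RZ.LC
import Pool.Agent.Helper89.RZ.SF

/-!
# Project RZ, fourth theorem: everything except DT, DF and the packets of the near returns
-/

set_option autoImplicit false

namespace Pool.Agent.Helper56.RZ

theorem all_butS (hDT : StmtDT) (hPG : StmtPG) (hGF2 : StmtGF2) (hPR : StmtPR) :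
    StmtFinalS := by
  have hJ1 := Pool.Agent.Helper55.RZ.j1
  have hJ2 := Pool.Agent.Helper55.RZ.j2
  have hJ3 := j3 hJ2
  have hAN := Pool.Agent.Helper95.RZ.an
  have hGTA := Pool.Agent.Helper82.RZ.gta
  have hGTB := Pool.Agent.Helper49.RZ.gtb
  have hPP := Pool.Agent.Helper77.RZ.pp hAN hGTA hGTB
  have hB1 := Pool.Agent.Helper93.RZ.b1 hPP Pool.Agent.Helper41.RZ.qp
  have hA1 := Pool.Agent.Helper64.RZ.a1
  have hCL := Pool.Agent.Helper39.RZ.cl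
  have hCS := Pool.Agent.Helper39.RZ.cs
  have hB2 := Pool.Agent.Helper33.RZ.b2 hA1 hB1 hCL hCS
  have hDP := Pool.Agent.Helper70.RZ.dp
  have hLI := Pool.Agent.Helper53.RZ.li
  have hE1 := Pool.Agent.Helper50.RZ.e1 hJ1 hJ2 hJ3
  have hE2 := Pool.Agent.Helper73.RZ.e2 hJ1 hJ2 hJ3
  have hE3 := Pool.Agent.Helper3.RZ.e3 hE2 hJ1 hJ2 hJ3
  have hLD := Pool.Agent.Helper36.RZ.ld
  have hF1 := Pool.Agent.Helper34.RZ.f1
  have hF4 := Pool.Agent.Helper34.RZ.f4 hF1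
  have hT2 := Pool.Agent.Helper57.RZ.t2
  have hT1 := Pool.Agent.Helper57.RZ.t1
  have hT3 := Pool.Agent.Helper57.RZ.t3 hT2
  have hT4 := Pool.Agent.Helper57.RZ.t4 hT2 hT3
  have hT5 := Pool.Agent.Helper55.RZ.t5 hT2
  have hSW := Pool.Agent.Helper53.RZ.sw
  have hK1 := Pool.Agent.Helper95.RZ.k1 hT1
  have hNP := Pool.Agent.Helper85.RZ.np hT2
  have hMS := Pool.Agent.Helper35.RZ.ms
  have hINT := Pool.Agent.Helper64.RZ.int
  have hCR := Pool.Agent.Helper1.RZ.cr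
  have hDN := Pool.Agent.Helper39.RZ.dn
  have hLP := Pool.Agent.Helper16.RZ.lp
  have hPW := Pool.Agent.Helper89.RZ.pw
  have hLN := Pool.Agent.Helper65.RZ.ln hT1
  have hLZ := Pool.Agent.Helper49.RZ.lz
  -- the packets of the third theorem
  have hTL := Pool.Agent.Helper86.RZ.tl
  have hTA := Pool.Agent.Helper13.RZ.ta
  have hTV := Pool.Agent.Helper29.RZ.tv hTA
  have hTE := Pool.Agent.Helper37.RZ.te hTA
  have hGA1 := Pool.Agent.Helper54.RZ.ga1 hTA hF1 hT1 hT2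
  have hGA2 := Pool.Agent.Helper28.RZ.ga2 hTA hF1
  have hGA3 := Pool.Agent.Helper85.RZ.ga3 hTA hTV hF1
  have hGA5 := Pool.Agent.Helper79.RZ.ga5 hGA1 hGA2 hT2 hT4
  have hLC := Pool.Agent.Helper87.RZ.lc hDT hLD
  have hSM := Pool.Agent.Helper49.RZ.sm
  have hSF := Pool.Agent.Helper89.RZ.sf hTL hTA hTV hTE hSM hF1
  have hSK := Pool.Agent.Helper57.RZ.sk hTA hTE hTL
  have hGM := Pool.Agent.Helper70.RZ.gm hTA hTL hTE hF1 hF4 hLD
  have hAV := Pool.Agent.Helper23.RZ.av hSF Pool.Agent.Helper36.RZ.gt Pool.Agent.Helper49.RZ.cb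
    hSK hGM hF1 hF4
  have hAR := Pool.Agent.Helper16.RZ.ar hF1
  have hRTB := rtb (rta hT4 hT5 hSW hMS hLN hLZ hLP hPW hDN hPG hGF2 hPR)
  have hCore : StmtCoreD := by
    intro N K r u M m f f' P hr hSV hf1 hfm hPH c hvol z0 hz0 hNr hOsc ε hε
    exact core hB2 hDP hCL hLI hE3 hT1 hT4 hT5 hMS hINT hTL hTA hTE hGA1 hGA2 hGA3 hGA5 hLC
      Pool.Agent.Helper15.RZ.tf Pool.Agent.Helper14.RZ.ob Pool.Agent.Helper53.RZ.rs hAR hAV hF1
      hF4 hr hSV hf1 hfm hPH c hvol z0 hz0 hNr hOsc hε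
  exact finalS hCore hT4 hT5 hSW hMS hNP hK1 hRTB hCR hJ1 hJ2 hJ3 hE1

/-- the fourth theorem in terms of the definitions of `Statement.lean` -/
theorem finS (hDT : StmtDT) (hPG : StmtPG) (hGF2 : StmtGF2) (hPR : StmtPR) :
    ∀ (N K r : ℕ) (s : WithTop ℕ∞) (M : Set (E K))
    (m : MeasureTheory.Measure (E K)) (f f' : E K → E K) (P : Fin 3 → E K → End K) (x : E K),
    2 ≤ r → (r : WithTop ℕ∞) ≤ s → s ≤ ((⊤ : ℕ∞) : WithTop ℕ∞) → ConsPH N K s M m f f' P →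
    x ∈ M → CndS M P r x → Approximable (N := N) r s M m f P
      (fun g g' Q => centralIntegral M m g Q ≠ 0 ∧ ¬ AllZero M m g g' Q) := by
  intro N K r s M m f f' P x hr hrs hs h hx hc ι _ c L hL ε hε
  obtain ⟨g, g', Q, h1, h2, h3, h4, h5, h6, h7⟩ := all_butS hDT hPG hGF2 hPR N K r s M m f f' P
    hr hrs hs h.manifold.sv h.diffeo h.preserves h.hyp.ph x hx hc ι c L hL ε hε
  exact ⟨g, g', Q, ⟨h.manifold, h1, h2, h4.ph⟩, h3, h5,
    by rw [centralIntegral_eq]; exact h6, h7⟩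

end Pool.Agent.Helper56.RZ
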