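import Pool.Agent.Helper56.RZ.Basic

/-!
# Project RZ: statements on abstract cocycles (part A)

Order: AN, GTA, GTB -> PP;  QP, PP -> B1;  CL, CS, A1, B1 -> B2;  DP;  LI;  J1, J2, J3 -> E1, E2 -> E3;
L1 -> L2; LD.  Everywhere `X` is a compact metric space; continuous functions on `X` are bounded and
uniformly continuous.  In the ring `End K` (`*` is the composition) use `noncomm_ring` or rewriting.
The full paper proof: /team-store/MP_f32c9c_an_proof_helper56.md.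
-/

set_option autoImplicit false

open Set Filter Topology MeasureTheory

open scoped ContDiff

namespace Pool.Agent.Helper56.RZ

/-- PACKET AN (adapted norm).  Let `n, l` be from `Contr`.  If `n = 0` the assumption says `‖s‖ ≤ l ‖s‖` for all `s =
G s F` (because `T s T = s`), so they are all `0` and `nu x s = ‖s‖` works.  If `n ≥ 1` put `μ = l^(1/n)` and
`nu x s = ∑_{k < n} μ^(-k) ‖An k x * s * inv.An k (f^k x)‖` (for `s = G s F` the term `k = 0` is `‖T s T‖ = ‖s‖`).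
`nu (f x) (A x s B (f x)) = μ ∑_{1 ≤ k ≤ n} μ^(-k) ‖An k x s inv.An k (f^k x)‖ ≤ μ nu x s`, because the term
`k = n` is `≤ μ^(-n) l ‖s‖ = ‖s‖`.  Use `An k (f x) * A x = An (k+1) x` (the iterates composed at the other end;
induction) and `B (f x) * inv.An k (f^(k+1) x) = inv.An (k+1) (f^(k+1) x)`. -/
def StmtAN : Prop := ∀ (X : Type) [MetricSpace X] [CompactSpace X] (K : ℕ) (C : Coc X K)
  (F G : X → End K), Pair C F G → Contr C F G → ∃ (nu : X → End K → ℝ) (c l : ℝ), 1 ≤ c ∧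
  Adapt C F G nu c l

/-- PACKET GTA (algebra of the graph transform).  Write `y = H.f x`, `D = H.A x`, `D' = H.B y`, `E = gtE`.
`D' D = T`, `(F y + G y) D = D`, so `F x D' F y D F x = F x - F x D' G y D F x`, and with `s = G x s F x`
(so `s F x = s`, `F x s = 0`) `(F x D' F y) (F y D (F x + s)) = F x - E`, `E F x = E`; hence with
`R = Ring.inverse (1 - E) F x D' F y` (`1 - E` is a unit because `‖E‖ < 1`) `R F y D (F x + s) = F x`, and
`b = G y D (F x + s)` satisfies `b = b F x = b R a`, `a = F y D (F x + s)`.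
`gt = A y b R B (f y)`; `C.B (f y) * C.A y = T y`, `R = R F y`. -/
def StmtGTA : Prop := ∀ (X : Type) [MetricSpace X] [CompactSpace X] (K : ℕ) (C H : Coc X K)
  (F G : X → End K), Pair C F G → H.T = C.T → ∀ (x : X) (s : End K), G x * s * F x = s →
  ‖gtE H F G x s‖ < 1 →
  G (C.f (H.f x)) * gt C H F G x s * F (C.f (H.f x)) = gt C H F G x s ∧
  C.A (H.f x) * H.A x * (F x + s) =
    (F (C.f (H.f x)) + gt C H F G x s) * (C.A (H.f x) * H.A x * (F x + s)) ∧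
  (H.Off x → gt C H F G x s = C.A x * s * C.B (C.f x))

/-- PACKET GTB (estimate of the graph transform).  Notation of GTA.  For `H` near: `D, D'` are close to
`T x`, `F y` to `F x` (uniform continuity), so `‖F y D G x‖`, `‖G y D F x‖`, `‖F x D' G y‖` are small and
`‖E‖` is small for `‖s‖ ≤ 1`.  `gt s - gt s' = A y (σ) B (f y)`, `σ = b(s) R(s) - b(s') R(s')
= (G y D G x) (s - s') R(s) + b(s') (R(s) - R(s'))`, `R(s) = F x D' F y + O(‖E‖)`, `R(s) - R(s') =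
O(‖F y D G x‖ ‖s - s'‖)`, so `σ = (G y D G x) (s - s') (F x D' F y) + small ‖s - s'‖`, which is
`(s - s') + small ‖s - s'‖`; `nu y σ ≤ nu x (s - s') + small ‖s - s'‖ ≤ (1 + small) nu x (s - s')` (uniform
continuity of `nu` on the compact set `X × closedBall 0 2`, homogeneity), and `nu (f y) (A y σ B (f y)) ≤
l nu y σ` because `σ = G y σ F y`.  `gt 0 = A y (G y D F x) R B (f y)`. -/
def StmtGTB : Prop := ∀ (X : Type) [MetricSpace X] [CompactSpace X] (K : ℕ) (C : Coc X K)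
  (F G : X → End K) (nu : X → End K → ℝ) (c l : ℝ), Pair C F G → Adapt C F G nu c l →
  ∃ δ c' l' : ℝ, 0 < δ ∧ 1 ≤ c' ∧ 0 < l' ∧ l ≤ l' ∧ l' < 1 ∧ ∀ H : Coc X K, H.T = C.T → Near H δ →
  (∀ x, ‖G (H.f x) * H.A x * F x‖ ≤ 1) ∧
  ∀ (x : X) (s s' : End K), G x * s * F x = s → G x * s' * F x = s' → ‖s‖ ≤ 1 → ‖s'‖ ≤ 1 →
  ‖gtE H F G x s‖ ≤ 1 / 2 ∧
  nu (C.f (H.f x)) (gt C H F G x s - gt C H F G x s') ≤ l' * nu x (s - s') ∧
  nu (C.f (H.f x)) (gt C H F G x 0) ≤ c' * ‖G (H.f x) * H.A x * F x‖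

/-- PACKET PP (persistence of a dominated pair; from AN, GTA, GTB).  Let `κ₀ = sup ‖G (H x) D F x‖ ≤ κ`
(small for `H` near).  Iterate `S₀ = 0`, `S_{n+1} (g x) = gt x (S_n x)`, `g = C.f ∘ H.f`: by GTB
`sup nu (S_{n+1} - S_n) ≤ l'^n c' κ₀`, so `‖S_n‖ ≤ c' κ₀/(1 - l') ≤ 1` if `δ` is small, the sequence
converges uniformly to a continuous `S` with `S (g x) = gt x (S x)` (`gt` is continuous in `(x, s)` as
long as `‖E‖ ≤ 1/2`: `Ring.inverse` is continuous at units).  GTA gives the invariance.  The map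
`a = F y D (F x + s) : range F x → range F y` has the left inverse `R`, the ranges have the same dimension
(the projections `F y`, `F x` are close, or: `F (g x)`, `F x` have the same rank because of `C.A`,
and `F y`, `F x` by closeness), so the graph is mapped ONTO the graph; this is the invariance under the
inverse.  Localisation: if `g⁻¹ x` is off the support `nu x (S x) ≤ l nu (g⁻¹ x) (S (g⁻¹ x))`
(`Adapt.step`), iterate `J` times. -/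
def StmtPP : Prop := ∀ (X : Type) [MetricSpace X] [CompactSpace X] (K : ℕ) (C : Coc X K)
  (F G : X → End K), Pair C F G → Contr C F G → ∃ δ c l : ℝ, 0 < δ ∧ 1 ≤ c ∧ 0 < l ∧ l < 1 ∧
  ∀ (H : Coc X K) (e : H.T = C.T), Near H δ → ∀ κ : ℝ, (∀ x, ‖G (H.f x) * H.A x * F x‖ ≤ κ) →
  ∃ S : X → End K, Continuous S ∧ (∀ x, G x * S x * F x = S x) ∧ (∀ x, ‖S x‖ ≤ c * κ) ∧
  (∀ x, (C.comp H e).A x * (F x + S x) =
    (F ((C.comp H e).f x) + S ((C.comp H e).f x)) * ((C.comp H e).A x * (F x + S x))) ∧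
  (∀ x, (C.comp H e).B x * (F x + S x) =
    (F ((C.comp H e).f.symm x) + S ((C.comp H e).f.symm x)) * ((C.comp H e).B x * (F x + S x))) ∧
  ∀ (J : ℕ) (x : X), (∀ j, 1 ≤ j → j ≤ J → H.Off ((C.comp H e).f.symm^[j] x)) →
    ‖S x‖ ≤ c * l ^ J * κ

/-- PACKET QP (projections; linear algebra).  `U = Φ F + Ψ G`, `U - T = (Φ - F) F + (Ψ - G) G` is small, so
`U + 1 - T` is a unit with inverse `V`; `U T = U = T U` so `V` commutes with `1 - T` (`V (1 - T) = 1 - T`).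
`q = U F V` : `U F = Φ F`, `V U = T`-part: `V U = T`, `q q = U F V U F V = U F T F V = q`.
`Φ q = q` as `Φ U F = Φ Φ F = U F`.  `q Φ = Φ`: `Φ F : range F → range Φ` is onto (dimension: `Φ`, `F` are
close projections, same rank), and `q Φ F = U F V U F = U F = Φ F`.  `q Ψ = 0` in the same way
(`Ψ = Ψ G w` on its range).  Uniform bounds: Neumann series. -/
def StmtQP : Prop := ∀ (K : ℕ) (R : ℝ), ∃ δ c : ℝ, 0 < δ ∧ 0 < c ∧
  ∀ (T F G Φ Ψ : End K) (κ : ℝ), T * T = T → F * F = F → G * G = G → F * G = 0 → G * F = 0 →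
  F + G = T → Φ * Φ = Φ → Ψ * Ψ = Ψ → T * Φ = Φ → Φ * T = Φ → T * Ψ = Ψ → Ψ * T = Ψ →
  ‖F‖ ≤ R → ‖G‖ ≤ R → ‖T‖ ≤ R → κ ≤ δ → ‖Φ - F‖ ≤ κ → ‖Ψ - G‖ ≤ κ →
  IsUnit (Φ * F + Ψ * G + 1 - T) ∧
  qproj T F G Φ Ψ * qproj T F G Φ Ψ = qproj T F G Φ Ψ ∧
  T * qproj T F G Φ Ψ = qproj T F G Φ Ψ ∧ qproj T F G Φ Ψ * T = qproj T F G Φ Ψ ∧
  Φ * qproj T F G Φ Ψ = qproj T F G Φ Ψ ∧ qproj T F G Φ Ψ * Φ = Φ ∧
  qproj T F G Φ Ψ * Ψ = 0 ∧ Ψ * (T - qproj T F G Φ Ψ) = T - qproj T F G Φ Ψ ∧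
  ‖qproj T F G Φ Ψ - F‖ ≤ c * κ

/-- PACKET B1 (invariant splitting of the perturbed cocycle `g = C ∘ H` for a dominated pair; from PP,
QP).  PP for `C, H, F, G` gives `S`, `Φ x = F x + S x` (a projection); PP for `C.inv, H.inv, G, F`
gives `S'`, `Ψ' y = G y + S' y`, invariant under `C.inv ∘ H.inv = (H ∘ C)⁻¹`; `Ψ x = H.B (H.f x) * Ψ' (H.f x) *
H.A x` is a projection, its range is invariant under `g` and `g⁻¹` (`g = H⁻¹ (H ∘ C) H`).  `‖Φ - F‖`, `‖Ψ - G‖ ≤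
c κ + ..`: `Ψ x - G x`: with `D, D'` as in GTA `D' (G y + S' y) D = D' G y D + O(κ)` and `D' G y D - G x
= D' G y D F x - F x D' G y D + ..` has only off diagonal blocks: `(F x + G x) D' G y D (F x + G x) - G x`, and
`G x D' G y D G x = G x - G x D' F y D G x`.  For `δ` small these are below the `δ` of QP (use `κ' = min κ
(actual supremum)`, small by uniform continuity).  `Q = qproj (T x) (F x) (G x) (Φ x) (Ψ x)`.  Invariance:
`A_g` maps range `Q` (= range `Φ`) into range `Q` and range `Ψ` = range `(T - Q)` into itself.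
Past: `Q x v = v` means `Φ x v = v`, so `G x v = S x v`.  Future: `Q x v = 0`, `T x v = v`: `Ψ x v = v`,
`w = H.A x v` satisfies `Ψ' y w = w`, `F y w = S' y w`, `y = H.f x`; the points `(H ∘ C)^j y = H (g^j x) = g^j x` are
off the support of `H.inv`. -/
def StmtB1 : Prop := ∀ (X : Type) [MetricSpace X] [CompactSpace X] (K : ℕ) (C : Coc X K)
  (F G : X → End K), Pair C F G → Contr C F G → Contr C.inv G F →
  ∃ δ c l : ℝ, 0 < δ ∧ 1 ≤ c ∧ 0 < l ∧ l < 1 ∧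
  ∀ (H : Coc X K) (e : H.T = C.T), Near H δ → ∀ κ : ℝ,
  (∀ x, ‖G (H.f x) * H.A x * F x‖ ≤ κ ∧ ‖F (H.f x) * H.A x * G x‖ ≤ κ ∧
    ‖G x * H.B (H.f x) * F (H.f x)‖ ≤ κ ∧ ‖F x * H.B (H.f x) * G (H.f x)‖ ≤ κ) →
  ∃ Q : X → End K, Sub (C.comp H e) Q ∧ (∀ x, ‖Q x - F x‖ ≤ c * κ) ∧
  (∀ (J : ℕ) (x : X), (∀ j, 1 ≤ j → j ≤ J → H.Off ((C.comp H e).f.symm^[j] x)) →
    ∀ v, Q x v = v → ‖G x v‖ ≤ c * l ^ J * κ * ‖v‖) ∧
  (∀ (J : ℕ) (x : X), (∀ j, 1 ≤ j → j ≤ J → H.Off ((C.comp H e).f^[j] x)) →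
    ∀ v, C.T x v = v → Q x v = 0 → ‖F (H.f x) (H.A x v)‖ ≤ c * l ^ J * κ * ‖v‖)

/-- PACKET CS, first part: `C.comp H e` is close to `C` (uniform continuity; `dist (H.f.symm x) x` is small
because `x = H.f y`). -/
def StmtCL : Prop := ∀ (X : Type) [MetricSpace X] [CompactSpace X] (K : ℕ) (C : Coc X K) (ε : ℝ),
  0 < ε → ∃ δ : ℝ, 0 < δ ∧ ∀ (H : Coc X K) (e : H.T = C.T), Near H δ →
  Close C (C.comp H e) ε ∧ Close C.inv (C.comp H e).inv ε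

/-- PACKET CS, second part: `Contr` is stable.  `C'.f^[k]`, `C'.An k` and their inverses converge uniformly to
those of `C` for every `k` (induction on `k`, uniform continuity). -/
def StmtCS : Prop := ∀ (X : Type) [MetricSpace X] [CompactSpace X] (K : ℕ) (C : Coc X K)
  (F G : X → End K), Pair C F G → Contr C F G → ∃ (δ l : ℝ) (n : ℕ), 0 < δ ∧ 0 < l ∧ l < 1 ∧
  ∀ C' : Coc X K, Close C C' δ → ∀ (x : X) (s : End K), G x * s * F x = s →
    ‖C'.An n x * s * C'.inv.An n (C'.f^[n] x)‖ ≤ l * ‖s‖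

/-- PACKET A1 (partial hyperbolicity gives `Contr`).  Let `i < j`.  Compactness of the set of `(x, v, w)`,
`v`, `w` unit vectors of the ranges of `P j x`, `P i x`: there is `q < 1` with `‖An n x w‖ ≤ q ‖An n x v‖`
(for `(0, 2)` combine with a unit vector of the range of `P 1 x`); iterate: `‖An (k n) x w‖ ≤ q^k ‖An (k n) x v‖`
for all unit vectors (`An (k n) x = An n (..) .. An n x` preserves the bundles).  For `s = P i x s P j x`,
`u` any vector, `v = P j x (inv.An (k n) (f^(k n) x) u)`: `‖An (k n) x s v‖ ≤ q^k ‖s‖ ‖An (k n) x v‖ =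
q^k ‖s‖ ‖P j (..) u‖`.  For the sums `F`, `G` of projections decompose `s` into at most two such blocks; take `k`
large.  For `C.inv`: a unit vector `v` of the range of `P i x` and `w` of the range of `P j x`, `i < j`,
satisfy `‖inv.An n x w‖ < ‖inv.An n x v‖` (apply the assumption at `f^(-n) x` to the normalised
preimages). -/
def StmtA1 : Prop := ∀ (X : Type) [MetricSpace X] [CompactSpace X] (K : ℕ) (C : Coc X K)
  (P : Fin 3 → X → End K) (n : ℕ), Spl C P → Dom C P n →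
  Contr C (P 2) (fun x => P 0 x + P 1 x) ∧ Contr C (fun x => P 1 x + P 2 x) (P 0) ∧
  Contr C.inv (P 0) (fun x => P 1 x + P 2 x) ∧ Contr C.inv (fun x => P 0 x + P 1 x) (P 2)

/-- PACKET B2 (invariant splitting of the perturbed cocycle into three bundles; from A1, B1, CS).
B1 for `(P 2, P 0 + P 1)` gives `Q₂`, B1 for `(P 1 + P 2, P 0)` gives `Q₁₂`; `Q₀ = T - Q₁₂`.
`Y x = Q₀ x * Q₂ x` satisfies `Y (g^n x) = An n x * Y x * inv.An n (g^n x)` (cocycle of `g`; invariance of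
`Q₀`, `Q₂`) and `Y = Q₀ Y Q₂`; as `‖Q₂ - P 2‖`, `‖Q₀ - P 0‖` are small, `‖Y - P 0 Y P 2‖ ≤ small ‖Y‖`, and by
CS for the pair `(P 2, P 0 + P 1)` and `s = P 0 Y P 2` one has `‖Y (g^n x)‖ ≤ (l + small) ‖Y x‖`, so
`sup ‖Y‖ ≤ (l + small) sup ‖Y‖` and `Y = 0`.  In the same way `Q₂ * Q₀ = 0` with backward iterates (CS for
`C.inv`, the pair `(P 0, P 1 + P 2)` and `C' = (C.comp H e).inv`).  `Q 0 = Q₀`, `Q 2 = Q₂`, `Q 1 = T - Q₀ - Q₂`.  `Q i ≠ 0` because `‖Q i - P i‖` is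
smaller than `1 ≤ ‖P i‖`.  Past: `Q 1 x v = v` gives `Q₁₂ x v = v`.  Future: `Q 1 x v = v` gives
`Q₂ x v = 0`. -/
def StmtB2 : Prop := ∀ (X : Type) [MetricSpace X] [CompactSpace X] (K : ℕ) (C : Coc X K)
  (P : Fin 3 → X → End K) (n : ℕ), Spl C P → Dom C P n →
  ∃ δ c l : ℝ, 0 < δ ∧ 1 ≤ c ∧ 0 < l ∧ l < 1 ∧
  ∀ (H : Coc X K) (e : H.T = C.T), Near H δ → ∀ κ : ℝ, κ ≤ δ →
  (∀ x i j, i ≠ j → ‖P i (H.f x) * H.A x * P j x‖ ≤ κ ∧ ‖P i x * H.B (H.f x) * P j (H.f x)‖ ≤ κ) →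
  ∃ Q : Fin 3 → X → End K, Spl (C.comp H e) Q ∧ (∀ x i, ‖Q i x - P i x‖ ≤ c * κ) ∧
  (∀ (J : ℕ) (x : X), (∀ j, 1 ≤ j → j ≤ J → H.Off ((C.comp H e).f.symm^[j] x)) →
    ∀ v, Q 1 x v = v → ‖P 0 x v‖ ≤ c * l ^ J * κ * ‖v‖) ∧
  (∀ (J : ℕ) (x : X), (∀ j, 1 ≤ j → j ≤ J → H.Off ((C.comp H e).f^[j] x)) →
    ∀ v, Q 1 x v = v → ‖P 2 (H.f x) (H.A x v)‖ ≤ c * l ^ J * κ * ‖v‖)

/-- PACKET DP (the inequalities of partial hyperbolicity persist).  By compactness of the sets of `(x, v)`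
(`(x, v, w)`), unit vectors of the subbundles, the strict inequalities hold with a margin `3η`.  For `C'` close
to `C` and `Q` close to `P`: `C'.An n` is `η`-close to `C.An n` (as in CS), and a unit vector of the range of
`Q i x` is `η`-close to a unit vector of the range of `P i x`. -/
def StmtDP : Prop := ∀ (X : Type) [MetricSpace X] [CompactSpace X] (K : ℕ) (C : Coc X K)
  (P : Fin 3 → X → End K) (n : ℕ), Spl C P → Dom C P n → ∃ δ : ℝ, 0 < δ ∧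
  ∀ C' : Coc X K, Close C C' δ → ∀ Q : Fin 3 → X → End K,
  (∀ x i, Q i x * Q i x = Q i x) → (∀ x i, ‖Q i x - P i x‖ ≤ δ) → Dom C' Q n

/-- PACKET LI (lift).  `Γ x = Q x * P x * Ring.inverse (P x * Q x * P x + 1 - P x)`; `P Q P + 1 - P` is close
to `1` and commutes with `P`.  `Q x`, `P x` have the same rank (close projections), so `Γ P` is the
identity on the range of `Q`. -/
def StmtLI : Prop := ∀ (X : Type) [MetricSpace X] [CompactSpace X] (K : ℕ) (P : X → End K),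
  Continuous P → (∀ x, P x * P x = P x) → ∃ δ c : ℝ, 0 < δ ∧ 1 ≤ c ∧ ∀ (Q : X → End K) (κ : ℝ),
  Continuous Q → (∀ x, Q x * Q x = Q x) → κ ≤ δ → (∀ x, ‖Q x - P x‖ ≤ κ) →
  ∃ Γ : X → End K, Lift P Q Γ ∧ ∀ x, ‖Γ x - P x‖ ≤ c * κ

/-- PACKET J1 (the volume distortion is multiplicative).  `P`, `Q` have the same rank, so do `1 - P`, `1 - Q`; let
`Ξ : range (1 - P) → range (1 - Q)` be a linear isometry (`LinearIsometryEquiv` from orthonormal bases of the two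
subspaces) and `T̂ = T P + Ξ (1 - P)`.  `adjoint T̂ * NN S' Q * T̂ = NN (S' T) P` for every `S'` (as `Q T P = T P`,
`(1 - Q) T P = 0`, `‖Ξ w‖ = ‖w‖`; compare the quadratic forms of both sides, symmetric operators).  Take
determinants for `S' = S` and `S' = 1`; `det (NN 1 Q) ≠ 0`, `det T̂ ≠ 0` (`T̂` is injective). -/
def StmtJ1 : Prop := ∀ (K : ℕ) (S T P Q : End K), P * P = P → Q * Q = Q → Q * T * P = T * P →
  (∀ v, P v = v → T v = 0 → v = 0) →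
  Module.finrank ℝ (LinearMap.range (P : E K →ₗ[ℝ] E K)) =
    Module.finrank ℝ (LinearMap.range (Q : E K →ₗ[ℝ] E K)) →
  Jac (S * T) P = Jac S Q * Jac T P

/-- PACKET J2.  First: `T̂ = T P + 1 - P`, `adjoint T̂ * NN 1 P * T̂ = NN T P` (`P T̂ = T P`,
`(1 - P) T̂ = 1 - P`), take determinants (`det (NN 1 P) > 0`).  Second: `NN T P` is positive definite.
Third: `Jac` of `T` depends only on `T P`.  Fourth: `NN 1 P ≥ 1/2` (`|v|^2 ≤ 2 |P v|^2 + 2 |(1 - P) v|^2`), so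
`det (NN 1 P) ≥ 2^(-K)`; `det (NN T P) ≤ ‖NN T P‖^K` (eigenvalues, or Hadamard), `‖NN T P‖ ≤ ‖T P‖^2 +
‖1 - P‖^2`. -/
def StmtJ2 : Prop := ∀ (K : ℕ) (T P : End K), P * P = P →
  (P * T * P = T * P → Jac T P = |LinearMap.det ((T * P + 1 - P : End K) : E K →ₗ[ℝ] E K)|) ∧
  ((∀ v, P v = v → T v = 0 → v = 0) → 0 < Jac T P) ∧
  Jac (T * P) P = Jac T P ∧
  Jac T P ^ 2 ≤ (2 * (‖T * P‖ ^ 2 + ‖1 - P‖ ^ 2)) ^ K

/-- PACKET J3 (continuity). -/
def StmtJ3 : Prop := ∀ (X : Type) [TopologicalSpace X] (K : ℕ) (T P : X → End K), Continuous T →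
  Continuous P → (∀ x, P x * P x = P x) → (∀ x v, P x v = v → T x v = 0 → v = 0) →
  Continuous (fun x => Real.log (Jac (T x) (P x)))

/-- PACKET E1 (vanishing exponents; from J1, J2, J3).  `log Jac (An n x) (P x) = ∑_{k<n} log Jac (A (f^k x))
(P (f^k x))` (J1; `A x` maps the range of `P x` isomorphically onto the range of `P (f x)`), so the
integral of `(1/n) log Jac (An n x) (P x)` is `Lam` for all `n ≥ 1`.  These functions are bounded by a constant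
and by J2 `(1/n) log Jac (An n x) (P x) ≤ (K/(2n)) log (2 ‖An n x * P x‖^2 + 2 ‖1 - P x‖^2)`; for a.e. `x` and
all `ε > 0` one has `‖An n x * P x‖ ≤ exp (ε n)` for large `n` (apply the hypothesis to `P x b`, `b` in a basis).  So
the positive parts tend to `0` a.e., hence (dominated convergence) their integrals tend to `0`: `Lam ≤ 0`.  The same
with `C.inv` : `log Jac (C.B (f x)) (P (f x)) = - log Jac (A x) (P x)` (J1 with `S * T = T x`), so `-Lam ≤ 0`. -/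
def StmtE1 : Prop := ∀ (X : Type) [MetricSpace X] [CompactSpace X] [MeasurableSpace X]
  [BorelSpace X] (K : ℕ) (C : Coc X K) (P : X → End K) (m : Measure X) [IsFiniteMeasure m],
  Sub C P → MeasurePreserving C.f m m →
  (∀ᵐ x ∂m, ∀ v, P x v = v → v ≠ 0 →
    Tendsto (fun n : ℕ => Real.log ‖C.An n x v‖ / n) atTop (𝓝 0) ∧
    Tendsto (fun n : ℕ => Real.log ‖C.inv.An n x v‖ / n) atTop (𝓝 0)) →
  Lam C P m = 0

/-- PACKET E2 (from J1, J2, J3).  `g = C ∘ H`.  `P (g x) * A_g x = A (H x) * P (H x) * H.A x`.  With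
`k x = P (H x) * H.A x * Γ x`: `P (g x) * A_g x * Γ x = A (H x) * k x`.  J1 twice on both sides:
`Jac (P (g x)) (Q (g x)) * Jac (A_g x) (Q x) * Jac (Γ x) (P x) = Jac (A (H x)) (P (H x)) * Jac (k x) (P x)` and
`Jac (P x) (Q x) * Jac (Γ x) (P x) = 1` (J1 for `Γ P` on the range of `Q`).  Take logarithms and integrate;
`∫ (log Jac (P (g x)) (Q (g x)) - log Jac (P x) (Q x)) = 0`, `∫ log Jac (A (H x)) (P (H x)) = Lam C P m`.  `k x` is
injective on the range of `P x` by the displayed identity. -/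
def StmtE2 : Prop := ∀ (X : Type) [MetricSpace X] [CompactSpace X] [MeasurableSpace X]
  [BorelSpace X] (K : ℕ) (C H : Coc X K) (e : H.T = C.T) (P Q Γ : X → End K) (m : Measure X)
  [IsFiniteMeasure m], Sub C P → Sub (C.comp H e) Q → Lift P Q Γ → MeasurePreserving C.f m m →
  MeasurePreserving H.f m m →
  (∀ x v, P x v = v → P (H.f x) (H.A x (Γ x v)) = 0 → v = 0) ∧
  Lam (C.comp H e) Q m - Lam C P m =
    ∫ x, Real.log (Jac (P (H.f x) * H.A x * Γ x) (P x)) ∂m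

/-- PACKET E3 (the exact identity; from E2, J1, J2, J3).  E2 for `H` and for `H.inv`; in the second integral
substitute `x → H x` (`H.f` preserves `m`): `∫ log Jac (P x * H.B (H x) * Γ' (H x)) (P (H x))`; add, J1 for the
product `k' (H x) * k x`, which maps the range of `P x` to itself, and J2 (first part). -/
def StmtE3 : Prop := ∀ (X : Type) [MetricSpace X] [CompactSpace X] [MeasurableSpace X]
  [BorelSpace X] (K : ℕ) (C H : Coc X K) (e : H.T = C.T) (e' : H.inv.T = C.T)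
  (P Q Q' Γ Γ' : X → End K) (m : Measure X) [IsFiniteMeasure m], Sub C P →
  Sub (C.comp H e) Q → Sub (C.comp H.inv e') Q' → Lift P Q Γ → Lift P Q' Γ' →
  MeasurePreserving C.f m m → MeasurePreserving H.f m m →
  Lam (C.comp H e) Q m + Lam (C.comp H.inv e') Q' m - 2 * Lam C P m =
    ∫ x, Real.log |LinearMap.det ((1 + (P x * H.B (H.f x) * Γ' (H.f x) * P (H.f x) * H.A x * Γ x
      - P x) : End K) : E K →ₗ[ℝ] E K)| ∂m

/-- three complementary projections -/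
structure Proj3 {N : ℕ} (p : Fin 3 → End N) : Prop where
  proj : ∀ i j, p i * p j = if i = j then p i else 0
  sum : p 0 + p 1 + p 2 = 1

/-- PACKET L1 (expansion, linear algebra).  All `O` are uniform.  `Γ = a 1 + a 2 Γ + a 0 Γ`, `a 0 Γ = O(η t)`,
`a 2 Γ = O(t)`.  `b 2 T Γ = b 2 T a 1 + (b 2 T a 2) (a 2 Γ) + (b 2 T a 0) (a 0 Γ) = O(η t)` and `b 2 T a 2 = p 2 + O(η)`, so
`a 2 Γ = -t p 2 M p 1 + O(η t)`, and `b 1 T Γ = b 1 T a 1 - t² p 1 M p 2 M p 1 + O(η t²)`.  Similarly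
`b 2 Γ' = t p 2 M p 1 + O(η t)`, `a 1 S Γ' = a 1 S b 1 - t² p 1 M p 2 M p 1 + O(η t²)`.  The product is
`(a 1 S b 1) (b 1 T a 1) - 2 t² p 1 M p 2 M p 1 + O((η + t) t²)` and `a 1 S b 1 T a 1 = a 1 - a 1 S b 0 T a 1 -
a 1 S b 2 T a 1 = a 1 + t² p 1 M p 0 M p 1 + t² p 1 M p 2 M p 1 + O(η t²)`. -/
def StmtL1 : Prop := ∀ (N : ℕ) (R : ℝ), ∃ c : ℝ, 1 ≤ c ∧
  ∀ (a b p : Fin 3 → End N) (T S M Γ Γ' : End N) (t η : ℝ), 0 < t → t ≤ 1 → 0 ≤ η → η ≤ R →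
  Proj3 a → Proj3 b → Proj3 p → (∀ i, ‖p i‖ ≤ R) → ‖M‖ ≤ R → T * S = 1 → S * T = 1 →
  (∀ i, ‖a i - p i‖ ≤ η) → (∀ i, ‖b i - p i‖ ≤ η) → ‖T - 1‖ ≤ η → ‖S - 1‖ ≤ η →
  (∀ i j, i ≠ j → ‖b i * T * a j - t • (p i * M * p j)‖ ≤ η * t) →
  (∀ i j, i ≠ j → ‖a i * S * b j + t • (p i * M * p j)‖ ≤ η * t) →
  Γ * a 1 = Γ → a 1 * Γ = a 1 → Γ' * b 1 = Γ' → b 1 * Γ' = b 1 →
  ‖a 0 * Γ‖ ≤ η * t → ‖b 2 * T * Γ‖ ≤ η * t → ‖Γ - a 1‖ ≤ R * t →
  ‖b 0 * Γ'‖ ≤ η * t → ‖a 2 * S * Γ'‖ ≤ η * t → ‖Γ' - b 1‖ ≤ R * t →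
  ‖a 1 * S * Γ' * b 1 * T * Γ - a 1 - (t ^ 2) • (p 1 * M * p 0 * M * p 1 - p 1 * M * p 2 * M * p 1)‖
    ≤ c * (η + t) * t ^ 2

/-- PACKET L2 (the same at two points of a manifold; from L1).  `u : ℝ^N → ℝ^K`, `v : ℝ^K → ℝ^N` are the derivatives
of the parametrisation and of the chart at `x`, `u'`, `v'` those at `x'`.  Apply L1 with `a i = v P_i u`,
`b i = v' P'_i u'`, `T = v' D u`, `S = v D' u'`, `v Γ u`, `v' Γ' u'`, a larger `R` and `η` replaced by a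
constant multiple.  `u v U = U` (the operators at `x` have range in the range of `U`).  For `Z = P 1 D' Γ' P' 1 D Γ - P 1`: `Z = U Z U = u (v Z u) v U`, so `tr Z = tr (v Z u)`. -/
def StmtL2 : Prop := ∀ (N K : ℕ) (R : ℝ), ∃ c : ℝ, 1 ≤ c ∧
  ∀ (U U' : End K) (P P' : Fin 3 → End K) (D D' Γ Γ' : End K)
  (u u' : E N →L[ℝ] E K) (v v' : E K →L[ℝ] E N) (p : Fin 3 → End N) (M : End N) (t η : ℝ),
  0 < t → t ≤ 1 → 0 ≤ η → η ≤ 1 →
  (∀ i j, P i * P j = if i = j then P i else 0) → P 0 + P 1 + P 2 = U → U * U = U →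
  (∀ i j, P' i * P' j = if i = j then P' i else 0) → P' 0 + P' 1 + P' 2 = U' → U' * U' = U' →
  Proj3 p → ‖U‖ ≤ R → ‖U'‖ ≤ R → (∀ i, ‖P i‖ ≤ R) → (∀ i, ‖P' i‖ ≤ R) → (∀ i, ‖p i‖ ≤ R) →
  ‖u‖ ≤ R → ‖u'‖ ≤ R → ‖v‖ ≤ R → ‖v'‖ ≤ R → ‖M‖ ≤ R → ‖D‖ ≤ R → ‖D'‖ ≤ R →
  v ∘L u = 1 → v' ∘L u' = 1 → U ∘L u = u → U' ∘L u' = u' → u ∘L v ∘L U = U →
  u' ∘L v' ∘L U' = U' → D * U = D → U' * D = D → D' * U' = D' → U * D' = D' → D' * D = U →
  D * D' = U' →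
  (∀ i, ‖v ∘L P i ∘L u - p i‖ ≤ η) → (∀ i, ‖v' ∘L P' i ∘L u' - p i‖ ≤ η) →
  ‖v' ∘L D ∘L u - 1‖ ≤ η → ‖v ∘L D' ∘L u' - 1‖ ≤ η →
  (∀ i j, i ≠ j → ‖v' ∘L (P' i * D * P j) ∘L u - t • (p i * M * p j)‖ ≤ η * t) →
  (∀ i j, i ≠ j → ‖v ∘L (P i * D' * P' j) ∘L u' + t • (p i * M * p j)‖ ≤ η * t) →
  Γ * P 1 = Γ → P 1 * Γ = P 1 → U * Γ = Γ → Γ' * P' 1 = Γ' → P' 1 * Γ' = P' 1 → U' * Γ' = Γ' →
  ‖P 0 * Γ‖ ≤ η * t → ‖P' 2 * D * Γ‖ ≤ η * t → ‖Γ - P 1‖ ≤ R * t →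
  ‖P' 0 * Γ'‖ ≤ η * t → ‖P 2 * D' * Γ'‖ ≤ η * t → ‖Γ' - P' 1‖ ≤ R * t →
  ‖P 1 * D' * Γ' * P' 1 * D * Γ - P 1‖ ≤ c * t ^ 2 ∧
  |LinearMap.trace ℝ (E K) ((P 1 * D' * Γ' * P' 1 * D * Γ - P 1 : End K) : E K →ₗ[ℝ] E K)
    - t ^ 2 * (LinearMap.trace ℝ (E N) ((p 1 * M * p 0 * M * p 1 : End N) : E N →ₗ[ℝ] E N)
      - LinearMap.trace ℝ (E N) ((p 1 * M * p 2 * M * p 1 : End N) : E N →ₗ[ℝ] E N))|
    ≤ c * (η + t) * t ^ 2

/-- PACKET LD.  `det (1 + Z)` is a polynomial in the matrix entries with `det (1 + Z) = 1 + tr Z + O(‖Z‖²)` for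
`‖Z‖ ≤ 1`, and `|log |1 + s| - s| ≤ s²` for `|s| ≤ 1/2`. -/
def StmtLD : Prop := ∀ K : ℕ, ∃ c δ : ℝ, 0 < δ ∧ ∀ Z : End K, ‖Z‖ ≤ δ →
  |Real.log |LinearMap.det ((1 + Z : End K) : E K →ₗ[ℝ] E K)|
    - LinearMap.trace ℝ (E K) (Z : E K →ₗ[ℝ] E K)| ≤ c * ‖Z‖ ^ 2

end Pool.Agent.Helper56.RZ
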