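import Pool.Agent.Helper56.RZ.GoalsD
import Pool.Agent.Helper56.RZ.Statement

/-!
# Project RZ, fourth theorem: near returns with the exponent `dim E^s + dim E^u`

Order: PG; RE2 (from RCC, file of RE); DF2 (file of DF); GF2 (from RE2, DF2, FB); CC (from T1); TC; PR (from PG, CC,
TC); then RTA, RTB (captain).  All statements are independent: a packet may assume the other statements it names.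

IDEA.  `R = {x near x0 : ‖f^n x - x‖ ≤ ρ}`, `f^n = C.f^[j] ∘ D^q`.  Step 1: on discs in the direction of `E^u` (RE2): `m R ≤ C
e^(ε q) ρ^u m S`, `S` = points of the discs through the points of `R`, Bowen close to a point of `R`.  `m S = m (D^q S)`.  Step 2: the
same for `D⁻¹` and discs in the direction of `E^s` near `f^(-j) x0`: `m (D^q S) ≤ C e^(ε q) ρ^s`, because two points `y, y'` of `S` with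
`D^q y, D^q y'` on one such disc and Bowen close have distance `≤ C ρ` (packet PR).
-/

set_option autoImplicit false

open Set Filter Topology MeasureTheory

open scoped ContDiff

namespace Pool.Agent.Helper56.RZ

/-- PACKET PG (growth of pairs in a cone of any aperture; as packet PCN, Pool/Agent/Helper28/RZ/PCN.lean, and then induction as
in RA, Pool/Agent/Helper15/RZ/RA.lean).  One step, `‖y - x‖ ≤ δ`, `v = y - x`, `v' = D y - D x`, `w = U x v`, `ε` small: `(1 - T x) v = (1 - T x) (v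
- B (D x) v')` is `≤ (1/3) ‖v‖`, so `‖v‖ ≤ (3/2) (1 + κ) ‖w‖`; `v' = A x v + e`, `‖e‖ ≤ ε ‖v‖`, `R ε (3/2) (1 + κ) ≤ 1/2` (`R` a bound for `‖S‖`, `‖U‖`);
`‖w‖ ≤ (1/8) ‖A w‖` (e1, `w = B (D x) U (D x) A w`); `‖U v'‖ ≥ ‖A w‖ - ‖w‖/2 ≥ (15/16) ‖A w‖ ≥ 4 ‖w‖`; `‖S v'‖ ≤ ‖A S‖ ‖S v‖ + ‖w‖/2 ≤ κ ‖A S‖ ‖w‖ + ‖w‖/2`
and `‖w‖ ≤ ‖B U‖ ‖A w‖`, so by e2 `‖S v'‖ ≤ (κ/8 + 1/16) ‖A w‖ ≤ κ ‖U v'‖`.  Induction: `‖U (D^q x) v_q‖ ≥ 4^q ‖U x v‖`, `‖v_q‖ ≥ ‖U v_q‖ / R`: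
`c = 1 / (2 R (1 + κ))`. -/
def StmtPG : Prop := ∀ (K : ℕ) (M : Set (E K)), IsCompact M → ∀ (D : Coc M K) (S U : M → End K),
  Hyp8 D S U → ∀ κ : ℝ, 1 ≤ κ → ∃ δ c : ℝ, 0 < δ ∧ 0 < c ∧ ∀ (q : ℕ) (x y : M),
  (∀ j ≤ q, ‖(D.f^[j] y : E K) - D.f^[j] x‖ ≤ δ) →
  ‖S x ((y : E K) - x)‖ ≤ κ * ‖U x ((y : E K) - x)‖ →
  c * 4 ^ q * ‖(y : E K) - x‖ ≤ ‖(D.f^[q] y : E K) - D.f^[q] x‖ ∧
  ‖S (D.f^[q] x) ((D.f^[q] y : E K) - D.f^[q] x)‖ ≤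
    κ * ‖U (D.f^[q] x) ((D.f^[q] y : E K) - D.f^[q] x)‖

/-- PACKET RE2 (covering, finer form of RE; copy Pool/Agent/Helper3/RZ/RE.lean; from RCC).  In the proof of RE take `δ = min δ0 (min
(δ1/2) (lam r/2))`.  The Bowen balls of radius `δ/2` around the points of the maximal separated set `F ⊆ A` are disjoint
and contained in the set on the right: `lam ‖a - a0‖ ≤ ‖g a - g a0‖ ≤ δ/2 ≤ lam r/4` gives `‖a‖ ≤ 3r/4`.  Sum up without the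
last estimate. -/
def StmtRE2 : Prop := ∀ (K u : ℕ) (M : Set (E K)), IsCompact M → ∀ (D : Coc M K)
  (S U : M → End K), Hyp8 D S U → ∀ r lam ε δ1 : ℝ, 0 < r → 0 < lam → 0 < ε → 0 < δ1 →
  ∃ C : ℝ, 0 ≤ C ∧ ∀ (g : E u → M) (g' : E u → (E u →L[ℝ] E K)), Disc D.T S U r lam g g' →
  ∀ (q : ℕ) (ρ : ℝ) (A : Set (E u)), 0 < ρ → MeasurableSet A → (∀ a ∈ A, ‖a‖ ≤ r / 2) →
  (∀ a ∈ A, ∀ a' ∈ A, (∀ j ≤ q, ‖(D.f^[j] (g a) : E K) - D.f^[j] (g a')‖ ≤ δ1) →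
    ‖(D.f^[q] (g a) : E K) - D.f^[q] (g a')‖ ≤ ρ) →
  volume A ≤ ENNReal.ofReal (C * Real.exp (ε * q) * ρ ^ u) * volume {a : E u | ‖a‖ ≤ 3 * r / 4 ∧
    ∃ a0 ∈ A, ∀ j ≤ q, ‖(D.f^[j] (g a) : E K) - D.f^[j] (g a0)‖ ≤ δ1}

/-- PACKET DF2 (family of discs in a chart, with the direction; copy Pool/Agent/Helper55/RZ/DF.lean; from T1).  There `Ξ (a, b) = L a + L' b`
with `L : ℝ^u → range (p 2)`, `p 2 = phat c P 2 z0`, which is the additional claim; smaller `r`: restrict (`Disc` for `r1` implies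
`Disc` for `r ≤ r1`). -/
def StmtDF2 : Prop := ∀ (N K u : ℕ) (M : Set (E K)) (m : Measure (E K)) (f f' : E K → E K)
  (P : Fin 3 → E K → End K), SmoothVolume N K M m → IsDiffeo 1 M f f' → PH M f f' P →
  ∀ (c : Chart N K M) (z0 : E N), z0 ∈ c.V →
  Module.finrank ℝ (LinearMap.range (P 2 (c.ψ z0) : E K →ₗ[ℝ] E K)) = u →
  ∃ (w : ℕ) (Ξ : (E u × E w) ≃L[ℝ] E N) (r lam : ℝ), 0 < r ∧ 0 < lam ∧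
  (∀ a : E u, phat c P 2 z0 (Ξ (a, 0)) = Ξ (a, 0)) ∧
  (∀ a b, ‖a‖ < r → ‖b‖ < r → z0 + Ξ (a, b) ∈ c.V) ∧
  ∀ b : E w, ‖b‖ < r → ∃ (g : E u → M) (g' : E u → (E u →L[ℝ] E K)),
    (∀ a, ‖a‖ < r → (g a : E K) = c.ψ (z0 + Ξ (a, b))) ∧
    Disc (fun x : M => Pi M x) (fun x : M => P 0 x + P 1 x) (fun x : M => P 2 x) r lam g g'

/-- PACKET GF2 (from RE2, DF2, FB; compare Pool/Agent/Helper62/RZ/RET.lean).  `Ξ, r, lam` from DF2, `O = {x ∈ c.W : Ξ⁻¹ (φ x - z0) = (a, b), ‖a‖ <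
r/2, ‖b‖ < r/2}`.  Given `ε, δ1`: `C` from RE2, `Cc = C`.  For `A` as in the statement and `‖b‖ ≤ r/2` let `A_b = {a : ‖a‖ ≤ r/2, g_b a ∈ A}`
(closed); the hypothesis of RE2 holds by `Disc.cone`.  `S = {y : y = ψ (z0 + Ξ (a, b)), ‖a‖ ≤ 3r/4, ‖b‖ ≤ r/2, and there is x ∈ A with the same
`b`-coordinate and `‖D^j y - D^j x‖ ≤ δ1` for `j ≤ q`}` : compact (projection of a closed subset of the compact set `box × A`);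
`φ y - φ x = Ξ (a - a', 0)`.  FB for `φ '' A` and for `φ '' S` (both compact; `A = ψ '' (φ '' A)`), the slice of `φ '' S` at `b` is the set on the
right side of RE2; the slices of `φ '' A` with `‖b‖ > r/2` are empty. -/
def StmtGF2 : Prop := ∀ (N K u : ℕ) (M : Set (E K)) (m : Measure (E K)) (f f' : E K → E K)
  (P : Fin 3 → E K → End K), SmoothVolume N K M m → IsDiffeo 1 M f f' → PH M f f' P →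
  ∀ (c : Chart N K M) (z0 : E N), z0 ∈ c.V →
  (∀ A : Set (E N), MeasurableSet A → A ⊆ c.V → m (c.ψ '' A) = volume A) →
  Module.finrank ℝ (LinearMap.range (P 2 (c.ψ z0) : E K →ₗ[ℝ] E K)) = u →
  ∀ D : Coc M K, (∀ x : M, D.T x = Pi M x) →
  Hyp8 D (fun x : M => P 0 x + P 1 x) (fun x : M => P 2 x) →
  ∃ O : Set (E K), IsOpen O ∧ c.ψ z0 ∈ O ∧ ∀ ε δ1 : ℝ, 0 < ε → 0 < δ1 → ∃ Cc : ℝ, 0 ≤ Cc ∧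
  ∀ (q : ℕ) (ρ : ℝ) (A : Set M), 0 < ρ → IsCompact A → (∀ x ∈ A, (x : E K) ∈ O) →
  (∀ x ∈ A, ∀ y ∈ A,
    ‖(P 0 (x : E K) + P 1 (x : E K)) ((y : E K) - x)‖ ≤ ‖P 2 (x : E K) ((y : E K) - x)‖ →
    (∀ j ≤ q, ‖(D.f^[j] x : E K) - D.f^[j] y‖ ≤ δ1) →
    ‖(D.f^[q] x : E K) - D.f^[q] y‖ ≤ ρ) →
  ∃ S : Set M, IsCompact S ∧
    (∀ y ∈ S, ∃ x ∈ A, (x : E K) ∈ c.W ∧ (y : E K) ∈ c.W ∧
      phat c P 2 z0 (c.φ y - c.φ x) = c.φ y - c.φ x ∧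
      ∀ j ≤ q, ‖(D.f^[j] y : E K) - D.f^[j] x‖ ≤ δ1) ∧
    m (((↑) : M → E K) '' A) ≤
      ENNReal.ofReal (Cc * Real.exp (ε * q) * ρ ^ u) * m (((↑) : M → E K) '' S)

/-- PACKET CC (comparison of differences with the chart; from T1).  `J = fderiv ψ z0`.  First claim: definition of `phat` and T1 (`J Dφ P i = P
i` at `x0 = ψ z0`, since `Pi M x0 * P i x0 = P i x0`).  `ψ` is strictly differentiable at `z0` : `‖ψ z' - ψ z - J (z' - z)‖ ≤ ε ‖z' - z‖` near `z0`, and `‖v‖ ≤ ‖Dφ‖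
‖J v‖` (T1); with `z = φ x`, `z' = φ y`.  `P i x (y - x) - P i x0 J (z' - z) = P i x ((y - x) - J (z' - z)) + (P i x - P i x0) J (z' - z)`. -/
def StmtCC : Prop := ∀ (N K : ℕ) (M : Set (E K)) (P : Fin 3 → E K → End K) (c : Chart N K M)
  (z0 : E N), z0 ∈ c.V → (∀ i, ContinuousOn (P i) M) →
  (∀ x ∈ M, ∀ i j, P i x * P j x = if i = j then P i x else 0) →
  (∀ x ∈ M, P 0 x + P 1 x + P 2 x = Pi M x) →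
  (∀ i w, P i (c.ψ z0) (fderiv ℝ c.ψ z0 w) = fderiv ℝ c.ψ z0 (phat c P i z0 w)) ∧
  ∀ η : ℝ, 0 < η → ∃ W : Set (E K), IsOpen W ∧ c.ψ z0 ∈ W ∧ W ⊆ c.W ∧
  ∀ x ∈ M ∩ W, ∀ y ∈ M ∩ W,
    ‖(y - x) - fderiv ℝ c.ψ z0 (c.φ y - c.φ x)‖ ≤ η * ‖fderiv ℝ c.ψ z0 (c.φ y - c.φ x)‖ ∧
    ∀ i, ‖P i x (y - x) - P i (c.ψ z0) (fderiv ℝ c.ψ z0 (c.φ y - c.φ x))‖ ≤
      η * ‖fderiv ℝ c.ψ z0 (c.φ y - c.φ x)‖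

/-- PACKET TC (cones of pairs under boundedly many inverse iterates).  Induction on `j < k0` with the case of one step: let `v = y - x`, `W = f y - f x`,
`R ≥ 1` a bound for all `‖P i‖, ‖A‖, ‖B‖`.  `‖v - B (f x) W‖ ≤ ‖W‖` (`lin'`) gives `‖v‖ ≤ (R + 1) ‖W‖`.  `(1 - T (f x)) W = (1 - T) (W - A x v)` is `≤ (1 + 3R) ε ‖v‖`, so `‖W‖ ≤ (1 + κ)
‖P 0 W‖ + ‖W‖/2`, `‖W‖ ≤ 2 (1 + κ) ‖P 0 W‖` (all at `f x`).  `P 0 (f x) W = A x P 0 x v + P 0 (f x) (W - A x v)`, so `‖P 0 W‖ ≤ R ‖P 0 x v‖ + R ε ‖v‖ ≤ R ‖P 0 x v‖ + ‖P 0 W‖/2`.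
Finally `‖(P 2 + P 1) v‖ ≤ 2 R ‖v‖ ≤ 2 R (R + 1) ‖W‖ ≤ κ' ‖P 0 x v‖`. -/
def StmtTC : Prop := ∀ (K : ℕ) (M : Set (E K)), IsCompact M → ∀ (C : Coc M K)
  (P : Fin 3 → M → End K), Lin C → Spl C P → ∀ (k0 : ℕ) (κ : ℝ), 1 ≤ κ →
  ∃ κ' δ : ℝ, 1 ≤ κ' ∧ 0 < δ ∧ ∀ j < k0, ∀ x y : M, ‖(y : E K) - x‖ ≤ δ →
  ‖(P 2 (C.f^[j] x) + P 1 (C.f^[j] x)) ((C.f^[j] y : E K) - C.f^[j] x)‖ ≤
    κ * ‖P 0 (C.f^[j] x) ((C.f^[j] y : E K) - C.f^[j] x)‖ →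
  ‖(P 2 x + P 1 x) ((y : E K) - x)‖ ≤ κ' * ‖P 0 x ((y : E K) - x)‖

/-- PACKET PR (four points; from PG, CC, TC).  `x0 = ψ z0`, `J = fderiv ψ z0`, `R ≥ 1` a bound for `‖P i‖` on `M`, `τ = C.f^[j]`; `L ≥ 1` with `‖τ p - τ q‖ ≤ L ‖p - q‖ ≤ L² ‖τ
p - τ q‖` for all `j < k0` (`Pool.Agent.Helper62.RZ.inv_lip` and the same for `C.inv`, `ud_one` of Pool/Agent/Helper16/RZ/LP.lean).  `η` small depending on `R`; `W` = ball around `x0`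
of radius `s`, `ρ0 ≤ s`, such that CC holds with `η` on the ball of radius `2s`.  Notation: `vx = x' - x`, `vy = y' - y`, `Vx = J (φ x' - φ x)`, `Vy = J (φ y' - φ y)`, `A_i = P i x0 Vy`; as `J
(φ y - φ x)` and `J (φ y' - φ x')` are in the range of `P 2 x0` (CC, first claim), `P i x0 Vx = A_i` for `i = 0, 1`; `B = P 2 x0 Vx`; `m0 = ‖A_0‖`; `V = ∑ P i x0 V` for both.
(a) PG for `D.inv`, `κ = 1` and the pair `D^q y, D^q y'` : `‖(P 2 + P 1) (y) vy‖ ≤ ‖P 0 (y) vy‖`.  By CC `‖A_1 + A_2‖ ≤ m0 + 3 η ‖Vy‖`, so `‖Vy‖ ≤ 3 m0`, `‖A_1‖ ≤ 3 R m0`.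
(b) Case `m0 ≤ ‖B‖` : `‖Vx‖ ≤ (2 + 3R) ‖B‖`, `‖P 2 x vx‖ ≥ ‖B‖/2`, `‖(P 0 + P 1) (x) vx‖ ≤ 4 R ‖Vx‖ ≤ κ1 ‖P 2 x vx‖`; PG for `D` (`x, x'` are Bowen close with `3 δ`): `c 4^q ‖vx‖ ≤ ‖D^q x' - D^q x‖ ≤ L (2 ρ +
‖vx‖)`, so `‖vx‖ ≤ 2 ρ` if `c 4^q ≥ 2 L`; `m0 ≤ ‖B‖ ≤ R ‖Vx‖ ≤ 4 R ρ`.
(c) Case `‖B‖ < m0` : `‖Vx‖ ≤ (2 + 3R) m0`.  Suppose `m0 ≥ 100 R ρ`.  Let `x1 = τ D^q x`, `x1' = τ D^q x'`, `w = x1' - x1`, `‖w - vx‖ ≤ 2 ρ`, `x1, x1'` in the ball of radius `2s`; `V1 = J (φ x1' - φ x1)`, `‖V1 - Vx‖ ≤ 2 ρ + η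
(‖V1‖ + ‖Vx‖) ≤ m0/(10 R)`; so `‖P 0 x1 w‖ ≥ m0/2` and `‖(P 2 + P 1) (x1) w‖ ≤ 2 R ‖w‖ ≤ κ2 ‖P 0 x1 w‖`.  TC: the pair `D^q x, D^q x'` is in the cone of aperture `κ3`; PG for `D.inv` with `κ3` : `c 4^q ‖D^q x' - D^q x‖ ≤
‖vx‖`, and `‖vx‖ - 2 ρ ≤ ‖w‖ ≤ L ‖D^q x' - D^q x‖ ≤ ‖vx‖/2` if `c 4^q ≥ 2 L`; so `‖vx‖ ≤ 4 ρ`, `m0 ≤ R ‖Vx‖ ≤ 8 R ρ`.
So `m0 ≤ 100 R ρ` and `‖vy‖ ≤ 2 ‖Vy‖ ≤ 6 m0`. -/
def StmtPR : Prop := ∀ (N K : ℕ) (M : Set (E K)) (P : Fin 3 → E K → End K) (c : Chart N K M)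
  (z0 : E N), z0 ∈ c.V → IsCompact M → (∀ i, ContinuousOn (P i) M) →
  (∀ x ∈ M, ∀ i j, P i x * P j x = if i = j then P i x else 0) →
  (∀ x ∈ M, P 0 x + P 1 x + P 2 x = Pi M x) →
  ∀ (C D : Coc M K) (k0 : ℕ), Lin C → Spl C (fun i (x : M) => P i x) →
  Hyp8 D (fun x : M => P 0 x + P 1 x) (fun x : M => P 2 x) →
  Hyp8 D.inv (fun x : M => P 2 x + P 1 x) (fun x : M => P 0 x) →
  ∃ (W : Set (E K)) (δ ρ0 C3 : ℝ) (q0 : ℕ), IsOpen W ∧ c.ψ z0 ∈ W ∧ W ⊆ c.W ∧ 0 < δ ∧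
  0 < ρ0 ∧ 0 < C3 ∧ ∀ (q j : ℕ) (ρ : ℝ) (x x' y y' : M), q0 ≤ q → j < k0 → 0 < ρ → ρ ≤ ρ0 →
  (x : E K) ∈ W → (x' : E K) ∈ W → (y : E K) ∈ W → (y' : E K) ∈ W →
  ‖(C.f^[j] (D.f^[q] x) : E K) - x‖ ≤ ρ → ‖(C.f^[j] (D.f^[q] x') : E K) - x'‖ ≤ ρ →
  phat c P 2 z0 (c.φ y - c.φ x) = c.φ y - c.φ x →
  phat c P 2 z0 (c.φ y' - c.φ x') = c.φ y' - c.φ x' →
  (∀ i ≤ q, ‖(D.f^[i] y : E K) - D.f^[i] x‖ ≤ δ ∧ ‖(D.f^[i] y' : E K) - D.f^[i] x'‖ ≤ δ ∧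
    ‖(D.f^[i] y' : E K) - D.f^[i] y‖ ≤ δ) →
  ‖(P 2 (D.f^[q] y : E K) + P 1 (D.f^[q] y : E K)) ((D.f^[q] y' : E K) - D.f^[q] y)‖ ≤
    ‖P 0 (D.f^[q] y : E K) ((D.f^[q] y' : E K) - D.f^[q] y)‖ →
  ‖(y' : E K) - y‖ ≤ C3 * ρ

/-- long near returns (captain; from GF2, PR, PG, T4, T5, SW, MS, LN, LZ, LP, PW, DN) -/
def StmtRTA : Prop := ∀ (N K : ℕ) (M : Set (E K)) (m : Measure (E K)) (f f' : E K → E K)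
  (P : Fin 3 → E K → End K), SmoothVolume N K M m → IsDiffeo 2 M f f' → Preserves M m f →
  PH M f f' P → ∀ x0 ∈ M, ∀ ε : ℝ, 0 < ε → ∃ (U : Set (E K)) (Cc ρ0 : ℝ) (n0 : ℕ), IsOpen U ∧
  x0 ∈ U ∧ 0 ≤ Cc ∧ 0 < ρ0 ∧ ∀ n : ℕ, n0 ≤ n → ∀ ρ : ℝ, 0 < ρ → ρ ≤ ρ0 →
  (m {x | x ∈ M ∩ U ∧ ‖f^[n] x - x‖ ≤ ρ}).toReal ≤
    Cc * Real.exp (ε * n) * ρ ^ (rk (P 0 x0) + rk (P 2 x0))

/-- near returns (captain; from RTA) -/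
def StmtRTB : Prop := ∀ (N K : ℕ) (M : Set (E K)) (m : Measure (E K)) (f f' : E K → E K)
  (P : Fin 3 → E K → End K), SmoothVolume N K M m → IsDiffeo 2 M f f' → Preserves M m f →
  PH M f f' P → ∀ x0 ∈ M, (∀ j : ℕ, 1 ≤ j → f^[j] x0 ≠ x0) →
  ∀ l : ℝ, 0 < l → l < 1 → ∃ (U : Set (E K)) (C : ℝ), IsOpen U ∧ x0 ∈ U ∧
  ∀ ρ : ℝ, 0 < ρ → ∀ N0 : ℕ, ∑ n ∈ Finset.range N0,
    l ^ n * (m {x | x ∈ M ∩ U ∧ ‖f^[n + 1] x - x‖ ≤ ρ}).toReal ≤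
      C * ρ ^ (rk (P 0 x0) + rk (P 2 x0))

end Pool.Agent.Helper56.RZ
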